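import Pool.Agent.H781.KP.A
import Pool.Agent.H781.CM.LY

/-!
Project KP: the estimate of Lichnerowicz of the eigenvalues of the Laplacian on functions.
-/

set_option autoImplicit false
set_option synthInstance.maxHeartbeats 400000
set_option maxHeartbeats 4000000
set_option linter.unusedSectionVars false

open MeasureTheory Filter
open scoped Topology ContDiff

noncomputable section

namespace Pool.Agent.H781.KP

open Pool.Agent.H781.NG Pool.Agent.H781.CM Pool.Agent.H781.H6

namespace Lich

section alg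

variable {m : ℕ} (T : T4 m)

/-- linearity in the first slot -/
def L1 (y z w : Fin m → ℝ) : (Fin m → ℝ) →ₗ[ℝ] ℝ where
  toFun x := R4 T x y z w
  map_add' x x' := by
    simp only [R4, Pi.add_apply, mul_add, add_mul, Finset.sum_add_distrib]
  map_smul' r x := by
    simp only [R4, Pi.smul_apply, smul_eq_mul, RingHom.id_apply, Finset.mul_sum]
    refine Finset.sum_congr rfl fun a _ => Finset.sum_congr rfl fun b _ =>
      Finset.sum_congr rfl fun c _ => Finset.sum_congr rfl fun d _ => ?_
    ring

/-- linearity in the second slot -/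
def L2 (x z w : Fin m → ℝ) : (Fin m → ℝ) →ₗ[ℝ] ℝ where
  toFun y := R4 T x y z w
  map_add' y y' := by
    simp only [R4, Pi.add_apply, mul_add, add_mul, Finset.sum_add_distrib]
  map_smul' r y := by
    simp only [R4, Pi.smul_apply, smul_eq_mul, RingHom.id_apply, Finset.mul_sum]
    refine Finset.sum_congr rfl fun a _ => Finset.sum_congr rfl fun b _ =>
      Finset.sum_congr rfl fun c _ => Finset.sum_congr rfl fun d _ => ?_
    ring

/-- linearity in the third slot -/
def L3 (x y w : Fin m → ℝ) : (Fin m → ℝ) →ₗ[ℝ] ℝ where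
  toFun z := R4 T x y z w
  map_add' z z' := by
    simp only [R4, Pi.add_apply, mul_add, add_mul, Finset.sum_add_distrib]
  map_smul' r z := by
    simp only [R4, Pi.smul_apply, smul_eq_mul, RingHom.id_apply, Finset.mul_sum]
    refine Finset.sum_congr rfl fun a _ => Finset.sum_congr rfl fun b _ =>
      Finset.sum_congr rfl fun c _ => Finset.sum_congr rfl fun d _ => ?_
    ring

/-- linearity in the fourth slot -/
def L4 (x y z : Fin m → ℝ) : (Fin m → ℝ) →ₗ[ℝ] ℝ where
  toFun w := R4 T x y z w
  map_add' w w' := by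
    simp only [R4, Pi.add_apply, mul_add, Finset.sum_add_distrib]
  map_smul' r w := by
    simp only [R4, Pi.smul_apply, smul_eq_mul, RingHom.id_apply, Finset.mul_sum]
    refine Finset.sum_congr rfl fun a _ => Finset.sum_congr rfl fun b _ =>
      Finset.sum_congr rfl fun c _ => Finset.sum_congr rfl fun d _ => ?_
    ring

theorem smul1 (r : ℝ) (x y z w : Fin m → ℝ) : R4 T (r • x) y z w = r * R4 T x y z w :=
  map_smul (L1 T y z w) r x

theorem smul2 (r : ℝ) (x y z w : Fin m → ℝ) : R4 T x (r • y) z w = r * R4 T x y z w :=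
  map_smul (L2 T x z w) r y

theorem smul3 (r : ℝ) (x y z w : Fin m → ℝ) : R4 T x y (r • z) w = r * R4 T x y z w :=
  map_smul (L3 T x y w) r z

theorem smul4 (r : ℝ) (x y z w : Fin m → ℝ) : R4 T x y z (r • w) = r * R4 T x y z w :=
  map_smul (L4 T x y z) r w

theorem sub1 (x x' y z w : Fin m → ℝ) : R4 T (x - x') y z w = R4 T x y z w - R4 T x' y z w :=
  map_sub (L1 T y z w) x x'

theorem sub4 (x y z w w' : Fin m → ℝ) : R4 T x y z (w - w') = R4 T x y z w - R4 T x y z w' :=
  map_sub (L4 T x y z) w w'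

theorem sum2 {n : ℕ} (x z w : Fin m → ℝ) (y : Fin n → ℝ) (b : Fin n → Fin m → ℝ) :
    R4 T x (∑ j, y j • b j) z w = ∑ j, y j * R4 T x (b j) z w := by
  have h := map_sum (L2 T x z w) (fun j => y j • b j) Finset.univ
  refine h.trans (Finset.sum_congr rfl fun j _ => ?_)
  exact map_smul (L2 T x z w) _ _

theorem sum3 {n : ℕ} (x y w : Fin m → ℝ) (z : Fin n → ℝ) (b : Fin n → Fin m → ℝ) :
    R4 T x y (∑ j, z j • b j) w = ∑ j, z j * R4 T x y (b j) w := by
  have h := map_sum (L3 T x y w) (fun j => z j • b j) Finset.univ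
  refine h.trans (Finset.sum_congr rfl fun j _ => ?_)
  exact map_smul (L3 T x y w) _ _

variable {T}

theorem skew12 (h : ∀ a b c d, T a b c d = - T b a c d) (x z w : Fin m → ℝ) :
    R4 T x x z w = 0 := by
  have h1 : R4 T x x z w = - R4 T x x z w := by
    unfold R4
    conv_lhs => rw [Finset.sum_comm]
    rw [← Finset.sum_neg_distrib]
    refine Finset.sum_congr rfl fun a _ => ?_
    rw [← Finset.sum_neg_distrib]
    refine Finset.sum_congr rfl fun b _ => ?_
    rw [← Finset.sum_neg_distrib]
    refine Finset.sum_congr rfl fun c _ => ?_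
    rw [← Finset.sum_neg_distrib]
    refine Finset.sum_congr rfl fun d _ => ?_
    rw [h b a c d]
    ring
  linarith

theorem skew34 (h : ∀ a b c d, T a b c d = - T a b d c) (x y z : Fin m → ℝ) :
    R4 T x y z z = 0 := by
  have h1 : R4 T x y z z = - R4 T x y z z := by
    unfold R4
    rw [← Finset.sum_neg_distrib]
    refine Finset.sum_congr rfl fun a _ => ?_
    rw [← Finset.sum_neg_distrib]
    refine Finset.sum_congr rfl fun b _ => ?_
    conv_lhs => rw [Finset.sum_comm]
    rw [← Finset.sum_neg_distrib]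
    refine Finset.sum_congr rfl fun c _ => ?_
    rw [← Finset.sum_neg_distrib]
    refine Finset.sum_congr rfl fun d _ => ?_
    rw [h a b d c]
    ring
  linarith

theorem dt_self_nonneg (x : Fin m → ℝ) : 0 ≤ dt x x :=
  Finset.sum_nonneg fun _ _ => mul_self_nonneg _

theorem dt_self_eq_zero {x : Fin m → ℝ} (h : dt x x = 0) : x = 0 := by
  funext a
  have := (Finset.sum_eq_zero_iff_of_nonneg (fun a _ => mul_self_nonneg (x a))).1 h a
    (Finset.mem_univ a)
  exact mul_self_eq_zero.1 this

theorem dt_smul_smul (r s : ℝ) (x y : Fin m → ℝ) : dt (r • x) (s • y) = r * s * dt x y := by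
  unfold dt
  rw [Finset.mul_sum]
  refine Finset.sum_congr rfl fun a _ => ?_
  rw [Pi.smul_apply, Pi.smul_apply, smul_eq_mul, smul_eq_mul]
  ring

/-- the sectional curvature of vectors of any length -/
theorem kge {κ : ℝ} (hK : KGE T κ) {w y : Fin m → ℝ} (h : dt w y = 0) :
    κ * (dt w w * dt y y) ≤ R4 T w y y w := by
  by_cases hw : dt w w = 0
  · have hw0 := dt_self_eq_zero hw
    have e : R4 T w y y w = 0 := by
      rw [hw0]
      exact map_zero (L1 T y y 0)
    rw [e, hw, zero_mul, mul_zero]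
  by_cases hy : dt y y = 0
  · have hy0 := dt_self_eq_zero hy
    have e : R4 T w y y w = 0 := by
      rw [hy0]
      exact map_zero (L2 T w 0 w)
    rw [e, hy, mul_zero, mul_zero]
  have hw1 : 0 < dt w w := lt_of_le_of_ne (dt_self_nonneg w) (Ne.symm hw)
  have hy1 : 0 < dt y y := lt_of_le_of_ne (dt_self_nonneg y) (Ne.symm hy)
  set r := (√(dt w w))⁻¹ with hr
  set s := (√(dt y y))⁻¹ with hs
  have hr2 : r * r * dt w w = 1 := by
    rw [hr, ← mul_inv, Real.mul_self_sqrt hw1.le, inv_mul_cancel₀ hw]
  have hs2 : s * s * dt y y = 1 := by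
    rw [hs, ← mul_inv, Real.mul_self_sqrt hy1.le, inv_mul_cancel₀ hy]
  have h1 := hK (r • w) (s • y) (by rw [dt_smul_smul, hr2]) (by rw [dt_smul_smul, hs2])
    (by rw [dt_smul_smul, h, mul_zero])
  rw [smul1, smul2, smul3, smul4] at h1
  have h2 := mul_le_mul_of_nonneg_right h1 (mul_pos hw1 hy1).le
  have e : r * (s * (s * (r * R4 T w y y w))) * (dt w w * dt y y) =
      (r * r * dt w w) * (s * s * dt y y) * R4 T w y y w := by ring
  rw [e, hr2, hs2, one_mul, one_mul] at h2
  exact h2

theorem R4_single (i : Fin m) (y : Fin m → ℝ) :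
    R4 T (Pi.single i 1) y y (Pi.single i 1) = ∑ j, ∑ k, T i j k i * y j * y k := by
  unfold R4
  rw [Finset.sum_eq_single i]
  · refine Finset.sum_congr rfl fun j _ => Finset.sum_congr rfl fun k _ => ?_
    rw [Finset.sum_eq_single i]
    · rw [Pi.single_eq_same]
      ring
    · intro d _ hd
      rw [Pi.single_eq_of_ne hd, mul_zero]
    · intro h
      exact absurd (Finset.mem_univ i) h
  · intro a _ ha
    refine Finset.sum_eq_zero fun b _ => Finset.sum_eq_zero fun c _ =>
      Finset.sum_eq_zero fun d _ => ?_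
    rw [Pi.single_eq_of_ne ha]
    ring
  · intro h
    exact absurd (Finset.mem_univ i) h

/-- the Ricci curvature -/
theorem ricK {κ : ℝ} (hR : IsAC T) (hK : KGE T κ) (hm : 2 ≤ m) (hκ : 0 < κ) (y : Fin m → ℝ) :
    κ * dt y y ≤ ∑ i, ∑ j, ∑ k, T i j k i * y j * y k := by
  classical
  by_cases hy : dt y y = 0
  · have hy0 := dt_self_eq_zero hy
    rw [hy, mul_zero, hy0]
    refine (Finset.sum_nonneg fun i _ => Finset.sum_nonneg fun j _ =>
      Finset.sum_nonneg fun k _ => ?_)
    simp
  have hs : 0 < dt y y := lt_of_le_of_ne (dt_self_nonneg y) (Ne.symm hy)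
  have h1 : ∀ i, κ * (dt y y - y i * y i) ≤ ∑ j, ∑ k, T i j k i * y j * y k := by
    intro i
    rw [← R4_single]
    have h2 : dt (dt y y • (Pi.single i 1 : Fin m → ℝ) - y i • y) y = 0 := by
      have e : dt (dt y y • (Pi.single i 1 : Fin m → ℝ) - y i • y) y =
          dt y y * dt (Pi.single i 1) y - y i * dt y y := by
        unfold dt
        rw [Finset.mul_sum, Finset.mul_sum, ← Finset.sum_sub_distrib]
        refine Finset.sum_congr rfl fun a _ => ?_
        rw [Pi.sub_apply, Pi.smul_apply, Pi.smul_apply, smul_eq_mul, smul_eq_mul]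
        ring
      have e2 : dt (Pi.single i 1) y = y i := by
        unfold dt
        rw [Finset.sum_eq_single i]
        · rw [Pi.single_eq_same, one_mul]
        · intro a _ ha
          rw [Pi.single_eq_of_ne ha, zero_mul]
        · intro h
          exact absurd (Finset.mem_univ i) h
      rw [e, e2]
      ring
    have h3 : dt (dt y y • (Pi.single i 1 : Fin m → ℝ) - y i • y)
        (dt y y • (Pi.single i 1 : Fin m → ℝ) - y i • y) = dt y y * (dt y y - y i * y i) := by
      have e : dt (dt y y • (Pi.single i 1 : Fin m → ℝ) - y i • y)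
          (dt y y • (Pi.single i 1 : Fin m → ℝ) - y i • y) =
          dt y y * dt (dt y y • (Pi.single i 1 : Fin m → ℝ) - y i • y) (Pi.single i 1) -
            y i * dt (dt y y • (Pi.single i 1 : Fin m → ℝ) - y i • y) y := by
        unfold dt
        rw [Finset.mul_sum, Finset.mul_sum, ← Finset.sum_sub_distrib]
        refine Finset.sum_congr rfl fun a _ => ?_
        rw [Pi.sub_apply, Pi.smul_apply, Pi.smul_apply, smul_eq_mul, smul_eq_mul]
        ring
      have e2 : dt (dt y y • (Pi.single i 1 : Fin m → ℝ) - y i • y) (Pi.single i 1) =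
          dt y y - y i * y i := by
        conv_lhs => unfold dt
        rw [Finset.sum_eq_single i]
        · rw [Pi.single_eq_same, mul_one, Pi.sub_apply, Pi.smul_apply, Pi.smul_apply,
            smul_eq_mul, smul_eq_mul, Pi.single_eq_same, mul_one]
          rfl
        · intro a _ ha
          rw [Pi.single_eq_of_ne ha, mul_zero]
        · intro h
          exact absurd (Finset.mem_univ i) h
      rw [e, h2, e2, mul_zero, sub_zero]
    have h4 := kge hK h2
    rw [h3, sub4, smul4, smul4, skew34 hR.a34, mul_zero, sub_zero, sub1, smul1, smul1,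
      skew12 hR.a12, mul_zero, sub_zero] at h4
    have h5 : (dt y y * dt y y) * (κ * (dt y y - y i * y i)) ≤
        (dt y y * dt y y) * R4 T (Pi.single i 1) y y (Pi.single i 1) := by
      calc (dt y y * dt y y) * (κ * (dt y y - y i * y i)) =
          κ * (dt y y * (dt y y - y i * y i) * dt y y) := by ring
        _ ≤ _ := h4
        _ = _ := by ring
    exact le_of_mul_le_mul_left h5 (mul_pos hs hs)
  refine le_trans ?_ (Finset.sum_le_sum fun i _ => h1 i)
  rw [← Finset.mul_sum, Finset.sum_sub_distrib, Finset.sum_const, Finset.card_univ,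
    Fintype.card_fin, nsmul_eq_mul]
  refine mul_le_mul_of_nonneg_left ?_ hκ.le
  have hm' : (2 : ℝ) ≤ m := by exact_mod_cast hm
  have e : ∑ i, y i * y i = dt y y := rfl
  rw [e]
  nlinarith

/-- the trace over the tangent space -/
theorem tr {n : ℕ} (P : Fin m → Fin m → ℝ) (b : Fin n → Fin m → ℝ)
    (hP : ∀ a c, P a c = ∑ i, b i a * b i c)
    (h2 : ∀ a b c d, ∑ a', P a a' * T a' b c d = T a b c d)
    (h4 : ∀ a b c d, T a b c d = - T a b d c) (X : Fin m → ℝ) :
    ∑ i, R4 T (b i) X X (b i) = - ∑ a, ∑ b, ∑ d, T a b a d * X b * X d := by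
  have e1 : ∀ i, R4 T (b i) X X (b i) =
      ∑ d, ∑ a, b i d * b i a * ∑ b', ∑ c, T a b' c d * X b' * X c := by
    intro i
    rw [Finset.sum_comm]
    unfold R4
    refine Finset.sum_congr rfl fun a _ => ?_
    have e : ∀ d, b i d * b i a * ∑ b', ∑ c, T a b' c d * X b' * X c =
        ∑ b', ∑ c, T a b' c d * b i a * X b' * X c * b i d := by
      intro d
      rw [Finset.mul_sum]
      refine Finset.sum_congr rfl fun b' _ => ?_
      rw [Finset.mul_sum]
      refine Finset.sum_congr rfl fun c _ => ?_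
      ring
    rw [Finset.sum_congr rfl fun d _ => e d]
    conv_rhs => rw [Finset.sum_comm]
    refine Finset.sum_congr rfl fun b' _ => ?_
    conv_rhs => rw [Finset.sum_comm]
  rw [Finset.sum_congr rfl fun i _ => e1 i, Finset.sum_comm, ← Finset.sum_neg_distrib]
  refine Finset.sum_congr rfl fun d _ => ?_
  rw [Finset.sum_comm]
  have e2 : ∀ a, ∑ i, b i d * b i a * ∑ b', ∑ c, T a b' c d * X b' * X c =
      ∑ b', ∑ c, P d a * T a b' c d * (X b' * X c) := by
    intro a
    rw [← Finset.sum_mul, ← hP, Finset.mul_sum]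
    refine Finset.sum_congr rfl fun b' _ => ?_
    rw [Finset.mul_sum]
    refine Finset.sum_congr rfl fun c _ => ?_
    ring
  rw [Finset.sum_congr rfl fun a _ => e2 a, Finset.sum_comm, ← Finset.sum_neg_distrib]
  refine Finset.sum_congr rfl fun b' _ => ?_
  rw [Finset.sum_comm, ← Finset.sum_neg_distrib]
  refine Finset.sum_congr rfl fun c _ => ?_
  rw [← Finset.sum_mul, h2, h4]
  ring

end alg

section pt

variable {M : Type} [TopologicalSpace M] [CompactSpace M] [MeasurableSpace M] [BorelSpace M]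
  {N : ℕ} (C : CD M N)

/-- lower bound of the Ricci curvature -/
theorem ric_ge (h2 : S_RMP) {n : ℕ} {κ : ℝ} (hn : 2 ≤ n) (hκ : 0 < κ) (hC : PtK C n κ)
    (u : C.A) (q : M) : κ * C.ev q (gsq C u) ≤
      C.ev q (- ∑ a, ∑ b, ∑ d, Rm C.F a b a d * C.F.e b u * C.F.e d u) := by
  obtain ⟨b, hb, hP, hR, hK⟩ := hC q
  obtain ⟨-, r2, -, r4⟩ := h2 M N C
  have q2 : ∀ a b c d, ∑ a', C.ev q (C.P a a') * Rq C q a' b c d = Rq C q a b c d := by
    intro a b c d
    have h := congrArg (C.ev q) (r2 a b c d)
    rw [map_sum] at h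
    refine Eq.trans (Finset.sum_congr rfl fun a' _ => ?_) h
    rw [map_mul]
    rfl
  have q4 : ∀ a b c d, Rq C q a b c d = - Rq C q a b d c := by
    intro a b c d
    have h := congrArg (C.ev q) (r4 a b c d)
    rw [map_neg] at h
    exact h
  set X : Fin N → ℝ := fun a => C.ev q (C.F.e a u) with hX
  set y : Fin n → ℝ := fun i => ∑ a, b i a * X a with hy
  have hXe : X = ∑ j, y j • b j := by
    funext c
    rw [Finset.sum_apply]
    have h := congrArg (C.ev q) (C.Pe c u)
    rw [map_sum] at h
    have h1 : X c = ∑ a, (∑ j, b j c * b j a) * X a := by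
      refine Eq.trans h.symm (Finset.sum_congr rfl fun a _ => ?_)
      rw [map_mul, hP]
    rw [h1]
    have h3 : ∀ j, (y j • b j) c = ∑ a, b j c * b j a * X a := by
      intro j
      rw [Pi.smul_apply, smul_eq_mul, hy, Finset.sum_mul]
      refine Finset.sum_congr rfl fun a _ => ?_
      ring
    rw [Finset.sum_congr rfl fun j _ => h3 j, Finset.sum_comm]
    refine Finset.sum_congr rfl fun a _ => ?_
    rw [Finset.sum_mul]
  have hg : C.ev q (gsq C u) = dt y y := by
    have h1 : C.ev q (gsq C u) = ∑ a, X a * X a := by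
      unfold gsq
      rw [map_sum]
      refine Finset.sum_congr rfl fun a _ => ?_
      rw [map_mul]
    have h3 : ∀ a, X a * X a = ∑ j, y j * (b j a * X a) := by
      intro a
      have h := congrFun hXe a
      rw [Finset.sum_apply] at h
      conv_lhs => rw [h]
      rw [Finset.sum_mul]
      refine Finset.sum_congr rfl fun j _ => ?_
      rw [Pi.smul_apply, smul_eq_mul, ← h]
      ring
    rw [h1, Finset.sum_congr rfl fun a _ => h3 a, Finset.sum_comm]
    unfold dt
    refine Finset.sum_congr rfl fun j _ => ?_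
    rw [← Finset.mul_sum]
  have h5 := ricK hR hK hn hκ y
  have h6 : ∑ i, ∑ j, ∑ k, Rb C q b i j k i * y j * y k =
      ∑ i, R4 (Rq C q) (b i) X X (b i) := by
    refine Finset.sum_congr rfl fun i _ => ?_
    rw [hXe, sum2]
    refine Finset.sum_congr rfl fun j _ => ?_
    rw [sum3, Finset.mul_sum]
    refine Finset.sum_congr rfl fun k _ => ?_
    unfold Rb
    ring
  rw [h6, tr (fun a c => C.ev q (C.P a c)) b hP q2 q4] at h5
  rw [hg]
  refine h5.trans (le_of_eq ?_)
  rw [map_neg, map_sum]
  congr 1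
  refine Finset.sum_congr rfl fun a _ => ?_
  rw [map_sum]
  refine Finset.sum_congr rfl fun b _ => ?_
  rw [map_sum]
  refine Finset.sum_congr rfl fun d _ => ?_
  rw [map_mul, map_mul]
  rfl

/-- Green's identity -/
theorem green (u : C.A) : ig C (gsq C u) = - ig C (u * Lap C u) := by
  have h := C.div (fun a => u * C.F.e a u)
  have e : dv C.F (fun a => u * C.F.e a u) = gsq C u + u * Lap C u := by
    have e1 : ∑ a, C.F.e a (u * C.F.e a u) = gsq C u + u * ∑ a, C.F.e a (C.F.e a u) := by
      unfold gsq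
      rw [Finset.mul_sum, ← Finset.sum_add_distrib]
      refine Finset.sum_congr rfl fun a _ => ?_
      rw [Derivation.leibniz, smul_eq_mul, smul_eq_mul]
      ring
    have e2 : ∑ a, ∑ b, C.F.Γ b a b * (u * C.F.e a u) =
        u * ∑ a, ∑ b, C.F.Γ b a b * C.F.e a u := by
      rw [Finset.mul_sum]
      refine Finset.sum_congr rfl fun a _ => ?_
      rw [Finset.mul_sum]
      refine Finset.sum_congr rfl fun b _ => ?_
      ring
    rw [LY.lap_eq_dv]
    unfold dv
    rw [e1, e2, mul_add, add_assoc]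
  rw [e] at h
  have h1 : ig C (gsq C u + u * Lap C u) = 0 := h
  rw [ig_add] at h1
  linarith

end pt

end Lich

open Lich in
theorem s_lich (h : S_BOCHF) (h2 : S_RMP) : S_LICH := by
  intro M _ _ _ _ N C n κ hn hκ hC u l hl hu hu0
  have hpos : 0 < ig C (u * u) := by
    have h0 : 0 ≤ ig C (u * u) := ig_nonneg C fun p => by
      rw [map_mul]
      exact mul_self_nonneg _
    refine lt_of_le_of_ne h0 fun hz => hu0 ?_
    have h1 := ig_eq_zero C (fun p => by rw [map_mul]; exact mul_self_nonneg _) hz.symm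
    refine C.ext_ev _ _ fun p => ?_
    have := congrArg (C.ev p) h1
    rw [map_mul, map_zero] at this
    rw [map_zero]
    exact mul_self_eq_zero.1 this
  have hg : ig C (gsq C u) = l * ig C (u * u) := by
    rw [green, hu, mul_neg, mul_smul_comm, ig_neg, ig_smul]
    ring
  have hgpos : 0 < ig C (gsq C u) := by
    rw [hg]
    exact mul_pos hl hpos
  have hb := LY.ig_lap C (gsq C u)
  rw [h M N C u] at hb
  have e1 : ∑ b, C.F.e b u * C.F.e b (Lap C u) = - (l • gsq C u) := by
    unfold gsq
    rw [hu, Finset.smul_sum, ← Finset.sum_neg_distrib]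
    refine Finset.sum_congr rfl fun b _ => ?_
    rw [map_neg, Derivation.map_smul, mul_neg, mul_smul_comm]
  have e2 : 2 * ∑ a, ∑ b, Hs C u a b ^ 2 + 2 * ∑ b, C.F.e b u * C.F.e b (Lap C u) -
      2 * ∑ a, ∑ b, ∑ d, Rm C.F a b a d * C.F.e b u * C.F.e d u =
      (2 : ℝ) • (∑ a, ∑ b, Hs C u a b ^ 2 + - (l • gsq C u) +
        - ∑ a, ∑ b, ∑ d, Rm C.F a b a d * C.F.e b u * C.F.e d u) := by
    rw [e1, two_smul]
    ring
  rw [e2, ig_smul, ig_add, ig_add, ig_neg, ig_smul] at hb
  have h5 : 0 ≤ ig C (∑ a, ∑ b, Hs C u a b ^ 2) := ig_nonneg C fun p => by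
    rw [map_sum]
    refine Finset.sum_nonneg fun a _ => ?_
    rw [map_sum]
    refine Finset.sum_nonneg fun b _ => ?_
    rw [map_pow]
    exact sq_nonneg _
  have h6 : κ * ig C (gsq C u) ≤
      ig C (- ∑ a, ∑ b, ∑ d, Rm C.F a b a d * C.F.e b u * C.F.e d u) := by
    rw [← ig_smul]
    refine ig_mono C fun p => ?_
    rw [ev_smul]
    exact ric_ge C h2 hn hκ hC u p
  have h7 : κ * ig C (gsq C u) ≤ l * ig C (gsq C u) := by linarith
  exact le_of_mul_le_mul_right h7 hgpos

end Pool.Agent.H781.KP
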