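import Pool.Agent.H781.KP.A

/-!
Compactness of almost algebras with a curvature tensor.
-/

set_option autoImplicit false
set_option synthInstance.maxHeartbeats 400000
set_option maxHeartbeats 4000000
set_option linter.unusedSectionVars false

open MeasureTheory Filter
open scoped Topology ContDiff

noncomputable section

namespace Pool.Agent.H781.KP

open Pool.Agent.H781.NG Pool.Agent.H781.CM Pool.Agent.H781.H6

namespace Cmpk

/-- the index set -/
abbrev Ix (N : ℕ) (d : Fin (N + 1) → ℕ) : Type := Σ p, Fin (d p)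

/-- the relations of an almost algebra -/
def Cond (n N : ℕ) (η : ℝ) (d : Fin (N + 1) → ℕ)
    (p : (Ix N d → Fk n ℝ) × (Ix N d → Ix N d → Ix N d → ℝ)) : Prop :=
  (∀ x, Deg x.1 (p.1 x)) ∧ (∀ i : Fin (d 0), p.1 ⟨0, i⟩ = vac ∨ p.1 ⟨0, i⟩ = - vac) ∧
    (∀ x y, |ip (p.1 x) (p.1 y) - if x = y then 1 else 0| ≤ η) ∧
    (∀ x y z, |p.2 x y z| ≤ 2 ^ N) ∧
    ∀ x y S, |(mulF (p.1 x) (p.1 y) - ∑ z, p.2 x y z • p.1 z) S| ≤ η

theorem cond_mono {n N : ℕ} {η η' : ℝ} {d : Fin (N + 1) → ℕ} (h : η ≤ η')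
    {p : (Ix N d → Fk n ℝ) × (Ix N d → Ix N d → Ix N d → ℝ)} (hp : Cond n N η d p) :
    Cond n N η' d p := by
  obtain ⟨h1, h2, h3, h4, h5⟩ := hp
  exact ⟨h1, h2, fun x y => (h3 x y).trans h, h4, fun x y S => (h5 x y S).trans h⟩

theorem cont_ev {n N : ℕ} {d : Fin (N + 1) → ℕ} (x : Ix N d) (S : Finset (Fin n)) :
    Continuous fun p : (Ix N d → Fk n ℝ) × (Ix N d → Ix N d → Ix N d → ℝ) => p.1 x S :=
  (continuous_apply S).comp ((continuous_apply x).comp continuous_fst)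

theorem cont_c {n N : ℕ} {d : Fin (N + 1) → ℕ} (x y z : Ix N d) :
    Continuous fun p : (Ix N d → Fk n ℝ) × (Ix N d → Ix N d → Ix N d → ℝ) => p.2 x y z :=
  (continuous_apply z).comp ((continuous_apply y).comp ((continuous_apply x).comp continuous_snd))

theorem cont_ip {n N : ℕ} {d : Fin (N + 1) → ℕ} (x y : Ix N d) :
    Continuous fun p : (Ix N d → Fk n ℝ) × (Ix N d → Ix N d → Ix N d → ℝ) =>
      ip (p.1 x) (p.1 y) := by
  unfold ip
  exact continuous_finsetSum _ fun S _ => (cont_ev x S).mul (cont_ev y S)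

theorem cont_mul {n N : ℕ} {d : Fin (N + 1) → ℕ} (x y : Ix N d) (S : Finset (Fin n)) :
    Continuous fun p : (Ix N d → Fk n ℝ) × (Ix N d → Ix N d → Ix N d → ℝ) =>
      (mulF (p.1 x) (p.1 y) - ∑ z, p.2 x y z • p.1 z) S := by
  have h1 : (fun p : (Ix N d → Fk n ℝ) × (Ix N d → Ix N d → Ix N d → ℝ) =>
      (mulF (p.1 x) (p.1 y) - ∑ z, p.2 x y z • p.1 z) S) = fun p =>
      (∑ R, (sg2 R (symmDiff R S) : ℝ) * p.1 x R * p.1 y (symmDiff R S)) -
        ∑ z, p.2 x y z * p.1 z S := by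
    funext p
    rw [Pi.sub_apply, Finset.sum_apply]
    rfl
  rw [h1]
  refine (continuous_finsetSum _ fun R _ => ?_).sub (continuous_finsetSum _ fun z _ => ?_)
  · exact (continuous_const.mul (cont_ev x R)).mul (cont_ev y _)
  · exact (cont_c x y z).mul (cont_ev z S)

theorem isClosed_all {Y : Type*} [TopologicalSpace Y] {ι : Sort*} {q : ι → Y → Prop}
    (h : ∀ i, IsClosed {p | q i p}) : IsClosed {p | ∀ i, q i p} := by
  have h1 : {p | ∀ i, q i p} = ⋂ i, {p | q i p} := by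
    ext p
    simp
  rw [h1]
  exact isClosed_iInter h

theorem closed_cond (n N : ℕ) (η : ℝ) (d : Fin (N + 1) → ℕ) :
    IsClosed {p | Cond n N η d p} := by
  have c1 : IsClosed {p : (Ix N d → Fk n ℝ) × (Ix N d → Ix N d → Ix N d → ℝ) |
      ∀ x : Ix N d, ∀ S : Finset (Fin n), S.card ≠ x.1 → p.1 x S = 0} :=
    isClosed_all fun x => isClosed_all fun S => isClosed_all fun _ =>
      isClosed_eq (cont_ev x S) continuous_const
  have c2 : IsClosed {p : (Ix N d → Fk n ℝ) × (Ix N d → Ix N d → Ix N d → ℝ) |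
      ∀ i : Fin (d 0), p.1 ⟨0, i⟩ = vac ∨ p.1 ⟨0, i⟩ = - vac} :=
    isClosed_all fun i => IsClosed.union
      (isClosed_eq ((continuous_apply _).comp continuous_fst) continuous_const)
      (isClosed_eq ((continuous_apply _).comp continuous_fst) continuous_const)
  have c3 : IsClosed {p : (Ix N d → Fk n ℝ) × (Ix N d → Ix N d → Ix N d → ℝ) |
      ∀ x y : Ix N d, |ip (p.1 x) (p.1 y) - if x = y then 1 else 0| ≤ η} :=
    isClosed_all fun x => isClosed_all fun y =>
      isClosed_le ((cont_ip x y).sub continuous_const).abs continuous_const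
  have c4 : IsClosed {p : (Ix N d → Fk n ℝ) × (Ix N d → Ix N d → Ix N d → ℝ) |
      ∀ x y z : Ix N d, |p.2 x y z| ≤ 2 ^ N} :=
    isClosed_all fun x => isClosed_all fun y => isClosed_all fun z =>
      isClosed_le (cont_c x y z).abs continuous_const
  have c5 : IsClosed {p : (Ix N d → Fk n ℝ) × (Ix N d → Ix N d → Ix N d → ℝ) |
      ∀ (x y : Ix N d) (S : Finset (Fin n)),
        |(mulF (p.1 x) (p.1 y) - ∑ z, p.2 x y z • p.1 z) S| ≤ η} :=
    isClosed_all fun x => isClosed_all fun y => isClosed_all fun S =>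
      isClosed_le (cont_mul x y S).abs continuous_const
  exact c1.inter (c2.inter (c3.inter (c4.inter c5)))

theorem compact_cond (n N : ℕ) (d : Fin (N + 1) → ℕ) : IsCompact {p | Cond n N 1 d p} := by
  have hK : IsCompact ((Set.univ.pi fun _ : Ix N d => Set.univ.pi fun _ : Finset (Fin n) =>
      Set.Icc (-2 : ℝ) 2) ×ˢ (Set.univ.pi fun _ : Ix N d => Set.univ.pi fun _ : Ix N d =>
      Set.univ.pi fun _ : Ix N d => Set.Icc (-(2 : ℝ) ^ N) (2 ^ N))) := by
    refine IsCompact.prod ?_ ?_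
    · exact isCompact_univ_pi fun _ => isCompact_univ_pi fun _ => isCompact_Icc
    · exact isCompact_univ_pi fun _ => isCompact_univ_pi fun _ => isCompact_univ_pi fun _ =>
        isCompact_Icc
  refine hK.of_isClosed_subset (closed_cond n N 1 d) ?_
  rintro ⟨a, c⟩ ⟨h1, h2, h3, h4, h5⟩
  refine ⟨fun x _ S _ => ?_, fun x _ y _ z _ => ?_⟩
  · have h6 := h3 x x
    rw [if_pos rfl] at h6
    have h7 := (abs_le.1 h6).2
    have h8 : a x S * a x S ≤ ip (a x) (a x) := by
      unfold ip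
      exact Finset.single_le_sum (f := fun S => a x S * a x S)
        (fun S _ => mul_self_nonneg _) (Finset.mem_univ S)
    have h9 : |a x S| ≤ 2 := by
      refine abs_le_of_sq_le_sq ?_ (by norm_num)
      have h10 : ip (a x) (a x) - 1 ≤ 1 := h7
      nlinarith
    exact abs_le.1 h9
  · exact abs_le.1 (h4 x y z)

theorem eq_zero_of_le {x : ℝ} (h : ∀ η : ℝ, 0 < η → |x| ≤ η) : x = 0 :=
  abs_nonpos_iff.1 (le_of_forall_pos_le_add fun ε hε => by rw [zero_add]; exact h ε hε)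

/-- the space of infinitesimal symmetries -/
def symV {n : ℕ} {ι : Type} (a : ι → Fk n ℝ) : Submodule ℝ (Fin n → Fin n → ℝ) where
  carrier := {X | Sk X ∧ ∀ x, dX X (a x) = 0}
  zero_mem' := by
    refine ⟨fun i j => by simp, fun x => ?_⟩
    unfold dX
    simp
  add_mem' := by
    rintro X Y ⟨h1, h2⟩ ⟨h3, h4⟩
    refine ⟨fun i j => ?_, fun x => ?_⟩
    · simp only [Pi.add_apply]
      rw [h1 i j, h3 i j]
      ring
    · have h5 := h2 x
      have h6 := h4 x
      unfold dX at h5 h6 ⊢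
      simp only [Pi.add_apply, add_smul, Finset.sum_add_distrib]
      rw [h5, h6, add_zero]
  smul_mem' := by
    rintro t X ⟨h1, h2⟩
    refine ⟨fun i j => ?_, fun x => ?_⟩
    · simp only [Pi.smul_apply, smul_eq_mul]
      rw [h1 i j]
      ring
    · have h5 := h2 x
      unfold dX at h5 ⊢
      simp only [Pi.smul_apply, smul_eq_mul, mul_smul, ← Finset.smul_sum]
      rw [h5, smul_zero]

end Cmpk

open Cmpk in
theorem s_cmpk (h1 : S_TRG) (h2 : S_INF) (h3 : S_PFN) (h4 : S_TRC) : S_CMPK := by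
  intro m N d κ hm hκ hKA
  have hpos : ∀ k : ℕ, (0 : ℝ) < 1 / ((k : ℝ) + 1) := fun k => by positivity
  choose a c R hdeg hd0 hvac hip hc hmul hAC hCO hKG hrc using fun k : ℕ => hKA _ (hpos k)
  have hcond : ∀ k : ℕ, Cond (2 * m) N (1 / ((k : ℝ) + 1)) d (a k, c k) := fun k =>
    ⟨hdeg k, hvac k, hip k, hc k, hmul k⟩
  have hcond1 : ∀ k, (a k, c k) ∈ {p | Cond (2 * m) N 1 d p} := by
    intro k
    refine cond_mono ?_ (hcond k)
    rw [div_le_one (by positivity)]
    have := Nat.cast_nonneg (α := ℝ) k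
    linarith
  obtain ⟨⟨a', c'⟩, -, φ, hφ, hlim⟩ := (compact_cond (2 * m) N d).tendsto_subseq hcond1
  have hlim0 : Tendsto (fun k : ℕ => 1 / (((φ k : ℕ) : ℝ) + 1)) atTop (𝓝 0) :=
    tendsto_one_div_add_atTop_nhds_zero_nat.comp hφ.tendsto_atTop
  have hlimc : ∀ η : ℝ, 0 < η → Cond (2 * m) N η d (a', c') := by
    intro η hη
    refine (closed_cond (2 * m) N η d).mem_of_tendsto hlim ?_
    filter_upwards [hlim0.eventually (gt_mem_nhds hη)] with k hk
    exact cond_mono hk.le (hcond (φ k))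
  have hl1 := hlimc 1 one_pos
  have hip' : ∀ x y, ip (a' x) (a' y) = if x = y then 1 else 0 := fun x y =>
    sub_eq_zero.1 (eq_zero_of_le fun η hη => (hlimc η hη).2.2.1 x y)
  have hmul' : ∀ x y, mulF (a' x) (a' y) = ∑ z, c' x y z • a' z := by
    intro x y
    funext S
    have h5 := eq_zero_of_le fun η hη => (hlimc η hη).2.2.2.2 x y S
    rw [Pi.sub_apply, sub_eq_zero] at h5
    exact h5
  have hlima : ∀ x, Tendsto (fun k => a (φ k) x) atTop (𝓝 (a' x)) := by
    intro x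
    have h5 : Tendsto (fun k => (a (φ k), c (φ k))) atTop (𝓝 (a', c')) := hlim
    exact (((continuous_apply x).comp continuous_fst).tendsto (a', c')).comp h5
  have htr := h1 (2 * m) (Ix N d) (fun x => (x.1 : ℕ)) (fun k => a (φ k)) a' (fun k => R (φ k))
    (fun k => 1 / (((φ k : ℕ) : ℝ) + 1)) κ hl1.1 (fun k => hdeg (φ k)) hlima
    (fun k => hAC (φ k)) (fun k => (hpos (φ k)).le) hlim0 hκ (fun k => hCO (φ k))
    (fun k => hKG (φ k)) (fun k => hrc (φ k))
  have hinf := h2 (2 * m) (Ix N d) a' htr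
  obtain ⟨X, hX, hXm⟩ := h3 m (symV a') (fun X hX => hX.1) (fun v w hv hw hvw => by
    obtain ⟨X, hX1, hX2, hX3⟩ := hinf v w hv hw hvw
    exact ⟨X, ⟨hX1, hX3⟩, hX2⟩)
  have hfin := h4 m (Ix N d) (fun x => (x.1 : ℕ)) a' c' X hl1.1
    ⟨⟨0, ⟨0, by rw [hd0 0]; exact one_pos⟩⟩, hl1.2.1 _⟩ hip' hmul' hX.1 hX.2 hXm
  rw [Fintype.sum_sigma] at hfin
  refine hfin.trans_eq (Finset.sum_congr rfl fun p _ => ?_)
  change ∑ _y : Fin (d p), (-1 : ℤ) ^ (p : ℕ) = _
  rw [Finset.sum_const, Finset.card_univ, Fintype.card_fin, nsmul_eq_mul, mul_comm]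

end Pool.Agent.H781.KP
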