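import Pool.Agent.H781.KP.A

/-!
The commutator of a form with a 2-form (KP-08, by helper740 for helper781).
-/

set_option autoImplicit false
set_option synthInstance.maxHeartbeats 400000
set_option maxHeartbeats 4000000
set_option linter.unusedSectionVars false

noncomputable section

namespace Pool.Agent.H781.KP

open Pool.Agent.H781.NG Pool.Agent.H781.CM Pool.Agent.H781.H6

namespace Com

variable {n : ℕ}

/-- left Clifford multiplication by a basis vector -/
def gg (i : Fin n) : Fk n ℝ →ₗ[ℝ] Fk n ℝ := cr i + an i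

theorem gg_apply (i : Fin n) (u : Fk n ℝ) : gg i u = cr i u + an i u := rfl

theorem gg_gg (i j : Fin n) (u : Fk n ℝ) :
    gg i (gg j u) + gg j (gg i u) = if i = j then (2 : ℝ) • u else 0 := by
  have e : gg i (gg j u) + gg j (gg i u) =
      (an i (cr j u) + cr j (an i u)) + (an j (cr i u) + cr i (an j u)) +
        (cr i (cr j u) + cr j (cr i u)) + (an i (an j u) + an j (an i u)) := by
    rw [gg_apply, gg_apply, gg_apply, gg_apply]
    simp only [map_add]
    abel
  rw [e, car, car, cr_cr i j, an_an i j, neg_add_cancel, neg_add_cancel, add_zero, add_zero]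
  by_cases h : i = j
  · rw [if_pos h, if_pos h, if_pos h.symm, two_smul]
  · rw [if_neg h, if_neg h, if_neg (Ne.symm h), add_zero]

theorem gg_comm (i j : Fin n) (u : Fk n ℝ) :
    gg i (gg j u) = (if i = j then (2 : ℝ) • u else 0) - gg j (gg i u) := by
  rw [← gg_gg i j u]
  abel

theorem gg_mulF (h : S_CLIF) (i : Fin n) (u v : Fk n ℝ) : mulF (gg i u) v = gg i (mulF u v) := by
  obtain ⟨-, -, -, h4, -⟩ := h n ℝ
  exact h4 i u v

theorem mulF_add_right (u v w : Fk n ℝ) : mulF u (v + w) = mulF u v + mulF u w := by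
  funext R
  rw [Pi.add_apply]
  unfold mulF
  rw [← Finset.sum_add_distrib]
  refine Finset.sum_congr rfl fun S _ => ?_
  rw [Pi.add_apply]
  ring

variable {X : Fin n → Fin n → ℝ}

theorem diag_zero (hX : Sk X) (i : Fin n) : X i i = 0 := by
  have := hX i i
  linarith

theorem wX_vac (hX : Sk X) : wX X vac = ∑ i, ∑ j, X i j • gg i (gg j vac) := by
  unfold wX
  refine Finset.sum_congr rfl fun i _ => Finset.sum_congr rfl fun j _ => ?_
  have e : gg i (gg j (vac : Fk n ℝ)) = cr i (cr j vac) + if i = j then vac else 0 := by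
    rw [gg_apply j, an_vac, add_zero, gg_apply, an_cr, an_vac, map_zero, sub_zero]
  rw [e, smul_add]
  by_cases h : i = j
  · rw [h, diag_zero hX, zero_smul, zero_smul, add_zero]
  · rw [if_neg h, smul_zero, add_zero]

theorem mulF_w (h : S_CLIF) (hX : Sk X) (u : Fk n ℝ) :
    mulF (wX X vac) u = ∑ i, ∑ j, X i j • gg i (gg j u) := by
  rw [wX_vac hX, Lin4.mulF_sum_left]
  refine Finset.sum_congr rfl fun i _ => ?_
  rw [Lin4.mulF_sum_left]
  refine Finset.sum_congr rfl fun j _ => ?_
  rw [Lin4.mulF_smul_left, gg_mulF h, gg_mulF h, (h n ℝ).2.1]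

theorem dX_add (u v : Fk n ℝ) : dX X (u + v) = dX X u + dX X v := by
  unfold dX
  simp only [map_add, smul_add, Finset.sum_add_distrib]

theorem dX_smul (c : ℝ) (u : Fk n ℝ) : dX X (c • u) = c • dX X u := by
  unfold dX
  simp only [map_smul, Finset.smul_sum]
  refine Finset.sum_congr rfl fun i _ => Finset.sum_congr rfl fun a _ => ?_
  rw [smul_comm]

theorem dX_zero : dX X (0 : Fk n ℝ) = 0 := by
  unfold dX
  simp only [map_zero, smul_zero, Finset.sum_const_zero]

theorem dX_vac : dX X (vac : Fk n ℝ) = 0 := by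
  unfold dX
  simp only [an_vac, map_zero, smul_zero, Finset.sum_const_zero]

theorem dX_cr (k : Fin n) (u : Fk n ℝ) :
    dX X (cr k u) = cr k (dX X u) + ∑ a, X k a • cr a u := by
  have h1 : ∀ i a, X i a • cr a (an i (cr k u)) =
      X i a • cr k (cr a (an i u)) + if i = k then X i a • cr a u else 0 := by
    intro i a
    rw [an_cr, map_sub, smul_sub, cr_cr a k (an i u), smul_neg, sub_neg_eq_add, add_comm]
    congr 1
    split_ifs
    · rfl
    · rw [map_zero, smul_zero]
  have h2 : dX X (cr k u) = ∑ i, ∑ a, (X i a • cr k (cr a (an i u)) +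
      if i = k then X i a • cr a u else 0) :=
    Finset.sum_congr rfl fun i _ => Finset.sum_congr rfl fun a _ => h1 i a
  have h3 : cr k (dX X u) = ∑ i, ∑ a, X i a • cr k (cr a (an i u)) := by
    unfold dX
    rw [map_sum]
    refine Finset.sum_congr rfl fun i _ => ?_
    rw [map_sum]
    exact Finset.sum_congr rfl fun a _ => by rw [map_smul]
  rw [h2, h3]
  simp only [Finset.sum_add_distrib]
  congr 1
  rw [Finset.sum_eq_single k]
  · exact Finset.sum_congr rfl fun a _ => if_pos rfl
  · intro i _ hi
    exact Finset.sum_eq_zero fun a _ => if_neg hi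
  · intro hk
    exact absurd (Finset.mem_univ k) hk

theorem cr_an (k a : Fin n) (w : Fk n ℝ) :
    cr a (an k w) = (if k = a then w else 0) - an k (cr a w) := by
  rw [← car k a w]
  abel

theorem dX_an (hX : Sk X) (k : Fin n) (u : Fk n ℝ) :
    dX X (an k u) = an k (dX X u) + ∑ a, X k a • an a u := by
  have h1 : ∀ i a, X i a • cr a (an i (an k u)) =
      X i a • an k (cr a (an i u)) + if k = a then X k i • an i u else 0 := by
    intro i a
    rw [an_an i k u, map_neg, cr_an k a (an i u)]
    by_cases h : k = a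
    · rw [if_pos h, if_pos h, ← h, hX k i]
      module
    · rw [if_neg h, if_neg h]
      module
  have h2 : dX X (an k u) = ∑ i, ∑ a, (X i a • an k (cr a (an i u)) +
      if k = a then X k i • an i u else 0) :=
    Finset.sum_congr rfl fun i _ => Finset.sum_congr rfl fun a _ => h1 i a
  have h3 : an k (dX X u) = ∑ i, ∑ a, X i a • an k (cr a (an i u)) := by
    unfold dX
    rw [map_sum]
    refine Finset.sum_congr rfl fun i _ => ?_
    rw [map_sum]
    exact Finset.sum_congr rfl fun a _ => by rw [map_smul]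
  rw [h2, h3]
  simp only [Finset.sum_add_distrib]
  congr 1
  refine Finset.sum_congr rfl fun i _ => ?_
  rw [Finset.sum_ite_eq, if_pos (Finset.mem_univ k)]

theorem dX_gg (hX : Sk X) (k : Fin n) (u : Fk n ℝ) :
    dX X (gg k u) = gg k (dX X u) + ∑ a, X k a • gg a u := by
  have e : ∑ a, X k a • gg a u = ∑ a, X k a • cr a u + ∑ a, X k a • an a u := by
    rw [← Finset.sum_add_distrib]
    exact Finset.sum_congr rfl fun a _ => by rw [gg_apply, smul_add]
  rw [gg_apply k u, dX_add, dX_cr, dX_an hX, gg_apply, e]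
  abel

theorem comm_gg (hX : Sk X) (k : Fin n) (u : Fk n ℝ) :
    ∑ i, ∑ j, X i j • gg i (gg j (gg k u)) =
      gg k (∑ i, ∑ j, X i j • gg i (gg j u)) - (4 : ℝ) • ∑ a, X k a • gg a u := by
  have h1 : ∀ i j, X i j • gg i (gg j (gg k u)) = X i j • gg k (gg i (gg j u)) +
      ((if j = k then -((2 : ℝ) • X k i • gg i u) else 0) -
        (if i = k then (2 : ℝ) • X i j • gg j u else 0)) := by
    intro i j
    rw [gg_comm j k u, map_sub, gg_comm i k (gg j u)]
    by_cases h : j = k
    · rw [if_pos h, if_pos h, map_smul]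
      by_cases h' : i = k
      · rw [if_pos h', if_pos h', h, hX i k]
        module
      · rw [if_neg h', if_neg h', h, hX i k]
        module
    · rw [if_neg h, if_neg h, map_zero]
      by_cases h' : i = k
      · rw [if_pos h', if_pos h']
        module
      · rw [if_neg h', if_neg h']
        module
  rw [Finset.sum_congr rfl fun i _ => Finset.sum_congr rfl fun j _ => h1 i j]
  have h3 : gg k (∑ i, ∑ j, X i j • gg i (gg j u)) = ∑ i, ∑ j, X i j • gg k (gg i (gg j u)) := by
    rw [map_sum]
    refine Finset.sum_congr rfl fun i _ => ?_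
    rw [map_sum]
    exact Finset.sum_congr rfl fun a _ => by rw [map_smul]
  rw [h3]
  simp only [Finset.sum_add_distrib, Finset.sum_sub_distrib]
  have h4 : ∑ i, ∑ j, (if j = k then -((2 : ℝ) • X k i • gg i u) else 0) =
      -((2 : ℝ) • ∑ a, X k a • gg a u) := by
    rw [Finset.smul_sum, ← Finset.sum_neg_distrib]
    refine Finset.sum_congr rfl fun i _ => ?_
    rw [Finset.sum_ite_eq', if_pos (Finset.mem_univ k)]
  have h5 : ∑ i, ∑ j, (if i = k then (2 : ℝ) • X i j • gg j u else 0) =
      (2 : ℝ) • ∑ a, X k a • gg a u := by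
    rw [Finset.sum_eq_single k, Finset.smul_sum]
    · exact Finset.sum_congr rfl fun a _ => if_pos rfl
    · intro i _ hi
      exact Finset.sum_eq_zero fun a _ => if_neg hi
    · intro hk
      exact absurd (Finset.mem_univ k) hk
  rw [h4, h5]
  module

theorem an_del {i : Fin n} {S : Finset (Fin n)} (h : i ∉ S) : an i (Tau.del S) = 0 := by
  funext T
  rw [an_apply]
  split_ifs with hT
  · rfl
  · show (sg i T : ℝ) * (if insert i T = S then (1 : ℝ) else 0) = 0
    rw [if_neg, mul_zero]
    intro h1
    apply h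
    rw [← h1]
    exact Finset.mem_insert_self i T

/-- the vacuum generates the Fock space -/
theorem ind {P : Fk n ℝ → Prop} (h0 : P 0) (hadd : ∀ u v, P u → P v → P (u + v))
    (hs : ∀ (c : ℝ) u, P u → P (c • u)) (hv : P vac) (hc : ∀ i u, P u → P (gg i u)) :
    ∀ u, P u := by
  have h1 : ∀ S : Finset (Fin n), P (Tau.del S) := by
    intro S
    induction S using Finset.induction_on with
    | empty => exact hv
    | insert i S hi ih =>
      have e : cr i (Tau.del S) = gg i (Tau.del S) := by
        rw [gg_apply, an_del hi, add_zero]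
      rw [Tau.del_insert hi, e]
      exact hs _ _ (hc i _ ih)
  intro u
  rw [Tau.sum_del u]
  have h2 : ∀ s : Finset (Finset (Fin n)), P (∑ S ∈ s, u S • Tau.del S) := by
    intro s
    induction s using Finset.induction_on with
    | empty =>
      rw [Finset.sum_empty]
      exact h0
    | insert S s hS ih =>
      rw [Finset.sum_insert hS]
      exact hadd _ _ (hs _ _ (h1 S)) ih
  exact h2 _

end Com

open Com in
theorem s_com (h : S_CLIF) : S_COM := by
  intro n X hX
  obtain ⟨-, c2, c3, -⟩ := h n ℝ
  refine ind ?_ ?_ ?_ ?_ ?_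
  · have e1 : mulF (wX X vac) (0 : Fk n ℝ) = 0 := by
      have := Lin4.mulF_smul_right (0 : ℝ) (wX X vac) (0 : Fk n ℝ)
      rwa [zero_smul, zero_smul] at this
    have e2 : mulF (0 : Fk n ℝ) (wX X vac) = 0 := by
      have := Lin4.mulF_smul_left (0 : ℝ) (0 : Fk n ℝ) (wX X vac)
      rwa [zero_smul, zero_smul] at this
    rw [e1, e2, dX_zero, smul_zero, sub_zero]
  · intro u v hu hv
    rw [mulF_add_right, Lin4.mulF_add_left, dX_add, smul_add, ← hu, ← hv]
    abel
  · intro c u hu
    rw [Lin4.mulF_smul_right, Lin4.mulF_smul_left, dX_smul, ← smul_sub, hu, smul_comm]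
  · rw [c2, c3, dX_vac, smul_zero, sub_self]
  · intro k u hu
    rw [mulF_w h hX, comm_gg hX, gg_mulF h, dX_gg hX, ← mulF_w h hX]
    have e : gg k (mulF (wX X vac) u) = gg k (mulF u (wX X vac)) + gg k ((-4 : ℝ) • dX X u) := by
      rw [← map_add, ← hu]
      congr 1
      abel
    rw [e, map_smul]
    module

end Pool.Agent.H781.KP
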