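import Pool.Agent.H781.KP.A
import Pool.Agent.H781.CM.Fin

/-!
The final abstract theorem: pigeonhole over the scales of the spectrum, and the uniform version, for
manifolds with sectional curvature at least `κ > 0`.
-/

set_option autoImplicit false
set_option synthInstance.maxHeartbeats 400000
set_option maxHeartbeats 4000000
set_option linter.unusedSectionVars false

open MeasureTheory Filter
open scoped Topology ContDiff

noncomputable section

namespace Pool.Agent.H781.KP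

open Pool.Agent.H781.NG Pool.Agent.H781.CM Pool.Agent.H781.H6

namespace Fink

theorem curv_mono {M : Type} [TopologicalSpace M] [CompactSpace M] [MeasurableSpace M]
    [BorelSpace M] {N : ℕ} {C : CD M N} {ε ε' : ℝ} (h : ε ≤ ε') (hC : CurvGE C ε) :
    CurvGE C ε' := by
  intro p w hw1 hw2
  refine le_trans ?_ (hC p w hw1 hw2)
  have h0 : 0 ≤ ∑ a, ∑ b, w a b ^ 2 :=
    Finset.sum_nonneg fun a _ => Finset.sum_nonneg fun b _ => sq_nonneg _
  exact mul_le_mul_of_nonneg_right (neg_le_neg h) h0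

theorem cop_mono {n : ℕ} {R : T4 n} {ε ε' : ℝ} (h : ε ≤ ε') (hR : COp R ε) : COp R ε' := by
  intro w hw
  refine le_trans ?_ (hR w hw)
  have h0 : 0 ≤ ∑ a, ∑ b, w a b ^ 2 :=
    Finset.sum_nonneg fun a _ => Finset.sum_nonneg fun b _ => sq_nonneg _
  exact mul_le_mul_of_nonneg_right (neg_le_neg h) h0

theorem ka_mono {n N : ℕ} {η η' κ : ℝ} (h : η ≤ η') {d : Fin (N + 1) → ℕ}
    (H : KA n N η κ d) : KA n N η' κ d := by
  obtain ⟨a, c, R, k1, k2, k3, k4, k5, k6, k7, k8, k9, k10⟩ := H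
  exact ⟨a, c, R, k1, k2, k3, fun x y => (k4 x y).trans h, k5, fun x y S => (k6 x y S).trans h,
    k7, cop_mono h k8, k9, fun x => (k10 x).trans h⟩

end Fink

theorem s_fink (h1 : S_APPK) (h2 : S_DIM) (h3 : S_POINK) (h4 : S_HODGE) (h5 : S_SPEC)
    (h6 : S_KAX) : S_FINK := by
  intro N n κ hN hn hκ η hη
  have hNr : (0 : ℝ) < N := by exact_mod_cast hN
  obtain ⟨η', hη', H6⟩ := h6 N n κ η hη
  obtain ⟨K, hK⟩ : ∃ K : ℝ, K = 2 / κ := ⟨_, rfl⟩
  have hK0 : 0 ≤ K := by rw [hK]; positivity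
  obtain ⟨δ₁, hδ₁, H1⟩ := h1 N hN η' K hη' hK0
  obtain ⟨δ₂, hδ₂, H2⟩ := h2 N K hK0
  obtain ⟨δ, hδ⟩ : ∃ δ : ℝ, δ = min δ₁ (min δ₂ 1) := ⟨_, rfl⟩
  have hδ0 : 0 < δ := by rw [hδ]; exact lt_min hδ₁ (lt_min hδ₂ one_pos)
  have hd1 : δ ≤ δ₁ := by rw [hδ]; exact min_le_left _ _
  have hd2 : δ ≤ δ₂ := by rw [hδ]; exact (min_le_right _ _).trans (min_le_left _ _)
  have hd3 : δ ≤ 1 := by rw [hδ]; exact (min_le_right _ _).trans (min_le_right _ _)
  obtain ⟨r, hr⟩ : ∃ r : ℝ, r = 2 / δ := ⟨_, rfl⟩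
  have hr2 : 1 ≤ r := by
    rw [hr, le_div_iff₀ hδ0]
    linarith
  have hr0 : 0 < r := by linarith
  have hδr : δ * r = 2 := by
    rw [hr]
    field_simp
  obtain ⟨m, hm⟩ : ∃ m : ℕ, m = 2 ^ N := ⟨_, rfl⟩
  obtain ⟨s, hs⟩ : ∃ s : ℝ, s = κ / 2 := ⟨_, rfl⟩
  have hs0 : 0 < s := by rw [hs]; positivity
  obtain ⟨T₀, hT₀⟩ : ∃ T₀ : ℝ, T₀ = min (δ / 2) s / r ^ (m + 1) := ⟨_, rfl⟩
  have hT0 : 0 < T₀ := by
    rw [hT₀]
    exact div_pos (lt_min (by linarith) hs0) (by positivity)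
  have hTm : T₀ * r ^ (m + 1) = min (δ / 2) s := by
    rw [hT₀]
    field_simp
  have hTle : ∀ j, j ≤ m + 1 → T₀ * r ^ j ≤ min (δ / 2) s := by
    intro j hj
    rw [← hTm]
    exact mul_le_mul_of_nonneg_left (pow_le_pow_right₀ hr2 hj) hT0.le
  have hTge : ∀ j, T₀ ≤ T₀ * r ^ j := by
    intro j
    have := mul_le_mul_of_nonneg_left (one_le_pow₀ hr2 (n := j)) hT0.le
    linarith
  obtain ⟨ε, hε⟩ : ∃ ε : ℝ, ε = min (T₀ / N ^ 2) η := ⟨_, rfl⟩
  have hε0 : 0 < ε := by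
    rw [hε]
    exact lt_min (by positivity) hη
  have hε1 : ε * N ^ 2 ≤ T₀ := by
    have : ε ≤ T₀ / N ^ 2 := by rw [hε]; exact min_le_left _ _
    rwa [le_div_iff₀ (by positivity)] at this
  have hε2 : ε ≤ η := by rw [hε]; exact min_le_right _ _
  refine ⟨ε, hε0, ?_⟩
  intro M _ _ _ _ C hC hPt hConn hMoll hDen hReg
  obtain ⟨P1, P2⟩ := h3 M N C n κ hn hκ hPt hConn hMoll hDen hReg
  rw [← hK] at P1
  rw [← hs] at P2
  have hfin : ∀ j, Module.Finite ℝ (Ev C (T₀ * r ^ j)) := fun j =>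
    (h5 M N C hMoll hDen hReg (T₀ * r ^ j) (by positivity)).1
  have hdim : ∀ j, j ≤ m + 1 → Module.finrank ℝ (Ev C (T₀ * r ^ j)) ≤ 2 ^ N := by
    intro j hj
    refine H2 M C ε (T₀ * r ^ j) hε0.le hC hMoll hDen hReg P1 (by positivity) ?_
    have a1 := (hTle j hj).trans (min_le_left _ _)
    have a2 := hTge j
    linarith
  have hmon : ∀ j, T₀ * r ^ j ≤ T₀ * r ^ (j + 1) := fun j =>
    mul_le_mul_of_nonneg_left (pow_le_pow_right₀ hr2 (Nat.le_succ j)) hT0.le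
  obtain ⟨j, hj, hje⟩ := CM.Fin.pigeon m (fun j => Module.finrank ℝ (Ev C (T₀ * r ^ j)))
    (fun j _ => by
      have := hfin (j + 1)
      exact Submodule.finrank_mono (CM.Fin.Ev_mono C (hmon j)))
    ((hdim (m + 1) le_rfl).trans_eq hm.symm)
  have hEq : Ev C (T₀ * r ^ (j + 1)) = Ev C (T₀ * r ^ j) := by
    have := hfin (j + 1)
    exact (Submodule.eq_of_le_of_finrank_eq (CM.Fin.Ev_mono C (hmon j)) hje).symm
  have a1 := (hTle j (by omega)).trans (min_le_left _ _)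
  have a1' := (hTle j (by omega)).trans (min_le_right _ _)
  have a2 := hTge j
  have hT0j : 0 < T₀ * r ^ j := by positivity
  refine ⟨fun p => Module.finrank ℝ (Evp C (T₀ * r ^ j) p), ?_, ?_, ?_⟩
  · refine H6 M C _ (Fink.curv_mono hε2 hC) hPt ?_
    refine H1 M C ε (T₀ * r ^ j) (T₀ * r ^ (j + 1)) hε0.le hC hMoll hDen hReg P1 hT0j (hmon j) hEq
      (by linarith) ?_ ?_ (hdim j (by omega))
    · have e1 : δ * (T₀ * r ^ (j + 1)) = 2 * (T₀ * r ^ j) := by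
        rw [← hδr]
        ring
      have e2 : δ * (T₀ * r ^ (j + 1)) ≤ δ₁ * (T₀ * r ^ (j + 1)) :=
        mul_le_mul_of_nonneg_right hd1 (by positivity)
      linarith
    · intro u hu
      refine P2 u ?_
      rw [Evp, Submodule.mem_inf] at hu ⊢
      exact ⟨CM.Fin.Ev_mono C a1' hu.1, hu.2⟩
  · have := hfin j
    exact (CM.Fin.sum_finrank C (T₀ * r ^ j)).trans (hdim j (by omega))
  · rw [← (h4 M N C hMoll hDen hReg).2 (T₀ * r ^ j) hT0j]
    exact _root_.Fin.sum_univ_eq_sum_range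
      (fun p => (-1 : ℤ) ^ p * (Module.finrank ℝ (Evp C (T₀ * r ^ j) p) : ℤ)) (N + 1)

theorem s_chik (h1 : S_FINK) (h2 : S_CMPK) : S_CHIK := by
  classical
  intro N m κ hN hm hκ
  obtain ⟨D, hD⟩ : ∃ D : Finset (Fin (N + 1) → ℕ),
      D = Fintype.piFinset (fun _ => Finset.range (2 ^ N + 1)) := ⟨_, rfl⟩
  have hex : ∀ d : Fin (N + 1) → ℕ, ∃ η : ℝ, 0 < η ∧
      (KA (2 * m) N η κ d → ∀ η' : ℝ, 0 < η' → KA (2 * m) N η' κ d) := by
    intro d
    by_cases hd : ∀ η' : ℝ, 0 < η' → KA (2 * m) N η' κ d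
    · exact ⟨1, one_pos, fun _ => hd⟩
    · push Not at hd
      obtain ⟨η, hη, hn⟩ := hd
      exact ⟨η, hη, fun hc => absurd hc hn⟩
  choose g hg0 hg using hex
  have hne : D.Nonempty := by
    refine ⟨fun _ => 0, ?_⟩
    rw [hD, Fintype.mem_piFinset]
    intro a
    rw [Finset.mem_range]
    positivity
  obtain ⟨d₀, _, hd₀⟩ := D.exists_min_image g hne
  obtain ⟨ε, hε, H⟩ := h1 N (2 * m) κ hN (by omega) hκ (g d₀) (hg0 d₀)
  refine ⟨ε, hε, ?_⟩
  intro M _ _ _ _ C hC hPt hConn hMoll hDen hReg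
  obtain ⟨d, hka, hsum, he⟩ := H M C hC hPt hConn hMoll hDen hReg
  have hdD : d ∈ D := by
    rw [hD, Fintype.mem_piFinset]
    intro a
    rw [Finset.mem_range]
    have := Finset.single_le_sum (f := d) (fun i _ => Nat.zero_le (d i)) (Finset.mem_univ a)
    omega
  rw [← he]
  exact h2 m N d κ hm hκ (hg d (Fink.ka_mono (hd₀ d hdD) hka))

end Pool.Agent.H781.KP
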