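import Pool.Agent.H781.KP.A

/-!
First order condition (KP-04, by helper640 for helper781).
-/

set_option autoImplicit false
set_option synthInstance.maxHeartbeats 400000
set_option maxHeartbeats 4000000
set_option linter.unusedSectionVars false

open MeasureTheory Filter
open scoped Topology ContDiff

noncomputable section

namespace Pool.Agent.H781.KP

open Pool.Agent.H781.NG Pool.Agent.H781.CM Pool.Agent.H781.H6

namespace Foc

/-! ### first order expansions -/

/-- `f s = s c + O(s²)` for small positive `s` -/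
def Ex (f : ℝ → ℝ) (c : ℝ) : Prop :=
  ∃ C s₀ : ℝ, 0 ≤ C ∧ 0 < s₀ ∧ ∀ s, 0 < s → s ≤ s₀ → |f s - s * c| ≤ C * s ^ 2

theorem Ex.add {f g : ℝ → ℝ} {c d : ℝ} (hf : Ex f c) (hg : Ex g d) :
    Ex (fun s => f s + g s) (c + d) := by
  obtain ⟨C, s₀, hC, hs₀, hf⟩ := hf
  obtain ⟨D, t₀, hD, ht₀, hg⟩ := hg
  refine ⟨C + D, min s₀ t₀, by positivity, lt_min hs₀ ht₀, fun s hs hs1 => ?_⟩
  have h1 := hf s hs (hs1.trans (min_le_left _ _))
  have h2 := hg s hs (hs1.trans (min_le_right _ _))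
  have e : f s + g s - s * (c + d) = (f s - s * c) + (g s - s * d) := by ring
  rw [e]
  calc |(f s - s * c) + (g s - s * d)| ≤ |f s - s * c| + |g s - s * d| := abs_add_le _ _
    _ ≤ C * s ^ 2 + D * s ^ 2 := add_le_add h1 h2
    _ = (C + D) * s ^ 2 := by ring

theorem Ex.smul {f : ℝ → ℝ} {c : ℝ} (a : ℝ) (hf : Ex f c) : Ex (fun s => a * f s) (a * c) := by
  obtain ⟨C, s₀, hC, hs₀, hf⟩ := hf
  refine ⟨|a| * C, s₀, by positivity, hs₀, fun s hs hs1 => ?_⟩
  have h1 := hf s hs hs1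
  have e : a * f s - s * (a * c) = a * (f s - s * c) := by ring
  rw [e, abs_mul, mul_assoc]
  exact mul_le_mul_of_nonneg_left h1 (abs_nonneg a)

theorem Ex.zero : Ex (fun _ => 0) 0 :=
  ⟨0, 1, le_rfl, one_pos, fun s _ _ => by simp⟩

theorem Ex.sum {ι : Type*} (t : Finset ι) {f : ι → ℝ → ℝ} {c : ι → ℝ} (h : ∀ i, Ex (f i) (c i)) :
    Ex (fun s => ∑ i ∈ t, f i s) (∑ i ∈ t, c i) := by
  classical
  induction t using Finset.induction_on with
  | empty =>
    simp only [Finset.sum_empty]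
    exact Ex.zero
  | insert a t ha ih =>
    simp only [Finset.sum_insert ha]
    exact (h a).add ih

theorem Ex.nonpos {f : ℝ → ℝ} {c : ℝ} (hf : Ex f c) (h : ∀ s, f s ≤ 0) : c ≤ 0 := by
  obtain ⟨C, s₀, hC, hs₀, hf⟩ := hf
  by_contra hc
  push Not at hc
  have hpos : 0 < min s₀ (c / (2 * (C + 1))) := lt_min hs₀ (by positivity)
  set s := min s₀ (c / (2 * (C + 1))) with hs
  have h1 := (abs_le.1 (hf s hpos (min_le_left _ _))).1
  have h2 := h s
  have h3 : s ≤ c / (2 * (C + 1)) := min_le_right _ _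
  rw [le_div_iff₀ (by positivity)] at h3
  have h4 : s * c ≤ C * s ^ 2 := by linarith
  have h5 : c ≤ C * s := by
    have h6 : s * c ≤ s * (C * s) := by
      calc s * c ≤ C * s ^ 2 := h4
        _ = s * (C * s) := by ring
    exact le_of_mul_le_mul_left h6 hpos
  nlinarith

/-! ### linear algebra -/

variable {n : ℕ}

theorem dt_comm (x y : Fin n → ℝ) : dt x y = dt y x := by
  unfold dt
  exact Finset.sum_congr rfl fun a _ => mul_comm _ _

theorem dt_ac {g : Fin n → Fin n → ℝ} (hg : ON g) (y z : Fin n → ℝ) :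
    dt (ac g y) (ac g z) = dt y z := by
  have h1 : dt (ac g y) (ac g z) = ∑ i, ∑ j, y i * z j * dt (g i) (g j) := by
    unfold dt ac
    have e1 : ∀ a, (∑ i, y i * g i a) * (∑ j, z j * g j a) =
        ∑ i, ∑ j, y i * z j * (g i a * g j a) := by
      intro a
      rw [Finset.sum_mul_sum]
      exact Finset.sum_congr rfl fun i _ => Finset.sum_congr rfl fun j _ => by ring
    rw [Finset.sum_congr rfl fun a _ => e1 a, Finset.sum_comm]
    refine Finset.sum_congr rfl fun i _ => ?_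
    rw [Finset.sum_comm]
    exact Finset.sum_congr rfl fun j _ => by rw [Finset.mul_sum]
  rw [h1]
  unfold dt
  refine Finset.sum_congr rfl fun i _ => ?_
  rw [Finset.sum_eq_single i]
  · have := hg i i
    unfold dt at this
    rw [this, if_pos rfl, mul_one]
  · intro j _ hj
    have := hg i j
    unfold dt at this
    rw [this, if_neg (Ne.symm hj), mul_zero]
  · intro h
    exact absurd (Finset.mem_univ i) h

theorem ac_ac (g h : Fin n → Fin n → ℝ) (v : Fin n → ℝ) :
    ac (fun i => ac g (h i)) v = ac g (ac h v) := by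
  funext a
  unfold ac
  have e1 : ∀ i, v i * ∑ j, h i j * g j a = ∑ j, v i * h i j * g j a := by
    intro i
    rw [Finset.mul_sum]
    exact Finset.sum_congr rfl fun j _ => by ring
  rw [Finset.sum_congr rfl fun i _ => e1 i, Finset.sum_comm]
  exact Finset.sum_congr rfl fun j _ => by rw [Finset.sum_mul]

theorem ON_ac {g h : Fin n → Fin n → ℝ} (hg : ON g) (hh : ON h) : ON (fun i => ac g (h i)) := by
  intro i j
  rw [dt_ac hg]
  exact hh i j

theorem ip_dX {X : Fin n → Fin n → ℝ} (hX : Sk X) (u z : Fk n ℝ) :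
    ip (dX X u) z = - ip u (dX X z) := by
  unfold dX
  rw [ip_sum_left, ip_sum_right]
  have h1 : ∀ i, ip (∑ a, X i a • cr a (an i u)) z = ∑ a, X i a * ip u (cr i (an a z)) := by
    intro i
    rw [ip_sum_left]
    refine Finset.sum_congr rfl fun a _ => ?_
    rw [ip_smul_left, ip_cr, ip_an]
  have h2 : ∀ i, ip u (∑ a, X i a • cr a (an i z)) = ∑ a, X i a * ip u (cr a (an i z)) := by
    intro i
    rw [ip_sum_right]
    refine Finset.sum_congr rfl fun a _ => ?_
    rw [ip_smul_right]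
  rw [Finset.sum_congr rfl fun i _ => h1 i, Finset.sum_congr rfl fun i _ => h2 i,
    Finset.sum_comm, ← Finset.sum_neg_distrib]
  refine Finset.sum_congr rfl fun i _ => ?_
  rw [← Finset.sum_neg_distrib]
  refine Finset.sum_congr rfl fun a _ => ?_
  rw [hX a i]
  ring

theorem ip_le (u z : Fk n ℝ) : ip u z ≤ √(ip u u) * √(ip z z) := by
  have h := Real.sum_mul_le_sqrt_mul_sqrt Finset.univ u z
  unfold ip
  have e1 : ∀ u : Fk n ℝ, ∑ S, u S * u S = ∑ S, u S ^ 2 := fun u =>
    Finset.sum_congr rfl fun S _ => by ring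
  rw [e1, e1]
  exact h

theorem Ef_eq {ι : Type} [Fintype ι] {v v' : Fin n → ℝ} (L : ℝ) (U : ι → Fk n ℝ)
    (hv : dt v v = 1) (hv' : dt v' v' = 1) {h : Fin n → Fin n → ℝ} (hh : ON h) :
    Ef v v' L U h = 2 - 2 * dt (ac h v) v' +
      L * ∑ i, (2 * ip (U i) (U i) - 2 * ip (Tau.tau h (U i)) (U i)) := by
  unfold Ef
  have h1 : ∑ a, (ac h v a - v' a) ^ 2 = 2 - 2 * dt (ac h v) v' := by
    have e : ∀ a, (ac h v a - v' a) ^ 2 =
        ac h v a * ac h v a - 2 * (ac h v a * v' a) + v' a * v' a := fun a => by ring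
    rw [Finset.sum_congr rfl fun a _ => e a, Finset.sum_add_distrib, Finset.sum_sub_distrib,
      ← Finset.mul_sum]
    have e1 : ∑ a, ac h v a * ac h v a = 1 := by
      have := dt_ac hh v v
      rw [hv] at this
      exact this
    have e2 : ∑ a, v' a * v' a = 1 := hv'
    rw [e1, e2]
    unfold dt
    ring
  rw [h1]
  congr 2
  refine Finset.sum_congr rfl fun i _ => ?_
  rw [ip_sub_left, ip_sub_right, ip_sub_right, Tau.ip_tau hh, ip_comm (U i) (Tau.tau h (U i))]
  ring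

/-! ### the expansions -/

theorem Ex_ac {g : ℝ → Fin n → Fin n → ℝ} {X : Fin n → Fin n → ℝ} {K : ℝ} (hK : 0 ≤ K)
    (hg : ∀ s, |s| ≤ 1 → ∀ i a, |g s i a - I1 n i a - s * X i a| ≤ K * s ^ 2)
    (x v' : Fin n → ℝ) :
    Ex (fun s => dt (ac (g s) x) v' - dt x v') (dt (ac X x) v') := by
  refine ⟨∑ a, ∑ i, |x i| * K * |v' a|, 1, by positivity, one_pos, fun s hs hs1 => ?_⟩
  have hs' : |s| ≤ 1 := by rwa [abs_of_pos hs]
  have e : dt (ac (g s) x) v' - dt x v' - s * dt (ac X x) v' =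
      ∑ a, ∑ i, x i * (g s i a - I1 n i a - s * X i a) * v' a := by
    unfold dt
    rw [Finset.mul_sum, ← Finset.sum_sub_distrib, ← Finset.sum_sub_distrib]
    refine Finset.sum_congr rfl fun a _ => ?_
    have e1 : x a = ∑ i, x i * I1 n i a := by
      unfold I1
      rw [Finset.sum_eq_single a]
      · rw [if_pos rfl, mul_one]
      · intro j _ hj
        rw [if_neg hj, mul_zero]
      · intro h
        exact absurd (Finset.mem_univ a) h
    have e2 : ∑ i, x i * (g s i a - I1 n i a - s * X i a) * v' a =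
        (∑ i, x i * g s i a - ∑ i, x i * I1 n i a - s * ∑ i, x i * X i a) * v' a := by
      rw [Finset.mul_sum, ← Finset.sum_sub_distrib, ← Finset.sum_sub_distrib, Finset.sum_mul]
      exact Finset.sum_congr rfl fun i _ => by ring
    rw [e2, ← e1]
    unfold ac
    ring
  rw [e]
  calc |∑ a, ∑ i, x i * (g s i a - I1 n i a - s * X i a) * v' a|
      ≤ ∑ a, |∑ i, x i * (g s i a - I1 n i a - s * X i a) * v' a| :=
        Finset.abs_sum_le_sum_abs _ _
    _ ≤ ∑ a, ∑ i, |x i * (g s i a - I1 n i a - s * X i a) * v' a| :=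
        Finset.sum_le_sum fun a _ => Finset.abs_sum_le_sum_abs _ _
    _ ≤ ∑ a, ∑ i, |x i| * (K * s ^ 2) * |v' a| := by
        refine Finset.sum_le_sum fun a _ => Finset.sum_le_sum fun i _ => ?_
        rw [abs_mul, abs_mul]
        have := hg s hs' i a
        gcongr
    _ = (∑ a, ∑ i, |x i| * K * |v' a|) * s ^ 2 := by
        rw [Finset.sum_mul]
        refine Finset.sum_congr rfl fun a _ => ?_
        rw [Finset.sum_mul]
        exact Finset.sum_congr rfl fun i _ => by ring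

theorem Ex_tau (h2 : S_TAC) {g : ℝ → Fin n → Fin n → ℝ} {X : Fin n → Fin n → ℝ} {K : ℝ}
    (hK : 0 ≤ K) (hg : ∀ s, |s| ≤ 1 → ∀ i a, |g s i a - I1 n i a - s * X i a| ≤ K * s ^ 2)
    (B : Fk n ℝ) (S : Finset (Fin n)) :
    Ex (fun s => Tau.tau (g s) B S - B S) (dX X B S) := by
  obtain ⟨-, -, -, K', hK', hT⟩ := h2 n
  set M : ℝ := ∑ i, ∑ a, |X i a| + K + 1 with hM
  have hMX : ∀ i a, |X i a| ≤ ∑ i, ∑ a, |X i a| := by
    intro i a
    have e1 : |X i a| ≤ ∑ a, |X i a| :=
      Finset.single_le_sum (f := fun a => |X i a|) (fun _ _ => abs_nonneg _) (Finset.mem_univ a)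
    have e2 : ∑ a, |X i a| ≤ ∑ i, ∑ a, |X i a| :=
      Finset.single_le_sum (f := fun i => ∑ a, |X i a|)
        (fun _ _ => Finset.sum_nonneg fun _ _ => abs_nonneg _) (Finset.mem_univ i)
    exact e1.trans e2
  have hM1 : 1 ≤ M := by
    have : 0 ≤ ∑ i, ∑ a, |X i a| := by positivity
    linarith
  refine ⟨K' * (∑ _i : Fin n, ∑ _a : Fin n, M ^ 2) * √(ip B B) +
    ∑ i, ∑ a, K * |cr a (an i B) S|, 1 / M, by positivity, by positivity, fun s hs hs1 => ?_⟩
  have hsM : s * M ≤ 1 := by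
    rw [le_div_iff₀ (by linarith)] at hs1
    exact hs1
  have hs1' : s ≤ 1 := by nlinarith
  have hs' : |s| ≤ 1 := by rwa [abs_of_pos hs]
  set Y : Fin n → Fin n → ℝ := fun i a => g s i a - I1 n i a with hY
  have hYb : ∀ i a, |Y i a| ≤ s * M := by
    intro i a
    have e : Y i a = (g s i a - I1 n i a - s * X i a) + s * X i a := by
      rw [hY]
      ring
    rw [e]
    refine (abs_add_le _ _).trans ?_
    rw [abs_mul, abs_of_pos hs]
    have e1 := hg s hs' i a
    have e2 := hMX i a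
    have e3 : K * s ^ 2 ≤ K * s := by
      have : s ^ 2 ≤ s := by nlinarith
      exact mul_le_mul_of_nonneg_left this hK
    have e4 : s * |X i a| ≤ s * ∑ i, ∑ a, |X i a| := mul_le_mul_of_nonneg_left e2 hs.le
    have e5 : s * M = s * ∑ i, ∑ a, |X i a| + K * s + s := by
      rw [hM]
      ring
    linarith
  have hT' := hT Y B S (fun i a => (hYb i a).trans hsM)
  have hgY : (fun i a => I1 n i a + Y i a) = g s := by
    funext i a
    rw [hY]
    ring
  rw [hgY] at hT'
  have e : Tau.tau (g s) B S - B S - s * dX X B S =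
      (Tau.tau (g s) B S - B S - dX Y B S) +
        ∑ i, ∑ a, (Y i a - s * X i a) * cr a (an i B) S := by
    have e1 : ∀ Z : Fin n → Fin n → ℝ, dX Z B S = ∑ i, ∑ a, Z i a * cr a (an i B) S := by
      intro Z
      unfold dX
      rw [Finset.sum_apply]
      refine Finset.sum_congr rfl fun i _ => ?_
      rw [Finset.sum_apply]
      rfl
    rw [e1, e1, Finset.mul_sum]
    have e2 : ∑ i, ∑ a, (Y i a - s * X i a) * cr a (an i B) S =
        ∑ i, ∑ a, Y i a * cr a (an i B) S - ∑ i, s * ∑ a, X i a * cr a (an i B) S := by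
      rw [← Finset.sum_sub_distrib]
      refine Finset.sum_congr rfl fun i _ => ?_
      rw [Finset.mul_sum, ← Finset.sum_sub_distrib]
      exact Finset.sum_congr rfl fun a _ => by ring
    rw [e2]
    ring
  rw [e]
  have h5 : ∑ i, ∑ a, Y i a ^ 2 ≤ (∑ _i : Fin n, ∑ _a : Fin n, M ^ 2) * s ^ 2 := by
    rw [Finset.sum_mul]
    refine Finset.sum_le_sum fun i _ => ?_
    rw [Finset.sum_mul]
    refine Finset.sum_le_sum fun a _ => ?_
    rw [← sq_abs, ← mul_pow, mul_comm M s]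
    exact pow_le_pow_left₀ (abs_nonneg _) (hYb i a) 2
  have h6 : |∑ i, ∑ a, (Y i a - s * X i a) * cr a (an i B) S| ≤
      (∑ i, ∑ a, K * |cr a (an i B) S|) * s ^ 2 := by
    calc |∑ i, ∑ a, (Y i a - s * X i a) * cr a (an i B) S|
        ≤ ∑ i, |∑ a, (Y i a - s * X i a) * cr a (an i B) S| := Finset.abs_sum_le_sum_abs _ _
      _ ≤ ∑ i, ∑ a, |(Y i a - s * X i a) * cr a (an i B) S| :=
          Finset.sum_le_sum fun i _ => Finset.abs_sum_le_sum_abs _ _
      _ ≤ ∑ i, ∑ a, (K * s ^ 2) * |cr a (an i B) S| := by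
          refine Finset.sum_le_sum fun i _ => Finset.sum_le_sum fun a _ => ?_
          rw [abs_mul]
          exact mul_le_mul_of_nonneg_right (hg s hs' i a) (abs_nonneg _)
      _ = _ := by
          rw [Finset.sum_mul]
          refine Finset.sum_congr rfl fun i _ => ?_
          rw [Finset.sum_mul]
          exact Finset.sum_congr rfl fun a _ => by ring
  have h7 : K' * (∑ i, ∑ a, Y i a ^ 2) * √(ip B B) ≤
      K' * ((∑ _i : Fin n, ∑ _a : Fin n, M ^ 2) * s ^ 2) * √(ip B B) := by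
    have := h5
    gcongr
  calc |(Tau.tau (g s) B S - B S - dX Y B S) + ∑ i, ∑ a, (Y i a - s * X i a) * cr a (an i B) S|
      ≤ |Tau.tau (g s) B S - B S - dX Y B S| +
        |∑ i, ∑ a, (Y i a - s * X i a) * cr a (an i B) S| := abs_add_le _ _
    _ ≤ K' * ((∑ _i : Fin n, ∑ _a : Fin n, M ^ 2) * s ^ 2) * √(ip B B) +
        (∑ i, ∑ a, K * |cr a (an i B) S|) * s ^ 2 := add_le_add (hT'.trans h7) h6
    _ = _ := by ring

theorem Ex_ip (h2 : S_TAC) {g : ℝ → Fin n → Fin n → ℝ} {X : Fin n → Fin n → ℝ} {K : ℝ}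
    (hK : 0 ≤ K) (hg : ∀ s, |s| ≤ 1 → ∀ i a, |g s i a - I1 n i a - s * X i a| ≤ K * s ^ 2)
    (B U : Fk n ℝ) :
    Ex (fun s => ip (Tau.tau (g s) B) U - ip B U) (ip (dX X B) U) := by
  have h := Ex.sum (Finset.univ : Finset (Finset (Fin n)))
    (fun S => (Ex_tau h2 hK hg B S).smul (U S))
  have e1 : (fun s => ∑ S, U S * (Tau.tau (g s) B S - B S)) =
      fun s => ip (Tau.tau (g s) B) U - ip B U := by
    funext s
    unfold ip
    rw [← Finset.sum_sub_distrib]
    exact Finset.sum_congr rfl fun S _ => by ring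
  have e2 : ∑ S, U S * dX X B S = ip (dX X B) U := by
    unfold ip
    exact Finset.sum_congr rfl fun S _ => by ring
  rw [e1, e2] at h
  exact h

end Foc

open Foc in
theorem s_foc (h1 : S_CS) (h2 : S_TAC) (h3 : S_TEX) : S_FOC := by
  intro n ι _ p U R ε κ L hR hε hκ hCO hKG hdeg hrc hL v v' hv hv' h hh hmin
  set x := ac h v with hx
  set c := dt v' x with hc
  have hxx : dt x x = 1 := by rw [hx, dt_ac hh, hv]
  have hxv : dt x v' = c := dt_comm x v'
  set w : Fin n → ℝ := fun a => v' a - c * x a with hw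
  have hdl : ∀ y : Fin n → ℝ, dt w y = dt v' y - c * dt x y := by
    intro y
    rw [hw]
    unfold dt
    rw [Finset.mul_sum, ← Finset.sum_sub_distrib]
    exact Finset.sum_congr rfl fun a _ => by ring
  have hwx : dt w x = 0 := by rw [hdl, hxx, ← hc]; ring
  have hwv : dt w v' = 1 - c ^ 2 := by rw [hdl, hv', hxv]; ring
  have hww : dt w w = 1 - c ^ 2 := by
    rw [hdl, dt_comm v' w, dt_comm x w, hwx, hwv]
    ring
  have hxw : dt x w = 0 := by rw [dt_comm, hwx]
  obtain ⟨X, hX, hXx, hXb⟩ := h1 n R ε κ hR hε hκ hCO hKG x w hxx hxw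
  obtain ⟨g, hgO, ⟨K, hK, hgb⟩, -, -⟩ := h3 n X hX
  have hB : ∀ i, ip (Tau.tau h (U i)) (Tau.tau h (U i)) = ip (U i) (U i) := fun i =>
    Tau.ip_tau hh _ _
  -- the expansion
  have hEx : Ex (fun s => (dt (ac (g s) x) v' - dt x v') +
      L * ∑ i, (ip (Tau.tau (g s) (Tau.tau h (U i))) (U i) - ip (Tau.tau h (U i)) (U i)))
      (dt (ac X x) v' + L * ∑ i, ip (dX X (Tau.tau h (U i))) (U i)) :=
    (Ex_ac hK hgb x v').add
      ((Ex.sum Finset.univ fun i => Ex_ip h2 hK hgb (Tau.tau h (U i)) (U i)).smul L)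
  have hneg : ∀ s, (dt (ac (g s) x) v' - dt x v') +
      L * ∑ i, (ip (Tau.tau (g s) (Tau.tau h (U i))) (U i) - ip (Tau.tau h (U i)) (U i)) ≤ 0 := by
    intro s
    have hm := hmin (fun i => ac (g s) (h i)) (ON_ac (hgO s) hh)
    rw [Ef_eq L U hv hv' hh, Ef_eq L U hv hv' (ON_ac (hgO s) hh), ac_ac] at hm
    have e1 : ∀ i, Tau.tau (fun i => ac (g s) (h i)) (U i) =
        Tau.tau (g s) (Tau.tau h (U i)) := by
      intro i
      rw [(h2 n).2.2.1]
    simp only [e1, ← hx] at hm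
    have e2 : ∀ F : ι → ℝ, ∑ i, (2 * ip (U i) (U i) - 2 * F i) =
        2 * ∑ i, ip (U i) (U i) - 2 * ∑ i, F i := by
      intro F
      rw [Finset.sum_sub_distrib, ← Finset.mul_sum, ← Finset.mul_sum]
    rw [e2, e2] at hm
    rw [Finset.sum_sub_distrib]
    linarith
  have hD := hEx.nonpos hneg
  rw [hXx, hwv] at hD
  have hsum : 1 - c ^ 2 ≤ L * ∑ i, ip (Tau.tau h (U i)) (dX X (U i)) := by
    have e1 : ∑ i, ip (dX X (Tau.tau h (U i))) (U i) =
        - ∑ i, ip (Tau.tau h (U i)) (dX X (U i)) := by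
      rw [← Finset.sum_neg_distrib]
      exact Finset.sum_congr rfl fun i _ => ip_dX hX _ _
    rw [e1] at hD
    linarith
  set Q : ℝ := 1 - c ^ 2 with hQ
  have hQ0 : 0 ≤ Q := by
    rw [← hww]
    unfold dt
    exact Finset.sum_nonneg fun a _ => mul_self_nonneg _
  have hterm : ∀ i, ip (Tau.tau h (U i)) (dX X (U i)) ≤
      √Q * (√(ip (U i) (U i)) * √(ε / κ * (1 + n ^ 2 * ip (U i) (U i)))) := by
    intro i
    have e1 := ip_le (Tau.tau h (U i)) (dX X (U i))
    rw [hB i] at e1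
    have e2 := hXb (p i) (U i) (hdeg i)
    rw [hww] at e2
    have e3 : ip (dX X (U i)) (dX X (U i)) ≤ Q * (ε / κ * (1 + n ^ 2 * ip (U i) (U i))) := by
      refine e2.trans ?_
      have e4 : rc R (U i) + ε * n ^ 2 * ip (U i) (U i) ≤
          ε * (1 + n ^ 2 * ip (U i) (U i)) := by
        have := hrc i
        linarith
      have e5 : Q / κ * (rc R (U i) + ε * n ^ 2 * ip (U i) (U i)) ≤
          Q / κ * (ε * (1 + n ^ 2 * ip (U i) (U i))) :=
        mul_le_mul_of_nonneg_left e4 (by positivity)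
      refine e5.trans (le_of_eq ?_)
      ring
    have e6 : √(ip (dX X (U i)) (dX X (U i))) ≤
        √Q * √(ε / κ * (1 + n ^ 2 * ip (U i) (U i))) := by
      rw [← Real.sqrt_mul hQ0]
      exact Real.sqrt_le_sqrt e3
    calc ip (Tau.tau h (U i)) (dX X (U i)) ≤ _ := e1
      _ ≤ √(ip (U i) (U i)) * (√Q * √(ε / κ * (1 + n ^ 2 * ip (U i) (U i)))) :=
        mul_le_mul_of_nonneg_left e6 (Real.sqrt_nonneg _)
      _ = _ := by ring
  have hfin : Q ≤ √Q * (L * ∑ i, √(ip (U i) (U i)) * √(ε / κ * (1 + n ^ 2 * ip (U i) (U i)))) := by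
    refine hsum.trans ?_
    have e1 : ∑ i, ip (Tau.tau h (U i)) (dX X (U i)) ≤
        √Q * ∑ i, √(ip (U i) (U i)) * √(ε / κ * (1 + n ^ 2 * ip (U i) (U i))) := by
      rw [Finset.mul_sum]
      exact Finset.sum_le_sum fun i _ => hterm i
    have e2 := mul_le_mul_of_nonneg_left e1 hL
    refine e2.trans (le_of_eq ?_)
    ring
  have hR0 : 0 ≤ L * ∑ i, √(ip (U i) (U i)) * √(ε / κ * (1 + n ^ 2 * ip (U i) (U i))) :=
    mul_nonneg hL (Finset.sum_nonneg fun i _ => by positivity)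
  rcases hQ0.eq_or_lt with h0 | h0
  · rw [← h0, Real.sqrt_zero]
    exact hR0
  · have hsq : 0 < √Q := Real.sqrt_pos.2 h0
    have e1 : √Q * √Q ≤ √Q * (L * ∑ i, √(ip (U i) (U i)) *
        √(ε / κ * (1 + n ^ 2 * ip (U i) (U i)))) := by
      rw [Real.mul_self_sqrt hQ0]
      exact hfin
    exact le_of_mul_le_mul_left e1 hsq

end Pool.Agent.H781.KP
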