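import Pool.Agent.H781.KP.A

/-! The volume element of an even-dimensional space (project KP). -/

set_option autoImplicit false
set_option synthInstance.maxHeartbeats 400000
set_option maxHeartbeats 4000000
set_option linter.unusedSectionVars false

open MeasureTheory Filter
open scoped Topology ContDiff

noncomputable section

namespace Pool.Agent.H781.KP

open Pool.Agent.H781.NG Pool.Agent.H781.CM Pool.Agent.H781.H6

namespace Gam

theorem count_left {n : ℕ} (S : Finset (Fin n)) :
    ((S ×ˢ (Finset.univ : Finset (Fin n))).filter fun q => q.2 < q.1).card =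
      ∑ i ∈ S, (i : ℕ) := by
  rw [Finset.card_filter, Finset.sum_product]
  refine Finset.sum_congr rfl fun i _ => ?_
  simp only
  rw [← Finset.card_filter, show (Finset.univ.filter fun j : Fin n => j < i) = Finset.Iio i by
    ext j; simp, Fin.card_Iio]

theorem count_right {n : ℕ} (S : Finset (Fin n)) :
    (((Finset.univ : Finset (Fin n)) ×ˢ S).filter fun q => q.2 < q.1).card =
      ∑ i ∈ S, (n - 1 - (i : ℕ)) := by
  rw [Finset.card_filter, Finset.sum_product_right]
  refine Finset.sum_congr rfl fun i _ => ?_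
  simp only
  rw [← Finset.card_filter, show (Finset.univ.filter fun j : Fin n => i < j) = Finset.Ioi i by
    ext j; simp, Fin.card_Ioi]

theorem count_add (m : ℕ) (S : Finset (Fin (2 * m))) :
    ((S ×ˢ (Finset.univ : Finset (Fin (2 * m)))).filter fun q => q.2 < q.1).card +
      (((Finset.univ : Finset (Fin (2 * m))) ×ˢ S).filter fun q => q.2 < q.1).card + S.card =
      2 * (m * S.card) := by
  rw [count_left, count_right, Finset.card_eq_sum_ones, ← Finset.sum_add_distrib,
    ← Finset.sum_add_distrib, Finset.mul_sum, Finset.mul_sum]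
  refine Finset.sum_congr rfl fun i _ => ?_
  have := i.2
  omega

theorem sg2_univ (m : ℕ) (S : Finset (Fin (2 * m))) :
    (sg2 S Finset.univ : ℤ) = (-1) ^ S.card * sg2 Finset.univ S := by
  unfold sg2
  have h := count_add m S
  set a := ((S ×ˢ (Finset.univ : Finset (Fin (2 * m)))).filter fun q => q.2 < q.1).card
  set b := (((Finset.univ : Finset (Fin (2 * m))) ×ˢ S).filter fun q => q.2 < q.1).card
  have h1 : ((-1 : ℤ)) ^ (a + b + S.card) = 1 := by
    rw [h, pow_mul]
    norm_num
  have h2 : ((-1 : ℤ)) ^ b * (-1) ^ b = 1 := by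
    rw [← pow_add, ← two_mul, pow_mul]
    norm_num
  have h3 : ((-1 : ℤ)) ^ S.card * (-1) ^ S.card = 1 := by
    rw [← pow_add, ← two_mul, pow_mul]
    norm_num
  rw [pow_add, pow_add] at h1
  calc ((-1 : ℤ)) ^ a = (-1) ^ a * ((-1) ^ b * (-1) ^ b) * ((-1) ^ S.card * (-1) ^ S.card) := by
        rw [h2, h3, mul_one, mul_one]
    _ = ((-1) ^ a * (-1) ^ b * (-1) ^ S.card) * ((-1) ^ S.card * (-1) ^ b) := by ring
    _ = _ := by rw [h1, one_mul]

theorem mul_gam {n : ℕ} (u : Fk n ℝ) (R : Finset (Fin n)) :
    mulF u (Gam n) R = (sg2 Rᶜ Finset.univ : ℝ) * u Rᶜ := by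
  unfold mulF Pool.Agent.H781.KP.Gam
  rw [Finset.sum_eq_single Rᶜ]
  · have h1 : symmDiff Rᶜ R = Finset.univ := by
      rw [symmDiff_comm]
      exact symmDiff_compl_self R
    rw [h1]
    simp
  · intro S _ hS
    have h1 : symmDiff S R ≠ Finset.univ := by
      intro h
      apply hS
      have h2 : S = symmDiff (symmDiff S R) R := (symmDiff_symmDiff_cancel_right R S).symm
      rw [h] at h2
      rw [h2]
      exact top_symmDiff R
    rw [if_neg h1, mul_zero]
  · intro h
    exact absurd (Finset.mem_univ _) h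

theorem gam_mul {n : ℕ} (u : Fk n ℝ) (R : Finset (Fin n)) :
    mulF (Gam n) u R = (sg2 Finset.univ Rᶜ : ℝ) * u Rᶜ := by
  unfold mulF Pool.Agent.H781.KP.Gam
  rw [Finset.sum_eq_single Finset.univ]
  · have h1 : symmDiff (Finset.univ : Finset (Fin n)) R = Rᶜ := top_symmDiff R
    rw [h1]
    simp
  · intro S _ hS
    rw [if_neg hS]
    ring
  · intro h
    exact absurd (Finset.mem_univ _) h

end Gam

theorem s_gam : S_GAM := by
  intro m
  refine ⟨?_, ?_⟩
  · intro p u hu
    funext R
    rw [Pi.smul_apply, smul_eq_mul, Gam.mul_gam, Gam.gam_mul]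
    by_cases hR : (Rᶜ).card = p
    · rw [Gam.sg2_univ, hR]
      push_cast
      ring
    · rw [hu _ hR]
      ring
  · intro Z hZ
    rw [Gam.mul_gam, Finset.compl_empty]
    refine mul_ne_zero ?_ hZ
    unfold sg2
    push_cast
    exact pow_ne_zero _ (by norm_num)

end Pool.Agent.H781.KP
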