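import Pool.Agent.H781.KP.G

/-!
Project KP: functions with vanishing gradient on connected manifolds.
-/

set_option autoImplicit false
set_option synthInstance.maxHeartbeats 400000
set_option maxHeartbeats 4000000
set_option linter.unusedSectionVars false

open Bundle Manifold ContDiff VectorField MeasureTheory Filter
open scoped Topology

noncomputable section

namespace Pool.Agent.H781.KP

open Pool.Agent.H781.NG Pool.Agent.H781.CM Pool.Agent.H781.H6 Pool.Agent.H821R2
  Pool.Agent.H821R3 Pool.Agent.H893R5.HO Pool.Agent.H781.S22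

namespace Gconn

/-- a smooth function with vanishing differential on a connected manifold is constant -/
theorem eq_of_mfderiv_zero {n : ℕ} {M : Type} [TopologicalSpace M] [ConnectedSpace M]
    [ChartedSpace (EU n) M] [IsManifold (𝓡 n) ∞ M] {f : M → ℝ}
    (hf : ContMDiff (𝓡 n) 𝓘(ℝ, ℝ) ∞ f) (h0 : ∀ p, mfderiv (𝓡 n) 𝓘(ℝ, ℝ) f p = 0) (p q : M) :
    f p = f q := by
  have hloc : IsLocallyConstant f := by
    rw [IsLocallyConstant.iff_eventually_eq]
    intro x₀
    have hopen : IsOpen (extChartAt (𝓡 n) x₀).target := isOpen_extChartAt_target x₀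
    have hder : ∀ y ∈ (extChartAt (𝓡 n) x₀).target,
        HasFDerivAt (f ∘ (extChartAt (𝓡 n) x₀).symm) (0 : EU n →L[ℝ] ℝ) y := by
      intro y hy
      have h1 : ContMDiffAt 𝓘(ℝ, EU n) (𝓡 n) ∞ (extChartAt (𝓡 n) x₀).symm y :=
        (contMDiffOn_extChartAt_symm x₀).contMDiffAt (hopen.mem_nhds hy)
      have h2 : MDifferentiableAt 𝓘(ℝ, EU n) (𝓡 n) (extChartAt (𝓡 n) x₀).symm y :=
        h1.mdifferentiableAt (by simp)
      have h3 : MDifferentiableAt (𝓡 n) 𝓘(ℝ, ℝ) f ((extChartAt (𝓡 n) x₀).symm y) :=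
        (hf _).mdifferentiableAt (by simp)
      have h4 := h3.hasMFDerivAt.comp y h2.hasMFDerivAt
      rw [h0, ContinuousLinearMap.zero_comp] at h4
      exact h4.hasFDerivAt
    obtain ⟨r, hr, hb⟩ := Metric.isOpen_iff.1 hopen _ (mem_extChartAt_target (I := 𝓡 n) x₀)
    have hc : ∀ y ∈ Metric.ball (extChartAt (𝓡 n) x₀ x₀) r,
        (f ∘ (extChartAt (𝓡 n) x₀).symm) y =
          (f ∘ (extChartAt (𝓡 n) x₀).symm) (extChartAt (𝓡 n) x₀ x₀) := by
      intro y hy
      refine (convex_ball (extChartAt (𝓡 n) x₀ x₀) r).is_const_of_fderivWithin_eq_zero (𝕜 := ℝ)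
        (fun z hz => (hder z (hb hz)).differentiableAt.differentiableWithinAt) (fun z hz => ?_) hy
        (Metric.mem_ball_self hr)
      rw [fderivWithin_of_isOpen Metric.isOpen_ball hz]
      exact (hder z (hb hz)).fderiv
    have hn : ∀ᶠ y in 𝓝 x₀, extChartAt (𝓡 n) x₀ y ∈ Metric.ball (extChartAt (𝓡 n) x₀ x₀) r :=
      (continuousAt_extChartAt x₀).eventually (Metric.ball_mem_nhds _ hr)
    filter_upwards [hn, extChartAt_source_mem_nhds (I := 𝓡 n) x₀] with y hy hys
    have h5 := hc _ hy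
    rw [Function.comp_apply, Function.comp_apply, (extChartAt (𝓡 n) x₀).left_inv hys,
      (extChartAt (𝓡 n) x₀).left_inv (mem_extChartAt_source (I := 𝓡 n) x₀)] at h5
    exact h5
  exact hloc.apply_eq_of_isPreconnected isPreconnected_univ (Set.mem_univ p) (Set.mem_univ q)

end Gconn

open Gconn in
theorem s_gconn : S_GCONN := by
  intro n M _ _ _ _ _ _ _ _ N D
  intro h hh
  have hh' : (∑ a, D.F.e a h * D.F.e a h : SA n M) = 0 := hh
  have hz : ∀ (p : M) (a : Fin N), evA p (D.F.e a h) = 0 := by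
    intro p a
    have h1 := congrArg (evA p) hh'
    rw [map_sum, map_zero] at h1
    simp only [map_mul] at h1
    have h2 := (Finset.sum_eq_zero_iff_of_nonneg (fun a _ => mul_self_nonneg _)).1 h1 a
      (Finset.mem_univ a)
    exact mul_self_eq_zero.1 h2
  have hX : ∀ (p : M) (a : Fin N), mfderiv (𝓡 n) 𝓘(ℝ, ℝ) (h : SA n M).1 p (D.T.X a p) = 0 := by
    intro p a
    have h1 := hz p a
    rw [D.ok.e, ev_derA] at h1
    exact h1
  have h0 : ∀ p, mfderiv (𝓡 n) 𝓘(ℝ, ℝ) (h : SA n M).1 p = 0 := by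
    intro p
    ext v
    have h1 := D.T.par p v
    rw [← h1, map_sum]
    refine (Finset.sum_eq_zero fun a _ => ?_).trans rfl
    rw [map_smul, hX, smul_zero]
  obtain ⟨p0⟩ : Nonempty M := inferInstance
  refine ⟨(h : SA n M).1 p0, ?_⟩
  refine Subtype.ext (funext fun p => ?_)
  exact eq_of_mfderiv_zero (h : SA n M).2 h0 p p0

end Pool.Agent.H781.KP
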