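import Pool.Agent.H781.KP.G

/-!
Existence of the data `GD` with `2 n` vector fields.
-/

set_option autoImplicit false
set_option synthInstance.maxHeartbeats 400000
set_option maxHeartbeats 4000000
set_option linter.unusedSectionVars false

open Bundle Manifold ContDiff VectorField MeasureTheory Filter
open scoped Topology

noncomputable section

namespace Pool.Agent.H781.KP

open Pool.Agent.H781.NG Pool.Agent.H781.CM Pool.Agent.H781.H6 Pool.Agent.H821R2
  Pool.Agent.H821R3 Pool.Agent.H893R5.HO Pool.Agent.H781.S22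

theorem s_gdu (h1 : S_PFU) (h2 : S_GFR) (h3 : S_GBI) (h4 : S_MEAS) (h5 : S_DIVT) (h6 : S_TKV) :
    S_GDU := by
  intro n M _ _ _ _ _ _ _ _ hn g cov R hlc hrt
  obtain ⟨T⟩ := h1 n M hn g
  obtain ⟨F, hF⟩ := h2 n M hn g cov hlc (2 * n) T
  obtain ⟨c, μ, hc, hμ, hpos, hdens⟩ := h4 n M g hn
  have hd : SmDens n μ := by
    intro x₀
    obtain ⟨-, -, -, -, -, hg⟩ := h6 n M x₀
    obtain ⟨-, hs, hp⟩ := hg g
    refine ⟨fun y => c * √(gm g x₀ y).det, ?_, ?_, fun f hf => hdens x₀ f hf⟩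
    · exact contDiffOn_const.mul ((contDiffOn_det hs).sqrt fun y hy => (hp y hy).det_pos.ne')
    · intro y hy
      exact mul_pos hc (Real.sqrt_pos.2 (hp y hy).det_pos)
  exact ⟨⟨g, cov, R, hlc, hrt, T, F, hF, h3 n M hn g cov hlc (2 * n) T F hF, μ, hμ, hpos, hd,
    h5 n M hn g cov hlc (2 * n) T F hF c μ hc hμ hdens⟩, rfl⟩

end Pool.Agent.H781.KP
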