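import Pool.Agent.H781.KP.A

/-!
Project KP: infinitesimal transitivity.
-/

set_option autoImplicit false
set_option synthInstance.maxHeartbeats 400000
set_option maxHeartbeats 4000000
set_option linter.unusedSectionVars false

open MeasureTheory Filter
open scoped Topology ContDiff

noncomputable section

namespace Pool.Agent.H781.KP

open Pool.Agent.H781.NG Pool.Agent.H781.CM Pool.Agent.H781.H6

namespace Inf

variable {n : ℕ}

/-- composition, first `g`, then `h` -/
def cmp (h g : Fin n → Fin n → ℝ) : Fin n → Fin n → ℝ := fun i => ac h (g i)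

/-- the transposed matrix -/
def trp (h : Fin n → Fin n → ℝ) : Fin n → Fin n → ℝ := fun i a => h a i

/-- the square of the distance from the identity -/
def FF (h : Fin n → Fin n → ℝ) : ℝ := ∑ i, ∑ a, (h i a - I1 n i a) ^ 2

theorem ac_cmp (h g : Fin n → Fin n → ℝ) (v : Fin n → ℝ) : ac (cmp h g) v = ac h (ac g v) := by
  funext a
  unfold cmp ac
  simp only [Finset.mul_sum, Finset.sum_mul]
  rw [Finset.sum_comm]
  exact Finset.sum_congr rfl fun k _ => Finset.sum_congr rfl fun i _ => by ring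

theorem ac_I1 (v : Fin n → ℝ) : ac (I1 n) v = v := by
  funext a
  unfold ac I1
  simp

theorem ac_add (b c : Fin n → Fin n → ℝ) (v : Fin n → ℝ) (a : Fin n) :
    ac (fun i a => b i a + c i a) v a = ac b v a + ac c v a := by
  unfold ac
  rw [← Finset.sum_add_distrib]
  exact Finset.sum_congr rfl fun i _ => by ring

theorem ac_smul (r : ℝ) (b : Fin n → Fin n → ℝ) (v : Fin n → ℝ) (a : Fin n) :
    ac (fun i a => r * b i a) v a = r * ac b v a := by
  unfold ac
  rw [Finset.mul_sum]
  exact Finset.sum_congr rfl fun i _ => by ring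

theorem dt_ac {h : Fin n → Fin n → ℝ} (hON : ON h) (x y : Fin n → ℝ) :
    dt (ac h x) (ac h y) = dt x y := by
  unfold dt ac
  have h1 : ∀ a, (∑ i, x i * h i a) * (∑ j, y j * h j a) =
      ∑ i, ∑ j, x i * y j * (h i a * h j a) := by
    intro a
    rw [Finset.sum_mul_sum]
    exact Finset.sum_congr rfl fun i _ => Finset.sum_congr rfl fun j _ => by ring
  simp only [h1]
  rw [Finset.sum_comm]
  apply Finset.sum_congr rfl
  intro i _
  rw [Finset.sum_comm]
  have h2 : ∀ j, ∑ a, x i * y j * (h i a * h j a) = x i * y j * (if i = j then 1 else 0) := by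
    intro j
    rw [← Finset.mul_sum]
    congr 1
    exact hON i j
  simp only [h2]
  simp

theorem on_cmp {h g : Fin n → Fin n → ℝ} (hh : ON h) (hg : ON g) : ON (cmp h g) := by
  intro i j
  unfold cmp
  rw [dt_ac hh, hg i j]

theorem on_trp {h : Fin n → Fin n → ℝ} (hh : ON h) : ON (trp h) := by
  have h1 : (Matrix.of h) * (Matrix.of h).transpose = 1 := by
    ext i j
    rw [Matrix.mul_apply, Matrix.one_apply]
    exact hh i j
  have h2 := mul_eq_one_comm.mp h1
  intro i j
  have h3 := congrFun (congrFun h2 i) j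
  rw [Matrix.mul_apply, Matrix.one_apply] at h3
  exact h3

theorem cmp_trp_left {h : Fin n → Fin n → ℝ} (hh : ON h) : cmp (trp h) h = I1 n := by
  funext i a
  exact hh i a

theorem cmp_trp_right {h : Fin n → Fin n → ℝ} (hh : ON h) : cmp h (trp h) = I1 n := by
  funext i a
  exact on_trp hh i a

theorem on_entry {h : Fin n → Fin n → ℝ} (hh : ON h) (i a : Fin n) : |h i a| ≤ 1 := by
  have h1 := hh i i
  rw [if_pos rfl] at h1
  unfold dt at h1
  have h2 : h i a * h i a ≤ ∑ b, h i b * h i b :=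
    Finset.single_le_sum (f := fun b => h i b * h i b) (fun b _ => mul_self_nonneg _)
      (Finset.mem_univ a)
  rw [h1] at h2
  exact abs_le_one_iff_mul_self_le_one.mpr h2

theorem FF_nonneg (h : Fin n → Fin n → ℝ) : 0 ≤ FF h :=
  Finset.sum_nonneg fun i _ => Finset.sum_nonneg fun a _ => sq_nonneg _

theorem FF_I1 : FF (I1 n) = 0 := by
  unfold FF
  simp

theorem FF_zero {h : Fin n → Fin n → ℝ} (h0 : FF h = 0) : h = I1 n := by
  funext i a
  have h1 := (Finset.sum_eq_zero_iff_of_nonneg (fun i _ => Finset.sum_nonneg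
    fun a _ => sq_nonneg (h i a - I1 n i a))).mp h0 i (Finset.mem_univ i)
  have h2 := (Finset.sum_eq_zero_iff_of_nonneg (fun a _ => sq_nonneg (h i a - I1 n i a))).mp h1 a
    (Finset.mem_univ a)
  have h3 := pow_eq_zero_iff (two_ne_zero) |>.mp h2
  linarith

theorem FF_on {h : Fin n → Fin n → ℝ} (hh : ON h) : FF h = 2 * n - 2 * ∑ i, h i i := by
  unfold FF
  have h1 : ∀ i, ∑ a, (h i a - I1 n i a) ^ 2 = 2 - 2 * h i i := by
    intro i
    have h2 : ∀ a, (h i a - I1 n i a) ^ 2 = h i a * h i a - 2 * (h i a * (if i = a then 1 else 0)) +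
        (if i = a then 1 else 0) := by
      intro a
      unfold I1
      split_ifs <;> ring
    simp only [h2]
    rw [Finset.sum_add_distrib, Finset.sum_sub_distrib, ← Finset.mul_sum]
    have h3 := hh i i
    rw [if_pos rfl] at h3
    unfold dt at h3
    rw [h3]
    simp
    ring
  simp only [h1]
  rw [Finset.sum_sub_distrib, ← Finset.mul_sum]
  simp
  ring

/-- the stabiliser -/
def HS {ι : Type} (u : ι → Fk n ℝ) : Set (Fin n → Fin n → ℝ) :=
  {h | ON h ∧ ∀ i, Tau.tau h (u i) = u i}

theorem hs_cmp (h1 : S_TAC) {ι : Type} (u : ι → Fk n ℝ) {h g : Fin n → Fin n → ℝ}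
    (hh : h ∈ HS u) (hg : g ∈ HS u) : cmp h g ∈ HS u := by
  refine ⟨on_cmp hh.1 hg.1, fun i => ?_⟩
  have := (h1 n).2.2.1 h g (u i)
  rw [hg.2 i, hh.2 i] at this
  exact this.symm

theorem hs_trp (h1 : S_TAC) {ι : Type} (u : ι → Fk n ℝ) {h : Fin n → Fin n → ℝ}
    (hh : h ∈ HS u) : trp h ∈ HS u := by
  refine ⟨on_trp hh.1, fun i => ?_⟩
  have h2 := (h1 n).2.2.1 (trp h) h (u i)
  rw [hh.2 i] at h2
  rw [h2]
  have h3 : (fun i => ac (trp h) (h i)) = I1 n := cmp_trp_left hh.1
  rw [h3]
  exact (h1 n).2.1 (u i)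

theorem ent_cont (i a : Fin n) : Continuous fun h : Fin n → Fin n → ℝ => h i a :=
  (continuous_apply a).comp (continuous_apply i)

theorem ac_cont (v : Fin n → ℝ) (a : Fin n) :
    Continuous fun h : Fin n → Fin n → ℝ => ac h v a := by
  unfold ac
  exact continuous_finsetSum _ fun i _ => continuous_const.mul (ent_cont i a)

theorem FF_cont : Continuous (FF : (Fin n → Fin n → ℝ) → ℝ) := by
  unfold FF
  exact continuous_finsetSum _ fun i _ => continuous_finsetSum _ fun a _ =>
    ((ent_cont i a).sub continuous_const).pow 2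

theorem hs_closed (h1 : S_TAC) {ι : Type} (u : ι → Fk n ℝ) : IsClosed (HS u) := by
  have e : HS u = (⋂ i, ⋂ j, {h : Fin n → Fin n → ℝ | dt (h i) (h j) = if i = j then 1 else 0}) ∩
      ⋂ i, ⋂ S, {h : Fin n → Fin n → ℝ | Tau.tau h (u i) S = u i S} := by
    ext h
    simp only [HS, ON, Set.mem_ofPred_eq, Set.mem_inter_iff, Set.mem_iInter]
    refine and_congr Iff.rfl ?_
    exact ⟨fun h2 i S => by rw [h2 i], fun h2 i => funext (h2 i)⟩
  rw [e]
  refine IsClosed.inter ?_ ?_
  · refine isClosed_iInter fun i => isClosed_iInter fun j => isClosed_eq ?_ continuous_const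
    unfold dt
    exact continuous_finsetSum _ fun a _ => (ent_cont i a).mul (ent_cont j a)
  · exact isClosed_iInter fun i => isClosed_iInter fun S =>
      isClosed_eq ((h1 n).1 (u i) S) continuous_const

theorem hs_compact (h1 : S_TAC) {ι : Type} (u : ι → Fk n ℝ) : IsCompact (HS u) := by
  have hK : IsCompact (Set.univ.pi fun _ : Fin n => Set.univ.pi fun _ : Fin n =>
      Set.Icc (-1 : ℝ) 1) := isCompact_univ_pi fun _ => isCompact_univ_pi fun _ => isCompact_Icc
  refine hK.of_isClosed_subset (hs_closed h1 u) ?_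
  intro h hh i _ a _
  exact abs_le.mp (on_entry hh.1 i a)

/-- the sum of the squares of the entries -/
def N2 (Z : Fin n → Fin n → ℝ) : ℝ := ∑ i, ∑ a, Z i a ^ 2

theorem N2_cont : Continuous (N2 : (Fin n → Fin n → ℝ) → ℝ) := by
  unfold N2
  exact continuous_finsetSum _ fun i _ => continuous_finsetSum _ fun a _ => (ent_cont i a).pow 2

theorem n2_entry {Z : Fin n → Fin n → ℝ} (h : N2 Z = 1) (i a : Fin n) : |Z i a| ≤ 1 := by
  have h1 : Z i a ^ 2 ≤ ∑ b, Z i b ^ 2 :=
    Finset.single_le_sum (f := fun b => Z i b ^ 2) (fun b _ => sq_nonneg _) (Finset.mem_univ a)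
  have h2 : ∑ b, Z i b ^ 2 ≤ N2 Z :=
    Finset.single_le_sum (f := fun i => ∑ b, Z i b ^ 2)
      (fun b _ => Finset.sum_nonneg fun _ _ => sq_nonneg _) (Finset.mem_univ i)
  rw [h] at h2
  have h3 : Z i a ^ 2 ≤ 1 := h1.trans h2
  rw [← sq_abs] at h3
  nlinarith [abs_nonneg (Z i a)]

theorem n2_compact : IsCompact {Z : Fin n → Fin n → ℝ | N2 Z = 1} := by
  have hK : IsCompact (Set.univ.pi fun _ : Fin n => Set.univ.pi fun _ : Fin n =>
      Set.Icc (-1 : ℝ) 1) := isCompact_univ_pi fun _ => isCompact_univ_pi fun _ => isCompact_Icc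
  refine hK.of_isClosed_subset (isClosed_eq N2_cont continuous_const) ?_
  intro h hh i _ a _
  exact abs_le.mp (n2_entry hh i a)

theorem dt_lin (x v w : Fin n → ℝ) (α β : ℝ) :
    dt x (fun a => α * v a + β * w a) = α * dt x v + β * dt x w := by
  unfold dt
  rw [Finset.mul_sum, Finset.mul_sum, ← Finset.sum_add_distrib]
  exact Finset.sum_congr rfl fun a _ => by ring

theorem dt_comm (x y : Fin n → ℝ) : dt x y = dt y x := by
  unfold dt
  exact Finset.sum_congr rfl fun a _ => mul_comm _ _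

theorem seq (h1 : S_TAC) {ι : Type} (u : ι → Fk n ℝ)
    (hyp : ∀ v v' : Fin n → ℝ, dt v v = 1 → dt v' v' = 1 → dt v v' ≠ -1 →
      ∃ h, ON h ∧ ac h v = v' ∧ ∀ i, Tau.tau h (u i) = u i)
    (v w : Fin n → ℝ) (hv : dt v v = 1) (hw : dt w w = 1) (hvw : dt v w = 0) :
    ∃ (hk : ℕ → Fin n → Fin n → ℝ) (s : ℕ → ℝ), (∀ k, hk k ∈ HS u) ∧
      (∀ k, 0 < s k ∧ s k ≤ 1) ∧
      (∀ k, ac (hk k) v = fun a => Real.cos (s k) * v a + Real.sin (s k) * w a) ∧
      (∀ k, ∀ g ∈ HS u, ac g v = v → FF (hk k) ≤ FF (cmp (hk k) g)) ∧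
      Tendsto (fun k => FF (hk k)) atTop (𝓝 0) := by
  have hs : ∀ j : ℕ, 0 < 1 / ((j : ℝ) + 1) ∧ 1 / ((j : ℝ) + 1) ≤ 1 := by
    intro j
    have hj : (0 : ℝ) ≤ j := Nat.cast_nonneg j
    refine ⟨by positivity, ?_⟩
    rw [div_le_one (by positivity)]
    linarith
  have hex : ∀ j : ℕ, ∃ h ∈ HS u,
      ac h v = (fun a => Real.cos (1 / ((j : ℝ) + 1)) * v a + Real.sin (1 / ((j : ℝ) + 1)) * w a) ∧
      ∀ h' ∈ HS u,
        ac h' v = (fun a => Real.cos (1 / ((j : ℝ) + 1)) * v a +
          Real.sin (1 / ((j : ℝ) + 1)) * w a) → FF h ≤ FF h' := by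
    intro j
    set σ := 1 / ((j : ℝ) + 1) with hσ
    have hσ1 := hs j
    have hcos : 0 < Real.cos σ := Real.cos_pos_of_mem_Ioo
      ⟨by linarith [Real.pi_gt_three], by linarith [Real.pi_gt_three]⟩
    obtain ⟨h0, hON, hac0, htau⟩ := hyp v (fun a => Real.cos σ * v a + Real.sin σ * w a) hv
      (by
        rw [dt_lin, dt_comm _ v, dt_comm _ w, dt_lin, dt_lin, hv, hw, hvw, dt_comm w v, hvw]
        have := Real.sin_sq_add_cos_sq σ
        nlinarith)
      (by
        rw [dt_lin, hv, hvw]
        intro hc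
        linarith)
    have hcl : IsClosed {h : Fin n → Fin n → ℝ |
        ac h v = fun a => Real.cos σ * v a + Real.sin σ * w a} := by
      have e : {h : Fin n → Fin n → ℝ | ac h v = fun a => Real.cos σ * v a + Real.sin σ * w a} =
          ⋂ a, {h : Fin n → Fin n → ℝ | ac h v a = Real.cos σ * v a + Real.sin σ * w a} := by
        ext h
        simp only [Set.mem_ofPred_eq, Set.mem_iInter]
        exact funext_iff
      rw [e]
      exact isClosed_iInter fun a => isClosed_eq (ac_cont v a) continuous_const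
    have hcp : IsCompact (HS u ∩ {h : Fin n → Fin n → ℝ |
        ac h v = fun a => Real.cos σ * v a + Real.sin σ * w a}) :=
      (hs_compact h1 u).inter_right hcl
    obtain ⟨h, hh, hmin⟩ := hcp.exists_isMinOn ⟨h0, ⟨hON, htau⟩, hac0⟩ FF_cont.continuousOn
    exact ⟨h, hh.1, hh.2, fun h' hh' hac' => hmin ⟨hh', hac'⟩⟩
  choose hj hjH hjac hjmin using hex
  obtain ⟨h', hh', φ, hφ, hlim⟩ := (hs_compact h1 u).tendsto_subseq hjH
  refine ⟨fun k => hj (φ k), fun k => 1 / ((φ k : ℝ) + 1), fun k => hjH _, fun k => hs _,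
    fun k => hjac _, ?_, ?_⟩
  · intro k g hg hgv
    refine hjmin (φ k) _ (hs_cmp h1 u (hjH _) hg) ?_
    rw [ac_cmp, hgv]
    exact hjac _
  · have hsl : Tendsto (fun k => 1 / ((φ k : ℝ) + 1)) atTop (𝓝 0) :=
      tendsto_one_div_add_atTop_nhds_zero_nat.comp hφ.tendsto_atTop
    have hac' : ac h' v = v := by
      funext a
      have t1 : Tendsto (fun k => ac (hj (φ k)) v a) atTop (𝓝 (ac h' v a)) :=
        ((ac_cont v a).tendsto h').comp hlim
      have t2 : Tendsto (fun k => ac (hj (φ k)) v a) atTop (𝓝 (v a)) := by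
        simp only [hjac]
        have t3 : Tendsto (fun k => Real.cos (1 / ((φ k : ℝ) + 1)) * v a +
            Real.sin (1 / ((φ k : ℝ) + 1)) * w a) atTop
            (𝓝 (Real.cos 0 * v a + Real.sin 0 * w a)) :=
          (((Real.continuous_cos.tendsto 0).comp hsl).mul_const _).add
            (((Real.continuous_sin.tendsto 0).comp hsl).mul_const _)
        simpa using t3
      exact tendsto_nhds_unique t1 t2
    have htr : ac (trp h') v = v := by
      have h5 : ac (cmp (trp h') h') v = v := by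
        rw [cmp_trp_left hh'.1]
        exact ac_I1 v
      rw [ac_cmp, hac'] at h5
      exact h5
    have hcc : Continuous fun h : Fin n → Fin n → ℝ => FF (cmp h (trp h')) := by
      refine FF_cont.comp (continuous_pi fun i => continuous_pi fun a => ?_)
      exact ac_cont _ a
    have t4 : Tendsto (fun k => FF (cmp (hj (φ k)) (trp h'))) atTop (𝓝 (FF (cmp h' (trp h')))) :=
      (hcc.tendsto h').comp hlim
    rw [cmp_trp_right hh'.1, FF_I1] at t4
    refine squeeze_zero (fun k => FF_nonneg _) (fun k => ?_) t4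
    refine hjmin (φ k) _ (hs_cmp h1 u (hjH _) (hs_trp h1 u hh')) ?_
    rw [ac_cmp, htr]
    exact hjac _

theorem dX_apply (X : Fin n → Fin n → ℝ) (u : Fk n ℝ) (S : Finset (Fin n)) :
    dX X u S = ∑ i, ∑ a, X i a * cr a (an i u) S := by
  unfold dX
  rw [Finset.sum_apply]
  apply Finset.sum_congr rfl
  intro i _
  rw [Finset.sum_apply]
  rfl

theorem dX_cont (u : Fk n ℝ) (S : Finset (Fin n)) :
    Continuous fun X : Fin n → Fin n → ℝ => dX X u S := by
  simp only [dX_apply]
  exact continuous_finsetSum _ fun i _ => continuous_finsetSum _ fun a _ =>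
    (ent_cont i a).mul continuous_const

theorem dX_smul (r : ℝ) (X : Fin n → Fin n → ℝ) (u : Fk n ℝ) (S : Finset (Fin n)) :
    dX (fun i a => r * X i a) u S = r * dX X u S := by
  rw [dX_apply, dX_apply, Finset.mul_sum]
  apply Finset.sum_congr rfl
  intro i _
  rw [Finset.mul_sum]
  exact Finset.sum_congr rfl fun a _ => by ring

theorem zero_of_bound (G M : ℝ) (hM : 0 ≤ M) (h : ∀ s : ℝ, |s| ≤ 1 → s * G ≤ M * s ^ 2) :
    G = 0 := by
  by_contra hG
  have hG' : 0 < |G| := abs_pos.mpr hG
  have hD : 0 < M + |G| + 1 := by linarith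
  have h1 := h (G / (M + |G| + 1)) (by
    rw [abs_div, abs_of_pos hD, div_le_one hD]
    linarith)
  have h2 : G / (M + |G| + 1) * G = G ^ 2 / (M + |G| + 1) := by ring
  have h3 : M * (G / (M + |G| + 1)) ^ 2 = G ^ 2 * M / (M + |G| + 1) ^ 2 := by
    rw [div_pow]; ring
  rw [h2, h3, div_le_div_iff₀ hD (by positivity)] at h1
  have h4 : 0 < G ^ 2 := by positivity
  have h5 : G ^ 2 * (M + |G| + 1) * ((M + |G| + 1) - M) ≤ 0 := by nlinarith
  have h6 : 0 < G ^ 2 * (M + |G| + 1) * ((M + |G| + 1) - M) := by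
    apply mul_pos (mul_pos h4 hD)
    linarith
  linarith

end Inf

open Inf in
theorem s_inf (h1 : S_TAC) (h2 : S_TEX) : S_INF := by
  intro n ι _ u hyp v w hv hw hvw
  obtain ⟨hk, s, hkH, hs, hac, hmin, hF⟩ := seq h1 u hyp v w hv hw hvw
  obtain ⟨r, hrdef⟩ : ∃ r : ℕ → ℝ, ∀ k, r k = √(FF (hk k)) := ⟨fun k => √(FF (hk k)), fun k => rfl⟩
  have hr2 : ∀ k, r k ^ 2 = FF (hk k) := fun k => by
    rw [hrdef]
    exact Real.sq_sqrt (FF_nonneg _)
  have hrpos : ∀ k, 0 < r k := by
    intro k
    rw [hrdef]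
    apply Real.sqrt_pos.mpr
    rcases (FF_nonneg (hk k)).lt_or_eq with h | h
    · exact h
    · exfalso
      have h3 := FF_zero h.symm
      have h4 := hac k
      rw [h3, ac_I1] at h4
      have h5 : dt w v = dt w (fun a => Real.cos (s k) * v a + Real.sin (s k) * w a) :=
        congrArg (dt w) h4
      rw [dt_lin, dt_comm w v, hvw, hw] at h5
      have h6 : 0 < Real.sin (s k) := Real.sin_pos_of_pos_of_lt_pi (hs k).1
        (by linarith [(hs k).2, Real.pi_gt_three])
      linarith
  obtain ⟨Zk, hZk⟩ : ∃ Zk : ℕ → Fin n → Fin n → ℝ,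
      ∀ k i a, Zk k i a = (r k)⁻¹ * (hk k i a - I1 n i a) := ⟨_, fun k i a => rfl⟩
  have hYZ : ∀ k i a, hk k i a = I1 n i a + r k * Zk k i a := by
    intro k i a
    rw [hZk, ← mul_assoc, mul_inv_cancel₀ (hrpos k).ne']
    ring
  have hN : ∀ k, Zk k ∈ {Z : Fin n → Fin n → ℝ | N2 Z = 1} := by
    intro k
    show N2 (Zk k) = 1
    have h3 : r k ^ 2 * N2 (Zk k) = FF (hk k) := by
      unfold N2 FF
      rw [Finset.mul_sum]
      apply Finset.sum_congr rfl
      intro i _
      rw [Finset.mul_sum]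
      apply Finset.sum_congr rfl
      intro a _
      rw [hYZ]
      ring
    rw [← hr2] at h3
    have h4 : r k ^ 2 ≠ 0 := by
      have := hrpos k
      positivity
    exact mul_left_cancel₀ h4 (by rw [h3, mul_one])
  obtain ⟨Z, hZ1, ψ, hψ, hlim⟩ := n2_compact.tendsto_subseq hN
  have hr0 : Tendsto (fun k => r (ψ k)) atTop (𝓝 0) := by
    have h3 : Tendsto (fun k => √(FF (hk k))) atTop (𝓝 (√0)) :=
      (Real.continuous_sqrt.tendsto 0).comp hF
    rw [Real.sqrt_zero] at h3
    have h4 : Tendsto r atTop (𝓝 0) := by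
      refine h3.congr fun k => (hrdef k).symm
    exact h4.comp hψ.tendsto_atTop
  have hent : ∀ i a, Tendsto (fun k => Zk (ψ k) i a) atTop (𝓝 (Z i a)) := fun i a =>
    ((ent_cont i a).tendsto Z).comp hlim
  -- skew
  have hskew : Sk Z := by
    intro i j
    have e : ∀ k, Zk k i j + Zk k j i = - (r k * ∑ a, Zk k i a * Zk k j a) := by
      intro k
      have h3 := (hkH k).1 i j
      unfold dt at h3
      have h4 : ∀ a, hk k i a * hk k j a = I1 n i a * I1 n j a + r k * (I1 n i a * Zk k j a) +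
          r k * (I1 n j a * Zk k i a) + r k ^ 2 * (Zk k i a * Zk k j a) := by
        intro a
        rw [hYZ k i a, hYZ k j a]
        ring
      simp only [h4] at h3
      rw [Finset.sum_add_distrib, Finset.sum_add_distrib, Finset.sum_add_distrib,
        ← Finset.mul_sum, ← Finset.mul_sum, ← Finset.mul_sum] at h3
      have h5 : ∑ a, I1 n i a * I1 n j a = if i = j then 1 else 0 := by
        unfold I1
        simp [eq_comm]
      have h6 : ∑ a, I1 n i a * Zk k j a = Zk k j i := by
        unfold I1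
        simp
      have h7 : ∑ a, I1 n j a * Zk k i a = Zk k i j := by
        unfold I1
        simp
      rw [h5, h6, h7] at h3
      have h8 : r k * (Zk k i j + Zk k j i + r k * ∑ a, Zk k i a * Zk k j a) = 0 := by
        linarith
      have h9 := (mul_eq_zero.mp h8).resolve_left (hrpos k).ne'
      linarith
    have t1 : Tendsto (fun k => Zk (ψ k) i j + Zk (ψ k) j i) atTop (𝓝 (Z i j + Z j i)) :=
      (hent i j).add (hent j i)
    have t2 : Tendsto (fun k => - (r (ψ k) * ∑ a, Zk (ψ k) i a * Zk (ψ k) j a)) atTop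
        (𝓝 (- (0 * ∑ a, Z i a * Z j a))) :=
      (hr0.mul (tendsto_finsetSum _ fun a _ => (hent i a).mul (hent j a))).neg
    have t3 := tendsto_nhds_unique (t1.congr fun k => e (ψ k)) t2
    linarith
  -- the derivations
  have hdX : ∀ i, dX Z (u i) = 0 := by
    intro i
    funext S
    obtain ⟨K, hK0, hK⟩ := (h1 n).2.2.2
    have hb : ∀ᶠ k in atTop, |dX (Zk (ψ k)) (u i) S| ≤ K * r (ψ k) * √(ip (u i) (u i)) := by
      have h3 : ∀ᶠ k in atTop, r (ψ k) < 1 := hr0.eventually_lt_const one_pos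
      filter_upwards [h3] with k hk1
      have hrk := hrpos (ψ k)
      have h4 := hK (fun i a => r (ψ k) * Zk (ψ k) i a) (u i) S (by
        intro i a
        rw [abs_mul, abs_of_pos hrk]
        have := n2_entry (hN (ψ k)) i a
        nlinarith [abs_nonneg (Zk (ψ k) i a)])
      have h5 : (fun i a => I1 n i a + r (ψ k) * Zk (ψ k) i a) = hk (ψ k) := by
        funext i a
        exact (hYZ _ _ _).symm
      have h5' : Tau.tau (fun i a => I1 n i a + r (ψ k) * Zk (ψ k) i a) (u i) = u i := by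
        rw [h5]
        exact (hkH (ψ k)).2 i
      rw [h5', dX_smul, sub_self, zero_sub, abs_neg, abs_mul, abs_of_pos hrk] at h4
      have h6 : ∑ i, ∑ a, (r (ψ k) * Zk (ψ k) i a) ^ 2 = r (ψ k) ^ 2 := by
        have h7 : N2 (Zk (ψ k)) = 1 := hN (ψ k)
        unfold N2 at h7
        calc ∑ i, ∑ a, (r (ψ k) * Zk (ψ k) i a) ^ 2
            = r (ψ k) ^ 2 * ∑ i, ∑ a, Zk (ψ k) i a ^ 2 := by
              rw [Finset.mul_sum]
              apply Finset.sum_congr rfl
              intro i _
              rw [Finset.mul_sum]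
              exact Finset.sum_congr rfl fun a _ => by ring
          _ = r (ψ k) ^ 2 := by rw [h7, mul_one]
      rw [h6] at h4
      have h8 : r (ψ k) * |dX (Zk (ψ k)) (u i) S| ≤
          r (ψ k) * (K * r (ψ k) * √(ip (u i) (u i))) := by
        calc _ ≤ _ := h4
          _ = _ := by ring
      exact le_of_mul_le_mul_left h8 hrk
    have t1 : Tendsto (fun k => |dX (Zk (ψ k)) (u i) S|) atTop (𝓝 |dX Z (u i) S|) :=
      (((dX_cont (u i) S).tendsto Z).comp hlim).abs
    have t2 : Tendsto (fun k => K * r (ψ k) * √(ip (u i) (u i))) atTop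
        (𝓝 (K * 0 * √(ip (u i) (u i)))) := (hr0.const_mul K).mul_const _
    have h9 := le_of_tendsto_of_tendsto t1 t2 hb
    rw [mul_zero, zero_mul] at h9
    exact abs_eq_zero.mp (le_antisymm h9 (abs_nonneg _))
  -- the vector
  have hvv : dt v (ac Z v) = 0 := by
    have h3 : dt v (ac Z v) = - dt v (ac Z v) := by
      unfold dt ac
      simp only [Finset.mul_sum]
      rw [← Finset.sum_neg_distrib, Finset.sum_comm]
      apply Finset.sum_congr rfl
      intro i _
      rw [← Finset.sum_neg_distrib]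
      apply Finset.sum_congr rfl
      intro a _
      rw [hskew i a]
      ring
    linarith
  have hlin : ∀ a, ac Z v a = dt v (ac Z v) * v a + dt w (ac Z v) * w a := by
    intro a
    have h3 : ∀ k, ac (Zk k) v = fun a => ((r k)⁻¹ * (Real.cos (s k) - 1)) * v a +
        ((r k)⁻¹ * Real.sin (s k)) * w a := by
      intro k
      funext a
      have h4 : ac (hk k) v a = ac (I1 n) v a + r k * ac (Zk k) v a := by
        rw [← ac_smul, ← ac_add]
        congr 1
        funext i a
        exact hYZ k i a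
      rw [hac k, ac_I1] at h4
      have h5 : ac (Zk k) v a = (r k)⁻¹ * (r k * ac (Zk k) v a) := by
        rw [← mul_assoc, inv_mul_cancel₀ (hrpos k).ne', one_mul]
      rw [h5, show r k * ac (Zk k) v a = Real.cos (s k) * v a + Real.sin (s k) * w a - v a by
        linarith]
      ring
    have h6 : ∀ k, ac (Zk k) v a = dt v (ac (Zk k) v) * v a + dt w (ac (Zk k) v) * w a := by
      intro k
      rw [h3 k, dt_lin, dt_lin, hv, hvw, dt_comm w v, hvw, hw]
      ring
    have hdc : ∀ x : Fin n → ℝ, Continuous fun Y : Fin n → Fin n → ℝ => dt x (ac Y v) := by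
      intro x
      unfold dt
      exact continuous_finsetSum _ fun a _ => continuous_const.mul (ac_cont v a)
    have t1 : Tendsto (fun k => ac (Zk (ψ k)) v a) atTop (𝓝 (ac Z v a)) :=
      ((ac_cont v a).tendsto Z).comp hlim
    have t2 : Tendsto (fun k => dt v (ac (Zk (ψ k)) v) * v a + dt w (ac (Zk (ψ k)) v) * w a) atTop
        (𝓝 (dt v (ac Z v) * v a + dt w (ac Z v) * w a)) :=
      ((((hdc v).tendsto Z).comp hlim).mul_const _).add
        ((((hdc w).tendsto Z).comp hlim).mul_const _)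
    exact tendsto_nhds_unique (t1.congr fun k => h6 (ψ k)) t2
  rw [hvv] at hlin
  obtain ⟨c, hc⟩ : ∃ c, c = dt w (ac Z v) := ⟨_, rfl⟩
  rw [← hc] at hlin
  by_cases hc0 : c = 0
  · exfalso
    have hacZ : ac Z v = 0 := by
      funext a
      rw [hlin a, hc0]
      simp
    obtain ⟨g, hgON, ⟨K, hK0, hK⟩, hgtau, hgac⟩ := h2 n Z hskew
    have hgH : ∀ s, g s ∈ HS u := fun s => ⟨hgON s, fun i => hgtau (u i) (hdX i) s⟩
    have hG : ∀ k, ∑ i, ∑ b, Z i b * hk k b i = 0 := by
      intro k
      apply zero_of_bound _ (K * n ^ 2) (by positivity)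
      intro σ hσ
      have h3 := hmin k (g σ) (hgH σ) (hgac v hacZ σ)
      rw [FF_on (hkH k).1, FF_on (on_cmp (hkH k).1 (hgON σ))] at h3
      have h4 : ∑ i, cmp (hk k) (g σ) i i = ∑ i, ∑ b, g σ i b * hk k b i := rfl
      have h5 : ∑ i, hk k i i = ∑ i, ∑ b, I1 n i b * hk k b i := by
        apply Finset.sum_congr rfl
        intro i _
        unfold I1
        simp
      rw [h4, h5] at h3
      have h6 : ∑ i, ∑ b, g σ i b * hk k b i = ∑ i, ∑ b, I1 n i b * hk k b i +
          σ * ∑ i, ∑ b, Z i b * hk k b i +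
          ∑ i, ∑ b, (g σ i b - I1 n i b - σ * Z i b) * hk k b i := by
        rw [Finset.mul_sum, ← Finset.sum_add_distrib, ← Finset.sum_add_distrib]
        apply Finset.sum_congr rfl
        intro i _
        rw [Finset.mul_sum, ← Finset.sum_add_distrib, ← Finset.sum_add_distrib]
        exact Finset.sum_congr rfl fun b _ => by ring
      have h7 : |∑ i, ∑ b, (g σ i b - I1 n i b - σ * Z i b) * hk k b i| ≤ K * n ^ 2 * σ ^ 2 := by
        have h8 : ∀ i b, |(g σ i b - I1 n i b - σ * Z i b) * hk k b i| ≤ K * σ ^ 2 := by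
          intro i b
          rw [abs_mul]
          have h9 := hK σ hσ i b
          have h10 := on_entry (hkH k).1 b i
          calc _ ≤ K * σ ^ 2 * 1 := mul_le_mul h9 h10 (abs_nonneg _) (by positivity)
            _ = _ := mul_one _
        calc _ ≤ ∑ i, |∑ b, (g σ i b - I1 n i b - σ * Z i b) * hk k b i| :=
              Finset.abs_sum_le_sum_abs _ _
          _ ≤ ∑ i : Fin n, ∑ b : Fin n, K * σ ^ 2 := Finset.sum_le_sum fun i _ =>
              (Finset.abs_sum_le_sum_abs _ _).trans (Finset.sum_le_sum fun b _ => h8 i b)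
          _ = K * n ^ 2 * σ ^ 2 := by
              simp
              ring
      have h11 := (abs_le.mp h7).1
      linarith
    have hG2 : ∀ k, ∑ i, ∑ b, Z i b * Zk k b i = 0 := by
      intro k
      have h3 := hG k
      have h4 : ∑ i, ∑ b, Z i b * hk k b i = ∑ i, Z i i + r k * ∑ i, ∑ b, Z i b * Zk k b i := by
        rw [Finset.mul_sum, ← Finset.sum_add_distrib]
        apply Finset.sum_congr rfl
        intro i _
        have h5 : ∀ b, Z i b * hk k b i = Z i b * I1 n b i + r k * (Z i b * Zk k b i) := by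
          intro b
          rw [hYZ k b i]
          ring
        simp only [h5]
        rw [Finset.sum_add_distrib, ← Finset.mul_sum]
        unfold I1
        simp
      have h6 : ∑ i, Z i i = 0 := by
        apply Finset.sum_eq_zero
        intro i _
        have := hskew i i
        linarith
      rw [h4, h6, zero_add] at h3
      exact (mul_eq_zero.mp h3).resolve_left (hrpos k).ne'
    have t1 : Tendsto (fun k => ∑ i, ∑ b, Z i b * Zk (ψ k) b i) atTop
        (𝓝 (∑ i, ∑ b, Z i b * Z b i)) :=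
      tendsto_finsetSum _ fun i _ => tendsto_finsetSum _ fun b _ => (hent b i).const_mul _
    have h7 : ∑ i, ∑ b, Z i b * Z b i = 0 := by
      refine tendsto_nhds_unique t1 ?_
      simp only [hG2]
      exact tendsto_const_nhds
    have h8 : ∑ i, ∑ b, Z i b * Z b i = - N2 Z := by
      unfold N2
      rw [← Finset.sum_neg_distrib]
      apply Finset.sum_congr rfl
      intro i _
      rw [← Finset.sum_neg_distrib]
      apply Finset.sum_congr rfl
      intro b _
      rw [hskew b i]
      ring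
    have h9 : N2 Z = 1 := hZ1
    rw [h8, h9] at h7
    norm_num at h7
  · refine ⟨fun i a => c⁻¹ * Z i a, ?_, ?_, ?_⟩
    · intro i a
      show c⁻¹ * Z i a = - (c⁻¹ * Z a i)
      rw [hskew i a]
      ring
    · funext a
      rw [ac_smul, hlin a, zero_mul, zero_add, ← mul_assoc, inv_mul_cancel₀ hc0, one_mul]
    · intro i
      funext S
      rw [dX_smul, hdX i]
      simp

end Pool.Agent.H781.KP
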