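import Pool.Agent.H781.KP.A

/-!
Project KP: transfer of the good points to the exterior algebra of `ℝⁿ` (`S_KAX`).
-/

set_option autoImplicit false
set_option synthInstance.maxHeartbeats 400000
set_option maxHeartbeats 4000000
set_option linter.unusedSectionVars false

open MeasureTheory Filter
open scoped Topology ContDiff

noncomputable section

namespace Pool.Agent.H781.KP

open Pool.Agent.H781.NG Pool.Agent.H781.CM Pool.Agent.H781.H6

namespace Kax

section ring

variable {N : ℕ} {A B : Type*} [CommRing A] [CommRing B] (φ : A →+* B)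

/-- the values of the coefficients -/
def mp (u : Fk N A) : Fk N B := fun S => φ (u S)

theorem mp_an (i : Fin N) (u : Fk N A) : NG.an i (mp φ u) = mp φ (NG.an i u) := by
  funext S
  show NG.an i (mp φ u) S = φ (NG.an i u S)
  rw [an_apply, an_apply]
  split_ifs with h
  · rw [map_zero]
  · rw [map_mul, map_intCast]
    rfl

theorem mp_cr (i : Fin N) (u : Fk N A) : NG.cr i (mp φ u) = mp φ (NG.cr i u) := by
  funext S
  show NG.cr i (mp φ u) S = φ (NG.cr i u S)
  rw [cr_apply, cr_apply]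
  split_ifs with h
  · rw [map_mul, map_intCast]
    rfl
  · rw [map_zero]

theorem mp_ip (u v : Fk N A) : NG.ip (mp φ u) (mp φ v) = φ (NG.ip u v) := by
  unfold NG.ip
  rw [map_sum]
  refine Finset.sum_congr rfl fun S _ => ?_
  rw [map_mul]
  rfl

theorem mp_ric [Algebra ℝ A] (F : Fr N A) (u : Fk N A) :
    φ (ric F u) = - ∑ a, ∑ b, ∑ c, ∑ d, φ (Rm F a b c d) *
      NG.ip (NG.cr b (NG.an a (mp φ u))) (NG.cr d (NG.an c (mp φ u))) := by
  unfold ric
  rw [map_neg, map_sum]
  congr 1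
  refine Finset.sum_congr rfl fun a _ => ?_
  rw [map_sum]
  refine Finset.sum_congr rfl fun b _ => ?_
  rw [map_sum]
  refine Finset.sum_congr rfl fun c _ => ?_
  rw [map_sum]
  refine Finset.sum_congr rfl fun d _ => ?_
  rw [map_mul, mp_an, mp_cr, mp_an, mp_cr, mp_ip]

end ring

section sums

variable {N n : ℕ}

theorem sum4 (f : Fin N → Fin N → Fin n → Fin n → ℝ) :
    ∑ a, ∑ e, ∑ i, ∑ j, f a e i j = ∑ i, ∑ j, ∑ a, ∑ e, f a e i j := by
  calc ∑ a, ∑ e, ∑ i, ∑ j, f a e i j = ∑ a, ∑ i, ∑ e, ∑ j, f a e i j :=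
        Finset.sum_congr rfl fun a _ => Finset.sum_comm
    _ = ∑ i, ∑ a, ∑ e, ∑ j, f a e i j := Finset.sum_comm
    _ = ∑ i, ∑ a, ∑ j, ∑ e, f a e i j :=
        Finset.sum_congr rfl fun i _ => Finset.sum_congr rfl fun a _ => Finset.sum_comm
    _ = ∑ i, ∑ j, ∑ a, ∑ e, f a e i j := Finset.sum_congr rfl fun i _ => Finset.sum_comm

/-- the image of a 2-tensor -/
def WW (b : Fin n → Fin N → ℝ) (w : Fin n → Fin n → ℝ) (a e : Fin N) : ℝ :=
  ∑ i, ∑ j, w i j * b i a * b j e

theorem WW_pair (b : Fin n → Fin N → ℝ) (w : Fin n → Fin n → ℝ) (F : Fin N → Fin N → ℝ) :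
    ∑ a, ∑ e, F a e * WW b w a e = ∑ i, ∑ j, w i j * ∑ a, ∑ e, F a e * b i a * b j e := by
  unfold WW
  simp only [Finset.mul_sum]
  rw [sum4]
  refine Finset.sum_congr rfl fun i _ => Finset.sum_congr rfl fun j _ =>
    Finset.sum_congr rfl fun a _ => Finset.sum_congr rfl fun e _ => ?_
  ring

theorem WW_b {b : Fin n → Fin N → ℝ} (hb : ON b) (w : Fin n → Fin n → ℝ) (i j : Fin n) :
    ∑ a, ∑ e, WW b w a e * b i a * b j e = w i j := by
  have h1 : ∑ a, ∑ e, WW b w a e * b i a * b j e =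
      ∑ a, ∑ e, (b i a * b j e) * WW b w a e :=
    Finset.sum_congr rfl fun a _ => Finset.sum_congr rfl fun e _ => by ring
  rw [h1, WW_pair b w fun a e => b i a * b j e]
  have h2 : ∀ k l, ∑ a, ∑ e, b i a * b j e * b k a * b l e =
      (if i = k then 1 else 0) * (if j = l then 1 else 0) := by
    intro k l
    rw [← hb i k, ← hb j l]
    unfold dt
    rw [Finset.sum_mul_sum]
    exact Finset.sum_congr rfl fun a _ => Finset.sum_congr rfl fun e _ => by ring
  rw [Finset.sum_eq_single i]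
  · rw [Finset.sum_eq_single j]
    · rw [h2, if_pos rfl, if_pos rfl, mul_one, mul_one]
    · intro l _ hl
      rw [h2, if_neg (Ne.symm hl), mul_zero, mul_zero]
    · intro h
      exact absurd (Finset.mem_univ _) h
  · intro k _ hk
    refine Finset.sum_eq_zero fun l _ => ?_
    rw [h2, if_neg (Ne.symm hk), zero_mul, mul_zero]
  · intro h
    exact absurd (Finset.mem_univ _) h

theorem WW_sq {b : Fin n → Fin N → ℝ} (hb : ON b) (w : Fin n → Fin n → ℝ) :
    ∑ a, ∑ e, WW b w a e ^ 2 = ∑ i, ∑ j, w i j ^ 2 := by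
  have h1 : ∑ a, ∑ e, WW b w a e ^ 2 = ∑ a, ∑ e, WW b w a e * WW b w a e :=
    Finset.sum_congr rfl fun a _ => Finset.sum_congr rfl fun e _ => by ring
  rw [h1, WW_pair b w (WW b w)]
  refine Finset.sum_congr rfl fun i _ => Finset.sum_congr rfl fun j _ => ?_
  rw [WW_b hb w i j]
  ring

theorem WW_skew (b : Fin n → Fin N → ℝ) {w : Fin n → Fin n → ℝ} (hw : ∀ i j, w i j = - w j i)
    (a e : Fin N) : WW b w a e = - WW b w e a := by
  unfold WW
  rw [Finset.sum_comm, ← Finset.sum_neg_distrib]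
  refine Finset.sum_congr rfl fun i _ => ?_
  rw [← Finset.sum_neg_distrib]
  refine Finset.sum_congr rfl fun j _ => ?_
  rw [hw j i]
  ring

theorem WW_P {b : Fin n → Fin N → ℝ} (hb : ON b) (w : Fin n → Fin n → ℝ) (a e : Fin N) :
    ∑ c, (∑ k, b k a * b k c) * WW b w c e = WW b w a e := by
  have h1 : ∀ c, (∑ k, b k a * b k c) * WW b w c e =
      ∑ i, ∑ j, w i j * b j e * ∑ k, b k a * (b k c * b i c) := by
    intro c
    unfold WW
    rw [Finset.mul_sum]
    refine Finset.sum_congr rfl fun i _ => ?_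
    rw [Finset.mul_sum]
    refine Finset.sum_congr rfl fun j _ => ?_
    rw [Finset.sum_mul, Finset.mul_sum]
    exact Finset.sum_congr rfl fun k _ => by ring
  rw [Finset.sum_congr rfl fun c _ => h1 c, Finset.sum_comm]
  unfold WW
  refine Finset.sum_congr rfl fun i _ => ?_
  rw [Finset.sum_comm]
  refine Finset.sum_congr rfl fun j _ => ?_
  rw [← Finset.mul_sum, Finset.sum_comm]
  have h2 : ∀ k, ∑ c, b k a * (b k c * b i c) = b k a * (if k = i then 1 else 0) := by
    intro k
    rw [← Finset.mul_sum, ← hb k i]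
    rfl
  rw [Finset.sum_congr rfl fun k _ => h2 k, Finset.sum_eq_single i]
  · rw [if_pos rfl]
    ring
  · intro k _ hk
    rw [if_neg hk, mul_zero]
  · intro h
    exact absurd (Finset.mem_univ _) h

theorem WW_R (b : Fin n → Fin N → ℝ) (w : Fin n → Fin n → ℝ) (R : T4 N) :
    ∑ a, ∑ e, ∑ c, ∑ d, R a e c d * WW b w a e * WW b w c d =
      ∑ i, ∑ j, ∑ k, ∑ l, R4 R (b i) (b j) (b k) (b l) * w i j * w k l := by
  have h1 : ∀ a e, ∑ c, ∑ d, R a e c d * WW b w a e * WW b w c d =
      (∑ k, ∑ l, w k l * ∑ c, ∑ d, R a e c d * b k c * b l d) * WW b w a e := by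
    intro a e
    rw [← WW_pair b w (R a e), Finset.sum_mul]
    refine Finset.sum_congr rfl fun c _ => ?_
    rw [Finset.sum_mul]
    exact Finset.sum_congr rfl fun d _ => by ring
  rw [Finset.sum_congr rfl fun a _ => Finset.sum_congr rfl fun e _ => h1 a e,
    WW_pair b w fun a e => ∑ k, ∑ l, w k l * ∑ c, ∑ d, R a e c d * b k c * b l d]
  refine Finset.sum_congr rfl fun i _ => Finset.sum_congr rfl fun j _ => ?_
  have h2 : ∑ a, ∑ e, (∑ k, ∑ l, w k l * ∑ c, ∑ d, R a e c d * b k c * b l d) * b i a * b j e =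
      ∑ k, ∑ l, R4 R (b i) (b j) (b k) (b l) * w k l := by
    have h3 : ∀ a e, (∑ k, ∑ l, w k l * ∑ c, ∑ d, R a e c d * b k c * b l d) * b i a * b j e =
        ∑ k, ∑ l, (∑ c, ∑ d, R a e c d * b i a * b j e * b k c * b l d) * w k l := by
      intro a e
      rw [Finset.sum_mul, Finset.sum_mul]
      refine Finset.sum_congr rfl fun k _ => ?_
      rw [Finset.sum_mul, Finset.sum_mul]
      refine Finset.sum_congr rfl fun l _ => ?_
      simp only [Finset.mul_sum, Finset.sum_mul]
      exact Finset.sum_congr rfl fun c _ => Finset.sum_congr rfl fun d _ => by ring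
    rw [Finset.sum_congr rfl fun a _ => Finset.sum_congr rfl fun e _ => h3 a e, sum4]
    refine Finset.sum_congr rfl fun k _ => Finset.sum_congr rfl fun l _ => ?_
    unfold R4
    rw [Finset.sum_mul]
    refine Finset.sum_congr rfl fun a _ => ?_
    rw [Finset.sum_mul]
  rw [h2, Finset.mul_sum]
  refine Finset.sum_congr rfl fun k _ => ?_
  rw [Finset.mul_sum]
  exact Finset.sum_congr rfl fun l _ => by ring

/-- the values of a vector of the Fock space are bounded by its norm -/
theorem le_ip (s : Fk n ℝ) (S : Finset (Fin n)) : s S ^ 2 ≤ NG.ip s s := by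
  unfold NG.ip
  have h1 : s S ^ 2 = s S * s S := by ring
  rw [h1]
  exact Finset.single_le_sum (f := fun T => s T * s T) (fun T _ => mul_self_nonneg _)
    (Finset.mem_univ S)

theorem ip_le {r : Fk N ℝ} {η : ℝ} (h : ∀ S, |r S| ≤ η) : NG.ip r r ≤ 2 ^ N * η ^ 2 := by
  unfold NG.ip
  calc ∑ S, r S * r S ≤ ∑ _S : Finset (Fin N), η ^ 2 := by
        refine Finset.sum_le_sum fun S _ => ?_
        have h1 := h S
        have h2 : r S * r S = |r S| ^ 2 := by rw [sq_abs]; ring
        rw [h2]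
        exact pow_le_pow_left₀ (abs_nonneg _) h1 2
    _ = 2 ^ N * η ^ 2 := by
        rw [Finset.sum_const, Finset.card_univ, Fintype.card_finset, Fintype.card_fin,
          nsmul_eq_mul]
        push_cast
        ring

end sums

end Kax

open Kax in
theorem s_kax (h1 : S_TAU) (h2 : S_RCT) (h3 : S_TMUL) (h4 : S_RMP) : S_KAX := by
  intro N n κ η hη
  have h2N : (1 : ℝ) ≤ 2 ^ N := one_le_pow₀ (by norm_num)
  have h2N0 : (0 : ℝ) < 2 ^ N := by positivity
  have hηle : η / 2 ^ N ≤ η := div_le_self hη.le h2N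
  refine ⟨η / 2 ^ N, by positivity, ?_⟩
  intro M _ _ _ _ C d hcurv hpt hGP
  obtain ⟨q, u, c, hH, hD, hd0, hv0, hip, hc, hm, hric⟩ := hGP
  obtain ⟨b, hb, hP, hAC, hK⟩ := hpt q
  obtain ⟨τ, hτ⟩ := h1 N n b hb
  obtain ⟨φ, hφ⟩ : ∃ φ : C.A →+* ℝ, ∀ g, φ g = C.ev q g :=
    ⟨(C.ev q : C.A →ₐ[ℝ] ℝ).toRingHom, fun _ => rfl⟩
  have hmp : ∀ w : Fk N C.A, evq C q w = mp φ w := fun w => funext fun S => (hφ (w S)).symm
  have hrange : ∀ x, ∃ a', τ a' = evq C q (u x) := by
    intro x
    refine hτ.range _ fun c' => ?_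
    rw [hmp, mp_an, hH x c']
    funext S
    show φ ((∑ a, C.P c' a • NG.an a (u x)) S) =
      (∑ a, (∑ i, b i c' * b i a) • NG.an a (mp φ (u x))) S
    rw [Finset.sum_apply, Finset.sum_apply, map_sum]
    refine Finset.sum_congr rfl fun a _ => ?_
    rw [Pi.smul_apply, Pi.smul_apply, smul_eq_mul, smul_eq_mul, map_mul, mp_an, ← hP c' a, hφ]
    rfl
  choose a ha using hrange
  have hinj : ∀ s t : Fk n ℝ, τ s = τ t → s = t := by
    intro s t hst
    have e1 : NG.ip (s - t) (s - t) = 0 := by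
      rw [← hτ.ip, map_sub, hst, sub_self, ip_zero_left]
    funext S
    have e2 := le_ip (s - t) S
    rw [e1] at e2
    have e3 : (s - t) S = 0 := by
      have := sq_nonneg ((s - t) S)
      have e4 : (s - t) S ^ 2 = 0 := le_antisymm e2 this
      exact pow_eq_zero_iff (two_ne_zero) |>.1 e4
    have e5 : s S - t S = 0 := e3
    linarith
  obtain ⟨r1, r2, r3, r4⟩ := h4 M N C
  refine ⟨a, c, Rb C q b, ?_, hd0, ?_, ?_, hc, ?_, hAC, ?_, hK, ?_⟩
  · intro x
    rw [← hτ.deg, ha]
    intro S hS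
    show C.ev q (u x S) = 0
    rw [hD x S hS, map_zero]
  · intro i
    rcases hv0 i with h5 | h5
    · left
      apply hinj
      rw [ha, h5, hτ.vac]
    · right
      apply hinj
      rw [ha, h5, map_neg, hτ.vac]
  · intro x y
    rw [← hτ.ip, ha, ha]
    exact (hip x y).trans hηle
  · intro x y S
    have e1 : τ (mulF (a x) (a y) - ∑ z, c x y z • a z) =
        mulF (evq C q (u x)) (evq C q (u y)) - ∑ z, c x y z • evq C q (u z) := by
      rw [map_sub, h3 N n b τ hτ, ha, ha, map_sum]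
      congr 1
      refine Finset.sum_congr rfl fun z _ => ?_
      rw [map_smul, ha]
    have e2 := le_ip (mulF (a x) (a y) - ∑ z, c x y z • a z) S
    rw [← hτ.ip, e1] at e2
    have e3 := e2.trans (ip_le (hm x y))
    have e4 : (2 : ℝ) ^ N * (η / 2 ^ N) ^ 2 ≤ η ^ 2 := by
      have e5 : (2 : ℝ) ^ N * (η / 2 ^ N) ^ 2 = η * (η / 2 ^ N) := by
        field_simp
      rw [e5, sq]
      exact mul_le_mul_of_nonneg_left hηle hη.le
    exact abs_le_of_sq_le_sq (e3.trans e4) hη.le
  · intro w hw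
    have e1 := hcurv q (WW b w) (WW_skew b hw) (fun a' e' => by
      rw [← WW_P hb w a' e']
      exact Finset.sum_congr rfl fun c' _ => by rw [hP a' c'])
    rw [WW_sq hb w, WW_R b w fun a b c d => C.ev q (Rm C.F a b c d)] at e1
    exact e1
  · intro x
    have e1 : C.ev q (ric C.F (u x)) = rc (Rq C q) (evq C q (u x)) := by
      rw [← hφ, mp_ric φ C.F (u x), hmp]
      unfold rc Rq
      simp only [hφ]
    have e2 := h2 N n b τ (Rq C q) hτ (by
      intro a' e' c' d'
      have h5 : ∀ f, (∑ i, b i e' * b i f) * Rq C q a' f c' d' =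
          - C.ev q (C.P e' f * Rm C.F f a' c' d') := by
        intro f
        unfold Rq
        rw [← hP e' f, map_mul, r3 a' f c' d', map_neg]
        ring
      rw [Finset.sum_congr rfl fun f _ => h5 f, Finset.sum_neg_distrib, ← map_sum, r2]
      unfold Rq
      rw [r3 a' e' c' d', map_neg]) (by
      intro a' e' c' d'
      have h5 : ∀ f, (∑ i, b i c' * b i f) * Rq C q a' e' f d' =
          C.ev q (C.P c' f * Rm C.F a' e' f d') := by
        intro f
        unfold Rq
        rw [← hP c' f, map_mul]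
      have h6 : ∀ f, (∑ i, b i d' * b i f) * Rq C q a' e' c' f =
          C.ev q (C.P d' f * Rm C.F a' e' c' f) := by
        intro f
        unfold Rq
        rw [← hP d' f, map_mul]
      rw [Finset.sum_congr rfl fun f _ => h5 f, Finset.sum_congr rfl fun f _ => h6 f,
        ← map_sum, ← map_sum, r1]) (a x)
    have e3 : rc (Rb C q b) (a x) = C.ev q (ric C.F (u x)) := by
      rw [e1, ← ha, e2]
      rfl
    rw [e3]
    exact (hric x).trans hηle

end Pool.Agent.H781.KP
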