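import Pool.Agent.H781.KP.G
import Pool.Agent.H781.CM.All

/-!
The main theorem from the abstract theorem.
-/

set_option autoImplicit false
set_option synthInstance.maxHeartbeats 400000
set_option maxHeartbeats 4000000
set_option linter.unusedSectionVars false

open Bundle Manifold ContDiff VectorField MeasureTheory Filter
open scoped Topology

noncomputable section

namespace Pool.Agent.H781.KP

open Pool.Agent.H781.NG Pool.Agent.H781.CM Pool.Agent.H781.H6 Pool.Agent.H821R2
  Pool.Agent.H821R3 Pool.Agent.H893R5.HO Pool.Agent.H781.S22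

theorem s_maink (h1 : S_CHIK) (h2 : S_GDU) (h3 : S_PKX) (h4 : S_GCONN) : S_MAINK := by
  intro m κ hm hκ
  have hn : 1 ≤ 2 * m := by omega
  obtain ⟨ε, hε, hC⟩ := h1 (2 * (2 * m)) m κ (by omega) (by omega) hκ
  refine ⟨ε / 2, by positivity, ?_⟩
  intro M _ _ _ _ _ _ g hsec hop
  letI : MeasurableSpace M := borel M
  haveI : BorelSpace M := ⟨rfl⟩
  obtain ⟨cov, R, hlc, hrt⟩ := hsec.1
  obtain ⟨D, rfl⟩ := h2 (2 * m) M hn g cov R hlc hrt
  have hcv : CurvGE D.C ε := by
    have h := gcurv (2 * m) M (2 * (2 * m)) D (ε / 2) hn (by positivity) (by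
      have h' := hop
      exact h')
    rwa [mul_div_cancel₀ ε (two_ne_zero)] at h
  have hmo : Moll D.C := s_gmoll lmoll s_tkp (2 * m) M _ D hn
  have hd : Dense2 D.C := s_gdense (2 * m) M _ D
  have hr : Reg D.C := greg (2 * m) M _ D hn
  have key := hC M D.C hcv (h3 (2 * m) M _ D κ hn hsec) (h4 (2 * m) M _ D) hmo hd hr
  have hfin := (hodge M _ D.C hmo hd hr).1
  have hF : ∀ p, Module.Finite ℝ (HF (2 * m) M p) := fun p => by
    obtain ⟨e⟩ := gdr (2 * m) M _ D hn p
    haveI := hfin p
    exact Module.Finite.equiv e.symm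
  have e : ∀ p, Module.finrank ℝ (HF (2 * m) M p) = bet D.C p := fun p => by
    obtain ⟨e⟩ := gdr (2 * m) M _ D hn p
    exact e.finrank_eq
  refine ⟨fun p => Module.finrank ℝ (HF (2 * m) M p), fun p => ?_, ?_⟩
  · haveI := hF p
    exact isBetti p
  · have e2 : ∑ p ∈ Finset.range (2 * m + 1),
          (-1 : ℤ) ^ p * (Module.finrank ℝ (HF (2 * m) M p) : ℤ) =
        ∑ p ∈ Finset.range (2 * (2 * m) + 1),
          (-1 : ℤ) ^ p * (Module.finrank ℝ (HF (2 * m) M p) : ℤ) := by
      apply sum_ext
      · intro p hp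
        haveI := s_drv (2 * m) M p hp
        rw [Module.finrank_zero_of_subsingleton]
        simp
      · intro p hp
        haveI := hp_zero D.C hp
        rw [e p]
        unfold bet
        rw [Module.finrank_zero_of_subsingleton]
        simp
    change 0 < ∑ p ∈ Finset.range (2 * m + 1),
      (-1 : ℤ) ^ p * (Module.finrank ℝ (HF (2 * m) M p) : ℤ)
    rw [e2, Finset.sum_congr rfl fun p _ => by rw [e p]]
    exact key

end Pool.Agent.H781.KP
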