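import Pool.Agent.H781.KP.A

/-!
Project KP: a transitive space of skew-symmetric matrices of even order contains an invertible one
(KP-07, by helper189 for helper781).
-/

set_option autoImplicit false
set_option synthInstance.maxHeartbeats 400000
set_option maxHeartbeats 4000000
set_option linter.unusedSectionVars false

noncomputable section

namespace Pool.Agent.H781.KP

open Pool.Agent.H781.NG Pool.Agent.H781.CM Pool.Agent.H781.H6
open Pool.Agent.H781.CM.Lin4

namespace Pfn

variable {n : ℕ}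

/-- exterior multiplication by the 2-form as an endomorphism -/
def wL (X : Fin n → Fin n → ℝ) : Module.End ℝ (Fk n ℝ) :=
  ∑ i, ∑ j, X i j • ((cr i : Module.End ℝ (Fk n ℝ)) * (cr j : Module.End ℝ (Fk n ℝ)))

theorem wL_apply (X : Fin n → Fin n → ℝ) (u : Fk n ℝ) : wL X u = wX X u := by
  unfold wL wX
  rw [LinearMap.sum_apply]
  refine Finset.sum_congr rfl fun i _ => ?_
  rw [LinearMap.sum_apply]
  rfl

theorem wL_pow (X : Fin n → Fin n → ℝ) (k : ℕ) (u : Fk n ℝ) : (wL X ^ k) u = (wX X)^[k] u := by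
  have h : (wX X : Fk n ℝ → Fk n ℝ) = ⇑(wL X) := by
    funext u
    exact (wL_apply X u).symm
  rw [Module.End.pow_apply, h]

theorem wL_add (X Y : Fin n → Fin n → ℝ) : wL (X + Y) = wL X + wL Y := by
  unfold wL
  rw [← Finset.sum_add_distrib]
  refine Finset.sum_congr rfl fun i _ => ?_
  rw [← Finset.sum_add_distrib]
  refine Finset.sum_congr rfl fun j _ => ?_
  rw [Pi.add_apply, Pi.add_apply, add_smul]

theorem wL_smul (t : ℝ) (Y : Fin n → Fin n → ℝ) : wL (t • Y) = t • wL Y := by
  unfold wL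
  rw [Finset.smul_sum]
  refine Finset.sum_congr rfl fun i _ => ?_
  rw [Finset.smul_sum]
  refine Finset.sum_congr rfl fun j _ => ?_
  rw [Pi.smul_apply, Pi.smul_apply, smul_assoc]

theorem cr2 (i j a : Fin n) (u : Fk n ℝ) : cr i (cr j (cr a u)) = cr a (cr i (cr j u)) := by
  rw [cr_cr j a u, map_neg, cr_cr i a (cr j u), neg_neg]

theorem comm_cr (X : Fin n → Fin n → ℝ) (a : Fin n) (u : Fk n ℝ) :
    wX X (cr a u) = cr a (wX X u) := by
  unfold wX
  rw [map_sum]
  refine Finset.sum_congr rfl fun i _ => ?_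
  rw [map_sum]
  refine Finset.sum_congr rfl fun j _ => ?_
  rw [map_smul, cr2]

theorem comm_Cv (X : Fin n → Fin n → ℝ) (x : Fin n → ℝ) (u : Fk n ℝ) :
    wX X (Cv x u) = Cv x (wX X u) := by
  rw [Cv_apply, Cv_apply, ← wL_apply, map_sum]
  refine Finset.sum_congr rfl fun a _ => ?_
  rw [map_smul, wL_apply, comm_cr]

theorem comm_W (X Y : Fin n → Fin n → ℝ) : Commute (wL X) (wL Y) := by
  apply LinearMap.ext
  intro u
  show wL X (wL Y u) = wL Y (wL X u)
  rw [wL_apply Y u, wL_apply Y (wL X u), wL_apply X u]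
  unfold wX
  rw [map_sum]
  refine Finset.sum_congr rfl fun i _ => ?_
  rw [map_sum]
  refine Finset.sum_congr rfl fun j _ => ?_
  rw [map_smul, wL_apply, comm_cr, comm_cr]
  rfl

theorem an2 (a i j : Fin n) (u : Fk n ℝ) : an a (cr i (cr j u)) =
    (if a = i then cr j u else 0) - (if a = j then cr i u else 0) + cr i (cr j (an a u)) := by
  rw [an_cr a i, an_cr a j, map_sub]
  have : cr i (if a = j then u else 0) = if a = j then cr i u else 0 := by
    split_ifs
    · rfl
    · exact map_zero _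
  rw [this]
  abel

theorem an_W {X : Fin n → Fin n → ℝ} (hX : Sk X) (a : Fin n) (u : Fk n ℝ) :
    an a (wX X u) = wX X (an a u) + (2 : ℝ) • ∑ j, X a j • cr j u := by
  have h1 : an a (wX X u) = ∑ i, ∑ j, X i j • ((if a = i then cr j u else 0) -
      (if a = j then cr i u else 0) + cr i (cr j (an a u))) := by
    unfold wX
    rw [map_sum]
    refine Finset.sum_congr rfl fun i _ => ?_
    rw [map_sum]
    refine Finset.sum_congr rfl fun j _ => ?_
    rw [map_smul, an2]
  have h2 : ∑ i, ∑ j, X i j • (if a = i then cr j u else 0) = ∑ j, X a j • cr j u := by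
    rw [Finset.sum_eq_single a]
    · refine Finset.sum_congr rfl fun j _ => ?_
      rw [if_pos rfl]
    · intro i _ hi
      refine Finset.sum_eq_zero fun j _ => ?_
      rw [if_neg (Ne.symm hi), smul_zero]
    · intro h
      exact absurd (Finset.mem_univ a) h
  have h3 : ∑ i, ∑ j, X i j • (if a = j then cr i u else 0) = - ∑ j, X a j • cr j u := by
    rw [← Finset.sum_neg_distrib]
    refine Finset.sum_congr rfl fun i _ => ?_
    rw [Finset.sum_eq_single a]
    · rw [if_pos rfl, hX i a, neg_smul]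
    · intro j _ hj
      rw [if_neg (Ne.symm hj), smul_zero]
    · intro h
      exact absurd (Finset.mem_univ a) h
  rw [h1]
  simp only [smul_add, smul_sub, Finset.sum_add_distrib, Finset.sum_sub_distrib]
  rw [h2, h3, two_smul]
  unfold wX
  abel

theorem Av_W {X : Fin n → Fin n → ℝ} (hX : Sk X) (v : Fin n → ℝ) (u : Fk n ℝ) :
    Av v (wX X u) = wX X (Av v u) + (2 : ℝ) • Cv (ac X v) u := by
  have h1 : Av v (wX X u) = ∑ a, v a • wX X (an a u) + (2 : ℝ) • ∑ a, v a • ∑ j, X a j • cr j u := by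
    rw [Av_apply, Finset.smul_sum, ← Finset.sum_add_distrib]
    refine Finset.sum_congr rfl fun a _ => ?_
    rw [an_W hX, smul_add, smul_comm (v a) (2 : ℝ)]
  have h2 : wX X (Av v u) = ∑ a, v a • wX X (an a u) := by
    rw [Av_apply, ← wL_apply, map_sum]
    refine Finset.sum_congr rfl fun a _ => ?_
    rw [map_smul, wL_apply]
  have h3 : Cv (ac X v) u = ∑ a, v a • ∑ j, X a j • cr j u := by
    rw [Cv_apply]
    have h4 : ∀ a, v a • ∑ j, X a j • cr j u = ∑ j, (v a * X a j) • cr j u := by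
      intro a
      rw [Finset.smul_sum]
      exact Finset.sum_congr rfl fun j _ => smul_smul _ _ _
    rw [Finset.sum_congr rfl fun a _ => h4 a, Finset.sum_comm]
    refine Finset.sum_congr rfl fun j _ => ?_
    unfold ac
    rw [Finset.sum_smul]
  rw [h1, h2, h3]

theorem comm_Cv_it (X : Fin n → Fin n → ℝ) (x : Fin n → ℝ) (k : ℕ) (u : Fk n ℝ) :
    (wX X)^[k] (Cv x u) = Cv x ((wX X)^[k] u) := by
  induction k with
  | zero => rfl
  | succ k ih => rw [Function.iterate_succ_apply', Function.iterate_succ_apply', ih, comm_Cv]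

theorem Av_it {X : Fin n → Fin n → ℝ} (hX : Sk X) (v : Fin n → ℝ) (k : ℕ) (u : Fk n ℝ) :
    Av v ((wX X)^[k + 1] u) = (wX X)^[k + 1] (Av v u) +
      (2 * ((k : ℝ) + 1)) • Cv (ac X v) ((wX X)^[k] u) := by
  induction k with
  | zero =>
    rw [zero_add, Function.iterate_one, Function.iterate_zero, id_eq, Av_W hX]
    norm_num
  | succ k ih =>
    rw [Function.iterate_succ_apply' (wX X) (k + 1) u, Av_W hX, ih,
      Function.iterate_succ_apply' (wX X) (k + 1) (Av v u)]
    have h1 : ∀ (x y : Fk n ℝ) (c : ℝ), wX X (x + c • y) = wX X x + c • wX X y := by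
      intro x y c
      rw [← wL_apply, ← wL_apply, ← wL_apply, map_add, map_smul]
    rw [h1, comm_Cv, ← Function.iterate_succ_apply' (wX X) k u, add_assoc, ← add_smul]
    push_cast
    congr 2
    ring

theorem Av_it_zero {X : Fin n → Fin n → ℝ} (hX : Sk X) {v : Fin n → ℝ} (hv : ac X v = 0) (k : ℕ) :
    Av v ((wX X)^[k] vac) = 0 := by
  have hc : ∀ u : Fk n ℝ, Cv (0 : Fin n → ℝ) u = 0 := by
    intro u
    rw [Cv_apply]
    exact Finset.sum_eq_zero fun a _ => by rw [Pi.zero_apply, zero_smul]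
  induction k with
  | zero => exact Av_vac v
  | succ k ih =>
    rw [Function.iterate_succ_apply', Av_W hX, ih, hv, hc, smul_zero, add_zero, ← wL_apply, map_zero]

theorem deg_W (X : Fin n → Fin n → ℝ) {p : ℕ} {u : Fk n ℝ} (h : Deg p u) :
    Deg (p + 2) (wX X u) := by
  unfold wX
  exact deg_sum _ _ fun i _ => deg_sum _ _ fun j _ => deg_smul _ (deg_cr i (deg_cr j h))

theorem deg_it (X : Fin n → Fin n → ℝ) (k : ℕ) : Deg (2 * k) ((wX X)^[k] (vac : Fk n ℝ)) := by
  induction k with
  | zero => exact deg_vac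
  | succ k ih =>
    rw [Function.iterate_succ_apply']
    exact deg_W X ih

theorem vac_ne : (vac : Fk n ℝ) ≠ 0 := by
  intro h
  have h1 := ip_vac (N := n)
  rw [h, ip_zero_left] at h1
  exact zero_ne_one h1

/-- an element of degree less than `n` killed by all creation operators is zero -/
theorem zero_of_cr {p : ℕ} (hp : p < n) {u : Fk n ℝ} (hd : Deg p u) (h : ∀ a, cr a u = 0) :
    u = 0 := by
  funext S
  by_cases hS : S.card = p
  · have h1 : ∃ a, a ∉ S := by
      by_contra hcon
      push Not at hcon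
      have h2 : S = Finset.univ := Finset.eq_univ_iff_forall.2 hcon
      rw [h2, Finset.card_univ, Fintype.card_fin] at hS
      omega
    obtain ⟨a, ha⟩ := h1
    have h2 := congrFun (h a) (insert a S)
    rw [cr_apply, if_pos (Finset.mem_insert_self a S), Finset.erase_insert ha, Pi.zero_apply] at h2
    have h3 : ((sg a (insert a S) : ℤ) : ℝ) ≠ 0 := by
      intro h4
      have h5 := sg_sqA (A := ℝ) a (insert a S)
      rw [h4, zero_mul] at h5
      exact zero_ne_one h5
    exact (mul_eq_zero.1 h2).resolve_left h3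
  · exact hd S hS

theorem Cv_single (a : Fin n) (u : Fk n ℝ) : Cv (Pi.single a 1) u = cr a u := by
  rw [Cv_apply, Finset.sum_eq_single a]
  · rw [Pi.single_eq_same, one_smul]
  · intro b _ hb
    rw [Pi.single_eq_of_ne hb, zero_smul]
  · intro h
    exact absurd (Finset.mem_univ a) h

/-- `ac X` as a linear map -/
def acL (X : Fin n → Fin n → ℝ) : (Fin n → ℝ) →ₗ[ℝ] (Fin n → ℝ) where
  toFun := ac X
  map_add' v w := by
    funext a
    rw [Pi.add_apply]
    unfold ac
    rw [← Finset.sum_add_distrib]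
    exact Finset.sum_congr rfl fun i _ => by rw [Pi.add_apply]; ring
  map_smul' c v := by
    funext a
    rw [Pi.smul_apply]
    unfold ac
    rw [RingHom.id_apply, smul_eq_mul, Finset.mul_sum]
    exact Finset.sum_congr rfl fun i _ => by rw [Pi.smul_apply, smul_eq_mul]; ring

theorem normalise {v : Fin n → ℝ} (hv : v ≠ 0) : ∃ c : ℝ, c ≠ 0 ∧ dt (c • v) (c • v) = 1 := by
  have h1 : 0 < dt v v := by
    unfold dt
    obtain ⟨i, hi⟩ := Function.ne_iff.1 hv
    rw [Pi.zero_apply] at hi
    refine Finset.sum_pos' (fun a _ => mul_self_nonneg _) ⟨i, Finset.mem_univ i, ?_⟩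
    exact mul_self_pos.2 hi
  refine ⟨(√(dt v v))⁻¹, inv_ne_zero (Real.sqrt_pos.2 h1).ne', ?_⟩
  have h2 : dt ((√(dt v v))⁻¹ • v) ((√(dt v v))⁻¹ • v) = (√(dt v v))⁻¹ ^ 2 * dt v v := by
    unfold dt
    rw [Finset.mul_sum]
    exact Finset.sum_congr rfl fun a _ => by rw [Pi.smul_apply, smul_eq_mul]; ring
  rw [h2, inv_pow, Real.sq_sqrt h1.le, inv_mul_cancel₀ h1.ne']

/-- if a power of the 2-form of order at most `n / 2` vanishes then `X` has a kernel -/
theorem kernel {X : Fin n → Fin n → ℝ} (hX : Sk X) {k : ℕ} (hk : 2 * k < n)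
    (h : (wX X)^[k + 1] (vac : Fk n ℝ) = 0) : ∃ v : Fin n → ℝ, dt v v = 1 ∧ ac X v = 0 := by
  by_contra hcon
  have hinj : Function.Injective (acL X) := by
    rw [← LinearMap.ker_eq_bot, Submodule.eq_bot_iff]
    intro v hv
    by_contra hv0
    obtain ⟨c, hc, hc1⟩ := normalise hv0
    refine hcon ⟨c • v, hc1, ?_⟩
    have h2 : acL X (c • v) = 0 := by
      rw [map_smul, LinearMap.mem_ker.1 hv, smul_zero]
    exact h2
  have hsur : Function.Surjective (acL X) := LinearMap.injective_iff_surjective.1 hinj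
  have hstep : ∀ j : ℕ, 2 * j < n → (wX X)^[j + 1] (vac : Fk n ℝ) = 0 →
      (wX X)^[j] (vac : Fk n ℝ) = 0 := by
    intro j hj h0
    apply zero_of_cr hj (deg_it X j)
    intro a
    obtain ⟨v, hv⟩ := hsur (Pi.single a 1)
    have hv' : ac X v = Pi.single a 1 := hv
    have h1 := Av_it hX v j vac
    rw [h0, map_zero, Av_vac, hv', Cv_single] at h1
    have h2 : (wX X)^[j + 1] (0 : Fk n ℝ) = 0 := by
      rw [← wL_pow, map_zero]
    rw [h2, zero_add] at h1
    have h3 : (2 * ((j : ℝ) + 1)) ≠ 0 := by positivity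
    exact (smul_eq_zero.1 h1.symm).resolve_left h3
  have hall : ∀ j : ℕ, j ≤ k + 1 → (wX X)^[k + 1 - j] (vac : Fk n ℝ) = 0 := by
    intro j
    induction j with
    | zero => intro _; exact h
    | succ j ih =>
      intro hj
      have h1 := ih (by omega)
      have e : k + 1 - j = (k + 1 - (j + 1)) + 1 := by omega
      rw [e] at h1
      exact hstep _ (by omega) h1
  have h0 := hall (k + 1) le_rfl
  rw [Nat.sub_self] at h0
  exact vac_ne h0

/-- polarisation -/
theorem polar {X Y : Fin n → Fin n → ℝ} {k : ℕ}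
    (h : ∀ t : ℝ, (wX (X + t • Y))^[k + 1] (vac : Fk n ℝ) = 0) :
    wX Y ((wX X)^[k] (vac : Fk n ℝ)) = 0 := by
  funext S
  have h1 : ∀ t : ℝ, ∑ j ∈ Finset.range (k + 1 + 1),
      t ^ (k + 1 - j) * (((k + 1).choose j : ℝ) * ((wL X ^ j) ((wL Y ^ (k + 1 - j)) vac)) S) = 0 := by
    intro t
    have h2 := h t
    rw [← wL_pow, wL_add, wL_smul, (((comm_W X Y).smul_right t).add_pow (k + 1)),
      LinearMap.sum_apply] at h2
    have h3 := congrFun h2 S
    rw [Finset.sum_apply, Pi.zero_apply] at h3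
    rw [← h3]
    refine Finset.sum_congr rfl fun j _ => ?_
    rw [smul_pow]
    have e : ((wL X ^ j * t ^ (k + 1 - j) • wL Y ^ (k + 1 - j) * ((k + 1).choose j : Module.End ℝ (Fk n ℝ)))
        (vac : Fk n ℝ)) = (t ^ (k + 1 - j) * ((k + 1).choose j : ℝ)) •
          ((wL X ^ j) ((wL Y ^ (k + 1 - j)) vac)) := by
      rw [Module.End.mul_apply, Module.End.mul_apply, LinearMap.smul_apply]
      have e1 : ((((k + 1).choose j : ℕ) : Module.End ℝ (Fk n ℝ)) : Module.End ℝ (Fk n ℝ)) (vac : Fk n ℝ) =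
          (((k + 1).choose j : ℕ) : ℝ) • (vac : Fk n ℝ) := by
        rw [Module.End.natCast_apply, Nat.cast_smul_eq_nsmul]
      rw [e1, map_smul, map_smul, map_smul, smul_smul]
    rw [e, Pi.smul_apply, smul_eq_mul, mul_assoc]
  have h4 : (∑ j ∈ Finset.range (k + 1 + 1), Polynomial.C (((k + 1).choose j : ℝ) *
      ((wL X ^ j) ((wL Y ^ (k + 1 - j)) vac)) S) * Polynomial.X ^ (k + 1 - j) : Polynomial ℝ) = 0 := by
    apply Polynomial.funext
    intro t
    rw [Polynomial.eval_finsetSum, Polynomial.eval_zero, ← h1 t]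
    refine Finset.sum_congr rfl fun j _ => ?_
    rw [Polynomial.eval_mul, Polynomial.eval_C, Polynomial.eval_pow, Polynomial.eval_X, mul_comm]
  have h5 := congrArg (fun p : Polynomial ℝ => p.coeff 1) h4
  simp only [Polynomial.finsetSum_coeff, Polynomial.coeff_C_mul, Polynomial.coeff_X_pow,
    Polynomial.coeff_zero] at h5
  rw [Finset.sum_eq_single k] at h5
  · rw [if_pos (by omega), mul_one, Nat.choose_succ_self_right] at h5
    have h6 : (((k + 1 : ℕ) : ℝ)) ≠ 0 := by positivity
    have h7 := (mul_eq_zero.1 h5).resolve_left h6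
    have e : k + 1 - k = 1 := by omega
    rw [e, pow_one] at h7
    have h8 : (wL X ^ k) (wL Y (vac : Fk n ℝ)) = wL Y ((wL X ^ k) vac) := by
      have := ((comm_W X Y).pow_left k)
      exact LinearMap.congr_fun this vac
    rw [h8, wL_apply, wL_pow] at h7
    exact h7
  · intro j hj hjk
    rw [if_neg (by
      have := Finset.mem_range.1 hj
      omega), mul_zero]
  · intro hk
    exact absurd (Finset.mem_range.2 (by omega)) hk

end Pfn

open Pfn

theorem s_pfn : S_PFN := by
  intro m V hV ht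
  by_contra hcon
  have hz : ∀ X ∈ V, (wX X)^[m] (vac : Fk (2 * m) ℝ) = 0 := by
    intro X hX
    by_contra h
    exact hcon ⟨X, hX, h⟩
  classical
  have hex : ∃ K : ℕ, ∀ X ∈ V, (wX X)^[K] (vac : Fk (2 * m) ℝ) = 0 := ⟨m, hz⟩
  obtain ⟨K, hK, hmin, hKm⟩ : ∃ K : ℕ, (∀ X ∈ V, (wX X)^[K] (vac : Fk (2 * m) ℝ) = 0) ∧
      (∀ j < K, ¬ ∀ X ∈ V, (wX X)^[j] (vac : Fk (2 * m) ℝ) = 0) ∧ K ≤ m :=
    ⟨Nat.find hex, Nat.find_spec hex, fun j hj => Nat.find_min hex hj, Nat.find_min' hex hz⟩
  have hK0 : K ≠ 0 := by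
    rintro rfl
    exact vac_ne (hK 0 V.zero_mem)
  obtain ⟨k, rfl⟩ := Nat.exists_eq_succ_of_ne_zero hK0
  have h1 := hmin k (Nat.lt_succ_self k)
  push Not at h1
  obtain ⟨X, hXV, hη⟩ := h1
  have hk : k < m := hKm
  obtain ⟨v, hv1, hv0⟩ := kernel (hV X hXV) (k := k) (by omega) (hK X hXV)
  set η : Fk (2 * m) ℝ := (wX X)^[k] vac with hηd
  have hA : Av v η = 0 := Av_it_zero (hV X hXV) hv0 k
  have hY : ∀ Y ∈ V, wX Y η = 0 := fun Y hYV =>
    polar fun t => hK _ (V.add_mem hXV (V.smul_mem t hYV))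
  have hdeg : Deg (2 * k) η := deg_it X k
  -- a direction orthogonal to `v`
  have hw : ∃ w : Fin (2 * m) → ℝ, dt v w = 0 ∧ Cv w η ≠ 0 := by
    by_contra hno
    push Not at hno
    have e1 : ∀ a, cr a η = v a • Cv v η := by
      intro a
      have h2 : dt v (Pi.single a 1 - v a • v) = 0 := by
        unfold dt at hv1 ⊢
        have h3 : ∑ x, v x * (Pi.single a 1 - v a • v : Fin (2 * m) → ℝ) x =
            ∑ x, v x * (Pi.single a 1 : Fin (2 * m) → ℝ) x - v a * ∑ x, v x * v x := by
          rw [Finset.mul_sum, ← Finset.sum_sub_distrib]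
          refine Finset.sum_congr rfl fun x _ => ?_
          rw [Pi.sub_apply, Pi.smul_apply, smul_eq_mul]
          ring
        rw [h3, hv1, Finset.sum_eq_single a]
        · rw [Pi.single_eq_same]
          ring
        · intro b _ hb
          rw [Pi.single_eq_of_ne hb, mul_zero]
        · intro h
          exact absurd (Finset.mem_univ a) h
      have h4 := hno _ h2
      have h5 : Cv (Pi.single a 1 - v a • v) η = Cv (Pi.single a 1) η - v a • Cv v η := by
        rw [Cv_apply, Cv_apply, Cv_apply, Finset.smul_sum, ← Finset.sum_sub_distrib]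
        refine Finset.sum_congr rfl fun b _ => ?_
        rw [Pi.sub_apply, Pi.smul_apply, smul_eq_mul, sub_smul, mul_smul]
      rw [h5, Cv_single] at h4
      exact sub_eq_zero.1 h4
    have e2 : ∑ a, an a (cr a η) = η := by
      have h6 : ∑ a, an a (cr a η) = Av v (Cv v η) := by
        rw [Av_apply]
        refine Finset.sum_congr rfl fun a _ => ?_
        rw [e1 a, map_smul]
      have h7 := car_v v v η
      rw [hA, map_zero, add_zero] at h7
      rw [h6, h7]
      have h8 : (∑ a, v a * v a) = 1 := hv1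
      rw [h8, one_smul]
    have e3 : ∑ a, an a (cr a η) = ((2 * m : ℕ) : ℝ) • η - ((2 * k : ℕ) : ℝ) • η := by
      have h9 : ∀ a, an a (cr a η) = η - cr a (an a η) := fun a =>
        eq_sub_of_add_eq (car_self a η)
      rw [Finset.sum_congr rfl fun a _ => h9 a, Finset.sum_sub_distrib, Finset.sum_const,
        Finset.card_univ, Fintype.card_fin, ← Nat.cast_smul_eq_nsmul ℝ]
      congr 1
      funext S
      rw [number, Pi.smul_apply, smul_eq_mul]
      by_cases hS : S.card = 2 * k
      · rw [hS]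
      · rw [hdeg S hS, mul_zero, mul_zero]
    rw [e2, ← sub_smul] at e3
    have h10 : ((((2 * m : ℕ) : ℝ) - ((2 * k : ℕ) : ℝ)) - 1) • η = 0 := by
      rw [sub_smul, one_smul, ← e3, sub_self]
    rcases smul_eq_zero.1 h10 with h11 | h11
    · have h12 : (((2 * m : ℕ) : ℝ)) = (((2 * k + 1 : ℕ)) : ℝ) := by
        push_cast at h11 ⊢
        linarith
      have h13 : 2 * m = 2 * k + 1 := by exact_mod_cast h12
      omega
    · exact hη h11
  obtain ⟨w, hvw, hCw⟩ := hw
  have hw0 : w ≠ 0 := by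
    rintro rfl
    apply hCw
    rw [Cv_apply]
    exact Finset.sum_eq_zero fun a _ => by rw [Pi.zero_apply, zero_smul]
  obtain ⟨c, hc, hc1⟩ := normalise hw0
  have hvc : dt v (c • w) = 0 := by
    have : dt v (c • w) = c * dt v w := by
      unfold dt
      rw [Finset.mul_sum]
      exact Finset.sum_congr rfl fun a _ => by rw [Pi.smul_apply, smul_eq_mul]; ring
    rw [this, hvw, mul_zero]
  obtain ⟨Y, hYV, hYv⟩ := ht v (c • w) hv1 hc1 hvc
  have h14 := Av_W (hV Y hYV) v η
  rw [hY Y hYV, map_zero, hA, hYv, ← wL_apply, map_zero, zero_add] at h14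
  have h15 : Cv (c • w) η = c • Cv w η := by
    rw [Cv_apply, Cv_apply, Finset.smul_sum]
    refine Finset.sum_congr rfl fun b _ => ?_
    rw [Pi.smul_apply, smul_eq_mul, mul_smul]
  rw [h15, smul_smul] at h14
  rcases smul_eq_zero.1 h14.symm with h16 | h16
  · exact absurd h16 (mul_ne_zero two_ne_zero hc)
  · exact hCw h16

end Pool.Agent.H781.KP
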