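import Pool.Agent.H781.KP.G

/-!
Parseval frames of `2 n` vector fields: padding and reduction.
-/

set_option autoImplicit false
set_option synthInstance.maxHeartbeats 400000
set_option maxHeartbeats 4000000
set_option linter.unusedSectionVars false

open Bundle Manifold ContDiff VectorField MeasureTheory Filter
open scoped Topology

noncomputable section

namespace Pool.Agent.H781.KP

open Pool.Agent.H781.NG Pool.Agent.H781.CM Pool.Agent.H781.H6 Pool.Agent.H821R2
  Pool.Agent.H821R3 Pool.Agent.H893R5.HO Pool.Agent.H781.S22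

namespace Pfu

variable {n : ℕ} {M : Type} [TopologicalSpace M] [ChartedSpace (EU n) M] [IsManifold (𝓡 n) ∞ M]

theorem smV_zero : SmV (fun p : M => (0 : TangentSpace (𝓡 n) p)) :=
  contMDiff_zeroSection ℝ _

theorem pad {g : Met n M} {N : ℕ} (T : PF g N) : Nonempty (PF g (N + 1)) := by
  refine ⟨⟨Fin.lastCases (motive := fun _ => VF n M) (fun p => 0) (fun a => T.X a), ?_, ?_⟩⟩
  · intro a
    refine Fin.lastCases ?_ (fun b => ?_) a
    · rw [Fin.lastCases_last]
      exact smV_zero
    · rw [Fin.lastCases_castSucc]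
      exact T.hX b
  · intro p v
    rw [Fin.sum_univ_castSucc, Fin.lastCases_last]
    simp only [Fin.lastCases_castSucc]
    rw [smul_zero, add_zero]
    exact T.par p v

theorem pad_le {g : Met n M} {N K : ℕ} (hNK : N ≤ K) (h : Nonempty (PF g N)) :
    Nonempty (PF g K) := by
  induction K, hNK using Nat.le_induction with
  | base => exact h
  | succ K _ ih =>
    obtain ⟨T⟩ := ih
    exact pad T

end Pfu

theorem s_pfu (h1 : S_PF) (h2 : S_SARD) (h3 : S_RED) : S_PFU := by
  intro n M _ _ _ _ _ hn g
  obtain ⟨N, _, hN⟩ := h1 n M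
  have hT : Nonempty (PF g N) := hN g
  have hT2 : Nonempty (PF g (N + 2 * n)) := Pfu.pad_le (Nat.le_add_right _ _) hT
  clear hT
  -- reduction
  have key : ∀ j : ℕ, Nonempty (PF g (j + 2 * n)) → Nonempty (PF g (2 * n)) := by
    intro j
    induction j with
    | zero =>
      intro h
      rwa [Nat.zero_add] at h
    | succ j ih =>
      rintro ⟨T⟩
      apply ih
      have he : j + 1 + 2 * n = j + 2 * n + 1 := by ring
      rw [he] at T
      obtain ⟨c, hc1, hc2⟩ := h2 n M g (j + 2 * n) T hn (Nat.le_add_left _ _)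
      exact h3 n M g (j + 2 * n) T c hc1 hc2
  exact key N hT2

end Pool.Agent.H781.KP
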