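import Pool.Agent.H781.KP.G
import Pool.Agent.H781.H6.Bix

/-!
Project KP: transfer of the lower bound of the sectional curvature (S_PKX).
-/

set_option autoImplicit false
set_option synthInstance.maxHeartbeats 400000
set_option maxHeartbeats 4000000
set_option linter.unusedSectionVars false

open Bundle Manifold ContDiff VectorField MeasureTheory Filter
open scoped Topology

noncomputable section

namespace Pool.Agent.H781.KP

open Pool.Agent.H781.NG Pool.Agent.H781.CM Pool.Agent.H781.H6 Pool.Agent.H821R2
  Pool.Agent.H821R3 Pool.Agent.H893R5.HO Pool.Agent.H781.S22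

/-- transfer of the lower bound of the sectional curvature -/
theorem s_pkx (h : S_FRM) : S_PKX := by
  intro n M _ _ _ _ _ _ _ N D κ hn hsec q
  obtain ⟨f, b, hf⟩ := h n M N D q hn
  have e : Rb D.C q b = Rpt D q f := by
    funext i j k l
    exact hf.R i j k l
  refine ⟨b, hf.on, hf.P, ?_, ?_⟩
  · rw [e]
    exact hf.ac
  · intro x y hx hy hxy
    rw [e]
    have horth : ∀ i j, D.g.inner q (f i) (f j) = if i = j then 1 else 0 := hf.orth
    have h1 := hsec.2 D.cov D.R D.lc D.rt q (∑ i, x i • f i) (∑ i, y i • f i)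
    have hxx := Bix.dt_eq (D.g.inner q) f horth x x
    have hyy := Bix.dt_eq (D.g.inner q) f horth y y
    have hxy' := Bix.dt_eq (D.g.inner q) f horth x y
    have hR : R4 (Rpt D q f) x y y x = D.g.inner q
        (D.R q (∑ i, x i • f i) (∑ i, y i • f i) (∑ i, y i • f i)) (∑ i, x i • f i) :=
      Bix.R4_eq (D.g.inner q) (D.R q) f x y y x
    rw [hR]
    rw [hx] at hxx
    rw [hy] at hyy
    rw [hxy] at hxy'
    have h2 : κ * (D.g.inner q (∑ i, x i • f i) (∑ i, x i • f i) *
        D.g.inner q (∑ i, y i • f i) (∑ i, y i • f i) -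
        D.g.inner q (∑ i, x i • f i) (∑ i, y i • f i) ^ 2) = κ := by
      rw [hxx, hyy, hxy']
      ring
    rw [h2] at h1
    exact h1

end Pool.Agent.H781.KP
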