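import Pool.Agent.H781.KP.A

/-!
Project KP: exact algebras with a twisted-central element of nonzero trace (`S_QAR`).
-/

set_option autoImplicit false
set_option synthInstance.maxHeartbeats 400000
set_option maxHeartbeats 4000000
set_option linter.unusedSectionVars false

open MeasureTheory Filter
open scoped Topology ContDiff

noncomputable section

namespace Pool.Agent.H781.KP

open Pool.Agent.H781.NG Pool.Agent.H781.CM Pool.Agent.H781.H6

namespace Qar

variable {N : ℕ}

theorem add_r (u v w : Fk N ℝ) : mulF u (v + w) = mulF u v + mulF u w := by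
  funext R
  simp only [mulF, Pi.add_apply]
  rw [← Finset.sum_add_distrib]
  exact Finset.sum_congr rfl fun S _ => by ring

theorem add_l (u v w : Fk N ℝ) : mulF (u + v) w = mulF u w + mulF v w := by
  funext R
  simp only [mulF, Pi.add_apply]
  rw [← Finset.sum_add_distrib]
  exact Finset.sum_congr rfl fun S _ => by ring

theorem smul_r (c : ℝ) (u v : Fk N ℝ) : mulF u (c • v) = c • mulF u v := by
  funext R
  simp only [mulF, Pi.smul_apply, smul_eq_mul]
  rw [Finset.mul_sum]
  exact Finset.sum_congr rfl fun S _ => by ring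

theorem smul_l (c : ℝ) (u v : Fk N ℝ) : mulF (c • u) v = c • mulF u v := by
  funext R
  simp only [mulF, Pi.smul_apply, smul_eq_mul]
  rw [Finset.mul_sum]
  exact Finset.sum_congr rfl fun S _ => by ring

variable (N) in
/-- the product as a bilinear map -/
def Mb : Fk N ℝ →ₗ[ℝ] Fk N ℝ →ₗ[ℝ] Fk N ℝ := LinearMap.mk₂ ℝ mulF add_l smul_l add_r smul_r

theorem Mb_apply (u v : Fk N ℝ) : Mb N u v = mulF u v := rfl

theorem sum_r {ι : Type} [Fintype ι] (u : Fk N ℝ) (f : ι → Fk N ℝ) :
    mulF u (∑ x, f x) = ∑ x, mulF u (f x) := by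
  simp only [← Mb_apply, map_sum]

theorem sum_l {ι : Type} [Fintype ι] (u : Fk N ℝ) (f : ι → Fk N ℝ) :
    mulF (∑ x, f x) u = ∑ x, mulF (f x) u := by
  simp only [← Mb_apply, map_sum, LinearMap.sum_apply]

theorem neg_r (u v : Fk N ℝ) : mulF u (-v) = - mulF u v := by
  simp only [← Mb_apply, map_neg]

theorem card_symm (S T : Finset (Fin N)) :
    S.card + T.card = (symmDiff S T).card + 2 * (S ∩ T).card := by
  have h1 : (symmDiff S T).card = (S \ T).card + (T \ S).card := by
    rw [symmDiff_def, Finset.sup_eq_union, Finset.card_union_of_disjoint]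
    exact disjoint_sdiff_sdiff
  have h2 := Finset.card_sdiff_add_card_inter S T
  have h3 := Finset.card_sdiff_add_card_inter T S
  rw [Finset.inter_comm T S] at h3
  omega

/-- parity of the degree -/
theorem par {p q r : ℕ} {u v w : Fk N ℝ} (hu : Deg p u) (hv : Deg q v) (hw : Deg r w) :
    (-1) ^ p * (-1) ^ q * ip (mulF u v) w = (-1) ^ r * ip (mulF u v) w := by
  unfold ip
  rw [Finset.mul_sum, Finset.mul_sum]
  refine Finset.sum_congr rfl fun R _ => ?_
  by_cases hR : R.card = r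
  · unfold mulF
    rw [Finset.sum_mul, Finset.mul_sum, Finset.mul_sum]
    refine Finset.sum_congr rfl fun S _ => ?_
    by_cases hS : S.card = p
    · by_cases hT : (symmDiff S R).card = q
      · have h1 := card_symm S R
        rw [hS, hT, hR] at h1
        have h2 : ((-1 : ℝ) ^ p) * (-1) ^ q = (-1) ^ r := by
          have h3 : ((-1 : ℝ)) ^ (p + r) = (-1) ^ q := by
            rw [h1, pow_add, pow_mul]
            norm_num
          rw [← h3, pow_add, ← mul_assoc, ← mul_pow]
          norm_num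
        rw [h2]
      · rw [hv _ hT]; ring
    · rw [hu _ hS]; ring
  · rw [hw _ hR]; ring

theorem ip_self_nonneg (u : Fk N ℝ) : 0 ≤ ip u u :=
  Finset.sum_nonneg fun _ _ => mul_self_nonneg _

theorem ip_self_pos {u : Fk N ℝ} (hu : u ≠ 0) : 0 < ip u u := by
  obtain ⟨S, hS⟩ : ∃ S, u S ≠ 0 := by
    by_contra h
    push Not at h
    exact hu (funext h)
  exact Finset.sum_pos' (fun T _ => mul_self_nonneg _) ⟨S, Finset.mem_univ S, mul_self_pos.2 hS⟩

theorem ip_vac_l (u : Fk N ℝ) : ip vac u = u ∅ := by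
  unfold ip vac
  rw [Finset.sum_eq_single ∅]
  · rw [if_pos rfl, one_mul]
  · intro T _ hT
    rw [if_neg hT, zero_mul]
  · intro h
    exact absurd (Finset.mem_univ _) h

end Qar

open Qar in
theorem s_qar (h : S_CLIF) : S_QAR := by
  intro N ι _ _ p a c Y hdeg hvac horth hmul hY hY0
  obtain ⟨c1, c2, c3, -, -, c6, c7⟩ := h N ℝ
  obtain ⟨s, hs⟩ : ∃ s : ι → ℝ, s = fun x => (-1) ^ (p x * (p x - 1) / 2) := ⟨_, rfl⟩
  obtain ⟨e, he⟩ : ∃ e : ι → ℝ, e = fun x => (-1) ^ p x := ⟨_, rfl⟩
  have hss : ∀ x, s x * s x = 1 := fun x => by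
    rw [hs]
    show ((-1 : ℝ) ^ _) * (-1) ^ _ = 1
    rw [← mul_pow]
    norm_num
  have hee : ∀ x, e x * e x = 1 := fun x => by
    rw [he]
    show ((-1 : ℝ) ^ _) * (-1) ^ _ = 1
    rw [← mul_pow]
    norm_num
  have hL : ∀ x u w, ip (mulF (a x) u) w = s x * ip u (mulF (a x) w) := fun x u w => by
    rw [hs]
    exact c6 (p x) (a x) u w (hdeg x)
  have hR : ∀ x u w, ip (mulF u (a x)) w = s x * ip u (mulF w (a x)) := fun x u w => by
    rw [hs]
    exact c7 (p x) u (a x) w (hdeg x)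
  -- the structure constants
  have hc : ∀ x y z, c x y z = ip (mulF (a x) (a y)) (a z) := by
    intro x y z
    rw [hmul, ip_sum_left]
    simp only [ip_smul_left, horth]
    simp
  have hcc : ∀ x y z, e x * s x * c y x z = e y * (e z * s z * c z y x) := by
    intro x y z
    have h1 : s x * c y x z = s z * c z y x := by
      rw [hc, hc, hR x, hL z, ← mul_assoc, ← mul_assoc, hss, hss]
    have h2 : e z * e y * c z y x = e x * c z y x := by
      rw [hc, he]
      exact par (hdeg z) (hdeg y) (hdeg x)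
    calc e x * s x * c y x z = e x * (s x * c y x z) := by ring
      _ = s z * (e x * c z y x) := by rw [h1]; ring
      _ = _ := by rw [← h2]; ring
  -- the operator `Q`
  obtain ⟨Q, hQ⟩ : ∃ Q : Fk N ℝ → Fk N ℝ, ∀ u, Q u =
      ∑ x, (e x * s x) • mulF (mulF (a x) u) (a x) := ⟨_, fun _ => rfl⟩
  have hQsymm : ∀ u v, ip (Q u) v = ip u (Q v) := by
    intro u v
    rw [hQ, hQ, ip_sum_left, ip_sum_right]
    refine Finset.sum_congr rfl fun x _ => ?_
    rw [ip_smul_left, ip_smul_right, hR, hL, ← c1, ← mul_assoc (s x), hss, one_mul]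
  have hQcomm : ∀ u y, mulF (a y) (Q u) = e y • mulF (Q u) (a y) := by
    intro u y
    have h1 : mulF (a y) (Q u) = ∑ x, ∑ z, (e x * s x * c y x z) • mulF (mulF (a z) u) (a x) := by
      rw [hQ, sum_r]
      refine Finset.sum_congr rfl fun x _ => ?_
      rw [smul_r, ← c1, ← c1, hmul, sum_l, sum_l, Finset.smul_sum]
      refine Finset.sum_congr rfl fun z _ => ?_
      rw [smul_l, smul_l, smul_smul]
    have h2 : mulF (Q u) (a y) = ∑ z, ∑ x, (e z * s z * c z y x) • mulF (mulF (a z) u) (a x) := by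
      rw [hQ, sum_l]
      refine Finset.sum_congr rfl fun z _ => ?_
      rw [smul_l, c1, hmul, sum_r, Finset.smul_sum]
      refine Finset.sum_congr rfl fun x _ => ?_
      rw [smul_r, smul_smul]
    rw [h1, h2, Finset.sum_comm, Finset.smul_sum]
    refine Finset.sum_congr rfl fun z _ => ?_
    rw [Finset.smul_sum]
    refine Finset.sum_congr rfl fun x _ => ?_
    rw [smul_smul, hcc]
  -- the element `K`
  obtain ⟨K, hK⟩ : ∃ K : Fk N ℝ, K = ∑ x, s x • mulF (a x) (a x) := ⟨_, rfl⟩
  let V : Submodule ℝ (Fk N ℝ) :=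
    { carrier := {Z | ∀ x, mulF (a x) Z = e x • mulF Z (a x)}
      add_mem' := fun {Z W} hZ hW x => by
        rw [add_r, add_l, hZ x, hW x, smul_add]
      zero_mem' := fun x => by
        have h1 : (0 : Fk N ℝ) = (0 : ℝ) • (0 : Fk N ℝ) := (zero_smul _ _).symm
        rw [h1, smul_r, smul_l, zero_smul, zero_smul, smul_zero]
      smul_mem' := fun r Z hZ x => by
        rw [smul_r, smul_l, hZ x, smul_comm] }
  have hV : ∀ Z, Z ∈ V ↔ ∀ x, mulF (a x) Z = e x • mulF Z (a x) := fun Z => Iff.rfl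
  have hQK : ∀ Z ∈ V, Q Z = mulF Z K := by
    intro Z hZ
    rw [hQ, hK, sum_r]
    refine Finset.sum_congr rfl fun x _ => ?_
    rw [(hV Z).1 hZ x, smul_l, smul_smul, smul_r, c1]
    congr 1
    linear_combination (s x) * hee x
  have hQV : ∀ u, Q u ∈ V := fun u => (hV _).2 fun y => hQcomm u y
  have hKV : ∀ Z ∈ V, mulF Z K ∈ V := fun Z hZ => by
    rw [← hQK Z hZ]
    exact hQV Z
  have hKpos : ∀ Z, ip Z Z ≤ ip (mulF Z K) Z := by
    intro Z
    have h1 : ip (mulF Z K) Z = ∑ x, ip (mulF Z (a x)) (mulF Z (a x)) := by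
      rw [hK, sum_r, ip_sum_left]
      refine Finset.sum_congr rfl fun x _ => ?_
      rw [smul_r, ip_smul_left, ← c1, hR, ← mul_assoc, hss, one_mul]
    obtain ⟨x₀, hx₀⟩ := hvac
    have h2 : ip (mulF Z (a x₀)) (mulF Z (a x₀)) = ip Z Z := by
      rcases hx₀ with h3 | h3
      · rw [h3, c3]
      · rw [h3, neg_r, c3, ip_neg_left, ip_neg_right, neg_neg]
    rw [h1, ← h2]
    exact Finset.single_le_sum (f := fun x => ip (mulF Z (a x)) (mulF Z (a x)))
      (fun x _ => ip_self_nonneg _) (Finset.mem_univ x₀)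
  -- right multiplication by `K` is bijective on `V`
  let RK : V →ₗ[ℝ] V := ((Mb N).flip K).restrict fun Z hZ => hKV Z hZ
  have hRK : ∀ Z : V, ((RK Z : V) : Fk N ℝ) = mulF (Z : Fk N ℝ) K := fun Z => rfl
  have hinj : Function.Injective RK := by
    rw [injective_iff_map_eq_zero]
    intro Z hZ
    have h1 : mulF (Z : Fk N ℝ) K = 0 := by
      rw [← hRK, hZ]
      rfl
    have h2 := hKpos (Z : Fk N ℝ)
    rw [h1, ip_zero_left] at h2
    by_contra hne
    have h3 : (Z : Fk N ℝ) ≠ 0 := fun h0 => hne (Subtype.ext h0)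
    exact absurd h2 (not_le.2 (ip_self_pos h3))
  have hsurj : Function.Surjective RK := LinearMap.injective_iff_surjective.1 hinj
  have hdiv : ∀ Z ∈ V, ∃ Z' ∈ V, mulF Z' K = Z := by
    intro Z hZ
    obtain ⟨Z', hZ'⟩ := hsurj ⟨Z, hZ⟩
    refine ⟨Z', Z'.2, ?_⟩
    rw [← hRK, hZ']
  -- the end
  obtain ⟨T', hT'V, hT'⟩ := hdiv (Q vac) (hQV vac)
  have hYV : Y ∈ V := (hV Y).2 fun x => by
    rw [he]
    exact hY x
  obtain ⟨Y', hY'V, hY'⟩ := hdiv Y hYV
  have hsum : ip vac (Q vac) = ∑ x, e x := by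
    rw [hQ, ip_sum_right]
    refine Finset.sum_congr rfl fun x _ => ?_
    rw [ip_smul_right, c3]
    have h1 := hL x vac (a x)
    rw [c3, horth, if_pos rfl] at h1
    linear_combination (-(e x)) * h1
  have hne : Q vac ≠ 0 := by
    intro h0
    have h1 := hQsymm vac Y'
    rw [h0, ip_zero_left, hQK Y' hY'V, hY', ip_vac_l] at h1
    exact hY0 h1.symm
  have hT'0 : T' ≠ 0 := by
    rintro rfl
    apply hne
    rw [← hT']
    have h1 := smul_l (0 : ℝ) (0 : Fk N ℝ) K
    rw [zero_smul, zero_smul] at h1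
    exact h1
  have hfin : ip vac (Q vac) = ip (mulF T' K) T' := by
    rw [hT', hQsymm vac T', hQK T' hT'V, hT']
  have hpos : 0 < ∑ x, e x := by
    rw [← hsum, hfin]
    exact (ip_self_pos hT'0).trans_le (hKpos T')
  have hcast : ((∑ x, (-1 : ℤ) ^ p x : ℤ) : ℝ) = ∑ x, e x := by
    rw [he]
    push_cast
    rfl
  rw [← hcast] at hpos
  exact_mod_cast hpos

end Pool.Agent.H781.KP
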