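import Pool.Agent.H781.KP.G

/-!
Project KP: reduction of the number of vector fields of a Parseval frame.
-/

set_option autoImplicit false
set_option synthInstance.maxHeartbeats 400000
set_option maxHeartbeats 4000000
set_option linter.unusedSectionVars false

open Bundle Manifold ContDiff VectorField MeasureTheory Filter
open scoped Topology

noncomputable section

namespace Pool.Agent.H781.KP

open Pool.Agent.H781.NG Pool.Agent.H781.CM Pool.Agent.H781.H6 Pool.Agent.H821R2
  Pool.Agent.H821R3 Pool.Agent.H893R5.HO Pool.Agent.H781.S22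

namespace Red

/-- completing a unit vector to an orthonormal basis -/
theorem exists_w (k : ℕ) (c : Fin (k + 1) → ℝ) (hc : ∑ a, c a ^ 2 = 1) :
    ∃ w : Fin k → Fin (k + 1) → ℝ, ∀ a b, ∑ j, w j a * w j b =
      (if a = b then 1 else 0) - c a * c b := by
  have hn : ‖(WithLp.toLp 2 c : EuclideanSpace ℝ (Fin (k + 1)))‖ = 1 := by
    rw [EuclideanSpace.norm_eq]
    simp only [Real.norm_eq_abs, sq_abs]
    rw [hc, Real.sqrt_one]
  have hv : Orthonormal ℝ (({0} : Set (Fin (k + 1))).domRestrict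
      (fun _ => (WithLp.toLp 2 c : EuclideanSpace ℝ (Fin (k + 1))))) := by
    constructor
    · intro i
      exact hn
    · intro i j hij
      exact absurd (Subtype.ext (i.2.trans j.2.symm)) hij
  obtain ⟨b, hb⟩ := hv.exists_orthonormalBasis_extension_of_card_eq
    (by rw [finrank_euclideanSpace])
  have hb0 : b 0 = WithLp.toLp 2 c := hb 0 rfl
  refine ⟨fun j a => b j.succ a, fun a a' => ?_⟩
  have h1 := b.sum_inner_mul_inner (EuclideanSpace.single a (1 : ℝ))
    (EuclideanSpace.single a' (1 : ℝ))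
  have h2 : ∀ i, inner ℝ (EuclideanSpace.single a (1 : ℝ)) (b i) *
      inner ℝ (b i) (EuclideanSpace.single a' (1 : ℝ)) = b i a * b i a' := by
    intro i
    rw [EuclideanSpace.inner_single_left, EuclideanSpace.inner_single_right]
    simp
  rw [Finset.sum_congr rfl fun i _ => h2 i, EuclideanSpace.inner_single_left] at h1
  rw [Fin.sum_univ_succ, hb0] at h1
  have h3 : ((starRingEnd ℝ) 1 : ℝ) * (EuclideanSpace.single a' (1 : ℝ)) a =
      if a = a' then 1 else 0 := by
    simp
  rw [h3] at h1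
  have h4 : (WithLp.toLp 2 c : EuclideanSpace ℝ (Fin (k + 1))) a *
    (WithLp.toLp 2 c : EuclideanSpace ℝ (Fin (k + 1))) a' = c a * c a' := rfl
  rw [h4] at h1
  linarith

/-- the scalar identity -/
theorem scal (s f : ℝ) (hs : s < 1) (hf : f = 1 / (√(1 - s) * (1 + √(1 - s)))) :
    (f - 1 - f * s) + f * (1 + (f - 1 - f * s) * s) = 0 := by
  obtain ⟨r, hr⟩ : ∃ r : ℝ, r = √(1 - s) := ⟨_, rfl⟩
  have hr0 : 0 < r := by
    rw [hr]
    exact Real.sqrt_pos.mpr (by linarith)
  have hs' : s = 1 - r ^ 2 := by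
    rw [hr, Real.sq_sqrt (by linarith)]
    ring
  rw [← hr] at hf
  have h1 : 1 + r ≠ 0 := by positivity
  have h2 : r ≠ 0 := hr0.ne'
  rw [hf, hs']
  field_simp
  ring

/-- the algebra in one tangent space -/
theorem alg {V : Type*} [AddCommGroup V] [Module ℝ V] (G : V → V → ℝ)
    (hG : ∀ u, IsLinearMap ℝ (G u)) (hs : ∀ u v, G u v = G v u) (k : ℕ)
    (X : Fin (k + 1) → V) (hX : ∀ v, ∑ a, G v (X a) • X a = v)
    (c : Fin (k + 1) → ℝ) (w : Fin k → Fin (k + 1) → ℝ)
    (hw : ∀ a b, ∑ j, w j a * w j b = (if a = b then 1 else 0) - c a * c b)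
    (y : V) (hy : y = ∑ a, c a • X a) (Z : Fin k → V) (hZ : ∀ j, Z j = ∑ a, w j a • X a)
    (f : ℝ) (h1 : G y y < 1) (hf : f = 1 / (√(1 - G y y) * (1 + √(1 - G y y)))) (v : V) :
    ∑ j, G v (Z j + (f * G y (Z j)) • y) • (Z j + (f * G y (Z j)) • y) = v := by
  have Gadd : ∀ u a b, G u (a + b) = G u a + G u b := fun u a b => (hG u).map_add a b
  have Gsmul : ∀ u (t : ℝ) a, G u (t • a) = t * G u a := fun u t a => (hG u).map_smul t a
  have Gsum : ∀ u {m : ℕ} (t : Fin m → ℝ) (Y : Fin m → V),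
      G u (∑ a, t a • Y a) = ∑ a, t a * G u (Y a) := by
    intro u m t Y
    have h := map_sum ((hG u).mk' (G u)) (fun a => t a • Y a) Finset.univ
    refine h.trans (Finset.sum_congr rfl fun a _ => ?_)
    exact Gsmul u (t a) (Y a)
  -- step 1
  have step : ∀ u, ∑ j, G u (Z j) • Z j = u - G u y • y := by
    intro u
    have e1 : ∀ j, G u (Z j) • Z j = ∑ a, ∑ b, ((w j a * w j b) * G u (X a)) • X b := by
      intro j
      rw [hZ j, Gsum, Finset.sum_smul]
      refine Finset.sum_congr rfl fun a _ => ?_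
      rw [Finset.smul_sum]
      refine Finset.sum_congr rfl fun b _ => ?_
      rw [smul_smul]
      have e : w j a * G u (X a) * w j b = w j a * w j b * G u (X a) := by ring
      rw [e]
    rw [Finset.sum_congr rfl fun j _ => e1 j, Finset.sum_comm]
    have e2 : ∀ a, ∑ j, ∑ b, ((w j a * w j b) * G u (X a)) • X b =
        G u (X a) • X a - (c a * G u (X a)) • y := by
      intro a
      rw [Finset.sum_comm]
      have e3 : ∀ b, ∑ j, ((w j a * w j b) * G u (X a)) • X b =
          (if a = b then G u (X a) • X b else 0) - (c a * G u (X a)) • (c b • X b) := by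
        intro b
        rw [← Finset.sum_smul, ← Finset.sum_mul, hw a b, smul_smul]
        split_ifs with hab
        · rw [← sub_smul]
          have e : (1 - c a * c b) * G u (X a) = G u (X a) - c a * G u (X a) * c b := by ring
          rw [e]
        · rw [zero_sub, zero_sub, ← neg_smul]
          have e : -(c a * c b) * G u (X a) = -(c a * G u (X a) * c b) := by ring
          rw [e]
      rw [Finset.sum_congr rfl fun b _ => e3 b, Finset.sum_sub_distrib, ← Finset.smul_sum, ← hy]
      rw [Finset.sum_ite_eq, if_pos (Finset.mem_univ a)]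
    rw [Finset.sum_congr rfl fun a _ => e2 a, Finset.sum_sub_distrib, hX u, ← Finset.sum_smul]
    have e4 : G u y = ∑ a, c a * G u (X a) := by rw [hy, Gsum]
    rw [e4]
  -- step 2
  obtain ⟨B, hB⟩ : ∃ B : V, B = v + (f * G v y) • y := ⟨_, rfl⟩
  have e5 : ∀ j, G v (Z j + (f * G y (Z j)) • y) = G B (Z j) := by
    intro j
    rw [hs B (Z j), hB, Gadd, Gsmul, Gadd, Gsmul, hs (Z j) v, hs (Z j) y]
    ring
  obtain ⟨U, hU⟩ : ∃ U : V, U = ∑ j, G B (Z j) • Z j := ⟨_, rfl⟩
  have e6 : ∑ j, G v (Z j + (f * G y (Z j)) • y) • (Z j + (f * G y (Z j)) • y) =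
      U + (f * G y U) • y := by
    have e7 : ∀ j, G v (Z j + (f * G y (Z j)) • y) • (Z j + (f * G y (Z j)) • y) =
        G B (Z j) • Z j + (f * (G B (Z j) * G y (Z j))) • y := by
      intro j
      rw [e5, smul_add, smul_smul]
      have e : G B (Z j) * (f * G y (Z j)) = f * (G B (Z j) * G y (Z j)) := by ring
      rw [e]
    rw [Finset.sum_congr rfl fun j _ => e7 j, Finset.sum_add_distrib, ← Finset.sum_smul,
      ← Finset.mul_sum, ← hU]
    have e8 : G y U = ∑ j, G B (Z j) * G y (Z j) := by rw [hU, Gsum]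
    rw [e8]
  rw [e6]
  have e9 : G B y = G v y * (1 + f * G y y) := by
    rw [hs B y, hB, Gadd, Gsmul, hs y v]
    ring
  have e10 : U = v + (G v y * (f - 1 - f * G y y)) • y := by
    rw [hU, step, e9, hB, add_sub_assoc, ← sub_smul]
    have e : f * G v y - G v y * (1 + f * G y y) = G v y * (f - 1 - f * G y y) := by ring
    rw [e]
  have e11 : G y U = G v y * (1 + (f - 1 - f * G y y) * G y y) := by
    rw [e10, Gadd, Gsmul, hs y v]
    ring
  rw [e11, e10, add_assoc, ← add_smul]
  have e12 : G v y * (f - 1 - f * G y y) + f * (G v y * (1 + (f - 1 - f * G y y) * G y y)) = 0 := by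
    have h := scal (G y y) f h1 hf
    calc G v y * (f - 1 - f * G y y) + f * (G v y * (1 + (f - 1 - f * G y y) * G y y))
        = G v y * ((f - 1 - f * G y y) + f * (1 + (f - 1 - f * G y y) * G y y)) := by ring
      _ = 0 := by rw [h, mul_zero]
  rw [e12, zero_smul, add_zero]


variable {n : ℕ} {M : Type} [TopologicalSpace M] [ChartedSpace (EU n) M] [IsManifold (𝓡 n) ∞ M]

/-- linear combinations with constant coefficients -/
def lc {m : ℕ} (X : Fin m → VF n M) (c : Fin m → ℝ) : VF n M := fun p => ∑ a, c a • X a p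

theorem lc_smooth {m : ℕ} {X : Fin m → VF n M} (hX : ∀ a, SmV (X a)) (c : Fin m → ℝ) :
    SmV (lc X c) := by
  apply ContMDiff.sum_section (V := fun x : M => TangentSpace (𝓡 n) x) (F := EU n)
    (t := fun (i : Fin m) (p : M) => c i • X i p)
  intro i _
  exact ContMDiff.smul_section (f := fun _ : M => c i) contMDiff_const (hX i)

theorem cd : ContDiffOn ℝ ∞ (fun t : ℝ => 1 / (√(1 - t) * (1 + √(1 - t)))) (Set.Iio 1) := by
  intro t ht
  have h0 : 0 < 1 - t := sub_pos.mpr ht
  have h1 : ContDiffAt ℝ ∞ (fun t : ℝ => √(1 - t)) t :=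
    (contDiffAt_const.sub contDiffAt_id).sqrt h0.ne'
  have h2 : 0 < √(1 - t) := Real.sqrt_pos.mpr h0
  apply ContDiffAt.contDiffWithinAt
  exact contDiffAt_const.div (h1.mul (contDiffAt_const.add h1)) (by positivity)

end Red

theorem s_red : S_RED := by
  intro n M _ _ _ _ _ g k T c hc hlt
  obtain ⟨w, hw⟩ := Red.exists_w k c hc
  obtain ⟨y, hy⟩ : ∃ y : VF n M, y = Red.lc T.X c := ⟨_, rfl⟩
  have hyS : SmV y := by
    rw [hy]
    exact Red.lc_smooth T.hX c
  obtain ⟨Z, hZ⟩ : ∃ Z : Fin k → VF n M, Z = fun j => Red.lc T.X (w j) := ⟨_, rfl⟩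
  have hZS : ∀ j, SmV (Z j) := by
    intro j
    rw [hZ]
    exact Red.lc_smooth T.hX (w j)
  have hlt' : ∀ p : M, g.inner p (y p) (y p) < 1 := by
    intro p
    rw [hy]
    exact hlt p
  obtain ⟨f, hf⟩ := compA (n := n) (M := M) ⟨gi g y y, gi_smooth hyS hyS⟩
    (fun t : ℝ => 1 / (√(1 - t) * (1 + √(1 - t)))) (Set.Iio 1) isOpen_Iio Red.cd hlt'
  refine ⟨⟨fun j p => Z j p + (evA p f * g.inner p (y p) (Z j p)) • y p, ?_, ?_⟩⟩
  · intro j
    have h1 : Sm (𝓡 n) (fun p => evA p f * g.inner p (y p) (Z j p)) :=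
      Sm.mul f.2 (gi_smooth hyS (hZS j))
    exact ContMDiff.add_section (hZS j) (ContMDiff.smul_section h1 hyS)
  · intro p v
    have h := Red.alg (V := TangentSpace (𝓡 n) p) (fun u v => g.inner p u v)
      (fun u => (g.inner p u).toLinearMap.isLinear) (fun u v => g.symm p u v) k
      (fun a => T.X a p) (fun v => T.par p v) c w hw (y p) (by rw [hy]; rfl)
      (fun j => Z j p) (fun j => by rw [hZ]; rfl) (evA p f) (hlt' p) (hf p) v
    exact h

end Pool.Agent.H781.KP
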