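import Pool.Agent.H781.KP.G

set_option autoImplicit false
set_option synthInstance.maxHeartbeats 400000
set_option maxHeartbeats 4000000
set_option linter.unusedSectionVars false

open Bundle Manifold ContDiff VectorField MeasureTheory Filter
open scoped Topology

noncomputable section

namespace Pool.Agent.H781.KP

open Pool.Agent.H781.NG Pool.Agent.H781.CM Pool.Agent.H781.H6 Pool.Agent.H821R2
  Pool.Agent.H821R3 Pool.Agent.H893R5.HO Pool.Agent.H781.S22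

namespace Sard

theorem dim_img {n m : ℕ} {U : Set (EU n)} (hU : IsOpen U)
    (f : Fin m → Fin n → EU n → ℝ) (hf : ∀ a j, ContDiffOn ℝ ∞ (f a j) U) :
    dimH ((fun q : EU n × (Fin n → ℝ) => fun a => ∑ j, q.2 j * f a j q.1) ''
      (U ×ˢ (Set.univ : Set (Fin n → ℝ)))) ≤ ((2 * n : ℕ) : ENNReal) := by
  have h1 : dimH ((fun q : EU n × (Fin n → ℝ) => fun a => ∑ j, q.2 j * f a j q.1) ''
      (U ×ˢ (Set.univ : Set (Fin n → ℝ)))) ≤ dimH (U ×ˢ (Set.univ : Set (Fin n → ℝ))) := by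
    refine dimH_image_le_of_locally_lipschitzOn ?_
    rintro ⟨y, ξ⟩ ⟨hy, -⟩
    have h2 : ContDiffAt ℝ 1 (fun q : EU n × (Fin n → ℝ) =>
        fun a => ∑ j, q.2 j * f a j q.1) (y, ξ) := by
      rw [contDiffAt_pi]
      intro a
      refine ContDiffAt.sum fun j _ => ?_
      refine ContDiffAt.mul ?_ ?_
      · exact (contDiff_apply ℝ ℝ j).contDiffAt.comp (y, ξ) contDiffAt_snd
      · have h3 : ContDiffAt ℝ 1 (f a j) y :=
          (((hf a j) y hy).contDiffAt (hU.mem_nhds hy)).of_le (by simp)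
        exact ContDiffAt.comp (y, ξ) h3 contDiffAt_fst
    obtain ⟨K, t, ht, hK⟩ := h2.exists_lipschitzOnWith
    exact ⟨K, t, mem_nhdsWithin_of_mem_nhds ht, hK⟩
  refine h1.trans ((dimH_mono (Set.subset_univ _)).trans (le_of_eq ?_))
  rw [Real.dimH_univ_eq_finrank (EU n × (Fin n → ℝ)), Module.finrank_prod,
    finrank_euclideanSpace_fin, Module.finrank_fin_fun, two_mul]

theorem exists_dir {n k : ℕ} (hk : 2 * n ≤ k) {ι : Type} (t : Finset ι)
    (Z : Set (Fin (k + 1) → ℝ)) (F : ι → Set (Fin (k + 1) → ℝ))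
    (hF : ∀ i ∈ t, dimH (F i) ≤ ((2 * n : ℕ) : ENNReal)) (hZ : Z ⊆ ⋃ i ∈ t, F i)
    (hs : ∀ z ∈ Z, ∀ r : ℝ, r • z ∈ Z) : ∃ c : Fin (k + 1) → ℝ, ∑ a, c a ^ 2 = 1 ∧ c ∉ Z := by
  have h1 : dimH (Z ∪ {0}) < Module.finrank ℝ (Fin (k + 1) → ℝ) := by
    rw [dimH_union, dimH_singleton, max_eq_left zero_le, Module.finrank_fin_fun]
    have h2 : dimH (⋃ i ∈ (t : Set ι), F i) ≤ ((2 * n : ℕ) : ENNReal) := by
      rw [dimH_bUnion t.countable_toSet]
      exact iSup₂_le fun i hi => hF i hi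
    refine lt_of_le_of_lt ((dimH_mono hZ).trans h2) ?_
    exact_mod_cast (by omega : 2 * n < k + 1)
  have h2 := dense_compl_of_dimH_lt_finrank h1
  obtain ⟨c₀, hc₀⟩ := h2.nonempty
  rw [Set.mem_compl_iff, Set.mem_union, not_or] at hc₀
  obtain ⟨hc1, hc2⟩ := hc₀
  have hN : 0 < ∑ a, c₀ a ^ 2 := by
    have h3 : 0 ≤ ∑ a, c₀ a ^ 2 := Finset.sum_nonneg fun a _ => sq_nonneg _
    refine lt_of_le_of_ne h3 fun h4 => hc2 ?_
    rw [Set.mem_singleton_iff]
    funext a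
    have h5 := (Finset.sum_eq_zero_iff_of_nonneg (fun a _ => sq_nonneg (c₀ a))).1 h4.symm a
      (Finset.mem_univ a)
    exact pow_eq_zero_iff (two_ne_zero) |>.1 h5
  refine ⟨(√(∑ a, c₀ a ^ 2))⁻¹ • c₀, ?_, ?_⟩
  · simp only [Pi.smul_apply, smul_eq_mul, mul_pow]
    rw [← Finset.mul_sum, inv_pow, Real.sq_sqrt hN.le]
    exact inv_mul_cancel₀ hN.ne'
  · intro h3
    apply hc1
    have h4 := hs _ h3 (√(∑ a, c₀ a ^ 2))
    rw [smul_smul, mul_inv_cancel₀ (Real.sqrt_pos.2 hN).ne', one_smul] at h4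
    exact h4

variable {n : ℕ} {M : Type} [TopologicalSpace M] [ChartedSpace (EU n) M] [IsManifold (𝓡 n) ∞ M]

/-- the tangential directions -/
def Zs {g : Met n M} {k : ℕ} (T : PF g (k + 1)) : Set (Fin (k + 1) → ℝ) :=
  {z | ∃ (p : M) (v : TangentSpace (𝓡 n) p), ∀ a, z a = g.inner p v (T.X a p)}

theorem strict {g : Met n M} {k : ℕ} (T : PF g (k + 1)) {c : Fin (k + 1) → ℝ}
    (hc : ∑ a, c a ^ 2 = 1) (hcZ : c ∉ Zs T) (p : M) :
    g.inner p (∑ a, c a • T.X a p) (∑ a, c a • T.X a p) < 1 := by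
  obtain ⟨y, hy⟩ : ∃ y : TangentSpace (𝓡 n) p, y = ∑ a, c a • T.X a p := ⟨_, rfl⟩
  rw [← hy]
  have h1 : ∑ a, g.inner p y (T.X a p) ^ 2 = g.inner p y y := by
    have h2 := congrArg (fun w => g.inner p y w) (T.par p y)
    simp only [map_sum, map_smul, smul_eq_mul] at h2
    rw [← h2]
    exact Finset.sum_congr rfl fun a _ => pow_two _
  have h2 : ∑ a, c a * g.inner p y (T.X a p) = g.inner p y y := by
    have h := congrArg (fun w => g.inner p y w) hy
    simp only [map_sum, map_smul, smul_eq_mul] at h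
    exact h.symm
  have h3 : 0 < ∑ a, (c a - g.inner p y (T.X a p)) ^ 2 := by
    have h4 : 0 ≤ ∑ a, (c a - g.inner p y (T.X a p)) ^ 2 :=
      Finset.sum_nonneg fun a _ => sq_nonneg _
    refine lt_of_le_of_ne h4 fun h5 => hcZ ⟨p, y, fun a => ?_⟩
    have h6 := (Finset.sum_eq_zero_iff_of_nonneg (fun a _ => sq_nonneg
      (c a - g.inner p y (T.X a p)))).1 h5.symm a (Finset.mem_univ a)
    exact sub_eq_zero.1 (pow_eq_zero_iff (two_ne_zero) |>.1 h6)
  have h4 : ∑ a, (c a - g.inner p y (T.X a p)) ^ 2 =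
      ∑ a, c a ^ 2 - 2 * ∑ a, c a * g.inner p y (T.X a p) +
        ∑ a, g.inner p y (T.X a p) ^ 2 := by
    rw [Finset.mul_sum, ← Finset.sum_sub_distrib, ← Finset.sum_add_distrib]
    refine Finset.sum_congr rfl fun a _ => ?_
    ring
  rw [h4, hc, h2, h1] at h3
  linarith

end Sard

open Sard in
theorem s_sard (h : S_TKV) : S_SARD := by
  intro n M _ _ _ _ _ g k T hn hk
  obtain ⟨t, ht⟩ := CompactSpace.elim_nhds_subcover (X := M)
    (fun x₀ => (extChartAt (𝓡 n) x₀).source) (fun x₀ => extChartAt_source_mem_nhds x₀)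
  obtain ⟨c, hc, hcZ⟩ := exists_dir hk t (Zs T)
    (fun x₀ => (fun q : EU n × (Fin n → ℝ) => fun a => ∑ j, q.2 j * zc x₀ (T.X a) j q.1) ''
      ((extChartAt (𝓡 n) x₀).target ×ˢ (Set.univ : Set (Fin n → ℝ))))
    (fun x₀ _ => dim_img (isOpen_extChartAt_target x₀) (fun a j => zc x₀ (T.X a) j)
      (fun a j => (h n M x₀).1 (T.X a) (T.hX a) j))
    (by
      rintro z ⟨p, v, hz⟩
      have hp : p ∈ ⋃ x ∈ t, (extChartAt (𝓡 n) x).source := by
        rw [ht]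
        trivial
      rw [Set.mem_iUnion₂] at hp ⊢
      obtain ⟨x₀, hx₀, hp⟩ := hp
      refine ⟨x₀, hx₀, ?_⟩
      obtain ⟨y, hy, rfl⟩ : ∃ y ∈ (extChartAt (𝓡 n) x₀).target,
          (extChartAt (𝓡 n) x₀).symm y = p :=
        ⟨extChartAt (𝓡 n) x₀ p, (extChartAt (𝓡 n) x₀).map_source hp,
          (extChartAt (𝓡 n) x₀).left_inv hp⟩
      refine ⟨(y, fun j => g.inner _ v (cf x₀ j y)), ⟨hy, trivial⟩, ?_⟩
      funext a
      rw [hz a, (h n M x₀).2.1 (T.X a) y hy, map_sum]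
      refine Finset.sum_congr rfl fun j _ => ?_
      rw [map_smul, smul_eq_mul, mul_comm])
    (by
      rintro z ⟨p, v, hz⟩ r
      refine ⟨p, r • v, fun a => ?_⟩
      rw [Pi.smul_apply, hz a, map_smul]
      rfl)
  exact ⟨c, hc, fun p => strict T hc hcZ p⟩

end Pool.Agent.H781.KP
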