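import Pool.Agent.H781.KP.A

/-!
The homomorphisms of `Λ ℝⁿ` given by square matrices (KP-02, by helper553 for helper781).
-/

set_option autoImplicit false
set_option synthInstance.maxHeartbeats 400000
set_option maxHeartbeats 4000000
set_option linter.unusedSectionVars false

open MeasureTheory Filter
open scoped Topology ContDiff

noncomputable section

namespace Pool.Agent.H781.KP

open Pool.Agent.H781.NG Pool.Agent.H781.CM Pool.Agent.H781.H6

namespace Tac

open Pool.Agent.H781.CM.Lin4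

variable {n : ℕ}

theorem Cv_at (t : Fin n → ℝ) (u : Fk n ℝ) (S : Finset (Fin n)) :
    Cv t u S = ∑ a, t a * cr a u S := by
  rw [Cv_apply, Finset.sum_apply]
  rfl

theorem Cv_add' (s t : Fin n → ℝ) (u : Fk n ℝ) : Cv (fun a => s a + t a) u = Cv s u + Cv t u := by
  rw [Cv_apply, Cv_apply, Cv_apply, ← Finset.sum_add_distrib]
  exact Finset.sum_congr rfl fun a _ => add_smul _ _ _

theorem Cv_I1 (i : Fin n) (u : Fk n ℝ) : Cv (I1 n i) u = cr i u := by
  rw [Cv_apply, Finset.sum_eq_single i]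
  · unfold I1
    rw [if_pos rfl, one_smul]
  · intro a _ ha
    unfold I1
    rw [if_neg (Ne.symm ha), zero_smul]
  · intro h
    exact absurd (Finset.mem_univ i) h

theorem cont (u : Fk n ℝ) : ∀ S, Continuous fun h : Fin n → Fin n → ℝ => Tau.tau h u S := by
  revert u
  refine Tau.ind ?_ ?_ ?_ ?_ ?_
  · intro S
    simp only [map_zero, Pi.zero_apply]
    exact continuous_const
  · intro u v hu hv S
    simp only [map_add, Pi.add_apply]
    exact (hu S).add (hv S)
  · intro c u hu S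
    simp only [map_smul, Pi.smul_apply, smul_eq_mul]
    exact (hu S).const_mul c
  · intro S
    simp only [Tau.tau_vac]
    exact continuous_const
  · intro i u hu S
    have h1 : (fun h : Fin n → Fin n → ℝ => Tau.tau h (cr i u) S) =
        fun h => ∑ a, h i a * (if a ∈ S then (sg a S : ℝ) * Tau.tau h u (S.erase a) else 0) := by
      funext h
      rw [← Tau.Cv_tau, Cv_at]
      rfl
    rw [h1]
    refine continuous_finsetSum _ fun a _ => ?_
    have h2 : Continuous fun h : Fin n → Fin n → ℝ => h i a := by fun_prop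
    refine h2.mul ?_
    by_cases ha : a ∈ S
    · simp only [if_pos ha]
      exact (hu _).const_mul _
    · simp only [if_neg ha]
      exact continuous_const

theorem ident (u : Fk n ℝ) : Tau.tau (I1 n) u = u := by
  revert u
  refine Tau.ind ?_ ?_ ?_ ?_ ?_
  · rw [map_zero]
  · intro u v hu hv
    rw [map_add, hu, hv]
  · intro c u hu
    rw [map_smul, hu]
  · exact Tau.tau_vac _
  · intro i u hu
    rw [← Tau.Cv_tau, hu, Cv_I1]

theorem tau_Cv (g : Fin n → Fin n → ℝ) (x : Fin n → ℝ) (w : Fk n ℝ) :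
    Tau.tau g (Cv x w) = Cv (ac g x) (Tau.tau g w) := by
  rw [Cv_apply, map_sum, Cv_apply]
  have h1 : ∀ a, Tau.tau g (x a • cr a w) = ∑ c, (x a * g a c) • cr c (Tau.tau g w) := by
    intro a
    rw [map_smul, ← Tau.Cv_tau, Cv_apply, Finset.smul_sum]
    exact Finset.sum_congr rfl fun c _ => by rw [smul_smul]
  rw [Finset.sum_congr rfl fun a _ => h1 a, Finset.sum_comm]
  refine Finset.sum_congr rfl fun c _ => ?_
  rw [← Finset.sum_smul]
  rfl

theorem comp (g h : Fin n → Fin n → ℝ) (u : Fk n ℝ) :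
    Tau.tau g (Tau.tau h u) = Tau.tau (fun i => ac g (h i)) u := by
  revert u
  refine Tau.ind ?_ ?_ ?_ ?_ ?_
  · rw [map_zero, map_zero, map_zero]
  · intro u v hu hv
    rw [map_add, map_add, map_add, hu, hv]
  · intro c u hu
    rw [map_smul, map_smul, map_smul, hu]
  · rw [Tau.tau_vac, Tau.tau_vac, Tau.tau_vac]
  · intro i u hu
    rw [← Tau.Cv_tau, tau_Cv, hu, ← Tau.Cv_tau]

/-- `dX` as a linear map -/
def dL (Y : Fin n → Fin n → ℝ) : Fk n ℝ →ₗ[ℝ] Fk n ℝ := ∑ i, ∑ a, Y i a • (cr a ∘ₗ an i)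

theorem dL_apply (Y : Fin n → Fin n → ℝ) (u : Fk n ℝ) : dL Y u = dX Y u := by
  unfold dL dX
  rw [LinearMap.sum_apply]
  refine Finset.sum_congr rfl fun i _ => ?_
  rw [LinearMap.sum_apply]
  rfl

theorem dX_vac (Y : Fin n → Fin n → ℝ) : dX Y (vac : Fk n ℝ) = 0 := by
  unfold dX
  refine Finset.sum_eq_zero fun i _ => Finset.sum_eq_zero fun a _ => ?_
  rw [an_vac, map_zero, smul_zero]

theorem dX_cr (Y : Fin n → Fin n → ℝ) (i : Fin n) (u : Fk n ℝ) :
    dX Y (cr i u) = cr i (dX Y u) + Cv (Y i) u := by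
  unfold dX
  have h1 : ∀ j a, Y j a • cr a (an j (cr i u)) =
      (if j = i then Y j a • cr a u else 0) + cr i (Y j a • cr a (an j u)) := by
    intro j a
    rw [an_cr, map_sub, cr_cr a i, map_smul]
    split_ifs
    · rw [smul_sub, smul_neg, sub_neg_eq_add]
    · rw [map_zero, zero_sub, neg_neg, zero_add]
  have h2 : ∀ j, ∑ a, Y j a • cr a (an j (cr i u)) =
      (if j = i then Cv (Y j) u else 0) + cr i (∑ a, Y j a • cr a (an j u)) := by
    intro j
    rw [Finset.sum_congr rfl fun a _ => h1 j a, Finset.sum_add_distrib, map_sum]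
    congr 1
    split_ifs
    · rw [Cv_apply]
    · exact Finset.sum_const_zero
  rw [Finset.sum_congr rfl fun j _ => h2 j, Finset.sum_add_distrib, Finset.sum_ite_eq',
    if_pos (Finset.mem_univ i), map_sum, add_comm]

/-- the perturbed identity -/
def pI (Y : Fin n → Fin n → ℝ) : Fin n → Fin n → ℝ := fun i a => I1 n i a + Y i a

/-- the sum of the squares -/
def Q2 (Y : Fin n → Fin n → ℝ) : ℝ := ∑ i, ∑ a, Y i a ^ 2

theorem Q2_nonneg (Y : Fin n → Fin n → ℝ) : 0 ≤ Q2 Y :=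
  Finset.sum_nonneg fun i _ => Finset.sum_nonneg fun a _ => sq_nonneg _

theorem abs_le_Q (Y : Fin n → Fin n → ℝ) (i a : Fin n) : |Y i a| ≤ √(Q2 Y) := by
  apply Real.abs_le_sqrt
  unfold Q2
  refine le_trans ?_ (Finset.single_le_sum (f := fun i => ∑ a, Y i a ^ 2)
    (fun i _ => Finset.sum_nonneg fun a _ => sq_nonneg _) (Finset.mem_univ i))
  exact Finset.single_le_sum (f := fun a => Y i a ^ 2) (fun a _ => sq_nonneg _)
    (Finset.mem_univ a)

theorem Q_le (Y : Fin n → Fin n → ℝ) (h : ∀ i a, |Y i a| ≤ 1) : √(Q2 Y) ≤ n := by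
  rw [Real.sqrt_le_left (Nat.cast_nonneg n)]
  unfold Q2
  calc ∑ i, ∑ a, Y i a ^ 2 ≤ ∑ _i : Fin n, ∑ _a : Fin n, (1 : ℝ) := by
        refine Finset.sum_le_sum fun i _ => Finset.sum_le_sum fun a _ => ?_
        rw [← sq_abs]
        have h1 := h i a
        have h2 := abs_nonneg (Y i a)
        nlinarith
    _ = (n : ℝ) ^ 2 := by
        rw [Finset.sum_const, Finset.sum_const, Finset.card_univ, Fintype.card_fin, nsmul_eq_mul,
          nsmul_eq_mul]
        ring

theorem cr_bd (i : Fin n) (u : Fk n ℝ) (M : ℝ) (hM : 0 ≤ M) (h : ∀ S, |u S| ≤ M)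
    (S : Finset (Fin n)) : |cr i u S| ≤ M := by
  rw [cr_apply]
  split_ifs
  · rw [abs_mul]
    have h1 : |(sg i S : ℝ)| = 1 := by
      unfold sg
      push_cast
      rw [abs_pow, abs_neg, abs_one, one_pow]
    rw [h1, one_mul]
    exact h _
  · rw [abs_zero]
    exact hM

theorem Cv_bd (Y : Fin n → Fin n → ℝ) (i : Fin n) (u : Fk n ℝ) (M : ℝ) (hM : 0 ≤ M)
    (h : ∀ S, |u S| ≤ M) (S : Finset (Fin n)) : |Cv (Y i) u S| ≤ n * √(Q2 Y) * M := by
  rw [Cv_at]
  refine (Finset.abs_sum_le_sum_abs _ _).trans ?_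
  calc ∑ a, |Y i a * cr a u S| ≤ ∑ _a : Fin n, √(Q2 Y) * M := by
        refine Finset.sum_le_sum fun a _ => ?_
        rw [abs_mul]
        exact mul_le_mul (abs_le_Q Y i a) (cr_bd a u M hM h S) (abs_nonneg _) (Real.sqrt_nonneg _)
    _ = n * √(Q2 Y) * M := by
        rw [Finset.sum_const, Finset.card_univ, Fintype.card_fin, nsmul_eq_mul]
        ring

/-- the expansion for a fixed element -/
def PP (u : Fk n ℝ) : Prop := ∃ K : ℝ, 0 ≤ K ∧ ∀ Y : Fin n → Fin n → ℝ, (∀ i a, |Y i a| ≤ 1) →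
  ∀ S, |Tau.tau (pI Y) u S - u S| ≤ K * √(Q2 Y) ∧
    |Tau.tau (pI Y) u S - u S - dX Y u S| ≤ K * Q2 Y

theorem exists_bd (u : Fk n ℝ) : ∃ M : ℝ, 0 ≤ M ∧ ∀ S, |u S| ≤ M :=
  ⟨∑ S, |u S|, Finset.sum_nonneg fun S _ => abs_nonneg _, fun S =>
    Finset.single_le_sum (f := fun S => |u S|) (fun S _ => abs_nonneg _) (Finset.mem_univ S)⟩

theorem pp_all (u : Fk n ℝ) : PP u := by
  revert u
  refine Tau.ind ?_ ?_ ?_ ?_ ?_
  · refine ⟨0, le_rfl, fun Y _ S => ?_⟩
    rw [← dL_apply, map_zero, map_zero]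
    simp
  · rintro u v ⟨K, hK, hu⟩ ⟨K', hK', hv⟩
    refine ⟨K + K', add_nonneg hK hK', fun Y hY S => ?_⟩
    obtain ⟨a1, a2⟩ := hu Y hY S
    obtain ⟨b1, b2⟩ := hv Y hY S
    rw [← dL_apply] at a2 b2 ⊢
    rw [map_add, map_add, Pi.add_apply, Pi.add_apply, Pi.add_apply, add_mul, add_mul]
    constructor
    · refine le_trans (le_of_eq ?_) ((abs_add_le _ _).trans (add_le_add a1 b1))
      congr 1
      ring
    · refine le_trans (le_of_eq ?_) ((abs_add_le _ _).trans (add_le_add a2 b2))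
      congr 1
      ring
  · rintro c u ⟨K, hK, hu⟩
    refine ⟨|c| * K, mul_nonneg (abs_nonneg c) hK, fun Y hY S => ?_⟩
    obtain ⟨a1, a2⟩ := hu Y hY S
    rw [← dL_apply] at a2 ⊢
    rw [map_smul, map_smul, Pi.smul_apply, Pi.smul_apply, Pi.smul_apply, smul_eq_mul, smul_eq_mul,
      smul_eq_mul, ← mul_sub, ← mul_sub, abs_mul, abs_mul, mul_assoc, mul_assoc]
    exact ⟨mul_le_mul_of_nonneg_left a1 (abs_nonneg c),
      mul_le_mul_of_nonneg_left a2 (abs_nonneg c)⟩
  · refine ⟨0, le_rfl, fun Y _ S => ?_⟩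
    rw [Tau.tau_vac, dX_vac]
    simp
  · rintro i u ⟨K, hK, hu⟩
    obtain ⟨M, hM, hMu⟩ := exists_bd u
    refine ⟨K + n * (M + K * n) + n * K, by positivity, fun Y hY S => ?_⟩
    obtain ⟨t, ht⟩ : ∃ t, t = Tau.tau (pI Y) u := ⟨_, rfl⟩
    have hQ := Q2_nonneg Y
    have hr := Real.sqrt_nonneg (Q2 Y)
    have hrn := Q_le Y hY
    have e0 : Tau.tau (pI Y) (cr i u) = cr i t + Cv (Y i) t := by
      rw [← Tau.Cv_tau, ← ht]
      show Cv (fun a => I1 n i a + Y i a) t = _
      rw [Cv_add', Cv_I1]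
    have d1 : ∀ T, |(t - u) T| ≤ K * √(Q2 Y) := by
      intro T
      rw [ht]
      exact (hu Y hY T).1
    have d2 : ∀ T, |(t - u - dX Y u) T| ≤ K * Q2 Y := by
      intro T
      rw [ht]
      exact (hu Y hY T).2
    have d3 : ∀ T, |t T| ≤ M + K * n := by
      intro T
      have h1 : t T = u T + (t - u) T := by
        rw [Pi.sub_apply]
        ring
      rw [h1]
      refine (abs_add_le _ _).trans (add_le_add (hMu T) ((d1 T).trans ?_))
      exact mul_le_mul_of_nonneg_left hrn hK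
    have e1 : cr i t + Cv (Y i) t - cr i u = cr i (t - u) + Cv (Y i) t := by
      rw [map_sub]
      abel
    have e2 : cr i t + Cv (Y i) t - cr i u - dX Y (cr i u) =
        cr i (t - u - dX Y u) + Cv (Y i) (t - u) := by
      rw [dX_cr, map_sub, map_sub, map_sub]
      abel
    have f1 := congrFun e1 S
    have f2 := congrFun e2 S
    simp only [Pi.sub_apply, Pi.add_apply] at f1 f2
    have p0 : 0 ≤ K * √(Q2 Y) := mul_nonneg hK hr
    have p1 : 0 ≤ K * Q2 Y := mul_nonneg hK hQ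
    have p2 : 0 ≤ M + K * n := by positivity
    rw [e0]
    simp only [Pi.add_apply]
    constructor
    · rw [f1]
      refine (abs_add_le _ _).trans ?_
      have g1 := cr_bd i (t - u) _ p0 d1 S
      have g2 := Cv_bd Y i t _ p2 d3 S
      have g3 : 0 ≤ n * K * √(Q2 Y) := by positivity
      calc |cr i (t - u) S| + |Cv (Y i) t S| ≤ K * √(Q2 Y) + n * √(Q2 Y) * (M + K * n) :=
            add_le_add g1 g2
        _ ≤ K * √(Q2 Y) + n * √(Q2 Y) * (M + K * n) + n * K * √(Q2 Y) := by linarith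
        _ = (K + n * (M + K * n) + n * K) * √(Q2 Y) := by ring
    · rw [f2]
      refine (abs_add_le _ _).trans ?_
      have g1 := cr_bd i (t - u - dX Y u) _ p1 d2 S
      have g2 := Cv_bd Y i (t - u) _ p0 d1 S
      have g3 : 0 ≤ n * (M + K * n) * Q2 Y := by positivity
      calc |cr i (t - u - dX Y u) S| + |Cv (Y i) (t - u) S| ≤
            K * Q2 Y + n * √(Q2 Y) * (K * √(Q2 Y)) := add_le_add g1 g2
        _ = K * Q2 Y + n * K * (√(Q2 Y) * √(Q2 Y)) := by ring
        _ = K * Q2 Y + n * K * Q2 Y := by rw [Real.mul_self_sqrt hQ]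
        _ ≤ K * Q2 Y + n * K * Q2 Y + n * (M + K * n) * Q2 Y := by linarith
        _ = (K + n * (M + K * n) + n * K) * Q2 Y := by ring

theorem abs_le_ip (u : Fk n ℝ) (S : Finset (Fin n)) : |u S| ≤ √(ip u u) := by
  apply Real.abs_le_sqrt
  unfold ip
  refine le_trans (le_of_eq (pow_two (u S))) (Finset.single_le_sum (f := fun S => u S * u S)
    (fun S _ => mul_self_nonneg _) (Finset.mem_univ S))

theorem expand (n : ℕ) : ∃ K : ℝ, 0 ≤ K ∧ ∀ (Y : Fin n → Fin n → ℝ) (u : Fk n ℝ)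
    (S : Finset (Fin n)), (∀ i a, |Y i a| ≤ 1) →
    |Tau.tau (fun i a => I1 n i a + Y i a) u S - u S - dX Y u S| ≤
      K * (∑ i, ∑ a, Y i a ^ 2) * √(ip u u) := by
  choose K hK hP using fun S : Finset (Fin n) => pp_all (Tau.del S)
  refine ⟨∑ S, K S, Finset.sum_nonneg fun S _ => hK S, fun Y u T hY => ?_⟩
  obtain ⟨R, hR⟩ : ∃ R : Fk n ℝ →ₗ[ℝ] Fk n ℝ, ∀ w T, R w T =
      Tau.tau (pI Y) w T - w T - dX Y w T := by
    refine ⟨Tau.tau (pI Y) - LinearMap.id - dL Y, fun w T => ?_⟩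
    rw [LinearMap.sub_apply, LinearMap.sub_apply, LinearMap.id_apply, dL_apply]
    rfl
  have h1 : R u T = ∑ S, u S * R (Tau.del S) T := by
    conv_lhs => rw [Tau.sum_del u]
    rw [map_sum, Finset.sum_apply]
    exact Finset.sum_congr rfl fun S _ => by rw [map_smul, Pi.smul_apply, smul_eq_mul]
  show |Tau.tau (pI Y) u T - u T - dX Y u T| ≤ (∑ S, K S) * Q2 Y * √(ip u u)
  rw [← hR, h1]
  refine (Finset.abs_sum_le_sum_abs _ _).trans ?_
  rw [Finset.sum_mul, Finset.sum_mul]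
  refine Finset.sum_le_sum fun S _ => ?_
  rw [abs_mul, mul_comm]
  apply mul_le_mul _ (abs_le_ip u S) (abs_nonneg _) (mul_nonneg (hK S) (Q2_nonneg Y))
  rw [hR]
  exact (hP S Y hY T).2

end Tac

theorem s_tac : S_TAC := fun n => ⟨Tac.cont, Tac.ident, Tac.comp, Tac.expand n⟩

end Pool.Agent.H781.KP
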