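import Pool.Agent.H781.KP.A

/-!
Project KP, part Tex (MP_4a593f_gt): one-parameter groups of orthogonal matrices.
-/

set_option autoImplicit false
set_option synthInstance.maxHeartbeats 400000
set_option maxHeartbeats 4000000
set_option linter.unusedSectionVars false

open MeasureTheory Filter
open scoped Topology ContDiff

noncomputable section

namespace Pool.Agent.H781.KP

open Pool.Agent.H781.NG Pool.Agent.H781.CM Pool.Agent.H781.H6

namespace Tex

open scoped Matrix.Norms.Operator in
/-- the matrix exponential, entrywise -/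
theorem exists_exp {n : ℕ} (X : Matrix (Fin n) (Fin n) ℝ) : ∃ G : ℝ → Matrix (Fin n) (Fin n) ℝ,
    G 0 = 1 ∧ (∀ s t, G (s + t) = G s * G t) ∧ (∀ s i a, HasDerivAt (fun s => G s i a)
      (∑ k, G s i k * X k a) s) ∧ (∀ s i a, HasDerivAt (fun s => G s i a)
      (∑ k, X i k * G s k a) s) ∧ (X.transpose = -X → ∀ s, G s * (G s).transpose = 1) := by
  refine ⟨fun s => NormedSpace.exp (s • X), ?_, ?_, ?_, ?_, ?_⟩
  · simp only
    rw [zero_smul, NormedSpace.exp_zero]
  · intro s t
    simp only
    rw [add_smul]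
    exact Matrix.exp_add_of_commute _ _ (((Commute.refl X).smul_left s).smul_right t)
  · intro s i a
    have h := hasDerivAt_exp_smul_const (𝕂 := ℝ) X s
    have h2 := (LinearMap.toContinuousLinearMap (Matrix.entryLinearMap ℝ ℝ i a)).hasFDerivAt.comp_hasDerivAt s h
    exact h2
  · intro s i a
    have h := hasDerivAt_exp_smul_const' (𝕂 := ℝ) X s
    have h2 := (LinearMap.toContinuousLinearMap (Matrix.entryLinearMap ℝ ℝ i a)).hasFDerivAt.comp_hasDerivAt s h
    exact h2
  · intro hX s
    simp only
    rw [← Matrix.exp_transpose, Matrix.transpose_smul, hX, smul_neg,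
      ← Matrix.exp_add_of_commute _ _ (Commute.refl (s • X)).neg_right, add_neg_cancel,
      NormedSpace.exp_zero]


section

variable {n : ℕ}

/-- entries of orthogonal matrices -/
theorem abs_entry_le {g : Fin n → Fin n → ℝ} (hg : ON g) (i a : Fin n) : |g i a| ≤ 1 := by
  have h1 := hg i i
  rw [if_pos rfl] at h1
  unfold dt at h1
  have h2 : g i a * g i a ≤ 1 := by
    rw [← h1]
    exact Finset.single_le_sum (f := fun a => g i a * g i a) (fun b _ => mul_self_nonneg _)
      (Finset.mem_univ a)
  exact abs_le_one_iff_mul_self_le_one.2 h2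

/-- mean value inequality -/
theorem mvt {f f' : ℝ → ℝ} (hf : ∀ s, HasDerivAt f (f' s) s) {C : ℝ} {t : ℝ}
    (hC : ∀ s, |s| ≤ |t| → |f' s| ≤ C) : |f t - f 0| ≤ C * |t| := by
  have h := Convex.norm_image_sub_le_of_norm_hasDerivWithin_le (f := f) (f' := f') (C := C)
    (s := Set.Icc (-|t|) |t|) (x := 0) (y := t) (fun x _ => (hf x).hasDerivWithinAt)
    (fun x hx => by
      rw [Real.norm_eq_abs]
      exact hC x (abs_le.2 hx)) (convex_Icc _ _)
    ⟨by linarith [abs_nonneg t], abs_nonneg t⟩ ⟨neg_abs_le t, le_abs_self t⟩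
  rw [Real.norm_eq_abs, Real.norm_eq_abs, sub_zero] at h
  exact h

theorem sum_abs_nonneg (X : Fin n → Fin n → ℝ) : 0 ≤ ∑ k, ∑ a, |X k a| :=
  Finset.sum_nonneg fun _ _ => Finset.sum_nonneg fun _ _ => abs_nonneg _

theorem sum_mul_le (X : Fin n → Fin n → ℝ) (c : Fin n → ℝ) (a : Fin n) {C : ℝ} (hC : 0 ≤ C)
    (hc : ∀ k, |c k| ≤ C) : |∑ k, c k * X k a| ≤ C * ∑ k, ∑ a, |X k a| := by
  calc |∑ k, c k * X k a| ≤ ∑ k, |c k * X k a| := Finset.abs_sum_le_sum_abs _ _
    _ ≤ ∑ k, C * |X k a| := by
        refine Finset.sum_le_sum fun k _ => ?_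
        rw [abs_mul]
        exact mul_le_mul_of_nonneg_right (hc k) (abs_nonneg _)
    _ = C * ∑ k, |X k a| := by rw [Finset.mul_sum]
    _ ≤ C * ∑ k, ∑ a, |X k a| := by
        refine mul_le_mul_of_nonneg_left ?_ hC
        refine Finset.sum_le_sum fun k _ => ?_
        exact Finset.single_le_sum (f := fun a => |X k a|) (fun b _ => abs_nonneg _)
          (Finset.mem_univ a)

/-- first and second order expansions -/
theorem expand {X : Fin n → Fin n → ℝ} {g : ℝ → Fin n → Fin n → ℝ} (h0 : ∀ i a, g 0 i a = I1 n i a)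
    (hd : ∀ s i a, HasDerivAt (fun s => g s i a) (∑ k, g s i k * X k a) s)
    (hon : ∀ s, ON (g s)) :
    (∀ t i a, |g t i a - I1 n i a| ≤ (∑ k, ∑ a, |X k a|) * |t|) ∧
    ∀ t i a, |g t i a - I1 n i a - t * X i a| ≤ (∑ k, ∑ a, |X k a|) ^ 2 * t ^ 2 := by
  have h1 : ∀ t i a, |g t i a - I1 n i a| ≤ (∑ k, ∑ a, |X k a|) * |t| := by
    intro t i a
    rw [← h0 i a]
    refine mvt (hd · i a) fun s _ => ?_
    have := sum_mul_le X (fun k => g s i k) a zero_le_one (fun k => abs_entry_le (hon s) i k)
    rwa [one_mul] at this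
  refine ⟨h1, fun t i a => ?_⟩
  have hd2 : ∀ s, HasDerivAt (fun s => g s i a - s * X i a)
      (∑ k, (g s i k - I1 n i k) * X k a) s := by
    intro s
    have e : ∑ k, (g s i k - I1 n i k) * X k a = (∑ k, g s i k * X k a) - 1 * X i a := by
      rw [one_mul]
      have e1 : ∑ k, I1 n i k * X k a = X i a := by
        unfold I1
        simp
      rw [← e1, ← Finset.sum_sub_distrib]
      exact Finset.sum_congr rfl fun k _ => by ring
    rw [e]
    exact (hd s i a).sub ((hasDerivAt_id s).mul_const (X i a))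
  have h2 := mvt hd2 (C := (∑ k, ∑ a, |X k a|) * |t| * (∑ k, ∑ a, |X k a|)) (t := t) (by
    intro s hs
    refine sum_mul_le X _ a (mul_nonneg (sum_abs_nonneg X) (abs_nonneg t)) fun k => ?_
    exact (h1 s i k).trans (mul_le_mul_of_nonneg_left hs (sum_abs_nonneg X)))
  rw [h0 i a, zero_mul, sub_zero] at h2
  have e3 : g t i a - I1 n i a - t * X i a = g t i a - t * X i a - I1 n i a := by ring
  rw [e3]
  refine h2.trans (le_of_eq ?_)
  rw [← sq_abs t]
  ring

/-- bound for the derivation -/
theorem dX_le (Z : Fin n → Fin n → ℝ) (u : Fk n ℝ) (S : Finset (Fin n)) {C : ℝ}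
    (hZ : ∀ i a, |Z i a| ≤ C) : |dX Z u S| ≤ C * ∑ i, ∑ a, |cr a (an i u) S| := by
  unfold dX
  rw [Finset.sum_apply]
  calc |∑ i, (∑ a, Z i a • cr a (an i u)) S| ≤ ∑ i, |(∑ a, Z i a • cr a (an i u)) S| :=
        Finset.abs_sum_le_sum_abs _ _
    _ ≤ ∑ i, C * ∑ a, |cr a (an i u) S| := by
        refine Finset.sum_le_sum fun i _ => ?_
        rw [Finset.sum_apply, Finset.mul_sum]
        refine (Finset.abs_sum_le_sum_abs _ _).trans (Finset.sum_le_sum fun a _ => ?_)
        rw [Pi.smul_apply, smul_eq_mul, abs_mul]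
        exact mul_le_mul_of_nonneg_right (hZ i a) (abs_nonneg _)
    _ = _ := by rw [Finset.mul_sum]

theorem dX_lin (Y X : Fin n → Fin n → ℝ) (t : ℝ) (u : Fk n ℝ) (hX : dX X u = 0) :
    dX (fun i a => Y i a - t * X i a) u = dX Y u := by
  have h : dX (fun i a => Y i a - t * X i a) u = dX Y u - t • dX X u := by
    unfold dX
    rw [Finset.smul_sum, ← Finset.sum_sub_distrib]
    refine Finset.sum_congr rfl fun i _ => ?_
    rw [Finset.smul_sum, ← Finset.sum_sub_distrib]
    refine Finset.sum_congr rfl fun a _ => ?_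
    rw [sub_smul, mul_smul]
  rw [h, hX, smul_zero, sub_zero]

/-- a function with quadratic increments has derivative zero -/
theorem deriv_zero {f : ℝ → ℝ} {C r : ℝ} (hr : 0 < r) (s : ℝ)
    (h : ∀ t, |t| ≤ r → |f (s + t) - f s| ≤ C * t ^ 2) : HasDerivAt f 0 s := by
  rw [hasDerivAt_iff_isLittleO_nhds_zero, Asymptotics.isLittleO_iff]
  intro c hc
  have h1 : ∀ᶠ t : ℝ in 𝓝 0, |t| < r := by
    have := (continuous_abs (G := ℝ)).tendsto 0
    rw [abs_zero] at this
    exact this.eventually (gt_mem_nhds hr)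
  have h2 : ∀ᶠ t : ℝ in 𝓝 0, |C| * |t| < c := by
    have : Tendsto (fun t : ℝ => |C| * |t|) (𝓝 0) (𝓝 (|C| * |(0 : ℝ)|)) :=
      ((continuous_const.mul continuous_abs).tendsto 0)
    rw [abs_zero, mul_zero] at this
    exact this.eventually (gt_mem_nhds hc)
  filter_upwards [h1, h2] with t ht1 ht2
  rw [smul_zero, sub_zero, Real.norm_eq_abs, Real.norm_eq_abs]
  calc |f (s + t) - f s| ≤ C * t ^ 2 := h t ht1.le
    _ ≤ |C| * t ^ 2 := mul_le_mul_of_nonneg_right (le_abs_self C) (sq_nonneg t)
    _ = |C| * |t| * |t| := by rw [← sq_abs t]; ring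
    _ ≤ c * |t| := mul_le_mul_of_nonneg_right ht2.le (abs_nonneg t)

end

end Tex

open Tex in
theorem s_tex (h : S_TAC) : S_TEX := by
  intro n X hX
  obtain ⟨G, hG0, hGadd, hGd, hGd', hGo⟩ := exists_exp (Matrix.of X)
  have hskew : (Matrix.of X).transpose = - Matrix.of X := by
    ext i j
    exact hX j i
  have hGo' := hGo hskew
  have hon : ∀ s, ON (fun i a => G s i a) := by
    intro s i j
    have h1 := congrFun (congrFun (hGo' s) i) j
    rw [Matrix.mul_apply, Matrix.one_apply] at h1
    exact h1
  have h0 : ∀ i a, G 0 i a = I1 n i a := by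
    intro i a
    rw [hG0, Matrix.one_apply]
    rfl
  obtain ⟨hx1, hx2⟩ := expand (X := X) (g := fun s i a => G s i a) h0 hGd hon
  refine ⟨fun s i a => G s i a, hon, ⟨(∑ k, ∑ a, |X k a|) ^ 2, sq_nonneg _,
    fun s _ i a => hx2 s i a⟩, ?_, ?_⟩
  · intro u hu
    obtain ⟨hc, hI, hcomp, K, hK, hexp⟩ := h n
    -- the functions `f S s = tau (g s) u S`
    set C0 := ∑ k, ∑ a, |X k a| with hC0
    have hC0' : 0 ≤ C0 := sum_abs_nonneg X
    -- the small increments at 0
    obtain ⟨C1, hC1, hsm⟩ : ∃ C1 : ℝ, 0 ≤ C1 ∧ ∀ t, |t| ≤ 1 / (C0 + 1) → ∀ S,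
        |Tau.tau (fun i a => G t i a) u S - u S| ≤ C1 * t ^ 2 := by
      refine ⟨C0 ^ 2 * ∑ S : Finset (Fin n), ∑ i, ∑ a, |cr a (an i u) S| +
        K * (∑ _i : Fin n, ∑ _a : Fin n, C0 ^ 2) * √(ip u u), ?_, ?_⟩
      · refine add_nonneg (mul_nonneg (sq_nonneg _) ?_) (mul_nonneg (mul_nonneg hK ?_)
          (Real.sqrt_nonneg _))
        · exact Finset.sum_nonneg fun _ _ => Finset.sum_nonneg fun _ _ =>
            Finset.sum_nonneg fun _ _ => abs_nonneg _
        · exact Finset.sum_nonneg fun _ _ => Finset.sum_nonneg fun _ _ => sq_nonneg _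
      · intro t ht S
        have hY : ∀ i a, |G t i a - I1 n i a| ≤ 1 := by
          intro i a
          refine (hx1 t i a).trans ?_
          calc C0 * |t| ≤ C0 * (1 / (C0 + 1)) := mul_le_mul_of_nonneg_left ht hC0'
            _ ≤ 1 := by
              rw [mul_one_div, div_le_one (by linarith)]
              linarith
        have h1 := hexp (fun i a => G t i a - I1 n i a) u S hY
        have e1 : (fun i a => I1 n i a + (G t i a - I1 n i a)) = fun i a => G t i a := by
          funext i a
          ring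
        rw [e1] at h1
        have h2 : |dX (fun i a => G t i a - I1 n i a) u S| ≤
            C0 ^ 2 * t ^ 2 * ∑ i, ∑ a, |cr a (an i u) S| := by
          rw [← dX_lin (fun i a => G t i a - I1 n i a) X t u hu]
          exact dX_le _ u S fun i a => hx2 t i a
        have h3 : ∑ i, ∑ a, (G t i a - I1 n i a) ^ 2 ≤ (∑ _i : Fin n, ∑ _a : Fin n, C0 ^ 2) * t ^ 2 := by
          rw [Finset.sum_mul]
          refine Finset.sum_le_sum fun i _ => ?_
          rw [Finset.sum_mul]
          refine Finset.sum_le_sum fun a _ => ?_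
          rw [← sq_abs, ← sq_abs t, ← mul_pow]
          exact pow_le_pow_left₀ (abs_nonneg _) (hx1 t i a) 2
        have h4 : ∑ i, ∑ a, |cr a (an i u) S| ≤
            ∑ S : Finset (Fin n), ∑ i, ∑ a, |cr a (an i u) S| :=
          Finset.single_le_sum (f := fun S : Finset (Fin n) => ∑ i, ∑ a, |cr a (an i u) S|)
            (fun S _ => Finset.sum_nonneg fun _ _ => Finset.sum_nonneg fun _ _ => abs_nonneg _)
            (Finset.mem_univ S)
        calc |Tau.tau (fun i a => G t i a) u S - u S|
            ≤ |Tau.tau (fun i a => G t i a) u S - u S - dX (fun i a => G t i a - I1 n i a) u S| +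
              |dX (fun i a => G t i a - I1 n i a) u S| := by
              have := abs_add_le (Tau.tau (fun i a => G t i a) u S - u S -
                dX (fun i a => G t i a - I1 n i a) u S) (dX (fun i a => G t i a - I1 n i a) u S)
              rwa [sub_add_cancel] at this
          _ ≤ K * ((∑ _i : Fin n, ∑ _a : Fin n, C0 ^ 2) * t ^ 2) * √(ip u u) +
              C0 ^ 2 * t ^ 2 * ∑ S : Finset (Fin n), ∑ i, ∑ a, |cr a (an i u) S| := by
              refine add_le_add (h1.trans ?_) (h2.trans ?_)
              · exact mul_le_mul_of_nonneg_right (mul_le_mul_of_nonneg_left h3 hK)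
                  (Real.sqrt_nonneg _)
              · exact mul_le_mul_of_nonneg_left h4 (by positivity)
          _ = _ := by ring
    -- the increments at `s`
    have hinc : ∀ s t, |t| ≤ 1 / (C0 + 1) → ∀ S,
        |Tau.tau (fun i a => G (s + t) i a) u S - Tau.tau (fun i a => G s i a) u S| ≤
          √((Fintype.card (Finset (Fin n)) : ℝ)) * C1 * t ^ 2 := by
      intro s t ht S
      have e1 : Tau.tau (fun i a => G (s + t) i a) u =
          Tau.tau (fun i a => G s i a) (Tau.tau (fun i a => G t i a) u) := by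
        rw [hcomp]
        congr 2
        funext i a
        have : G (s + t) = G t * G s := by rw [add_comm, hGadd]
        rw [this, Matrix.mul_apply]
        rfl
      have e2 : Tau.tau (fun i a => G (s + t) i a) u - Tau.tau (fun i a => G s i a) u =
          Tau.tau (fun i a => G s i a) (Tau.tau (fun i a => G t i a) u - u) := by
        rw [e1, map_sub]
      have e3 : Tau.tau (fun i a => G (s + t) i a) u S - Tau.tau (fun i a => G s i a) u S =
          Tau.tau (fun i a => G s i a) (Tau.tau (fun i a => G t i a) u - u) S := by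
        rw [← e2]
        rfl
      rw [e3]
      set w := Tau.tau (fun i a => G t i a) u - u with hw
      have h1 : Tau.tau (fun i a => G s i a) w S ^ 2 ≤ ip w w := by
        rw [← Tau.ip_tau (hon s) w w, sq]
        unfold ip
        exact Finset.single_le_sum (f := fun S => Tau.tau (fun i a => G s i a) w S *
          Tau.tau (fun i a => G s i a) w S) (fun T _ => mul_self_nonneg _) (Finset.mem_univ S)
      have h2 : ip w w ≤ (Fintype.card (Finset (Fin n)) : ℝ) * (C1 * t ^ 2) ^ 2 := by
        unfold ip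
        rw [← nsmul_eq_mul, ← Finset.card_univ]
        refine Finset.sum_le_card_nsmul _ _ _ fun T _ => ?_
        rw [← sq, ← sq_abs]
        exact pow_le_pow_left₀ (abs_nonneg _) (hsm t ht T) 2
      have h3 := Real.abs_le_sqrt (h1.trans h2)
      rw [Real.sqrt_mul (Nat.cast_nonneg _), Real.sqrt_sq (by positivity)] at h3
      rw [mul_assoc]
      exact h3
    have hder : ∀ S s, HasDerivAt (fun s => Tau.tau (fun i a => G s i a) u S) 0 s := by
      intro S s
      exact deriv_zero (r := 1 / (C0 + 1)) (by positivity) s fun t ht => hinc s t ht S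
    intro s
    funext S
    have hconst := is_const_of_deriv_eq_zero (f := fun s => Tau.tau (fun i a => G s i a) u S)
      (fun s => (hder S s).differentiableAt) (fun s => (hder S s).deriv) s 0
    refine hconst.trans ?_
    change Tau.tau (fun i a => G 0 i a) u S = u S
    have e : (fun i a => G 0 i a) = I1 n := by
      funext i a
      exact h0 i a
    rw [e, hI]
  · intro v hv s
    funext a
    have hder : ∀ s, HasDerivAt (fun s => ac (fun i a => G s i a) v a) 0 s := by
      intro s
      have h1 : HasDerivAt (fun s => ∑ i, v i * G s i a)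
          (∑ i, v i * ∑ k, (Matrix.of X) i k * G s k a) s :=
        HasDerivAt.fun_sum fun i _ => (hGd' s i a).const_mul (v i)
      have e : ∑ i, v i * ∑ k, (Matrix.of X) i k * G s k a = 0 := by
        calc ∑ i, v i * ∑ k, (Matrix.of X) i k * G s k a
            = ∑ i, ∑ k, v i * X i k * G s k a := by
              refine Finset.sum_congr rfl fun i _ => ?_
              rw [Finset.mul_sum]
              exact Finset.sum_congr rfl fun k _ => by rw [Matrix.of_apply]; ring
          _ = ∑ k, ∑ i, v i * X i k * G s k a := Finset.sum_comm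
          _ = ∑ k, ac X v k * G s k a := by
              refine Finset.sum_congr rfl fun k _ => ?_
              unfold ac
              rw [Finset.sum_mul]
          _ = 0 := by
              refine Finset.sum_eq_zero fun k _ => ?_
              rw [hv]
              simp
      rw [e] at h1
      exact h1
    have hconst := is_const_of_deriv_eq_zero (f := fun s => ac (fun i a => G s i a) v a)
      (fun s => (hder s).differentiableAt) (fun s => (hder s).deriv) s 0
    refine hconst.trans ?_
    change ac (fun i a => G 0 i a) v a = v a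
    have e : (fun i a => G 0 i a) = I1 n := by
      funext i a
      exact h0 i a
    rw [e]
    unfold ac I1
    simp

end Pool.Agent.H781.KP
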