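import Pool.Agent.H781.KP.A

/-!
The homomorphism `τ` respects the Clifford product (KP-14, by helper585 for helper781).
-/

set_option autoImplicit false
set_option synthInstance.maxHeartbeats 400000
set_option maxHeartbeats 4000000
set_option linter.unusedSectionVars false

noncomputable section

namespace Pool.Agent.H781.KP

open Pool.Agent.H781.NG Pool.Agent.H781.CM Pool.Agent.H781.H6

namespace Tmul

open Pool.Agent.H781.H6.Tau

variable {N m : ℕ}

/-- multiplication from the right as a linear map -/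
def mulL (v : Fk N ℝ) : Fk N ℝ →ₗ[ℝ] Fk N ℝ where
  toFun u := mulF u v
  map_add' u u' := by
    funext R
    show ∑ S, (sg2 S (symmDiff S R) : ℝ) * (u S + u' S) * v (symmDiff S R) =
      ∑ S, (sg2 S (symmDiff S R) : ℝ) * u S * v (symmDiff S R) +
        ∑ S, (sg2 S (symmDiff S R) : ℝ) * u' S * v (symmDiff S R)
    rw [← Finset.sum_add_distrib]
    exact Finset.sum_congr rfl fun S _ => by ring
  map_smul' c u := by
    funext R
    show ∑ S, (sg2 S (symmDiff S R) : ℝ) * (c * u S) * v (symmDiff S R) =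
      c * ∑ S, (sg2 S (symmDiff S R) : ℝ) * u S * v (symmDiff S R)
    rw [Finset.mul_sum]
    exact Finset.sum_congr rfl fun S _ => by ring

theorem mulL_apply (u v : Fk N ℝ) : mulL v u = mulF u v := rfl

/-- Clifford multiplication by a basis vector -/
def g (i : Fin N) : Fk N ℝ →ₗ[ℝ] Fk N ℝ := cr i + an i

theorem g_apply (i : Fin N) (u : Fk N ℝ) : g i u = cr i u + an i u := rfl

theorem an_del {i : Fin m} {S : Finset (Fin m)} (h : i ∉ S) : an i (del S) = 0 := by
  funext T
  rw [an_apply]
  split_ifs with hT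
  · rfl
  · show (sg i T : ℝ) * (if insert i T = S then (1 : ℝ) else 0) = 0
    rw [if_neg, mul_zero]
    intro h1
    rw [← h1] at h
    exact h (Finset.mem_insert_self i T)

theorem del_g {i : Fin m} {S : Finset (Fin m)} (h : i ∉ S) :
    del (insert i S) = (sg i S : ℝ) • g i (del S) := by
  rw [g_apply, an_del h, add_zero, del_insert h]

theorem tau_g {b : Fin m → Fin N → ℝ} {τ : Fk m ℝ →ₗ[ℝ] Fk N ℝ} (hτ : IsTau b τ) (i : Fin m)
    (u : Fk m ℝ) : τ (g i u) = ∑ a, b i a • g a (τ u) := by
  have h1 : ∑ a, b i a • NG.an a (τ u) = τ (NG.an i u) := by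
    have h2 : ∀ a, b i a • NG.an a (τ u) = ∑ j, (b i a * b j a) • τ (NG.an j u) := by
      intro a
      rw [hτ.an, Finset.smul_sum]
      exact Finset.sum_congr rfl fun j _ => by rw [smul_smul]
    rw [Finset.sum_congr rfl fun a _ => h2 a, Finset.sum_comm]
    have h3 : ∀ j, ∑ a, (b i a * b j a) • τ (NG.an j u) =
        if i = j then τ (NG.an j u) else 0 := by
      intro j
      rw [← Finset.sum_smul]
      have h4 : ∑ a, b i a * b j a = if i = j then 1 else 0 := hτ.on i j
      rw [h4]
      split_ifs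
      · rw [one_smul]
      · rw [zero_smul]
    rw [Finset.sum_congr rfl fun j _ => h3 j, Finset.sum_ite_eq, if_pos (Finset.mem_univ i)]
  have h5 : ∀ a, b i a • g a (τ u) = b i a • NG.cr a (τ u) + b i a • NG.an a (τ u) := fun a => by
    rw [g_apply, smul_add]
  rw [g_apply, map_add, ← hτ.cr, ← h1, Finset.sum_congr rfl fun a _ => h5 a,
    Finset.sum_add_distrib]

end Tmul

open Tmul Pool.Agent.H781.H6.Tau in
theorem s_tmul (h : S_CLIF) : S_TMUL := by
  intro N m b τ hτ
  have hm := h m ℝ
  have hN := h N ℝ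
  have hgm : ∀ (i : Fin m) (u v : Fk m ℝ), mulL v (g i u) = g i (mulL v u) := fun i u v =>
    hm.2.2.2.1 i u v
  have hgN : ∀ (a : Fin N) (u v : Fk N ℝ), mulL v (g a u) = g a (mulL v u) := fun i u v =>
    hN.2.2.2.1 i u v
  have key : ∀ (S : Finset (Fin m)) (v : Fk m ℝ), τ (mulL v (del S)) = mulL (τ v) (τ (del S)) := by
    intro S
    induction S using Finset.induction_on with
    | empty =>
      intro v
      rw [del_empty, hτ.vac, mulL_apply, mulL_apply, hm.2.1, hN.2.1]
    | insert i S hi ih =>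
      intro v
      rw [del_g hi, map_smul, map_smul, map_smul, map_smul, hgm, tau_g hτ, tau_g hτ, ih v, map_sum]
      congr 1
      refine Finset.sum_congr rfl fun a _ => ?_
      rw [map_smul, hgN]
  intro u v
  have h2 := ext_del (f := τ ∘ₗ mulL v) (g := mulL (τ v) ∘ₗ τ) (fun S => key S v) u
  exact h2

end Pool.Agent.H781.KP
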