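import Pool.Agent.H781.KP.A

set_option autoImplicit false
set_option synthInstance.maxHeartbeats 400000
set_option maxHeartbeats 4000000
set_option linter.unusedSectionVars false

noncomputable section

namespace Pool.Agent.H781.KP

open Pool.Agent.H781.NG Pool.Agent.H781.CM Pool.Agent.H781.H6

namespace Top

variable {N : ℕ}

/-- supported on cardinalities less than `p` -/
def Lt (p : ℕ) (u : Fk N ℝ) : Prop := ∀ S : Finset (Fin N), p ≤ S.card → u S = 0

theorem Lt.mono {p q : ℕ} {u : Fk N ℝ} (h : Lt p u) (hpq : p ≤ q) : Lt q u :=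
  fun S hS => h S (hpq.trans hS)

theorem Lt.add {p : ℕ} {u v : Fk N ℝ} (hu : Lt p u) (hv : Lt p v) : Lt p (u + v) :=
  fun S hS => by rw [Pi.add_apply, hu S hS, hv S hS, add_zero]

theorem Lt.smul {p : ℕ} {u : Fk N ℝ} (c : ℝ) (hu : Lt p u) : Lt p (c • u) :=
  fun S hS => by rw [Pi.smul_apply, hu S hS, smul_zero]

theorem Lt.sum {ι : Type*} (s : Finset ι) {p : ℕ} {f : ι → Fk N ℝ} (h : ∀ i ∈ s, Lt p (f i)) :
    Lt p (∑ i ∈ s, f i) := fun S hS => by
  rw [Finset.sum_apply]
  exact Finset.sum_eq_zero fun i hi => h i hi S hS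

theorem Lt.cr {p : ℕ} {u : Fk N ℝ} (h : Lt p u) (i : Fin N) : Lt (p + 1) (cr i u) := by
  intro S hS
  rw [cr_apply]
  split_ifs with hi
  · rw [h (S.erase i) (by rw [Finset.card_erase_of_mem hi]; omega), mul_zero]
  · rfl

theorem Lt.an {p : ℕ} {u : Fk N ℝ} (h : Lt (p + 1) u) (i : Fin N) : Lt p (an i u) := by
  intro S hS
  rw [an_apply]
  split_ifs with hi
  · rfl
  · rw [h (insert i S) (by rw [Finset.card_insert_of_notMem hi]; omega), mul_zero]

theorem Lt.an' {p : ℕ} {u : Fk N ℝ} (h : Lt p u) (i : Fin N) : Lt p (NG.an i u) :=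
  Lt.an (h.mono (Nat.le_succ p)) i

theorem deg_cr' {p : ℕ} {u : Fk N ℝ} (h : Deg p u) (i : Fin N) : Deg (p + 1) (cr i u) := by
  intro S hS
  rw [cr_apply]
  split_ifs with hi
  · have h1 : 0 < S.card := Finset.card_pos.mpr ⟨i, hi⟩
    rw [h (S.erase i) (by rw [Finset.card_erase_of_mem hi]; omega), mul_zero]
  · rfl

theorem deg_wX {p : ℕ} {u : Fk N ℝ} (h : Deg p u) (X : Fin N → Fin N → ℝ) :
    Deg (p + 2) (wX X u) := by
  intro S hS
  unfold wX
  rw [Finset.sum_apply]
  refine Finset.sum_eq_zero fun i _ => ?_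
  rw [Finset.sum_apply]
  refine Finset.sum_eq_zero fun j _ => ?_
  rw [Pi.smul_apply, deg_cr' (deg_cr' h j) i S hS, smul_zero]

theorem lt_wX {p : ℕ} {u : Fk N ℝ} (h : Lt p u) (X : Fin N → Fin N → ℝ) :
    Lt (p + 2) (wX X u) :=
  Lt.sum _ fun i _ => Lt.sum _ fun j _ => ((h.cr j).cr i).smul _

theorem wX_sub (X : Fin N → Fin N → ℝ) (u v : Fk N ℝ) : wX X (u - v) = wX X u - wX X v := by
  unfold wX
  simp only [map_sub, smul_sub, Finset.sum_sub_distrib]

theorem mulF_add (u u' v : Fk N ℝ) : mulF (u + u') v = mulF u v + mulF u' v := by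
  funext R
  unfold mulF
  rw [Pi.add_apply, ← Finset.sum_add_distrib]
  exact Finset.sum_congr rfl fun S _ => by rw [Pi.add_apply]; ring

theorem mulF_smul (c : ℝ) (u v : Fk N ℝ) : mulF (c • u) v = c • mulF u v := by
  funext R
  unfold mulF
  rw [Pi.smul_apply, smul_eq_mul, Finset.mul_sum]
  exact Finset.sum_congr rfl fun S _ => by rw [Pi.smul_apply, smul_eq_mul]; ring

theorem mulF_zero (v : Fk N ℝ) : mulF (0 : Fk N ℝ) v = 0 := by
  funext R
  unfold mulF
  simp

theorem mulF_sum {ι : Type*} (s : Finset ι) (f : ι → Fk N ℝ) (v : Fk N ℝ) :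
    mulF (∑ i ∈ s, f i) v = ∑ i ∈ s, mulF (f i) v := by
  classical
  induction s using Finset.induction_on with
  | empty => simp [mulF_zero]
  | insert a s ha ih => rw [Finset.sum_insert ha, Finset.sum_insert ha, mulF_add, ih]

/-- the lower order terms -/
def Eo (X : Fin N → Fin N → ℝ) (u : Fk N ℝ) : Fk N ℝ :=
  ∑ i, ∑ j, X i j • (cr i (an j u) + an i (cr j u) + an i (an j u))

theorem lt_Eo {p : ℕ} {u : Fk N ℝ} (h : Lt p u) (X : Fin N → Fin N → ℝ) :
    Lt (p + 1) (Eo X u) :=
  Lt.sum _ fun i _ => Lt.sum _ fun j _ =>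
    Lt.smul _ ((((h.an' j).cr i).add ((h.cr j).an' i)).add
      (((h.an' j).an' i).mono (Nat.le_succ p)))

theorem mulF_cr2 (h : S_CLIF) (i j : Fin N) (v : Fk N ℝ) :
    mulF (cr i (cr j (vac : Fk N ℝ))) v + (if i = j then v else 0) =
      cr i (cr j v) + (cr i (an j v) + an i (cr j v) + an i (an j v)) := by
  obtain ⟨-, h2, -, h4, -⟩ := h N ℝ
  have e1 := h4 j vac v
  rw [an_vac, add_zero, h2] at e1
  have e2 := h4 i (cr j vac) v
  rw [an_cr, an_vac, map_zero, sub_zero, mulF_add, e1] at e2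
  have e3 : mulF (if i = j then (vac : Fk N ℝ) else 0) v = if i = j then v else 0 := by
    split_ifs
    · exact h2 v
    · exact mulF_zero v
  rw [e3] at e2
  rw [e2, map_add, map_add]
  abel

theorem mulF_wX (h : S_CLIF) (X : Fin N → Fin N → ℝ) (hX : Sk X) (v : Fk N ℝ) :
    mulF (wX X vac) v = wX X v + Eo X v := by
  have h0 : ∀ i, X i i = 0 := fun i => by
    have := hX i i
    linarith
  unfold wX Eo
  rw [mulF_sum, ← Finset.sum_add_distrib]
  refine Finset.sum_congr rfl fun i _ => ?_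
  rw [mulF_sum, ← Finset.sum_add_distrib]
  refine Finset.sum_congr rfl fun j _ => ?_
  rw [mulF_smul, ← smul_add, ← mulF_cr2 h i j v, smul_add]
  by_cases hij : i = j
  · subst hij
    rw [h0 i]
    simp
  · rw [if_neg hij, smul_zero, add_zero]

theorem deg_pow (X : Fin N → Fin N → ℝ) (k : ℕ) : Deg (2 * k) ((wX X)^[k] (vac : Fk N ℝ)) := by
  induction k with
  | zero =>
    intro S hS
    have : S ≠ ∅ := by
      rintro rfl
      exact hS rfl
    show (vac : Fk N ℝ) S = 0
    unfold vac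
    rw [if_neg this]
  | succ k ih =>
    rw [Function.iterate_succ_apply']
    exact deg_wX ih X

theorem diff_pow (h : S_CLIF) (X : Fin N → Fin N → ℝ) (hX : Sk X) (k : ℕ) :
    Lt (2 * k) ((mulF (wX X vac))^[k] (vac : Fk N ℝ) - (wX X)^[k] vac) := by
  induction k with
  | zero =>
    intro S _
    simp
  | succ k ih =>
    rw [Function.iterate_succ_apply', Function.iterate_succ_apply', mulF_wX h X hX]
    have e : ∀ U W : Fk N ℝ, wX X U + Eo X U - wX X W = wX X (U - W) + Eo X U := by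
      intro U W
      rw [wX_sub]
      abel
    rw [e]
    refine Lt.add (lt_wX ih X) ?_
    have h1 : Lt (2 * k + 1) ((mulF (wX X vac))^[k] (vac : Fk N ℝ)) := by
      intro S hS
      have h2 := ih S (by omega)
      rw [Pi.sub_apply, deg_pow X k S (by omega), sub_zero] at h2
      exact h2
    exact lt_Eo h1 X

end Top

theorem s_top (h : S_CLIF) : S_TOP := by
  intro m X hX
  refine ⟨?_, ?_⟩
  · have h1 := Top.diff_pow h X hX m Finset.univ (by simp)
    rw [Pi.sub_apply] at h1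
    linarith
  · intro S hS
    refine Top.deg_pow X m S ?_
    have h1 : S.card < (Finset.univ : Finset (Fin (2 * m))).card :=
      Finset.card_lt_card (Finset.ssubset_univ_iff.mpr hS)
    rw [Finset.card_univ, Fintype.card_fin] at h1
    omega

end Pool.Agent.H781.KP
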