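import Pool.Agent.H781.KP.A

/-!
Project KP: the trace formula (helper296, for helper781).
-/

set_option autoImplicit false
set_option synthInstance.maxHeartbeats 400000
set_option maxHeartbeats 4000000
set_option linter.unusedSectionVars false

noncomputable section

namespace Pool.Agent.H781.KP

open Pool.Agent.H781.NG Pool.Agent.H781.CM Pool.Agent.H781.H6

namespace Trc

theorem smul_right' {N : ℕ} (c : ℝ) (u w : Fk N ℝ) : mulF u (c • w) = c • mulF u w := by
  funext S
  simp only [mulF, Pi.smul_apply, smul_eq_mul, Finset.mul_sum]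
  exact Finset.sum_congr rfl fun T _ => by ring

/-- an element which commutes with `B` commutes with its powers -/
theorem pow_comm (h : S_CLIF) {N : ℕ} (B u : Fk N ℝ) (hB : mulF B u = mulF u B) (k : ℕ) :
    mulF u ((mulF B)^[k] vac) = mulF ((mulF B)^[k] vac) u := by
  obtain ⟨ha, hv, hv', -⟩ := h N ℝ
  induction k with
  | zero =>
    change mulF u vac = mulF vac u
    rw [hv, hv']
  | succ k ih =>
    rw [Function.iterate_succ_apply', ← ha, ← hB, ha, ih, ← ha]

end Trc

theorem s_trc (h : S_CLIF) (h1 : S_COM) (h2 : S_TOP) (h3 : S_QAR) (h4 : S_GAM) : S_TRC := by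
  intro m ι _ _ p a c X hdeg hvac hon hmul hX hd hne
  obtain ⟨ha, hv, hv', -⟩ := h (2 * m) ℝ
  obtain ⟨hG1, hG2⟩ := h4 m
  obtain ⟨hT1, hT2⟩ := h2 m X hX
  obtain ⟨B, hB⟩ : ∃ B, B = wX X (vac : Fk (2 * m) ℝ) := ⟨_, rfl⟩
  rw [← hB] at hT1
  have hcom : ∀ x, mulF B (a x) = mulF (a x) B := by
    intro x
    have h5 := h1 (2 * m) X hX (a x)
    rw [hd x, smul_zero, ← hB] at h5
    exact sub_eq_zero.1 h5
  obtain ⟨Z, hZ⟩ : ∃ Z, Z = (mulF B)^[m] (vac : Fk (2 * m) ℝ) := ⟨_, rfl⟩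
  have hZc : ∀ x, mulF (a x) Z = mulF Z (a x) := fun x => by
    rw [hZ]
    exact Trc.pow_comm h B (a x) (hcom x) m
  have hZu : Z Finset.univ ≠ 0 := by
    intro h0
    apply hne
    funext S
    by_cases hS : S = Finset.univ
    · rw [hS, ← hT1, ← hZ, h0]
      rfl
    · rw [hT2 S hS]
      rfl
  refine h3 (2 * m) ι p a c (mulF Z (Gam (2 * m))) hdeg hvac hon hmul (fun x => ?_) (hG2 Z hZu)
  rw [← ha, hZc x, ha, hG1 (p x) (a x) (hdeg x), Trc.smul_right', ← ha]

end Pool.Agent.H781.KP
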