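import Pool.Agent.H781.KP.A

/-!
Transitivity of the stabiliser of the limits (KP-05, by helper253 for helper781).
-/

set_option autoImplicit false
set_option synthInstance.maxHeartbeats 400000
set_option maxHeartbeats 4000000
set_option linter.unusedSectionVars false

open MeasureTheory Filter
open scoped Topology ContDiff

noncomputable section

namespace Pool.Agent.H781.KP

open Pool.Agent.H781.NG Pool.Agent.H781.CM Pool.Agent.H781.H6

namespace Trg

variable {n : ℕ}

/-! ### the orthogonal group -/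

theorem cont_dt {X : Type*} [TopologicalSpace X] {f g : X → Fin n → ℝ} (hf : Continuous f)
    (hg : Continuous g) : Continuous fun x => dt (f x) (g x) := by
  unfold dt
  exact continuous_finset_sum _ fun a _ =>
    ((continuous_apply a).comp hf).mul ((continuous_apply a).comp hg)

theorem cont_ac (v : Fin n → ℝ) : Continuous fun h : Fin n → Fin n → ℝ => ac h v := by
  refine continuous_pi fun a => ?_
  unfold ac
  exact continuous_finset_sum _ fun i _ =>
    continuous_const.mul ((continuous_apply a).comp (continuous_apply i))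

theorem closed_ON : IsClosed {h : Fin n → Fin n → ℝ | ON h} := by
  have h1 : {h : Fin n → Fin n → ℝ | ON h} =
      ⋂ i, ⋂ j, {h | dt (h i) (h j) = if i = j then 1 else 0} := by
    ext h
    rw [Set.mem_iInter]
    constructor
    · intro hh i
      rw [Set.mem_iInter]
      exact fun j => hh i j
    · intro hh i j
      exact Set.mem_iInter.1 (hh i) j
  rw [h1]
  exact isClosed_iInter fun i => isClosed_iInter fun j =>
    isClosed_eq (cont_dt (continuous_apply i) (continuous_apply j)) continuous_const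

theorem compact_ON : IsCompact {h : Fin n → Fin n → ℝ | ON h} := by
  refine IsCompact.of_isClosed_subset (isCompact_univ_pi fun _ => isCompact_univ_pi fun _ =>
    isCompact_Icc (a := (-1 : ℝ)) (b := 1)) closed_ON ?_
  intro h hh
  rw [Set.mem_univ_pi]
  intro i
  rw [Set.mem_univ_pi]
  intro a
  have h1 : dt (h i) (h i) = 1 := by rw [hh i i, if_pos rfl]
  have h2 : h i a ^ 2 ≤ 1 := by
    rw [← h1]
    calc h i a ^ 2 = h i a * h i a := sq _
      _ ≤ ∑ b, h i b * h i b := Finset.single_le_sum (f := fun b => h i b * h i b)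
        (fun b _ => mul_self_nonneg _) (Finset.mem_univ a)
  exact abs_le.1 ((sq_le_one_iff_abs_le_one _).1 h2)

theorem ON_I1 : ON (I1 n) := by
  intro i j
  unfold dt I1
  rw [Finset.sum_eq_single i]
  · rw [if_pos rfl, one_mul]
    by_cases h : j = i
    · rw [if_pos h, if_pos h.symm]
    · rw [if_neg h, if_neg (Ne.symm h)]
  · intro a _ ha
    rw [if_neg (Ne.symm ha), zero_mul]
  · intro h
    exact absurd (Finset.mem_univ i) h

theorem ac_I1 (v : Fin n → ℝ) : ac (I1 n) v = v := by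
  funext a
  unfold ac I1
  rw [Finset.sum_eq_single a]
  · rw [if_pos rfl, mul_one]
  · intro i _ hi
    rw [if_neg hi, mul_zero]
  · intro h
    exact absurd (Finset.mem_univ a) h

theorem dt_ac {h : Fin n → Fin n → ℝ} (hh : ON h) (v : Fin n → ℝ) :
    dt (ac h v) (ac h v) = dt v v := by
  have e1 : dt (ac h v) (ac h v) = ∑ i, ∑ j, v i * v j * dt (h i) (h j) := by
    unfold dt ac
    have e2 : ∀ a, (∑ i, v i * h i a) * ∑ i, v i * h i a =
        ∑ i, ∑ j, v i * v j * (h i a * h j a) := by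
      intro a
      rw [Finset.sum_mul_sum]
      exact Finset.sum_congr rfl fun i _ => Finset.sum_congr rfl fun j _ => by ring
    rw [Finset.sum_congr rfl fun a _ => e2 a, Finset.sum_comm]
    refine Finset.sum_congr rfl fun i _ => ?_
    rw [Finset.sum_comm]
    refine Finset.sum_congr rfl fun j _ => ?_
    rw [Finset.mul_sum]
  have e3 : ∀ i, ∑ j, v i * v j * dt (h i) (h j) = v i * v i := by
    intro i
    rw [Finset.sum_eq_single i]
    · rw [hh i i, if_pos rfl, mul_one]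
    · intro j _ hj
      rw [hh i j, if_neg (Ne.symm hj), mul_zero]
    · intro h
      exact absurd (Finset.mem_univ i) h
  rw [e1, Finset.sum_congr rfl fun i _ => e3 i]
  rfl

theorem dist_sq {x y : Fin n → ℝ} (hx : dt x x = 1) (hy : dt y y = 1) :
    ∑ a, (x a - y a) ^ 2 = 2 - 2 * dt x y := by
  have e1 : ∑ a, (x a - y a) ^ 2 = dt x x - 2 * dt x y + dt y y := by
    unfold dt
    rw [Finset.mul_sum, ← Finset.sum_sub_distrib, ← Finset.sum_add_distrib]
    exact Finset.sum_congr rfl fun a _ => by ring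
  rw [e1, hx, hy]
  ring

theorem dt_ge {x y : Fin n → ℝ} (hx : dt x x = 1) (hy : dt y y = 1) : -1 ≤ dt x y := by
  have e1 : ∑ a, (x a + y a) ^ 2 = dt x x + 2 * dt x y + dt y y := by
    unfold dt
    rw [Finset.mul_sum, ← Finset.sum_add_distrib, ← Finset.sum_add_distrib]
    exact Finset.sum_congr rfl fun a _ => by ring
  have e2 : 0 ≤ ∑ a, (x a + y a) ^ 2 := Finset.sum_nonneg fun a _ => sq_nonneg _
  rw [e1, hx, hy] at e2
  linarith

theorem eq_of_dt {x y : Fin n → ℝ} (hx : dt x x = 1) (hy : dt y y = 1) (h : 1 ≤ dt x y) :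
    x = y := by
  have e1 := dist_sq hx hy
  have e2 : ∑ a, (x a - y a) ^ 2 = 0 :=
    le_antisymm (by rw [e1]; linarith) (Finset.sum_nonneg fun a _ => sq_nonneg _)
  rw [Finset.sum_eq_zero_iff_of_nonneg fun a _ => sq_nonneg _] at e2
  funext a
  exact sub_eq_zero.1 (pow_eq_zero_iff (two_ne_zero) |>.1 (e2 a (Finset.mem_univ a)))

theorem dt_comm (x y : Fin n → ℝ) : dt x y = dt y x := by
  unfold dt
  exact Finset.sum_congr rfl fun a _ => mul_comm _ _

/-! ### continuity -/

theorem cont_tau (hc : ∀ (u : Fk n ℝ) S, Continuous fun h : Fin n → Fin n → ℝ => Tau.tau h u S)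
    {X : Type*} [TopologicalSpace X] {f : X → Fin n → Fin n → ℝ} {g : X → Fk n ℝ}
    (hf : Continuous f) (hg : Continuous g) (S : Finset (Fin n)) :
    Continuous fun x => Tau.tau (f x) (g x) S := by
  have e1 : ∀ x, Tau.tau (f x) (g x) S = ∑ T, g x T * Tau.tau (f x) (Tau.del T) S := by
    intro x
    rw [Tau.tau_apply, Finset.sum_apply]
    refine Finset.sum_congr rfl fun T _ => ?_
    rw [Pi.smul_apply, smul_eq_mul, Tau.tau_del]
  simp_rw [e1]
  exact continuous_finset_sum _ fun T _ =>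
    ((continuous_apply T).comp hg).mul ((hc (Tau.del T) S).comp hf)

theorem cont_ip {X : Type*} [TopologicalSpace X] {f g : X → Fk n ℝ}
    (hf : ∀ S, Continuous fun x => f x S) (hg : ∀ S, Continuous fun x => g x S) :
    Continuous fun x => ip (f x) (g x) := by
  unfold NG.ip
  exact continuous_finset_sum _ fun S _ => (hf S).mul (hg S)

theorem ip_nonneg (w : Fk n ℝ) : 0 ≤ ip w w := by
  unfold NG.ip
  exact Finset.sum_nonneg fun S _ => mul_self_nonneg _

theorem ip_zero {w : Fk n ℝ} (h : ip w w = 0) : w = 0 := by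
  unfold NG.ip at h
  rw [Finset.sum_eq_zero_iff_of_nonneg fun S _ => mul_self_nonneg _] at h
  funext S
  exact mul_self_eq_zero.1 (h S (Finset.mem_univ S))

/-- the second part of the functional -/
def Gf {ι : Type} [Fintype ι] (U : ι → Fk n ℝ) (h : Fin n → Fin n → ℝ) : ℝ :=
  ∑ i, ip (Tau.tau h (U i) - U i) (Tau.tau h (U i) - U i)

theorem Gf_nonneg {ι : Type} [Fintype ι] (U : ι → Fk n ℝ) (h : Fin n → Fin n → ℝ) :
    0 ≤ Gf U h := Finset.sum_nonneg fun i _ => ip_nonneg _

theorem cont_Gf (hc : ∀ (u : Fk n ℝ) S, Continuous fun h : Fin n → Fin n → ℝ => Tau.tau h u S)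
    {ι : Type} [Fintype ι] :
    Continuous fun q : (Fin n → Fin n → ℝ) × (ι → Fk n ℝ) => Gf q.2 q.1 := by
  unfold Gf
  refine continuous_finset_sum _ fun i _ => ?_
  have hg : Continuous fun q : (Fin n → Fin n → ℝ) × (ι → Fk n ℝ) => q.2 i :=
    (continuous_apply i).comp continuous_snd
  have h1 : ∀ S, Continuous fun q : (Fin n → Fin n → ℝ) × (ι → Fk n ℝ) =>
      (Tau.tau q.1 (q.2 i) - q.2 i) S := by
    intro S
    have h2 : Continuous fun q : (Fin n → Fin n → ℝ) × (ι → Fk n ℝ) =>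
        Tau.tau q.1 (q.2 i) S - q.2 i S :=
      (cont_tau hc continuous_fst hg S).sub ((continuous_apply S).comp hg)
    exact h2
  exact cont_ip h1 h1

theorem Ef_eq {ι : Type} [Fintype ι] (v v' : Fin n → ℝ) (L : ℝ) (U : ι → Fk n ℝ)
    (h : Fin n → Fin n → ℝ) : Ef v v' L U h = ∑ a, (ac h v a - v' a) ^ 2 + L * Gf U h := rfl

theorem cont_Ef (hc : ∀ (u : Fk n ℝ) S, Continuous fun h : Fin n → Fin n → ℝ => Tau.tau h u S)
    {ι : Type} [Fintype ι] (v v' : Fin n → ℝ) (L : ℝ) :
    Continuous fun q : (Fin n → Fin n → ℝ) × (ι → Fk n ℝ) => Ef v v' L q.2 q.1 := by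
  simp_rw [Ef_eq]
  refine Continuous.add (continuous_finset_sum _ fun a _ => ?_)
    (continuous_const.mul (cont_Gf hc))
  exact ((((continuous_apply a).comp (cont_ac v)).comp continuous_fst).sub continuous_const).pow 2

theorem cont_Ef1
    (hc : ∀ (u : Fk n ℝ) S, Continuous fun h : Fin n → Fin n → ℝ => Tau.tau h u S)
    {ι : Type} [Fintype ι] (v v' : Fin n → ℝ) (L : ℝ) (U : ι → Fk n ℝ) :
    Continuous fun h : Fin n → Fin n → ℝ => Ef v v' L U h := by
  have h1 : Continuous fun h : Fin n → Fin n → ℝ =>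
      ((h, U) : (Fin n → Fin n → ℝ) × (ι → Fk n ℝ)) := Continuous.prodMk_left U
  have h2 := (cont_Ef hc (ι := ι) v v' L).comp h1
  exact h2

theorem tendsto_Gf
    (hc : ∀ (u : Fk n ℝ) S, Continuous fun h : Fin n → Fin n → ℝ => Tau.tau h u S)
    {ι : Type} [Fintype ι] {hs : ℕ → Fin n → Fin n → ℝ} {us : ℕ → ι → Fk n ℝ}
    {h : Fin n → Fin n → ℝ} {u : ι → Fk n ℝ} (hh : Tendsto hs atTop (𝓝 h))
    (hu : Tendsto us atTop (𝓝 u)) :
    Tendsto (fun k => Gf (us k) (hs k)) atTop (𝓝 (Gf u h)) := by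
  have h1 : Tendsto (fun k => ((hs k, us k) : (Fin n → Fin n → ℝ) × (ι → Fk n ℝ))) atTop
      (𝓝 (h, u)) := hh.prodMk_nhds hu
  have h2 := (cont_Gf hc (ι := ι)).tendsto (h, u)
  have h3 := h2.comp h1
  exact h3

theorem tendsto_Ef
    (hc : ∀ (u : Fk n ℝ) S, Continuous fun h : Fin n → Fin n → ℝ => Tau.tau h u S)
    {ι : Type} [Fintype ι] (v v' : Fin n → ℝ) (L : ℝ) {hs : ℕ → Fin n → Fin n → ℝ}
    {us : ℕ → ι → Fk n ℝ} {h : Fin n → Fin n → ℝ} {u : ι → Fk n ℝ}
    (hh : Tendsto hs atTop (𝓝 h)) (hu : Tendsto us atTop (𝓝 u)) :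
    Tendsto (fun k => Ef v v' L (us k) (hs k)) atTop (𝓝 (Ef v v' L u h)) := by
  have h1 : Tendsto (fun k => ((hs k, us k) : (Fin n → Fin n → ℝ) × (ι → Fk n ℝ))) atTop
      (𝓝 (h, u)) := hh.prodMk_nhds hu
  have h2 := (cont_Ef hc (ι := ι) v v' L).tendsto (h, u)
  have h3 := h2.comp h1
  exact h3

/-! ### the two steps -/

theorem step1 (h1 : S_FOC) (h2 : S_TAC) {ι : Type} [Fintype ι] (p : ι → ℕ) (U : ℕ → ι → Fk n ℝ)
    (u : ι → Fk n ℝ) (R : ℕ → T4 n) (ε : ℕ → ℝ) (κ : ℝ) (hUd : ∀ k i, Deg (p i) (U k i))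
    (hU : ∀ i, Tendsto (fun k => U k i) atTop (𝓝 (u i))) (hR : ∀ k, IsAC (R k))
    (hε : ∀ k, 0 ≤ ε k) (hε0 : Tendsto ε atTop (𝓝 0)) (hκ : 0 < κ)
    (hC : ∀ k, COp (R k) (ε k)) (hK : ∀ k, KGE (R k) κ) (hr : ∀ k i, rc (R k) (U k i) ≤ ε k)
    (v v' : Fin n → ℝ) (hv : dt v v = 1) (hv' : dt v' v' = 1) (hne : dt v v' ≠ -1) (L : ℝ)
    (hL : 0 ≤ L) : ∃ h, ON h ∧ ac h v = v' ∧ L * Gf u h ≤ 4 := by
  obtain ⟨hc, hI, -⟩ := h2 n
  have hne1 : {h : Fin n → Fin n → ℝ | ON h}.Nonempty := ⟨I1 n, ON_I1⟩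
  -- minimisers
  have hmin : ∀ k, ∃ h ∈ {h : Fin n → Fin n → ℝ | ON h},
      IsMinOn (Ef v v' L (U k)) {h : Fin n → Fin n → ℝ | ON h} h := by
    intro k
    refine compact_ON.exists_isMinOn hne1 ?_
    exact (cont_Ef1 hc v v' L (U k)).continuousOn
  choose hk hkO hkm using hmin
  obtain ⟨h, hh, φ, hφ, hlim⟩ := compact_ON.tendsto_subseq hkO
  refine ⟨h, hh, ?_⟩
  have hON : ON h := hh
  have hUφ : Tendsto (fun k => U (φ k)) atTop (𝓝 u) :=
    tendsto_pi_nhds.2 fun i => (hU i).comp hφ.tendsto_atTop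
  have hx : dt (ac h v) (ac h v) = 1 := by rw [dt_ac hON, hv]
  -- the first order condition in the limit
  have hfo : √(1 - dt v' (ac h v) ^ 2) ≤ 0 := by
    have hcl : Continuous fun g : Fin n → Fin n → ℝ => √(1 - dt v' (ac g v) ^ 2) :=
      Real.continuous_sqrt.comp
        (continuous_const.sub ((cont_dt continuous_const (cont_ac v)).pow 2))
    have hl : Tendsto (fun k => √(1 - dt v' (ac (hk (φ k)) v) ^ 2)) atTop
        (𝓝 (√(1 - dt v' (ac h v) ^ 2))) := (hcl.tendsto h).comp hlim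
    have hrt : Tendsto (fun k => L * ∑ i, √(ip (U k i) (U k i)) *
        √(ε k / κ * (1 + (n : ℝ) ^ 2 * ip (U k i) (U k i)))) atTop (𝓝 0) := by
      have hi : ∀ i, Tendsto (fun k => ip (U k i) (U k i)) atTop (𝓝 (ip (u i) (u i))) := by
        intro i
        have h3 : Continuous fun w : Fk n ℝ => ip w w :=
          cont_ip (fun S => continuous_apply S) fun S => continuous_apply S
        exact (h3.tendsto (u i)).comp (hU i)
      have hs : ∀ i, Tendsto (fun k => √(ip (U k i) (U k i)) *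
          √(ε k / κ * (1 + (n : ℝ) ^ 2 * ip (U k i) (U k i)))) atTop (𝓝 0) := by
        intro i
        have e1 : Tendsto (fun k => √(ip (U k i) (U k i))) atTop (𝓝 (√(ip (u i) (u i)))) :=
          (Real.continuous_sqrt.tendsto _).comp (hi i)
        have e2 : Tendsto (fun k => ε k / κ * (1 + (n : ℝ) ^ 2 * ip (U k i) (U k i))) atTop
            (𝓝 (0 / κ * (1 + (n : ℝ) ^ 2 * ip (u i) (u i)))) :=
          (hε0.div_const κ).mul (tendsto_const_nhds.add (tendsto_const_nhds.mul (hi i)))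
        rw [zero_div, zero_mul] at e2
        have e3 := (Real.continuous_sqrt.tendsto _).comp e2
        rw [Real.sqrt_zero] at e3
        have e4 := e1.mul e3
        rw [mul_zero] at e4
        exact e4
      have h4 := (tendsto_finset_sum (Finset.univ : Finset ι) fun i _ => hs i).const_mul L
      rw [Finset.sum_const_zero, mul_zero] at h4
      exact h4
    refine le_of_tendsto_of_tendsto' hl (hrt.comp hφ.tendsto_atTop) fun k => ?_
    exact h1 n ι p (U (φ k)) (R (φ k)) (ε (φ k)) κ L (hR _) (hε _) hκ (hC _) (hK _) (hUd _) (hr _)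
      hL v v' hv hv' (hk (φ k)) (hkO (φ k)) fun h' hh' => hkm (φ k) hh'
  have hsq : 1 ≤ dt v' (ac h v) ^ 2 := by
    have h3 := Real.sqrt_eq_zero'.1 (le_antisymm hfo (Real.sqrt_nonneg _))
    linarith
  -- the value at the limit
  have hval : Ef v v' L u h ≤ 2 - 2 * dt v v' := by
    have hl := tendsto_Ef hc v v' L hlim hUφ
    refine le_of_tendsto' hl fun k => ?_
    show Ef v v' L (U (φ k)) (hk (φ k)) ≤ 2 - 2 * dt v v'
    have h3 : Ef v v' L (U (φ k)) (hk (φ k)) ≤ Ef v v' L (U (φ k)) (I1 n) :=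
      hkm (φ k) (ON_I1 (n := n))
    have h4 : Ef v v' L (U (φ k)) (I1 n) = 2 - 2 * dt v v' := by
      rw [Ef_eq, ac_I1, dist_sq hv hv']
      have h5 : Gf (U (φ k)) (I1 n) = 0 := by
        unfold Gf
        refine Finset.sum_eq_zero fun i _ => ?_
        rw [hI, sub_self, ip_zero_left]
      rw [h5, mul_zero, add_zero]
    rw [← h4]
    exact h3
  rw [Ef_eq, dist_sq hx hv', dt_comm (ac h v) v'] at hval
  have hG := mul_nonneg hL (Gf_nonneg u h)
  have hge := dt_ge hv hv'
  have hgt : -1 < dt v v' := lt_of_le_of_ne hge (Ne.symm hne)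
  have hpos : 1 ≤ dt v' (ac h v) := by
    by_contra hcon
    push Not at hcon
    have h6 : dt v' (ac h v) ≤ -1 := by
      by_contra h7
      push Not at h7
      nlinarith
    linarith
  have hxv : ac h v = v' := (eq_of_dt hv' hx hpos).symm
  refine ⟨hxv, ?_⟩
  have h8 : dt v' (ac h v) = 1 := by rw [hxv, hv']
  rw [h8] at hval
  linarith

end Trg

open Trg in
theorem s_trg (h1 : S_FOC) (h2 : S_TAC) : S_TRG := by
  intro n ι _ p U u R ε κ _ hUd hU hR hε hε0 hκ hC hK hr v v' hv hv' hne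
  obtain ⟨hc, hI, -⟩ := h2 n
  have h3 : ∀ j : ℕ, ∃ h, ON h ∧ ac h v = v' ∧ ((j : ℝ) + 1) * Gf u h ≤ 4 := fun j =>
    step1 h1 h2 p U u R ε κ hUd hU hR hε hε0 hκ hC hK hr v v' hv hv' hne ((j : ℝ) + 1)
      (by positivity)
  choose hj hjO hjv hjG using h3
  obtain ⟨h, hh, φ, hφ, hlim⟩ := (compact_ON (n := n)).tendsto_subseq hjO
  refine ⟨h, hh, ?_, ?_⟩
  · have hl : Tendsto (fun k => ac (hj (φ k)) v) atTop (𝓝 (ac h v)) :=
      ((cont_ac v).tendsto h).comp hlim
    have hl2 : Tendsto (fun k => ac (hj (φ k)) v) atTop (𝓝 v') := by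
      simp_rw [hjv]
      exact tendsto_const_nhds
    exact tendsto_nhds_unique hl hl2
  · have hl := tendsto_Gf hc hlim (tendsto_const_nhds (x := u))
    have hr0 : Tendsto (fun k : ℕ => 4 * (1 / ((φ k : ℝ) + 1))) atTop (𝓝 (4 * 0)) :=
      (tendsto_one_div_add_atTop_nhds_zero_nat.comp hφ.tendsto_atTop).const_mul 4
    rw [mul_zero] at hr0
    have hG0 : Gf u h ≤ 0 := by
      refine le_of_tendsto_of_tendsto' hl hr0 fun k => ?_
      show Gf u (hj (φ k)) ≤ 4 * (1 / ((φ k : ℝ) + 1))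
      have h4 := hjG (φ k)
      have h5 : (0 : ℝ) < (φ k : ℝ) + 1 := by positivity
      rw [mul_one_div, le_div_iff₀ h5]
      linarith
    have hG1 : Gf u h = 0 := le_antisymm hG0 (Gf_nonneg u h)
    unfold Gf at hG1
    rw [Finset.sum_eq_zero_iff_of_nonneg fun i _ => ip_nonneg _] at hG1
    intro i
    exact sub_eq_zero.1 (ip_zero (hG1 i (Finset.mem_univ i)))

end Pool.Agent.H781.KP
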