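import Pool.Agent.H781.KP.Cs
import Pool.Agent.H781.KP.Tac
import Pool.Agent.H781.KP.Tex
import Pool.Agent.H781.KP.Foc
import Pool.Agent.H781.KP.Trg
import Pool.Agent.H781.KP.Inf
import Pool.Agent.H781.KP.Pfn
import Pool.Agent.H781.KP.Com
import Pool.Agent.H781.KP.Top
import Pool.Agent.H781.KP.Qar
import Pool.Agent.H781.KP.Gam
import Pool.Agent.H781.KP.Trc
import Pool.Agent.H781.KP.Cmpk
import Pool.Agent.H781.KP.Tmul
import Pool.Agent.H781.KP.Lich
import Pool.Agent.H781.KP.Poink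
import Pool.Agent.H781.KP.Appk
import Pool.Agent.H781.KP.Kax
import Pool.Agent.H781.KP.Fink
import Pool.Agent.H781.KP.Pkx
import Pool.Agent.H781.KP.Gconn
import Pool.Agent.H781.KP.Sard
import Pool.Agent.H781.KP.Red
import Pool.Agent.H781.KP.Pfu
import Pool.Agent.H781.KP.Gdu
import Pool.Agent.H781.KP.Maink
import Pool.Agent.H781.H6.Frm

/-!
Assembly of project KP.
-/

set_option autoImplicit false

namespace Pool.Agent.H781.KP

open Pool.Agent.H781.CM Pool.Agent.H781.H6

theorem tex : S_TEX := s_tex s_tac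

theorem cmpk : S_CMPK :=
  s_cmpk (s_trg (s_foc s_cs s_tac tex) s_tac) (s_inf s_tac tex) s_pfn
    (s_trc s_clif (s_com s_clif) (s_top s_clif) (s_qar s_clif) s_gam)

theorem poink : S_POINK := s_poink (s_lich s_bochf rmp) spec ddh

theorem chik : S_CHIK :=
  s_chik (s_fink (s_appk spec ener gram prod s_clin ddh (s_rich rmp)) dimS poink hodge spec
    (s_kax s_tau s_rct (s_tmul s_clif) rmp)) cmpk

theorem gdu : S_GDU :=
  s_gdu (s_pfu (s_pf s_gfrm s_cholg) (s_sard s_tkv) s_red) s_gfr s_gbi (s_meas s_tkv)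
    (s_divt (s_divl s_tkv) s_tkf s_tkv s_tkp s_tki) s_tkv

theorem maink : S_MAINK := s_maink chik gdu (s_pkx s_frm) s_gconn

end Pool.Agent.H781.KP
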