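import Pool.Agent.H781.KP.A
import Pool.Agent.H781.CM.Poi

/-!
Poincaré inequality on closed manifolds with sectional curvature at least `κ > 0`, from the
eigenvalue estimate of Lichnerowicz and the spectral theorem.
-/

set_option autoImplicit false
set_option synthInstance.maxHeartbeats 400000
set_option maxHeartbeats 4000000
set_option linter.unusedSectionVars false

open MeasureTheory Filter
open scoped Topology ContDiff

noncomputable section

namespace Pool.Agent.H781.KP

open Pool.Agent.H781.NG Pool.Agent.H781.CM Pool.Agent.H781.H6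

namespace Poink

variable {M : Type} [TopologicalSpace M] [CompactSpace M] [MeasurableSpace M] [BorelSpace M]
  {N : ℕ} (C : CD M N)

theorem const_of_gsq (hC : Conn C) {f : C.A} (h : ig C (gsq C f) = 0) :
    ∃ c : ℝ, f = cs C c := by
  have h1 : gsq C f = 0 := by
    refine ig_eq_zero C (fun p => ?_) h
    unfold gsq
    rw [ev_sum]
    exact Finset.sum_nonneg fun a _ => by rw [map_mul]; exact mul_self_nonneg _
  exact hC f h1

/-- the function part of an element of the sum of the small eigenspaces is constant -/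
theorem const_of_mem (h1 : S_LICH) (h3 : S_DDH) {n : ℕ} {κ : ℝ} (hn : 2 ≤ n) (hκ : 0 < κ)
    (hK : PtK C n κ) (hC : Conn C)
    {u : Fk N C.A} (hu : u ∈ Ev C (κ / 2)) : ∃ c : ℝ, u ∅ = cs C c := by
  refine Submodule.span_induction (p := fun u _ => ∃ c : ℝ, u ∅ = cs C c) ?_ ?_ ?_ ?_ hu
  · rintro u ⟨hu, l, hl0, hlt, hul⟩
    have hE := Poi.eigen C h3 hul
    rcases hl0.eq_or_lt with h0 | h0
    · have hL : Lap C (u ∅) = 0 := by rw [hE, ← h0, zero_smul, neg_zero]
      apply const_of_gsq C hC
      obtain ⟨-, -, -, -, -, -, -, -, -, -, hsym, -, -⟩ := h3 M N C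
      rw [← Poi.nq_DD_fvac, ← pr_self, hsym, Poi.DDDD_fvac C h3, hL, zero_smul, neg_zero,
        pr_zero_right]
    · by_cases hf : u ∅ = 0
      · exact ⟨0, by rw [hf]; unfold cs; rw [map_zero]⟩
      · exfalso
        have h5 := h1 M N C n κ hn hκ hK (u ∅) l h0 hE hf
        linarith
  · exact ⟨0, by unfold cs; rw [map_zero]; rfl⟩
  · rintro u v _ _ ⟨c, hc⟩ ⟨d, hd⟩
    exact ⟨c + d, by rw [Pi.add_apply, hc, hd]; unfold cs; rw [map_add]⟩
  · rintro r u _ ⟨c, hc⟩
    exact ⟨r * c, by rw [Pi.smul_apply, hc]; unfold cs; rw [map_mul, Algebra.smul_def]⟩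

end Poink

open Poink

theorem s_poink (h1 : S_LICH) (h2 : S_SPEC) (h3 : S_DDH) : S_POINK := by
  intro M _ _ _ _ N C n κ hn hκ hK hC hMo hDe hRe
  have ht : 0 < κ / 2 := by positivity
  obtain ⟨-, -, hgap, -⟩ := h2 M N C hMo hDe hRe _ ht
  constructor
  · intro f
    have hv := hgap ((f - cs C (ig C f)) • vac) (Poi.hor_fvac C _) (by
      intro u hu
      obtain ⟨c, hc⟩ := const_of_mem C h1 h3 hn hκ hK hC hu
      have e : (f - cs C (ig C f)) * cs C c = c • (f - cs C (ig C f)) := by
        rw [Algebra.smul_def, mul_comm]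
        rfl
      rw [Poi.pr_fvac, hc, e, ig_smul, ig_sub, ig_cs, sub_self, mul_zero])
    rw [Poi.nq_DD_fvac] at hv
    have e1 : gsq C (f - cs C (ig C f)) = gsq C f := by
      unfold gsq cs
      simp only [map_sub, Derivation.map_algebraMap, sub_zero]
    have e2 : nq C ((f - cs C (ig C f)) • (vac : Fk N C.A)) = ig C (f ^ 2) - ig C f ^ 2 := by
      rw [← pr_self, Poi.pr_fvac]
      simp only [Pi.smul_apply, smul_eq_mul, Poi.vac_empty, mul_one]
      have e : (f - cs C (ig C f)) * (f - cs C (ig C f)) =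
          f ^ 2 - (2 * ig C f) • f + cs C (ig C f ^ 2) := by
        have e' : (2 * ig C f) • f = 2 * cs C (ig C f) * f := by
          rw [Algebra.smul_def, map_mul, map_ofNat]
          rfl
        have e'' : cs C (ig C f ^ 2) = cs C (ig C f) ^ 2 := by
          unfold cs
          rw [map_pow]
        rw [e', e'']
        ring
      rw [e, ig_add, ig_sub, ig_smul, ig_cs]
      ring
    rw [e1, e2] at hv
    rw [div_mul_eq_mul_div, div_le_iff₀ two_pos] at hv
    rw [div_mul_eq_mul_div, le_div_iff₀ hκ]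
    linarith
  · rintro u ⟨hu, hd⟩
    obtain ⟨c, hc⟩ := const_of_mem C h1 h3 hn hκ hK hC hu
    refine ⟨c, ?_⟩
    funext S
    by_cases hS : S = ∅
    · subst hS
      rw [hc, Pi.smul_apply, Poi.vac_empty, Algebra.smul_def, mul_one]
      rfl
    · have hd' : Deg 0 u := hd
      rw [hd' S (fun h => hS (Finset.card_eq_zero.1 h)), Pi.smul_apply]
      unfold vac
      rw [if_neg hS, smul_zero]

end Pool.Agent.H781.KP
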