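import Pool.Agent.H781.CM.Spec
import Pool.Agent.H781.H6.Tau
import Pool.Agent.H781.H6.Rct

/-!
Project KP (MP_4a593f_gt, second result): closed manifolds of even dimension with sectional
curvature at least `κ > 0` and curvature operator at least `-ε(n, κ)` have positive Euler
characteristic. Algebraic and analytic part: statements.
-/

set_option autoImplicit false
set_option synthInstance.maxHeartbeats 400000
set_option maxHeartbeats 4000000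
set_option linter.unusedSectionVars false

open MeasureTheory Filter
open scoped Topology ContDiff

noncomputable section

namespace Pool.Agent.H781.KP

open Pool.Agent.H781.NG Pool.Agent.H781.CM Pool.Agent.H781.H6

/-! ### Definitions -/

/-- skew-symmetric matrices -/
def Sk {n : ℕ} (X : Fin n → Fin n → ℝ) : Prop := ∀ a b, X a b = - X b a

/-- the linear map `e_i ↦ b i` applied to the vector `v` -/
def ac {n : ℕ} (b : Fin n → Fin n → ℝ) (v : Fin n → ℝ) : Fin n → ℝ := fun a => ∑ i, v i * b i a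

/-- the identity matrix -/
def I1 (n : ℕ) : Fin n → Fin n → ℝ := fun i a => if i = a then 1 else 0

/-- the derivation of `Λ ℝⁿ` extending `e_i ↦ ∑_a X i a e_a` -/
def dX {n : ℕ} (X : Fin n → Fin n → ℝ) (u : Fk n ℝ) : Fk n ℝ := ∑ i, ∑ a, X i a • cr a (an i u)

/-- exterior multiplication by the 2-form `∑ X i j e_i ∧ e_j` -/
def wX {n : ℕ} (X : Fin n → Fin n → ℝ) (u : Fk n ℝ) : Fk n ℝ := ∑ i, ∑ j, X i j • cr i (cr j u)

/-- the curvature operator is at least `-ε` -/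
def COp {n : ℕ} (R : T4 n) (ε : ℝ) : Prop := ∀ w : Fin n → Fin n → ℝ, Sk w →
  - ε * ∑ a, ∑ b, w a b ^ 2 ≤ - ∑ a, ∑ b, ∑ c, ∑ d, R a b c d * w a b * w c d

/-- the sectional curvature is at least `κ` -/
def KGE {n : ℕ} (R : T4 n) (κ : ℝ) : Prop := ∀ x y : Fin n → ℝ, dt x x = 1 → dt y y = 1 →
  dt x y = 0 → κ ≤ R4 R x y y x

/-- the volume element -/
def Gam (n : ℕ) : Fk n ℝ := fun S => if S = Finset.univ then 1 else 0

/-! ### The almost stabiliser -/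

/-- Cauchy-Schwarz inequality of the curvature operator -/
def S_CS : Prop := ∀ (n : ℕ) (R : T4 n) (ε κ : ℝ), IsAC R → 0 ≤ ε → 0 < κ → COp R ε → KGE R κ →
  ∀ v w : Fin n → ℝ, dt v v = 1 → dt v w = 0 → ∃ X, Sk X ∧ ac X v = w ∧
    ∀ p u, Deg p u → ip (dX X u) (dX X u) ≤ dt w w / κ * (rc R u + ε * n ^ 2 * ip u u)

/-- the homomorphisms of `Λ ℝⁿ` given by square matrices -/
def S_TAC : Prop := ∀ n : ℕ,
  (∀ (u : Fk n ℝ) S, Continuous fun h : Fin n → Fin n → ℝ => Tau.tau h u S) ∧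
  (∀ u : Fk n ℝ, Tau.tau (I1 n) u = u) ∧
  (∀ (g h : Fin n → Fin n → ℝ) (u : Fk n ℝ),
    Tau.tau g (Tau.tau h u) = Tau.tau (fun i => ac g (h i)) u) ∧
  ∃ K : ℝ, 0 ≤ K ∧ ∀ (Y : Fin n → Fin n → ℝ) (u : Fk n ℝ) (S : Finset (Fin n)),
    (∀ i a, |Y i a| ≤ 1) →
    |Tau.tau (fun i a => I1 n i a + Y i a) u S - u S - dX Y u S| ≤
      K * (∑ i, ∑ a, Y i a ^ 2) * √(ip u u)

/-- the matrix exponential of `s X` -/
def S_TEX : Prop := ∀ (n : ℕ) (X : Fin n → Fin n → ℝ), Sk X → ∃ g : ℝ → Fin n → Fin n → ℝ,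
  (∀ s, ON (g s)) ∧
  (∃ K : ℝ, 0 ≤ K ∧ ∀ s, |s| ≤ 1 → ∀ i a, |g s i a - I1 n i a - s * X i a| ≤ K * s ^ 2) ∧
  (∀ u : Fk n ℝ, dX X u = 0 → ∀ s, Tau.tau (g s) u = u) ∧
  ∀ v : Fin n → ℝ, ac X v = 0 → ∀ s, ac (g s) v = v

/-- the functional -/
def Ef {n : ℕ} {ι : Type} [Fintype ι] (v v' : Fin n → ℝ) (L : ℝ) (U : ι → Fk n ℝ)
    (h : Fin n → Fin n → ℝ) : ℝ :=
  ∑ a, (ac h v a - v' a) ^ 2 + L * ∑ i, ip (Tau.tau h (U i) - U i) (Tau.tau h (U i) - U i)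

/-- first order condition at a minimum of the functional on the orthogonal group -/
def S_FOC : Prop := ∀ (n : ℕ) (ι : Type) [Fintype ι] (p : ι → ℕ) (U : ι → Fk n ℝ) (R : T4 n)
  (ε κ L : ℝ), IsAC R → 0 ≤ ε → 0 < κ → COp R ε → KGE R κ → (∀ i, Deg (p i) (U i)) →
  (∀ i, rc R (U i) ≤ ε) → 0 ≤ L → ∀ v v' : Fin n → ℝ, dt v v = 1 → dt v' v' = 1 →
  ∀ h, ON h → (∀ h', ON h' → Ef v v' L U h ≤ Ef v v' L U h') →
    √(1 - dt v' (ac h v) ^ 2) ≤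
      L * ∑ i, √(ip (U i) (U i)) * √(ε / κ * (1 + n ^ 2 * ip (U i) (U i)))

/-- transitivity of the stabiliser of the limits -/
def S_TRG : Prop := ∀ (n : ℕ) (ι : Type) [Fintype ι] (p : ι → ℕ) (U : ℕ → ι → Fk n ℝ)
  (u : ι → Fk n ℝ) (R : ℕ → T4 n) (ε : ℕ → ℝ) (κ : ℝ), (∀ i, Deg (p i) (u i)) →
  (∀ k i, Deg (p i) (U k i)) → (∀ i, Tendsto (fun k => U k i) atTop (𝓝 (u i))) →
  (∀ k, IsAC (R k)) → (∀ k, 0 ≤ ε k) → Tendsto ε atTop (𝓝 0) → 0 < κ →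
  (∀ k, COp (R k) (ε k)) → (∀ k, KGE (R k) κ) → (∀ k i, rc (R k) (U k i) ≤ ε k) →
  ∀ v v' : Fin n → ℝ, dt v v = 1 → dt v' v' = 1 → dt v v' ≠ -1 →
    ∃ h, ON h ∧ ac h v = v' ∧ ∀ i, Tau.tau h (u i) = u i

/-- infinitesimal transitivity -/
def S_INF : Prop := ∀ (n : ℕ) (ι : Type) [Fintype ι] (u : ι → Fk n ℝ),
  (∀ v v' : Fin n → ℝ, dt v v = 1 → dt v' v' = 1 → dt v v' ≠ -1 →
    ∃ h, ON h ∧ ac h v = v' ∧ ∀ i, Tau.tau h (u i) = u i) →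
  ∀ v w : Fin n → ℝ, dt v v = 1 → dt w w = 1 → dt v w = 0 →
    ∃ X, Sk X ∧ ac X v = w ∧ ∀ i, dX X (u i) = 0

/-- a transitive space of skew-symmetric matrices contains an invertible one -/
def S_PFN : Prop := ∀ (m : ℕ) (V : Submodule ℝ (Fin (2 * m) → Fin (2 * m) → ℝ)),
  (∀ X ∈ V, Sk X) →
  (∀ v w : Fin (2 * m) → ℝ, dt v v = 1 → dt w w = 1 → dt v w = 0 → ∃ X ∈ V, ac X v = w) →
  ∃ X ∈ V, (wX X)^[m] vac ≠ 0

/-! ### The trace formula -/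

/-- the commutator with a 2-form -/
def S_COM : Prop := ∀ (n : ℕ) (X : Fin n → Fin n → ℝ), Sk X → ∀ u : Fk n ℝ,
  mulF (wX X vac) u - mulF u (wX X vac) = (-4 : ℝ) • dX X u

/-- powers of a 2-form -/
def S_TOP : Prop := ∀ (m : ℕ) (X : Fin (2 * m) → Fin (2 * m) → ℝ), Sk X →
  ((mulF (wX X vac))^[m] vac) Finset.univ = ((wX X)^[m] vac) Finset.univ ∧
  ∀ S, S ≠ Finset.univ → ((wX X)^[m] vac) S = 0

/-- exact algebras with a twisted-central element of nonzero trace -/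
def S_QAR : Prop := ∀ (N : ℕ) (ι : Type) [Fintype ι] [DecidableEq ι] (p : ι → ℕ)
  (a : ι → Fk N ℝ) (c : ι → ι → ι → ℝ) (Y : Fk N ℝ), (∀ x, Deg (p x) (a x)) →
  (∃ x, a x = vac ∨ a x = - vac) → (∀ x y, ip (a x) (a y) = if x = y then 1 else 0) →
  (∀ x y, mulF (a x) (a y) = ∑ z, c x y z • a z) →
  (∀ x, mulF (a x) Y = (-1 : ℝ) ^ p x • mulF Y (a x)) → Y ∅ ≠ 0 →
  0 < ∑ x, (-1 : ℤ) ^ p x

/-- the volume element of an even-dimensional space -/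
def S_GAM : Prop := ∀ m : ℕ,
  (∀ (p : ℕ) (u : Fk (2 * m) ℝ), Deg p u →
    mulF u (Gam (2 * m)) = (-1 : ℝ) ^ p • mulF (Gam (2 * m)) u) ∧
  ∀ Z : Fk (2 * m) ℝ, Z Finset.univ ≠ 0 → mulF Z (Gam (2 * m)) ∅ ≠ 0

/-- exact algebras with an invertible infinitesimal symmetry -/
def S_TRC : Prop := ∀ (m : ℕ) (ι : Type) [Fintype ι] [DecidableEq ι] (p : ι → ℕ)
  (a : ι → Fk (2 * m) ℝ) (c : ι → ι → ι → ℝ) (X : Fin (2 * m) → Fin (2 * m) → ℝ),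
  (∀ x, Deg (p x) (a x)) → (∃ x, a x = vac ∨ a x = - vac) →
  (∀ x y, ip (a x) (a y) = if x = y then 1 else 0) →
  (∀ x y, mulF (a x) (a y) = ∑ z, c x y z • a z) →
  Sk X → (∀ x, dX X (a x) = 0) → (wX X)^[m] vac ≠ 0 → 0 < ∑ x, (-1 : ℤ) ^ p x

/-- Almost algebras in `Λ ℝⁿ` (as `AppAlg`) with a curvature tensor `R` of sectional curvature at
least `κ` and curvature operator at least `-η`, whose Weitzenböck form is at most `η` on the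
basis. -/
def KA (n N : ℕ) (η κ : ℝ) (d : Fin (N + 1) → ℕ) : Prop :=
  ∃ (a : (Σ p, Fin (d p)) → Fk n ℝ) (c : (Σ p, Fin (d p)) → (Σ p, Fin (d p)) →
      (Σ p, Fin (d p)) → ℝ) (R : T4 n),
    (∀ x, Deg x.1 (a x)) ∧ d 0 = 1 ∧ (∀ i : Fin (d 0), a ⟨0, i⟩ = vac ∨ a ⟨0, i⟩ = - vac) ∧
    (∀ x y, |ip (a x) (a y) - if x = y then 1 else 0| ≤ η) ∧
    (∀ x y z, |c x y z| ≤ 2 ^ N) ∧
    (∀ x y S, |(mulF (a x) (a y) - ∑ z, c x y z • a z) S| ≤ η) ∧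
    IsAC R ∧ COp R η ∧ KGE R κ ∧ ∀ x, rc R (a x) ≤ η

/-- compactness -/
def S_CMPK : Prop := ∀ (m N : ℕ) (d : Fin (N + 1) → ℕ) (κ : ℝ), 0 < m → 0 < κ →
  (∀ η : ℝ, 0 < η → KA (2 * m) N η κ d) → 0 < ∑ p : Fin (N + 1), (-1 : ℤ) ^ (p : ℕ) * (d p : ℤ)

/-- the homomorphism `τ` respects the Clifford product -/
def S_TMUL : Prop := ∀ (N m : ℕ) (b : Fin m → Fin N → ℝ) (τ : Fk m ℝ →ₗ[ℝ] Fk N ℝ), IsTau b τ →
  ∀ u v : Fk m ℝ, τ (mulF u v) = mulF (τ u) (τ v)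

/-! ### Analysis -/

section CD

variable {M : Type} [TopologicalSpace M] [CompactSpace M] [MeasurableSpace M] [BorelSpace M]
  {N : ℕ} (C : CD M N)

/-- the curvature tensor of the trivial bundle at a point -/
def Rq (q : M) : T4 N := fun a b c d => C.ev q (Rm C.F a b c d)

/-- the curvature tensor in the orthonormal family `b` -/
def Rb {n : ℕ} (q : M) (b : Fin n → Fin N → ℝ) : T4 n :=
  fun i j k l => R4 (Rq C q) (b i) (b j) (b k) (b l)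

/-- at every point the tangent space has an orthonormal basis `b` of `n` vectors, and the sectional
curvature is at least `κ` -/
def PtK (n : ℕ) (κ : ℝ) : Prop := ∀ q : M, ∃ b : Fin n → Fin N → ℝ, ON b ∧
  (∀ a c, C.ev q (C.P a c) = ∑ i, b i a * b i c) ∧ IsAC (Rb C q b) ∧ KGE (Rb C q b) κ

/-- functions with vanishing gradient are constant -/
def Conn : Prop := ∀ h : C.A, gsq C h = 0 → ∃ c : ℝ, h = cs C c

end CD

/-- eigenvalues of the Laplacian on functions (Lichnerowicz) -/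
def S_LICH : Prop := ∀ (M : Type) [TopologicalSpace M] [CompactSpace M] [MeasurableSpace M]
  [BorelSpace M] (N : ℕ) (C : CD M N) (n : ℕ) (κ : ℝ), 2 ≤ n → 0 < κ → PtK C n κ →
  ∀ (u : C.A) (l : ℝ), 0 < l → Lap C u = - (l • u) → u ≠ 0 → κ ≤ l

/-- Poincaré inequality -/
def S_POINK : Prop := ∀ (M : Type) [TopologicalSpace M] [CompactSpace M] [MeasurableSpace M]
  [BorelSpace M] (N : ℕ) (C : CD M N) (n : ℕ) (κ : ℝ), 2 ≤ n → 0 < κ → PtK C n κ → Conn C →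
  Moll C → Dense2 C → Reg C →
  Poin C (2 / κ) ∧ ∀ u ∈ Evp C (κ / 2) 0, ∃ c : ℝ, u = c • (vac : Fk N C.A)

/-- the values of a form at a point -/
def evq {M : Type} [TopologicalSpace M] [CompactSpace M] [MeasurableSpace M] [BorelSpace M]
    {N : ℕ} (C : CD M N) (q : M) (u : Fk N C.A) : Fk N ℝ := fun S => C.ev q (u S)

/-- a point where the small eigenforms are almost an orthonormal basis of an algebra and have small
Weitzenböck terms -/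
def GP {M : Type} [TopologicalSpace M] [CompactSpace M] [MeasurableSpace M] [BorelSpace M]
    {N : ℕ} (C : CD M N) (η : ℝ) (d : Fin (N + 1) → ℕ) : Prop :=
  ∃ (q : M) (u : (Σ p, Fin (d p)) → Fk N C.A) (c : (Σ p, Fin (d p)) → (Σ p, Fin (d p)) →
      (Σ p, Fin (d p)) → ℝ),
    (∀ x, Hor C (u x)) ∧ (∀ x, Deg x.1 (u x)) ∧ d 0 = 1 ∧
    (∀ i : Fin (d 0), evq C q (u ⟨0, i⟩) = vac ∨ evq C q (u ⟨0, i⟩) = - vac) ∧
    (∀ x y, |ip (evq C q (u x)) (evq C q (u y)) - if x = y then 1 else 0| ≤ η) ∧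
    (∀ x y z, |c x y z| ≤ 2 ^ N) ∧
    (∀ x y S, |(mulF (evq C q (u x)) (evq C q (u y)) - ∑ z, c x y z • evq C q (u z)) S| ≤ η) ∧
    ∀ x, C.ev q (ric C.F (u x)) ≤ η

/-- existence of good points -/
def S_APPK : Prop := ∀ (N : ℕ), 0 < N → ∀ (η K : ℝ), 0 < η → 0 ≤ K → ∃ δ : ℝ, 0 < δ ∧
  ∀ (M : Type) [TopologicalSpace M] [CompactSpace M] [MeasurableSpace M] [BorelSpace M]
    (C : CD M N) (ε t t' : ℝ), 0 ≤ ε → CurvGE C ε → Moll C → Dense2 C → Reg C → Poin C K →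
    0 < t → t ≤ t' → Ev C t' = Ev C t → t + ε * N ^ 2 ≤ δ → t + ε * N ^ 2 ≤ δ * t' →
    (∀ u ∈ Evp C t 0, ∃ c : ℝ, u = c • (vac : Fk N C.A)) →
    Module.finrank ℝ (Ev C t) ≤ 2 ^ N →
    GP C η (fun p => Module.finrank ℝ (Evp C t p))

/-- transfer to `Λ ℝⁿ` -/
def S_KAX : Prop := ∀ (N n : ℕ) (κ η : ℝ), 0 < η → ∃ η' : ℝ, 0 < η' ∧
  ∀ (M : Type) [TopologicalSpace M] [CompactSpace M] [MeasurableSpace M] [BorelSpace M]
    (C : CD M N) (d : Fin (N + 1) → ℕ), CurvGE C η → PtK C n κ → GP C η' d → KA n N η κ d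

/-- small eigenvalues -/
def S_FINK : Prop := ∀ (N n : ℕ) (κ : ℝ), 0 < N → 2 ≤ n → 0 < κ → ∀ η : ℝ, 0 < η →
  ∃ ε : ℝ, 0 < ε ∧
  ∀ (M : Type) [TopologicalSpace M] [CompactSpace M] [MeasurableSpace M] [BorelSpace M]
    (C : CD M N), CurvGE C ε → PtK C n κ → Conn C → Moll C → Dense2 C → Reg C →
    ∃ d : Fin (N + 1) → ℕ, KA n N η κ d ∧ ∑ p, d p ≤ 2 ^ N ∧
      ∑ p : Fin (N + 1), (-1 : ℤ) ^ (p : ℕ) * (d p : ℤ) =
        ∑ p ∈ Finset.range (N + 1), (-1 : ℤ) ^ p * (bet C p : ℤ)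

/-- the abstract theorem -/
def S_CHIK : Prop := ∀ (N m : ℕ) (κ : ℝ), 0 < N → 0 < m → 0 < κ → ∃ ε : ℝ, 0 < ε ∧
  ∀ (M : Type) [TopologicalSpace M] [CompactSpace M] [MeasurableSpace M] [BorelSpace M]
    (C : CD M N), CurvGE C ε → PtK C (2 * m) κ → Conn C → Moll C → Dense2 C → Reg C →
    0 < ∑ p ∈ Finset.range (N + 1), (-1 : ℤ) ^ p * (bet C p : ℤ)

end Pool.Agent.H781.KP
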