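import Pool.Agent.H781.KP.B
import Pool.Agent.H781.KP.Cmpk

/-!
Compactness of almost algebras with a curvature tensor: 2-forms.
-/

set_option autoImplicit false
set_option synthInstance.maxHeartbeats 400000
set_option maxHeartbeats 4000000
set_option linter.unusedSectionVars false

open MeasureTheory Filter
open scoped Topology ContDiff

noncomputable section

namespace Pool.Agent.H781.KP

open Pool.Agent.H781.NG Pool.Agent.H781.CM Pool.Agent.H781.H6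

open Cmpk in
theorem s_cmp2 (h1 : S_TRG) (h2 : S_INF) (h3 : S_TW2) (h4 : S_ON2) : S_CMP2 := by
  intro n N d κ p hn hκ hp hKA
  have hpos : ∀ k : ℕ, (0 : ℝ) < 1 / ((k : ℝ) + 1) := fun k => by positivity
  choose a c R hdeg hd0 hvac hip hc hmul hAC hCO hKG hrc using fun k : ℕ => hKA _ (hpos k)
  have hcond : ∀ k : ℕ, Cond n N (1 / ((k : ℝ) + 1)) d (a k, c k) := fun k =>
    ⟨hdeg k, hvac k, hip k, hc k, hmul k⟩
  have hcond1 : ∀ k, (a k, c k) ∈ {p | Cond n N 1 d p} := by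
    intro k
    refine cond_mono ?_ (hcond k)
    rw [div_le_one (by positivity)]
    have := Nat.cast_nonneg (α := ℝ) k
    linarith
  obtain ⟨⟨a', c'⟩, -, φ, hφ, hlim⟩ := (compact_cond n N d).tendsto_subseq hcond1
  have hlim0 : Tendsto (fun k : ℕ => 1 / (((φ k : ℕ) : ℝ) + 1)) atTop (𝓝 0) :=
    tendsto_one_div_add_atTop_nhds_zero_nat.comp hφ.tendsto_atTop
  have hlimc : ∀ η : ℝ, 0 < η → Cond n N η d (a', c') := by
    intro η hη
    refine (closed_cond n N η d).mem_of_tendsto hlim ?_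
    filter_upwards [hlim0.eventually (gt_mem_nhds hη)] with k hk
    exact cond_mono hk.le (hcond (φ k))
  have hl1 := hlimc 1 one_pos
  have hip' : ∀ x y, ip (a' x) (a' y) = if x = y then 1 else 0 := fun x y =>
    sub_eq_zero.1 (eq_zero_of_le fun η hη => (hlimc η hη).2.2.1 x y)
  have hlima : ∀ x, Tendsto (fun k => a (φ k) x) atTop (𝓝 (a' x)) := by
    intro x
    have h5 : Tendsto (fun k => (a (φ k), c (φ k))) atTop (𝓝 (a', c')) := hlim
    exact (((continuous_apply x).comp continuous_fst).tendsto (a', c')).comp h5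
  have htr := h1 n (Ix N d) (fun x => (x.1 : ℕ)) (fun k => a (φ k)) a' (fun k => R (φ k))
    (fun k => 1 / (((φ k : ℕ) : ℝ) + 1)) κ hl1.1 (fun k => hdeg (φ k)) hlima
    (fun k => hAC (φ k)) (fun k => (hpos (φ k)).le) hlim0 hκ (fun k => hCO (φ k))
    (fun k => hKG (φ k)) (fun k => hrc (φ k))
  have hinf := h2 n (Ix N d) a' htr
  -- the forms of degree two
  have hdg : ∀ (i : Fin (d p)) (k : ℕ), Deg 2 (a (φ k) ⟨p, i⟩) := by
    intro i k
    have h5 : Deg (p : ℕ) (a (φ k) ⟨p, i⟩) := hdeg (φ k) ⟨p, i⟩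
    rwa [hp] at h5
  have hdg' : ∀ i : Fin (d p), Deg 2 (a' ⟨p, i⟩) := by
    intro i
    have h5 : Deg (p : ℕ) (a' ⟨p, i⟩) := hl1.1 ⟨p, i⟩
    rwa [hp] at h5
  refine ⟨?_, fun hodd => ?_⟩
  · by_contra hcon
    have hd1 : 1 < d p := not_le.1 hcon
    have hd0' : 0 < d p := by omega
    have hne : ((⟨p, ⟨0, hd0'⟩⟩ : Ix N d)) ≠ ⟨p, ⟨1, hd1⟩⟩ := by
      intro h
      have h6 := eq_of_heq (Sigma.mk.inj_iff.1 h).2
      have h7 := congrArg Fin.val h6
      simp at h7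
    refine h3 n (fun k => a (φ k) ⟨p, ⟨0, hd0'⟩⟩) (fun k => a (φ k) ⟨p, ⟨1, hd1⟩⟩)
      (a' ⟨p, ⟨0, hd0'⟩⟩) (a' ⟨p, ⟨1, hd1⟩⟩) (fun k => R (φ k))
      (fun k => 1 / (((φ k : ℕ) : ℝ) + 1)) κ hn (hdg _) (hdg _) (hdg' _) (hdg' _)
      (hlima _) (hlima _) (fun k => hAC (φ k)) (fun k => (hpos (φ k)).le) hlim0 hκ
      (fun k => hCO (φ k)) (fun k => hKG (φ k)) (fun k => hrc (φ k) _) (fun k => hrc (φ k) _)
      ?_ ?_ ?_ ?_
    · rw [hip', if_pos rfl]
    · rw [hip', if_pos rfl]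
    · rw [hip', if_neg hne]
    · intro x y hx hy hxy
      obtain ⟨X, hX1, hX2, hX3⟩ := hinf x y hx hy hxy
      exact ⟨X, hX1, hX2, hX3 _, hX3 _⟩
  · by_contra hcon
    have hd0' : 0 < d p := Nat.pos_of_ne_zero hcon
    have hz : a' ⟨p, ⟨0, hd0'⟩⟩ = 0 := by
      refine h4 n _ hodd (hdg' _) ?_
      intro x y hx hy hxy
      obtain ⟨X, hX1, hX2, hX3⟩ := hinf x y hx hy hxy
      exact ⟨X, hX1, hX2, hX3 _⟩
    have h5 := hip' ⟨p, ⟨0, hd0'⟩⟩ ⟨p, ⟨0, hd0'⟩⟩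
    rw [if_pos rfl, hz] at h5
    unfold ip at h5
    simp at h5

end Pool.Agent.H781.KP
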