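import Pool.Agent.H781.KP.A

/-!
Project KP: the Cauchy-Schwarz inequality of the curvature operator (`S_CS`; by helper23 for
helper781).
-/

set_option autoImplicit false
set_option synthInstance.maxHeartbeats 400000
set_option maxHeartbeats 4000000
set_option linter.unusedSectionVars false

open MeasureTheory Filter
open scoped Topology ContDiff

noncomputable section

namespace Pool.Agent.H781.KP

open Pool.Agent.H781.NG Pool.Agent.H781.CM Pool.Agent.H781.H6

namespace Cs

variable {n : ℕ}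

/-- the bilinear form of a tensor on matrices -/
def Q (T : T4 n) (x y : Fin n → Fin n → ℝ) : ℝ :=
  - ∑ p : Fin n × Fin n, ∑ q : Fin n × Fin n, T p.1 p.2 q.1 q.2 * x p.1 p.2 * y q.1 q.2

theorem Q_eq (T : T4 n) (x y : Fin n → Fin n → ℝ) :
    Q T x y = - ∑ a, ∑ b, ∑ c, ∑ d, T a b c d * x a b * y c d := by
  unfold Q
  simp only [Fintype.sum_prod_type]

theorem Q_comm {T : T4 n} (h : ∀ a b c d, T a b c d = T c d a b) (x y : Fin n → Fin n → ℝ) :
    Q T x y = Q T y x := by
  unfold Q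
  rw [Finset.sum_comm]
  congr 1
  refine Finset.sum_congr rfl fun p _ => Finset.sum_congr rfl fun q _ => ?_
  rw [h]
  ring

theorem Q_lin (T : T4 n) (x y w : Fin n → Fin n → ℝ) (s t : ℝ) :
    Q T (fun a b => s * x a b + t * y a b) w = s * Q T x w + t * Q T y w := by
  unfold Q
  have h : ∀ p q : Fin n × Fin n,
      T p.1 p.2 q.1 q.2 * (s * x p.1 p.2 + t * y p.1 p.2) * w q.1 q.2 =
      s * (T p.1 p.2 q.1 q.2 * x p.1 p.2 * w q.1 q.2) +
        t * (T p.1 p.2 q.1 q.2 * y p.1 p.2 * w q.1 q.2) := by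
    intro p q
    ring
  simp only [h, Finset.sum_add_distrib, ← Finset.mul_sum]
  ring

theorem Q_swap {T : T4 n} (h : ∀ a b c d, T a b c d = - T b a c d) (x y : Fin n → Fin n → ℝ) :
    Q T (fun a b => x b a) y = - Q T x y := by
  unfold Q
  rw [neg_neg, ← Finset.sum_neg_distrib]
  refine Fintype.sum_equiv (Equiv.prodComm _ _) _ _ fun p => ?_
  rw [← Finset.sum_neg_distrib]
  refine Finset.sum_congr rfl fun q _ => ?_
  rw [h]
  simp only [Equiv.prodComm_apply, Prod.fst_swap, Prod.snd_swap]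
  ring

theorem Q_sk {T : T4 n} (h : ∀ a b c d, T a b c d = - T b a c d) (x y : Fin n → Fin n → ℝ) :
    Q T (fun a b => 1 / 2 * x a b + -(1 / 2) * x b a) y = Q T x y := by
  rw [Q_lin T x (fun a b => x b a) y, Q_swap h]
  ring

theorem Q_nonneg {T : T4 n} (h12 : ∀ a b c d, T a b c d = - T b a c d)
    (hpr : ∀ a b c d, T a b c d = T c d a b) (hnn : ∀ w, Sk w → 0 ≤ Q T w w)
    (x : Fin n → Fin n → ℝ) : 0 ≤ Q T x x := by
  rw [← Q_sk h12 x x, Q_comm hpr, ← Q_sk h12 x]
  refine hnn _ fun a b => ?_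
  ring

theorem Q_cs {T : T4 n} (h12 : ∀ a b c d, T a b c d = - T b a c d)
    (hpr : ∀ a b c d, T a b c d = T c d a b) (hnn : ∀ w, Sk w → 0 ≤ Q T w w)
    (x y : Fin n → Fin n → ℝ) : Q T x y ^ 2 ≤ Q T x x * Q T y y := by
  have h1 : ∀ t : ℝ, 0 ≤ Q T y y * (t * t) + 2 * Q T x y * t + Q T x x := by
    intro t
    have h2 := Q_nonneg h12 hpr hnn (fun a b => 1 * x a b + t * y a b)
    rw [Q_lin, Q_comm hpr x, Q_comm hpr y, Q_lin, Q_lin, Q_comm hpr y x] at h2
    nlinarith
  have h3 := discrim_le_zero h1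
  unfold discrim at h3
  nlinarith

/-- the matrix of the linear form `y ↦ - Q (x, y)` -/
def Ax (T : T4 n) (x : Fin n → Fin n → ℝ) (c d : Fin n) : ℝ :=
  ∑ p : Fin n × Fin n, T p.1 p.2 c d * x p.1 p.2

theorem Ax_pair (T : T4 n) (x y : Fin n → Fin n → ℝ) :
    ∑ c, ∑ d, Ax T x c d * y c d = - Q T x y := by
  unfold Q Ax
  rw [neg_neg, Finset.sum_comm (s := (Finset.univ : Finset (Fin n × Fin n))),
    Fintype.sum_prod_type]
  refine Finset.sum_congr rfl fun c _ => Finset.sum_congr rfl fun d _ => ?_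
  rw [Finset.sum_mul]

/-- the tensor of constant curvature one -/
def Kt (a b c d : Fin n) : ℝ :=
  (if b = c then 1 else 0) * (if a = d then 1 else 0) -
    (if a = c then 1 else 0) * (if b = d then 1 else 0)

theorem Kt_sum (f : Fin n → Fin n → Fin n → Fin n → ℝ) :
    ∑ a, ∑ b, ∑ c, ∑ d, Kt a b c d * f a b c d = ∑ a, ∑ b, f a b b a - ∑ a, ∑ b, f a b a b := by
  unfold Kt
  simp only [sub_mul, Finset.sum_sub_distrib]
  congr 1
  · refine Finset.sum_congr rfl fun a _ => Finset.sum_congr rfl fun b _ => ?_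
    simp
  · refine Finset.sum_congr rfl fun a _ => Finset.sum_congr rfl fun b _ => ?_
    simp

/-- the corrected tensor -/
def Rp (R : T4 n) (ε : ℝ) : T4 n := fun a b c d => R a b c d + ε / 2 * Kt a b c d

theorem Kt12 (a b c d : Fin n) : Kt a b c d = - Kt b a c d := by
  unfold Kt
  ring

theorem Ktpr (a b c d : Fin n) : Kt a b c d = Kt c d a b := by
  unfold Kt
  have h1 : (if b = c then (1 : ℝ) else 0) = if c = b then 1 else 0 := by
    simp only [eq_comm]
  have h2 : (if a = d then (1 : ℝ) else 0) = if d = a then 1 else 0 := by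
    simp only [eq_comm]
  have h3 : (if a = c then (1 : ℝ) else 0) = if c = a then 1 else 0 := by
    simp only [eq_comm]
  have h4 : (if b = d then (1 : ℝ) else 0) = if d = b then 1 else 0 := by
    simp only [eq_comm]
  rw [h1, h2, h3, h4]
  ring

theorem Rp12 {R : T4 n} (hR : IsAC R) (ε : ℝ) (a b c d : Fin n) :
    Rp R ε a b c d = - Rp R ε b a c d := by
  unfold Rp
  rw [hR.a12, Kt12]
  ring

theorem Rppr {R : T4 n} (hR : IsAC R) (ε : ℝ) (a b c d : Fin n) :
    Rp R ε a b c d = Rp R ε c d a b := by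
  unfold Rp
  rw [hR.pr, Ktpr]

theorem Rp34 {R : T4 n} (hR : IsAC R) (ε : ℝ) (a b c d : Fin n) :
    Rp R ε a b c d = - Rp R ε a b d c := by
  rw [Rppr hR, Rp12 hR, Rppr hR]

theorem Rp_sum (R : T4 n) (ε : ℝ) (f : Fin n → Fin n → Fin n → Fin n → ℝ) :
    ∑ a, ∑ b, ∑ c, ∑ d, Rp R ε a b c d * f a b c d =
      ∑ a, ∑ b, ∑ c, ∑ d, R a b c d * f a b c d +
        ε / 2 * (∑ a, ∑ b, f a b b a - ∑ a, ∑ b, f a b a b) := by
  rw [← Kt_sum]
  unfold Rp
  simp only [add_mul, Finset.sum_add_distrib, mul_assoc, ← Finset.mul_sum]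

theorem Rp_nn {R : T4 n} {ε : ℝ} (hC : COp R ε) (w : Fin n → Fin n → ℝ) (hw : Sk w) :
    0 ≤ Q (Rp R ε) w w := by
  rw [Q_eq]
  have h1 := hC w hw
  have h2 := Rp_sum R ε (fun a b c d => w a b * w c d)
  simp only [← mul_assoc] at h2
  rw [h2]
  have h3 : ∑ a, ∑ b, w a b * w b a = - ∑ a, ∑ b, w a b ^ 2 := by
    rw [← Finset.sum_neg_distrib]
    refine Finset.sum_congr rfl fun a _ => ?_
    rw [← Finset.sum_neg_distrib]
    refine Finset.sum_congr rfl fun b _ => ?_
    rw [hw b a]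
    ring
  have h4 : ∑ a, ∑ b, w a b * w a b = ∑ a, ∑ b, w a b ^ 2 :=
    Finset.sum_congr rfl fun a _ => Finset.sum_congr rfl fun b _ => by ring
  rw [h3, h4]
  linarith

/-! ### Fock space -/

theorem ip_nonneg (u : Fk n ℝ) : 0 ≤ ip u u :=
  Finset.sum_nonneg fun _ _ => mul_self_nonneg _

theorem ip_split (i : Fin n) (u : Fk n ℝ) :
    ip (cr i u) (cr i u) + ip (an i u) (an i u) = ip u u := by
  have h1 := car_self i u
  have h2 : ip (an i (cr i u) + cr i (an i u)) u = ip u u := by rw [h1]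
  rw [ip_add_left] at h2
  have h3 := ip_cr i u (cr i u)
  have h4 := ip_cr i (an i u) u
  rw [ip_comm] at h2
  linarith

theorem ip_cr_le (i : Fin n) (u : Fk n ℝ) : ip (cr i u) (cr i u) ≤ ip u u := by
  have := ip_split i u
  have := ip_nonneg (an i u)
  linarith

theorem ip_an_le (i : Fin n) (u : Fk n ℝ) : ip (an i u) (an i u) ≤ ip u u := by
  have := ip_split i u
  have := ip_nonneg (cr i u)
  linarith

theorem ip_neg_le (x y : Fk n ℝ) : - ip x y ≤ (ip x x + ip y y) / 2 := by
  have h := ip_nonneg (x + y)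
  rw [ip_add_left, ip_add_right, ip_add_right, ip_comm y x] at h
  linarith

theorem ip_ca_le (a b : Fin n) (u : Fk n ℝ) :
    ip (cr b (an a u)) (cr b (an a u)) ≤ ip u u :=
  (ip_cr_le b _).trans (ip_an_le a u)

theorem rc_Rp_le (R : T4 n) {ε : ℝ} (hε : 0 ≤ ε) (u : Fk n ℝ) :
    rc (Rp R ε) u ≤ rc R u + ε * n ^ 2 * ip u u := by
  unfold rc
  rw [Rp_sum]
  have h1 : ∑ a : Fin n, ∑ b : Fin n, ip (cr b (an a u)) (cr b (an a u)) ≤
      ∑ a : Fin n, ∑ b : Fin n, ip u u :=
    Finset.sum_le_sum fun a _ => Finset.sum_le_sum fun b _ => ip_ca_le a b u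
  have h2 : ∑ a : Fin n, ∑ b : Fin n, - ip (cr b (an a u)) (cr a (an b u)) ≤
      ∑ a : Fin n, ∑ b : Fin n, ip u u := by
    refine Finset.sum_le_sum fun a _ => Finset.sum_le_sum fun b _ => ?_
    have h3 := ip_neg_le (cr b (an a u)) (cr a (an b u))
    have h4 := ip_ca_le a b u
    have h5 := ip_ca_le b a u
    linarith
  simp only [Finset.sum_neg_distrib] at h2
  have h6 : ∑ a : Fin n, ∑ b : Fin n, ip u u = (n : ℝ) ^ 2 * ip u u := by
    simp only [Finset.sum_const, Finset.card_univ, Fintype.card_fin, nsmul_eq_mul]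
    ring
  rw [h6] at h1 h2
  have h7 : 0 ≤ ε / 2 := by positivity
  have h8 : ε / 2 * (∑ a : Fin n, ∑ b : Fin n, ip (cr b (an a u)) (cr b (an a u)) -
      ∑ a : Fin n, ∑ b : Fin n, ip (cr b (an a u)) (cr a (an b u))) ≤
      ε / 2 * ((n : ℝ) ^ 2 * ip u u + (n : ℝ) ^ 2 * ip u u) :=
    mul_le_mul_of_nonneg_left (by linarith) h7
  have h9 : ε / 2 * ((n : ℝ) ^ 2 * ip u u + (n : ℝ) ^ 2 * ip u u) = ε * n ^ 2 * ip u u := by
    ring
  linarith

theorem rc_Q (T : T4 n) (u : Fk n ℝ) :
    ∑ S, Q T (fun a b => cr b (an a u) S) (fun a b => cr b (an a u) S) = rc T u := by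
  unfold rc Q ip
  rw [Finset.sum_neg_distrib, Finset.sum_comm]
  congr 1
  simp only [Fintype.sum_prod_type]
  refine Finset.sum_congr rfl fun a _ => Finset.sum_congr rfl fun b _ => ?_
  rw [Finset.sum_comm]
  refine Finset.sum_congr rfl fun c _ => ?_
  rw [Finset.sum_comm]
  refine Finset.sum_congr rfl fun d _ => ?_
  rw [Finset.mul_sum]
  exact Finset.sum_congr rfl fun S _ => by ring

theorem dX_apply (X : Fin n → Fin n → ℝ) (u : Fk n ℝ) (S : Finset (Fin n)) :
    dX X u S = ∑ c, ∑ d, X c d * cr d (an c u) S := by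
  unfold dX
  rw [Finset.sum_apply]
  refine Finset.sum_congr rfl fun c _ => ?_
  rw [Finset.sum_apply]
  exact Finset.sum_congr rfl fun d _ => by rw [Pi.smul_apply, smul_eq_mul]

/-! ### Vectors -/

theorem dt_nonneg (x : Fin n → ℝ) : 0 ≤ dt x x := Finset.sum_nonneg fun _ _ => mul_self_nonneg _

theorem dt_comm (x y : Fin n → ℝ) : dt x y = dt y x :=
  Finset.sum_congr rfl fun _ _ => mul_comm _ _

theorem dt_cs (x y : Fin n → ℝ) : dt x y ^ 2 ≤ dt x x * dt y y := by
  have h := Finset.sum_mul_sq_le_sq_mul_sq Finset.univ x y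
  unfold dt
  have e1 : ∑ a, x a * x a = ∑ a, x a ^ 2 := Finset.sum_congr rfl fun a _ => by ring
  have e2 : ∑ a, y a * y a = ∑ a, y a ^ 2 := Finset.sum_congr rfl fun a _ => by ring
  rw [e1, e2]
  exact h

theorem dt_eq_zero {x : Fin n → ℝ} (h : dt x x = 0) : x = 0 := by
  funext a
  have h1 := (Finset.sum_eq_zero_iff_of_nonneg (fun a _ => mul_self_nonneg (x a))).1 h a
    (Finset.mem_univ a)
  exact mul_self_eq_zero.1 h1

/-- pairing of the vector `ac (Ax T (z ⊗ v)) v` -/
theorem ac_pair (T : T4 n) (z v y : Fin n → ℝ) :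
    dt (ac (Ax T fun a b => z a * v b) v) y = - Q T (fun a b => z a * v b) fun c d => v c * y d := by
  rw [← Ax_pair]
  unfold dt ac
  rw [Finset.sum_comm]
  refine Finset.sum_congr rfl fun d _ => ?_
  rw [Finset.sum_mul]
  exact Finset.sum_congr rfl fun c _ => by ring

theorem R4_Q (T : T4 n) (z v y : Fin n → ℝ) :
    - Q T (fun a b => z a * v b) (fun c d => v c * y d) = R4 T z v v y := by
  rw [Q_eq, neg_neg]
  unfold R4
  refine Finset.sum_congr rfl fun a _ => Finset.sum_congr rfl fun b _ =>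
    Finset.sum_congr rfl fun c _ => Finset.sum_congr rfl fun d _ => ?_
  ring

theorem R4_smul (R : T4 n) (s : ℝ) (z v : Fin n → ℝ) :
    R4 R (fun a => s * z a) v v (fun a => s * z a) = s ^ 2 * R4 R z v v z := by
  unfold R4
  simp only [Finset.mul_sum]
  refine Finset.sum_congr rfl fun a _ => Finset.sum_congr rfl fun b _ =>
    Finset.sum_congr rfl fun c _ => Finset.sum_congr rfl fun d _ => ?_
  ring

theorem R4_ge {R : T4 n} {κ : ℝ} (hK : KGE R κ) {z v : Fin n → ℝ} (hv : dt v v = 1)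
    (hz : dt v z = 0) : κ * dt z z ≤ R4 R z v v z := by
  by_cases h0 : dt z z = 0
  · have h1 := dt_eq_zero h0
    subst h1
    have h2 : R4 R 0 v v 0 = 0 := by
      unfold R4
      simp
    rw [h2, h0, mul_zero]
  · have h1 : 0 < dt z z := lt_of_le_of_ne (dt_nonneg z) (Ne.symm h0)
    set s : ℝ := (√(dt z z))⁻¹ with hs
    have hs2 : s ^ 2 * dt z z = 1 := by
      rw [hs, inv_pow, Real.sq_sqrt h1.le, inv_mul_cancel₀ h0]
    have h2 := hK (fun a => s * z a) v (by
      rw [← hs2]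
      unfold dt
      rw [Finset.mul_sum]
      exact Finset.sum_congr rfl fun a _ => by ring) hv (by
      have : dt (fun a => s * z a) v = s * dt v z := by
        unfold dt
        rw [Finset.mul_sum]
        exact Finset.sum_congr rfl fun a _ => by ring
      rw [this, hz, mul_zero])
    rw [R4_smul] at h2
    calc κ * dt z z ≤ s ^ 2 * R4 R z v v z * dt z z := mul_le_mul_of_nonneg_right h2 h1.le
      _ = (s ^ 2 * dt z z) * R4 R z v v z := by ring
      _ = R4 R z v v z := by rw [hs2, one_mul]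

theorem R4_Rp (R : T4 n) (ε : ℝ) (z v : Fin n → ℝ) (hv : dt v v = 1) (hz : dt v z = 0) :
    R4 (Rp R ε) z v v z = R4 R z v v z + ε / 2 * dt z z := by
  unfold R4
  have h := Rp_sum R ε (fun a b c d => z a * v b * v c * z d)
  simp only [← mul_assoc] at h
  rw [h]
  congr 2
  have h1 : ∑ a, ∑ b, z a * v b * v b * z a = dt z z * dt v v := by
    unfold dt
    rw [Finset.sum_mul]
    refine Finset.sum_congr rfl fun a _ => ?_
    rw [Finset.mul_sum]
    exact Finset.sum_congr rfl fun b _ => by ring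
  have h2 : ∑ a, ∑ b, z a * v b * v a * z b = dt v z * dt v z := by
    unfold dt
    rw [Finset.sum_mul]
    refine Finset.sum_congr rfl fun a _ => ?_
    rw [Finset.mul_sum]
    exact Finset.sum_congr rfl fun b _ => by ring
  rw [h1, h2, hv, hz]
  ring

theorem Rp_ge {R : T4 n} {ε κ : ℝ} (hε : 0 ≤ ε) (hK : KGE R κ) {z v : Fin n → ℝ}
    (hv : dt v v = 1) (hz : dt v z = 0) :
    κ * dt z z ≤ dt (ac (Ax (Rp R ε) fun a b => z a * v b) v) z := by
  rw [ac_pair, R4_Q, R4_Rp R ε z v hv hz]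
  have h1 := R4_ge hK hv hz
  have h2 := mul_nonneg (by positivity : 0 ≤ ε / 2) (dt_nonneg z)
  linarith

theorem ac_v {R : T4 n} (hR : IsAC R) (ε : ℝ) (z v : Fin n → ℝ) :
    dt (ac (Ax (Rp R ε) fun a b => z a * v b) v) v = 0 := by
  rw [ac_pair]
  have h1 := Q_swap (Rp12 hR ε) (fun c d => v c * v d) (fun a b => z a * v b)
  have h2 : (fun a b : Fin n => v b * v a) = fun c d => v c * v d := by
    funext a b
    ring
  rw [h2, Q_comm (Rppr hR ε)] at h1
  linarith

/-- the linear map -/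
def J (T : T4 n) (v : Fin n → ℝ) : (Fin n → ℝ) →ₗ[ℝ] (Fin n → ℝ) where
  toFun z := fun d => ac (Ax T fun a b => z a * v b) v d + dt v z * v d
  map_add' x y := by
    funext d
    unfold ac Ax dt
    simp only [Pi.add_apply, add_mul, mul_add, Finset.sum_add_distrib]
    ring
  map_smul' c x := by
    funext d
    unfold ac Ax dt
    simp only [Pi.smul_apply, smul_eq_mul, RingHom.id_apply, mul_add, Finset.mul_sum,
      Finset.sum_mul]
    congr 1
    · exact Finset.sum_congr rfl fun a _ => Finset.sum_congr rfl fun p _ => by ring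
    · exact Finset.sum_congr rfl fun a _ => by ring

theorem J_dt (T : T4 n) (v z y : Fin n → ℝ) :
    dt (J T v z) y = dt (ac (Ax T fun a b => z a * v b) v) y + dt v z * dt v y := by
  show dt (fun d => ac (Ax T fun a b => z a * v b) v d + dt v z * v d) y = _
  unfold dt
  simp only [add_mul, Finset.sum_add_distrib]
  congr 1
  rw [Finset.mul_sum]
  exact Finset.sum_congr rfl fun a _ => by ring

theorem exists_z {R : T4 n} {ε κ : ℝ} (hR : IsAC R) (hε : 0 ≤ ε) (hκ : 0 < κ) (hK : KGE R κ)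
    {v w : Fin n → ℝ} (hv : dt v v = 1) (hw : dt v w = 0) :
    ∃ z, dt v z = 0 ∧ ac (Ax (Rp R ε) fun a b => z a * v b) v = w := by
  have hinj : Function.Injective (J (Rp R ε) v) := by
    rw [← LinearMap.ker_eq_bot, LinearMap.ker_eq_bot']
    intro z hz
    have h1 := J_dt (Rp R ε) v z v
    rw [hz, ac_v hR, hv] at h1
    have h2 : dt (0 : Fin n → ℝ) v = 0 := by unfold dt; simp
    rw [h2] at h1
    have h3 : dt v z = 0 := by linarith
    have h4 := J_dt (Rp R ε) v z z
    rw [hz, h3] at h4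
    have h5 : dt (0 : Fin n → ℝ) z = 0 := by unfold dt; simp
    rw [h5] at h4
    have h6 := Rp_ge (ε := ε) hε hK hv h3
    have h7 := dt_nonneg z
    apply dt_eq_zero
    nlinarith
  have hsurj : Function.Surjective (J (Rp R ε) v) := LinearMap.injective_iff_surjective.1 hinj
  obtain ⟨z, hz⟩ := hsurj w
  have h1 := J_dt (Rp R ε) v z v
  rw [hz, ac_v hR, hv, dt_comm w v, hw] at h1
  have h3 : dt v z = 0 := by linarith
  refine ⟨z, h3, ?_⟩
  have h4 : (J (Rp R ε) v) z = fun d => ac (Ax (Rp R ε) fun a b => z a * v b) v d + dt v z * v d :=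
    rfl
  rw [h3] at h4
  rw [← hz, h4]
  funext d
  ring

end Cs

open Cs in
theorem s_cs : S_CS := by
  intro n R ε κ hR hε hκ hC hK v w hv hw
  obtain ⟨z, hz, hac⟩ := exists_z hR hε hκ hK hv hw
  refine ⟨Ax (Rp R ε) fun a b => z a * v b, ?_, hac, ?_⟩
  · intro c d
    unfold Ax
    rw [← Finset.sum_neg_distrib]
    refine Finset.sum_congr rfl fun p _ => ?_
    rw [Rp34 hR]
    ring
  · intro p u _
    have hnn := Rp_nn hC
    have h12 := Rp12 hR ε
    have hpr := Rppr hR ε
    -- the value of the form at `z ⊗ v`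
    have hQ : Q (Rp R ε) (fun a b => z a * v b) (fun a b => z a * v b) = dt w z := by
      rw [← hac, ac_pair]
      have h1 := Q_swap h12 (fun c d => v c * z d) (fun a b => z a * v b)
      have h2 : (fun a b : Fin n => v b * z a) = fun a b => z a * v b := by
        funext a b
        ring
      rw [h2, Q_comm hpr (fun c d => v c * z d)] at h1
      exact h1
    have h1 : ∀ S, (dX (Ax (Rp R ε) fun a b => z a * v b) u S) *
        (dX (Ax (Rp R ε) fun a b => z a * v b) u S) ≤
        dt w z * Q (Rp R ε) (fun a b => cr b (an a u) S) (fun a b => cr b (an a u) S) := by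
      intro S
      rw [dX_apply, Ax_pair, ← hQ]
      have h2 := Q_cs h12 hpr hnn (fun a b => z a * v b) (fun a b => cr b (an a u) S)
      nlinarith
    have h2 : ip (dX (Ax (Rp R ε) fun a b => z a * v b) u)
        (dX (Ax (Rp R ε) fun a b => z a * v b) u) ≤ dt w z * rc (Rp R ε) u := by
      rw [← rc_Q, Finset.mul_sum]
      exact Finset.sum_le_sum fun S _ => h1 S
    have h3 : 0 ≤ rc (Rp R ε) u := by
      rw [← rc_Q]
      exact Finset.sum_nonneg fun S _ => Q_nonneg h12 hpr hnn _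
    have h4 := Rp_ge (ε := ε) hε hK hv hz
    rw [hac] at h4
    have h5 := dt_cs w z
    have h6 := dt_nonneg z
    have h7 := dt_nonneg w
    have h8 : 0 ≤ dt w z := le_trans (mul_nonneg hκ.le h6) h4
    have h9 : dt w z ≤ dt w w / κ := by
      rw [le_div_iff₀ hκ]
      by_cases h0 : dt w z = 0
      · rw [h0, zero_mul]
        exact h7
      · have h10 : 0 < dt w z := lt_of_le_of_ne h8 (Ne.symm h0)
        have h11 : dt w z * (dt w z * κ) ≤ dt w z * dt w w := by
          calc dt w z * (dt w z * κ) = dt w z ^ 2 * κ := by ring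
            _ ≤ (dt w w * dt z z) * κ := mul_le_mul_of_nonneg_right h5 hκ.le
            _ = dt w w * (κ * dt z z) := by ring
            _ ≤ dt w w * dt w z := mul_le_mul_of_nonneg_left h4 h7
            _ = dt w z * dt w w := by ring
        exact le_of_mul_le_mul_left h11 h10
    exact h2.trans ((mul_le_mul_of_nonneg_right h9 h3).trans
      (mul_le_mul_of_nonneg_left (rc_Rp_le R hε u) (div_nonneg h7 hκ.le)))

end Pool.Agent.H781.KP
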