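import Pool.Agent.H781.KP.B
import Pool.Agent.H781.KP.Cs

/-!
Project KP: nonnegative curvature operators that almost commute with two anticommuting complex
structures have small scalar curvature (`S_HK` from `S_TFM`, `S_HKA`, `S_HKB`; by helper375 for
helper781).
-/

set_option autoImplicit false
set_option synthInstance.maxHeartbeats 400000
set_option maxHeartbeats 4000000
set_option linter.unusedSectionVars false

open MeasureTheory Filter
open scoped Topology ContDiff

noncomputable section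

namespace Pool.Agent.H781.KP

open Pool.Agent.H781.NG Pool.Agent.H781.CM Pool.Agent.H781.H6

namespace Hk

variable {n : ℕ}

theorem hnn {R : T4 n} (hC : COp R 0) (w : Fin n → Fin n → ℝ) (hw : Sk w) : 0 ≤ Cs.Q R w w := by
  rw [Cs.Q_eq]
  have h := hC w hw
  rw [neg_zero, zero_mul] at h
  exact h

theorem Q_single (R : T4 n) (a b : Fin n) :
    Cs.Q R (fun c d => if c = a ∧ d = b then 1 else 0) (fun c d => if c = a ∧ d = b then 1 else 0) =
      - R a b a b := by
  rw [Cs.Q_eq]
  congr 1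
  rw [Finset.sum_eq_single a, Finset.sum_eq_single b, Finset.sum_eq_single a,
    Finset.sum_eq_single b]
  · simp
  · intro d _ hd
    rw [if_neg (fun h : a = a ∧ d = b => hd h.2), mul_zero]
  · intro h
    exact absurd (Finset.mem_univ _) h
  · intro c _ hc
    refine Finset.sum_eq_zero fun d _ => ?_
    rw [if_neg (fun h : c = a ∧ d = b => hc h.1), mul_zero]
  · intro h
    exact absurd (Finset.mem_univ _) h
  · intro d _ hd
    refine Finset.sum_eq_zero fun c _ => Finset.sum_eq_zero fun e _ => ?_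
    rw [if_neg (fun h : a = a ∧ d = b => hd h.2), mul_zero, zero_mul]
  · intro h
    exact absurd (Finset.mem_univ _) h
  · intro c _ hc
    refine Finset.sum_eq_zero fun d _ => Finset.sum_eq_zero fun e _ =>
      Finset.sum_eq_zero fun f _ => ?_
    rw [if_neg (fun h : c = a ∧ d = b => hc h.1), mul_zero, zero_mul]
  · intro h
    exact absurd (Finset.mem_univ _) h

theorem scl_nonneg {R : T4 n} (hR : IsAC R) (hC : COp R 0) : 0 ≤ scl R := by
  unfold scl
  rw [← Finset.sum_neg_distrib]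
  refine Finset.sum_nonneg fun a _ => ?_
  rw [← Finset.sum_neg_distrib]
  refine Finset.sum_nonneg fun b _ => ?_
  rw [← Q_single]
  exact Cs.Q_nonneg hR.a12 hR.pr (hnn hC) _

theorem rc_nonneg {R : T4 n} (hR : IsAC R) (hC : COp R 0) (u : Fk n ℝ) : 0 ≤ rc R u := by
  rw [← Cs.rc_Q]
  exact Finset.sum_nonneg fun S _ => Cs.Q_nonneg hR.a12 hR.pr (hnn hC) _

theorem sk_comm {X A : Fin n → Fin n → ℝ} (hX : Sk X) (hA : Sk A) :
    Sk (fun i j => mm A X i j - mm X A i j) := by
  intro i j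
  have h1 : mm A X i j = mm X A j i := by
    unfold mm
    refine Finset.sum_congr rfl fun c _ => ?_
    rw [hA i c, hX c j]
    ring
  have h2 : mm X A i j = mm A X j i := by
    unfold mm
    refine Finset.sum_congr rfl fun c _ => ?_
    rw [hX i c, hA c j]
    ring
  show mm A X i j - mm X A i j = - (mm A X j i - mm X A j i)
  rw [h1, h2]
  ring

theorem bound (h1 : S_TFM) (h2 : S_HKA) {R : T4 n} (hR : IsAC R) (hC : COp R 0)
    {A : Fin n → Fin n → ℝ} (hA : Sk A) (w : Fin n → Fin n → ℝ) (hw : Sk w) :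
    ∑ i, ∑ j, (mm A (Xw R w) i j - mm (Xw R w) A i j) ^ 2 ≤
      scl R * rc R (wX A vac) / 2 * ∑ i, ∑ j, w i j ^ 2 := by
  obtain ⟨hX, hQ, hip⟩ := h2 n R hR hC w hw
  obtain ⟨-, hipf, hd⟩ := h1 n
  have e1 := hip (wX A vac)
  rw [hd (Xw R w) A hX hA, hipf _ _ (sk_comm hX hA) (sk_comm hX hA)] at e1
  have e2 : ∑ i, ∑ j, (mm A (Xw R w) i j - mm (Xw R w) A i j) *
      (mm A (Xw R w) i j - mm (Xw R w) A i j) =
      ∑ i, ∑ j, (mm A (Xw R w) i j - mm (Xw R w) A i j) ^ 2 :=
    Finset.sum_congr rfl fun i _ => Finset.sum_congr rfl fun j _ => by ring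
  rw [e2] at e1
  have e3 := mul_le_mul_of_nonneg_right hQ (rc_nonneg hR hC (wX A vac))
  have e4 : scl R * rc R (wX A vac) / 2 * ∑ i, ∑ j, w i j ^ 2 =
      (scl R * (∑ i, ∑ j, w i j ^ 2) * rc R (wX A vac)) / 2 := by ring
  rw [e4]
  linarith

end Hk

open Hk in
theorem s_hk (h1 : S_TFM) (h2 : S_HKA) (h3 : S_HKB) : S_HK := by
  intro n
  obtain ⟨K, hK, hall⟩ := h3 n
  refine ⟨K ^ 2, sq_nonneg K, ?_⟩
  intro R A B hR hC hA hB hAA hBB hAB
  have hs := scl_nonneg hR hC
  have ha := rc_nonneg hR hC (wX A vac)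
  have hb := rc_nonneg hR hC (wX B vac)
  have hs1 : 0 ≤ scl R * rc R (wX A vac) / 2 := by positivity
  have ht1 : 0 ≤ scl R * rc R (wX B vac) / 2 := by positivity
  have hm := hall R A B _ _ hR hA hB hAA hBB hAB hs1 ht1
    (fun w hw => bound h1 h2 hR hC hA w hw) (fun w hw => bound h1 h2 hR hC hB w hw)
  set a := rc R (wX A vac)
  set b := rc R (wX B vac)
  set s := scl R
  have q1 := Real.sq_sqrt hs1
  have q2 := Real.sq_sqrt ht1
  set p := √(s * a / 2)
  set q := √(s * b / 2)
  have hp : 0 ≤ p := Real.sqrt_nonneg _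
  have hq : 0 ≤ q := Real.sqrt_nonneg _
  by_cases h0 : s = 0
  · rw [h0]
    positivity
  · have hs0 : 0 < s := lt_of_le_of_ne hs (Ne.symm h0)
    have e1 : s ^ 2 ≤ (K * (p + q)) ^ 2 := pow_le_pow_left₀ hs hm 2
    have e2 : (K * (p + q)) ^ 2 ≤ K ^ 2 * (2 * (p ^ 2 + q ^ 2)) := by
      rw [mul_pow]
      refine mul_le_mul_of_nonneg_left ?_ (sq_nonneg K)
      nlinarith [sq_nonneg (p - q)]
    rw [q1, q2] at e2
    have e3 : s * s ≤ s * (K ^ 2 * (a + b)) := by
      calc s * s = s ^ 2 := by ring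
        _ ≤ K ^ 2 * (2 * (s * a / 2 + s * b / 2)) := e1.trans e2
        _ = s * (K ^ 2 * (a + b)) := by ring
    exact le_of_mul_le_mul_left e3 hs0

end Pool.Agent.H781.KP
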