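import Pool.Agent.H781.KP.B
import Pool.Agent.H781.KP.Cs

/-!
Project KP, second Betti number: the Cauchy-Schwarz inequality of a nonnegative curvature
operator (`S_HKA`; by helper30 for helper781).
-/

set_option autoImplicit false
set_option synthInstance.maxHeartbeats 400000
set_option maxHeartbeats 4000000
set_option linter.unusedSectionVars false

open MeasureTheory Filter
open scoped Topology ContDiff

noncomputable section

namespace Pool.Agent.H781.KP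

open Pool.Agent.H781.NG Pool.Agent.H781.CM Pool.Agent.H781.H6

namespace Hka

variable {n : ℕ}

/-- the form is nonnegative on skew matrices -/
theorem nn {R : T4 n} (hC : COp R 0) (w : Fin n → Fin n → ℝ) (hw : Sk w) : 0 ≤ Cs.Q R w w := by
  rw [Cs.Q_eq]
  have h := hC w hw
  rw [neg_zero, zero_mul] at h
  exact h

/-- elementary matrices -/
def E (p : Fin n × Fin n) : Fin n → Fin n → ℝ := fun a b => if (a, b) = p then 1 else 0

theorem E_self (p : Fin n × Fin n) : E p p.1 p.2 = 1 := by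
  show (if (p.1, p.2) = p then (1 : ℝ) else 0) = 1
  exact if_pos rfl

theorem E_ne {p q : Fin n × Fin n} (h : q ≠ p) : E p q.1 q.2 = 0 := by
  show (if (q.1, q.2) = p then (1 : ℝ) else 0) = 0
  exact if_neg h

theorem Q_E (T : T4 n) (p : Fin n × Fin n) (y : Fin n → Fin n → ℝ) :
    Cs.Q T (E p) y = - ∑ q : Fin n × Fin n, T p.1 p.2 q.1 q.2 * y q.1 q.2 := by
  unfold Cs.Q
  rw [Finset.sum_eq_single p]
  · congr 1
    refine Finset.sum_congr rfl fun q _ => ?_
    rw [E_self, mul_one]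
  · intro b _ hb
    refine Finset.sum_eq_zero fun q _ => ?_
    rw [E_ne hb]
    ring
  · intro h
    exact absurd (Finset.mem_univ p) h

theorem Q_sum (T : T4 n) (x y : Fin n → Fin n → ℝ) :
    Cs.Q T x y = ∑ p : Fin n × Fin n, x p.1 p.2 * Cs.Q T (E p) y := by
  simp only [Q_E]
  unfold Cs.Q
  rw [← Finset.sum_neg_distrib]
  refine Finset.sum_congr rfl fun p _ => ?_
  rw [mul_neg, Finset.mul_sum]
  congr 1
  exact Finset.sum_congr rfl fun q _ => by ring

theorem Q_EE (T : T4 n) (p : Fin n × Fin n) : Cs.Q T (E p) (E p) = - T p.1 p.2 p.1 p.2 := by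
  rw [Q_E, Finset.sum_eq_single p]
  · rw [E_self, mul_one]
  · intro b _ hb
    rw [E_ne hb, mul_zero]
  · intro h
    exact absurd (Finset.mem_univ p) h

theorem scl_eq (R : T4 n) : scl R = ∑ p : Fin n × Fin n, Cs.Q R (E p) (E p) := by
  unfold scl
  simp only [Q_EE, Finset.sum_neg_distrib]
  rw [Fintype.sum_prod_type]

theorem Qw_eq (R : T4 n) (w : Fin n → Fin n → ℝ) : Qw R w = Cs.Q R w w := by
  rw [Cs.Q_eq]
  rfl

theorem Xw_eq (R : T4 n) (w : Fin n → Fin n → ℝ) : Xw R w = Cs.Ax R w := by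
  funext c d
  unfold Xw Cs.Ax
  rw [Fintype.sum_prod_type]

/-- the trace bound -/
theorem trb {R : T4 n} (hR : IsAC R) (hC : COp R 0) (w : Fin n → Fin n → ℝ) :
    Cs.Q R w w ≤ scl R * ∑ a, ∑ b, w a b ^ 2 := by
  have hW : ∑ a, ∑ b, w a b ^ 2 = ∑ p : Fin n × Fin n, w p.1 p.2 ^ 2 := by
    rw [Fintype.sum_prod_type]
  have h0 : 0 ≤ Cs.Q R w w := Cs.Q_nonneg hR.a12 hR.pr (nn hC) w
  have hW0 : 0 ≤ ∑ p : Fin n × Fin n, w p.1 p.2 ^ 2 := Finset.sum_nonneg fun _ _ => sq_nonneg _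
  have hS0 : 0 ≤ scl R := by
    rw [scl_eq]
    exact Finset.sum_nonneg fun p _ => Cs.Q_nonneg hR.a12 hR.pr (nn hC) (E p)
  rw [hW]
  by_cases hq : Cs.Q R w w = 0
  · rw [hq]
    exact mul_nonneg hS0 hW0
  · have hpos : 0 < Cs.Q R w w := lt_of_le_of_ne h0 (Ne.symm hq)
    have h1 := Finset.sum_mul_sq_le_sq_mul_sq Finset.univ (fun p : Fin n × Fin n => w p.1 p.2)
      (fun p => Cs.Q R (E p) w)
    rw [← Q_sum] at h1
    have h2 : ∑ p : Fin n × Fin n, Cs.Q R (E p) w ^ 2 ≤ scl R * Cs.Q R w w := by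
      rw [scl_eq, Finset.sum_mul]
      exact Finset.sum_le_sum fun p _ => Cs.Q_cs hR.a12 hR.pr (nn hC) (E p) w
    have h3 : Cs.Q R w w * Cs.Q R w w ≤
        Cs.Q R w w * (scl R * ∑ p : Fin n × Fin n, w p.1 p.2 ^ 2) := by
      calc Cs.Q R w w * Cs.Q R w w = Cs.Q R w w ^ 2 := by ring
        _ ≤ (∑ p : Fin n × Fin n, w p.1 p.2 ^ 2) * ∑ p : Fin n × Fin n, Cs.Q R (E p) w ^ 2 := h1
        _ ≤ (∑ p : Fin n × Fin n, w p.1 p.2 ^ 2) * (scl R * Cs.Q R w w) :=
          mul_le_mul_of_nonneg_left h2 hW0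
        _ = Cs.Q R w w * (scl R * ∑ p : Fin n × Fin n, w p.1 p.2 ^ 2) := by ring
    exact le_of_mul_le_mul_left h3 hpos

theorem sk {R : T4 n} (hR : IsAC R) (w : Fin n → Fin n → ℝ) : Sk (Xw R w) := by
  intro c d
  unfold Xw
  rw [← Finset.sum_neg_distrib]
  refine Finset.sum_congr rfl fun a _ => ?_
  rw [← Finset.sum_neg_distrib]
  refine Finset.sum_congr rfl fun b _ => ?_
  rw [hR.a34 a b c d]
  ring

theorem dXb {R : T4 n} (hR : IsAC R) (hC : COp R 0) (w : Fin n → Fin n → ℝ) (u : Fk n ℝ) :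
    ip (dX (Cs.Ax R w) u) (dX (Cs.Ax R w) u) ≤ Cs.Q R w w * rc R u := by
  have h1 : ∀ S, (dX (Cs.Ax R w) u S) * (dX (Cs.Ax R w) u S) ≤
      Cs.Q R w w * Cs.Q R (fun a b => cr b (an a u) S) (fun a b => cr b (an a u) S) := by
    intro S
    rw [Cs.dX_apply, Cs.Ax_pair]
    have h2 := Cs.Q_cs hR.a12 hR.pr (nn hC) w (fun a b => cr b (an a u) S)
    nlinarith
  rw [← Cs.rc_Q, Finset.mul_sum]
  exact Finset.sum_le_sum fun S _ => h1 S

end Hka

theorem s_hka : S_HKA := by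
  intro n R hR hC w _
  refine ⟨Hka.sk hR w, ?_, ?_⟩
  · rw [Hka.Qw_eq]
    exact Hka.trb hR hC w
  · intro u
    rw [Hka.Xw_eq, Hka.Qw_eq]
    exact Hka.dXb hR hC w u

end Pool.Agent.H781.KP
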