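import Pool.Agent.H781.KP.B

/-!
Project KB: curvature tensors that almost commute with two anticommuting complex structures have
small scalar curvature (helper969).
-/

set_option autoImplicit false
set_option synthInstance.maxHeartbeats 400000
set_option maxHeartbeats 4000000
set_option linter.unusedSectionVars false

open MeasureTheory Filter
open scoped Topology ContDiff

noncomputable section

namespace Pool.Agent.H781.KP

open Pool.Agent.H781.NG Pool.Agent.H781.CM Pool.Agent.H781.H6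

namespace Hkb

variable {n : ℕ}

/-- a matrix -/
abbrev Mt (n : ℕ) : Type := Matrix (Fin n) (Fin n) ℝ

theorem tri (A N : Mt n) (i k : Fin n) :
    (A * N * A) i k = ∑ b, ∑ d, A i b * N b d * A d k := by
  rw [Matrix.mul_apply]
  simp only [Matrix.mul_apply, Finset.sum_mul]
  rw [Finset.sum_comm]

/-- the sum with the first Bianchi identity -/
theorem key (R : T4 n) (hR : IsAC R) (A : Mt n) (hA : ∀ a b, A a b = - A b a) (j : Fin n) :
    ∑ b, ∑ c, ∑ d, A b j * A c d * R j b c d =
      ∑ c, ((A * (Matrix.of (R j c) : Mt n) * A) j c -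
        (A * (Matrix.of (R c j) : Mt n) * A) j c) := by
  have h1 : ∑ d, (A * (Matrix.of (R j d) : Mt n) * A) j d =
      - ∑ b, ∑ c, ∑ d, A b j * A c d * R b c j d := by
    simp only [tri, Matrix.of_apply]
    rw [Finset.sum_comm, ← Finset.sum_neg_distrib]
    refine Finset.sum_congr rfl fun b _ => ?_
    rw [Finset.sum_comm, ← Finset.sum_neg_distrib]
    refine Finset.sum_congr rfl fun c _ => ?_
    rw [← Finset.sum_neg_distrib]
    refine Finset.sum_congr rfl fun d _ => ?_
    rw [hR.pr j d b c, hA j b]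
    ring
  have h2 : ∑ c, (A * (Matrix.of (R c j) : Mt n) * A) j c =
      ∑ b, ∑ c, ∑ d, A b j * A c d * R c j b d := by
    simp only [tri, Matrix.of_apply]
    rw [Finset.sum_comm]
    refine Finset.sum_congr rfl fun b _ => ?_
    refine Finset.sum_congr rfl fun c _ => ?_
    refine Finset.sum_congr rfl fun d _ => ?_
    rw [hA j b, hA d c]
    ring
  rw [Finset.sum_sub_distrib, h1, h2, ← Finset.sum_neg_distrib, ← Finset.sum_sub_distrib]
  refine Finset.sum_congr rfl fun b _ => ?_
  rw [← Finset.sum_neg_distrib, ← Finset.sum_sub_distrib]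
  refine Finset.sum_congr rfl fun c _ => ?_
  rw [← Finset.sum_neg_distrib, ← Finset.sum_sub_distrib]
  refine Finset.sum_congr rfl fun d _ => ?_
  have h3 := hR.bi j b c d
  have h4 : R j b c d = - R b c j d - R c j b d := by linarith
  rw [h4]
  ring

/-- the trace of `A N` -/
theorem tr2 (A B N : Mt n) (hB : B * B = -1) (hAB : A * B + B * A = 0) :
    2 * Matrix.trace (A * N) = Matrix.trace (A * (B * N - N * B) * B) := by
  have h1 : B * A = -(A * B) := eq_neg_of_add_eq_zero_right hAB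
  have h2 : A * (B * N - N * B) * B = A * B * N * B + A * N := by
    have e : A * N * (B * B) = -(A * N) := by rw [hB, mul_neg, mul_one]
    calc A * (B * N - N * B) * B = A * B * N * B - A * N * (B * B) := by noncomm_ring
      _ = A * B * N * B + A * N := by rw [e, sub_neg_eq_add]
  have h3 : Matrix.trace (A * B * N * B) = Matrix.trace (A * N) := by
    rw [Matrix.trace_mul_comm]
    have e : B * (A * B * N) = A * N := by
      calc B * (A * B * N) = (B * A) * B * N := by noncomm_ring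
        _ = -(A * (B * B)) * N := by rw [h1]; noncomm_ring
        _ = A * N := by rw [hB, mul_neg, mul_one, neg_neg]
    rw [e]
  rw [h2, Matrix.trace_add, h3]
  ring

theorem ana (A N : Mt n) (hA : A * A = -1) : A * N * A = -N + (A * N - N * A) * A := by
  have e : N * (A * A) = -N := by rw [hA, mul_neg, mul_one]
  have e2 : (A * N - N * A) * A = A * N * A - N * (A * A) := by noncomm_ring
  rw [e2, e]
  abel

theorem mul_bd (X Y : Mt n) {x y : ℝ} (hX : ∀ i j, |X i j| ≤ x) (hY : ∀ i j, |Y i j| ≤ y)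
    (i j : Fin n) : |(X * Y) i j| ≤ n * (x * y) := by
  rw [Matrix.mul_apply]
  refine (Finset.abs_sum_le_sum_abs _ _).trans ?_
  refine (Finset.sum_le_sum (g := fun _ => x * y) fun k _ => ?_).trans (le_of_eq ?_)
  · rw [abs_mul]
    exact mul_le_mul (hX i k) (hY k j) (abs_nonneg _) ((abs_nonneg _).trans (hX i k))
  · rw [Finset.sum_const, Finset.card_univ, Fintype.card_fin, nsmul_eq_mul]

theorem tr_bd (X : Mt n) {x : ℝ} (hX : ∀ i j, |X i j| ≤ x) : |Matrix.trace X| ≤ n * x := by
  unfold Matrix.trace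
  refine (Finset.abs_sum_le_sum_abs _ _).trans ?_
  refine (Finset.sum_le_sum (g := fun _ => x) fun k _ => hX k k).trans (le_of_eq ?_)
  rw [Finset.sum_const, Finset.card_univ, Fintype.card_fin, nsmul_eq_mul]

/-- the entries of an orthogonal complex structure -/
theorem ent (A : Fin n → Fin n → ℝ) (hs : Sk A)
    (h2 : ∀ i j, mm A A i j = if i = j then -1 else 0) (i j : Fin n) : |A i j| ≤ 1 := by
  have h3 := h2 i i
  rw [if_pos rfl] at h3
  unfold mm at h3
  have h4 : ∑ c, A i c ^ 2 = 1 := by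
    have e : ∑ c, A i c ^ 2 = - ∑ c, A i c * A c i := by
      rw [← Finset.sum_neg_distrib]
      refine Finset.sum_congr rfl fun c _ => ?_
      rw [hs c i]
      ring
    rw [e, h3]
    norm_num
  have h5 : A i j ^ 2 ≤ 1 := by
    rw [← h4]
    exact Finset.single_le_sum (f := fun c => A i c ^ 2) (fun c _ => sq_nonneg _)
      (Finset.mem_univ j)
  rw [← Real.sqrt_one]
  exact Real.abs_le_sqrt h5

theorem mat2 (A : Fin n → Fin n → ℝ) (h2 : ∀ i j, mm A A i j = if i = j then -1 else 0) :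
    (Matrix.of A : Mt n) * (Matrix.of A : Mt n) = -1 := by
  ext i j
  rw [Matrix.mul_apply, Matrix.neg_apply, Matrix.one_apply]
  simp only [Matrix.of_apply]
  refine (h2 i j).trans ?_
  split_ifs
  · rfl
  · rw [neg_zero]

theorem mat0 (A B : Fin n → Fin n → ℝ) (h2 : ∀ i j, mm A B i j + mm B A i j = 0) :
    (Matrix.of A : Mt n) * (Matrix.of B : Mt n) + (Matrix.of B : Mt n) * (Matrix.of A : Mt n) =
      0 := by
  ext i j
  rw [Matrix.add_apply, Matrix.mul_apply, Matrix.mul_apply, Matrix.zero_apply]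
  simp only [Matrix.of_apply]
  exact h2 i j

/-- half of the 2-form `e_c ∧ e_j` -/
def wcj (c j : Fin n) : Fin n → Fin n → ℝ := fun a b =>
  (1 / 2) * ((if a = c then 1 else 0) * (if b = j then 1 else 0) -
    (if a = j then 1 else 0) * (if b = c then 1 else 0))

theorem wcj_sk (c j : Fin n) : Sk (wcj c j) := by
  intro a b
  unfold wcj
  ring

theorem sum_dd (f : Fin n → Fin n → ℝ) (c j : Fin n) :
    ∑ a, ∑ b, f a b * ((if a = c then 1 else 0) * (if b = j then 1 else 0)) = f c j := by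
  rw [Finset.sum_eq_single c]
  · rw [Finset.sum_eq_single j]
    · rw [if_pos rfl, if_pos rfl, one_mul, mul_one]
    · intro b _ hb
      rw [if_neg hb, mul_zero, mul_zero]
    · intro h
      exact absurd (Finset.mem_univ _) h
  · intro a _ ha
    refine Finset.sum_eq_zero fun b _ => ?_
    rw [if_neg ha, zero_mul, mul_zero]
  · intro h
    exact absurd (Finset.mem_univ _) h

theorem wcj_X (R : T4 n) (hR : IsAC R) (c j : Fin n) : Xw R (wcj c j) = R c j := by
  funext p q
  unfold Xw wcj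
  have e : ∀ a b, R a b p q * (1 / 2 * ((if a = c then (1 : ℝ) else 0) * (if b = j then 1 else 0) -
      (if a = j then 1 else 0) * (if b = c then 1 else 0))) =
      1 / 2 * (R a b p q * ((if a = c then 1 else 0) * (if b = j then 1 else 0))) -
      1 / 2 * (R a b p q * ((if a = j then 1 else 0) * (if b = c then 1 else 0))) := by
    intro a b
    ring
  simp only [e, Finset.sum_sub_distrib, ← Finset.mul_sum]
  rw [sum_dd (fun a b => R a b p q) c j, sum_dd (fun a b => R a b p q) j c, hR.a12 j c p q]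
  ring

theorem wcj_n (c j : Fin n) : ∑ a, ∑ b, wcj c j a b ^ 2 ≤ 1 := by
  have h1 : ∀ a b, wcj c j a b ^ 2 ≤
      (1 / 2 : ℝ) * ((if a = c then 1 else 0) * (if b = j then 1 else 0)) +
      (1 / 2 : ℝ) * ((if a = j then 1 else 0) * (if b = c then 1 else 0)) := by
    intro a b
    unfold wcj
    split_ifs <;> norm_num
  refine (Finset.sum_le_sum fun a _ => Finset.sum_le_sum fun b _ => h1 a b).trans ?_
  have e1 := sum_dd (fun _ _ => (1 / 2 : ℝ)) c j
  have e2 := sum_dd (fun _ _ => (1 / 2 : ℝ)) j c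
  simp only [Finset.sum_add_distrib]
  rw [e1, e2]
  norm_num

/-- the entries of the commutators -/
theorem com (R : T4 n) (hR : IsAC R) (A : Fin n → Fin n → ℝ) {s : ℝ} (hs : 0 ≤ s)
    (h : ∀ w, Sk w → ∑ i, ∑ j, (mm A (Xw R w) i j - mm (Xw R w) A i j) ^ 2 ≤
      s * ∑ i, ∑ j, w i j ^ 2) (c j p q : Fin n) :
    |((Matrix.of A : Mt n) * (Matrix.of (R c j) : Mt n) -
      (Matrix.of (R c j) : Mt n) * (Matrix.of A : Mt n)) p q| ≤ √s := by
  have h1 := h (wcj c j) (wcj_sk c j)
  rw [wcj_X R hR c j] at h1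
  have h2 : s * ∑ a, ∑ b, wcj c j a b ^ 2 ≤ s := by
    calc s * ∑ a, ∑ b, wcj c j a b ^ 2 ≤ s * 1 := mul_le_mul_of_nonneg_left (wcj_n c j) hs
      _ = s := mul_one s
  have h3 : (mm A (R c j) p q - mm (R c j) A p q) ^ 2 ≤
      ∑ i, ∑ k, (mm A (R c j) i k - mm (R c j) A i k) ^ 2 := by
    refine le_trans ?_ (Finset.single_le_sum
      (f := fun i => ∑ k, (mm A (R c j) i k - mm (R c j) A i k) ^ 2)
      (fun i _ => Finset.sum_nonneg fun k _ => sq_nonneg _) (Finset.mem_univ p))
    exact Finset.single_le_sum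
      (f := fun k => (mm A (R c j) p k - mm (R c j) A p k) ^ 2)
      (fun k _ => sq_nonneg _) (Finset.mem_univ q)
  have h4 : (mm A (R c j) p q - mm (R c j) A p q) ^ 2 ≤ s := h3.trans (h1.trans h2)
  have h5 : ((Matrix.of A : Mt n) * (Matrix.of (R c j) : Mt n) -
      (Matrix.of (R c j) : Mt n) * (Matrix.of A : Mt n)) p q =
      mm A (R c j) p q - mm (R c j) A p q := by
    rw [Matrix.sub_apply, Matrix.mul_apply, Matrix.mul_apply]
    rfl
  rw [h5]
  exact Real.abs_le_sqrt h4

end Hkb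

open Hkb in
theorem s_hkb : S_HKB := by
  intro n
  refine ⟨(n : ℝ) ^ 5 + (n : ℝ) ^ 3, by positivity, ?_⟩
  intro R A B s t hR hAs hBs hA2 hB2 hAB hs ht hsA htB
  set σ : ℝ := √s with hσ
  set τ : ℝ := √t with hτ
  have hσ0 : 0 ≤ σ := Real.sqrt_nonneg s
  have hτ0 : 0 ≤ τ := Real.sqrt_nonneg t
  have hn0 : (0 : ℝ) ≤ n := Nat.cast_nonneg n
  set Am : Mt n := Matrix.of A with hAm
  set Bm : Mt n := Matrix.of B with hBm
  have hAA : Am * Am = -1 := mat2 A hA2
  have hBB : Bm * Bm = -1 := mat2 B hB2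
  have hABm : Am * Bm + Bm * Am = 0 := mat0 A B hAB
  have hAe : ∀ i j, |Am i j| ≤ 1 := ent A hAs hA2
  have hBe : ∀ i j, |Bm i j| ≤ 1 := ent B hBs hB2
  have hE : ∀ c j p q, |(Am * (Matrix.of (R c j) : Mt n) - (Matrix.of (R c j) : Mt n) * Am) p q| ≤
      σ := fun c j p q => com R hR A hs hsA c j p q
  have hF : ∀ c j p q, |(Bm * (Matrix.of (R c j) : Mt n) - (Matrix.of (R c j) : Mt n) * Bm) p q| ≤
      τ := fun c j p q => com R hR B ht htB c j p q
  -- the traces
  have htr : ∀ c j, |Matrix.trace (Am * (Matrix.of (R c j) : Mt n))| ≤ (n : ℝ) ^ 3 * τ / 2 := by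
    intro c j
    have h1 := tr2 Am Bm (Matrix.of (R c j) : Mt n) hBB hABm
    have h2 := tr_bd _ (mul_bd _ Bm (mul_bd Am _ hAe (hF c j)) hBe)
    rw [← h1, abs_mul, abs_of_pos (by norm_num : (0 : ℝ) < 2)] at h2
    have e : (n : ℝ) * (n * (n * (1 * τ) * 1)) = (n : ℝ) ^ 3 * τ := by ring
    rw [e] at h2
    linarith
  have htr' : ∀ c j, |∑ p, ∑ q, A p q * R c j p q| ≤ (n : ℝ) ^ 3 * τ / 2 := by
    intro c j
    have h1 := htr c j
    have h2 : Matrix.trace (Am * (Matrix.of (R c j) : Mt n)) =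
        - ∑ p, ∑ q, A p q * R c j p q := by
      unfold Matrix.trace
      rw [← Finset.sum_neg_distrib]
      refine Finset.sum_congr rfl fun p _ => ?_
      rw [Matrix.diag_apply, Matrix.mul_apply, ← Finset.sum_neg_distrib]
      refine Finset.sum_congr rfl fun q _ => ?_
      rw [hAm, Matrix.of_apply, Matrix.of_apply, hR.a34 c j q p]
      ring
    rw [h2, abs_neg] at h1
    exact h1
  -- the sums
  have hS : ∀ j, |∑ b, ∑ c, ∑ d, Am b j * Am c d * R j b c d| ≤ (n : ℝ) ^ 4 * τ / 2 := by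
    intro j
    have e : ∀ b, ∑ c, ∑ d, Am b j * Am c d * R j b c d =
        Am b j * ∑ c, ∑ d, A c d * R j b c d := by
      intro b
      rw [Finset.mul_sum]
      refine Finset.sum_congr rfl fun c _ => ?_
      rw [Finset.mul_sum]
      refine Finset.sum_congr rfl fun d _ => ?_
      rw [mul_assoc]
      rfl
    simp only [e]
    refine (Finset.abs_sum_le_sum_abs _ _).trans ?_
    refine (Finset.sum_le_sum (g := fun _ => (n : ℝ) ^ 3 * τ / 2) fun b _ => ?_).trans
      (le_of_eq ?_)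
    · rw [abs_mul]
      calc |Am b j| * |∑ c, ∑ d, A c d * R j b c d| ≤ 1 * ((n : ℝ) ^ 3 * τ / 2) :=
            mul_le_mul (hAe b j) (htr' j b) (abs_nonneg _) zero_le_one
        _ = (n : ℝ) ^ 3 * τ / 2 := one_mul _
    · rw [Finset.sum_const, Finset.card_univ, Fintype.card_fin, nsmul_eq_mul]
      ring
  have hEA : ∀ c j p q,
      |((Am * (Matrix.of (R c j) : Mt n) - (Matrix.of (R c j) : Mt n) * Am) * Am) p q| ≤
        n * σ := by
    intro c j p q
    have h1 := mul_bd _ Am (hE c j) hAe p q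
    rw [mul_one] at h1
    exact h1
  have hj : ∀ j, - ∑ c, R j c j c ≤ (n : ℝ) ^ 4 * τ / 4 + (n : ℝ) ^ 2 * σ := by
    intro j
    have h1 := key R hR Am (fun a b => hAs a b) j
    have h2 : ∀ c, (Am * (Matrix.of (R j c) : Mt n) * Am) j c -
        (Am * (Matrix.of (R c j) : Mt n) * Am) j c = -2 * R j c j c +
        (((Am * (Matrix.of (R j c) : Mt n) - (Matrix.of (R j c) : Mt n) * Am) * Am) j c -
        ((Am * (Matrix.of (R c j) : Mt n) - (Matrix.of (R c j) : Mt n) * Am) * Am) j c) := by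
      intro c
      rw [ana Am (Matrix.of (R j c) : Mt n) hAA, ana Am (Matrix.of (R c j) : Mt n) hAA]
      simp only [Matrix.add_apply, Matrix.neg_apply, Matrix.of_apply]
      rw [hR.a12 c j j c]
      ring
    simp only [h2] at h1
    rw [Finset.sum_add_distrib, ← Finset.mul_sum] at h1
    have h3 := hS j
    have h4 : |∑ c, (((Am * (Matrix.of (R j c) : Mt n) - (Matrix.of (R j c) : Mt n) * Am) * Am) j c -
        ((Am * (Matrix.of (R c j) : Mt n) - (Matrix.of (R c j) : Mt n) * Am) * Am) j c)| ≤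
        2 * (n : ℝ) ^ 2 * σ := by
      refine (Finset.abs_sum_le_sum_abs _ _).trans ?_
      refine (Finset.sum_le_sum (g := fun _ => n * σ + n * σ) fun c _ => ?_).trans
        (le_of_eq ?_)
      · exact (abs_sub _ _).trans (add_le_add (hEA j c j c) (hEA c j j c))
      · rw [Finset.sum_const, Finset.card_univ, Fintype.card_fin, nsmul_eq_mul]
        ring
    rw [abs_le] at h3 h4
    linarith [h3.1, h3.2, h4.1, h4.2]
  have hscl : scl R = ∑ j, - ∑ c, R j c j c := by
    unfold scl
    rw [← Finset.sum_neg_distrib]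
  rw [hscl]
  refine (Finset.sum_le_sum fun j _ => hj j).trans ?_
  rw [Finset.sum_const, Finset.card_univ, Fintype.card_fin, nsmul_eq_mul]
  have e : (n : ℝ) * ((n : ℝ) ^ 4 * τ / 4 + (n : ℝ) ^ 2 * σ) =
      (n : ℝ) ^ 5 * τ / 4 + (n : ℝ) ^ 3 * σ := by ring
  rw [e]
  have h5 : 0 ≤ (n : ℝ) ^ 5 * τ := by positivity
  have h6 : 0 ≤ (n : ℝ) ^ 5 * σ := by positivity
  have h7 : 0 ≤ (n : ℝ) ^ 3 * τ := by positivity
  have e2 : ((n : ℝ) ^ 5 + (n : ℝ) ^ 3) * (σ + τ) =
      (n : ℝ) ^ 5 * σ + (n : ℝ) ^ 5 * τ + (n : ℝ) ^ 3 * σ + (n : ℝ) ^ 3 * τ := by ring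
  rw [e2]
  linarith

end Pool.Agent.H781.KP
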