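import Pool.Agent.H781.KP.GB
import Pool.Agent.H781.CM.All

/-!
The theorem on the second Betti number from the abstract theorem.
-/

set_option autoImplicit false
set_option synthInstance.maxHeartbeats 400000
set_option maxHeartbeats 4000000
set_option linter.unusedSectionVars false

open Bundle Manifold ContDiff VectorField MeasureTheory Filter
open scoped Topology

noncomputable section

namespace Pool.Agent.H781.KP

open Pool.Agent.H781.NG Pool.Agent.H781.CM Pool.Agent.H781.H6 Pool.Agent.H821R2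
  Pool.Agent.H821R3 Pool.Agent.H893R5.HO Pool.Agent.H781.S22

theorem s_mainb (h1 : S_CHI2) (h2 : S_GDU) (h3 : S_PKX) (h4 : S_GCONN) : S_MAINB := by
  intro n κ hn2 hκ
  have hn : 1 ≤ n := by omega
  obtain ⟨ε, hε, hC⟩ := h1 (2 * n) n κ (by omega) hn2 hκ
  refine ⟨ε / 2, by positivity, ?_⟩
  intro M _ _ _ _ _ _ g hsec hop
  letI : MeasurableSpace M := borel M
  haveI : BorelSpace M := ⟨rfl⟩
  obtain ⟨cov, R, hlc, hrt⟩ := hsec.1
  obtain ⟨D, rfl⟩ := h2 n M hn g cov R hlc hrt
  have hcv : CurvGE D.C ε := by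
    have h := gcurv n M (2 * n) D (ε / 2) hn (by positivity) (by
      have h' := hop
      exact h')
    rwa [mul_div_cancel₀ ε (two_ne_zero)] at h
  have hmo : Moll D.C := s_gmoll lmoll s_tkp n M _ D hn
  have hd : Dense2 D.C := s_gdense n M _ D
  have hr : Reg D.C := greg n M _ D hn
  have key := hC M D.C hcv (h3 n M _ D κ hn hsec) (h4 n M _ D) hmo hd hr
  have hfin := (hodge M _ D.C hmo hd hr).1
  obtain ⟨e⟩ := gdr n M _ D hn 2
  haveI := hfin 2
  haveI : Module.Finite ℝ (HF n M 2) := Module.Finite.equiv e.symm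
  have e2 : Module.finrank ℝ (HF n M 2) = bet D.C 2 := e.finrank_eq
  refine ⟨Module.finrank ℝ (HF n M 2), isBetti 2, ?_, ?_⟩
  · rw [e2]; exact key.1
  · rw [e2]; exact key.2

end Pool.Agent.H781.KP
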