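import Pool.Agent.H781.KP.B

/-!
Project KP: no 2-forms in odd dimensions.
-/

set_option autoImplicit false
set_option synthInstance.maxHeartbeats 400000
set_option maxHeartbeats 4000000
set_option linter.unusedSectionVars false

open MeasureTheory Filter
open scoped Topology ContDiff

noncomputable section

namespace Pool.Agent.H781.KP

open Pool.Agent.H781.NG Pool.Agent.H781.CM Pool.Agent.H781.H6

namespace On2

/-- a skew-symmetric matrix of odd size with scalar square is zero -/
theorem zero_of_sq {n : ℕ} (hn : Odd n) (A : Fin n → Fin n → ℝ) (hA : Sk A) (l : ℝ)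
    (h : ∀ i j, mm A A i j + mm A A i j = if i = j then l else 0) : ∀ i j, A i j = 0 := by
  have hT : (Matrix.of A).transpose = - Matrix.of A := by
    ext i j
    exact hA j i
  have hdet : (Matrix.of A).det = 0 := by
    have h1 := Matrix.det_transpose (Matrix.of A)
    rw [hT, Matrix.det_neg, Fintype.card_fin, hn.neg_one_pow] at h1
    linarith
  have hsq : (Matrix.of A) * (Matrix.of A) = (l / 2) • (1 : Matrix (Fin n) (Fin n) ℝ) := by
    ext i j
    have h1 := h i j
    rw [Matrix.mul_apply, Matrix.smul_apply, Matrix.one_apply]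
    have h2 : ∑ c, (Matrix.of A) i c * (Matrix.of A) c j = mm A A i j := rfl
    rw [h2]
    split_ifs at h1 ⊢ with hij
    · rw [smul_eq_mul, mul_one]
      linarith
    · rw [smul_eq_mul, mul_zero]
      linarith
  have hl : l = 0 := by
    have h1 : ((Matrix.of A) * (Matrix.of A)).det = 0 := by
      rw [Matrix.det_mul, hdet, mul_zero]
    rw [hsq, Matrix.det_smul, Matrix.det_one, mul_one, Fintype.card_fin] at h1
    have h2 : l / 2 = 0 := by
      rw [pow_eq_zero_iff] at h1
      · exact h1
      · intro h0
        rw [h0] at hn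
        exact absurd hn (by decide)
    linarith
  intro i j
  have h1 := h i i
  rw [if_pos rfl, hl] at h1
  have h2 : mm A A i i = - ∑ c, A i c ^ 2 := by
    unfold mm
    rw [← Finset.sum_neg_distrib]
    apply Finset.sum_congr rfl
    intro c _
    rw [hA c i]
    ring
  have h3 : ∑ c, A i c ^ 2 = 0 := by linarith
  have h4 := (Finset.sum_eq_zero_iff_of_nonneg (fun c _ => sq_nonneg (A i c))).mp h3 j
    (Finset.mem_univ j)
  exact pow_eq_zero_iff (two_ne_zero) |>.mp h4

end On2

theorem s_on2 (h1 : S_TFM) (h2 : S_SCM) : S_ON2 := by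
  intro n u hn hu htr
  obtain ⟨A, hA, rfl⟩ := (h1 n).1 u hu
  obtain ⟨l, hl⟩ := h2 n A A hA hA (fun v w hv hw hvw => by
    obtain ⟨X, hX, hXv, hXu⟩ := htr v w hv hw hvw
    exact ⟨X, hX, hXv, hXu, hXu⟩)
  have h0 := On2.zero_of_sq hn A hA l hl
  unfold wX
  apply Finset.sum_eq_zero
  intro i _
  apply Finset.sum_eq_zero
  intro j _
  rw [h0 i j, zero_smul]

end Pool.Agent.H781.KP
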