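import Pool.Agent.H781.KP.B
import Pool.Agent.H781.KP.Cs

/-!
Project KB (MP_4e0d62_gt): bounds of the Weitzenböck form by the scalar curvature (`S_SCB`; by
helper297 for helper781).
-/

set_option autoImplicit false
set_option synthInstance.maxHeartbeats 400000
set_option maxHeartbeats 4000000
set_option linter.unusedSectionVars false

open MeasureTheory Filter
open scoped Topology ContDiff

noncomputable section

namespace Pool.Agent.H781.KP

open Pool.Agent.H781.NG Pool.Agent.H781.CM Pool.Agent.H781.H6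

namespace Scb

open Cs

variable {n : ℕ}

/-- the matrix unit -/
def E (p : Fin n × Fin n) : Fin n → Fin n → ℝ := fun a b => if (a, b) = p then 1 else 0

theorem Q_E (T : T4 n) (p q : Fin n × Fin n) : Q T (E p) (E q) = - T p.1 p.2 q.1 q.2 := by
  unfold Q E
  simp

theorem nn {R : T4 n} (hC : COp R 0) (w : Fin n → Fin n → ℝ) (hw : Sk w) : 0 ≤ Q R w w := by
  rw [Q_eq]
  have h := hC w hw
  rwa [neg_zero, zero_mul] at h

theorem Q_pos {R : T4 n} (hR : IsAC R) (hC : COp R 0) (x : Fin n → Fin n → ℝ) : 0 ≤ Q R x x :=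
  Q_nonneg hR.a12 hR.pr (nn hC) x

theorem diag {R : T4 n} (hR : IsAC R) (hC : COp R 0) (p : Fin n × Fin n) :
    0 ≤ - R p.1 p.2 p.1 p.2 := by
  rw [← Q_E]
  exact Q_pos hR hC _

theorem scl_eq (R : T4 n) : scl R = ∑ p : Fin n × Fin n, - R p.1 p.2 p.1 p.2 := by
  unfold scl
  rw [Finset.sum_neg_distrib, Fintype.sum_prod_type]

theorem Q_le {R : T4 n} (hR : IsAC R) (hC : COp R 0) (w : Fin n → Fin n → ℝ) :
    Q R w w ≤ scl R * ∑ p : Fin n × Fin n, w p.1 p.2 ^ 2 := by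
  have h1 : 2 * Q R w w ≤ ∑ p : Fin n × Fin n, ∑ q : Fin n × Fin n,
      (w p.1 p.2 ^ 2 * (- R q.1 q.2 q.1 q.2) + w q.1 q.2 ^ 2 * (- R p.1 p.2 p.1 p.2)) := by
    unfold Q
    rw [← Finset.sum_neg_distrib, Finset.mul_sum]
    refine Finset.sum_le_sum fun p _ => ?_
    rw [← Finset.sum_neg_distrib, Finset.mul_sum]
    refine Finset.sum_le_sum fun q _ => ?_
    have h2 := Q_pos hR hC (fun a b => w p.1 p.2 * E q a b + (-(w q.1 q.2)) * E p a b)
    rw [Q_lin, Q_comm hR.pr (E p), Q_comm hR.pr (E q), Q_lin, Q_lin, Q_E, Q_E, Q_E, Q_E,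
      hR.pr q.1 q.2 p.1 p.2] at h2
    nlinarith
  have h3 : ∑ p : Fin n × Fin n, ∑ q : Fin n × Fin n,
      (w p.1 p.2 ^ 2 * (- R q.1 q.2 q.1 q.2) + w q.1 q.2 ^ 2 * (- R p.1 p.2 p.1 p.2)) =
      2 * (scl R * ∑ p : Fin n × Fin n, w p.1 p.2 ^ 2) := by
    rw [scl_eq]
    simp only [Finset.sum_add_distrib, ← Finset.mul_sum, ← Finset.sum_mul]
    ring
  rw [h3] at h1
  linarith

theorem rc_nonneg {R : T4 n} (hR : IsAC R) (hC : COp R 0) (u : Fk n ℝ) : 0 ≤ rc R u := by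
  rw [← rc_Q]
  exact Finset.sum_nonneg fun S _ => Q_pos hR hC _

theorem scl_nonneg {R : T4 n} (hR : IsAC R) (hC : COp R 0) : 0 ≤ scl R := by
  rw [scl_eq]
  exact Finset.sum_nonneg fun p _ => diag hR hC p

theorem rc_le {R : T4 n} (hR : IsAC R) (hC : COp R 0) (u : Fk n ℝ) :
    rc R u ≤ (n : ℝ) ^ 2 * scl R * ip u u := by
  rw [← rc_Q]
  have h1 : ∀ S : Finset (Fin n), Q R (fun a b => cr b (an a u) S) (fun a b => cr b (an a u) S) ≤
      scl R * ∑ p : Fin n × Fin n, (cr p.2 (an p.1 u) S) ^ 2 := fun S => Q_le hR hC _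
  refine (Finset.sum_le_sum fun S _ => h1 S).trans ?_
  rw [← Finset.mul_sum, Finset.sum_comm]
  have h2 : ∑ p : Fin n × Fin n, ∑ S : Finset (Fin n), (cr p.2 (an p.1 u) S) ^ 2 ≤
      ∑ p : Fin n × Fin n, ip u u := by
    refine Finset.sum_le_sum fun p _ => ?_
    have h3 := ip_ca_le p.1 p.2 u
    unfold ip at h3
    simpa only [sq, ip] using h3
  have h4 : ∑ p : Fin n × Fin n, ip u u = (n : ℝ) ^ 2 * ip u u := by
    rw [Finset.sum_const, Finset.card_univ, Fintype.card_prod, Fintype.card_fin, nsmul_eq_mul]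
    push_cast
    ring
  rw [h4] at h2
  calc scl R * ∑ p : Fin n × Fin n, ∑ S : Finset (Fin n), (cr p.2 (an p.1 u) S) ^ 2
      ≤ scl R * ((n : ℝ) ^ 2 * ip u u) := mul_le_mul_of_nonneg_left h2 (scl_nonneg hR hC)
    _ = (n : ℝ) ^ 2 * scl R * ip u u := by ring

theorem Q_add {R : T4 n} (hR : IsAC R) (hC : COp R 0) (x y : Fin n → Fin n → ℝ) :
    Q R (fun a b => x a b + y a b) (fun a b => x a b + y a b) ≤ 2 * Q R x x + 2 * Q R y y := by
  have h1 := Q_pos hR hC (fun a b => 1 * x a b + (-1) * y a b)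
  rw [Q_lin, Q_comm hR.pr x, Q_comm hR.pr y, Q_lin, Q_lin, Q_comm hR.pr y x] at h1
  have h2 : (fun a b => x a b + y a b) = fun a b => 1 * x a b + 1 * y a b := by
    funext a b
    ring
  rw [h2, Q_lin, Q_comm hR.pr x, Q_comm hR.pr y, Q_lin, Q_lin, Q_comm hR.pr y x]
  linarith

theorem rc_add {R : T4 n} (hR : IsAC R) (hC : COp R 0) (u v : Fk n ℝ) :
    rc R (u + v) ≤ 2 * rc R u + 2 * rc R v := by
  rw [← rc_Q, ← rc_Q, ← rc_Q, Finset.mul_sum, Finset.mul_sum, ← Finset.sum_add_distrib]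
  refine Finset.sum_le_sum fun S _ => ?_
  have h := Q_add hR hC (fun a b => cr b (an a u) S) (fun a b => cr b (an a v) S)
  have h1 : (fun a b => cr b (an a (u + v)) S) =
      fun a b => cr b (an a u) S + cr b (an a v) S := by
    funext a b
    rw [map_add, map_add, Pi.add_apply]
  rw [h1]
  exact h

theorem kap {R : T4 n} (hR : IsAC R) (hC : COp R 0) (κ : ℝ) (hn : 2 ≤ n) (hK : KGE R κ) :
    κ ≤ scl R := by
  obtain ⟨i, hi⟩ : ∃ i : Fin n, i = ⟨0, by omega⟩ := ⟨_, rfl⟩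
  obtain ⟨j, hj⟩ : ∃ j : Fin n, j = ⟨1, by omega⟩ := ⟨_, rfl⟩
  have hij : i ≠ j := by
    rw [hi, hj]
    intro h
    have := congrArg Fin.val h
    simp at this
  have h1 := hK (fun a => if a = i then 1 else 0) (fun a => if a = j then 1 else 0)
    (by unfold dt; simp) (by unfold dt; simp) (by unfold dt; simp [hij.symm])
  have h2 : R4 R (fun a => if a = i then 1 else 0) (fun a => if a = j then 1 else 0)
      (fun a => if a = j then 1 else 0) (fun a => if a = i then 1 else 0) = R i j j i := by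
    unfold R4
    simp
  rw [h2, hR.a34] at h1
  refine h1.trans ?_
  rw [scl_eq]
  exact Finset.single_le_sum (f := fun p : Fin n × Fin n => - R p.1 p.2 p.1 p.2)
    (fun p _ => diag hR hC p) (Finset.mem_univ (i, j))

end Scb

theorem s_scb : S_SCB := fun n => ⟨(n : ℝ) ^ 2, by positivity, fun R hR hC =>
  ⟨Scb.scl_nonneg hR hC, fun u => ⟨Scb.rc_nonneg hR hC u, Scb.rc_le hR hC u⟩,
    Scb.rc_add hR hC, fun κ hn hK => Scb.kap hR hC κ hn hK⟩⟩

end Pool.Agent.H781.KP
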