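import Pool.Agent.H781.KP.B

/-!
Project KP, Scm: symmetric matrices commuting with a transitive family are scalar.
-/

set_option autoImplicit false
set_option synthInstance.maxHeartbeats 400000
set_option maxHeartbeats 4000000
set_option linter.unusedSectionVars false

open scoped Matrix

noncomputable section

namespace Pool.Agent.H781.KP

open Pool.Agent.H781.NG Pool.Agent.H781.CM Pool.Agent.H781.H6

namespace Scm

theorem com_zero (h : S_TFM) {n : ℕ} (A X : Fin n → Fin n → ℝ) (hA : Sk A) (hX : Sk X)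
    (h0 : dX X (wX A vac) = 0) : (Matrix.of A) * (Matrix.of X) = (Matrix.of X) * (Matrix.of A) := by
  obtain ⟨-, h2, h3⟩ := h n
  have e := h3 X A hX hA
  rw [h0] at e
  have hC : Sk (fun i j => mm A X i j - mm X A i j) := by
    intro i j
    simp only [mm]
    rw [← Finset.sum_sub_distrib, ← Finset.sum_sub_distrib, ← Finset.sum_neg_distrib]
    refine Finset.sum_congr rfl fun c _ => ?_
    rw [hA i c, hX c j, hX i c, hA c j]
    ring
  have e2 := h2 _ _ hC hC
  rw [← e] at e2
  have e3 : ip (0 : Fk n ℝ) 0 = 0 := by simp [ip]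
  rw [e3] at e2
  have e4 : ∑ i, ∑ j, (mm A X i j - mm X A i j) * (mm A X i j - mm X A i j) = 0 := by linarith
  rw [Finset.sum_eq_zero_iff_of_nonneg
    (fun i _ => Finset.sum_nonneg fun j _ => mul_self_nonneg _)] at e4
  ext i j
  have e5 := e4 i (Finset.mem_univ _)
  rw [Finset.sum_eq_zero_iff_of_nonneg (fun j _ => mul_self_nonneg _)] at e5
  have e6 := e5 j (Finset.mem_univ _)
  have e7 := mul_self_eq_zero.mp e6
  rw [Matrix.mul_apply, Matrix.mul_apply]
  simp only [mm] at e7
  simp only [Matrix.of_apply]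
  linarith

theorem tr_sk {n : ℕ} (A : Fin n → Fin n → ℝ) (hA : Sk A) :
    (Matrix.of A)ᵀ = - (Matrix.of A) := by
  ext i j
  rw [Matrix.transpose_apply, Matrix.neg_apply, Matrix.of_apply, Matrix.of_apply]
  exact hA j i

theorem quad_zero {n : ℕ} (S X : Matrix (Fin n) (Fin n) ℝ) (hS : Sᵀ = S) (hX : Xᵀ = -X)
    (hc : S * X = X * S) (v : Fin n → ℝ) : (v ᵥ* X) ⬝ᵥ (S *ᵥ v) = 0 := by
  have h1 : (v ᵥ* X) ⬝ᵥ (S *ᵥ v) = v ⬝ᵥ ((X * S) *ᵥ v) := by
    rw [← Matrix.dotProduct_mulVec, Matrix.mulVec_mulVec]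
  have h2 : v ⬝ᵥ ((X * S) *ᵥ v) = v ⬝ᵥ ((X * S)ᵀ *ᵥ v) := by
    rw [Matrix.mulVec_transpose, Matrix.dotProduct_mulVec, dotProduct_comm]
  have h3 : (X * S)ᵀ = - (X * S) := by
    rw [Matrix.transpose_mul, hS, hX, Matrix.mul_neg, hc]
  rw [h3, Matrix.neg_mulVec, dotProduct_neg] at h2
  rw [h1]
  linarith

theorem dt_eq {n : ℕ} (x y : Fin n → ℝ) : dt x y = x ⬝ᵥ y := rfl

theorem ac_eq {n : ℕ} (X : Fin n → Fin n → ℝ) (v : Fin n → ℝ) : ac X v = v ᵥ* (Matrix.of X) := rfl

end Scm

open Scm in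
/-- symmetric matrices commuting with a transitive family are scalar -/
theorem s_scm (h : S_TFM) : S_SCM := by
  intro n A B hA hB H
  set S : Matrix (Fin n) (Fin n) ℝ :=
    Matrix.of A * Matrix.of B + Matrix.of B * Matrix.of A with hS
  have hSe : ∀ i j, mm A B i j + mm B A i j = S i j := fun i j => rfl
  have hSt : Sᵀ = S := by
    rw [hS, Matrix.transpose_add, Matrix.transpose_mul, Matrix.transpose_mul, tr_sk A hA,
      tr_sk B hB, neg_mul_neg, neg_mul_neg, add_comm]
  have key : ∀ v w : Fin n → ℝ, dt v v = 1 → dt w w = 1 → dt v w = 0 → w ⬝ᵥ (S *ᵥ v) = 0 := by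
    intro v w hv hw hvw
    obtain ⟨X, hX, hXv, h1, h2⟩ := H v w hv hw hvw
    have c1 := com_zero h A X hA hX h1
    have c2 := com_zero h B X hB hX h2
    have hc : S * Matrix.of X = Matrix.of X * S := by
      rw [hS, add_mul, mul_add, mul_assoc, c2, ← mul_assoc, c1, mul_assoc (Matrix.of B), c1,
        ← mul_assoc (Matrix.of B), c2, mul_assoc, mul_assoc]
    have := quad_zero S (Matrix.of X) hSt (tr_sk X hX) hc v
    rw [← ac_eq, hXv] at this
    exact this
  have hsing : ∀ (i j : Fin n) (a b : ℝ), (Pi.single i a : Fin n → ℝ) ⬝ᵥ (S *ᵥ Pi.single j b)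
      = a * (S i j * b) := by
    intro i j a b
    rw [single_dotProduct, Matrix.mulVec_single]
    simp [Matrix.col_apply, mul_comm]
  have hdt : ∀ (i j : Fin n) (a b : ℝ), (Pi.single i a : Fin n → ℝ) ⬝ᵥ (Pi.single j b)
      = if i = j then a * b else 0 := by
    intro i j a b
    rw [single_dotProduct, Pi.single_apply]
    split_ifs <;> simp
  have hoff : ∀ i j : Fin n, i ≠ j → S i j = 0 := by
    intro i j hij
    have := key (Pi.single j 1) (Pi.single i 1) (by rw [dt_eq, hdt]; simp)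
      (by rw [dt_eq, hdt]; simp) (by rw [dt_eq, hdt, if_neg (Ne.symm hij)])
    rw [hsing] at this
    linarith
  have hdg : ∀ i j : Fin n, i ≠ j → S i i = S j j := by
    intro i j hij
    obtain ⟨r, hr⟩ : ∃ r : ℝ, r * r = 1 / 2 := ⟨√(1 / 2), Real.mul_self_sqrt (by norm_num)⟩
    have hr0 : r ≠ 0 := by
      rintro rfl
      norm_num at hr
    have := key (Pi.single i r + Pi.single j r) (Pi.single i r + Pi.single j (-r))
      (by
        rw [dt_eq, add_dotProduct, dotProduct_add, dotProduct_add, hdt, hdt, hdt, hdt,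
          if_neg hij, if_neg (Ne.symm hij), if_pos rfl, if_pos rfl]
        linarith)
      (by
        rw [dt_eq, add_dotProduct, dotProduct_add, dotProduct_add, hdt, hdt, hdt, hdt,
          if_neg hij, if_neg (Ne.symm hij), if_pos rfl, if_pos rfl]
        linarith)
      (by
        rw [dt_eq, add_dotProduct, dotProduct_add, dotProduct_add, hdt, hdt, hdt, hdt,
          if_neg hij, if_neg (Ne.symm hij), if_pos rfl, if_pos rfl]
        linarith)
    rw [Matrix.mulVec_add, add_dotProduct, dotProduct_add, dotProduct_add, hsing, hsing, hsing,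
      hsing, hoff i j hij, hoff j i (Ne.symm hij)] at this
    have h2 : (r * r) * (S i i - S j j) = 0 := by linarith
    rw [hr] at h2
    linarith
  rcases Nat.eq_zero_or_pos n with hn | hn
  · subst hn
    exact ⟨0, fun i => i.elim0⟩
  · refine ⟨S ⟨0, hn⟩ ⟨0, hn⟩, fun i j => ?_⟩
    rw [hSe]
    by_cases hij : i = j
    · subst hij
      rw [if_pos rfl]
      by_cases hi : i = ⟨0, hn⟩
      · rw [hi]
      · exact hdg i _ hi
    · rw [if_neg hij]
      exact hoff i j hij

end Pool.Agent.H781.KP
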