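import Pool.Agent.H781.KP.B

/-!
Project KP: 2-forms and skew-symmetric matrices (task KB-01).
-/

set_option autoImplicit false
set_option synthInstance.maxHeartbeats 400000
set_option maxHeartbeats 4000000
set_option linter.unusedSectionVars false

open MeasureTheory Filter
open scoped Topology ContDiff

noncomputable section

namespace Pool.Agent.H781.KP

open Pool.Agent.H781.NG Pool.Agent.H781.CM Pool.Agent.H781.H6

namespace Tfm

variable {n : ℕ}

theorem deg_an {p : ℕ} {u : Fk n ℝ} (hu : Deg (p + 1) u) (i : Fin n) : Deg p (an i u) := by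
  intro S hS
  rw [an_apply]
  split_ifs with h
  · rfl
  · rw [hu (insert i S) (by rw [Finset.card_insert_of_notMem h]; omega), mul_zero]

theorem deg_zero {u : Fk n ℝ} (hu : Deg 0 u) : u = u ∅ • vac := by
  funext S
  rw [Pi.smul_apply, smul_eq_mul, vac]
  by_cases h : S = ∅
  · rw [if_pos h, mul_one, h]
  · rw [if_neg h, mul_zero]
    exact hu S (fun h0 => h (Finset.card_eq_zero.1 h0))

theorem num {p : ℕ} {u : Fk n ℝ} (hu : Deg p u) : ∑ i, cr i (an i u) = (p : ℝ) • u := by
  funext S
  rw [number, Pi.smul_apply, smul_eq_mul]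
  by_cases h : S.card = p
  · rw [h]
  · rw [hu S h, mul_zero, mul_zero]

theorem cr_vac_ip (j l : Fin n) : ip (cr j (vac : Fk n ℝ)) (cr l vac) = if j = l then 1 else 0 := by
  rw [ip_cr, an_cr, an_vac, map_zero, sub_zero]
  split_ifs
  · unfold ip vac
    simp
  · exact ip_zero_right _

theorem anti (c : Fin n → Fin n → ℝ) : wX (fun i j => c j i) (vac : Fk n ℝ) = - wX c vac := by
  unfold wX
  rw [Finset.sum_comm, ← Finset.sum_neg_distrib]
  refine Finset.sum_congr rfl fun i _ => ?_
  rw [← Finset.sum_neg_distrib]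
  refine Finset.sum_congr rfl fun j _ => ?_
  rw [cr_cr j i, smul_neg]

theorem an_wX {A : Fin n → Fin n → ℝ} (hA : Sk A) (k : Fin n) :
    an k (wX A (vac : Fk n ℝ)) = (2 : ℝ) • ∑ j, A k j • cr j vac := by
  have h1 : ∀ i j : Fin n, an k (cr i (cr j (vac : Fk n ℝ))) =
      (if k = i then cr j vac else 0) - (if k = j then cr i vac else 0) := by
    intro i j
    rw [an_cr, an_cr, an_vac, map_zero, sub_zero]
    congr 1
    split_ifs
    · rfl
    · exact map_zero _
  unfold wX
  rw [map_sum]
  have h2 : ∀ i, an k (∑ j, A i j • cr i (cr j (vac : Fk n ℝ))) =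
      (∑ j, if k = i then A i j • cr j (vac : Fk n ℝ) else 0) - A i k • cr i vac := by
    intro i
    rw [map_sum]
    have h3 : ∀ j, an k (A i j • cr i (cr j (vac : Fk n ℝ))) =
        (if k = i then A i j • cr j (vac : Fk n ℝ) else 0) -
          (if k = j then A i j • cr i (vac : Fk n ℝ) else 0) := by
      intro j
      rw [map_smul, h1, smul_sub]
      congr 1
      · split_ifs
        · rfl
        · exact smul_zero _
      · split_ifs
        · rfl
        · exact smul_zero _
    rw [Finset.sum_congr rfl fun j _ => h3 j, Finset.sum_sub_distrib, Finset.sum_ite_eq,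
      if_pos (Finset.mem_univ k)]
  rw [Finset.sum_congr rfl fun i _ => h2 i, Finset.sum_sub_distrib, Finset.sum_comm]
  have h4 : ∀ j, (∑ i, if k = i then A i j • cr j (vac : Fk n ℝ) else 0) =
      A k j • cr j (vac : Fk n ℝ) := by
    intro j
    rw [Finset.sum_ite_eq, if_pos (Finset.mem_univ k)]
  rw [Finset.sum_congr rfl fun j _ => h4 j, two_smul, sub_eq_add_neg, ← Finset.sum_neg_distrib]
  congr 1
  refine Finset.sum_congr rfl fun i _ => ?_
  rw [hA i k, neg_smul, neg_neg]

theorem part1 (u : Fk n ℝ) (hu : Deg 2 u) : ∃ A : Fin n → Fin n → ℝ, Sk A ∧ u = wX A vac := by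
  refine ⟨fun i j => (1 / 2) * (an j (an i u)) ∅, ?_, ?_⟩
  · intro a b
    have h1 : (an b (an a u)) ∅ = - (an a (an b u)) ∅ := by
      rw [an_an b a u]
      rfl
    show (1 / 2) * (an b (an a u)) ∅ = - ((1 / 2) * (an a (an b u)) ∅)
    rw [h1]
    ring
  · have h1 : ∀ i j, (an j (an i u)) = (an j (an i u)) ∅ • (vac : Fk n ℝ) := fun i j =>
      deg_zero (deg_an (deg_an hu i) j)
    have h2 : ∀ i, ∑ j, cr j (an j (an i u)) = an i u := by
      intro i
      rw [num (deg_an hu i)]
      push_cast
      rw [one_smul]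
    have h3 : ∑ i, cr i (an i u) = (2 : ℝ) • u := by
      rw [num hu]
      push_cast
      rfl
    have h4 : (2 : ℝ) • u = ∑ i, ∑ j, cr i (cr j (an j (an i u))) := by
      rw [← h3]
      refine Finset.sum_congr rfl fun i _ => ?_
      rw [← map_sum, h2 i]
    have h5 : wX (fun i j => (1 / 2) * (an j (an i u)) ∅) (vac : Fk n ℝ) =
        (1 / 2 : ℝ) • ∑ i, ∑ j, cr i (cr j (an j (an i u))) := by
      unfold wX
      rw [Finset.smul_sum]
      refine Finset.sum_congr rfl fun i _ => ?_
      rw [Finset.smul_sum]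
      refine Finset.sum_congr rfl fun j _ => ?_
      have h6 : cr i (cr j (an j (an i u))) = (an j (an i u)) ∅ • cr i (cr j (vac : Fk n ℝ)) := by
        rw [← map_smul, ← map_smul, ← h1 i j]
      rw [h6, smul_smul]
    rw [h5, ← h4, smul_smul]
    norm_num

theorem part2 (A B : Fin n → Fin n → ℝ) (hB : Sk B) :
    ip (wX A (vac : Fk n ℝ)) (wX B vac) = 2 * ∑ i, ∑ j, A i j * B i j := by
  have h1 : wX A (vac : Fk n ℝ) = ∑ i, ∑ j, A i j • cr i (cr j vac) := rfl
  rw [h1, ip_sum_left, Finset.mul_sum]
  refine Finset.sum_congr rfl fun i _ => ?_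
  rw [ip_sum_left, Finset.mul_sum]
  refine Finset.sum_congr rfl fun j _ => ?_
  rw [ip_smul_left, ip_cr, an_wX hB, ip_smul_right, ip_sum_right]
  have h2 : ∀ l, ip (cr j (vac : Fk n ℝ)) (B i l • cr l vac) = if j = l then B i l else 0 := by
    intro l
    rw [ip_smul_right, cr_vac_ip]
    split_ifs <;> ring
  rw [Finset.sum_congr rfl fun l _ => h2 l, Finset.sum_ite_eq, if_pos (Finset.mem_univ j)]
  ring

theorem part3 (X A : Fin n → Fin n → ℝ) (hX : Sk X) (hA : Sk A) :
    dX X (wX A (vac : Fk n ℝ)) = wX (fun i j => mm A X i j - mm X A i j) vac := by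
  have h1 : dX X (wX A (vac : Fk n ℝ)) =
      (2 : ℝ) • wX (fun a j => ∑ k, X k a * A k j) vac := by
    unfold dX
    have h2 : ∀ k a, X k a • cr a (an k (wX A (vac : Fk n ℝ))) =
        (2 : ℝ) • ∑ j, (X k a * A k j) • cr a (cr j (vac : Fk n ℝ)) := by
      intro k a
      rw [an_wX hA, map_smul, map_sum, smul_comm, Finset.smul_sum]
      congr 1
      refine Finset.sum_congr rfl fun j _ => ?_
      rw [map_smul, smul_smul]
    rw [Finset.sum_congr rfl fun k _ => Finset.sum_congr rfl fun a _ => h2 k a]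
    unfold wX
    simp only [Finset.sum_smul]
    rw [Finset.smul_sum, Finset.sum_comm]
    refine Finset.sum_congr rfl fun a _ => ?_
    rw [← Finset.smul_sum, Finset.sum_comm]
  have h3 : (fun a j => ∑ k, X k a * A k j) = fun a j => - mm X A a j := by
    funext a j
    unfold mm
    rw [← Finset.sum_neg_distrib]
    refine Finset.sum_congr rfl fun k _ => ?_
    rw [hX k a]
    ring
  have h4 : wX (fun i j => mm A X i j) (vac : Fk n ℝ) = wX (fun a j => - mm X A a j) vac := by
    have h5 : (fun i j => mm A X i j) = fun i j => mm X A j i := by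
      funext i j
      unfold mm
      refine Finset.sum_congr rfl fun k _ => ?_
      rw [hA i k, hX k j]
      ring
    rw [h5, anti (mm X A)]
    unfold wX
    rw [← Finset.sum_neg_distrib]
    refine Finset.sum_congr rfl fun i _ => ?_
    rw [← Finset.sum_neg_distrib]
    refine Finset.sum_congr rfl fun j _ => ?_
    rw [neg_smul]
  have h6 : wX (fun i j => mm A X i j - mm X A i j) (vac : Fk n ℝ) =
      wX (fun i j => mm A X i j) vac + wX (fun a j => - mm X A a j) vac := by
    unfold wX
    rw [← Finset.sum_add_distrib]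
    refine Finset.sum_congr rfl fun i _ => ?_
    rw [← Finset.sum_add_distrib]
    refine Finset.sum_congr rfl fun j _ => ?_
    rw [← add_smul, ← sub_eq_add_neg]
  rw [h1, h3, h6, h4, two_smul]

end Tfm

theorem s_tfm : S_TFM := fun _ =>
  ⟨Tfm.part1, fun A B _ hB => Tfm.part2 A B hB, Tfm.part3⟩

end Pool.Agent.H781.KP
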