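import Pool.Agent.H781.KP.B
import Pool.Agent.H781.KP.Cs

/-!
Project KP: no two 2-forms in the limit (`S_TW2`; by helper100 for helper781).
-/

set_option autoImplicit false
set_option synthInstance.maxHeartbeats 400000
set_option maxHeartbeats 4000000
set_option linter.unusedSectionVars false

open MeasureTheory Filter
open scoped Topology ContDiff

noncomputable section

namespace Pool.Agent.H781.KP

open Pool.Agent.H781.NG Pool.Agent.H781.CM Pool.Agent.H781.H6

namespace Tw2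

variable {n : ℕ}

theorem wX_smul (c : ℝ) (A : Fin n → Fin n → ℝ) (u : Fk n ℝ) :
    wX (fun i j => c * A i j) u = c • wX A u := by
  unfold wX
  rw [Finset.smul_sum]
  refine Finset.sum_congr rfl fun i _ => ?_
  rw [Finset.smul_sum]
  refine Finset.sum_congr rfl fun j _ => ?_
  rw [mul_smul]

theorem rc_smul (R : T4 n) (c : ℝ) (u : Fk n ℝ) : rc R (c • u) = c ^ 2 * rc R u := by
  unfold rc
  simp only [map_smul, ip_smulR, ip_smulR', smul_eq_mul]
  rw [mul_neg]
  congr 1
  simp only [Finset.mul_sum]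
  refine Finset.sum_congr rfl fun a _ => Finset.sum_congr rfl fun b _ =>
    Finset.sum_congr rfl fun e _ => Finset.sum_congr rfl fun d _ => ?_
  ring

theorem Kt_bi (a b c d : Fin n) : Cs.Kt a b c d + Cs.Kt b c a d + Cs.Kt c a b d = 0 := by
  unfold Cs.Kt
  have h1 : (if c = a then (1 : ℝ) else 0) = if a = c then 1 else 0 := by
    simp only [eq_comm]
  have h2 : (if b = a then (1 : ℝ) else 0) = if a = b then 1 else 0 := by
    simp only [eq_comm]
  have h3 : (if c = b then (1 : ℝ) else 0) = if b = c then 1 else 0 := by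
    simp only [eq_comm]
  rw [h1, h2, h3]
  ring

theorem isAC_Rp {R : T4 n} (hR : IsAC R) (ε : ℝ) : IsAC (Cs.Rp R ε) where
  a12 := Cs.Rp12 hR ε
  a34 := Cs.Rp34 hR ε
  pr := Cs.Rppr hR ε
  bi a b c d := by
    have h1 := hR.bi a b c d
    have h2 := Kt_bi a b c d
    unfold Cs.Rp
    linear_combination h1 + ε / 2 * h2

theorem cop_Rp {R : T4 n} {ε : ℝ} (hC : COp R ε) : COp (Cs.Rp R ε) 0 := by
  intro w hw
  have h := Cs.Rp_nn hC w hw
  rw [Cs.Q_eq] at h
  rw [neg_zero, zero_mul]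
  exact h

theorem kge_Rp {R : T4 n} {ε κ : ℝ} (hε : 0 ≤ ε) (hK : KGE R κ) : KGE (Cs.Rp R ε) κ := by
  intro x y hx hy hxy
  rw [Cs.R4_Rp R ε x y hy (by rw [Cs.dt_comm]; exact hxy), hx]
  have := hK x y hx hy hxy
  linarith

/-- skew matrices with `2 A² = l` are complex structures up to a factor -/
theorem sq_eq {A : Fin n → Fin n → ℝ} (hn : 2 ≤ n) {l : ℝ}
    (hl : ∀ i j, mm A A i j + mm A A i j = if i = j then l else 0)
    (hA : Sk A) (h1 : ∑ i, ∑ j, A i j * A i j = 1 / 2) :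
    ∀ i j, mm (fun i j => √(2 * n) * A i j) (fun i j => √(2 * n) * A i j) i j =
      if i = j then -1 else 0 := by
  have hn0 : (0 : ℝ) < n := by exact_mod_cast (by omega : 0 < n)
  have h2 : ∑ i : Fin n, (mm A A i i + mm A A i i) = n * l := by
    rw [Finset.sum_congr rfl fun i _ => hl i i]
    simp
  have h3 : ∑ i : Fin n, (mm A A i i + mm A A i i) = -1 := by
    have h4 : ∀ i : Fin n, mm A A i i = - ∑ j, A i j * A i j := by
      intro i
      unfold mm
      rw [← Finset.sum_neg_distrib]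
      refine Finset.sum_congr rfl fun j _ => ?_
      rw [hA j i]
      ring
    rw [Finset.sum_add_distrib, Finset.sum_congr rfl fun i _ => h4 i, Finset.sum_neg_distrib, h1]
    norm_num
  have hl1 : n * l = -1 := by rw [← h2, h3]
  intro i j
  have h5 : mm (fun i j => √(2 * n) * A i j) (fun i j => √(2 * n) * A i j) i j =
      √(2 * n) ^ 2 * mm A A i j := by
    unfold mm
    rw [Finset.mul_sum]
    exact Finset.sum_congr rfl fun c _ => by ring
  rw [h5, Real.sq_sqrt (by positivity)]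
  have h6 := hl i j
  by_cases hij : i = j
  · rw [if_pos hij] at h6 ⊢
    linear_combination (n : ℝ) * h6 + hl1
  · rw [if_neg hij] at h6 ⊢
    linear_combination (n : ℝ) * h6

theorem anti_eq {A B : Fin n → Fin n → ℝ} (hn : 2 ≤ n) {l : ℝ}
    (hl : ∀ i j, mm A B i j + mm B A i j = if i = j then l else 0)
    (hA : Sk A) (hB : Sk B) (h1 : ∑ i, ∑ j, A i j * B i j = 0) :
    ∀ i j, mm (fun i j => √(2 * n) * A i j) (fun i j => √(2 * n) * B i j) i j +
      mm (fun i j => √(2 * n) * B i j) (fun i j => √(2 * n) * A i j) i j = 0 := by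
  have hn0 : (0 : ℝ) < n := by exact_mod_cast (by omega : 0 < n)
  have h2 : ∑ i : Fin n, (mm A B i i + mm B A i i) = n * l := by
    rw [Finset.sum_congr rfl fun i _ => hl i i]
    simp
  have h3 : ∑ i : Fin n, (mm A B i i + mm B A i i) = 0 := by
    have h4 : ∀ i : Fin n, mm A B i i = - ∑ j, A i j * B i j := by
      intro i
      unfold mm
      rw [← Finset.sum_neg_distrib]
      refine Finset.sum_congr rfl fun j _ => ?_
      rw [hB j i]
      ring
    have h5 : ∀ i : Fin n, mm B A i i = - ∑ j, A i j * B i j := by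
      intro i
      unfold mm
      rw [← Finset.sum_neg_distrib]
      refine Finset.sum_congr rfl fun j _ => ?_
      rw [hA j i]
      ring
    rw [Finset.sum_add_distrib, Finset.sum_congr rfl fun i _ => h4 i,
      Finset.sum_congr rfl fun i _ => h5 i, Finset.sum_neg_distrib, h1]
    norm_num
  have hl1 : l = 0 := by
    have h6 : (n : ℝ) * l = 0 := by rw [← h2, h3]
    rcases mul_eq_zero.1 h6 with h | h
    · exact absurd h hn0.ne'
    · exact h
  intro i j
  have h5 : ∀ X Y : Fin n → Fin n → ℝ,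
      mm (fun i j => √(2 * n) * X i j) (fun i j => √(2 * n) * Y i j) i j =
      √(2 * n) ^ 2 * mm X Y i j := by
    intro X Y
    unfold mm
    rw [Finset.mul_sum]
    exact Finset.sum_congr rfl fun c _ => by ring
  rw [h5, h5, ← mul_add, hl i j, hl1]
  simp

theorem sk_smul {A : Fin n → Fin n → ℝ} (hA : Sk A) (c : ℝ) : Sk fun i j => c * A i j := by
  intro a b
  show c * A a b = - (c * A b a)
  rw [hA a b]
  ring

theorem tendsto_ip {U : ℕ → Fk n ℝ} {u : Fk n ℝ} (h : Tendsto U atTop (𝓝 u)) :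
    Tendsto (fun k => ip (U k) (U k)) atTop (𝓝 (ip u u)) := by
  unfold ip
  refine tendsto_finsetSum _ fun S _ => ?_
  have h1 := (tendsto_pi_nhds.1 h) S
  exact h1.mul h1

theorem tendsto_ip_sub {U : ℕ → Fk n ℝ} {u : Fk n ℝ} (h : Tendsto U atTop (𝓝 u)) :
    Tendsto (fun k => ip (u - U k) (u - U k)) atTop (𝓝 0) := by
  have h1 : Tendsto (fun k => u - U k) atTop (𝓝 (u - u)) := tendsto_const_nhds.sub h
  have h2 := tendsto_ip h1
  have h3 : ip (u - u) (u - u) = 0 := by
    unfold ip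
    simp
  rw [h3] at h2
  exact h2

end Tw2

open Tw2 in
theorem s_tw2 (h1 : S_TFM) (h2 : S_SCM) (h3 : S_HK) (h4 : S_SCB) : S_TW2 := by
  intro n U V u v R ε κ hn hU2 hV2 hu2 hv2 hU hV hR hε hε0 hκ hC hK hrU hrV huu hvv huv htr
  obtain ⟨A, hA, hAu⟩ := (h1 n).1 u hu2
  obtain ⟨B, hB, hBv⟩ := (h1 n).1 v hv2
  have hip := (h1 n).2.1
  obtain ⟨K3, hK3, h3⟩ := h3 n
  obtain ⟨K4, hK4, h4⟩ := h4 n
  -- the matrices
  obtain ⟨l, hl⟩ := h2 n A A hA hA fun x y hx hy hxy => by
    obtain ⟨X, hX1, hX2, hX3, hX4⟩ := htr x y hx hy hxy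
    rw [hAu] at hX3
    exact ⟨X, hX1, hX2, hX3, hX3⟩
  obtain ⟨m, hm⟩ := h2 n B B hB hB fun x y hx hy hxy => by
    obtain ⟨X, hX1, hX2, hX3, hX4⟩ := htr x y hx hy hxy
    rw [hBv] at hX4
    exact ⟨X, hX1, hX2, hX4, hX4⟩
  obtain ⟨p, hp⟩ := h2 n A B hA hB fun x y hx hy hxy => by
    obtain ⟨X, hX1, hX2, hX3, hX4⟩ := htr x y hx hy hxy
    rw [hAu] at hX3
    rw [hBv] at hX4
    exact ⟨X, hX1, hX2, hX3, hX4⟩
  have eA : ∑ i, ∑ j, A i j * A i j = 1 / 2 := by
    have := hip A A hA hA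
    rw [← hAu, huu] at this
    linarith
  have eB : ∑ i, ∑ j, B i j * B i j = 1 / 2 := by
    have := hip B B hB hB
    rw [← hBv, hvv] at this
    linarith
  have eAB : ∑ i, ∑ j, A i j * B i j = 0 := by
    have := hip A B hA hB
    rw [← hAu, ← hBv, huv] at this
    linarith
  have sA := sq_eq hn hl hA eA
  have sB := sq_eq hn hm hB eB
  have sAB := anti_eq hn hp hA hB eAB
  -- the inequality
  have key : ∀ k, scl (Cs.Rp (R k) (ε k)) ≤
      K3 * (2 * n) * (2 * (ε k * (2 + n ^ 2 * (ip (U k) (U k) + ip (V k) (V k))))) +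
      K3 * (2 * n) * (2 * K4 * (ip (u - U k) (u - U k) + ip (v - V k) (v - V k))) *
        scl (Cs.Rp (R k) (ε k)) := by
    intro k
    have hAC := isAC_Rp (hR k) (ε k)
    have hCO := cop_Rp (hC k)
    obtain ⟨-, hb, hadd, -⟩ := h4 _ hAC hCO
    have h5 := h3 (Cs.Rp (R k) (ε k)) _ _ hAC hCO (sk_smul hA _) (sk_smul hB _) sA sB sAB
    rw [wX_smul, wX_smul, ← hAu, ← hBv, rc_smul, rc_smul,
      Real.sq_sqrt (by positivity : (0 : ℝ) ≤ 2 * n)] at h5
    have hw : ∀ (w W : Fk n ℝ), rc (R k) W ≤ ε k → rc (Cs.Rp (R k) (ε k)) w ≤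
        2 * (ε k + ε k * n ^ 2 * ip W W) +
          2 * (K4 * scl (Cs.Rp (R k) (ε k)) * ip (w - W) (w - W)) := by
      intro w W hW
      have e1 := hadd W (w - W)
      have e2 := Cs.rc_Rp_le (R k) (hε k) W
      have e3 := (hb (w - W)).2
      rw [add_sub_cancel] at e1
      linarith
    have hu := hw u (U k) (hrU k)
    have hv := hw v (V k) (hrV k)
    have h6 : 0 ≤ K3 * (2 * (n : ℝ)) := by positivity
    have h7 := mul_le_mul_of_nonneg_left (add_le_add hu hv) h6
    calc scl (Cs.Rp (R k) (ε k)) ≤ K3 * (2 * n * rc (Cs.Rp (R k) (ε k)) u +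
          2 * n * rc (Cs.Rp (R k) (ε k)) v) := h5
      _ = K3 * (2 * n) * (rc (Cs.Rp (R k) (ε k)) u + rc (Cs.Rp (R k) (ε k)) v) := by ring
      _ ≤ _ := h7
      _ = _ := by ring
  -- the limits
  have ta : Tendsto (fun k => K3 * (2 * n) *
      (2 * (ε k * (2 + n ^ 2 * (ip (U k) (U k) + ip (V k) (V k)))))) atTop (𝓝 0) := by
    have e1 := (tendsto_ip hU).add (tendsto_ip hV)
    have e2 := ((e1.const_mul ((n : ℝ) ^ 2)).const_add 2)
    have e3 := ((hε0.mul e2).const_mul 2).const_mul (K3 * (2 * n))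
    rw [zero_mul, mul_zero, mul_zero] at e3
    exact e3
  have tb : Tendsto (fun k => K3 * (2 * n) *
      (2 * K4 * (ip (u - U k) (u - U k) + ip (v - V k) (v - V k)))) atTop (𝓝 0) := by
    have e1 := (tendsto_ip_sub hU).add (tendsto_ip_sub hV)
    have e2 := (e1.const_mul (2 * K4)).const_mul (K3 * (2 * n))
    rw [add_zero, mul_zero, mul_zero] at e2
    exact e2
  have ha := ta.eventually_lt_const (by linarith : (0 : ℝ) < κ / 2)
  have hb := tb.eventually_lt_const (by norm_num : (0 : ℝ) < 1 / 2)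
  obtain ⟨k, hk1, hk2⟩ := (ha.and hb).exists
  have hS : κ ≤ scl (Cs.Rp (R k) (ε k)) :=
    (h4 _ (isAC_Rp (hR k) (ε k)) (cop_Rp (hC k))).2.2.2 κ hn (kge_Rp (hε k) (hK k))
  have h5 := key k
  have hS0 : 0 < scl (Cs.Rp (R k) (ε k)) := lt_of_lt_of_le hκ hS
  have h6 := mul_lt_mul_of_pos_right hk2 hS0
  linarith

end Pool.Agent.H781.KP
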