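import Pool.Agent.H781.KP.AllK
import Pool.Agent.H781.KP.Mainb
import Pool.Agent.H781.KP.Tfm
import Pool.Agent.H781.KP.Scm
import Pool.Agent.H781.KP.Hka
import Pool.Agent.H781.KP.Hkb
import Pool.Agent.H781.KP.Hk
import Pool.Agent.H781.KP.Scb
import Pool.Agent.H781.KP.Tw2
import Pool.Agent.H781.KP.On2
import Pool.Agent.H781.KP.Cmp2
import Pool.Agent.H781.KP.Finb
import Pool.Agent.H781.KP.Chi2
import Pool.Agent.H781.CM.Harm

/-!
Assembly of the theorem on the second Betti number.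
-/

set_option autoImplicit false

namespace Pool.Agent.H781.KP

open Pool.Agent.H781.CM Pool.Agent.H781.H6

theorem trg : S_TRG := s_trg (s_foc s_cs s_tac tex) s_tac

theorem cmp2 : S_CMP2 :=
  s_cmp2 trg (s_inf s_tac tex) (s_tw2 s_tfm (s_scm s_tfm) (s_hk s_tfm s_hka s_hkb) s_scb)
    (s_on2 s_tfm (s_scm s_tfm))

theorem chi2 : S_CHI2 :=
  s_chi2 (s_finb (s_appk spec ener gram prod s_clin ddh (s_rich rmp)) dimS poink hodge spec
    (s_kax s_tau s_rct (s_tmul s_clif) rmp) (s_harm spec ddh) ddh) cmp2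

theorem mainb : S_MAINB := s_mainb chi2 gdu (s_pkx s_frm) s_gconn

end Pool.Agent.H781.KP
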