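import Pool.Agent.H781.KP.C
import Pool.Agent.H781.H6.Bic

/-!
Project KP (helper781), job KC-02: the curvature tensor of least norm is invariant (by helper46).
-/

set_option autoImplicit false
set_option synthInstance.maxHeartbeats 400000
set_option maxHeartbeats 4000000
set_option linter.unusedSectionVars false

open MeasureTheory Filter
open scoped Topology ContDiff

noncomputable section

namespace Pool.Agent.H781.KP

open Pool.Agent.H781.NG Pool.Agent.H781.CM Pool.Agent.H781.H6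

namespace Avg

variable {n : ℕ}

/-! ### orthogonal matrices -/

theorem cols {h : Fin n → Fin n → ℝ} (hON : ON h) (a b : Fin n) :
    ∑ i, h i a * h i b = if a = b then 1 else 0 := by
  have h1 : (Matrix.of h) * (Matrix.of h).transpose = 1 := by
    ext i j
    rw [Matrix.mul_apply, Matrix.one_apply]
    exact hON i j
  have h3 : (Matrix.of h).transpose * (Matrix.of h) = 1 := mul_eq_one_comm.1 h1
  have h2 := congrFun (congrFun h3 a) b
  rw [Matrix.mul_apply, Matrix.one_apply] at h2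
  exact h2

theorem iso1 {h : Fin n → Fin n → ℝ} (hON : ON h) (x : Fin n → ℝ) :
    ∑ i, (∑ a, h i a * x a) ^ 2 = ∑ a, x a ^ 2 := by
  have h1 : ∀ i, (∑ a, h i a * x a) ^ 2 = ∑ a, ∑ b, x a * x b * (h i a * h i b) := by
    intro i
    rw [sq, Finset.sum_mul_sum]
    exact Finset.sum_congr rfl fun a _ => Finset.sum_congr rfl fun b _ => by ring
  simp only [h1]
  rw [Finset.sum_comm]
  refine Finset.sum_congr rfl fun a _ => ?_
  rw [Finset.sum_comm]
  simp only [← Finset.mul_sum, cols hON]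
  simp [sq]

theorem isoJ {J : Type} [Fintype J] {h : Fin n → Fin n → ℝ} (hON : ON h) (Y : J → Fin n → ℝ) :
    ∑ i, ∑ j, (∑ a, h i a * Y j a) ^ 2 = ∑ a, ∑ j, Y j a ^ 2 := by
  rw [Finset.sum_comm]
  simp only [iso1 hON]
  rw [Finset.sum_comm]

theorem r4n (R : T4 n) (x y z w : Fin n → ℝ) :
    R4 R x y z w = ∑ a, x a * ∑ b, y b * ∑ c, z c * ∑ d, w d * R a b c d := by
  unfold R4
  simp only [Finset.mul_sum]
  exact Finset.sum_congr rfl fun a _ => Finset.sum_congr rfl fun b _ =>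
    Finset.sum_congr rfl fun c _ => Finset.sum_congr rfl fun d _ => by ring

/-- the sum of the squares -/
def Q (R : T4 n) : ℝ := ∑ a, ∑ b, ∑ c, ∑ d, R a b c d ^ 2

theorem Q_Rh {h : Fin n → Fin n → ℝ} (hON : ON h) (R : T4 n) : Q (Rh R h) = Q R := by
  unfold Q Rh
  simp only [r4n]
  -- the first index
  have s1 : ∀ X : Fin n → Fin n → Fin n → Fin n → ℝ,
      ∑ i, ∑ j, ∑ k, ∑ l, (∑ a, h i a * X a j k l) ^ 2 = ∑ a, ∑ j, ∑ k, ∑ l, X a j k l ^ 2 := by
    intro X
    have h1 := isoJ hON (fun (j : Fin n × Fin n × Fin n) a => X a j.1 j.2.1 j.2.2)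
    simp only [Fintype.sum_prod_type] at h1
    exact h1
  have s2 : ∀ X : Fin n → Fin n → Fin n → ℝ,
      ∑ i, ∑ j, ∑ k, (∑ a, h i a * X a j k) ^ 2 = ∑ a, ∑ j, ∑ k, X a j k ^ 2 := by
    intro X
    have h1 := isoJ hON (fun (j : Fin n × Fin n) a => X a j.1 j.2)
    simp only [Fintype.sum_prod_type] at h1
    exact h1
  have s3 : ∀ X : Fin n → Fin n → ℝ,
      ∑ i, ∑ j, (∑ a, h i a * X a j) ^ 2 = ∑ a, ∑ j, X a j ^ 2 := by
    intro X
    exact isoJ hON (fun (j : Fin n) a => X a j)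
  rw [s1 (fun a j k l => ∑ b, h j b * ∑ c, h k c * ∑ d, h l d * R a b c d)]
  refine Finset.sum_congr rfl fun a _ => ?_
  rw [s2 (fun b k l => ∑ c, h k c * ∑ d, h l d * R a b c d)]
  refine Finset.sum_congr rfl fun b _ => ?_
  rw [s3 (fun c l => ∑ d, h l d * R a b c d)]
  refine Finset.sum_congr rfl fun c _ => ?_
  exact iso1 hON _

/-! ### sums over pairs -/

theorem quad {ι κ : Type} [Fintype ι] [Fintype κ] (M : κ → κ → ℝ) (H : ι → κ → ℝ) (w : ι → ℝ) :
    ∑ I, ∑ J, (∑ A, ∑ B, M A B * H I A * H J B) * w I * w J =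
      ∑ A, ∑ B, M A B * (∑ I, H I A * w I) * (∑ J, H J B * w J) := by
  have e1 : ∀ I J, (∑ A, ∑ B, M A B * H I A * H J B) * w I * w J =
      ∑ A, ∑ B, M A B * (H I A * w I) * (H J B * w J) := by
    intro I J
    simp only [Finset.sum_mul]
    exact Finset.sum_congr rfl fun A _ => Finset.sum_congr rfl fun B _ => by ring
  have e2 : ∀ A B, M A B * (∑ I, H I A * w I) * (∑ J, H J B * w J) =
      ∑ I, ∑ J, M A B * (H I A * w I) * (H J B * w J) := by
    intro A B
    rw [mul_assoc, Finset.sum_mul_sum, Finset.mul_sum]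
    refine Finset.sum_congr rfl fun I _ => ?_
    rw [Finset.mul_sum]
    exact Finset.sum_congr rfl fun J _ => by ring
  simp only [e1, e2]
  have e3 : ∀ I, ∑ J, ∑ A, ∑ B, M A B * (H I A * w I) * (H J B * w J) =
      ∑ A, ∑ B, ∑ J, M A B * (H I A * w I) * (H J B * w J) := by
    intro I
    rw [Finset.sum_comm]
    exact Finset.sum_congr rfl fun A _ => Finset.sum_comm
  simp only [e3]
  rw [Finset.sum_comm]
  exact Finset.sum_congr rfl fun A _ => Finset.sum_comm

theorem tr {ι κ : Type} [Fintype ι] [Fintype κ] [DecidableEq κ] (M : κ → κ → ℝ) (H : ι → κ → ℝ)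
    (hH : ∀ A B, ∑ I, H I A * H I B = if A = B then 1 else 0) :
    ∑ I, ∑ A, ∑ B, M A B * H I A * H I B = ∑ A, M A A := by
  rw [Finset.sum_comm]
  refine Finset.sum_congr rfl fun A _ => ?_
  rw [Finset.sum_comm]
  have h1 : ∀ B, ∑ I, M A B * H I A * H I B = M A B * if A = B then 1 else 0 := by
    intro B
    rw [← hH, Finset.mul_sum]
    exact Finset.sum_congr rfl fun I _ => by ring
  simp only [h1, mul_ite, mul_one, mul_zero, Finset.sum_ite_eq, Finset.mem_univ, if_true]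

/-- the matrix on pairs -/
def HH (h : Fin n → Fin n → ℝ) (I A : Fin n × Fin n) : ℝ := h I.1 A.1 * h I.2 A.2

def MM (R : T4 n) (A B : Fin n × Fin n) : ℝ := R A.1 A.2 B.1 B.2

theorem r4p (R : T4 n) (h : Fin n → Fin n → ℝ) (I J : Fin n × Fin n) :
    R4 R (h I.1) (h I.2) (h J.1) (h J.2) = ∑ A, ∑ B, MM R A B * HH h I A * HH h J B := by
  simp only [Fintype.sum_prod_type, MM, HH, R4]
  exact Finset.sum_congr rfl fun a _ => Finset.sum_congr rfl fun b _ =>
    Finset.sum_congr rfl fun c _ => Finset.sum_congr rfl fun d _ => by ring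

theorem HH_on {h : Fin n → Fin n → ℝ} (hON : ON h) (A B : Fin n × Fin n) :
    ∑ I, HH h I A * HH h I B = if A = B then 1 else 0 := by
  simp only [Fintype.sum_prod_type, HH]
  have h1 : ∀ i j, h i A.1 * h j A.2 * (h i B.1 * h j B.2) =
      (h i A.1 * h i B.1) * (h j A.2 * h j B.2) := fun i j => by ring
  simp only [h1, ← Finset.mul_sum, ← Finset.sum_mul, cols hON]
  by_cases h2 : A.1 = B.1
  · by_cases h3 : A.2 = B.2
    · rw [if_pos h2, if_pos h3, if_pos (Prod.ext h2 h3), mul_one]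
    · rw [if_pos h2, if_neg h3, if_neg (fun h4 => h3 (congrArg Prod.snd h4)), mul_zero]
  · rw [if_neg h2, if_neg (fun h4 => h2 (congrArg Prod.fst h4)), zero_mul]

theorem scl_Rh {h : Fin n → Fin n → ℝ} (hON : ON h) (R : T4 n) : scl (Rh R h) = scl R := by
  unfold scl
  congr 1
  have h1 := tr (MM R) (HH h) (HH_on hON)
  have h2 : ∀ I : Fin n × Fin n, ∑ A, ∑ B, MM R A B * HH h I A * HH h I B =
      Rh R h I.1 I.2 I.1 I.2 := fun I => (r4p R h I I).symm
  simp only [h2] at h1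
  simp only [Fintype.sum_prod_type] at h1
  exact h1

theorem cop_Rh {h : Fin n → Fin n → ℝ} (R : T4 n) (hR : COp R 0) : COp (Rh R h) 0 := by
  intro w hw
  have h1 := quad (MM R) (HH h) (fun I => w I.1 I.2)
  have h2 : ∀ I J : Fin n × Fin n, ∑ A, ∑ B, MM R A B * HH h I A * HH h J B =
      Rh R h I.1 I.2 J.1 J.2 := fun I J => (r4p R h I J).symm
  simp only [h2] at h1
  obtain ⟨w', hw'⟩ : ∃ w' : Fin n → Fin n → ℝ, ∀ a b, w' a b = ∑ i, ∑ j, h i a * h j b * w i j :=
    ⟨_, fun _ _ => rfl⟩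
  have h3 : ∀ A : Fin n × Fin n, ∑ I : Fin n × Fin n, HH h I A * w I.1 I.2 = w' A.1 A.2 := by
    intro A
    rw [hw', Fintype.sum_prod_type]
    rfl
  simp only [h3] at h1
  have hsk : Sk w' := by
    intro a b
    rw [hw', hw', Finset.sum_comm, ← Finset.sum_neg_distrib]
    refine Finset.sum_congr rfl fun i _ => ?_
    rw [← Finset.sum_neg_distrib]
    refine Finset.sum_congr rfl fun j _ => ?_
    rw [hw j i]
    ring
  have h4 := hR w' hsk
  simp only [Fintype.sum_prod_type, MM] at h1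
  rw [neg_zero, zero_mul] at h4 ⊢
  rw [h1]
  exact h4

/-! ### the convex set -/

/-- the conditions for `R` in `LimA` -/
def KK {ι : Type} (a : ι → Fk n ℝ) : Set (T4 n) :=
  {R | IsAC R ∧ COp R 0 ∧ scl R = 1 ∧ ∀ x, rc R (a x) = 0}

theorem closedAC : IsClosed {R : T4 n | IsAC R} := by
  have h1 : {R : T4 n | IsAC R} = {R : T4 n | (∀ a b c d, R a b c d = - R b a c d) ∧
      (∀ a b c d, R a b c d = - R a b d c) ∧ (∀ a b c d, R a b c d = R c d a b) ∧
      (∀ a b c d, R a b c d + R b c a d + R c a b d = 0)} := by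
    ext R
    exact ⟨fun h => ⟨h.a12, h.a34, h.pr, h.bi⟩, fun h => ⟨h.1, h.2.1, h.2.2.1, h.2.2.2⟩⟩
  rw [h1]
  simp only [Set.ofPred_and, Set.ofPred_forall]
  refine IsClosed.inter ?_ (IsClosed.inter ?_ (IsClosed.inter ?_ ?_))
  all_goals
    refine isClosed_iInter fun a => isClosed_iInter fun b => isClosed_iInter fun c =>
      isClosed_iInter fun d => isClosed_eq (by fun_prop) (by fun_prop)

theorem closedKK {ι : Type} (a : ι → Fk n ℝ) : IsClosed (KK a) := by
  have h1 : KK a = {R : T4 n | IsAC R} ∩ ({R | ∀ w : Fin n → Fin n → ℝ, Sk w →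
      - (0 : ℝ) * ∑ a, ∑ b, w a b ^ 2 ≤ - ∑ a, ∑ b, ∑ c, ∑ d, R a b c d * w a b * w c d} ∩
      ({R | scl R = 1} ∩ {R | ∀ x, rc R (a x) = 0})) := rfl
  rw [h1]
  refine closedAC.inter (IsClosed.inter ?_ (IsClosed.inter ?_ ?_))
  · simp only [Set.ofPred_forall]
    exact isClosed_iInter fun w => isClosed_iInter fun _ => isClosed_le continuous_const
      (by fun_prop)
  · unfold scl
    exact isClosed_eq (by fun_prop) continuous_const
  · simp only [Set.ofPred_forall]
    unfold rc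
    exact isClosed_iInter fun x => isClosed_eq (by fun_prop) continuous_const

theorem exists_min {K : Set (T4 n)} (hK : IsClosed K) {R : T4 n} (hR : R ∈ K) :
    ∃ R' ∈ K, ∀ R'' ∈ K, Q R' ≤ Q R'' := by
  have hQc : Continuous (Q : T4 n → ℝ) := by
    unfold Q
    fun_prop
  have hcl : IsClosed (K ∩ {R' : T4 n | Q R' ≤ Q R}) :=
    hK.inter (isClosed_le hQc continuous_const)
  have hbox : IsCompact (Set.pi Set.univ fun _ : Fin n => Set.pi Set.univ fun _ : Fin n =>
      Set.pi Set.univ fun _ : Fin n => Set.pi Set.univ fun _ : Fin n =>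
        Set.Icc (-Real.sqrt (Q R)) (Real.sqrt (Q R))) :=
    isCompact_univ_pi fun _ => isCompact_univ_pi fun _ => isCompact_univ_pi fun _ =>
      isCompact_univ_pi fun _ => isCompact_Icc
  have hsub : (K ∩ {R' : T4 n | Q R' ≤ Q R}) ⊆ (Set.pi Set.univ fun _ : Fin n =>
      Set.pi Set.univ fun _ : Fin n => Set.pi Set.univ fun _ : Fin n =>
        Set.pi Set.univ fun _ : Fin n => Set.Icc (-Real.sqrt (Q R)) (Real.sqrt (Q R))) := by
    rintro R' ⟨-, h1⟩ a - b - c - d -
    have h2 : R' a b c d ^ 2 ≤ Q R' := by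
      unfold Q
      refine le_trans ?_ (Finset.single_le_sum (f := fun a => ∑ b, ∑ c, ∑ d, R' a b c d ^ 2)
        (fun a _ => by positivity) (Finset.mem_univ a))
      refine le_trans ?_ (Finset.single_le_sum (f := fun b => ∑ c, ∑ d, R' a b c d ^ 2)
        (fun b _ => by positivity) (Finset.mem_univ b))
      refine le_trans ?_ (Finset.single_le_sum (f := fun c => ∑ d, R' a b c d ^ 2)
        (fun c _ => by positivity) (Finset.mem_univ c))
      exact Finset.single_le_sum (f := fun d => R' a b c d ^ 2)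
        (fun d _ => by positivity) (Finset.mem_univ d)
    exact abs_le.1 (Real.abs_le_sqrt (h2.trans h1))
  have hcomp : IsCompact (K ∩ {R' : T4 n | Q R' ≤ Q R}) := hbox.of_isClosed_subset hcl hsub
  obtain ⟨R', hR', hmin⟩ := hcomp.exists_isMinOn ⟨R, hR, le_refl (Q R)⟩ hQc.continuousOn
  refine ⟨R', hR'.1, fun R'' hR'' => ?_⟩
  by_cases h1 : Q R'' ≤ Q R
  · exact hmin ⟨hR'', h1⟩
  · have h2 : Q R' ≤ Q R := hR'.2
    linarith

/-- the midpoint -/
def mid (R S : T4 n) : T4 n := fun a b c d => (R a b c d + S a b c d) / 2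

theorem Q_mid (R S : T4 n) : Q (mid R S) = (Q R + Q S) / 2 -
    (∑ a, ∑ b, ∑ c, ∑ d, (R a b c d - S a b c d) ^ 2) / 4 := by
  have h1 : ∀ x y : ℝ, ((x + y) / 2) ^ 2 = x ^ 2 / 2 + y ^ 2 / 2 - (x - y) ^ 2 / 4 := by
    intro x y
    ring
  unfold Q mid
  simp only [h1, Finset.sum_sub_distrib, Finset.sum_add_distrib, ← Finset.sum_div]
  ring

theorem mid_mem {ι : Type} {a : ι → Fk n ℝ} {R S : T4 n} (hR : R ∈ KK a) (hS : S ∈ KK a) :
    mid R S ∈ KK a := by
  obtain ⟨hR1, hR2, hR3, hR4⟩ := hR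
  obtain ⟨hS1, hS2, hS3, hS4⟩ := hS
  refine ⟨⟨?_, ?_, ?_, ?_⟩, ?_, ?_, ?_⟩
  · intro a b c d
    unfold mid
    rw [hR1.a12 a b c d, hS1.a12 a b c d]
    ring
  · intro a b c d
    unfold mid
    rw [hR1.a34 a b c d, hS1.a34 a b c d]
    ring
  · intro a b c d
    unfold mid
    rw [hR1.pr a b c d, hS1.pr a b c d]
  · intro a b c d
    have h1 := hR1.bi a b c d
    have h2 := hS1.bi a b c d
    unfold mid
    linarith
  · intro w hw
    have h1 := hR2 w hw
    have h2 := hS2 w hw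
    have h3 : ∑ a, ∑ b, ∑ c, ∑ d, mid R S a b c d * w a b * w c d =
        (∑ a, ∑ b, ∑ c, ∑ d, R a b c d * w a b * w c d) / 2 +
        (∑ a, ∑ b, ∑ c, ∑ d, S a b c d * w a b * w c d) / 2 := by
      have h4 : ∀ a b c d, mid R S a b c d * w a b * w c d =
          R a b c d * w a b * w c d / 2 + S a b c d * w a b * w c d / 2 := by
        intro a b c d
        unfold mid
        ring
      simp only [h4, Finset.sum_add_distrib, ← Finset.sum_div]
    rw [neg_zero, zero_mul] at h1 h2 ⊢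
    rw [h3]
    linarith
  · have h3 : scl (mid R S) = (scl R + scl S) / 2 := by
      unfold scl mid
      simp only [add_div, Finset.sum_add_distrib, ← Finset.sum_div]
      ring
    rw [h3, hR3, hS3]
    norm_num
  · intro x
    have h3 : rc (mid R S) (a x) = (rc R (a x) + rc S (a x)) / 2 := by
      unfold rc
      have h4 : ∀ a' b c d, mid R S a' b c d * ip (cr b (an a' (a x))) (cr d (an c (a x))) =
          R a' b c d * ip (cr b (an a' (a x))) (cr d (an c (a x))) / 2 +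
          S a' b c d * ip (cr b (an a' (a x))) (cr d (an c (a x))) / 2 := by
        intro a' b c d
        unfold mid
        ring
      simp only [h4, Finset.sum_add_distrib, ← Finset.sum_div]
      ring
    rw [h3, hR4, hS4]
    norm_num

theorem unique {ι : Type} {a : ι → Fk n ℝ} {R S : T4 n} (hR : R ∈ KK a) (hS : S ∈ KK a)
    (hmin : ∀ R'' ∈ KK a, Q R ≤ Q R'') (hQ : Q S = Q R) : S = R := by
  have h1 := hmin _ (mid_mem hR hS)
  rw [Q_mid, hQ] at h1
  have h2 : ∑ a, ∑ b, ∑ c, ∑ d, (R a b c d - S a b c d) ^ 2 ≤ 0 := by linarith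
  funext a b c d
  have h3 : (R a b c d - S a b c d) ^ 2 ≤ ∑ a, ∑ b, ∑ c, ∑ d, (R a b c d - S a b c d) ^ 2 := by
    refine le_trans ?_ (Finset.single_le_sum
      (f := fun a => ∑ b, ∑ c, ∑ d, (R a b c d - S a b c d) ^ 2)
      (fun a _ => by positivity) (Finset.mem_univ a))
    refine le_trans ?_ (Finset.single_le_sum (f := fun b => ∑ c, ∑ d, (R a b c d - S a b c d) ^ 2)
      (fun b _ => by positivity) (Finset.mem_univ b))
    refine le_trans ?_ (Finset.single_le_sum (f := fun c => ∑ d, (R a b c d - S a b c d) ^ 2)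
      (fun c _ => by positivity) (Finset.mem_univ c))
    exact Finset.single_le_sum (f := fun d => (R a b c d - S a b c d) ^ 2)
      (fun d _ => by positivity) (Finset.mem_univ d)
  have h4 : (R a b c d - S a b c d) ^ 2 = 0 := le_antisymm (h3.trans h2) (sq_nonneg _)
  have h5 := pow_eq_zero_iff (two_ne_zero) |>.1 h4
  linarith

theorem rc_Rh (hT : S_RCT) {h : Fin n → Fin n → ℝ} (hON : ON h) (R : T4 n) (u : Fk n ℝ) :
    rc (Rh R h) u = rc R (Tau.tau h u) := by
  have hτ : IsTau h (Tau.tau h) := by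
    refine ⟨hON, Tau.an_tau h, fun i u => ?_, Tau.ip_tau hON, Tau.tau_vac h, Tau.deg_tau hON,
      fun u hu => ?_⟩
    · rw [← Tau.Cv_tau, Lin4.Cv_apply]
    · have h1 : HorP (fun a c => ∑ i, h i a * h i c) u := hu
      rw [← LinearMap.mem_range, Tau.sum_dpt u]
      exact Submodule.sum_mem _ fun p _ => Tau.MS_range p
        (Lin4.mem_MS (fun _ _ => rfl) p _ (Tau.hor_dpt h1 p) (Tau.deg_dpt p u))
  refine (hT n n h (Tau.tau h) R hτ ?_ ?_ u).symm
  · intro a e c d
    simp only [cols hON, ite_mul, one_mul, zero_mul, Finset.sum_ite_eq, Finset.mem_univ, if_true]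
  · intro a e c d
    simp only [cols hON, ite_mul, one_mul, zero_mul, Finset.sum_ite_eq, Finset.mem_univ, if_true]

end Avg

open Avg in
theorem s_avg (h : S_RCT) : S_AVG := by
  intro n ι _ _ p a R hR
  obtain ⟨h1, h2, h3, h4, h5, h6, h7, h8⟩ := hR
  obtain ⟨R', hR', hmin⟩ := exists_min (closedKK a) (R := R) ⟨h4, h5, h6, h7⟩
  obtain ⟨k4, k5, k6, k7⟩ := hR'
  refine ⟨R', ⟨h1, h2, h3, k4, k5, k6, k7, h8⟩, fun b hb => ?_⟩
  obtain ⟨hON, hst⟩ := hb
  refine unique (a := a) ⟨k4, k5, k6, k7⟩ ⟨Bic.ac k4 b, cop_Rh R' k5, ?_, ?_⟩ hmin (Q_Rh hON R')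
  · rw [scl_Rh hON, k6]
  · intro x
    rw [rc_Rh h hON, hst x, k7]

end Pool.Agent.H781.KP
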