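import Pool.Agent.H781.KP.C

/-!
Project KP, all Betti numbers (MP_4e0d62_gt): the abstract theorem.
-/

set_option autoImplicit false
set_option synthInstance.maxHeartbeats 400000
set_option maxHeartbeats 4000000
set_option linter.unusedSectionVars false

open MeasureTheory Filter
open scoped Topology ContDiff

noncomputable section

namespace Pool.Agent.H781.KP

open Pool.Agent.H781.NG Pool.Agent.H781.CM Pool.Agent.H781.H6

namespace Chic

/-- equality in all degrees from equality of the Euler characteristics -/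
theorem eq_of_sum {N : ℕ} (d : Fin (N + 1) → ℕ) (b : ℕ → ℕ) (hb : ∀ p : Fin (N + 1), b p ≤ d p)
    (hodd : ∀ p : Fin (N + 1), ¬ Even (p : ℕ) → d p = 0)
    (hsum : ∑ p : Fin (N + 1), (-1 : ℤ) ^ (p : ℕ) * (d p : ℤ) =
      ∑ p ∈ Finset.range (N + 1), (-1 : ℤ) ^ p * (b p : ℤ)) (q : Fin (N + 1)) : b q = d q := by
  have h1 : ∑ p : Fin (N + 1), ((-1 : ℤ) ^ (p : ℕ) * (d p : ℤ) - (-1 : ℤ) ^ (p : ℕ) * (b p : ℤ)) =
      0 := by
    rw [Finset.sum_sub_distrib, hsum, Finset.sum_range, sub_self]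
  have h2 : ∀ p : Fin (N + 1), (-1 : ℤ) ^ (p : ℕ) * (d p : ℤ) - (-1 : ℤ) ^ (p : ℕ) * (b p : ℤ) =
      (d p : ℤ) - b p := by
    intro p
    by_cases h : Even (p : ℕ)
    · rw [h.neg_one_pow, one_mul, one_mul]
    · have h3 := hodd p h
      have h4 : b p = 0 := Nat.le_zero.1 (h3 ▸ hb p)
      rw [h3, h4]
      simp
  rw [Finset.sum_congr rfl fun p _ => h2 p] at h1
  have h5 : ∀ p ∈ (Finset.univ : Finset (Fin (N + 1))), (0 : ℤ) ≤ (d p : ℤ) - b p := by
    intro p _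
    have := hb p
    omega
  have h6 := (Finset.sum_eq_zero_iff_of_nonneg h5).1 h1 q (Finset.mem_univ q)
  omega

end Chic

theorem s_chic (h1 : S_CHIG) (h2 : S_LIMC) (h3 : S_AVG) (h4 : S_DG1) (h5 : S_DG2) (h6 : S_DG3) :
    S_CHIC := by
  intro N n κ hnN hN3 hn2 hκ
  obtain ⟨ε, hε, H⟩ := h1 N n κ
    (fun d => (∀ p : Fin (N + 1), (p : ℕ) = 1 → d p = 0) ∧
      (4 ≤ n → ∀ p : Fin (N + 1), (p : ℕ) = 3 → d p = 0) ∧
      ∀ p : Fin (N + 1), (p : ℕ) = 2 → d p = 0 ∨ (Even n ∧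
        ∀ q : Fin (N + 1), d q = if Even (q : ℕ) ∧ (q : ℕ) ≤ n then 1 else 0))
    (by omega) hn2 hκ (by
      intro d hd
      obtain ⟨a, R, hL⟩ := h2 n N d κ hn2 hκ hd
      refine ⟨fun p hp => ?_, fun hn4 p hp => ?_, fun p hp => ?_⟩
      · by_contra hne
        exact h4 n _ _ a R hn2 hL ⟨p, ⟨0, Nat.pos_of_ne_zero hne⟩⟩ hp
      · by_contra hne
        obtain ⟨R', hL', hinv⟩ := h3 n _ _ a R hL
        exact h6 n _ _ a R' hn4 hL' hinv ⟨p, ⟨0, Nat.pos_of_ne_zero hne⟩⟩ hp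
      · by_cases hne : d p = 0
        · exact Or.inl hne
        · exact Or.inr (h5 n N d κ hn2 hκ hd p hp hne))
  refine ⟨ε, hε, fun M _ _ _ _ C hC hP hcn hMo hD hR => ?_⟩
  obtain ⟨d, ⟨hd1, hd3, hd2⟩, hd0, hb, hsum⟩ := H M C hC hP hcn hMo hD hR
  refine ⟨?_, fun hn4 => ?_, ?_⟩
  · have h := hb ⟨1, by omega⟩
    rw [hd1 ⟨1, by omega⟩ rfl] at h
    exact Nat.le_zero.1 h
  · have h := hb ⟨3, by omega⟩
    rw [hd3 hn4 ⟨3, by omega⟩ rfl] at h
    exact Nat.le_zero.1 h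
  · rcases hd2 ⟨2, by omega⟩ rfl with h0 | ⟨he, hq⟩
    · left
      have h := hb ⟨2, by omega⟩
      rw [h0] at h
      exact Nat.le_zero.1 h
    · right
      refine ⟨he, fun p hp => ?_⟩
      have h := Chic.eq_of_sum d (bet C) hb (fun q hodd => by
        rw [hq q, if_neg fun h => hodd h.1]) hsum ⟨p, by omega⟩
      rw [hq] at h
      change bet C p = _ at h
      rw [h]
      by_cases hev : Even p
      · rw [if_pos ⟨hev, hp⟩, if_pos hev]
      · rw [if_neg fun h => hev h.1, if_neg hev]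

end Pool.Agent.H781.KP
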