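import Pool.Agent.H781.KP.C

/-!
Project KP, all Betti numbers: pigeonhole (`S_CHIG`).
-/

set_option autoImplicit false
set_option synthInstance.maxHeartbeats 400000
set_option maxHeartbeats 4000000
set_option linter.unusedSectionVars false

open MeasureTheory Filter
open scoped Topology ContDiff

noncomputable section

namespace Pool.Agent.H781.KP

open Pool.Agent.H781.NG Pool.Agent.H781.CM Pool.Agent.H781.H6

namespace Chig

lemma ka_mono {n N : ℕ} {η η' κ : ℝ} {d : Fin (N + 1) → ℕ} (h : η ≤ η') (hka : KA n N η κ d) :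
    KA n N η' κ d := by
  obtain ⟨a, c, R, h1, h2, h3, h4, h5, h6, h7, h8, h9, h10⟩ := hka
  refine ⟨a, c, R, h1, h2, h3, fun x y => (h4 x y).trans h, h5, fun x y S => (h6 x y S).trans h,
    h7, ?_, h9, fun x => (h10 x).trans h⟩
  intro w hw
  refine le_trans ?_ (h8 w hw)
  have h0 : 0 ≤ ∑ a, ∑ b, w a b ^ 2 :=
    Finset.sum_nonneg fun a _ => Finset.sum_nonneg fun b _ => sq_nonneg _
  nlinarith

end Chig

theorem s_chig (h : S_FINC) : S_CHIG := by
  classical
  intro N n κ Pd hN hn hκ hPd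
  obtain ⟨D, hD⟩ : ∃ D : Finset (Fin (N + 1) → ℕ),
      D = Fintype.piFinset (fun _ => Finset.range (2 ^ N + 1)) := ⟨_, rfl⟩
  have hex : ∀ d : Fin (N + 1) → ℕ, ∃ η : ℝ, 0 < η ∧
      (KA n N η κ d → ∀ η' : ℝ, 0 < η' → KA n N η' κ d) := by
    intro d
    by_cases hd : ∀ η' : ℝ, 0 < η' → KA n N η' κ d
    · exact ⟨1, one_pos, fun _ => hd⟩
    · push Not at hd
      obtain ⟨η, hη, hn⟩ := hd
      exact ⟨η, hη, fun hc => absurd hc hn⟩
  choose g hg0 hg using hex
  have hne : D.Nonempty := by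
    refine ⟨fun _ => 0, ?_⟩
    rw [hD, Fintype.mem_piFinset]
    intro a
    rw [Finset.mem_range]
    positivity
  obtain ⟨d₀, _, hd₀⟩ := D.exists_min_image g hne
  obtain ⟨ε, hε, H⟩ := h N n κ hN hn hκ (g d₀) (hg0 d₀)
  refine ⟨ε, hε, ?_⟩
  intro M _ _ _ _ C hC hPt hConn hMoll hDen hReg
  obtain ⟨d, hka, hsum, hbet, he⟩ := H M C hC hPt hConn hMoll hDen hReg
  have hdD : d ∈ D := by
    rw [hD, Fintype.mem_piFinset]
    intro a
    rw [Finset.mem_range]
    have := Finset.single_le_sum (f := d) (fun i _ => Nat.zero_le (d i)) (Finset.mem_univ a)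
    omega
  have hd0 : d 0 = 1 := by
    obtain ⟨_, _, _, _, h2, _⟩ := hka
    exact h2
  exact ⟨d, hPd d (hg d (Chig.ka_mono (hd₀ d hdD) hka)), hd0, hbet, he⟩

end Pool.Agent.H781.KP
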