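import Pool.Agent.H781.KP.C

/-!
Elements of degree one (KC-03, by helper364 for helper781).
-/

set_option autoImplicit false
set_option synthInstance.maxHeartbeats 400000
set_option maxHeartbeats 4000000
set_option linter.unusedSectionVars false

open MeasureTheory Filter
open scoped Topology ContDiff

noncomputable section

namespace Pool.Agent.H781.KP

open Pool.Agent.H781.NG Pool.Agent.H781.CM Pool.Agent.H781.H6

namespace Dg1

open Pool.Agent.H781.CM.Lin4

variable {n : ℕ}

theorem Cv_vac (t : Fin n → ℝ) (a : Fin n) : Cv t (vac : Fk n ℝ) {a} = t a := by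
  rw [Cv_apply, Finset.sum_apply, Finset.sum_eq_single a]
  · rw [Pi.smul_apply, cr_apply, if_pos (Finset.mem_singleton_self a), smul_eq_mul]
    have h1 : (sg a ({a} : Finset (Fin n)) : ℝ) = 1 := by
      unfold sg
      rw [Finset.filter_false_of_mem (fun j hj => by
        rw [Finset.mem_singleton] at hj
        rw [hj]
        exact lt_irrefl a), Finset.card_empty, pow_zero, Int.cast_one]
    have h2 : (vac : Fk n ℝ) (({a} : Finset (Fin n)).erase a) = 1 := by
      rw [Finset.erase_singleton]
      unfold vac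
      rw [if_pos rfl]
    rw [h1, h2]
    ring
  · intro c _ hc
    rw [Pi.smul_apply, cr_apply, if_neg (by rw [Finset.mem_singleton]; exact hc), smul_zero]
  · intro h
    exact absurd (Finset.mem_univ a) h

theorem eq_Cv {w : Fk n ℝ} (hw : Deg 1 w) : w = Cv (fun i => w {i}) vac := by
  funext S
  by_cases hS : S.card = 1
  · obtain ⟨a, rfl⟩ := Finset.card_eq_one.1 hS
    rw [Cv_vac]
  · rw [hw S hS]
    have h1 : Deg (0 + 1) (Cv (fun i => w {i}) (vac : Fk n ℝ)) := by
      apply deg_Cv
      intro T hT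
      unfold vac
      rw [if_neg]
      intro h
      rw [h] at hT
      exact hT Finset.card_empty
    rw [h1 S (by rw [zero_add]; exact hS)]

theorem tau_Cv (h : Fin n → Fin n → ℝ) (t : Fin n → ℝ) :
    Tau.tau h (Cv t vac) = Cv (ac h t) vac := by
  rw [Cv_apply, map_sum]
  have h1 : ∀ i, Tau.tau h (t i • cr i (vac : Fk n ℝ)) = ∑ a, (t i * h i a) • cr a (vac : Fk n ℝ) := by
    intro i
    rw [map_smul, ← Tau.Cv_tau, Tau.tau_vac, Cv_apply, Finset.smul_sum]
    exact Finset.sum_congr rfl fun a _ => by rw [smul_smul]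
  rw [Finset.sum_congr rfl fun i _ => h1 i, Finset.sum_comm, Cv_apply]
  refine Finset.sum_congr rfl fun a _ => ?_
  rw [← Finset.sum_smul]
  rfl

theorem ip_Cv_vac (t : Fin n → ℝ) : ip (Cv t vac) (Cv t (vac : Fk n ℝ)) = dt t t := by
  unfold ip
  have h0 : ∀ S : Finset (Fin n), S.card ≠ 1 → Cv t (vac : Fk n ℝ) S = 0 := by
    have h1 : Deg (0 + 1) (Cv t (vac : Fk n ℝ)) := by
      apply deg_Cv
      intro T hT
      unfold vac
      rw [if_neg]
      intro h
      rw [h] at hT
      exact hT Finset.card_empty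
    intro S hS
    exact h1 S (by rw [zero_add]; exact hS)
  have h2 : ∑ S : Finset (Fin n), Cv t (vac : Fk n ℝ) S * Cv t (vac : Fk n ℝ) S =
      ∑ S ∈ Finset.univ.image (fun i : Fin n => ({i} : Finset (Fin n))),
        Cv t (vac : Fk n ℝ) S * Cv t (vac : Fk n ℝ) S := by
    symm
    refine Finset.sum_subset (Finset.subset_univ _) ?_
    intro S _ hS
    rw [h0 S, mul_zero]
    intro hc
    obtain ⟨a, rfl⟩ := Finset.card_eq_one.1 hc
    exact hS (Finset.mem_image_of_mem _ (Finset.mem_univ a))
  rw [h2, Finset.sum_image]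
  · unfold dt
    exact Finset.sum_congr rfl fun a _ => by rw [Cv_vac]
  · intro a _ b _ hab
    exact Finset.singleton_injective hab

end Dg1

theorem s_dg1 : S_DG1 := by
  intro n ι _ _ p a R hn hL x hx
  obtain ⟨hdeg, hip, -, -, -, -, -, htr⟩ := hL
  have hd := hdeg x
  rw [hx] at hd
  set u : Fin n → ℝ := fun i => a x {i} with hu
  have he : a x = Lin4.Cv u vac := Dg1.eq_Cv hd
  have h1 : dt u u = 1 := by
    rw [← Dg1.ip_Cv_vac, ← he, hip, if_pos rfl]
  have h2 : ∃ i, u i ≠ 1 ∧ u i ≠ -1 := by
    by_contra hc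
    push Not at hc
    have h3 : ∀ i, u i * u i = 1 := by
      intro i
      by_cases h4 : u i = 1
      · rw [h4]; norm_num
      · rw [hc i h4]; norm_num
    unfold dt at h1
    rw [Finset.sum_congr rfl fun i _ => h3 i, Finset.sum_const, Finset.card_univ,
      Fintype.card_fin, nsmul_eq_mul, mul_one] at h1
    have h5 : n = 1 := by exact_mod_cast h1
    omega
  obtain ⟨i, hi1, hi2⟩ := h2
  have h3 : dt (fun j => if j = i then (1 : ℝ) else 0) (fun j => if j = i then (1 : ℝ) else 0) = 1 := by
    unfold dt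
    rw [Finset.sum_eq_single i]
    · simp
    · intro j _ hj
      simp only [if_neg hj, mul_zero]
    · intro h
      exact absurd (Finset.mem_univ i) h
  have h4 : dt u (fun j => if j = i then (1 : ℝ) else 0) = u i := by
    unfold dt
    rw [Finset.sum_eq_single i]
    · simp
    · intro j _ hj
      simp only [if_neg hj, mul_zero]
    · intro h
      exact absurd (Finset.mem_univ i) h
  obtain ⟨h, hS, hac⟩ := htr u (fun j => if j = i then (1 : ℝ) else 0) h1 h3 (by rw [h4]; exact hi2)
  have h5 := hS.2 x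
  rw [he, Dg1.tau_Cv] at h5
  have h6 := congrFun h5 {i}
  rw [Dg1.Cv_vac, Dg1.Cv_vac, hac] at h6
  apply hi1
  rw [← h6]
  simp

end Pool.Agent.H781.KP
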