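import Pool.Agent.H781.KP.C
import Pool.Agent.H781.KP.Top

/-!
Project KP, all Betti numbers: the case of a nonzero element of degree two (`S_DG2`).
-/

set_option autoImplicit false
set_option synthInstance.maxHeartbeats 400000
set_option maxHeartbeats 4000000
set_option linter.unusedSectionVars false

noncomputable section

namespace Pool.Agent.H781.KP

open Pool.Agent.H781.NG Pool.Agent.H781.CM Pool.Agent.H781.H6

namespace Dg2

variable {n : ℕ}

theorem wX_smul_left (c : ℝ) (X : Fin n → Fin n → ℝ) (u : Fk n ℝ) :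
    wX (fun i j => c * X i j) u = c • wX X u := by
  unfold wX
  simp only [Finset.smul_sum, smul_smul]

theorem wX_smul (c : ℝ) (X : Fin n → Fin n → ℝ) (u : Fk n ℝ) :
    wX X (c • u) = c • wX X u := by
  unfold wX
  rw [Finset.smul_sum]
  refine Finset.sum_congr rfl fun i _ => ?_
  rw [Finset.smul_sum]
  refine Finset.sum_congr rfl fun j _ => ?_
  rw [map_smul, map_smul, smul_comm]

theorem pow_smul (c : ℝ) (X : Fin n → Fin n → ℝ) (k : ℕ) :
    (wX (fun i j => c * X i j))^[k] (vac : Fk n ℝ) = c ^ k • (wX X)^[k] vac := by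
  induction k with
  | zero => simp
  | succ k ih =>
    rw [Function.iterate_succ_apply', Function.iterate_succ_apply', ih, wX_smul_left, wX_smul,
      smul_smul, pow_succ']

theorem mulF_smul_right (c : ℝ) (u v : Fk n ℝ) : mulF u (c • v) = c • mulF u v := by
  funext R
  unfold mulF
  rw [Pi.smul_apply, smul_eq_mul, Finset.mul_sum]
  exact Finset.sum_congr rfl fun S _ => by rw [Pi.smul_apply, smul_eq_mul]; ring

theorem mulF_add_right (u v v' : Fk n ℝ) : mulF u (v + v') = mulF u v + mulF u v' := by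
  funext R
  unfold mulF
  rw [Pi.add_apply, ← Finset.sum_add_distrib]
  exact Finset.sum_congr rfl fun S _ => by rw [Pi.add_apply]; ring

theorem mulF_zero_right (u : Fk n ℝ) : mulF u (0 : Fk n ℝ) = 0 := by
  funext R
  unfold mulF
  simp

/-- the span of a closed family is stable under multiplication -/
theorem span_mulF {ι : Type} [Fintype ι] (a : ι → Fk n ℝ)
    (h : ∀ x y, ∃ c : ι → ℝ, mulF (a x) (a y) = ∑ z, c z • a z) (x : ι) (v : Fk n ℝ)
    (hv : v ∈ Submodule.span ℝ (Set.range a)) :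
    mulF (a x) v ∈ Submodule.span ℝ (Set.range a) := by
  induction hv using Submodule.span_induction with
  | mem w hw =>
    obtain ⟨y, rfl⟩ := hw
    obtain ⟨c, hc⟩ := h x y
    rw [hc]
    exact Submodule.sum_mem _ fun z _ =>
      Submodule.smul_mem _ _ (Submodule.subset_span ⟨z, rfl⟩)
  | zero =>
    rw [mulF_zero_right]
    exact Submodule.zero_mem _
  | add w w' _ _ hw hw' =>
    rw [mulF_add_right]
    exact Submodule.add_mem _ hw hw'
  | smul c w _ hw =>
    rw [mulF_smul_right]
    exact Submodule.smul_mem _ _ hw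

theorem span_pow {ι : Type} [Fintype ι] (h6 : S_CLIF) (a : ι → Fk n ℝ)
    (h : ∀ x y, ∃ c : ι → ℝ, mulF (a x) (a y) = ∑ z, c z • a z) (x : ι) (k : ℕ) :
    (mulF (a x))^[k + 1] vac ∈ Submodule.span ℝ (Set.range a) := by
  induction k with
  | zero =>
    rw [zero_add, Function.iterate_one, (h6 n ℝ).2.2.1]
    exact Submodule.subset_span ⟨x, rfl⟩
  | succ k ih =>
    rw [Function.iterate_succ_apply']
    exact span_mulF a h x _ ih

/-- the elements of the span have no component in a degree that does not occur -/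
theorem span_deg {ι : Type} (p : ι → ℕ) (a : ι → Fk n ℝ) (hd : ∀ x, Deg (p x) (a x)) (q : ℕ)
    (hq : ∀ x, p x ≠ q) (v : Fk n ℝ) (hv : v ∈ Submodule.span ℝ (Set.range a))
    (S : Finset (Fin n)) (hS : S.card = q) : v S = 0 := by
  induction hv using Submodule.span_induction with
  | mem w hw =>
    obtain ⟨y, rfl⟩ := hw
    exact hd y S (by rw [hS]; exact (hq y).symm)
  | zero => rfl
  | add w w' _ _ hw hw' => rw [Pi.add_apply, hw, hw', add_zero]
  | smul c w _ hw => rw [Pi.smul_apply, hw, smul_zero]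

theorem ip_zero_ne {u : Fk n ℝ} (h : ip u u = 1) : u ≠ 0 := by
  rintro rfl
  rw [ip_zero_left] at h
  exact zero_ne_one h

/-- two orthonormal vectors are not multiples of the same vector -/
theorem not_both {u v w : Fk n ℝ} {c c' : ℝ} (hu : u = c • w) (hv : v = c' • w)
    (huu : ip u u = 1) (hvv : ip v v = 1) (huv : ip u v = 0) : False := by
  rw [hu, ip_smul_left, ip_smul_right] at huu
  rw [hv, ip_smul_left, ip_smul_right] at hvv
  rw [hu, hv, ip_smul_left, ip_smul_right] at huv
  have h1 : (c * (c * ip w w)) * (c' * (c' * ip w w)) = (c * (c' * ip w w)) ^ 2 := by ring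
  rw [huu, hvv, huv] at h1
  norm_num at h1

end Dg2

open Dg2 in
theorem s_dg2 (h1 : S_LIMC) (h2 : S_AVG) (h3 : S_UFX) (h4 : S_UINV) (h5 : S_JPW)
    (h6 : S_CLIF) : S_DG2 := by
  intro n N d κ hn hκ hKA p hp hdp
  obtain ⟨a, Ra, hL0⟩ := h1 n N d κ hn hκ hKA
  obtain ⟨R, hL, hR⟩ := h2 n _ (fun x => (x.1 : ℕ)) a Ra hL0
  have hpos : 0 < d p := Nat.pos_of_ne_zero hdp
  obtain ⟨J, l, hJ, hl, hax, hfix⟩ :=
    h3 n _ (fun x => (x.1 : ℕ)) a R hn hL hR ⟨p, ⟨0, hpos⟩⟩ hp
  obtain ⟨hev, hpw⟩ := h5 n J hJ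
  obtain ⟨hdeg, hip, hmul, -⟩ := hL
  have hinv : ∀ x : (Σ p, Fin (d p)), (Odd (x.1 : ℕ) → a x = 0) ∧
      ∀ k, (x.1 : ℕ) = 2 * k → ∃ c : ℝ, a x = c • (wX J)^[k] vac := fun x =>
    h4 n J hJ (x.1 : ℕ) (a x) (hdeg x) fun X hX hc => hfix X hX hc x
  have hne : ∀ x, a x ≠ 0 := fun x => ip_zero_ne (by rw [hip, if_pos rfl])
  refine ⟨hev, fun q => ?_⟩
  by_cases hqe : Even (q : ℕ)
  · by_cases hqn : (q : ℕ) ≤ n
    · rw [if_pos ⟨hqe, hqn⟩]
      obtain ⟨k, hk⟩ := hqe
      have hk2 : (q : ℕ) = 2 * k := by omega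
      have hle : d q ≤ 1 := by
        by_contra hcon
        have hd1 : 1 < d q := not_le.1 hcon
        have hd0 : 0 < d q := by omega
        obtain ⟨c, hc⟩ := (hinv ⟨q, ⟨0, hd0⟩⟩).2 k hk2
        obtain ⟨c', hc'⟩ := (hinv ⟨q, ⟨1, hd1⟩⟩).2 k hk2
        have hne' : ((⟨q, ⟨0, hd0⟩⟩ : Σ p, Fin (d p))) ≠ ⟨q, ⟨1, hd1⟩⟩ := by
          intro h
          have h6 := eq_of_heq (Sigma.mk.inj_iff.1 h).2
          have h7 := congrArg Fin.val h6
          simp at h7
        exact not_both hc hc' (by rw [hip, if_pos rfl]) (by rw [hip, if_pos rfl])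
          (by rw [hip, if_neg hne'])
      have hge : d q ≠ 0 := by
        intro hz
        rcases Nat.eq_zero_or_pos k with hk0 | hk0
        · obtain ⟨_, _, _, _, hd0, _⟩ := hKA 1 one_pos
          have hq0 : q = 0 := by
            apply Fin.ext
            rw [hk2, hk0]
            rfl
          rw [hq0, hd0] at hz
          exact one_ne_zero hz
        · obtain ⟨m, rfl⟩ : ∃ m, k = m + 1 := ⟨k - 1, by omega⟩
          have hX : Sk (fun i j => l * J i j) := fun i j => by
            show l * J i j = - (l * J j i)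
            rw [hJ.1 i j]
            ring
          have hax' : wX (fun i j => l * J i j) vac = a ⟨p, ⟨0, hpos⟩⟩ := by
            rw [hax, wX_smul_left]
          have hsp := span_pow h6 a hmul ⟨p, ⟨0, hpos⟩⟩ m
          have hnq : ∀ x : (Σ p, Fin (d p)), (x.1 : ℕ) ≠ (q : ℕ) := by
            rintro ⟨r, i⟩ hr
            have hr' : r = q := Fin.ext hr
            subst hr'
            have := i.2
            omega
          have hz0 : (wX (fun i j => l * J i j))^[m + 1] (vac : Fk n ℝ) = 0 := by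
            funext S
            by_cases hS : S.card = 2 * (m + 1)
            · have e1 := Top.diff_pow h6 (fun i j => l * J i j) hX (m + 1) S hS.ge
              rw [hax', Pi.sub_apply,
                span_deg (fun x => (x.1 : ℕ)) a hdeg (q : ℕ) hnq _ hsp S (by rw [hS, hk2]),
                zero_sub, neg_eq_zero] at e1
              exact e1
            · exact Top.deg_pow _ (m + 1) S hS
          rw [pow_smul, smul_eq_zero] at hz0
          rcases hz0 with hz0 | hz0
          · exact pow_ne_zero _ hl hz0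
          · exact hpw (m + 1) (by omega) hz0
      omega
    · rw [if_neg fun h => hqn h.2]
      by_contra hcon
      refine hne ⟨q, ⟨0, Nat.pos_of_ne_zero hcon⟩⟩ ?_
      funext S
      refine hdeg ⟨q, ⟨0, Nat.pos_of_ne_zero hcon⟩⟩ S ?_
      have h7 : S.card ≤ n := by
        have := Finset.card_le_univ S
        rwa [Fintype.card_fin] at this
      show S.card ≠ (q : ℕ)
      omega
  · rw [if_neg fun h => hqe h.1]
    by_contra hcon
    exact hne ⟨q, ⟨0, Nat.pos_of_ne_zero hcon⟩⟩
      ((hinv ⟨q, ⟨0, Nat.pos_of_ne_zero hcon⟩⟩).1 (Nat.not_even_iff_odd.1 hqe))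

end Pool.Agent.H781.KP
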