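import Pool.Agent.H781.KP.C

/-!
Elements of degree three (KC-17, by helper116 for helper781).
-/

set_option autoImplicit false
set_option synthInstance.maxHeartbeats 400000
set_option maxHeartbeats 4000000
set_option linter.unusedSectionVars false

open MeasureTheory Filter
open scoped Topology ContDiff

noncomputable section

namespace Pool.Agent.H781.KP

open Pool.Agent.H781.NG Pool.Agent.H781.CM Pool.Agent.H781.H6

namespace Dg3

variable {n : ℕ}

theorem sum3 (F : Fin n → Fin n → Fin n → ℝ) :
    ∑ e, ∑ b, ∑ f, F e b f = ∑ b, ∑ f, ∑ e, F e b f := by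
  rw [Finset.sum_comm]
  exact Finset.sum_congr rfl fun b _ => Finset.sum_comm

theorem sum4 (F : Fin n → Fin n → Fin n → Fin n → ℝ) :
    ∑ e, ∑ f, ∑ a, ∑ b, F e f a b = ∑ a, ∑ b, ∑ f, ∑ e, F e f a b := by
  rw [Finset.sum_comm]
  calc ∑ f, ∑ e, ∑ a, ∑ b, F e f a b = ∑ f, ∑ a, ∑ b, ∑ e, F e f a b :=
        Finset.sum_congr rfl fun f _ => sum3 _
    _ = ∑ a, ∑ b, ∑ f, ∑ e, F e f a b := sum3 _

/-- the product given by a 3-tensor -/
def pr (t : Fin n → Fin n → Fin n → ℝ) :
    (Fin n → ℝ) →ₗ[ℝ] (Fin n → ℝ) →ₗ[ℝ] (Fin n → ℝ) :=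
  LinearMap.mk₂ ℝ (fun x y c => ∑ a, ∑ b, x a * y b * t a b c)
    (fun x x' y => by
      funext c
      simp only [Pi.add_apply]
      rw [← Finset.sum_add_distrib]
      refine Finset.sum_congr rfl fun a _ => ?_
      rw [← Finset.sum_add_distrib]
      exact Finset.sum_congr rfl fun b _ => by ring)
    (fun r x y => by
      funext c
      simp only [Pi.smul_apply, smul_eq_mul]
      rw [Finset.mul_sum]
      refine Finset.sum_congr rfl fun a _ => ?_
      rw [Finset.mul_sum]
      exact Finset.sum_congr rfl fun b _ => by ring)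
    (fun x y y' => by
      funext c
      simp only [Pi.add_apply]
      rw [← Finset.sum_add_distrib]
      refine Finset.sum_congr rfl fun a _ => ?_
      rw [← Finset.sum_add_distrib]
      exact Finset.sum_congr rfl fun b _ => by ring)
    (fun r x y => by
      funext c
      simp only [Pi.smul_apply, smul_eq_mul]
      rw [Finset.mul_sum]
      refine Finset.sum_congr rfl fun a _ => ?_
      rw [Finset.mul_sum]
      exact Finset.sum_congr rfl fun b _ => by ring)

theorem pr_apply (t : Fin n → Fin n → Fin n → ℝ) (x y : Fin n → ℝ) (c : Fin n) :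
    pr t x y c = ∑ a, ∑ b, x a * y b * t a b c := rfl

theorem pr_skew {t : Fin n → Fin n → Fin n → ℝ} (h : Al3 t) (x y : Fin n → ℝ) :
    pr t x y = - pr t y x := by
  funext c
  rw [Pi.neg_apply, pr_apply, pr_apply, Finset.sum_comm, ← Finset.sum_neg_distrib]
  refine Finset.sum_congr rfl fun b _ => ?_
  rw [← Finset.sum_neg_distrib]
  refine Finset.sum_congr rfl fun a _ => ?_
  rw [h.1 a b c]
  ring

theorem pr_inv {t : Fin n → Fin n → Fin n → ℝ} (h : Al3 t) (x y z : Fin n → ℝ) :
    dt (pr t x y) z = - dt y (pr t x z) := by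
  unfold dt
  simp only [pr_apply, Finset.sum_mul, Finset.mul_sum]
  rw [← Finset.sum_neg_distrib]
  have h1 : ∀ c : Fin n, -∑ a, ∑ b, y c * (x a * z b * t a b c) =
      ∑ a, ∑ b, -(y c * (x a * z b * t a b c)) := by
    intro c
    rw [← Finset.sum_neg_distrib]
    exact Finset.sum_congr rfl fun a _ => by rw [← Finset.sum_neg_distrib]
  rw [Finset.sum_congr rfl fun c _ => h1 c, sum3]
  refine Eq.trans ?_ (sum3 _).symm
  refine Finset.sum_congr rfl fun a _ => ?_
  rw [Finset.sum_comm]
  refine Finset.sum_congr rfl fun b _ => ?_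
  refine Finset.sum_congr rfl fun c _ => ?_
  rw [h.2 a b c]
  ring

theorem pr_jac {t : Fin n → Fin n → Fin n → ℝ} (h : Al3 t)
    (hE : ∀ (v : Fin n → ℝ) a b c, x3 (fun i j => ∑ e, v e * t e i j) t a b c = 0)
    (x y z : Fin n → ℝ) :
    pr t (pr t x y) z = pr t x (pr t y z) - pr t y (pr t x z) := by
  have hJ : ∀ a b f c, ∑ e, t a b e * t e f c =
      ∑ e, t b f e * t a e c - ∑ e, t a f e * t b e c := by
    intro a b f c
    have h1 := hE (Pi.single a 1) b f c
    unfold x3 at h1
    have h2 : ∀ i j : Fin n, ∑ e, (Pi.single a 1 : Fin n → ℝ) e * t e i j = t a i j := by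
      intro i j
      rw [Finset.sum_eq_single a]
      · rw [Pi.single_eq_same, one_mul]
      · intro e _ he
        rw [Pi.single_eq_of_ne he, zero_mul]
      · intro h0
        exact absurd (Finset.mem_univ a) h0
    simp only [h2] at h1
    rw [← Finset.sum_sub_distrib, ← sub_eq_zero, ← Finset.sum_sub_distrib, ← h1]
    refine Finset.sum_congr rfl fun e _ => ?_
    rw [h.2 a c e]
    ring
  funext c
  have e1 : pr t (pr t x y) z c =
      ∑ a, ∑ b, ∑ f, x a * y b * z f * ∑ e, t a b e * t e f c := by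
    simp only [pr_apply, Finset.sum_mul, Finset.mul_sum]
    rw [sum4]
    refine Finset.sum_congr rfl fun a _ => Finset.sum_congr rfl fun b _ =>
      Finset.sum_congr rfl fun f _ => Finset.sum_congr rfl fun e _ => ?_
    ring
  have e2 : pr t x (pr t y z) c =
      ∑ a, ∑ b, ∑ f, x a * y b * z f * ∑ e, t b f e * t a e c := by
    simp only [pr_apply, Finset.sum_mul, Finset.mul_sum]
    refine Finset.sum_congr rfl fun a _ => ?_
    rw [sum3]
    refine Finset.sum_congr rfl fun b _ =>
      Finset.sum_congr rfl fun f _ => Finset.sum_congr rfl fun e _ => ?_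
    ring
  have e3 : pr t y (pr t x z) c =
      ∑ a, ∑ b, ∑ f, x a * y b * z f * ∑ e, t a f e * t b e c := by
    simp only [pr_apply, Finset.sum_mul, Finset.mul_sum]
    refine Eq.trans (Finset.sum_congr rfl fun b _ => sum3 _) ?_
    rw [Finset.sum_comm]
    refine Finset.sum_congr rfl fun a _ => Finset.sum_congr rfl fun b _ =>
      Finset.sum_congr rfl fun f _ => Finset.sum_congr rfl fun e _ => ?_
    ring
  rw [Pi.sub_apply, e1, e2, e3, ← Finset.sum_sub_distrib]
  refine Finset.sum_congr rfl fun a _ => ?_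
  rw [← Finset.sum_sub_distrib]
  refine Finset.sum_congr rfl fun b _ => ?_
  rw [← Finset.sum_sub_distrib]
  refine Finset.sum_congr rfl fun f _ => ?_
  rw [hJ]
  ring

/-- the linear map given by a matrix -/
def acL (h : Fin n → Fin n → ℝ) : (Fin n → ℝ) →ₗ[ℝ] (Fin n → ℝ) where
  toFun := ac h
  map_add' u v := by
    funext c
    simp only [ac, Pi.add_apply, add_mul, Finset.sum_add_distrib]
  map_smul' r u := by
    funext c
    simp only [ac, Pi.smul_apply, smul_eq_mul, RingHom.id_apply, Finset.mul_sum, mul_assoc]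

theorem acL_apply (h : Fin n → Fin n → ℝ) (v : Fin n → ℝ) (c : Fin n) :
    acL h v c = ∑ i, v i * h i c := rfl

theorem dt_acL {h : Fin n → Fin n → ℝ} (hh : ON h) (u v : Fin n → ℝ) :
    dt (acL h u) (acL h v) = dt u v := by
  unfold dt
  simp only [acL_apply, Finset.sum_mul_sum]
  rw [sum3]
  refine Finset.sum_congr rfl fun i _ => ?_
  rw [Finset.sum_eq_single i]
  · have h1 : ∑ a, h i a * h i a = 1 := by
      have := hh i i
      rw [if_pos rfl] at this
      exact this
    have h2 : ∀ a, u i * h i a * (v i * h i a) = u i * v i * (h i a * h i a) := fun a => by ring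
    rw [Finset.sum_congr rfl fun a _ => h2 a, ← Finset.mul_sum, h1, mul_one]
  · intro j _ hj
    have h1 : ∑ a, h i a * h j a = 0 := by
      have := hh i j
      rw [if_neg (Ne.symm hj)] at this
      exact this
    have h2 : ∀ a, u i * h i a * (v j * h j a) = u i * v j * (h i a * h j a) := fun a => by ring
    rw [Finset.sum_congr rfl fun a _ => h2 a, ← Finset.mul_sum, h1, mul_zero]
  · intro h0
    exact absurd (Finset.mem_univ i) h0

theorem cols {h : Fin n → Fin n → ℝ} (hh : ON h) (c c' : Fin n) :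
    ∑ k, h k c * h k c' = if c = c' then 1 else 0 := by
  have h1 : (Matrix.of h) * (Matrix.of h).transpose = 1 := by
    ext i j
    rw [Matrix.mul_apply, Matrix.one_apply]
    exact hh i j
  have h2 : (Matrix.of h).transpose * (Matrix.of h) = 1 := mul_eq_one_comm.1 h1
  have h3 := congrFun (congrFun h2 c) c'
  rw [Matrix.mul_apply, Matrix.one_apply] at h3
  exact h3

theorem hom {t : Fin n → Fin n → Fin n → ℝ} {h : Fin n → Fin n → ℝ} (hh : ON h)
    (ht : ∀ i j k, ∑ a, ∑ b, ∑ c, h i a * h j b * h k c * t a b c = t i j k)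
    (u v : Fin n → ℝ) : acL h (pr t u v) = pr t (acL h u) (acL h v) := by
  have key : ∀ i j c, ∑ k, t i j k * h k c = ∑ a, ∑ b, h i a * h j b * t a b c := by
    intro i j c
    have e1 : ∀ k, t i j k * h k c = ∑ a, ∑ b, ∑ c', h i a * h j b * t a b c' * (h k c' * h k c) := by
      intro k
      rw [← ht i j k]
      simp only [Finset.sum_mul]
      refine Finset.sum_congr rfl fun a _ => Finset.sum_congr rfl fun b _ =>
        Finset.sum_congr rfl fun c' _ => ?_
      ring
    rw [Finset.sum_congr rfl fun k _ => e1 k, sum3]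
    refine Finset.sum_congr rfl fun a _ => Finset.sum_congr rfl fun b _ => ?_
    rw [Finset.sum_comm, Finset.sum_eq_single c]
    · rw [← Finset.mul_sum, cols hh, if_pos rfl, mul_one]
    · intro c' _ hc'
      rw [← Finset.mul_sum, cols hh, if_neg hc', mul_zero]
    · intro h0
      exact absurd (Finset.mem_univ c) h0
  funext c
  have e1 : acL h (pr t u v) c = ∑ i, ∑ j, u i * v j * ∑ k, t i j k * h k c := by
    rw [acL_apply]
    simp only [pr_apply, Finset.sum_mul, Finset.mul_sum]
    rw [sum3]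
    refine Finset.sum_congr rfl fun i _ => Finset.sum_congr rfl fun j _ =>
      Finset.sum_congr rfl fun k _ => ?_
    ring
  have e2 : pr t (acL h u) (acL h v) c =
      ∑ i, ∑ j, u i * v j * ∑ a, ∑ b, h i a * h j b * t a b c := by
    rw [pr_apply]
    simp only [acL_apply, Finset.sum_mul_sum]
    simp only [Finset.sum_mul, Finset.mul_sum]
    rw [sum4]
    refine Finset.sum_congr rfl fun i _ => Finset.sum_congr rfl fun j _ => ?_
    rw [Finset.sum_comm]
    refine Finset.sum_congr rfl fun a _ => Finset.sum_congr rfl fun b _ => ?_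
    ring
  rw [e1, e2]
  refine Finset.sum_congr rfl fun i _ => Finset.sum_congr rfl fun j _ => ?_
  rw [key]

theorem ip_self_eq_zero {u : Fk n ℝ} (h : ip u u ≤ 0) : u = 0 := by
  unfold ip at h
  have h1 : ∀ S ∈ (Finset.univ : Finset (Finset (Fin n))), 0 ≤ u S * u S :=
    fun S _ => mul_self_nonneg _
  have h2 := (Finset.sum_eq_zero_iff_of_nonneg h1).1 (le_antisymm h (Finset.sum_nonneg h1))
  funext S
  exact mul_self_eq_zero.1 (h2 S (Finset.mem_univ S))

end Dg3

open Dg3 in
theorem s_dg3 (h1 : S_T3F) (h2 : S_EIN) (h3 : S_E3) (h4 : S_TL3) (h5 : S_HKA) : S_DG3 := by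
  intro n ι _ _ p a R hn hL hR x hx
  have hE := h2 n ι p a R (by omega) hL hR
  obtain ⟨hdeg, hip, -, hAC, hCO, -, hrc, htr⟩ := hL
  obtain ⟨t, hAl, ht0, htX, hth⟩ := h1 n (a x) (hx ▸ hdeg x)
  have hw : ∀ w, Sk w → ∀ a b c, x3 (Xw R w) t a b c = 0 := by
    intro w hw
    obtain ⟨hSk, -, hu⟩ := h5 n R hAC hCO w hw
    refine htX (Xw R w) hSk (ip_self_eq_zero ?_)
    have := hu (a x)
    rwa [hrc, mul_zero] at this
  have hn0 : (n : ℝ) ≠ 0 := by
    have : n ≠ 0 := by omega
    exact_mod_cast this
  have hJ := h3 n R (1 / (n : ℝ)) t hAC hE (one_div_ne_zero hn0) hAl hw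
  have hTL : TL (pr t) := by
    refine ⟨pr_skew hAl, pr_inv hAl, pr_jac hAl hJ, fun v v' hv hv' hvv => ?_⟩
    obtain ⟨h, ⟨hON, hTau⟩, hac⟩ := htr v v' hv hv' hvv
    exact ⟨acL h, dt_acL hON, hac, hom hON (hth h hON (hTau x))⟩
  have hne : ∃ v w, pr t v w ≠ 0 := by
    by_contra h0
    push Not at h0
    have h6 : a x = 0 := by
      refine ht0 fun i j k => ?_
      have h7 := congrFun (h0 (Pi.single i 1) (Pi.single j 1)) k
      rw [pr_apply, Finset.sum_eq_single i, Finset.sum_eq_single j] at h7
      · rw [Pi.single_eq_same, Pi.single_eq_same, one_mul, one_mul] at h7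
        exact h7
      · intro b _ hb
        rw [Pi.single_eq_of_ne hb, mul_zero, zero_mul]
      · intro h8
        exact absurd (Finset.mem_univ j) h8
      · intro b _ hb
        refine Finset.sum_eq_zero fun c _ => ?_
        rw [Pi.single_eq_of_ne hb, zero_mul, zero_mul]
      · intro h8
        exact absurd (Finset.mem_univ i) h8
    have h7 := hip x x
    rw [h6, if_pos rfl, ip_zero_left] at h7
    exact zero_ne_one h7
  have := h4 n (pr t) hTL hne
  omega

end Pool.Agent.H781.KP
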