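import Pool.Agent.H781.KP.C

/-!
Project KP: an invariant 3-tensor defines a Lie algebra (helper972 for helper781).
-/

set_option autoImplicit false
set_option synthInstance.maxHeartbeats 400000
set_option maxHeartbeats 4000000
set_option linter.unusedSectionVars false

open MeasureTheory Filter
open scoped Topology ContDiff

noncomputable section

namespace Pool.Agent.H781.KP

open Pool.Agent.H781.NG Pool.Agent.H781.CM Pool.Agent.H781.H6

namespace E3

variable {n : ℕ} {R : T4 n} {ρ : ℝ} {t : Fin n → Fin n → Fin n → ℝ}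

/-- the invariance in indices -/
lemma inv (hR : IsAC R) (hinv : ∀ w, Sk w → ∀ a b c, x3 (Xw R w) t a b c = 0)
    (p q a b c : Fin n) :
    ∑ e, (R p q a e * t e b c + R p q b e * t a e c + R p q c e * t a b e) = 0 := by
  obtain ⟨w, hw⟩ : ∃ w : Fin n → Fin n → ℝ, w = fun i j =>
    (if i = p then 1 else 0) * (if j = q then 1 else 0) -
      (if i = q then 1 else 0) * (if j = p then 1 else 0) := ⟨_, rfl⟩
  have hsk : Sk w := by
    intro i j
    rw [hw]
    ring
  have h := hinv w hsk a b c
  have hX : ∀ c d, Xw R w c d = 2 * R p q c d := by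
    intro c d
    unfold Xw
    rw [hw]
    simp only [mul_sub, Finset.sum_sub_distrib]
    have h1 : ∑ x, ∑ y, R x y c d * ((if x = p then (1 : ℝ) else 0) * (if y = q then 1 else 0)) =
        R p q c d := by
      rw [Finset.sum_eq_single_of_mem p (Finset.mem_univ p)]
      · rw [Finset.sum_eq_single_of_mem q (Finset.mem_univ q)]
        · simp
        · intro y _ hy
          simp [hy]
      · intro x _ hx
        simp [hx]
    have h2 : ∑ x, ∑ y, R x y c d * ((if x = q then (1 : ℝ) else 0) * (if y = p then 1 else 0)) =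
        R q p c d := by
      rw [Finset.sum_eq_single_of_mem q (Finset.mem_univ q)]
      · rw [Finset.sum_eq_single_of_mem p (Finset.mem_univ p)]
        · simp
        · intro y _ hy
          simp [hy]
      · intro x _ hx
        simp [hx]
    rw [h1, h2, hR.a12 q p]
    ring
  unfold x3 at h
  simp only [hX] at h
  have h3 : ∑ e, (2 * R p q a e * t e b c + 2 * R p q b e * t a e c + 2 * R p q c e * t a b e) =
      2 * ∑ e, (R p q a e * t e b c + R p q b e * t a e c + R p q c e * t a b e) := by
    rw [Finset.mul_sum]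
    refine Finset.sum_congr rfl fun e _ => ?_
    ring
  rw [h3] at h
  linarith

/-- the value of the curvature operator at `t x` -/
def q (R : T4 n) (t : Fin n → Fin n → Fin n → ℝ) (x y z : Fin n) : ℝ :=
  ∑ i, ∑ j, t x i j * R i j y z

lemma cyc (ht : Al3 t) (x y z : Fin n) : t z x y = t x y z := by
  rw [ht.1 z x y, ht.2 x z y, neg_neg]

lemma qA (hR : IsAC R) (ht : Al3 t) (x y z : Fin n) :
    q R t x y z = 2 * ∑ i, ∑ j, t x i j * R i y j z := by
  have h1 : ∑ i, ∑ j, t x i j * R j y i z = - ∑ i, ∑ j, t x i j * R i y j z := by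
    rw [Finset.sum_comm, ← Finset.sum_neg_distrib]
    refine Finset.sum_congr rfl fun i _ => ?_
    rw [← Finset.sum_neg_distrib]
    refine Finset.sum_congr rfl fun j _ => ?_
    rw [ht.2 x j i]
    ring
  have h2 : q R t x y z = ∑ i, ∑ j, t x i j * R i y j z - ∑ i, ∑ j, t x i j * R j y i z := by
    unfold q
    rw [← Finset.sum_sub_distrib]
    refine Finset.sum_congr rfl fun i _ => ?_
    rw [← Finset.sum_sub_distrib]
    refine Finset.sum_congr rfl fun j _ => ?_
    have hb := hR.bi i j y z
    have h12 := hR.a12 y i j z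
    have h3 : R i j y z = R i y j z - R j y i z := by linarith
    rw [h3]
    ring
  rw [h2, h1]
  ring

lemma qB (hR : IsAC R) (ht : Al3 t) (x y z : Fin n) :
    ∑ i, ∑ e, t z e i * R i y x e = - (1 / 2) * q R t z x y := by
  have h1 : ∑ i, ∑ e, t z e i * R i y x e = - ∑ i, ∑ e, t z e i * R e y x i := by
    rw [Finset.sum_comm, ← Finset.sum_neg_distrib]
    refine Finset.sum_congr rfl fun i _ => ?_
    rw [← Finset.sum_neg_distrib]
    refine Finset.sum_congr rfl fun j _ => ?_
    rw [ht.2 z i j]
    ring
  have h2 : q R t z x y = ∑ i, ∑ e, t z e i * R e y x i - ∑ i, ∑ e, t z e i * R i y x e := by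
    unfold q
    rw [Finset.sum_comm, ← Finset.sum_sub_distrib]
    refine Finset.sum_congr rfl fun i _ => ?_
    rw [← Finset.sum_sub_distrib]
    refine Finset.sum_congr rfl fun e _ => ?_
    have hb := hR.bi x e i y
    have p1 := hR.pr i y x e
    have p2 := hR.pr e y x i
    have h12 := hR.a12 i x e y
    have h3 : R e i x y = R e y x i - R i y x e := by linarith
    rw [h3]
    ring
  rw [h2]
  linarith

lemma qC (hR : IsAC R) (hric : ∀ i j, ∑ c, R c i j c = if i = j then ρ else 0) (ht : Al3 t)
    (hinv : ∀ w, Sk w → ∀ a b c, x3 (Xw R w) t a b c = 0) (x y z : Fin n) :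
    q R t x y z + q R t z x y = - 2 * ρ * t x y z := by
  have h1 : ∑ i, ∑ e, (R i y z e * t e x i + R i y x e * t z e i + R i y i e * t z x e) = 0 :=
    Finset.sum_eq_zero fun i _ => inv hR hinv i y z x i
  simp only [Finset.sum_add_distrib] at h1
  have e1 : ∑ i, ∑ e, R i y z e * t e x i = - ∑ i, ∑ j, t x i j * R i y j z := by
    rw [← Finset.sum_neg_distrib]
    refine Finset.sum_congr rfl fun i _ => ?_
    rw [← Finset.sum_neg_distrib]
    refine Finset.sum_congr rfl fun e _ => ?_
    rw [cyc ht x i e, hR.a34 i y z e]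
    ring
  have e2 : ∑ i, ∑ e, R i y x e * t z e i = ∑ i, ∑ e, t z e i * R i y x e := by
    refine Finset.sum_congr rfl fun i _ => ?_
    refine Finset.sum_congr rfl fun e _ => ?_
    ring
  have e3 : ∑ i, ∑ e, R i y i e * t z x e = - ρ * t x y z := by
    rw [Finset.sum_comm]
    have h2 : ∀ e, ∑ i, R i y i e * t z x e = if y = e then - ρ * t z x e else 0 := by
      intro e
      rw [← Finset.sum_mul]
      have h3 : ∑ i, R i y i e = - ∑ i, R i y e i := by
        rw [← Finset.sum_neg_distrib]
        exact Finset.sum_congr rfl fun i _ => hR.a34 i y i e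
      rw [h3, hric]
      split_ifs <;> ring
    rw [Finset.sum_congr rfl fun e _ => h2 e, Finset.sum_ite_eq, if_pos (Finset.mem_univ y),
      cyc ht x y z]
  rw [e1, e2, e3, qB hR ht] at h1
  rw [qA hR ht x y z]
  linarith

lemma qD (hR : IsAC R) (hric : ∀ i j, ∑ c, R c i j c = if i = j then ρ else 0) (ht : Al3 t)
    (hinv : ∀ w, Sk w → ∀ a b c, x3 (Xw R w) t a b c = 0) (x y z : Fin n) :
    q R t x y z = - ρ * t x y z := by
  have h1 := qC hR hric ht hinv x y z
  have h2 := qC hR hric ht hinv y z x
  have h3 := qC hR hric ht hinv z x y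
  have e1 : t z x y = t x y z := cyc ht x y z
  have e2 : t y z x = t x y z := by rw [← cyc ht y z x]
  rw [e2] at h2
  rw [e1] at h3
  linarith

end E3

/-- an invariant 3-tensor defines a Lie algebra -/
theorem s_e3 : S_E3 := by
  intro n R ρ t hR hric hρ ht hinv v a b c
  have hsk : Sk (fun i j => ∑ e, v e * t e i j) := by
    intro i j
    simp only
    rw [← Finset.sum_neg_distrib]
    refine Finset.sum_congr rfl fun e _ => ?_
    rw [ht.2 e i j]
    ring
  have h := hinv _ hsk a b c
  have hX : Xw R (fun i j => ∑ e, v e * t e i j) = fun c d => - ρ * ∑ e, v e * t e c d := by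
    funext c d
    unfold Xw
    have h1 : ∀ i j, R i j c d * ∑ e, v e * t e i j = ∑ e, v e * (t e i j * R i j c d) := by
      intro i j
      rw [Finset.mul_sum]
      refine Finset.sum_congr rfl fun e _ => ?_
      ring
    simp only [h1]
    have h2 : ∀ i, ∑ j, ∑ e, v e * (t e i j * R i j c d) =
        ∑ e, ∑ j, v e * (t e i j * R i j c d) := fun i => Finset.sum_comm
    simp only [h2]
    rw [Finset.sum_comm, Finset.mul_sum]
    refine Finset.sum_congr rfl fun e _ => ?_
    have h3 := E3.qD hR hric ht hinv e c d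
    unfold E3.q at h3
    simp only [← Finset.mul_sum]
    rw [h3]
    ring
  rw [hX] at h
  unfold x3 at h ⊢
  have h4 : ∑ e, ((- ρ * ∑ e', v e' * t e' a e) * t e b c + (- ρ * ∑ e', v e' * t e' b e) * t a e c +
      (- ρ * ∑ e', v e' * t e' c e) * t a b e) =
      - ρ * ∑ e, ((∑ e', v e' * t e' a e) * t e b c + (∑ e', v e' * t e' b e) * t a e c +
        (∑ e', v e' * t e' c e) * t a b e) := by
    rw [Finset.mul_sum]
    refine Finset.sum_congr rfl fun e _ => ?_
    ring
  rw [h4] at h
  rcases mul_eq_zero.1 h with h5 | h5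
  · exact absurd (neg_eq_zero.1 h5) hρ
  · exact h5

end Pool.Agent.H781.KP
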