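import Pool.Agent.H781.KP.C

/-!
The Ricci tensor of an invariant curvature tensor is a multiple of the metric.
-/

set_option autoImplicit false
set_option synthInstance.maxHeartbeats 400000
set_option maxHeartbeats 4000000
set_option linter.unusedSectionVars false

noncomputable section

namespace Pool.Agent.H781.KP

open Pool.Agent.H781.NG Pool.Agent.H781.CM Pool.Agent.H781.H6

namespace Ein

variable {n : ℕ}

/-- Ricci tensor -/
def Ri (R : T4 n) (i j : Fin n) : ℝ := ∑ c, R c i j c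

theorem Ri_symm {R : T4 n} (hR : IsAC R) (i j : Fin n) : Ri R i j = Ri R j i := by
  unfold Ri
  refine Finset.sum_congr rfl fun c _ => ?_
  rw [hR.pr c i j c, hR.a12 j c c i, hR.a34 c j c i, neg_neg]

theorem cols {h : Fin n → Fin n → ℝ} (hh : ON h) (a d : Fin n) :
    ∑ c, h c a * h c d = if a = d then 1 else 0 := by
  have h1 : Matrix.of h * (Matrix.of h).transpose = 1 := by
    ext i j
    rw [Matrix.mul_apply, Matrix.one_apply]
    exact hh i j
  have h2 := mul_eq_one_comm.mp h1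
  have h3 := congrFun (congrFun h2 a) d
  rw [Matrix.mul_apply, Matrix.one_apply] at h3
  exact h3

theorem ric_inv {R : T4 n} {h : Fin n → Fin n → ℝ} (hh : ON h) (hR : Rh R h = R) (i j : Fin n) :
    Ri R i j = ∑ b, ∑ e, Ri R b e * h i b * h j e := by
  have h1 : Ri R i j = ∑ c, R4 R (h c) (h i) (h j) (h c) := by
    conv_lhs => rw [← hR]
    rfl
  have h2 : ∀ a b e d, ∑ c, R a b e d * h c a * h i b * h j e * h c d =
      R a b e d * h i b * h j e * (if a = d then 1 else 0) := by
    intro a b e d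
    rw [← cols hh a d, Finset.mul_sum]
    exact Finset.sum_congr rfl fun c _ => by ring
  have h3 : ∑ c, ∑ a, ∑ b, ∑ e, ∑ d, R a b e d * h c a * h i b * h j e * h c d =
      ∑ a, ∑ b, ∑ e, ∑ d, ∑ c, R a b e d * h c a * h i b * h j e * h c d := by
    rw [Finset.sum_comm]
    refine Finset.sum_congr rfl fun a _ => ?_
    rw [Finset.sum_comm]
    refine Finset.sum_congr rfl fun b _ => ?_
    rw [Finset.sum_comm]
    refine Finset.sum_congr rfl fun e _ => ?_
    rw [Finset.sum_comm]
  rw [h1]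
  unfold R4
  rw [h3]
  simp only [h2, mul_ite, mul_one, mul_zero, Finset.sum_ite_eq, Finset.mem_univ, if_true]
  rw [Finset.sum_comm]
  refine Finset.sum_congr rfl fun b _ => ?_
  rw [Finset.sum_comm]
  refine Finset.sum_congr rfl fun e _ => ?_
  unfold Ri
  rw [Finset.sum_mul, Finset.sum_mul]

/-- the quadratic form -/
def Q (R : T4 n) (v : Fin n → ℝ) : ℝ := ∑ b, ∑ e, Ri R b e * v b * v e

theorem swap4 (f : Fin n → Fin n → Fin n → Fin n → ℝ) :
    ∑ b, ∑ e, ∑ i, ∑ j, f b e i j = ∑ i, ∑ j, ∑ b, ∑ e, f b e i j := by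
  calc ∑ b, ∑ e, ∑ i, ∑ j, f b e i j = ∑ b, ∑ i, ∑ e, ∑ j, f b e i j :=
        Finset.sum_congr rfl fun b _ => Finset.sum_comm
    _ = ∑ i, ∑ b, ∑ e, ∑ j, f b e i j := Finset.sum_comm
    _ = ∑ i, ∑ b, ∑ j, ∑ e, f b e i j :=
        Finset.sum_congr rfl fun i _ => Finset.sum_congr rfl fun b _ => Finset.sum_comm
    _ = ∑ i, ∑ j, ∑ b, ∑ e, f b e i j := Finset.sum_congr rfl fun i _ => Finset.sum_comm

theorem Q_inv {R : T4 n} {h : Fin n → Fin n → ℝ} (hh : ON h) (hR : Rh R h = R) (v : Fin n → ℝ) :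
    Q R (ac h v) = Q R v := by
  have e1 : Q R (ac h v) = ∑ b, ∑ e, ∑ i, ∑ j, Ri R b e * h i b * h j e * v i * v j := by
    unfold Q ac
    refine Finset.sum_congr rfl fun b _ => Finset.sum_congr rfl fun e _ => ?_
    rw [mul_assoc, Finset.sum_mul_sum, Finset.mul_sum]
    refine Finset.sum_congr rfl fun i _ => ?_
    rw [Finset.mul_sum]
    exact Finset.sum_congr rfl fun j _ => by ring
  have e2 : Q R v = ∑ i, ∑ j, ∑ b, ∑ e, Ri R b e * h i b * h j e * v i * v j := by
    unfold Q
    refine Finset.sum_congr rfl fun i _ => Finset.sum_congr rfl fun j _ => ?_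
    rw [ric_inv hh hR i j, Finset.sum_mul, Finset.sum_mul]
    refine Finset.sum_congr rfl fun b _ => ?_
    rw [Finset.sum_mul, Finset.sum_mul]
  rw [e1, e2, swap4]

/-- `x e_i + y e_j` -/
def V (x y : ℝ) (i j : Fin n) : Fin n → ℝ := fun a =>
  x * (if a = i then 1 else 0) + y * (if a = j then 1 else 0)

theorem dt_V (x y x' y' : ℝ) (i j k l : Fin n) : dt (V x y i j) (V x' y' k l) =
    x * x' * (if k = i then 1 else 0) + x * y' * (if l = i then 1 else 0) +
      y * x' * (if k = j then 1 else 0) + y * y' * (if l = j then 1 else 0) := by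
  unfold dt V
  simp only [mul_add, add_mul, Finset.sum_add_distrib, mul_ite, mul_one, mul_zero, ite_mul, zero_mul,
    Finset.sum_ite_eq', Finset.mem_univ, if_true]
  by_cases h1 : k = i <;> by_cases h2 : l = i <;> by_cases h3 : k = j <;> by_cases h4 : l = j <;>
    simp only [h1, h2, h3, h4, if_true, if_false] <;> ring

theorem Q_V (R : T4 n) (x y : ℝ) (i j : Fin n) : Q R (V x y i j) =
    x ^ 2 * Ri R i i + x * y * (Ri R i j + Ri R j i) + y ^ 2 * Ri R j j := by
  unfold Q V
  simp only [mul_add, add_mul, Finset.sum_add_distrib, mul_ite, mul_one, mul_zero, ite_mul, zero_mul,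
    Finset.sum_ite_eq', Finset.mem_univ, if_true]
  ring

end Ein

open Ein in
theorem s_ein : S_EIN := by
  intro n ι _ _ p a R hn hL hinv i j
  obtain ⟨-, -, -, hAC, -, hscl, -, htr⟩ := hL
  have hQ : ∀ v v', dt v v = 1 → dt v' v' = 1 → dt v v' ≠ -1 → Q R v' = Q R v := by
    intro v v' h1 h2 h3
    obtain ⟨h, hs, rfl⟩ := htr v v' h1 h2 h3
    exact Q_inv hs.1 (hinv h hs) v
  have hd : ∀ k : Fin n, Ri R k k = Ri R i i := by
    intro k
    have h1 := hQ (V 1 0 i i) (V 1 0 k k) (by rw [dt_V]; simp) (by rw [dt_V]; simp)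
      (by rw [dt_V]; split_ifs <;> norm_num)
    rw [Q_V, Q_V] at h1
    linarith
  have ho : ∀ k l : Fin n, k ≠ l → Ri R k l = 0 := by
    intro k l hkl
    have h1 := hQ (V 1 0 i i) (V (3 / 5) (4 / 5) k l) (by rw [dt_V]; simp)
      (by
        rw [dt_V, if_pos rfl, if_neg (Ne.symm hkl), if_neg hkl, if_pos rfl]
        norm_num)
      (by rw [dt_V]; split_ifs <;> norm_num)
    rw [Q_V, Q_V, hd k, hd l, Ri_symm hAC l k] at h1
    linarith
  have hn0 : (n : ℝ) ≠ 0 := by
    have : (0 : ℝ) < n := by exact_mod_cast (by omega : 0 < n)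
    exact this.ne'
  have htr1 : ∑ k, Ri R k k = 1 := by
    rw [← hscl]
    unfold scl Ri
    rw [Finset.sum_comm, ← Finset.sum_neg_distrib]
    refine Finset.sum_congr rfl fun c _ => ?_
    rw [← Finset.sum_neg_distrib]
    refine Finset.sum_congr rfl fun k _ => ?_
    rw [hAC.a34 c k k c]
  have hr : (n : ℝ) * Ri R i i = 1 := by
    rw [← htr1, Finset.sum_congr rfl fun k _ => hd k]
    simp
  show Ri R i j = _
  split_ifs with hij
  · subst hij
    rw [eq_div_iff hn0, mul_comm]
    exact hr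
  · exact ho i j hij

end Pool.Agent.H781.KP
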