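import Pool.Agent.H781.KP.C
import Pool.Agent.H781.CM.Fin

/-!
Small eigenvalues and Betti numbers: pigeonhole over the scales of the spectrum, the inequality
between the Betti numbers and the numbers of small eigenvalues, and the Euler characteristic.
-/

set_option autoImplicit false
set_option synthInstance.maxHeartbeats 400000
set_option maxHeartbeats 4000000
set_option linter.unusedSectionVars false

open MeasureTheory Filter
open scoped Topology ContDiff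

noncomputable section

namespace Pool.Agent.H781.KP

open Pool.Agent.H781.NG Pool.Agent.H781.CM Pool.Agent.H781.H6

namespace Finc

theorem curv_mono {M : Type} [TopologicalSpace M] [CompactSpace M] [MeasurableSpace M]
    [BorelSpace M] {N : ℕ} {C : CD M N} {ε ε' : ℝ} (h : ε ≤ ε') (hC : CurvGE C ε) :
    CurvGE C ε' := by
  intro p w hw1 hw2
  refine le_trans ?_ (hC p w hw1 hw2)
  have h0 : 0 ≤ ∑ a, ∑ b, w a b ^ 2 :=
    Finset.sum_nonneg fun a _ => Finset.sum_nonneg fun b _ => sq_nonneg _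
  exact mul_le_mul_of_nonneg_right (neg_le_neg h) h0

/-- harmonic forms are in the space of the small eigenvalues -/
theorem hm_le {M : Type} [TopologicalSpace M] [CompactSpace M] [MeasurableSpace M]
    [BorelSpace M] {N : ℕ} (C : CD M N) {t : ℝ} (ht : 0 ≤ t) (p : ℕ) : Hm C p ≤ Evp C t p := by
  rintro u ⟨⟨⟨hH, hD⟩, hd⟩, he⟩
  have hd' : dd C.F u = 0 := hd
  have he' : de C.F u = 0 := he
  have h1 : DD C u = 0 := by
    unfold DD
    rw [hd', he', add_zero]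
  have h2 : DD C (DD C u) = (0 : ℝ) • u := by
    have e1 : dd C.F (0 : Fk N C.A) = 0 := (ddL C.F).map_zero
    have e2 : de C.F (0 : Fk N C.A) = 0 := (deL C.F).map_zero
    rw [h1, zero_smul]
    unfold DD
    rw [e1, e2, add_zero]
  exact ⟨Submodule.subset_span ⟨hH, 0, le_rfl, ht, h2⟩, hD⟩

end Finc

theorem s_finc (h1 : S_APPK) (h2 : S_DIM) (h3 : S_POINK) (h4 : S_HODGE) (h5 : S_SPEC)
    (h6 : S_KAX) (h7 : S_HARM) (h8 : S_DDH) : S_FINC := by
  intro N n κ hN hn hκ η hη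
  have hNr : (0 : ℝ) < N := by exact_mod_cast hN
  obtain ⟨η', hη', H6⟩ := h6 N n κ η hη
  obtain ⟨K, hK⟩ : ∃ K : ℝ, K = 2 / κ := ⟨_, rfl⟩
  have hK0 : 0 ≤ K := by rw [hK]; positivity
  obtain ⟨δ₁, hδ₁, H1⟩ := h1 N hN η' K hη' hK0
  obtain ⟨δ₂, hδ₂, H2⟩ := h2 N K hK0
  obtain ⟨δ, hδ⟩ : ∃ δ : ℝ, δ = min δ₁ (min δ₂ 1) := ⟨_, rfl⟩
  have hδ0 : 0 < δ := by rw [hδ]; exact lt_min hδ₁ (lt_min hδ₂ one_pos)
  have hd1 : δ ≤ δ₁ := by rw [hδ]; exact min_le_left _ _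
  have hd2 : δ ≤ δ₂ := by rw [hδ]; exact (min_le_right _ _).trans (min_le_left _ _)
  have hd3 : δ ≤ 1 := by rw [hδ]; exact (min_le_right _ _).trans (min_le_right _ _)
  obtain ⟨r, hr⟩ : ∃ r : ℝ, r = 2 / δ := ⟨_, rfl⟩
  have hr2 : 1 ≤ r := by
    rw [hr, le_div_iff₀ hδ0]
    linarith
  have hr0 : 0 < r := by linarith
  have hδr : δ * r = 2 := by
    rw [hr]
    field_simp
  obtain ⟨m, hm⟩ : ∃ m : ℕ, m = 2 ^ N := ⟨_, rfl⟩
  obtain ⟨s, hs⟩ : ∃ s : ℝ, s = κ / 2 := ⟨_, rfl⟩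
  have hs0 : 0 < s := by rw [hs]; positivity
  obtain ⟨T₀, hT₀⟩ : ∃ T₀ : ℝ, T₀ = min (δ / 2) s / r ^ (m + 1) := ⟨_, rfl⟩
  have hT0 : 0 < T₀ := by
    rw [hT₀]
    exact div_pos (lt_min (by linarith) hs0) (by positivity)
  have hTm : T₀ * r ^ (m + 1) = min (δ / 2) s := by
    rw [hT₀]
    field_simp
  have hTle : ∀ j, j ≤ m + 1 → T₀ * r ^ j ≤ min (δ / 2) s := by
    intro j hj
    rw [← hTm]
    exact mul_le_mul_of_nonneg_left (pow_le_pow_right₀ hr2 hj) hT0.le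
  have hTge : ∀ j, T₀ ≤ T₀ * r ^ j := by
    intro j
    have := mul_le_mul_of_nonneg_left (one_le_pow₀ hr2 (n := j)) hT0.le
    linarith
  obtain ⟨ε, hε⟩ : ∃ ε : ℝ, ε = min (T₀ / N ^ 2) η := ⟨_, rfl⟩
  have hε0 : 0 < ε := by
    rw [hε]
    exact lt_min (by positivity) hη
  have hε1 : ε * N ^ 2 ≤ T₀ := by
    have : ε ≤ T₀ / N ^ 2 := by rw [hε]; exact min_le_left _ _
    rwa [le_div_iff₀ (by positivity)] at this
  have hε2 : ε ≤ η := by rw [hε]; exact min_le_right _ _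
  refine ⟨ε, hε0, ?_⟩
  intro M _ _ _ _ C hC hPt hConn hMoll hDen hReg
  obtain ⟨P1, P2⟩ := h3 M N C n κ hn hκ hPt hConn hMoll hDen hReg
  rw [← hK] at P1
  rw [← hs] at P2
  have hfin : ∀ j, Module.Finite ℝ (Ev C (T₀ * r ^ j)) := fun j =>
    (h5 M N C hMoll hDen hReg (T₀ * r ^ j) (by positivity)).1
  have hdim : ∀ j, j ≤ m + 1 → Module.finrank ℝ (Ev C (T₀ * r ^ j)) ≤ 2 ^ N := by
    intro j hj
    refine H2 M C ε (T₀ * r ^ j) hε0.le hC hMoll hDen hReg P1 (by positivity) ?_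
    have a1 := (hTle j hj).trans (min_le_left _ _)
    have a2 := hTge j
    linarith
  have hmon : ∀ j, T₀ * r ^ j ≤ T₀ * r ^ (j + 1) := fun j =>
    mul_le_mul_of_nonneg_left (pow_le_pow_right₀ hr2 (Nat.le_succ j)) hT0.le
  obtain ⟨j, hj, hje⟩ := CM.Fin.pigeon m (fun j => Module.finrank ℝ (Ev C (T₀ * r ^ j)))
    (fun j _ => by
      have := hfin (j + 1)
      exact Submodule.finrank_mono (CM.Fin.Ev_mono C (hmon j)))
    ((hdim (m + 1) le_rfl).trans_eq hm.symm)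
  have hEq : Ev C (T₀ * r ^ (j + 1)) = Ev C (T₀ * r ^ j) := by
    have := hfin (j + 1)
    exact (Submodule.eq_of_le_of_finrank_eq (CM.Fin.Ev_mono C (hmon j)) hje).symm
  have a1 := (hTle j (by omega)).trans (min_le_left _ _)
  have a1' := (hTle j (by omega)).trans (min_le_right _ _)
  have a2 := hTge j
  have hT0j : 0 < T₀ * r ^ j := by positivity
  refine ⟨fun p => Module.finrank ℝ (Evp C (T₀ * r ^ j) p), ?_, ?_, ?_, ?_⟩
  · refine H6 M C _ (Finc.curv_mono hε2 hC) hPt ?_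
    refine H1 M C ε (T₀ * r ^ j) (T₀ * r ^ (j + 1)) hε0.le hC hMoll hDen hReg P1 hT0j (hmon j) hEq
      (by linarith) ?_ ?_ (hdim j (by omega))
    · have e1 : δ * (T₀ * r ^ (j + 1)) = 2 * (T₀ * r ^ j) := by
        rw [← hδr]
        ring
      have e2 : δ * (T₀ * r ^ (j + 1)) ≤ δ₁ * (T₀ * r ^ (j + 1)) :=
        mul_le_mul_of_nonneg_right hd1 (by positivity)
      linarith
    · intro u hu
      refine P2 u ?_
      rw [Evp, Submodule.mem_inf] at hu ⊢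
      exact ⟨CM.Fin.Ev_mono C a1' hu.1, hu.2⟩
  · have := hfin j
    exact (CM.Fin.sum_finrank C (T₀ * r ^ j)).trans (hdim j (by omega))
  · intro p
    have hf := hfin j
    have hle : Evp C (T₀ * r ^ j) p ≤ Ev C (T₀ * r ^ j) := inf_le_left
    have hf2 : Module.Finite ℝ (Evp C (T₀ * r ^ j) p) := Submodule.finiteDimensional_of_le hle
    rw [← (h7 M N C hMoll hDen hReg p).2.1]
    exact Submodule.finrank_mono (Finc.hm_le C hT0j.le p)
  · rw [← (h4 M N C hMoll hDen hReg).2 (T₀ * r ^ j) hT0j]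
    exact _root_.Fin.sum_univ_eq_sum_range
      (fun p => (-1 : ℤ) ^ p * (Module.finrank ℝ (Evp C (T₀ * r ^ j) p) : ℤ)) (N + 1)

end Pool.Agent.H781.KP
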