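import Pool.Agent.H781.KP.C

/-!
Project KP, all Betti numbers: the holomorphic sectional curvature determines the curvature tensor
(by helper880 for helper781).
-/

set_option autoImplicit false
set_option synthInstance.maxHeartbeats 400000
set_option maxHeartbeats 4000000
set_option linter.unusedSectionVars false

noncomputable section

namespace Pool.Agent.H781.KP

open Pool.Agent.H781.NG Pool.Agent.H781.CM Pool.Agent.H781.H6

namespace Hsc

/-- the algebra of the polarisation -/
theorem alg {V : Type} [AddCommGroup V] (J : V → V) (f : V → V → V → V → ℝ)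
    (hJadd : ∀ x y, J (x + y) = J x + J y) (hJneg : ∀ x, J (-x) = - J x)
    (hJJ : ∀ x, J (J x) = - x)
    (a1 : ∀ x x' y z w, f (x + x') y z w = f x y z w + f x' y z w)
    (a12 : ∀ x y z w, f x y z w = - f y x z w) (a34 : ∀ x y z w, f x y z w = - f x y w z)
    (pr : ∀ x y z w, f x y z w = f z w x y)
    (bi : ∀ x y z w, f x y z w + f y z x w + f z x y w = 0)
    (inv : ∀ x y z w, f x y (J z) (J w) = f x y z w)
    (h0 : ∀ v, f v (J v) (J v) v = 0) : ∀ x y z w, f x y z w = 0 := by
  have a2 : ∀ x y y' z w, f x (y + y') z w = f x y z w + f x y' z w := by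
    intro x y y' z w
    rw [a12, a1, a12 x y, a12 x y']
    ring
  have a3 : ∀ x y z z' w, f x y (z + z') w = f x y z w + f x y z' w := by
    intro x y z z' w
    rw [pr, a1, pr x y z, pr x y z']
  have a4 : ∀ x y z w w', f x y z (w + w') = f x y z w + f x y z w' := by
    intro x y z w w'
    rw [pr, a2, pr x y z w, pr x y z w']
  have n1 : ∀ x y z w, f (-x) y z w = - f x y z w := by
    intro x y z w
    have h1 := a1 x (-x) y z w
    have h2 := a1 0 0 y z w
    rw [add_zero] at h2
    rw [add_neg_cancel] at h1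
    linarith
  have n2 : ∀ x y z w, f x (-y) z w = - f x y z w := by
    intro x y z w
    rw [a12, n1, a12 x y]
  have n3 : ∀ x y z w, f x y (-z) w = - f x y z w := by
    intro x y z w
    rw [pr, n1, pr x y]
  have n4 : ∀ x y z w, f x y z (-w) = - f x y z w := by
    intro x y z w
    rw [pr, n2, pr x y]
  have inv' : ∀ x y z w, f (J x) (J y) z w = f x y z w := by
    intro x y z w
    rw [pr, inv, pr]
  -- the second rules
  have s1 : ∀ x y z w, f y (J x) z w = f x (J y) z w := by
    intro x y z w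
    rw [← inv' y (J x), hJJ, n2, a12 x (J y)]
  have s2 : ∀ x y z w, f z w (J x) y = f z w (J y) x := by
    intro x y z w
    rw [← inv z w (J x) y, hJJ, n3, a34 z w (J y) x]
  have key : ∀ x y, f x y y x = -3 * f x (J y) (J y) x := by
    intro x y
    have e1 := h0 (x + y)
    have e2 := h0 (x + -y)
    have e3 := h0 x
    have e4 := h0 y
    simp only [hJadd, hJneg, a1, a2, a3, a4, n1, n2, n3, n4] at e1 e2
    have t1 : f y (J x) (J y) x = f x (J y) (J y) x := s1 x y _ _
    have t2 : f x (J y) (J x) y = f x (J y) (J y) x := s2 x y _ _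
    have t3 : f y (J x) (J x) y = f x (J y) (J y) x := by rw [s1 x y, s2 x y]
    have t4 : f y (J y) (J x) x = f x (J x) (J y) y := by
      rw [pr, a12, a34]
      ring
    have t5 := bi x (J x) (J y) y
    have t6 : f (J x) (J y) x y = - f x y y x := by rw [inv', a34]
    have t7 : f (J y) x (J x) y = - f x (J y) (J y) x := by rw [a12, t2]
    linarith
  have z1 : ∀ x y, f x y y x = 0 := by
    intro x y
    have h1 := key x y
    have h2 := key x (J y)
    rw [hJJ, n2, n3] at h2
    linarith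
  have z2 : ∀ x y z, f x y z x = 0 := by
    intro x y z
    have h1 := z1 x (y + z)
    rw [a2, a3, a3, z1, z1] at h1
    have h2 : f x z y x = f x y z x := by
      rw [pr, a12, a34]
      ring
    linarith
  have z3 : ∀ x y z w, f x y z w = - f w y z x := by
    intro x y z w
    have h1 := z2 (x + w) y z
    rw [a1, a4, a4, z2, z2] at h1
    linarith
  have z4 : ∀ x y z w, f x y z w = f z x y w := by
    intro x y z w
    rw [a12, z3, a34, z3]
    ring
  intro x y z w
  have h1 := bi x y z w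
  have h2 := z4 x y z w
  have h3 := z4 z x y w
  linarith

variable {n : ℕ}

theorem rot3 (G : Fin n → Fin n → Fin n → ℝ) :
    ∑ a, ∑ b, ∑ c, G b c a = ∑ a, ∑ b, ∑ c, G a b c := by
  rw [Finset.sum_comm]
  exact Finset.sum_congr rfl fun b _ => Finset.sum_comm

theorem R4_add (R : T4 n) (x x' y z w : Fin n → ℝ) :
    R4 R (x + x') y z w = R4 R x y z w + R4 R x' y z w := by
  unfold R4
  simp only [Pi.add_apply, mul_add, add_mul, Finset.sum_add_distrib]

theorem R4_12 {R : T4 n} (hR : IsAC R) (x y z w : Fin n → ℝ) :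
    R4 R x y z w = - R4 R y x z w := by
  unfold R4
  rw [Finset.sum_comm]
  simp only [← Finset.sum_neg_distrib]
  refine Finset.sum_congr rfl fun a _ => Finset.sum_congr rfl fun b _ =>
    Finset.sum_congr rfl fun c _ => Finset.sum_congr rfl fun d _ => ?_
  rw [hR.a12 b a]
  ring

theorem R4_34 {R : T4 n} (hR : IsAC R) (x y z w : Fin n → ℝ) :
    R4 R x y z w = - R4 R x y w z := by
  unfold R4
  simp only [← Finset.sum_neg_distrib]
  refine Finset.sum_congr rfl fun a _ => Finset.sum_congr rfl fun b _ => ?_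
  rw [Finset.sum_comm]
  refine Finset.sum_congr rfl fun c _ => Finset.sum_congr rfl fun d _ => ?_
  rw [hR.a34 a b d c]
  ring

theorem R4_pr {R : T4 n} (hR : IsAC R) (x y z w : Fin n → ℝ) :
    R4 R x y z w = R4 R z w x y := by
  unfold R4
  have h1 : ∀ F : Fin n → Fin n → Fin n → Fin n → ℝ,
      ∑ a, ∑ b, ∑ c, ∑ d, F a b c d = ∑ c, ∑ d, ∑ a, ∑ b, F a b c d := by
    intro F
    calc ∑ a, ∑ b, ∑ c, ∑ d, F a b c d = ∑ a, ∑ c, ∑ b, ∑ d, F a b c d :=
          Finset.sum_congr rfl fun a _ => Finset.sum_comm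
      _ = ∑ c, ∑ a, ∑ b, ∑ d, F a b c d := Finset.sum_comm
      _ = ∑ c, ∑ a, ∑ d, ∑ b, F a b c d :=
          Finset.sum_congr rfl fun c _ => Finset.sum_congr rfl fun a _ => Finset.sum_comm
      _ = ∑ c, ∑ d, ∑ a, ∑ b, F a b c d :=
          Finset.sum_congr rfl fun c _ => Finset.sum_comm
  rw [h1]
  refine Finset.sum_congr rfl fun a _ => Finset.sum_congr rfl fun b _ =>
    Finset.sum_congr rfl fun c _ => Finset.sum_congr rfl fun d _ => ?_
  rw [hR.pr c d a b]
  ring

theorem R4_bi {R : T4 n} (hR : IsAC R) (x y z w : Fin n → ℝ) :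
    R4 R x y z w + R4 R y z x w + R4 R z x y w = 0 := by
  have h1 : R4 R y z x w = ∑ a, ∑ b, ∑ c, ∑ d, R b c a d * y b * z c * x a * w d := by
    unfold R4
    exact (rot3 (fun a b c => ∑ d, R a b c d * y a * z b * x c * w d)).symm
  have h2 : R4 R z x y w = ∑ a, ∑ b, ∑ c, ∑ d, R c a b d * z c * x a * y b * w d := by
    unfold R4
    exact rot3 (fun a b c => ∑ d, R c a b d * z c * x a * y b * w d)
  rw [h1, h2]
  unfold R4
  simp only [← Finset.sum_add_distrib]
  refine Finset.sum_eq_zero fun a _ => Finset.sum_eq_zero fun b _ =>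
    Finset.sum_eq_zero fun c _ => Finset.sum_eq_zero fun d _ => ?_
  have h := hR.bi a b c d
  have h3 : R a b c d * x a * y b * z c * w d + R b c a d * y b * z c * x a * w d +
      R c a b d * z c * x a * y b * w d =
      (R a b c d + R b c a d + R c a b d) * (x a * y b * z c * w d) := by ring
  rw [h3, h, zero_mul]

theorem ac_add (J : Fin n → Fin n → ℝ) (x y : Fin n → ℝ) : ac J (x + y) = ac J x + ac J y := by
  funext a
  unfold ac
  simp only [Pi.add_apply, add_mul, Finset.sum_add_distrib]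

theorem ac_neg (J : Fin n → Fin n → ℝ) (x : Fin n → ℝ) : ac J (-x) = - ac J x := by
  funext a
  unfold ac
  simp only [Pi.neg_apply, neg_mul, Finset.sum_neg_distrib]

theorem ac_ac {J : Fin n → Fin n → ℝ} (hJ : CJ J) (x : Fin n → ℝ) : ac J (ac J x) = - x := by
  funext a
  unfold ac
  have h1 : ∀ i, (∑ k, x k * J k i) * J i a = ∑ k, x k * (J k i * J i a) := by
    intro i
    rw [Finset.sum_mul]
    exact Finset.sum_congr rfl fun k _ => by ring
  rw [Finset.sum_congr rfl fun i _ => h1 i, Finset.sum_comm]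
  have h2 : ∀ k, ∑ i, x k * (J k i * J i a) = x k * (if k = a then -1 else 0) := by
    intro k
    rw [← Finset.mul_sum]
    congr 1
    exact hJ.2 k a
  rw [Finset.sum_congr rfl fun k _ => h2 k]
  simp

/-- the bilinear form of the last two arguments -/
def Am (R : T4 n) (x y : Fin n → ℝ) : Matrix (Fin n) (Fin n) ℝ :=
  Matrix.of fun c d => ∑ a, ∑ b, R a b c d * x a * y b

open Matrix in
theorem R4_Am (R : T4 n) (x y z w : Fin n → ℝ) :
    R4 R x y z w = z ⬝ᵥ (Am R x y *ᵥ w) := by
  have h1 : ∀ F : Fin n → Fin n → Fin n → Fin n → ℝ,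
      ∑ a, ∑ b, ∑ c, ∑ d, F a b c d = ∑ c, ∑ d, ∑ a, ∑ b, F a b c d := by
    intro F
    calc ∑ a, ∑ b, ∑ c, ∑ d, F a b c d = ∑ a, ∑ c, ∑ b, ∑ d, F a b c d :=
          Finset.sum_congr rfl fun a _ => Finset.sum_comm
      _ = ∑ c, ∑ a, ∑ b, ∑ d, F a b c d := Finset.sum_comm
      _ = ∑ c, ∑ a, ∑ d, ∑ b, F a b c d :=
          Finset.sum_congr rfl fun c _ => Finset.sum_congr rfl fun a _ => Finset.sum_comm
      _ = ∑ c, ∑ d, ∑ a, ∑ b, F a b c d :=
          Finset.sum_congr rfl fun c _ => Finset.sum_comm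
  unfold R4
  rw [h1]
  unfold dotProduct Matrix.mulVec dotProduct Am
  refine Finset.sum_congr rfl fun c _ => ?_
  rw [Finset.mul_sum]
  refine Finset.sum_congr rfl fun d _ => ?_
  show ∑ a, ∑ b, R a b c d * x a * y b * z c * w d =
    z c * ((∑ a, ∑ b, R a b c d * x a * y b) * w d)
  rw [Finset.sum_mul, Finset.mul_sum]
  refine Finset.sum_congr rfl fun a _ => ?_
  rw [Finset.sum_mul, Finset.mul_sum]
  exact Finset.sum_congr rfl fun b _ => by ring

theorem Xw_wedge {R : T4 n} (hR : IsAC R) (x y : Fin n → ℝ) (c d : Fin n) :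
    Xw R (fun a b => x a * y b - x b * y a) c d = 2 * Am R x y c d := by
  unfold Xw Am
  rw [Matrix.of_apply, two_mul]
  have h1 : ∑ a, ∑ b, R a b c d * (x a * y b - x b * y a) =
      ∑ a, ∑ b, R a b c d * x a * y b - ∑ a, ∑ b, R a b c d * x b * y a := by
    rw [← Finset.sum_sub_distrib]
    refine Finset.sum_congr rfl fun a _ => ?_
    rw [← Finset.sum_sub_distrib]
    exact Finset.sum_congr rfl fun b _ => by ring
  have h2 : ∑ a, ∑ b, R a b c d * x b * y a = - ∑ a, ∑ b, R a b c d * x a * y b := by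
    rw [Finset.sum_comm, ← Finset.sum_neg_distrib]
    refine Finset.sum_congr rfl fun a _ => ?_
    rw [← Finset.sum_neg_distrib]
    refine Finset.sum_congr rfl fun b _ => ?_
    rw [hR.a12 b a]
    ring
  rw [h1, h2, sub_neg_eq_add]

open Matrix in
theorem R4_inv {R : T4 n} {J : Fin n → Fin n → ℝ} (hR : IsAC R) (hJ : CJ J)
    (hC : ∀ w, Sk w → Cmu (Xw R w) J) (x y z w : Fin n → ℝ) :
    R4 R x y (ac J z) (ac J w) = R4 R x y z w := by
  set J' : Matrix (Fin n) (Fin n) ℝ := Matrix.of J with hJ'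
  have hc : Am R x y * J' = J' * Am R x y := by
    have h1 := hC (fun a b => x a * y b - x b * y a) (fun a b => by ring)
    ext i j
    have h2 := h1 i j
    unfold mm at h2
    simp only [Xw_wedge hR] at h2
    rw [Matrix.mul_apply, Matrix.mul_apply]
    have h3 : ∑ c, 2 * Am R x y i c * J c j = 2 * ∑ c, Am R x y i c * J' c j := by
      rw [Finset.mul_sum]
      exact Finset.sum_congr rfl fun c _ => by rw [hJ', Matrix.of_apply]; ring
    have h4 : ∑ c, J i c * (2 * Am R x y c j) = 2 * ∑ c, J' i c * Am R x y c j := by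
      rw [Finset.mul_sum]
      exact Finset.sum_congr rfl fun c _ => by rw [hJ', Matrix.of_apply]; ring
    rw [h3, h4] at h2
    linarith
  have hsk : J'ᵀ = - J' := by
    ext i j
    rw [Matrix.transpose_apply, Matrix.neg_apply, hJ', Matrix.of_apply, Matrix.of_apply]
    exact hJ.1 j i
  have hsq : J' * J' = - 1 := by
    ext i j
    rw [Matrix.mul_apply, Matrix.neg_apply, Matrix.one_apply]
    have h1 := hJ.2 i j
    unfold mm at h1
    rw [hJ']
    simp only [Matrix.of_apply]
    rw [h1]
    split_ifs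
    · rfl
    · exact neg_zero.symm
  have hA : J' * Am R x y * J'ᵀ = Am R x y := by
    rw [hsk, ← hc, mul_neg, mul_assoc, hsq, mul_neg, mul_one, neg_neg]
  have hac : ∀ v : Fin n → ℝ, ac J v = v ᵥ* J' := by
    intro v
    funext a
    rfl
  rw [R4_Am, R4_Am, hac, hac, ← Matrix.mulVec_transpose J' w, Matrix.mulVec_mulVec,
    ← Matrix.dotProduct_mulVec, Matrix.mulVec_mulVec, ← mul_assoc, hA]

theorem R4_single (R : T4 n) (a b c d : Fin n) :
    R4 R (Pi.single a 1) (Pi.single b 1) (Pi.single c 1) (Pi.single d 1) = R a b c d := by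
  unfold R4
  simp [Pi.single_apply]

end Hsc

open Hsc in
theorem s_hsc : S_HSC := by
  intro n R J hR hJ hC h0 a b c d
  rw [← R4_single R a b c d]
  exact alg (ac J) (R4 R) (ac_add J) (ac_neg J) (ac_ac hJ) (R4_add R) (R4_12 hR) (R4_34 hR)
    (R4_pr hR) (R4_bi hR) (R4_inv hR hJ hC) h0 _ _ _ _

end Pool.Agent.H781.KP
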