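import Pool.Agent.H781.KP.C
import Pool.Agent.H781.KP.Pfn

/-!
Project KP: powers of the Kähler form (KC-09, by helper86 for helper781).
-/

set_option autoImplicit false
set_option synthInstance.maxHeartbeats 400000
set_option maxHeartbeats 4000000
set_option linter.unusedSectionVars false

open MeasureTheory Filter
open scoped Topology ContDiff

noncomputable section

namespace Pool.Agent.H781.KP

open Pool.Agent.H781.NG Pool.Agent.H781.CM Pool.Agent.H781.H6

namespace Jpw

variable {n : ℕ}

theorem ac_ac {J : Fin n → Fin n → ℝ} (hJ : CJ J) (v : Fin n → ℝ) : ac J (ac J v) = -v := by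
  funext a
  have h1 : ac J (ac J v) a = ∑ j, v j * mm J J j a := by
    unfold ac mm
    have h2 : ∀ i, (∑ j, v j * J j i) * J i a = ∑ j, v j * (J j i * J i a) := by
      intro i
      rw [Finset.sum_mul]
      exact Finset.sum_congr rfl fun j _ => mul_assoc _ _ _
    rw [Finset.sum_congr rfl fun i _ => h2 i, Finset.sum_comm]
    exact Finset.sum_congr rfl fun j _ => by rw [Finset.mul_sum]
  rw [h1, Finset.sum_eq_single a]
  · rw [hJ.2, if_pos rfl, Pi.neg_apply]
    ring
  · intro j _ hj
    rw [hJ.2, if_neg hj, mul_zero]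
  · intro h
    exact absurd (Finset.mem_univ a) h

theorem even_n {J : Fin n → Fin n → ℝ} (hJ : CJ J) : Even n := by
  have h1 : (Matrix.of J) * (Matrix.of J) = -(1 : Matrix (Fin n) (Fin n) ℝ) := by
    ext i j
    rw [Matrix.mul_apply, Matrix.neg_apply, Matrix.one_apply]
    have h2 := hJ.2 i j
    unfold mm at h2
    simp only [Matrix.of_apply]
    rw [h2]
    split_ifs <;> simp
  have h2 := congrArg Matrix.det h1
  rw [Matrix.det_mul, Matrix.det_neg, Matrix.det_one, mul_one, Fintype.card_fin] at h2
  by_contra h3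
  rw [Nat.not_even_iff_odd] at h3
  rw [h3.neg_one_pow] at h2
  have h4 := mul_self_nonneg (Matrix.det (Matrix.of J))
  linarith

end Jpw

open Jpw

theorem s_jpw : S_JPW := by
  intro n J hJ
  refine ⟨even_n hJ, ?_⟩
  intro k hk h
  rcases Nat.eq_zero_or_pos k with h0 | h0
  · subst h0
    exact Pfn.vac_ne h
  · obtain ⟨m, rfl⟩ := Nat.exists_eq_succ_of_ne_zero h0.ne'
    obtain ⟨v, hv1, hv0⟩ := Pfn.kernel hJ.1 (k := m) (by omega) h
    have h1 := ac_ac hJ v
    have h2 : ac J (0 : Fin n → ℝ) = 0 := by
      funext a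
      unfold ac
      exact Finset.sum_eq_zero fun i _ => by rw [Pi.zero_apply, zero_mul]
    rw [hv0, h2] at h1
    have h3 : v = 0 := by
      rw [eq_comm, neg_eq_zero] at h1
      exact h1
    rw [h3] at hv1
    unfold dt at hv1
    rw [Finset.sum_eq_zero fun i _ => by rw [Pi.zero_apply, mul_zero]] at hv1
    exact zero_ne_one hv1

end Pool.Agent.H781.KP

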