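import Pool.Agent.H781.KP.C
import Pool.Agent.H781.KP.Tw2
import Pool.Agent.H781.KP.Scm

/-!
Project KC, Jst: an element of degree two is a multiple of an invariant complex structure which
commutes with the curvature (by helper581 for helper781).
-/

set_option autoImplicit false
set_option synthInstance.maxHeartbeats 400000
set_option maxHeartbeats 4000000
set_option linter.unusedSectionVars false

open MeasureTheory Filter
open scoped Topology ContDiff Matrix

noncomputable section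

namespace Pool.Agent.H781.KP

open Pool.Agent.H781.NG Pool.Agent.H781.CM Pool.Agent.H781.H6

namespace Jst

open Pool.Agent.H781.CM.Lin4

variable {n : ℕ}

/-- the form `wX A vac` determines the skew-symmetric matrix `A` -/
theorem inj (h : S_TFM) (A B : Fin n → Fin n → ℝ) (hA : Sk A) (hB : Sk B)
    (hAB : wX A (vac : Fk n ℝ) = wX B vac) : ∀ i j, A i j = B i j := by
  obtain ⟨-, h2, -⟩ := h n
  have hC : Sk (fun i j => A i j - B i j) := by
    intro i j
    show A i j - B i j = - (A j i - B j i)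
    rw [hA i j, hB i j]
    ring
  have h0 : wX (fun i j => A i j - B i j) (vac : Fk n ℝ) = 0 := by
    have e1 : wX (fun i j => A i j - B i j) (vac : Fk n ℝ) = wX A vac - wX B vac := by
      unfold wX
      rw [← Finset.sum_sub_distrib]
      refine Finset.sum_congr rfl fun i _ => ?_
      rw [← Finset.sum_sub_distrib]
      exact Finset.sum_congr rfl fun j _ => sub_smul _ _ _
    rw [e1, hAB, sub_self]
  have e2 := h2 _ _ hC hC
  rw [h0] at e2
  have e3 : ip (0 : Fk n ℝ) 0 = 0 := by simp [ip]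
  rw [e3] at e2
  have e4 : ∑ i, ∑ j, (A i j - B i j) * (A i j - B i j) = 0 := by linarith
  rw [Finset.sum_eq_zero_iff_of_nonneg
    (fun i _ => Finset.sum_nonneg fun j _ => mul_self_nonneg _)] at e4
  intro i j
  have e5 := e4 i (Finset.mem_univ _)
  rw [Finset.sum_eq_zero_iff_of_nonneg (fun j _ => mul_self_nonneg _)] at e5
  have e6 := e5 j (Finset.mem_univ _)
  have e7 := mul_self_eq_zero.mp e6
  linarith

/-- the matrix `hᵀ J h` -/
def cj (h J : Fin n → Fin n → ℝ) : Fin n → Fin n → ℝ :=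
  fun a b => ∑ i, ∑ j, J i j * (h i a * h j b)

theorem cj_sk {h J : Fin n → Fin n → ℝ} (hJ : Sk J) : Sk (cj h J) := by
  intro a b
  unfold cj
  rw [← Finset.sum_neg_distrib, Finset.sum_comm]
  refine Finset.sum_congr rfl fun i _ => ?_
  rw [← Finset.sum_neg_distrib]
  refine Finset.sum_congr rfl fun j _ => ?_
  rw [hJ j i]
  ring

theorem Cv2 (s t : Fin n → ℝ) :
    Cv s (Cv t (vac : Fk n ℝ)) = ∑ a, ∑ b, (s a * t b) • cr a (cr b vac) := by
  rw [Cv_apply]
  refine Finset.sum_congr rfl fun a _ => ?_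
  rw [Cv_apply, map_sum, Finset.smul_sum]
  refine Finset.sum_congr rfl fun b _ => ?_
  rw [map_smul, smul_smul]

theorem tau_wX (h J : Fin n → Fin n → ℝ) :
    Tau.tau h (wX J (vac : Fk n ℝ)) = wX (cj h J) vac := by
  have e1 : Tau.tau h (wX J (vac : Fk n ℝ)) =
      ∑ i, ∑ j, ∑ a, ∑ b, (J i j * (h i a * h j b)) • cr a (cr b vac) := by
    unfold wX
    rw [map_sum]
    refine Finset.sum_congr rfl fun i _ => ?_
    rw [map_sum]
    refine Finset.sum_congr rfl fun j _ => ?_
    rw [map_smul, ← Tau.Cv_tau, ← Tau.Cv_tau, Tau.tau_vac, Cv2, Finset.smul_sum]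
    refine Finset.sum_congr rfl fun a _ => ?_
    rw [Finset.smul_sum]
    exact Finset.sum_congr rfl fun b _ => smul_smul _ _ _
  have e2 : wX (cj h J) (vac : Fk n ℝ) =
      ∑ a, ∑ b, ∑ i, ∑ j, (J i j * (h i a * h j b)) • cr a (cr b vac) := by
    unfold wX cj
    refine Finset.sum_congr rfl fun a _ => Finset.sum_congr rfl fun b _ => ?_
    rw [Finset.sum_smul]
    exact Finset.sum_congr rfl fun i _ => Finset.sum_smul
  rw [e1, e2]
  calc ∑ i, ∑ j, ∑ a, ∑ b, (J i j * (h i a * h j b)) • cr a (cr b (vac : Fk n ℝ))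
      = ∑ i, ∑ a, ∑ j, ∑ b, (J i j * (h i a * h j b)) • cr a (cr b (vac : Fk n ℝ)) :=
        Finset.sum_congr rfl fun i _ => Finset.sum_comm
    _ = ∑ a, ∑ i, ∑ j, ∑ b, (J i j * (h i a * h j b)) • cr a (cr b (vac : Fk n ℝ)) :=
        Finset.sum_comm
    _ = ∑ a, ∑ i, ∑ b, ∑ j, (J i j * (h i a * h j b)) • cr a (cr b (vac : Fk n ℝ)) :=
        Finset.sum_congr rfl fun a _ => Finset.sum_congr rfl fun i _ => Finset.sum_comm
    _ = ∑ a, ∑ b, ∑ i, ∑ j, (J i j * (h i a * h j b)) • cr a (cr b (vac : Fk n ℝ)) :=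
        Finset.sum_congr rfl fun a _ => Finset.sum_comm

/-- invariant 2-forms commute with the orthogonal matrix -/
theorem comm {h J : Fin n → Fin n → ℝ} (hh : ON h) (hJ : ∀ a b, cj h J a b = J a b) :
    Matrix.of J * Matrix.of h = Matrix.of h * Matrix.of J := by
  have e1 : Matrix.of h * (Matrix.of h)ᵀ = 1 := by
    ext i j
    rw [Matrix.mul_apply, Matrix.one_apply]
    exact hh i j
  have e2 : (Matrix.of h)ᵀ * Matrix.of J * Matrix.of h = Matrix.of J := by
    ext a b
    rw [Matrix.of_apply, ← hJ a b, Matrix.mul_apply]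
    unfold cj
    rw [Finset.sum_comm]
    refine Finset.sum_congr rfl fun j _ => ?_
    rw [Matrix.mul_apply, Finset.sum_mul]
    refine Finset.sum_congr rfl fun i _ => ?_
    rw [Matrix.transpose_apply, Matrix.of_apply, Matrix.of_apply, Matrix.of_apply]
    ring
  calc Matrix.of J * Matrix.of h = (Matrix.of h * (Matrix.of h)ᵀ) * (Matrix.of J * Matrix.of h) := by
        rw [e1, one_mul]
    _ = Matrix.of h * ((Matrix.of h)ᵀ * Matrix.of J * Matrix.of h) := by
        simp only [mul_assoc]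
    _ = Matrix.of h * Matrix.of J := by rw [e2]

end Jst

open Jst in
theorem s_jst (h1 : S_INF) (h2 : S_TFM) (h3 : S_SCM) (h4 : S_HKA) : S_JST := by
  intro n ι _ _ p a R hn hL x hx
  obtain ⟨hdeg, hon, -, hAC, hCO, -, hrc, htr⟩ := hL
  have hinf := h1 n ι a fun v v' hv hv' hvv => by
    obtain ⟨h, hh, hhv⟩ := htr v v' hv hv' hvv
    exact ⟨h, hh.1, hhv, hh.2⟩
  obtain ⟨A, hA, hAx⟩ := (h2 n).1 (a x) (by rw [← hx]; exact hdeg x)
  obtain ⟨l0, hl0⟩ := h3 n A A hA hA fun v w hv hw hvw => by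
    obtain ⟨X, hX1, hX2, hX3⟩ := hinf v w hv hw hvw
    have := hX3 x
    rw [hAx] at this
    exact ⟨X, hX1, hX2, this, this⟩
  have eA : ∑ i, ∑ j, A i j * A i j = 1 / 2 := by
    have := (h2 n).2.1 A A hA hA
    rw [← hAx, hon x x, if_pos rfl] at this
    linarith
  have sA := Tw2.sq_eq hn hl0 hA eA
  have hn0 : (0 : ℝ) < n := by exact_mod_cast (by omega : 0 < n)
  have hs : 0 < √(2 * (n : ℝ)) := Real.sqrt_pos.2 (by positivity)
  have hJ : Sk (fun i j => √(2 * (n : ℝ)) * A i j) := Tw2.sk_smul hA _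
  have hax : a x = (√(2 * (n : ℝ)))⁻¹ • wX (fun i j => √(2 * (n : ℝ)) * A i j) vac := by
    rw [Tw2.wX_smul, smul_smul, inv_mul_cancel₀ hs.ne', one_smul, hAx]
  refine ⟨fun i j => √(2 * (n : ℝ)) * A i j, (√(2 * (n : ℝ)))⁻¹, ⟨hJ, sA⟩, inv_ne_zero hs.ne',
    hax, ?_, ?_⟩
  · rintro h ⟨hh, hinv⟩ v
    have e1 := hinv x
    have e2 : Tau.tau h (wX (fun i j => √(2 * (n : ℝ)) * A i j) vac) =
        wX (fun i j => √(2 * (n : ℝ)) * A i j) vac := by
      rw [hax, map_smul] at e1
      exact smul_right_injective _ (inv_ne_zero hs.ne') e1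
    rw [tau_wX] at e2
    have e3 := inj h2 _ _ (cj_sk hJ) hJ e2
    have e4 := comm hh e3
    rw [Scm.ac_eq, Scm.ac_eq, Scm.ac_eq, Scm.ac_eq, Matrix.vecMul_vecMul, Matrix.vecMul_vecMul, e4]
  · intro w hw
    obtain ⟨hX, -, hu⟩ := h4 n R hAC hCO w hw
    have e1 := hu (a x)
    rw [hrc x, mul_zero] at e1
    have e2 : dX (Xw R w) (a x) = 0 := by
      have e3 : ∑ S, dX (Xw R w) (a x) S * dX (Xw R w) (a x) S = 0 :=
        le_antisymm e1 (Finset.sum_nonneg fun S _ => mul_self_nonneg _)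
      rw [Finset.sum_eq_zero_iff_of_nonneg (fun S _ => mul_self_nonneg _)] at e3
      funext S
      exact mul_self_eq_zero.1 (e3 S (Finset.mem_univ _))
    rw [hAx] at e2
    have e4 := Scm.com_zero h2 A (Xw R w) hA hX e2
    intro i j
    have e5 := congrFun (congrFun e4 i) j
    rw [Matrix.mul_apply, Matrix.mul_apply] at e5
    simp only [Matrix.of_apply] at e5
    unfold mm
    have e6 : ∑ c, Xw R w i c * (√(2 * (n : ℝ)) * A c j) =
        √(2 * (n : ℝ)) * ∑ c, Xw R w i c * A c j := by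
      rw [Finset.mul_sum]
      exact Finset.sum_congr rfl fun c _ => by ring
    have e7 : ∑ c, (√(2 * (n : ℝ)) * A i c) * Xw R w c j =
        √(2 * (n : ℝ)) * ∑ c, A i c * Xw R w c j := by
      rw [Finset.mul_sum]
      exact Finset.sum_congr rfl fun c _ => by ring
    rw [e6, e7, e5]

end Pool.Agent.H781.KP
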