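import Pool.Agent.H781.KP.C
import Pool.Agent.H781.KP.Cmpk
import Pool.Agent.H781.KP.Tw2
import Pool.Agent.H781.KP.Scb

/-!
Project KC (MP_4e0d62_gt): existence of the limits (`S_LIMC`; by helper390 for helper781).
-/

set_option autoImplicit false
set_option synthInstance.maxHeartbeats 400000
set_option maxHeartbeats 4000000
set_option linter.unusedSectionVars false

open MeasureTheory Filter
open scoped Topology ContDiff

noncomputable section

namespace Pool.Agent.H781.KP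

open Pool.Agent.H781.NG Pool.Agent.H781.CM Pool.Agent.H781.H6

namespace Limc

variable {n : ℕ}

/-- multiples of a curvature tensor -/
def sm (s : ℝ) (R : T4 n) : T4 n := fun a b c d => s * R a b c d

theorem isAC_sm {R : T4 n} (hR : IsAC R) (s : ℝ) : IsAC (sm s R) where
  a12 a b c d := by
    unfold sm
    rw [hR.a12]
    ring
  a34 a b c d := by
    unfold sm
    rw [hR.a34]
    ring
  pr a b c d := by
    unfold sm
    rw [hR.pr]
  bi a b c d := by
    have h := hR.bi a b c d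
    unfold sm
    linear_combination s * h

theorem cop_sm {R : T4 n} (hC : COp R 0) {s : ℝ} (hs : 0 ≤ s) : COp (sm s R) 0 := by
  intro w hw
  have h := hC w hw
  rw [neg_zero, zero_mul] at h ⊢
  have e : - ∑ a, ∑ b, ∑ c, ∑ d, sm s R a b c d * w a b * w c d =
      s * (- ∑ a, ∑ b, ∑ c, ∑ d, R a b c d * w a b * w c d) := by
    unfold sm
    rw [mul_neg]
    congr 1
    simp only [Finset.mul_sum]
    refine Finset.sum_congr rfl fun a _ => Finset.sum_congr rfl fun b _ =>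
      Finset.sum_congr rfl fun c _ => Finset.sum_congr rfl fun d _ => ?_
    ring
  rw [e]
  exact mul_nonneg hs h

theorem scl_sm (s : ℝ) (R : T4 n) : scl (sm s R) = s * scl R := by
  unfold scl sm
  rw [mul_neg]
  congr 1
  simp only [Finset.mul_sum]

theorem rc_sm (s : ℝ) (R : T4 n) (u : Fk n ℝ) : rc (sm s R) u = s * rc R u := by
  unfold rc sm
  rw [mul_neg]
  congr 1
  simp only [Finset.mul_sum]
  refine Finset.sum_congr rfl fun a _ => Finset.sum_congr rfl fun b _ =>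
    Finset.sum_congr rfl fun c _ => Finset.sum_congr rfl fun d _ => ?_
  ring

theorem entry_le {R : T4 n} (hR : IsAC R) (hC : COp R 0) (a b c d : Fin n) :
    |R a b c d| ≤ scl R := by
  have h1 := Cs.Q_cs hR.a12 hR.pr (Scb.nn hC) (Scb.E (a, b)) (Scb.E (c, d))
  rw [Scb.Q_E, Scb.Q_E, Scb.Q_E] at h1
  have h2 : ∀ p : Fin n × Fin n, - R p.1 p.2 p.1 p.2 ≤ scl R := by
    intro p
    rw [Scb.scl_eq]
    exact Finset.single_le_sum (f := fun p : Fin n × Fin n => - R p.1 p.2 p.1 p.2)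
      (fun q _ => Scb.diag hR hC q) (Finset.mem_univ p)
  have h3 := Scb.diag hR hC (c, d)
  have h4 := Scb.scl_nonneg hR hC
  have h5 : (- R a b a b) * (- R c d c d) ≤ scl R * scl R :=
    mul_le_mul (h2 (a, b)) (h2 (c, d)) h3 h4
  refine abs_le_of_sq_le_sq ?_ h4
  have h6 : (- R a b c d) ^ 2 ≤ (- R a b a b) * (- R c d c d) := h1
  rw [neg_sq] at h6
  rw [sq (scl R)]
  exact h6.trans h5

theorem tendsto_rc {R : ℕ → T4 n} {R' : T4 n} {U : ℕ → Fk n ℝ} {u : Fk n ℝ}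
    (hR : ∀ a b c d, Tendsto (fun k => R k a b c d) atTop (𝓝 (R' a b c d)))
    (hU : Tendsto U atTop (𝓝 u)) :
    Tendsto (fun k => rc (R k) (U k)) atTop (𝓝 (rc R' u)) := by
  have hc : ∀ a b S, Tendsto (fun k => cr b (an a (U k)) S) atTop (𝓝 (cr b (an a u) S)) := by
    intro a b S
    have h2 : Continuous ((cr b).comp (an a) : Fk n ℝ →ₗ[ℝ] Fk n ℝ) :=
      LinearMap.continuous_of_finiteDimensional _
    have h1 : Continuous fun w : Fk n ℝ => cr b (an a w) := h2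
    exact (tendsto_pi_nhds.1 ((h1.tendsto u).comp hU)) S
  unfold rc ip
  refine Tendsto.neg ?_
  refine tendsto_finsetSum _ fun a _ => tendsto_finsetSum _ fun b _ =>
    tendsto_finsetSum _ fun c _ => tendsto_finsetSum _ fun d _ => ?_
  exact (hR a b c d).mul (tendsto_finsetSum _ fun S _ => (hc a b S).mul (hc c d S))

end Limc

open Cmpk Limc in
theorem s_limc (h1 : S_TRG) (_h2 : S_HKA) : S_LIMC := by
  intro n N d κ hn hκ hKA
  have hpos : ∀ k : ℕ, (0 : ℝ) < 1 / ((k : ℝ) + 1) := fun k => by positivity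
  have hle1 : ∀ k : ℕ, 1 / ((k : ℝ) + 1) ≤ 1 := by
    intro k
    rw [div_le_one (by positivity)]
    have := Nat.cast_nonneg (α := ℝ) k
    linarith
  choose a c R hdeg hd0 hvac hip hc hmul hAC hCO hKG hrc using fun k : ℕ => hKA _ (hpos k)
  have hcond : ∀ k : ℕ, Cond n N (1 / ((k : ℝ) + 1)) d (a k, c k) := fun k =>
    ⟨hdeg k, hvac k, hip k, hc k, hmul k⟩
  have hcond1 : ∀ k, (a k, c k) ∈ {p | Cond n N 1 d p} := fun k =>
    cond_mono (hle1 k) (hcond k)
  -- the normalised curvature tensors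
  have hAC1 : ∀ k, IsAC (Cs.Rp (R k) (1 / ((k : ℝ) + 1))) := fun k => Tw2.isAC_Rp (hAC k) _
  have hCO1 : ∀ k, COp (Cs.Rp (R k) (1 / ((k : ℝ) + 1))) 0 := fun k => Tw2.cop_Rp (hCO k)
  have hsk : ∀ k, κ ≤ scl (Cs.Rp (R k) (1 / ((k : ℝ) + 1))) := fun k =>
    Scb.kap (hAC1 k) (hCO1 k) κ hn (Tw2.kge_Rp (hpos k).le (hKG k))
  have hs0 : ∀ k, 0 < scl (Cs.Rp (R k) (1 / ((k : ℝ) + 1))) := fun k => hκ.trans_le (hsk k)
  obtain ⟨R2, hR2⟩ : ∃ R2 : ℕ → T4 n, ∀ k, R2 k =
      sm (scl (Cs.Rp (R k) (1 / ((k : ℝ) + 1))))⁻¹ (Cs.Rp (R k) (1 / ((k : ℝ) + 1))) :=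
    ⟨_, fun _ => rfl⟩
  have hAC2 : ∀ k, IsAC (R2 k) := fun k => by
    rw [hR2]
    exact isAC_sm (hAC1 k) _
  have hCO2 : ∀ k, COp (R2 k) 0 := fun k => by
    rw [hR2]
    exact cop_sm (hCO1 k) (inv_nonneg.2 (hs0 k).le)
  have hsc2 : ∀ k, scl (R2 k) = 1 := fun k => by
    rw [hR2, scl_sm]
    exact inv_mul_cancel₀ (hs0 k).ne'
  have hrc2 : ∀ k x, rc (R2 k) (a k x) ≤ κ⁻¹ * (1 / ((k : ℝ) + 1) * (1 + n ^ 2 * 2)) := by
    intro k x
    have e1 := Cs.rc_Rp_le (R k) (hpos k).le (a k x)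
    have e2 := hrc k x
    have e3 := hip k x x
    rw [if_pos rfl] at e3
    have e4 : ip (a k x) (a k x) ≤ 2 := by
      have := (abs_le.1 e3).2
      have := hle1 k
      linarith
    have e5 : 1 / ((k : ℝ) + 1) * n ^ 2 * ip (a k x) (a k x) ≤ 1 / ((k : ℝ) + 1) * n ^ 2 * 2 :=
      mul_le_mul_of_nonneg_left e4 (mul_nonneg (hpos k).le (by positivity))
    have e6 : rc (Cs.Rp (R k) (1 / ((k : ℝ) + 1))) (a k x) ≤
        1 / ((k : ℝ) + 1) * (1 + n ^ 2 * 2) := by
      calc rc (Cs.Rp (R k) (1 / ((k : ℝ) + 1))) (a k x)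
          ≤ rc (R k) (a k x) + 1 / ((k : ℝ) + 1) * n ^ 2 * ip (a k x) (a k x) := e1
        _ ≤ 1 / ((k : ℝ) + 1) + 1 / ((k : ℝ) + 1) * n ^ 2 * 2 := add_le_add e2 e5
        _ = 1 / ((k : ℝ) + 1) * (1 + n ^ 2 * 2) := by ring
    have e7 : (scl (Cs.Rp (R k) (1 / ((k : ℝ) + 1))))⁻¹ ≤ κ⁻¹ := inv_anti₀ hκ (hsk k)
    rw [hR2, rc_sm]
    exact mul_le_mul e7 e6 (Scb.rc_nonneg (hAC1 k) (hCO1 k) _) (inv_nonneg.2 hκ.le)
  have hbd : ∀ k, R2 k ∈ (Set.univ.pi fun _ : Fin n => Set.univ.pi fun _ : Fin n =>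
      Set.univ.pi fun _ : Fin n => Set.univ.pi fun _ : Fin n => Set.Icc (-1 : ℝ) 1) := by
    intro k i _ j _ l _ m _
    have h5 := entry_le (hAC2 k) (hCO2 k) i j l m
    rw [hsc2] at h5
    exact abs_le.1 h5
  have hKR : IsCompact (Set.univ.pi fun _ : Fin n => Set.univ.pi fun _ : Fin n =>
      Set.univ.pi fun _ : Fin n => Set.univ.pi fun _ : Fin n => Set.Icc (-1 : ℝ) 1) :=
    isCompact_univ_pi fun _ => isCompact_univ_pi fun _ => isCompact_univ_pi fun _ =>
      isCompact_univ_pi fun _ => isCompact_Icc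
  obtain ⟨⟨⟨a', c'⟩, R'⟩, -, φ, hφ, hlimAll⟩ :=
    ((compact_cond n N d).prod hKR).tendsto_subseq
      (x := fun k => ((a k, c k), R2 k)) fun k => ⟨hcond1 k, hbd k⟩
  have hlim : Tendsto (fun k => (a (φ k), c (φ k))) atTop (𝓝 (a', c')) :=
    (continuous_fst.tendsto _).comp hlimAll
  have hlimR : Tendsto (fun k => R2 (φ k)) atTop (𝓝 R') :=
    (continuous_snd.tendsto _).comp hlimAll
  have hlim0 : Tendsto (fun k : ℕ => 1 / (((φ k : ℕ) : ℝ) + 1)) atTop (𝓝 0) :=
    tendsto_one_div_add_atTop_nhds_zero_nat.comp hφ.tendsto_atTop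
  have hlimc : ∀ η : ℝ, 0 < η → Cond n N η d (a', c') := by
    intro η hη
    refine (closed_cond n N η d).mem_of_tendsto hlim ?_
    filter_upwards [hlim0.eventually (gt_mem_nhds hη)] with k hk
    exact cond_mono hk.le (hcond (φ k))
  have hl1 := hlimc 1 one_pos
  have hip' : ∀ x y, ip (a' x) (a' y) = if x = y then 1 else 0 := fun x y =>
    sub_eq_zero.1 (eq_zero_of_le fun η hη => (hlimc η hη).2.2.1 x y)
  have hmul' : ∀ x y, mulF (a' x) (a' y) = ∑ z, c' x y z • a' z := by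
    intro x y
    funext S
    have h5 := eq_zero_of_le fun η hη => (hlimc η hη).2.2.2.2 x y S
    rw [Pi.sub_apply, sub_eq_zero] at h5
    exact h5
  have hlima : ∀ x, Tendsto (fun k => a (φ k) x) atTop (𝓝 (a' x)) := by
    intro x
    exact (((continuous_apply x).comp continuous_fst).tendsto (a', c')).comp hlim
  have hent : ∀ i j l m, Tendsto (fun k => R2 (φ k) i j l m) atTop (𝓝 (R' i j l m)) := by
    intro i j l m
    exact tendsto_pi_nhds.1 (tendsto_pi_nhds.1 (tendsto_pi_nhds.1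
      (tendsto_pi_nhds.1 hlimR i) j) l) m
  have htr := h1 n (Ix N d) (fun x => (x.1 : ℕ)) (fun k => a (φ k)) a' (fun k => R (φ k))
    (fun k => 1 / (((φ k : ℕ) : ℝ) + 1)) κ hl1.1 (fun k => hdeg (φ k)) hlima
    (fun k => hAC (φ k)) (fun k => (hpos (φ k)).le) hlim0 hκ (fun k => hCO (φ k))
    (fun k => hKG (φ k)) (fun k => hrc (φ k))
  refine ⟨a', R', hl1.1, hip', fun x y => ⟨c' x y, hmul' x y⟩, ?_, ?_, ?_, ?_, ?_⟩
  · exact
      { a12 := fun i j l m => tendsto_nhds_unique (hent i j l m)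
          ((hent j i l m).neg.congr fun k => ((hAC2 (φ k)).a12 i j l m).symm)
        a34 := fun i j l m => tendsto_nhds_unique (hent i j l m)
          ((hent i j m l).neg.congr fun k => ((hAC2 (φ k)).a34 i j l m).symm)
        pr := fun i j l m => tendsto_nhds_unique (hent i j l m)
          ((hent l m i j).congr fun k => ((hAC2 (φ k)).pr i j l m).symm)
        bi := fun i j l m => tendsto_nhds_unique
          (((hent i j l m).add (hent j l i m)).add (hent l i j m))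
          (tendsto_const_nhds.congr fun k => ((hAC2 (φ k)).bi i j l m).symm) }
  · intro w hw
    have t : Tendsto (fun k => - ∑ i, ∑ j, ∑ l, ∑ m, R2 (φ k) i j l m * w i j * w l m) atTop
        (𝓝 (- ∑ i, ∑ j, ∑ l, ∑ m, R' i j l m * w i j * w l m)) :=
      (tendsto_finsetSum _ fun i _ => tendsto_finsetSum _ fun j _ =>
        tendsto_finsetSum _ fun l _ => tendsto_finsetSum _ fun m _ =>
          ((hent i j l m).mul_const _).mul_const _).neg
    exact ge_of_tendsto' t fun k => hCO2 (φ k) w hw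
  · have t : Tendsto (fun k => scl (R2 (φ k))) atTop (𝓝 (scl R')) := by
      unfold scl
      exact (tendsto_finsetSum _ fun i _ => tendsto_finsetSum _ fun j _ => hent i j i j).neg
    exact tendsto_nhds_unique t (tendsto_const_nhds.congr fun k => (hsc2 (φ k)).symm)
  · intro x
    have t := tendsto_rc hent (hlima x)
    have t0 : Tendsto (fun k => κ⁻¹ * (1 / (((φ k : ℕ) : ℝ) + 1) * (1 + (n : ℝ) ^ 2 * 2))) atTop
        (𝓝 0) := by
      have := (hlim0.mul_const (1 + (n : ℝ) ^ 2 * 2)).const_mul κ⁻¹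
      rwa [zero_mul, mul_zero] at this
    exact tendsto_nhds_unique t (squeeze_zero
      (fun k => Scb.rc_nonneg (hAC2 (φ k)) (hCO2 (φ k)) _) (fun k => hrc2 (φ k) x) t0)
  · intro v v' hv hv' hvv
    obtain ⟨h, h5, h6, h7⟩ := htr v v' hv hv' hvv
    exact ⟨h, ⟨h5, h7⟩, h6⟩

end Pool.Agent.H781.KP
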