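import Pool.Agent.H781.KP.C

/-!
Project KC (helper781), piece R0: the curvature tensor of constant holomorphic sectional curvature
(helper370).
-/

set_option autoImplicit false
set_option synthInstance.maxHeartbeats 400000
set_option maxHeartbeats 4000000
set_option linter.unusedSectionVars false

noncomputable section

namespace Pool.Agent.H781.KP

open Pool.Agent.H781.NG Pool.Agent.H781.CM Pool.Agent.H781.H6

namespace R0

variable {n : ℕ}

theorem mm_assoc (X Y Z : Fin n → Fin n → ℝ) (i j : Fin n) :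
    mm (mm X Y) Z i j = mm X (mm Y Z) i j := by
  simp only [mm, Finset.sum_mul, Finset.mul_sum]
  rw [Finset.sum_comm]
  exact Finset.sum_congr rfl fun a _ => Finset.sum_congr rfl fun b _ => by ring

theorem mm_assoc' (X Y Z : Fin n → Fin n → ℝ) : mm (mm X Y) Z = mm X (mm Y Z) :=
  funext fun i => funext fun j => mm_assoc X Y Z i j

theorem mm_linl (x y z : ℝ) (A B C D : Fin n → Fin n → ℝ) (i j : Fin n) :
    mm (fun c d => x * A c d + y * B c d - z * C c d) D i j =
      x * mm A D i j + y * mm B D i j - z * mm C D i j := by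
  simp only [mm, Finset.mul_sum, ← Finset.sum_add_distrib, ← Finset.sum_sub_distrib]
  exact Finset.sum_congr rfl fun c _ => by ring

theorem mm_linr (x y z : ℝ) (A B C D : Fin n → Fin n → ℝ) (i j : Fin n) :
    mm D (fun c d => x * A c d + y * B c d - z * C c d) i j =
      x * mm D A i j + y * mm D B i j - z * mm D C i j := by
  simp only [mm, Finset.mul_sum, ← Finset.sum_add_distrib, ← Finset.sum_sub_distrib]
  exact Finset.sum_congr rfl fun c _ => by ring

theorem mm_JJ {J : Fin n → Fin n → ℝ} (hJ : CJ J) (w : Fin n → Fin n → ℝ) (i j : Fin n) :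
    mm (mm J J) w i j = - w i j := by
  have h : ∀ c, mm J J i c * w c j = if c = i then - w i j else 0 := by
    intro c
    rw [hJ.2 i c]
    by_cases hc : c = i
    · subst hc; simp
    · rw [if_neg (fun h => hc h.symm), if_neg hc, zero_mul]
  show ∑ c, mm J J i c * w c j = _
  rw [Finset.sum_congr rfl fun c _ => h c, Finset.sum_ite_eq' Finset.univ i]
  simp

theorem mm_wJJ {J : Fin n → Fin n → ℝ} (hJ : CJ J) (w : Fin n → Fin n → ℝ) (i j : Fin n) :
    mm w (mm J J) i j = - w i j := by
  have h : ∀ c, w i c * mm J J c j = if c = j then - w i j else 0 := by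
    intro c
    rw [hJ.2 c j]
    by_cases hc : c = j
    · subst hc; simp
    · rw [if_neg hc, if_neg hc, mul_zero]
  show ∑ c, w i c * mm J J c j = _
  rw [Finset.sum_congr rfl fun c _ => h c, Finset.sum_ite_eq' Finset.univ j]
  simp

theorem skew_JwJ {J w : Fin n → Fin n → ℝ} (hJ : Sk J) (hw : Sk w) (c d : Fin n) :
    mm (mm J w) J d c = - mm (mm J w) J c d := by
  rw [mm_assoc]
  simp only [mm, Finset.sum_mul, Finset.mul_sum, ← Finset.sum_neg_distrib]
  refine Finset.sum_congr rfl fun a _ => Finset.sum_congr rfl fun b _ => ?_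
  rw [hJ d a, hw a b, hJ b c]
  ring

/-- the curvature operator on 2-forms -/
theorem Xw_eq {J w : Fin n → Fin n → ℝ} (hJ : Sk J) (hw : Sk w) (c d : Fin n) :
    Xw (KP.R0 J) w c d = -2 * w c d + 2 * mm (mm J w) J c d -
      2 * (∑ a, ∑ b, J a b * w a b) * J c d := by
  have p1 : ∑ a, ∑ b, (if b = c then (1 : ℝ) else 0) * (if a = d then 1 else 0) * w a b = w d c := by
    simp
  have p2 : ∑ a, ∑ b, (if a = c then (1 : ℝ) else 0) * (if b = d then 1 else 0) * w a b = w c d := by
    simp
  have p3 : ∑ a, ∑ b, J b c * J a d * w a b = - mm (mm J w) J d c := by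
    simp only [mm, Finset.sum_mul, ← Finset.sum_neg_distrib]
    rw [Finset.sum_comm]
    refine Finset.sum_congr rfl fun a _ => Finset.sum_congr rfl fun b _ => ?_
    rw [hJ b d]
    ring
  have p4 : ∑ a, ∑ b, J a c * J b d * w a b = - mm (mm J w) J c d := by
    simp only [mm, Finset.sum_mul, ← Finset.sum_neg_distrib]
    rw [Finset.sum_comm]
    refine Finset.sum_congr rfl fun a _ => Finset.sum_congr rfl fun b _ => ?_
    rw [hJ b c]
    ring
  have p5 : ∑ a, ∑ b, 2 * J a b * J c d * w a b = 2 * (∑ a, ∑ b, J a b * w a b) * J c d := by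
    simp only [Finset.sum_mul, Finset.mul_sum]
    exact Finset.sum_congr rfl fun a _ => Finset.sum_congr rfl fun b _ => by ring
  have p6 := skew_JwJ hJ hw c d
  have p7 : Xw (KP.R0 J) w c d =
      ∑ a, ∑ b, (if b = c then (1 : ℝ) else 0) * (if a = d then 1 else 0) * w a b -
      ∑ a, ∑ b, (if a = c then (1 : ℝ) else 0) * (if b = d then 1 else 0) * w a b +
      ∑ a, ∑ b, J b c * J a d * w a b - ∑ a, ∑ b, J a c * J b d * w a b -
      ∑ a, ∑ b, 2 * J a b * J c d * w a b := by
    simp only [Xw, KP.R0, ← Finset.sum_sub_distrib, ← Finset.sum_add_distrib]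
    exact Finset.sum_congr rfl fun a _ => Finset.sum_congr rfl fun b _ => by ring
  rw [p7, p1, p2, p3, p4, p5, p6, hw d c]
  ring

/-- the bilinear form of `J` -/
def B (J : Fin n → Fin n → ℝ) (x y : Fin n → ℝ) : ℝ := ∑ a, ∑ b, x a * J a b * y b

theorem B_eq (J : Fin n → Fin n → ℝ) (x y : Fin n → ℝ) : B J x y = dt (ac J x) y := by
  simp only [B, dt, ac, Finset.sum_mul]
  exact Finset.sum_comm

theorem B_skew {J : Fin n → Fin n → ℝ} (hJ : Sk J) (x y : Fin n → ℝ) : B J x y = - B J y x := by
  simp only [B, ← Finset.sum_neg_distrib]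
  rw [Finset.sum_comm]
  refine Finset.sum_congr rfl fun a _ => Finset.sum_congr rfl fun b _ => ?_
  rw [hJ b a]
  ring

theorem R4_eq (J : Fin n → Fin n → ℝ) (x y z w : Fin n → ℝ) :
    R4 (KP.R0 J) x y z w = dt y z * dt x w - dt x z * dt y w + B J y z * B J x w -
      B J x z * B J y w - 2 * B J x y * B J z w := by
  have p1 : ∑ a, ∑ b, ∑ c, ∑ d, (if b = c then (1 : ℝ) else 0) * (if a = d then 1 else 0) *
      (x a * y b * z c * w d) = dt y z * dt x w := by
    have h : ∀ a b, ∑ c, ∑ d, (if b = c then (1 : ℝ) else 0) * (if a = d then 1 else 0) *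
        (x a * y b * z c * w d) = (x a * w a) * (y b * z b) := by
      intro a b
      simp
      ring
    simp only [h, dt]
    rw [mul_comm, Finset.sum_mul_sum]
  have p2 : ∑ a, ∑ b, ∑ c, ∑ d, (if a = c then (1 : ℝ) else 0) * (if b = d then 1 else 0) *
      (x a * y b * z c * w d) = dt x z * dt y w := by
    have h : ∀ a b, ∑ c, ∑ d, (if a = c then (1 : ℝ) else 0) * (if b = d then 1 else 0) *
        (x a * y b * z c * w d) = (x a * z a) * (y b * w b) := by
      intro a b
      simp
      ring
    simp only [h, dt]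
    rw [Finset.sum_mul_sum]
  have p3 : ∑ a, ∑ b, ∑ c, ∑ d, J b c * J a d * (x a * y b * z c * w d) = B J y z * B J x w := by
    have h : ∀ a b, ∑ c, ∑ d, J b c * J a d * (x a * y b * z c * w d) =
        (∑ d, x a * J a d * w d) * (∑ c, y b * J b c * z c) := by
      intro a b
      rw [Finset.sum_mul_sum, Finset.sum_comm]
      exact Finset.sum_congr rfl fun c _ => Finset.sum_congr rfl fun d _ => by ring
    simp only [h, B]
    rw [mul_comm, Finset.sum_mul_sum]
  have p4 : ∑ a, ∑ b, ∑ c, ∑ d, J a c * J b d * (x a * y b * z c * w d) = B J x z * B J y w := by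
    have h : ∀ a b, ∑ c, ∑ d, J a c * J b d * (x a * y b * z c * w d) =
        (∑ c, x a * J a c * z c) * (∑ d, y b * J b d * w d) := by
      intro a b
      rw [Finset.sum_mul_sum]
      exact Finset.sum_congr rfl fun c _ => Finset.sum_congr rfl fun d _ => by ring
    simp only [h, B]
    rw [Finset.sum_mul_sum]
  have p5 : ∑ a, ∑ b, ∑ c, ∑ d, 2 * J a b * J c d * (x a * y b * z c * w d) =
      2 * B J x y * B J z w := by
    have h : ∀ a b, ∑ c, ∑ d, 2 * J a b * J c d * (x a * y b * z c * w d) =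
        2 * (x a * J a b * y b) * B J z w := by
      intro a b
      simp only [B, Finset.mul_sum]
      exact Finset.sum_congr rfl fun c _ => Finset.sum_congr rfl fun d _ => by ring
    simp only [h]
    rw [show B J x y = ∑ a, ∑ b, x a * J a b * y b from rfl]
    simp only [Finset.mul_sum, Finset.sum_mul]
  rw [← p1, ← p2, ← p3, ← p4, ← p5]
  simp only [R4, KP.R0, ← Finset.sum_sub_distrib, ← Finset.sum_add_distrib]
  exact Finset.sum_congr rfl fun a _ => Finset.sum_congr rfl fun b _ =>
    Finset.sum_congr rfl fun c _ => Finset.sum_congr rfl fun d _ => by ring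

theorem row_J {J : Fin n → Fin n → ℝ} (hJ : CJ J) (i j : Fin n) :
    ∑ a, J i a * J j a = if i = j then 1 else 0 := by
  have h1 := hJ.2 i j
  have h2 : mm J J i j = - ∑ a, J i a * J j a := by
    simp only [mm, ← Finset.sum_neg_distrib]
    refine Finset.sum_congr rfl fun a _ => ?_
    rw [hJ.1 a j]
    ring
  rw [h2] at h1
  split_ifs at h1 ⊢ <;> linarith

theorem dt_JJ {J : Fin n → Fin n → ℝ} (hJ : CJ J) (v : Fin n → ℝ) :
    dt (ac J v) (ac J v) = dt v v := by
  have h0 : ∀ a, ac J v a * ac J v a = ∑ i, ∑ j, v i * v j * (J i a * J j a) := by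
    intro a
    rw [show ac J v a = ∑ i, v i * J i a from rfl, Finset.sum_mul_sum]
    exact Finset.sum_congr rfl fun i _ => Finset.sum_congr rfl fun j _ => by ring
  have h1 : dt (ac J v) (ac J v) = ∑ i, ∑ j, v i * v j * ∑ a, J i a * J j a := by
    simp only [dt, h0, Finset.mul_sum]
    rw [Finset.sum_comm]
    refine Finset.sum_congr rfl fun i _ => ?_
    rw [Finset.sum_comm]
  rw [h1]
  simp only [row_J hJ, dt]
  refine Finset.sum_congr rfl fun i _ => ?_
  simp

theorem norm_J {J : Fin n → Fin n → ℝ} (hJ : CJ J) : ∑ a, ∑ b, J a b * J a b = n := by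
  have : ∀ a, ∑ b, J a b * J a b = 1 := fun a => by rw [row_J hJ a a, if_pos rfl]
  simp only [this]
  simp

end R0

open R0 in
/-- the tensor of constant holomorphic sectional curvature -/
theorem s_r0 : S_R0 := by
  intro n J hJ
  have hS : ∀ a b, J a b = - J b a := hJ.1
  refine ⟨⟨?_, ?_, ?_, ?_⟩, ?_, ?_, ?_⟩
  · intro a b c d
    simp only [KP.R0]
    rw [hS b a]
    ring
  · intro a b c d
    simp only [KP.R0]
    rw [hS d c]
    ring
  · intro a b c d
    simp only [KP.R0]
    rw [hS d a, hS c b, hS c a, hS d b]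
    simp only [eq_comm (a := d), eq_comm (a := c)]
    ring
  · intro a b c d
    simp only [KP.R0]
    rw [hS c a, hS b a, hS c b]
    simp only [eq_comm (a := b) (b := a), eq_comm (a := c) (b := a), eq_comm (a := c) (b := b)]
    ring
  · intro w hw i j
    have h0 : Xw (KP.R0 J) w = fun c d => -2 * w c d + 2 * mm (mm J w) J c d -
        (2 * ∑ a, ∑ b, J a b * w a b) * J c d :=
      funext fun c => funext fun d => Xw_eq hJ.1 hw c d
    have h1 : mm (mm (mm J w) J) J i j = - mm J w i j := by
      rw [mm_assoc', mm_wJJ hJ]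
    have h2 : mm J (mm (mm J w) J) i j = - mm w J i j := by
      rw [mm_assoc', ← mm_assoc', mm_JJ hJ]
    rw [h0, mm_linl, mm_linr, h1, h2]
    ring
  · intro v
    rw [R4_eq, dt_JJ hJ]
    have h1 : dt v (ac J v) = 0 := by
      have h2 := B_skew hJ.1 v v
      have h3 : B J v v = 0 := by linarith
      rw [B_eq] at h3
      rw [← h3]
      simp only [dt, mul_comm]
    have h2 : dt (ac J v) v = 0 := by
      rw [← h1]
      simp only [dt, mul_comm]
    have h3 : B J v (ac J v) = dt v v := by rw [B_eq, dt_JJ hJ]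
    have h4 : B J (ac J v) v = - dt v v := by rw [B_skew hJ.1, h3]
    have h5 : ∀ x, B J x x = 0 := fun x => by
      have := B_skew hJ.1 x x
      linarith
    rw [h1, h2, h3, h4, h5, h5]
    ring
  · intro X hX hXJ
    obtain ⟨b, hb⟩ : ∃ b : ℝ, b = ∑ a, ∑ b, J a b * X a b := ⟨_, rfl⟩
    obtain ⟨s, hs⟩ : ∃ s : ℝ, s = b / (n + 2) := ⟨_, rfl⟩
    have hn : (0 : ℝ) < (n : ℝ) + 2 := by positivity
    have hsb : s * ((n : ℝ) + 2) = b := by
      rw [hs]
      field_simp
    have hw : Sk (fun c d => -(1 / 4) * X c d + s / 4 * J c d - 0 * J c d) := by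
      intro c d
      show -(1 / 4) * X c d + s / 4 * J c d - 0 * J c d =
        - (-(1 / 4) * X d c + s / 4 * J d c - 0 * J d c)
      rw [hX c d, hS c d]
      ring
    refine ⟨_, hw, ?_⟩
    funext c d
    rw [Xw_eq hJ.1 hw]
    have e1 : mm J (fun c d => -(1 / 4) * X c d + s / 4 * J c d - 0 * J c d) =
        fun c d => -(1 / 4) * mm J X c d + s / 4 * mm J J c d - 0 * mm J J c d :=
      funext fun i => funext fun j => mm_linr _ _ _ _ _ _ _ i j
    have e2 : mm J X = mm X J := funext fun i => funext fun j => (hXJ i j).symm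
    have e3 : mm (mm J X) J c d = - X c d := by
      rw [e2, mm_assoc', mm_wJJ hJ]
    have e4 : mm (mm J J) J c d = - J c d := mm_JJ hJ J c d
    have e5 : ∑ a, ∑ b, J a b * (-(1 / 4) * X a b + s / 4 * J a b - 0 * J a b) =
        -(1 / 4) * b + s / 4 * n := by
      rw [← norm_J hJ, hb]
      simp only [Finset.mul_sum, ← Finset.sum_add_distrib]
      exact Finset.sum_congr rfl fun a _ => Finset.sum_congr rfl fun b _ => by ring
    rw [e1, mm_linl, e3, e4]
    rw [e5]
    have e6 : s * (n : ℝ) = b - 2 * s := by linarith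
    have e7 : s / 4 * (n : ℝ) = (b - 2 * s) / 4 := by
      rw [← e6]
      ring
    rw [e7]
    ring

end Pool.Agent.H781.KP
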