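import Pool.Agent.H781.KP.C

/-!
3-forms and alternating 3-tensors (KC-11, by helper271 for helper781).
-/

set_option autoImplicit false
set_option synthInstance.maxHeartbeats 400000
set_option maxHeartbeats 4000000
set_option linter.unusedSectionVars false

open MeasureTheory Filter
open scoped Topology ContDiff

noncomputable section

namespace Pool.Agent.H781.KP

open Pool.Agent.H781.NG Pool.Agent.H781.CM Pool.Agent.H781.H6

namespace T3f

variable {n : ℕ}

/-- the tensor of a 3-form -/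
def tt (u : Fk n ℝ) (a b c : Fin n) : ℝ := (an c (an b (an a u))) ∅

theorem tt_al3 (u : Fk n ℝ) : Al3 (tt u) := by
  constructor
  · intro a b c
    unfold tt
    rw [an_an b a, map_neg, Pi.neg_apply]
  · intro a b c
    unfold tt
    rw [an_an c b, Pi.neg_apply]

theorem sg_ne (i : Fin n) (S : Finset (Fin n)) : (sg i S : ℝ) ≠ 0 := by
  intro h
  have h1 := sg_sqA (A := ℝ) i S
  rw [h, mul_zero] at h1
  exact zero_ne_one h1

theorem tt_zero {u : Fk n ℝ} (hu : Deg 3 u) (h : ∀ a b c, tt u a b c = 0) : u = 0 := by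
  funext S
  rw [Pi.zero_apply]
  by_cases hS : S.card = 3
  · obtain ⟨x, y, z, hxy, hxz, hyz, rfl⟩ := Finset.card_eq_three.1 hS
    have h1 := h x y z
    unfold tt at h1
    have e1 : y ∉ insert z (∅ : Finset (Fin n)) := by simpa using hyz
    have e2 : x ∉ insert y (insert z (∅ : Finset (Fin n))) := by
      simp only [Finset.mem_insert, Finset.notMem_empty, or_false, not_or]
      exact ⟨hxy, hxz⟩
    rw [an_apply, if_neg (Finset.notMem_empty z), an_apply, if_neg e1, an_apply, if_neg e2] at h1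
    rcases mul_eq_zero.1 h1 with h2 | h2
    · exact absurd h2 (sg_ne _ _)
    rcases mul_eq_zero.1 h2 with h3 | h3
    · exact absurd h3 (sg_ne _ _)
    rcases mul_eq_zero.1 h3 with h4 | h4
    · exact absurd h4 (sg_ne _ _)
    exact h4
  · exact hu S hS

theorem dX_empty (X : Fin n → Fin n → ℝ) (w : Fk n ℝ) : dX X w ∅ = 0 := by
  unfold dX
  rw [Finset.sum_apply]
  refine Finset.sum_eq_zero fun i _ => ?_
  rw [Finset.sum_apply]
  refine Finset.sum_eq_zero fun a _ => ?_
  rw [Pi.smul_apply, cr_apply, if_neg (Finset.notMem_empty a), smul_zero]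

theorem an_dX (X : Fin n → Fin n → ℝ) (a : Fin n) (u : Fk n ℝ) :
    an a (dX X u) = dX X (an a u) + ∑ i, X i a • an i u := by
  unfold dX
  rw [map_sum, ← Finset.sum_add_distrib]
  refine Finset.sum_congr rfl fun i _ => ?_
  rw [map_sum]
  have h1 : ∀ b, an a (X i b • cr b (an i u)) =
      X i b • cr b (an i (an a u)) + if a = b then X i b • an i u else 0 := by
    intro b
    rw [map_smul, an_cr, an_an a i, map_neg, sub_neg_eq_add, smul_add, add_comm]
    split_ifs
    · rfl
    · rw [smul_zero]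
  rw [Finset.sum_congr rfl fun b _ => h1 b, Finset.sum_add_distrib, Finset.sum_ite_eq,
    if_pos (Finset.mem_univ a)]

theorem tt_dX {X : Fin n → Fin n → ℝ} (hX : Sk X) {u : Fk n ℝ} (h : dX X u = 0) (a b c : Fin n) :
    x3 X (tt u) a b c = 0 := by
  have h0 : (an c (an b (an a (dX X u)))) ∅ = 0 := by
    rw [h, map_zero, map_zero, map_zero]
    rfl
  rw [an_dX, map_add, an_dX, map_sum, map_add, map_add, an_dX, map_sum, map_sum,
    Pi.add_apply, Pi.add_apply, Pi.add_apply, dX_empty, zero_add, Finset.sum_apply,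
    Finset.sum_apply, Finset.sum_apply, ← Finset.sum_add_distrib, ← Finset.sum_add_distrib] at h0
  unfold x3
  rw [← neg_eq_zero, ← Finset.sum_neg_distrib, ← h0]
  refine Finset.sum_congr rfl fun e _ => ?_
  rw [map_smul, map_smul, map_smul, Pi.smul_apply, Pi.smul_apply, Pi.smul_apply, smul_eq_mul,
    smul_eq_mul, smul_eq_mul, hX e a, hX e b, hX e c]
  unfold tt
  ring

theorem ip_vac_right (w : Fk n ℝ) : NG.ip w vac = w ∅ := by
  unfold NG.ip
  rw [Finset.sum_eq_single (∅ : Finset (Fin n))]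
  · show w ∅ * (if (∅ : Finset (Fin n)) = ∅ then (1 : ℝ) else 0) = w ∅
    rw [if_pos rfl, mul_one]
  · intro S _ hS
    show w S * (if S = ∅ then (1 : ℝ) else 0) = 0
    rw [if_neg hS, mul_zero]
  · intro h
    exact absurd (Finset.mem_univ _) h

theorem tau_empty {h : Fin n → Fin n → ℝ} (hh : ON h) (w : Fk n ℝ) : Tau.tau h w ∅ = w ∅ := by
  rw [← ip_vac_right w, ← ip_vac_right (Tau.tau h w), ← Tau.ip_tau hh w vac, Tau.tau_vac]

open Pool.Agent.H781.CM.Lin4 in
theorem tt_tau {h : Fin n → Fin n → ℝ} (hh : ON h) {u : Fk n ℝ} (hu : Tau.tau h u = u)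
    (i j k : Fin n) : ∑ a, ∑ b, ∑ c, h i a * h j b * h k c * tt u a b c = tt u i j k := by
  have h1 : Tau.tau h (an k (an j (an i u))) = Av (h k) (Av (h j) (Av (h i) u)) := by
    rw [← Tau.Av_tau hh k, ← Tau.Av_tau hh j, ← Tau.Av_tau hh i, hu]
  have h2 : tt u i j k = (Av (h k) (Av (h j) (Av (h i) u))) ∅ := by
    rw [← h1, tau_empty hh]
    rfl
  rw [h2]
  have h3 : ∀ w : Fk n ℝ, ∀ l, Av (h l) w ∅ = ∑ c, h l c * an c w ∅ := by
    intro w l
    rw [Av_apply, Finset.sum_apply]
    rfl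
  have h4 : ∀ c, an c (Av (h j) (Av (h i) u)) ∅ =
      ∑ b, ∑ a, h j b * (h i a * tt u a b c) := by
    intro c
    rw [Av_apply, map_sum, Finset.sum_apply]
    refine Finset.sum_congr rfl fun b _ => ?_
    rw [map_smul, Av_apply, map_sum, map_sum, Pi.smul_apply, smul_eq_mul, Finset.sum_apply,
      Finset.mul_sum]
    refine Finset.sum_congr rfl fun a _ => ?_
    rw [map_smul, map_smul, Pi.smul_apply, smul_eq_mul]
    rfl
  rw [h3]
  have h5 : ∑ c, h k c * an c (Av (h j) (Av (h i) u)) ∅ =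
      ∑ c, ∑ b, ∑ a, h i a * h j b * h k c * tt u a b c := by
    refine Finset.sum_congr rfl fun c _ => ?_
    rw [h4, Finset.mul_sum]
    refine Finset.sum_congr rfl fun b _ => ?_
    rw [Finset.mul_sum]
    exact Finset.sum_congr rfl fun a _ => by ring
  rw [h5]
  have h6 : ∑ a, ∑ b, ∑ c, h i a * h j b * h k c * tt u a b c =
      ∑ a, ∑ c, ∑ b, h i a * h j b * h k c * tt u a b c :=
    Finset.sum_congr rfl fun a _ => Finset.sum_comm
  rw [h6, Finset.sum_comm]
  exact Finset.sum_congr rfl fun c _ => Finset.sum_comm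

end T3f

open T3f in
theorem s_t3f : S_T3F := fun _ u hu => ⟨tt u, tt_al3 u, tt_zero hu, fun _ hX h => tt_dX hX h,
  fun _ hh h => tt_tau hh h⟩

end Pool.Agent.H781.KP
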