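import Pool.Agent.H781.KP.C

/-!
Project KP, task KC-15: the structure of the Lie algebra.
-/

set_option autoImplicit false
set_option synthInstance.maxHeartbeats 400000
set_option maxHeartbeats 4000000
set_option linter.unusedSectionVars false

noncomputable section

namespace Pool.Agent.H781.KP

open Pool.Agent.H781.NG Pool.Agent.H781.CM Pool.Agent.H781.H6

namespace Tl2

variable {n : ℕ}

theorem dt_comm (x y : Fin n → ℝ) : dt x y = dt y x := by
  unfold dt
  exact Finset.sum_congr rfl fun i _ => mul_comm _ _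

theorem dt_add (x y z : Fin n → ℝ) : dt (x + y) z = dt x z + dt y z := by
  unfold dt
  rw [← Finset.sum_add_distrib]
  exact Finset.sum_congr rfl fun i _ => by rw [Pi.add_apply, add_mul]

theorem dt_smul (c : ℝ) (x y : Fin n → ℝ) : dt (c • x) y = c * dt x y := by
  unfold dt
  rw [Finset.mul_sum]
  exact Finset.sum_congr rfl fun i _ => by rw [Pi.smul_apply, smul_eq_mul, mul_assoc]

theorem dt_add' (x y z : Fin n → ℝ) : dt x (y + z) = dt x y + dt x z := by
  rw [dt_comm, dt_add, dt_comm y, dt_comm z]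

theorem dt_smul' (c : ℝ) (x y : Fin n → ℝ) : dt x (c • y) = c * dt x y := by
  rw [dt_comm, dt_smul, dt_comm y]

theorem dt_neg (x y : Fin n → ℝ) : dt (-x) y = - dt x y := by
  rw [← neg_one_smul ℝ x, dt_smul, neg_one_mul]

theorem dt_neg' (x y : Fin n → ℝ) : dt x (-y) = - dt x y := by
  rw [dt_comm, dt_neg, dt_comm y]

theorem dt_zero' (x : Fin n → ℝ) : dt x 0 = 0 := by
  rw [← zero_smul ℝ (0 : Fin n → ℝ), dt_smul', zero_mul]

theorem dt_nonneg (x : Fin n → ℝ) : 0 ≤ dt x x := Finset.sum_nonneg fun _ _ => mul_self_nonneg _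

theorem dt_eq_zero {x : Fin n → ℝ} (h : dt x x = 0) : x = 0 := by
  funext i
  have h1 := (Finset.sum_eq_zero_iff_of_nonneg (s := Finset.univ)
    (fun i _ => mul_self_nonneg (x i))).1 h i (Finset.mem_univ i)
  exact mul_self_eq_zero.1 h1

theorem dt_pos {x : Fin n → ℝ} (h : x ≠ 0) : 0 < dt x x :=
  lt_of_le_of_ne (dt_nonneg x) (fun h' => h (dt_eq_zero h'.symm))

theorem dt_cont {Ω : Type} [TopologicalSpace Ω] {f g : Ω → Fin n → ℝ} (hf : Continuous f)
    (hg : Continuous g) : Continuous fun ω => dt (f ω) (g ω) := by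
  unfold dt
  exact continuous_finsetSum _ fun i _ =>
    ((continuous_apply i).comp hf).mul ((continuous_apply i).comp hg)

/-- normalisation -/
theorem unit_of {x : Fin n → ℝ} (h : x ≠ 0) :
    ∃ c : ℝ, 0 < c ∧ c ^ 2 * dt x x = 1 ∧ dt (c • x) (c • x) = 1 := by
  have h1 := dt_pos h
  have h2 : ((√(dt x x))⁻¹) ^ 2 * dt x x = 1 := by
    rw [inv_pow, Real.sq_sqrt h1.le, inv_mul_cancel₀ h1.ne']
  refine ⟨(√(dt x x))⁻¹, inv_pos.2 (Real.sqrt_pos.2 h1), h2, ?_⟩
  rw [dt_smul, dt_smul', ← mul_assoc, ← sq, h2]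

/-- the unit sphere -/
theorem sph_compact : IsCompact {v : Fin n → ℝ | dt v v = 1} := by
  refine Metric.isCompact_of_isClosed_isBounded
    (isClosed_eq (dt_cont continuous_id continuous_id) continuous_const) ?_
  refine (Metric.isBounded_closedBall (x := (0 : Fin n → ℝ)) (r := 1)).subset fun v hv => ?_
  rw [Metric.mem_closedBall, dist_zero_right, pi_norm_le_iff_of_nonneg zero_le_one]
  intro i
  have hv' : dt v v = 1 := hv
  have h1 : v i * v i ≤ dt v v :=
    Finset.single_le_sum (f := fun i => v i * v i) (fun i _ => mul_self_nonneg (v i))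
      (Finset.mem_univ i)
  rw [hv'] at h1
  rw [Real.norm_eq_abs]
  exact abs_le_of_sq_le_sq (by nlinarith) zero_le_one

/-- the situation on the orthogonal complement -/
structure Su (l : ℝ) (X Y Z : (Fin n → ℝ) →ₗ[ℝ] (Fin n → ℝ)) (C : Submodule ℝ (Fin n → ℝ)) :
    Prop where
  l0 : 0 < l
  sX : ∀ u v, dt (X u) v = - dt u (X v)
  bX : ∀ v, dt (X v) (X v) ≤ l ^ 2 * dt v v
  xy : ∀ v, X (Y v) = Y (X v) + l • Z v
  xz : ∀ v, X (Z v) = Z (X v) - l • Y v
  yz : ∀ v, Y (Z v) = Z (Y v) + l • X v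
  cX : ∀ v ∈ C, X v ∈ C
  cY : ∀ v ∈ C, Y v ∈ C
  cZ : ∀ v ∈ C, Z v ∈ C
  ker : ∀ v ∈ C, X v = 0 → v = 0

variable {l : ℝ} {X Y Z : (Fin n → ℝ) →ₗ[ℝ] (Fin n → ℝ)} {C : Submodule ℝ (Fin n → ℝ)}

theorem lemE (h : Su l X Y Z C) {w : Fin n → ℝ} {m : ℝ} (hm : 0 < m)
    (hw : X (X w) = (-(m ^ 2)) • w) : Z (X w) = m • Y w ∧ Y (X w) = (-m) • Z w := by
  have hl := h.l0
  have hXe : X (m • Y w - Z (X w)) = (m + l) • (Y (X w) + m • Z w) := by
    rw [map_sub, map_smul, h.xy, h.xz, hw, map_smul]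
    module
  have hXf : X (Y (X w) + m • Z w) = (-(m + l)) • (m • Y w - Z (X w)) := by
    rw [map_add, map_smul, h.xy, h.xz, hw, map_smul]
    module
  have e0 : m • Y w - Z (X w) = 0 := by
    apply dt_eq_zero
    have h1 : dt (X (m • Y w - Z (X w))) (X (m • Y w - Z (X w))) =
        (m + l) ^ 2 * dt (m • Y w - Z (X w)) (m • Y w - Z (X w)) := by
      rw [h.sX]
      rw [hXe, map_smul, hXf, dt_smul', dt_smul']
      ring
    have h2 := h.bX (m • Y w - Z (X w))
    rw [h1] at h2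
    have h3 := dt_nonneg (m • Y w - Z (X w))
    have h4 : 0 < m ^ 2 + 2 * m * l := by positivity
    have h5 : (m ^ 2 + 2 * m * l) * dt (m • Y w - Z (X w)) (m • Y w - Z (X w)) ≤ 0 := by
      linarith
    by_contra hne
    have h6 := mul_pos h4 (lt_of_le_of_ne h3 (Ne.symm hne))
    linarith
  have f0 : Y (X w) + m • Z w = 0 := by
    rw [e0, map_zero] at hXe
    exact (smul_eq_zero.1 hXe.symm).resolve_left (by positivity)
  exact ⟨(sub_eq_zero.1 e0).symm, by rw [neg_smul]; exact eq_neg_of_add_eq_zero_left f0⟩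

theorem lemS (h : Su l X Y Z C) {w : Fin n → ℝ} (hwC : w ∈ C) (hw0 : w ≠ 0) {m : ℝ}
    (hm : 0 < m) (hw : X (X w) = (-(m ^ 2)) • w) :
    m < l ∧ Y w ≠ 0 ∧ X (X (Y w)) = (-((l - m) ^ 2)) • Y w ∧
      Y (Y w) = (-(l * m / 2)) • w := by
  have hl := h.l0
  obtain ⟨e1, e2⟩ := lemE h hm hw
  have x1 : X (Y w) = (l - m) • Z w := by
    rw [h.xy, e2]
    module
  have x2 : X (Z w) = (-(l - m)) • Y w := by
    rw [h.xz, e1]
    module
  have x3 : X (X (Y w)) = (-((l - m) ^ 2)) • Y w := by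
    rw [x1, map_smul, x2]
    module
  have e3 : Y (Y w) + Z (Z w) = (-(l * m)) • w := by
    have h1 := h.yz (X w)
    rw [e1, e2, hw, map_smul, map_smul] at h1
    apply smul_right_injective (Fin n → ℝ) hm.ne'
    change m • (Y (Y w) + Z (Z w)) = m • ((-(l * m)) • w)
    rw [smul_add, h1]
    module
  have nz : ¬ (Y w = 0 ∧ Z w = 0) := by
    rintro ⟨h1, h2⟩
    rw [h1, h2, map_zero, map_zero, add_zero] at e3
    rcases smul_eq_zero.1 e3.symm with h3 | h3
    · have : 0 < l * m := by positivity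
      linarith
    · exact hw0 h3
  have hml : m ≠ l := by
    intro h1
    apply nz
    rw [h1, sub_self, zero_smul] at x1
    rw [h1, sub_self, neg_zero, zero_smul] at x2
    exact ⟨h.ker _ (h.cY w hwC) x1, h.ker _ (h.cZ w hwC) x2⟩
  have hle : m ≤ l := by
    have h1 := h.bX w
    rw [h.sX, hw, dt_smul'] at h1
    have h2 := dt_pos hw0
    by_contra h3
    push Not at h3
    have h4 : l ^ 2 < m ^ 2 := by nlinarith
    nlinarith [mul_lt_mul_of_pos_right h4 h2]
  have hlt : m < l := lt_of_le_of_ne hle hml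
  have hk : 0 < l - m := sub_pos.2 hlt
  have hY : Y w ≠ 0 := by
    intro h1
    apply nz
    rw [h1, map_zero] at x1
    exact ⟨h1, (smul_eq_zero.1 x1.symm).resolve_left hk.ne'⟩
  refine ⟨hlt, hY, x3, ?_⟩
  have h1 := (lemE h hk x3).1
  rw [x1, map_smul] at h1
  have h2 : Z (Z w) = Y (Y w) := smul_right_injective (Fin n → ℝ) hk.ne' h1
  rw [h2] at e3
  have h3 : (2 : ℝ) • Y (Y w) = (-(l * m)) • w := by
    rw [two_smul]
    exact e3
  apply smul_right_injective (Fin n → ℝ) (two_ne_zero' ℝ)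
  change (2 : ℝ) • Y (Y w) = (2 : ℝ) • ((-(l * m / 2)) • w)
  rw [h3]
  module

theorem lemH (h : Su l X Y Z C) {w : Fin n → ℝ} (hwC : w ∈ C) (hw0 : w ≠ 0) {m : ℝ}
    (hm : 0 < m) (hw : X (X w) = (-(m ^ 2)) • w) : m = l / 2 := by
  have hl := h.l0
  obtain ⟨h1, h2, h3, h4⟩ := lemS h hwC hw0 hm hw
  obtain ⟨-, -, -, h5⟩ := lemS h (h.cY w hwC) h2 (sub_pos.2 h1) h3
  rw [h4, map_smul, ← sub_eq_zero, ← sub_smul] at h5
  have h6 := (smul_eq_zero.1 h5).resolve_right h2
  have h7 : l * (2 * m - l) = 0 := by linarith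
  have h8 := (mul_eq_zero.1 h7).resolve_left hl.ne'
  linarith

theorem lemX (h : Su l X Y Z C) (hC : ∃ v ∈ C, v ≠ 0) {s : ℝ} (hs : s ≠ 0) :
    ∃ w ∈ C, w ≠ 0 ∧ (∀ v ∈ C, s * dt (X v) (X v) ≤ s * dt (X w) (X w) * dt v v) ∧
      X (X w) = (-(dt (X w) (X w))) • w := by
  have hXc : Continuous X := LinearMap.continuous_of_finiteDimensional X
  obtain ⟨v0, hv0, hv0'⟩ := hC
  have hK : IsCompact ({v : Fin n → ℝ | dt v v = 1} ∩ (C : Set (Fin n → ℝ))) :=
    sph_compact.inter_right C.closed_of_finiteDimensional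
  obtain ⟨c0, hc0, -, hc0'⟩ := unit_of hv0'
  obtain ⟨w, ⟨hw1, hwC⟩, hmax⟩ := hK.exists_isMaxOn
    ⟨c0 • v0, hc0', C.smul_mem c0 hv0⟩
    (f := fun v => s * dt (X v) (X v)) (continuous_const.mul (dt_cont hXc hXc)).continuousOn
  have hw1' : dt w w = 1 := hw1
  have hw0 : w ≠ 0 := by
    rintro rfl
    rw [dt_zero'] at hw1'
    exact zero_ne_one hw1'
  have hall : ∀ v ∈ C, s * dt (X v) (X v) ≤ s * dt (X w) (X w) * dt v v := by
    intro v hv
    by_cases hv' : v = 0
    · rw [hv', map_zero, dt_zero', mul_zero, mul_zero]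
    · obtain ⟨c, hc, hc1, hc2⟩ := unit_of hv'
      have h1 : s * dt (X (c • v)) (X (c • v)) ≤ s * dt (X w) (X w) :=
        hmax (show c • v ∈ _ from ⟨hc2, C.smul_mem c hv⟩)
      rw [map_smul, dt_smul, dt_smul'] at h1
      have h2 := dt_pos hv'
      have h3 := mul_le_mul_of_nonneg_right h1 h2.le
      have h4 : s * (c * (c * dt (X v) (X v))) * dt v v =
          s * dt (X v) (X v) * (c ^ 2 * dt v v) := by ring
      rw [h4, hc1, mul_one] at h3
      exact h3
  refine ⟨w, hwC, hw0, hall, ?_⟩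
  set c := dt (X w) (X w) with hc
  have hr : X (X w) + c • w ∈ C := C.add_mem (h.cX _ (h.cX _ hwC)) (C.smul_mem c hwC)
  have hD : dt (X (X w) + c • w) (X (X w) + c • w) = 0 := by
    set ρ := X (X w) + c • w with hρ
    have h1 : ∀ t : ℝ, 0 ≤ (s * c * dt ρ ρ - s * dt (X ρ) (X ρ)) * (t * t) +
        (2 * s * dt ρ ρ) * t + 0 := by
      intro t
      have h2 := hall (w + t • ρ) (C.add_mem hwC (C.smul_mem t hr))
      rw [map_add, map_smul] at h2
      simp only [dt_add, dt_add', dt_smul, dt_smul'] at h2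
      rw [hw1', ← hc, dt_comm ρ w, dt_comm (X ρ) (X w)] at h2
      have h3 : dt (X w) (X ρ) = - dt (X (X w)) ρ := by
        rw [h.sX (X w) ρ, neg_neg]
      have h4 : dt ρ ρ = dt (X (X w)) ρ + c * dt w ρ := by
        conv_lhs => rw [hρ, dt_add, dt_smul]
      rw [h3] at h2
      have h5 : dt (X (X w)) ρ = dt ρ ρ - c * dt w ρ := by linarith
      rw [h5] at h2
      nlinarith [h2]
    have h2 := discrim_le_zero h1
    unfold discrim at h2
    have h3 : (2 * s * dt ρ ρ) ^ 2 ≤ 0 := by linarith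
    have h4 : 2 * s * dt ρ ρ = 0 := by
      have := sq_nonneg (2 * s * dt ρ ρ)
      exact pow_eq_zero_iff two_ne_zero |>.1 (le_antisymm h3 this)
    exact (mul_eq_zero.1 h4).resolve_left (mul_ne_zero two_ne_zero hs)
  have h6 := dt_eq_zero hD
  rw [neg_smul]
  exact eq_neg_of_add_eq_zero_left h6

theorem lemC (h : Su l X Y Z C) {w : Fin n → ℝ} (hw : w ∈ C) :
    X (X w) = (-(l ^ 2 / 4)) • w := by
  have hl := h.l0
  by_cases hw0 : w = 0
  · rw [hw0, map_zero, map_zero, smul_zero]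
  have key : ∀ s : ℝ, s ≠ 0 → ∀ v ∈ C, s * dt (X v) (X v) ≤ s * (l ^ 2 / 4) * dt v v := by
    intro s hs
    obtain ⟨w1, h1, h2, h3, h4⟩ := lemX h ⟨w, hw, hw0⟩ hs
    have h5 : X w1 ≠ 0 := fun h5 => h2 (h.ker w1 h1 h5)
    have h6 := dt_pos h5
    have h7 : (√(dt (X w1) (X w1))) ^ 2 = dt (X w1) (X w1) := Real.sq_sqrt h6.le
    have h8 := lemH h h1 h2 (Real.sqrt_pos.2 h6) (by rw [h7]; exact h4)
    have h9 : dt (X w1) (X w1) = l ^ 2 / 4 := by
      rw [← h7, h8]
      ring
    rw [h9] at h3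
    exact h3
  have heq : ∀ v ∈ C, dt (X v) (X v) = l ^ 2 / 4 * dt v v := by
    intro v hv
    have h1 := key 1 one_ne_zero v hv
    have h2 := key (-1) (by norm_num) v hv
    linarith
  have hr : X (X w) + (l ^ 2 / 4) • w ∈ C :=
    C.add_mem (h.cX _ (h.cX _ hw)) (C.smul_mem _ hw)
  have hD : dt (X (X w) + (l ^ 2 / 4) • w) (X (X w) + (l ^ 2 / 4) • w) = 0 := by
    set ρ := X (X w) + (l ^ 2 / 4) • w with hρ
    have h1 := heq (w + ρ) (C.add_mem hw hr)
    have h2 := heq w hw
    have h3 := heq ρ hr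
    rw [map_add] at h1
    simp only [dt_add, dt_add'] at h1
    rw [h2, h3, dt_comm ρ w, dt_comm (X ρ) (X w)] at h1
    have h4 : dt (X w) (X ρ) = - dt (X (X w)) ρ := by
      rw [h.sX (X w) ρ, neg_neg]
    have h5 : dt ρ ρ = dt (X (X w)) ρ + l ^ 2 / 4 * dt w ρ := by
      conv_lhs => rw [hρ, dt_add, dt_smul]
    rw [h4] at h1
    linarith
  have h6 := dt_eq_zero hD
  rw [neg_smul]
  exact eq_neg_of_add_eq_zero_left h6

theorem P_cont (P : (Fin n → ℝ) →ₗ[ℝ] (Fin n → ℝ) →ₗ[ℝ] (Fin n → ℝ)) :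
    Continuous fun p : (Fin n → ℝ) × (Fin n → ℝ) => P p.1 p.2 := by
  have h1 : (fun p : (Fin n → ℝ) × (Fin n → ℝ) => P p.1 p.2) =
      fun p => ∑ i, p.1 i • P (fun j => if i = j then 1 else 0) p.2 := by
    funext p
    rw [LinearMap.pi_apply_eq_sum_univ P p.1, LinearMap.sum_apply]
    rfl
  rw [h1]
  exact continuous_finsetSum _ fun i _ => ((continuous_apply i).comp continuous_fst).smul
    ((LinearMap.continuous_of_finiteDimensional _).comp continuous_snd)

end Tl2

open Tl2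

theorem s_tl2 : S_TL2 := by
  intro n P hP hne hker
  obtain ⟨ha, hs, hj, ht⟩ := hP
  obtain ⟨a, b, hab⟩ := hne
  have ha0 : a ≠ 0 := by
    rintro rfl
    exact hab (by rw [map_zero, LinearMap.zero_apply])
  have hb0 : b ≠ 0 := by
    rintro rfl
    exact hab (map_zero _)
  have hself : ∀ x, P x x = 0 := by
    intro x
    have h1 := ha x x
    have h2 : (2 : ℝ) • P x x = 0 := by
      rw [two_smul]
      nth_rewrite 1 [h1]
      exact neg_add_cancel _
    exact (smul_eq_zero.1 h2).resolve_left two_ne_zero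
  obtain ⟨ca, hca, -, hca2⟩ := unit_of ha0
  obtain ⟨cb, hcb, -, hcb2⟩ := unit_of hb0
  obtain ⟨⟨x0, y0⟩, ⟨hx0, hy0⟩, hmax⟩ := (sph_compact (n := n)).prod (sph_compact (n := n))
    |>.exists_isMaxOn ⟨(ca • a, cb • b), hca2, hcb2⟩
    (f := fun p : (Fin n → ℝ) × (Fin n → ℝ) => dt (P p.1 p.2) (P p.1 p.2))
    (dt_cont (P_cont P) (P_cont P)).continuousOn
  have hx0' : dt x0 x0 = 1 := hx0
  have hy0' : dt y0 y0 = 1 := hy0
  set L : ℝ := dt (P x0 y0) (P x0 y0) with hL
  have hunit : ∀ u v, dt u u = 1 → dt v v = 1 → dt (P u v) (P u v) ≤ L := by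
    intro u v hu hv
    exact hmax (show (u, v) ∈ _ from ⟨hu, hv⟩)
  have hbound : ∀ u v, dt (P u v) (P u v) ≤ L * (dt u u * dt v v) := by
    intro u v
    by_cases hu : u = 0
    · rw [hu, map_zero, LinearMap.zero_apply, dt_zero', zero_mul, mul_zero]
    by_cases hv : v = 0
    · rw [hv, map_zero, dt_zero', mul_zero, mul_zero]
    obtain ⟨cu, hcu, hcu1, hcu2⟩ := unit_of hu
    obtain ⟨cv, hcv, hcv1, hcv2⟩ := unit_of hv
    have h1 := hunit _ _ hcu2 hcv2
    rw [map_smul, map_smul, LinearMap.smul_apply, dt_smul, dt_smul, dt_smul', dt_smul'] at h1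
    have h2 := mul_pos (dt_pos hu) (dt_pos hv)
    have h3 := mul_le_mul_of_nonneg_right h1 h2.le
    have h4 : cv * (cu * (cv * (cu * dt (P u v) (P u v)))) * (dt u u * dt v v) =
        (cu ^ 2 * dt u u) * (cv ^ 2 * dt v v) * dt (P u v) (P u v) := by ring
    rw [h4, hcu1, hcv1, one_mul, one_mul] at h3
    exact h3
  have hL0 : 0 < L := by
    have h1 := dt_pos hab
    have h2 := hbound a b
    have h3 := mul_pos (dt_pos ha0) (dt_pos hb0)
    by_contra h4
    push Not at h4
    have h5 := mul_nonpos_of_nonpos_of_nonneg h4 h3.le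
    linarith
  have hl0 : 0 < √L := Real.sqrt_pos.2 hL0
  have hl2 : (√L) ^ 2 = L := Real.sq_sqrt hL0.le
  refine ⟨√L, hl0, ?_, ?_⟩
  · intro x hx
    obtain ⟨y, hy, hxy⟩ : ∃ y, dt y y = 1 ∧ dt (P x y) (P x y) = L := by
      by_cases h1 : dt x0 x = -1
      · have h2 : x0 + x = 0 := by
          apply dt_eq_zero
          rw [dt_add, dt_add', dt_add', dt_comm x x0, h1, hx0', hx]
          norm_num
        have h3 : x = -x0 := eq_neg_of_add_eq_zero_right h2
        refine ⟨y0, hy0', ?_⟩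
        rw [h3, map_neg, LinearMap.neg_apply, dt_neg, dt_neg', neg_neg]
      · obtain ⟨h, h2, h3, h4⟩ := ht x0 x hx0' hx h1
        refine ⟨h y0, by rw [h2, hy0'], ?_⟩
        rw [← h3, ← h4, h2]
    refine ⟨y, (√L)⁻¹ • P x y, hy, ?_, ?_⟩
    · rw [dt_smul, dt_smul', hxy, ← mul_assoc, ← sq, inv_pow, hl2, inv_mul_cancel₀ hL0.ne']
    · rw [smul_smul, mul_inv_cancel₀ hl0.ne', one_smul]
  · intro x y z hx hy hz hxy
    have hPxy : dt (P x y) (P x y) = L := by
      rw [hxy, dt_smul, dt_smul', hz, mul_one, ← sq, hl2]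
    -- orthogonality to `z`
    have hzx : dt z x = 0 := by
      have h1 : dt (P x y) x = 0 := by
        rw [hs, hself, dt_zero', neg_zero]
      rw [hxy, dt_smul] at h1
      exact (mul_eq_zero.1 h1).resolve_left hl0.ne'
    have hzy : dt z y = 0 := by
      have h1 : dt (P x y) y = 0 := by
        rw [ha, dt_neg, hs, hself, dt_zero', neg_zero, neg_zero]
      rw [hxy, dt_smul] at h1
      exact (mul_eq_zero.1 h1).resolve_left hl0.ne'
    have hxx : P x (P x y) = (-L) • y := by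
      have h1 : dt (P x (P x y) + L • y) (P x (P x y) + L • y) = 0 := by
        apply le_antisymm _ (dt_nonneg _)
        have h2 := hbound x (P x y)
        rw [hx, one_mul, hPxy] at h2
        have h3 : dt (P x (P x y)) y = -L := by
          rw [hs, hPxy]
        simp only [dt_add, dt_add', dt_smul, dt_smul']
        rw [dt_comm y (P x (P x y)), h3, hy]
        linarith
      have h4 := dt_eq_zero h1
      rw [neg_smul]
      exact eq_neg_of_add_eq_zero_left h4
    have hxz : P x z = (-√L) • y := by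
      rw [hxy, map_smul] at hxx
      apply smul_right_injective (Fin n → ℝ) hl0.ne'
      change √L • P x z = √L • ((-√L) • y)
      rw [hxx, smul_smul]
      congr 1
      rw [mul_neg, ← sq, hl2]
    have hzx' : P z x = √L • y := by
      rw [ha, hxz, neg_smul, neg_neg]
    have hyz : P y z = √L • x := by
      have h1 : dt (P y z - √L • x) (P y z - √L • x) = 0 := by
        apply le_antisymm _ (dt_nonneg _)
        have h2 := hbound y z
        rw [hy, hz, one_mul, mul_one] at h2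
        have h3 : dt (P y z) x = √L := by
          rw [hs, ha y x, dt_neg', hxy, dt_smul', hz, mul_one, neg_neg]
        rw [sub_eq_add_neg, ← neg_smul]
        simp only [dt_add, dt_add', dt_smul, dt_smul']
        rw [dt_comm x (P y z), h3, hx]
        nlinarith
      exact sub_eq_zero.1 (dt_eq_zero h1)
    have hyx : dt y x = 0 := by
      have h1 : dt (P z x) x = - dt x (P z x) := hs z x x
      rw [hzx', dt_smul, dt_smul', dt_comm x y] at h1
      have h2 : √L * dt y x = 0 := by linarith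
      exact (mul_eq_zero.1 h2).resolve_left hl0.ne'
    refine ⟨hyz, hzx', by rw [dt_comm, hyx], by rw [dt_comm, hzx], by rw [dt_comm, hzy], ?_⟩
    intro w hw1 hw2 hw3
    have hyx' : P y x = (-√L) • z := by
      rw [ha, hxy, neg_smul]
    have hzy' : P z y = (-√L) • x := by
      rw [ha, hyz, neg_smul]
    let C : Submodule ℝ (Fin n → ℝ) :=
      { carrier := {v | dt v x = 0 ∧ dt v y = 0 ∧ dt v z = 0}
        add_mem' := by
          rintro u v ⟨h1, h2, h3⟩ ⟨h4, h5, h6⟩
          refine ⟨?_, ?_, ?_⟩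
          · rw [dt_add, h1, h4, add_zero]
          · rw [dt_add, h2, h5, add_zero]
          · rw [dt_add, h3, h6, add_zero]
        zero_mem' := by
          refine ⟨?_, ?_, ?_⟩ <;> rw [dt_comm, dt_zero']
        smul_mem' := by
          rintro c v ⟨h1, h2, h3⟩
          refine ⟨?_, ?_, ?_⟩
          · rw [dt_smul, h1, mul_zero]
          · rw [dt_smul, h2, mul_zero]
          · rw [dt_smul, h3, mul_zero] }
    have hSu : Su (√L) (P x) (P y) (P z) C := by
      refine ⟨hl0, hs x, fun v => ?_, fun v => ?_, fun v => ?_, fun v => ?_, ?_, ?_, ?_, ?_⟩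
      · have h1 := hbound x v
        rw [hx, one_mul] at h1
        rw [hl2]
        exact h1
      · have h1 := hj x y v
        rw [hxy, map_smul, LinearMap.smul_apply] at h1
        rw [h1]
        abel
      · have h1 := hj x z v
        rw [hxz, map_smul, LinearMap.smul_apply, neg_smul] at h1
        rw [sub_eq_add_neg, h1]
        abel
      · have h1 := hj y z v
        rw [hyz, map_smul, LinearMap.smul_apply] at h1
        rw [h1]
        abel
      · rintro v ⟨h1, h2, h3⟩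
        refine ⟨?_, ?_, ?_⟩
        · rw [hs, hself, dt_zero', neg_zero]
        · rw [hs, hxy, dt_smul', h3, mul_zero, neg_zero]
        · rw [hs, hxz, dt_smul', h2, mul_zero, neg_zero]
      · rintro v ⟨h1, h2, h3⟩
        refine ⟨?_, ?_, ?_⟩
        · rw [hs, hyx', dt_smul', h3, mul_zero, neg_zero]
        · rw [hs, hself, dt_zero', neg_zero]
        · rw [hs, hyz, dt_smul', h1, mul_zero, neg_zero]
      · rintro v ⟨h1, h2, h3⟩
        refine ⟨?_, ?_, ?_⟩
        · rw [hs, hzx', dt_smul', h2, mul_zero, neg_zero]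
        · rw [hs, hzy', dt_smul', h1, mul_zero, neg_zero]
        · rw [hs, hself, dt_zero', neg_zero]
      · rintro v ⟨h1, -, -⟩ h4
        have hx0 : x ≠ 0 := by
          rintro rfl
          rw [dt_zero'] at hx
          exact zero_ne_one hx
        obtain ⟨c, hc⟩ := hker x v hx0 h4
        rw [hc, dt_smul, hx, mul_one] at h1
        rw [hc, h1, zero_smul]
    have h1 := lemC hSu (w := w) ⟨hw1, hw2, hw3⟩
    exact h1

end Pool.Agent.H781.KP
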