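import Pool.Agent.H781.KP.C

/-!
Project KP: a Lie algebra with invariant inner product and transitive automorphism group has
dimension at most three (helper782 for helper781).
-/

set_option autoImplicit false
set_option synthInstance.maxHeartbeats 400000
set_option maxHeartbeats 4000000
set_option linter.unusedSectionVars false

open MeasureTheory Filter
open scoped Topology ContDiff

noncomputable section

namespace Pool.Agent.H781.KP

open Pool.Agent.H781.NG Pool.Agent.H781.CM Pool.Agent.H781.H6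

namespace Tl3

variable {n : ℕ}

theorem dt_comm (x y : Fin n → ℝ) : dt x y = dt y x :=
  Finset.sum_congr rfl fun _ _ => mul_comm _ _

theorem dt_smul_l (c : ℝ) (x y : Fin n → ℝ) : dt (c • x) y = c * dt x y := by
  unfold dt
  rw [Finset.mul_sum]
  refine Finset.sum_congr rfl fun i _ => ?_
  rw [Pi.smul_apply, smul_eq_mul]
  ring

theorem dt_smul_r (c : ℝ) (x y : Fin n → ℝ) : dt x (c • y) = c * dt x y := by
  rw [dt_comm, dt_smul_l, dt_comm]

theorem dt_add_l (x x' y : Fin n → ℝ) : dt (x + x') y = dt x y + dt x' y := by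
  unfold dt
  rw [← Finset.sum_add_distrib]
  refine Finset.sum_congr rfl fun i _ => ?_
  rw [Pi.add_apply]
  ring

theorem dt_neg_r (x y : Fin n → ℝ) : dt x (-y) = - dt x y := by
  have h := dt_smul_r (-1) x y
  rw [neg_one_smul, neg_one_mul] at h
  exact h

theorem dt_sub_l (x x' y : Fin n → ℝ) : dt (x - x') y = dt x y - dt x' y := by
  have h := dt_add_l (x - x') x' y
  rw [sub_add_cancel] at h
  linarith

theorem dt_zero_l (y : Fin n → ℝ) : dt 0 y = 0 := by
  unfold dt
  exact Finset.sum_eq_zero fun i _ => by rw [Pi.zero_apply, zero_mul]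

theorem dt_pos {x : Fin n → ℝ} (hx : x ≠ 0) : 0 < dt x x := by
  have h0 : 0 ≤ dt x x := Finset.sum_nonneg fun _ _ => mul_self_nonneg _
  refine lt_of_le_of_ne h0 fun h => hx ?_
  funext i
  have h1 := (Finset.sum_eq_zero_iff_of_nonneg (s := Finset.univ) (f := fun a => x a * x a)
    (fun _ _ => mul_self_nonneg _)).mp h.symm i (Finset.mem_univ i)
  exact mul_self_eq_zero.mp h1

theorem unit_of {x : Fin n → ℝ} (hx : x ≠ 0) : ∃ c : ℝ, dt (c • x) (c • x) = 1 := by
  have h := dt_pos hx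
  refine ⟨(Real.sqrt (dt x x))⁻¹, ?_⟩
  rw [dt_smul_l, dt_smul_r]
  have h1 : Real.sqrt (dt x x) * Real.sqrt (dt x x) = dt x x := Real.mul_self_sqrt h.le
  have h2 : Real.sqrt (dt x x) ≠ 0 := (Real.sqrt_pos.mpr h).ne'
  field_simp
  nlinarith

/-- a unit vector orthogonal to three vectors -/
theorem orth (hn : 3 < n) (x y z : Fin n → ℝ) :
    ∃ w : Fin n → ℝ, dt w w = 1 ∧ dt w x = 0 ∧ dt w y = 0 ∧ dt w z = 0 := by
  let f : (Fin n → ℝ) →ₗ[ℝ] (Fin 3 → ℝ) :=
    { toFun := fun w => ![dt w x, dt w y, dt w z]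
      map_add' := by
        intro u v
        ext i
        fin_cases i <;> simp [dt_add_l]
      map_smul' := by
        intro c u
        ext i
        fin_cases i <;> simp [dt_smul_l] }
  have hf : LinearMap.ker f ≠ ⊥ := by
    apply LinearMap.ker_ne_bot_of_finrank_lt
    simpa using hn
  obtain ⟨w, hw, hw0⟩ := Submodule.exists_mem_ne_zero_of_ne_bot hf
  have hw' : f w = 0 := hw
  have e0 : dt w x = 0 := congrFun hw' 0
  have e1 : dt w y = 0 := congrFun hw' 1
  have e2 : dt w z = 0 := congrFun hw' 2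
  obtain ⟨c, hc⟩ := unit_of hw0
  refine ⟨c • w, hc, ?_, ?_, ?_⟩
  · rw [dt_smul_l, e0, mul_zero]
  · rw [dt_smul_l, e1, mul_zero]
  · rw [dt_smul_l, e2, mul_zero]

variable {P : (Fin n → ℝ) →ₗ[ℝ] (Fin n → ℝ) →ₗ[ℝ] (Fin n → ℝ)}

theorem self_zero (hanti : ∀ x y, P x y = - P y x) (u : Fin n → ℝ) : P u u = 0 := by
  have h := hanti u u
  have h2 : P u u + P u u = 0 := by
    nth_rewrite 1 [h]
    exact neg_add_cancel _
  have h3 : (2 : ℝ) • P u u = 0 := by rw [two_smul]; exact h2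
  exact (smul_eq_zero.mp h3).resolve_left two_ne_zero

theorem sq_k (hanti : ∀ x y, P x y = - P y x) (hskew : ∀ x y z, dt (P x y) z = - dt y (P x z))
    (hjac : ∀ x y z, P (P x y) z = P x (P y z) - P y (P x z))
    (hker : ∀ x y, x ≠ 0 → P x y = 0 → ∃ c : ℝ, y = c • x) {l : ℝ} {x w : Fin n → ℝ}
    (hx : dt x x = 1) (hw : dt w w = 1) (hsq : P x (P x w) = - (l ^ 2 / 4) • w) :
    P w (P w x) = - (l ^ 2 / 4) • x := by
  have hx0 : x ≠ 0 := by
    rintro rfl
    rw [dt_zero_l] at hx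
    exact zero_ne_one hx
  set u := P x w with hu
  have h1 : dt u u = l ^ 2 / 4 := by
    rw [hu, hskew, ← hu, hsq, dt_smul_r, hw]
    ring
  have h2 : P x (P w u) = 0 := by
    have h3 := hjac x w u
    rw [← hu, self_zero hanti, hsq, map_smul, self_zero hanti, smul_zero, sub_zero] at h3
    exact h3.symm
  obtain ⟨c, hc⟩ := hker x _ hx0 h2
  have h4 : c = l ^ 2 / 4 := by
    have h5 : dt (P w u) x = c := by rw [hc, dt_smul_l, hx, mul_one]
    rw [← h5, hskew, hanti w x, dt_neg_r, neg_neg, ← hu, h1]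
  rw [hanti w x, ← hu, map_neg, hc, h4, neg_smul]

/-- the orthogonal complement is stable -/
theorem stable (hanti : ∀ x y, P x y = - P y x) (hskew : ∀ x y z, dt (P x y) z = - dt y (P x z))
    {l : ℝ} {x y z w : Fin n → ℝ} (hxy : P x y = l • z) (hzx : P z x = l • y)
    (hy : dt w y = 0) (hz : dt w z = 0) :
    dt (P x w) x = 0 ∧ dt (P x w) y = 0 ∧ dt (P x w) z = 0 := by
  refine ⟨?_, ?_, ?_⟩
  · rw [hskew, self_zero hanti, dt_comm, dt_zero_l, neg_zero]
  · rw [hskew, hxy, dt_smul_r, hz, mul_zero, neg_zero]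
  · rw [hskew, hanti x z, hzx, dt_neg_r, dt_smul_r, hy, mul_zero, neg_zero, neg_zero]

/-- the bracket of two elements of the complement is orthogonal to the complement -/
theorem tau0 (hskew : ∀ x y z, dt (P x y) z = - dt y (P x z))
    (hjac : ∀ x y z, P (P x y) z = P x (P y z) - P y (P x z)) {a : ℝ} (ha : a ≠ 0)
    {x : Fin n → ℝ} {S : (Fin n → ℝ) → Prop} (hS : ∀ w, S w → S (P x w))
    (hsq : ∀ w, S w → P x (P x w) = - a • w) {w t s : Fin n → ℝ} (hw : S w) (ht : S t)
    (hs : S s) : dt (P w t) s = 0 := by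
  have inv : ∀ w t s, dt (P (P x w) t) s + dt (P w (P x t)) s + dt (P w t) (P x s) = 0 := by
    intro w t s
    rw [hjac, dt_sub_l, hskew x]
    ring
  have F1 : ∀ w t s, S w → S t → S s → dt (P (P x w) t) s = 0 := by
    intro w t s hw ht hs
    have e0 := inv w t s
    have e1 := inv (P x w) (P x t) s
    have e2 := inv (P x w) t (P x s)
    have e3 := inv w (P x t) (P x s)
    rw [hsq w hw, hsq t ht, map_smul, LinearMap.smul_apply, map_smul, dt_smul_l, dt_smul_l] at e1
    rw [hsq w hw, hsq s hs, map_smul, LinearMap.smul_apply, dt_smul_l, dt_smul_r] at e2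
    rw [hsq t ht, hsq s hs, map_smul, dt_smul_l, dt_smul_r] at e3
    have f1 : a * (dt (P w (P x t)) s - dt (P w t) (P x s)) = 0 := by linarith
    have f2 : a * (dt (P (P x w) t) s - dt (P w (P x t)) s) = 0 := by linarith
    have g1 := (mul_eq_zero.mp f1).resolve_left ha
    have g2 := (mul_eq_zero.mp f2).resolve_left ha
    linarith
  have h := F1 (P x w) t s (hS w hw) ht hs
  rw [hsq w hw, map_smul, LinearMap.smul_apply, dt_smul_l] at h
  exact (mul_eq_zero.mp h).resolve_left (neg_ne_zero.mpr ha)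

end Tl3

open Tl3 in
/-- the dimension is three -/
theorem s_tl3 (h1 : S_TL1) (h2 : S_TL2) : S_TL3 := by
  intro n P hP hne
  by_contra hn
  have hn3 : 3 < n := not_le.mp hn
  have hker := h1 n P hP hne
  obtain ⟨l, hl, hex, hst⟩ := h2 n P hP hne hker
  obtain ⟨hanti, hskew, hjac, -⟩ := hP
  obtain ⟨x, hx, -, -, -⟩ := orth hn3 0 0 0
  obtain ⟨y, z, hy, hz, hxy⟩ := hex x hx
  obtain ⟨hyz, hzx, -, -, -, hsqx⟩ := hst x y z hx hy hz hxy
  obtain ⟨-, -, -, -, -, hsqy⟩ := hst y z x hy hz hx hyz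
  obtain ⟨-, -, -, -, -, hsqz⟩ := hst z x y hz hx hy hzx
  obtain ⟨w, hw, hwx, hwy, hwz⟩ := orth hn3 x y z
  obtain ⟨t, s, ht, hs, hwt⟩ := hex w hw
  obtain ⟨hts, hsw, -, -, -, -⟩ := hst w t s hw ht hs hwt
  have kx := sq_k hanti hskew hjac hker hx hw (hsqx w hwx hwy hwz)
  have ky := sq_k hanti hskew hjac hker hy hw (hsqy w hwy hwz hwx)
  have kz := sq_k hanti hskew hjac hker hz hw (hsqz w hwz hwx hwy)
  have hws : P w s = - (l • t) := by rw [hanti, hsw]
  have st : P w (P w t) = - (l ^ 2) • t := by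
    rw [hwt, map_smul, hws, smul_neg, smul_smul, neg_smul]
    ring_nf
  have ss : P w (P w s) = - (l ^ 2) • s := by
    rw [hws, map_neg, map_smul, hwt, smul_smul, neg_smul]
    ring_nf
  have orthk : ∀ k u : Fin n → ℝ, P w (P w k) = - (l ^ 2 / 4) • k → P w (P w u) = - (l ^ 2) • u →
      dt u k = 0 := by
    intro k u hk hu
    have e1 : dt (P w (P w u)) k = dt u (P w (P w k)) := by
      rw [hskew, hskew, neg_neg]
    rw [hk, hu, dt_smul_l, dt_smul_r] at e1
    have e2 : l ^ 2 * dt u k = 0 := by linarith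
    exact (mul_eq_zero.mp e2).resolve_left (by positivity)
  have key := tau0 (P := P) hskew hjac (a := l ^ 2 / 4) (by positivity) (x := x)
    (S := fun v => dt v x = 0 ∧ dt v y = 0 ∧ dt v z = 0)
    (fun v hv => stable hanti hskew hxy hzx hv.2.1 hv.2.2)
    (fun v hv => hsqx v hv.1 hv.2.1 hv.2.2) ⟨hwx, hwy, hwz⟩
    ⟨orthk x t kx st, orthk y t ky st, orthk z t kz st⟩
    ⟨orthk x s kx ss, orthk y s ky ss, orthk z s kz ss⟩
  rw [hwt, dt_smul_l, hs, mul_one] at key
  exact hl.ne' key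

end Pool.Agent.H781.KP
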