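import Pool.Agent.H781.KP.C

/-!
Project KP, all Betti numbers (MP_4e0d62_gt): all elements are invariant under the unitary algebra
(`S_UFX` from `S_JST`, `S_HSC`, `S_R0`, `S_HKA`; by helper864 for helper781). By the transitivity of
the stabiliser the holomorphic sectional curvature is constant, hence the curvature tensor is a
nonzero multiple of the tensor of constant holomorphic sectional curvature, whose curvature operator
has the unitary algebra as its image.
-/

set_option autoImplicit false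
set_option synthInstance.maxHeartbeats 400000
set_option maxHeartbeats 4000000
set_option linter.unusedSectionVars false

open MeasureTheory Filter
open scoped Topology ContDiff

noncomputable section

namespace Pool.Agent.H781.KP

open Pool.Agent.H781.NG Pool.Agent.H781.CM Pool.Agent.H781.H6

namespace Ufx

variable {n : ℕ}

/-! ### Multilinearity -/

theorem lin1 (R : T4 n) (y z w : Fin n → ℝ) :
    ∃ T : Fin n → ℝ, ∀ x, R4 R x y z w = ∑ a, x a * T a := by
  refine ⟨fun a => ∑ b, ∑ c, ∑ d, R a b c d * y b * z c * w d, fun x => ?_⟩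
  unfold R4
  refine Finset.sum_congr rfl fun a _ => ?_
  simp only [Finset.mul_sum]
  refine Finset.sum_congr rfl fun b _ => Finset.sum_congr rfl fun c _ =>
    Finset.sum_congr rfl fun d _ => ?_
  ring

theorem lin2 (R : T4 n) (x z w : Fin n → ℝ) :
    ∃ T : Fin n → ℝ, ∀ y, R4 R x y z w = ∑ b, y b * T b := by
  refine ⟨fun b => ∑ a, ∑ c, ∑ d, R a b c d * x a * z c * w d, fun y => ?_⟩
  unfold R4
  rw [Finset.sum_comm]
  refine Finset.sum_congr rfl fun b _ => ?_
  simp only [Finset.mul_sum]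
  refine Finset.sum_congr rfl fun a _ => Finset.sum_congr rfl fun c _ =>
    Finset.sum_congr rfl fun d _ => ?_
  ring

theorem lin3 (R : T4 n) (x y w : Fin n → ℝ) :
    ∃ T : Fin n → ℝ, ∀ z, R4 R x y z w = ∑ c, z c * T c := by
  refine ⟨fun c => ∑ a, ∑ b, ∑ d, R a b c d * x a * y b * w d, fun z => ?_⟩
  unfold R4
  have e1 : ∀ a, ∑ b, ∑ c, ∑ d, R a b c d * x a * y b * z c * w d =
      ∑ c, ∑ b, ∑ d, R a b c d * x a * y b * z c * w d := fun a => Finset.sum_comm
  simp only [e1]
  rw [Finset.sum_comm]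
  refine Finset.sum_congr rfl fun c _ => ?_
  simp only [Finset.mul_sum]
  refine Finset.sum_congr rfl fun a _ => Finset.sum_congr rfl fun b _ =>
    Finset.sum_congr rfl fun d _ => ?_
  ring

theorem lin4 (R : T4 n) (x y z : Fin n → ℝ) :
    ∃ T : Fin n → ℝ, ∀ w, R4 R x y z w = ∑ d, w d * T d := by
  refine ⟨fun d => ∑ a, ∑ b, ∑ c, R a b c d * x a * y b * z c, fun w => ?_⟩
  unfold R4
  have e0 : ∀ a b, ∑ c, ∑ d, R a b c d * x a * y b * z c * w d =
      ∑ d, ∑ c, R a b c d * x a * y b * z c * w d := fun a b => Finset.sum_comm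
  simp only [e0]
  have e1 : ∀ a, ∑ b, ∑ d, ∑ c, R a b c d * x a * y b * z c * w d =
      ∑ d, ∑ b, ∑ c, R a b c d * x a * y b * z c * w d := fun a => Finset.sum_comm
  simp only [e1]
  rw [Finset.sum_comm]
  refine Finset.sum_congr rfl fun d _ => ?_
  simp only [Finset.mul_sum]
  refine Finset.sum_congr rfl fun a _ => Finset.sum_congr rfl fun b _ =>
    Finset.sum_congr rfl fun c _ => ?_
  ring

theorem lin_ac {F : (Fin n → ℝ) → ℝ} (hF : ∃ T : Fin n → ℝ, ∀ x, F x = ∑ a, x a * T a)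
    (h : Fin n → Fin n → ℝ) (x : Fin n → ℝ) : F (ac h x) = ∑ i, x i * F (h i) := by
  obtain ⟨T, hT⟩ := hF
  rw [hT]
  simp only [hT]
  unfold ac
  simp only [Finset.sum_mul, Finset.mul_sum]
  rw [Finset.sum_comm]
  refine Finset.sum_congr rfl fun i _ => Finset.sum_congr rfl fun a _ => ?_
  ring

theorem R4_ac (R : T4 n) (h : Fin n → Fin n → ℝ) (x y z w : Fin n → ℝ) :
    R4 R (ac h x) (ac h y) (ac h z) (ac h w) = R4 (Rh R h) x y z w := by
  have e0 : R4 (Rh R h) x y z w =
      ∑ i, ∑ j, ∑ k, ∑ l, R4 R (h i) (h j) (h k) (h l) * x i * y j * z k * w l := rfl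
  rw [e0, lin_ac (F := fun u => R4 R u (ac h y) (ac h z) (ac h w)) (lin1 R _ _ _) h x]
  refine Finset.sum_congr rfl fun i _ => ?_
  rw [lin_ac (F := fun u => R4 R (h i) u (ac h z) (ac h w)) (lin2 R _ _ _) h y, Finset.mul_sum]
  refine Finset.sum_congr rfl fun j _ => ?_
  rw [lin_ac (F := fun u => R4 R (h i) (h j) u (ac h w)) (lin3 R _ _ _) h z, Finset.mul_sum,
    Finset.mul_sum]
  refine Finset.sum_congr rfl fun k _ => ?_
  rw [lin_ac (F := fun u => R4 R (h i) (h j) (h k) u) (lin4 R _ _ _) h w, Finset.mul_sum,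
    Finset.mul_sum, Finset.mul_sum]
  refine Finset.sum_congr rfl fun l _ => ?_
  ring

theorem R4_smul (R : T4 n) (t : ℝ) (x y z w : Fin n → ℝ) :
    R4 R (t • x) (t • y) (t • z) (t • w) = t ^ 4 * R4 R x y z w := by
  unfold R4
  simp only [Finset.mul_sum, Pi.smul_apply, smul_eq_mul]
  refine Finset.sum_congr rfl fun a _ => Finset.sum_congr rfl fun b _ =>
    Finset.sum_congr rfl fun c _ => Finset.sum_congr rfl fun d _ => ?_
  ring

theorem ac_smul (J : Fin n → Fin n → ℝ) (t : ℝ) (v : Fin n → ℝ) : ac J (t • v) = t • ac J v := by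
  funext a
  unfold ac
  simp only [Pi.smul_apply, smul_eq_mul, Finset.mul_sum]
  refine Finset.sum_congr rfl fun i _ => ?_
  ring

theorem dt_smul (s t : ℝ) (v w : Fin n → ℝ) : dt (s • v) (t • w) = s * t * dt v w := by
  unfold dt
  simp only [Pi.smul_apply, smul_eq_mul, Finset.mul_sum]
  refine Finset.sum_congr rfl fun i _ => ?_
  ring

/-! ### The holomorphic sectional curvature -/

/-- the holomorphic sectional curvature -/
def hs (R : T4 n) (J : Fin n → Fin n → ℝ) (v : Fin n → ℝ) : ℝ := R4 R v (ac J v) (ac J v) v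

theorem hs_smul (R : T4 n) (J : Fin n → Fin n → ℝ) (t : ℝ) (v : Fin n → ℝ) :
    hs R J (t • v) = t ^ 4 * hs R J v := by
  unfold hs
  rw [ac_smul, R4_smul]

theorem hs_inv {R : T4 n} {J h : Fin n → Fin n → ℝ} (hR : Rh R h = R)
    (hJ : ∀ v, ac h (ac J v) = ac J (ac h v)) (v : Fin n → ℝ) : hs R J (ac h v) = hs R J v := by
  unfold hs
  rw [← hJ, R4_ac, hR]

theorem dt_self_eq_zero {v : Fin n → ℝ} (h : dt v v = 0) : v = 0 := by
  unfold dt at h
  rw [Finset.sum_eq_zero_iff_of_nonneg (fun i _ => mul_self_nonneg _)] at h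
  funext i
  exact mul_self_eq_zero.mp (h i (Finset.mem_univ i))

theorem dt_self_nonneg (v : Fin n → ℝ) : 0 ≤ dt v v :=
  Finset.sum_nonneg fun _ _ => mul_self_nonneg _

theorem hs_const (hn : 2 ≤ n) {R : T4 n} {J : Fin n → Fin n → ℝ}
    (htr : ∀ v v' : Fin n → ℝ, dt v v = 1 → dt v' v' = 1 → dt v v' ≠ -1 →
      ∃ h, ac h v = v' ∧ Rh R h = R ∧ ∀ v, ac h (ac J v) = ac J (ac h v)) :
    ∃ c : ℝ, ∀ v, hs R J v = c * dt v v ^ 2 := by
  have hu : ∀ v v' : Fin n → ℝ, dt v v = 1 → dt v' v' = 1 → hs R J v' = hs R J v := by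
    intro v v' hv hv'
    by_cases h1 : dt v v' = -1
    · have e1 : dt ((-1 : ℝ) • v') ((-1 : ℝ) • v') = 1 := by
        rw [dt_smul, hv']
        norm_num
      have e2 : dt v ((-1 : ℝ) • v') ≠ -1 := by
        have e3 : dt v ((-1 : ℝ) • v') = 1 := by
          have e4 := dt_smul (1 : ℝ) (-1 : ℝ) v v'
          rw [one_smul, h1] at e4
          rw [e4]
          norm_num
        rw [e3]
        norm_num
      obtain ⟨h, ha, hb, hc⟩ := htr v _ hv e1 e2
      have e5 := hs_inv hb hc v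
      rw [ha, hs_smul] at e5
      rw [← e5]
      norm_num
    · obtain ⟨h, ha, hb, hc⟩ := htr v v' hv hv' h1
      have e5 := hs_inv hb hc v
      rw [ha] at e5
      exact e5
  have hn0 : 0 < n := by omega
  set e : Fin n → ℝ := fun i => if i = ⟨0, hn0⟩ then 1 else 0 with he
  have he1 : dt e e = 1 := by
    unfold dt
    simp only [he]
    simp
  refine ⟨hs R J e, fun v => ?_⟩
  by_cases h0 : dt v v = 0
  · have hv := dt_self_eq_zero h0
    have e1 := hs_smul R J 0 v
    rw [zero_smul] at e1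
    rw [h0, hv, e1]
    norm_num
  · have hp : 0 < dt v v := lt_of_le_of_ne (dt_self_nonneg v) (Ne.symm h0)
    set r := √(dt v v) with hr
    have hrp : 0 < r := Real.sqrt_pos.mpr hp
    have hr2 : r ^ 2 = dt v v := Real.sq_sqrt hp.le
    have e1 : dt (r⁻¹ • v) (r⁻¹ • v) = 1 := by
      rw [dt_smul, ← hr2]
      field_simp
    have e2 := hu e (r⁻¹ • v) he1 e1
    have e3 : v = r • (r⁻¹ • v) := by
      rw [smul_smul, mul_inv_cancel₀ hrp.ne', one_smul]
    have e4 := hs_smul R J r (r⁻¹ • v)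
    rw [← e3, e2] at e4
    rw [e4, ← hr2]
    ring

/-! ### The curvature tensor -/

/-- difference of curvature tensors -/
def Rd (R S : T4 n) (c : ℝ) : T4 n := fun i j k l => R i j k l - c * S i j k l

theorem isAC_Rd {R S : T4 n} (hR : IsAC R) (hS : IsAC S) (c : ℝ) : IsAC (Rd R S c) where
  a12 i j k l := by
    unfold Rd
    rw [hR.a12 i j k l, hS.a12 i j k l]
    ring
  a34 i j k l := by
    unfold Rd
    rw [hR.a34 i j k l, hS.a34 i j k l]
    ring
  pr i j k l := by
    unfold Rd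
    rw [hR.pr i j k l, hS.pr i j k l]
  bi i j k l := by
    unfold Rd
    have e1 := hR.bi i j k l
    have e2 := hS.bi i j k l
    linear_combination e1 - c * e2

theorem Xw_Rd (R S : T4 n) (c : ℝ) (w : Fin n → Fin n → ℝ) (i j : Fin n) :
    Xw (Rd R S c) w i j = Xw R w i j - c * Xw S w i j := by
  unfold Xw Rd
  simp only [Finset.mul_sum, ← Finset.sum_sub_distrib]
  refine Finset.sum_congr rfl fun a _ => Finset.sum_congr rfl fun b _ => ?_
  ring

theorem R4_Rd (R S : T4 n) (c : ℝ) (x y z w : Fin n → ℝ) :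
    R4 (Rd R S c) x y z w = R4 R x y z w - c * R4 S x y z w := by
  unfold R4 Rd
  simp only [Finset.mul_sum, ← Finset.sum_sub_distrib]
  refine Finset.sum_congr rfl fun a _ => Finset.sum_congr rfl fun b _ =>
    Finset.sum_congr rfl fun c _ => Finset.sum_congr rfl fun d _ => ?_
  ring

theorem cmu_sub {X Y J : Fin n → Fin n → ℝ} (hX : Cmu X J) (hY : Cmu Y J) (c : ℝ)
    {Z : Fin n → Fin n → ℝ} (hZ : ∀ i j, Z i j = X i j - c * Y i j) : Cmu Z J := by
  intro i j
  have e1 : mm Z J i j = mm X J i j - c * mm Y J i j := by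
    unfold mm
    simp only [Finset.mul_sum, ← Finset.sum_sub_distrib]
    refine Finset.sum_congr rfl fun a _ => ?_
    rw [hZ]
    ring
  have e2 : mm J Z i j = mm J X i j - c * mm J Y i j := by
    unfold mm
    simp only [Finset.mul_sum, ← Finset.sum_sub_distrib]
    refine Finset.sum_congr rfl fun a _ => ?_
    rw [hZ]
    ring
  rw [e1, e2, hX i j, hY i j]

theorem eq_mul {R : T4 n} {J : Fin n → Fin n → ℝ} (h2 : S_HSC) (h3 : S_R0) (hJ : CJ J)
    (hR : IsAC R) (hC : ∀ w, Sk w → Cmu (Xw R w) J) {c : ℝ}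
    (hc : ∀ v, hs R J v = c * dt v v ^ 2) (i j k l : Fin n) :
    R i j k l = c / 4 * R0 J i j k l := by
  obtain ⟨h0, h0C, h0s, -⟩ := h3 n J hJ
  have e := h2 n (Rd R (R0 J) (c / 4)) J (isAC_Rd hR h0 _) hJ
    (fun w hw => cmu_sub (hC w hw) (h0C w hw) (c / 4) (fun i j => Xw_Rd R (R0 J) (c / 4) w i j))
    (fun v => by
      rw [R4_Rd, h0s v]
      have e1 := hc v
      unfold hs at e1
      rw [e1]
      ring) i j k l
  unfold Rd at e
  linarith

theorem ip_self {u : Fk n ℝ} (h : ip u u ≤ 0) : u = 0 := by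
  have h0 : ip u u = 0 := le_antisymm h (Finset.sum_nonneg fun S _ => mul_self_nonneg _)
  unfold ip at h0
  rw [Finset.sum_eq_zero_iff_of_nonneg (fun S _ => mul_self_nonneg _)] at h0
  funext S
  exact mul_self_eq_zero.mp (h0 S (Finset.mem_univ S))

end Ufx

open Ufx in
/-- all elements are invariant under the unitary algebra -/
theorem s_ufx (h1 : S_JST) (h2 : S_HSC) (h3 : S_R0) (h4 : S_HKA) : S_UFX := by
  intro n ι _ _ p a R hn hL hinv x hx
  obtain ⟨J, l, hJ, hl, hax, hJs, hJC⟩ := h1 n ι p a R hn hL x hx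
  refine ⟨J, l, hJ, hl, hax, ?_⟩
  obtain ⟨-, -, -, hR, hCO, hscl, hrc, htr⟩ := hL
  obtain ⟨c, hc⟩ := hs_const (R := R) (J := J) hn (fun v v' hv hv' hne => by
    obtain ⟨h, hh, hhv⟩ := htr v v' hv hv' hne
    exact ⟨h, hhv, hinv h hh, hJs h hh⟩)
  have hRe := eq_mul h2 h3 hJ hR hJC hc
  have hc0 : c ≠ 0 := by
    intro h0
    have e1 : scl R = 0 := by
      unfold scl
      simp only [hRe, h0]
      simp
    rw [e1] at hscl
    exact zero_ne_one hscl
  intro X hX hXJ y
  obtain ⟨w, hw, hwX⟩ := (h3 n J hJ).2.2.2 X hX hXJ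
  set w' : Fin n → Fin n → ℝ := fun i j => 4 / c * w i j with hw'
  have hSk : Sk w' := by
    intro i j
    simp only [hw']
    rw [hw i j]
    ring
  have hXw : Xw R w' = X := by
    rw [← hwX]
    funext i j
    unfold Xw
    refine Finset.sum_congr rfl fun a _ => Finset.sum_congr rfl fun b _ => ?_
    rw [hRe]
    simp only [hw']
    field_simp
  obtain ⟨-, -, hip⟩ := h4 n R hR hCO w' hSk
  have e := hip (a y)
  rw [hXw, hrc y, mul_zero] at e
  exact ip_self e

end Pool.Agent.H781.KP
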