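import Pool.Agent.H781.KP.C

/-!
Project KC: invariants of the unitary algebra in the exterior algebra (KC-08, by helper976 for
helper781). Some lemmas are copied from `KP/Pfn.lean` and `KP/Com.lean`.
-/

set_option autoImplicit false
set_option synthInstance.maxHeartbeats 400000
set_option maxHeartbeats 4000000
set_option linter.unusedSectionVars false

noncomputable section

namespace Pool.Agent.H781.KP

open Pool.Agent.H781.NG Pool.Agent.H781.CM Pool.Agent.H781.H6
open Pool.Agent.H781.CM.Lin4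

namespace Uinv

variable {n : ℕ}

/-! ### the operator `wX` (copied) -/

/-- exterior multiplication by the 2-form as an endomorphism -/
def wL (X : Fin n → Fin n → ℝ) : Module.End ℝ (Fk n ℝ) :=
  ∑ i, ∑ j, X i j • ((cr i : Module.End ℝ (Fk n ℝ)) * (cr j : Module.End ℝ (Fk n ℝ)))

theorem wL_apply (X : Fin n → Fin n → ℝ) (u : Fk n ℝ) : wL X u = wX X u := by
  unfold wL wX
  rw [LinearMap.sum_apply]
  refine Finset.sum_congr rfl fun i _ => ?_
  rw [LinearMap.sum_apply]
  rfl

theorem cr2 (i j a : Fin n) (u : Fk n ℝ) : cr i (cr j (cr a u)) = cr a (cr i (cr j u)) := by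
  rw [cr_cr j a u, map_neg, cr_cr i a (cr j u), neg_neg]

theorem comm_cr (X : Fin n → Fin n → ℝ) (a : Fin n) (u : Fk n ℝ) :
    wX X (cr a u) = cr a (wX X u) := by
  unfold wX
  rw [map_sum]
  refine Finset.sum_congr rfl fun i _ => ?_
  rw [map_sum]
  refine Finset.sum_congr rfl fun j _ => ?_
  rw [map_smul, cr2]

theorem comm_Cv (X : Fin n → Fin n → ℝ) (x : Fin n → ℝ) (u : Fk n ℝ) :
    wX X (Cv x u) = Cv x (wX X u) := by
  rw [Cv_apply, Cv_apply, ← wL_apply, map_sum]
  refine Finset.sum_congr rfl fun a _ => ?_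
  rw [map_smul, wL_apply, comm_cr]

theorem an2 (a i j : Fin n) (u : Fk n ℝ) : an a (cr i (cr j u)) =
    (if a = i then cr j u else 0) - (if a = j then cr i u else 0) + cr i (cr j (an a u)) := by
  rw [an_cr a i, an_cr a j, map_sub]
  have : cr i (if a = j then u else 0) = if a = j then cr i u else 0 := by
    split_ifs
    · rfl
    · exact map_zero _
  rw [this]
  abel

theorem an_W {X : Fin n → Fin n → ℝ} (hX : Sk X) (a : Fin n) (u : Fk n ℝ) :
    an a (wX X u) = wX X (an a u) + (2 : ℝ) • ∑ j, X a j • cr j u := by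
  have h1 : an a (wX X u) = ∑ i, ∑ j, X i j • ((if a = i then cr j u else 0) -
      (if a = j then cr i u else 0) + cr i (cr j (an a u))) := by
    unfold wX
    rw [map_sum]
    refine Finset.sum_congr rfl fun i _ => ?_
    rw [map_sum]
    refine Finset.sum_congr rfl fun j _ => ?_
    rw [map_smul, an2]
  have h2 : ∑ i, ∑ j, X i j • (if a = i then cr j u else 0) = ∑ j, X a j • cr j u := by
    rw [Finset.sum_eq_single a]
    · refine Finset.sum_congr rfl fun j _ => ?_
      rw [if_pos rfl]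
    · intro i _ hi
      refine Finset.sum_eq_zero fun j _ => ?_
      rw [if_neg (Ne.symm hi), smul_zero]
    · intro h
      exact absurd (Finset.mem_univ a) h
  have h3 : ∑ i, ∑ j, X i j • (if a = j then cr i u else 0) = - ∑ j, X a j • cr j u := by
    rw [← Finset.sum_neg_distrib]
    refine Finset.sum_congr rfl fun i _ => ?_
    rw [Finset.sum_eq_single a]
    · rw [if_pos rfl, hX i a, neg_smul]
    · intro j _ hj
      rw [if_neg (Ne.symm hj), smul_zero]
    · intro h
      exact absurd (Finset.mem_univ a) h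
  rw [h1]
  simp only [smul_add, smul_sub, Finset.sum_add_distrib, Finset.sum_sub_distrib]
  rw [h2, h3, two_smul]
  unfold wX
  abel

theorem an_it {X : Fin n → Fin n → ℝ} (hX : Sk X) (a : Fin n) (k : ℕ) :
    an a ((wX X)^[k + 1] vac) = (2 * ((k : ℝ) + 1)) • Cv (X a) ((wX X)^[k] vac) := by
  induction k with
  | zero =>
    rw [zero_add, Function.iterate_one, Function.iterate_zero, id_eq, an_W hX, an_vac,
      ← wL_apply, map_zero, Cv_apply]
    norm_num
  | succ k ih =>
    rw [Function.iterate_succ_apply' (wX X) (k + 1) vac, an_W hX, ih]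
    have h1 : ∀ (y : Fk n ℝ) (c : ℝ), wX X (c • y) = c • wX X y := by
      intro y c
      rw [← wL_apply, ← wL_apply, map_smul]
    rw [h1, comm_Cv, ← Function.iterate_succ_apply' (wX X) k vac, ← Cv_apply, ← add_smul]
    push_cast
    congr 1
    ring

theorem deg_W (X : Fin n → Fin n → ℝ) {p : ℕ} {u : Fk n ℝ} (h : Deg p u) :
    Deg (p + 2) (wX X u) := by
  unfold wX
  exact deg_sum _ _ fun i _ => deg_sum _ _ fun j _ => deg_smul _ (deg_cr i (deg_cr j h))

theorem deg_it (X : Fin n → Fin n → ℝ) (k : ℕ) : Deg (2 * k) ((wX X)^[k] (vac : Fk n ℝ)) := by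
  induction k with
  | zero => exact deg_vac
  | succ k ih =>
    rw [Function.iterate_succ_apply']
    exact deg_W X ih

/-! ### the derivation `dX` -/

/-- `dX X` as an endomorphism -/
def dL (X : Fin n → Fin n → ℝ) : Module.End ℝ (Fk n ℝ) :=
  ∑ i, ∑ a, X i a • ((cr a : Module.End ℝ (Fk n ℝ)) * (an i : Module.End ℝ (Fk n ℝ)))

theorem dL_apply (X : Fin n → Fin n → ℝ) (u : Fk n ℝ) : dL X u = dX X u := by
  unfold dL dX
  rw [LinearMap.sum_apply]
  refine Finset.sum_congr rfl fun i _ => ?_
  rw [LinearMap.sum_apply]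
  rfl

theorem cr_an (k a : Fin n) (w : Fk n ℝ) :
    cr a (an k w) = (if k = a then w else 0) - an k (cr a w) := by
  rw [← car k a w]
  abel

theorem dX_an {X : Fin n → Fin n → ℝ} (hX : Sk X) (k : Fin n) (u : Fk n ℝ) :
    dX X (an k u) = an k (dX X u) + Av (X k) u := by
  have h1 : ∀ i a, X i a • cr a (an i (an k u)) =
      X i a • an k (cr a (an i u)) + if k = a then X k i • an i u else 0 := by
    intro i a
    rw [an_an i k u, map_neg, cr_an k a (an i u)]
    by_cases h : k = a
    · rw [if_pos h, if_pos h, ← h, hX k i]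
      module
    · rw [if_neg h, if_neg h]
      module
  have h2 : dX X (an k u) = ∑ i, ∑ a, (X i a • an k (cr a (an i u)) +
      if k = a then X k i • an i u else 0) :=
    Finset.sum_congr rfl fun i _ => Finset.sum_congr rfl fun a _ => h1 i a
  have h3 : an k (dX X u) = ∑ i, ∑ a, X i a • an k (cr a (an i u)) := by
    unfold dX
    rw [map_sum]
    refine Finset.sum_congr rfl fun i _ => ?_
    rw [map_sum]
    exact Finset.sum_congr rfl fun a _ => by rw [map_smul]
  rw [h2, h3, Av_apply]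
  simp only [Finset.sum_add_distrib]
  congr 1
  refine Finset.sum_congr rfl fun i _ => ?_
  rw [Finset.sum_ite_eq, if_pos (Finset.mem_univ k)]

theorem Av_lin (s : Fin n → ℝ) (M : Fin n → Fin n → ℝ) (u : Fk n ℝ) :
    ∑ c, s c • Av (M c) u = Av (fun b => ∑ c, s c * M c b) u := by
  rw [Av_apply]
  have h : ∀ c, s c • Av (M c) u = ∑ b, (s c * M c b) • an b u := by
    intro c
    rw [Av_apply, Finset.smul_sum]
    exact Finset.sum_congr rfl fun b _ => smul_smul _ _ _
  rw [Finset.sum_congr rfl fun c _ => h c, Finset.sum_comm]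
  exact Finset.sum_congr rfl fun b _ => (Finset.sum_smul).symm

theorem dX_Av {X : Fin n → Fin n → ℝ} (hX : Sk X) (z : Fin n → ℝ) {u : Fk n ℝ}
    (hu : dX X u = 0) : dX X (Av z u) = Av (fun b => ∑ c, z c * X c b) u := by
  rw [← dL_apply, Av_apply, map_sum, ← Av_lin]
  refine Finset.sum_congr rfl fun c _ => ?_
  rw [map_smul, dL_apply, dX_an hX, hu, map_zero, zero_add]

/-- rank one matrices -/
theorem dX_rk (s t : Fin n → ℝ) (u : Fk n ℝ) : dX (fun a b => s a * t b) u = Cv t (Av s u) := by
  unfold dX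
  rw [Av_apply, map_sum]
  refine Finset.sum_congr rfl fun i _ => ?_
  rw [map_smul, Cv_apply, Finset.smul_sum]
  exact Finset.sum_congr rfl fun a _ => by rw [smul_smul]

/-- the elements of the unitary algebra -/
def XX (s t s' t' : Fin n → ℝ) : Fin n → Fin n → ℝ :=
  fun a b => s a * t b - t a * s b + s' a * t' b - t' a * s' b

theorem dX_XX (s t s' t' : Fin n → ℝ) (u : Fk n ℝ) : dX (XX s t s' t') u =
    Cv t (Av s u) - Cv s (Av t u) + Cv t' (Av s' u) - Cv s' (Av t' u) := by
  rw [← dX_rk s t, ← dX_rk t s, ← dX_rk s' t', ← dX_rk t' s']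
  unfold dX XX
  simp only [← Finset.sum_sub_distrib, ← Finset.sum_add_distrib]
  refine Finset.sum_congr rfl fun i _ => Finset.sum_congr rfl fun a _ => ?_
  module

theorem Sk_XX (s t s' t' : Fin n → ℝ) : Sk (XX s t s' t') := by
  intro a b
  unfold XX
  ring

theorem Cmu_XX {J : Fin n → Fin n → ℝ} (hJ : Sk J) {s t s' t' : Fin n → ℝ}
    (h1 : ∀ b, ∑ c, s c * J c b = s' b) (h2 : ∀ b, ∑ c, t c * J c b = t' b)
    (h3 : ∀ b, ∑ c, s' c * J c b = - s b) (h4 : ∀ b, ∑ c, t' c * J c b = - t b) :
    Cmu (XX s t s' t') J := by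
  intro a b
  have e1 : mm (XX s t s' t') J a b = s a * t' b - t a * s' b + s' a * (- t b) -
      t' a * (- s b) := by
    rw [← h1 b, ← h2 b, ← h3 b, ← h4 b]
    unfold mm XX
    simp only [Finset.mul_sum, ← Finset.sum_sub_distrib, ← Finset.sum_add_distrib]
    exact Finset.sum_congr rfl fun c _ => by ring
  have e2 : mm J (XX s t s' t') a b = (- s' a) * t b - (- t' a) * s b + s a * t' b -
      t a * s' b := by
    have f1 : s a = - ∑ c, s' c * J c a := by rw [h3 a, neg_neg]
    have f2 : t a = - ∑ c, t' c * J c a := by rw [h4 a, neg_neg]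
    have g : mm J (XX s t s' t') a b = (- ∑ c, s c * J c a) * t b -
        (- ∑ c, t c * J c a) * s b + (- ∑ c, s' c * J c a) * t' b -
        (- ∑ c, t' c * J c a) * s' b := by
      unfold mm XX
      simp only [← Finset.sum_neg_distrib, Finset.sum_mul, ← Finset.sum_sub_distrib,
        ← Finset.sum_add_distrib]
      exact Finset.sum_congr rfl fun c _ => by rw [hJ a c]; ring
    rw [g, h1 a, h2 a, ← f1, ← f2]
  rw [e1, e2]
  ring

/-- basis vectors -/
def ee (k : Fin n) : Fin n → ℝ := fun a => if a = k then 1 else 0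

theorem Av_ee (k : Fin n) (u : Fk n ℝ) : Av (ee k) u = an k u := by
  rw [Av_apply, Finset.sum_eq_single k]
  · unfold ee
    rw [if_pos rfl, one_smul]
  · intro a _ ha
    unfold ee
    rw [if_neg ha, zero_smul]
  · intro h
    exact absurd (Finset.mem_univ k) h

theorem Cv_ee (k : Fin n) (u : Fk n ℝ) : Cv (ee k) u = cr k u := by
  rw [Cv_apply, Finset.sum_eq_single k]
  · unfold ee
    rw [if_pos rfl, one_smul]
  · intro a _ ha
    unfold ee
    rw [if_neg ha, zero_smul]
  · intro h
    exact absurd (Finset.mem_univ k) h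

theorem ee_J (J : Fin n → Fin n → ℝ) (k b : Fin n) : ∑ c, ee k c * J c b = J k b := by
  rw [Finset.sum_eq_single k]
  · unfold ee
    rw [if_pos rfl, one_mul]
  · intro a _ ha
    unfold ee
    rw [if_neg ha, zero_mul]
  · intro h
    exact absurd (Finset.mem_univ k) h

theorem J_J {J : Fin n → Fin n → ℝ} (hJ : CJ J) (k b : Fin n) :
    ∑ c, J k c * J c b = - ee k b := by
  have h := hJ.2 k b
  unfold mm at h
  rw [h]
  unfold ee
  by_cases hkb : k = b
  · rw [if_pos hkb, if_pos hkb.symm]
  · rw [if_neg hkb, if_neg (Ne.symm hkb), neg_zero]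

theorem Av_neg (s : Fin n → ℝ) (u : Fk n ℝ) : Av (fun b => - s b) u = - Av s u := by
  rw [Av_apply, Av_apply, ← Finset.sum_neg_distrib]
  exact Finset.sum_congr rfl fun a _ => by rw [neg_smul]

theorem inv_id {J : Fin n → Fin n → ℝ} (hJ : CJ J) {u : Fk n ℝ}
    (hu : ∀ X, Sk X → Cmu X J → dX X u = 0) (k i : Fin n) :
    cr i (an k u) - cr k (an i u) + Cv (J i) (Av (J k) u) - Cv (J k) (Av (J i) u) = 0 := by
  have h := hu (XX (ee k) (ee i) (J k) (J i)) (Sk_XX _ _ _ _)
    (Cmu_XX hJ.1 (ee_J J k) (ee_J J i) (J_J hJ k) (J_J hJ i))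
  rw [dX_XX, Av_ee, Av_ee, Cv_ee, Cv_ee] at h
  exact h

theorem number' {p : ℕ} {u : Fk n ℝ} (hd : Deg p u) : ∑ i, cr i (an i u) = (p : ℝ) • u := by
  funext S
  rw [number, Pi.smul_apply, smul_eq_mul]
  by_cases hS : S.card = p
  · rw [hS]
  · rw [hd S hS, mul_zero, mul_zero]

theorem T1 {p : ℕ} {w : Fk n ℝ} (hd : Deg p w) :
    ∑ i, an i (cr i w) = ((n : ℝ) - p) • w := by
  have h : ∀ i, an i (cr i w) = w - cr i (an i w) := by
    intro i
    rw [an_cr, if_pos rfl]
  rw [Finset.sum_congr rfl fun i _ => h i, Finset.sum_sub_distrib, number' hd,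
    Finset.sum_const, Finset.card_univ, Fintype.card_fin, sub_smul,
    Nat.cast_smul_eq_nsmul ℝ n w]

theorem T2 (k : Fin n) (u : Fk n ℝ) : ∑ i, an i (cr k (an i u)) = an k u := by
  have h : ∀ i, an i (cr k (an i u)) = if i = k then an i u else 0 := by
    intro i
    rw [an_cr, an_an_self, map_zero, sub_zero]
  rw [Finset.sum_congr rfl fun i _ => h i, Finset.sum_ite_eq', if_pos (Finset.mem_univ k)]

theorem T3 {J : Fin n → Fin n → ℝ} (hJ : Sk J) (w : Fk n ℝ) :
    ∑ i, an i (Cv (J i) w) = - dX J w := by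
  unfold dX
  rw [← Finset.sum_neg_distrib]
  refine Finset.sum_congr rfl fun i _ => ?_
  rw [Cv_apply, map_sum, ← Finset.sum_neg_distrib]
  refine Finset.sum_congr rfl fun a _ => ?_
  rw [map_smul, an_cr]
  by_cases h : i = a
  · have h0 : J i a = 0 := by
      have := hJ i a
      rw [h] at this ⊢
      linarith
    rw [h0, zero_smul, zero_smul, neg_zero]
  · rw [if_neg h, zero_sub, smul_neg]

/-- the adjoint of exterior multiplication by the Kaehler form (up to a factor) -/
def LL (J : Fin n → Fin n → ℝ) (u : Fk n ℝ) : Fk n ℝ := ∑ i, an i (Av (J i) u)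

theorem T4 (J : Fin n → Fin n → ℝ) (k : Fin n) (u : Fk n ℝ) :
    ∑ i, an i (Cv (J k) (Av (J i) u)) = ∑ i, J k i • Av (J i) u - Cv (J k) (LL J u) := by
  unfold LL
  rw [map_sum, ← Finset.sum_sub_distrib]
  refine Finset.sum_congr rfl fun i _ => ?_
  rw [Cv_apply, Cv_apply, map_sum]
  have h : ∀ a, an i (J k a • cr a (Av (J i) u)) =
      (if i = a then J k a • Av (J i) u else 0) - J k a • cr a (an i (Av (J i) u)) := by
    intro a
    rw [map_smul, an_cr, smul_sub]
    congr 1
    split_ifs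
    · rfl
    · rw [smul_zero]
  rw [Finset.sum_congr rfl fun a _ => h a, Finset.sum_sub_distrib, Finset.sum_ite_eq,
    if_pos (Finset.mem_univ i)]

theorem Av_JJ {J : Fin n → Fin n → ℝ} (hJ : CJ J) (k : Fin n) (u : Fk n ℝ) :
    Av (fun b => ∑ c, J k c * J c b) u = - an k u := by
  have h : (fun b => ∑ c, J k c * J c b) = fun b => - ee k b := funext fun b => J_J hJ k b
  rw [h, Av_neg, Av_ee]

theorem main_id {J : Fin n → Fin n → ℝ} (hJ : CJ J) {p : ℕ} {u : Fk n ℝ} (hd : Deg (p + 1) u)
    (hu : ∀ X, Sk X → Cmu X J → dX X u = 0) (k : Fin n) :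
    ((n : ℝ) - p + 1) • an k u = - Cv (J k) (LL J u) := by
  have h : ∑ i, an i (cr i (an k u) - cr k (an i u) + Cv (J i) (Av (J k) u) -
      Cv (J k) (Av (J i) u)) = 0 :=
    Finset.sum_eq_zero fun i _ => by rw [inv_id hJ hu, map_zero]
  simp only [map_sub, map_add, Finset.sum_sub_distrib, Finset.sum_add_distrib] at h
  have hJu : dX J u = 0 := hu J hJ.1 fun _ _ => rfl
  rw [T1 (deg_an k hd), T2, T3 hJ.1, dX_Av hJ.1 _ hJu, T4, Av_lin, Av_JJ hJ, neg_neg] at h
  have e : ((n : ℝ) - p + 1) • an k u = ((n : ℝ) - p) • an k u + an k u := by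
    rw [add_smul, one_smul]
  rw [e]
  have h' : ((n : ℝ) - p) • an k u + an k u + Cv (J k) (LL J u) = 0 := by
    rw [← h]
    abel
  exact eq_neg_of_add_eq_zero_left h'

theorem dX_LL {J X : Fin n → Fin n → ℝ} (hX : Sk X) (hc : Cmu X J) {u : Fk n ℝ}
    (hu : dX X u = 0) : dX X (LL J u) = 0 := by
  have h1 : dX X (LL J u) = ∑ i, an i (Av (fun b => ∑ c, J i c * X c b) u) +
      ∑ i, Av (X i) (Av (J i) u) := by
    unfold LL
    rw [← dL_apply, map_sum, ← Finset.sum_add_distrib]
    refine Finset.sum_congr rfl fun i _ => ?_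
    rw [dL_apply, dX_an hX, dX_Av hX _ hu]
  have h2 : ∑ i, Av (X i) (Av (J i) u) =
      - ∑ i, an i (Av (fun b => ∑ c, J i c * X c b) u) := by
    have h3 : ∑ i, Av (X i) (Av (J i) u) = ∑ a, ∑ i, X i a • an a (Av (J i) u) := by
      rw [Finset.sum_comm]
      exact Finset.sum_congr rfl fun i _ => Av_apply _ _
    rw [h3, ← Finset.sum_neg_distrib]
    refine Finset.sum_congr rfl fun a _ => ?_
    have h4 : ∀ b, ∑ c, J a c * X c b = ∑ c, X a c * J c b := fun b => (hc a b).symm
    have h5 : (fun b => ∑ c, J a c * X c b) = fun b => ∑ c, X a c * J c b := funext h4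
    rw [h5, ← Av_lin, map_sum, ← Finset.sum_neg_distrib]
    refine Finset.sum_congr rfl fun i _ => ?_
    rw [map_smul, hX i a, neg_smul]
  rw [h1, h2, add_neg_cancel]

theorem zero_of_an {p : ℕ} {u : Fk n ℝ} (hd : Deg (p + 1) u) (h : ∀ i, an i u = 0) : u = 0 := by
  have h1 := number' hd
  rw [Finset.sum_eq_zero fun i _ => by rw [h i, map_zero]] at h1
  have h2 : ((p + 1 : ℕ) : ℝ) ≠ 0 := by positivity
  rcases smul_eq_zero.1 h1.symm with h3 | h3
  · exact absurd h3 h2
  · exact h3

theorem zero_of_gt {p : ℕ} (hp : n < p) {u : Fk n ℝ} (hd : Deg p u) : u = 0 := by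
  funext S
  refine hd S fun h => ?_
  have h1 : S.card ≤ n := by
    have := Finset.card_le_univ S
    rwa [Fintype.card_fin] at this
  omega

theorem deg_LL {J : Fin n → Fin n → ℝ} {p : ℕ} {u : Fk n ℝ} (hd : Deg (p + 2) u) :
    Deg p (LL J u) :=
  deg_sum _ _ fun i _ => deg_an i (deg_Av _ hd)

theorem all {J : Fin n → Fin n → ℝ} (hJ : CJ J) : ∀ (p : ℕ) (u : Fk n ℝ), Deg p u →
    (∀ X, Sk X → Cmu X J → dX X u = 0) →
    (Odd p → u = 0) ∧ ∀ k, p = 2 * k → ∃ c : ℝ, u = c • (wX J)^[k] vac := by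
  intro p
  induction p using Nat.strong_induction_on with
  | _ p ih =>
    intro u hd hu
    by_cases hpn : n < p
    · have h0 := zero_of_gt hpn hd
      exact ⟨fun _ => h0, fun k _ => ⟨0, by rw [h0, zero_smul]⟩⟩
    push Not at hpn
    match p, ih, hd, hpn with
    | 0, _, hd, _ =>
      refine ⟨fun h => absurd h (by decide), fun k hk => ?_⟩
      have hk0 : k = 0 := by omega
      subst hk0
      exact ⟨u ∅, deg_zero_eq hd⟩
    | 1, _, hd, _ =>
      refine ⟨fun _ => ?_, fun k hk => by omega⟩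
      have hL : LL J u = 0 := by
        unfold LL
        refine Finset.sum_eq_zero fun i _ => ?_
        have h1 : Deg 0 (Av (J i) u) := deg_Av _ hd
        rw [deg_zero_eq h1, map_smul, an_vac, smul_zero]
      refine zero_of_an hd fun i => ?_
      have h2 := main_id hJ hd hu i
      rw [hL, map_zero, neg_zero] at h2
      have hi : 0 < n := i.pos
      have h3 : ((n : ℝ) - (0 : ℕ) + 1) ≠ 0 := by
        have h5 : (0 : ℝ) ≤ n := Nat.cast_nonneg n
        rw [Nat.cast_zero, sub_zero]
        linarith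
      rcases smul_eq_zero.1 h2 with h4 | h4
      · exact absurd h4 h3
      · exact h4
    | (p + 2), ih, hd, hpn =>
      have hLd : Deg p (LL J u) := deg_LL hd
      have hLi : ∀ X, Sk X → Cmu X J → dX X (LL J u) = 0 := fun X hX hc =>
        dX_LL hX hc (hu X hX hc)
      obtain ⟨i1, i2⟩ := ih p (by omega) (LL J u) hLd hLi
      have hm := main_id hJ (p := p + 1) hd hu
      have hpos : (0 : ℝ) < (n : ℝ) - ((p + 1 : ℕ) : ℝ) + 1 := by
        have : ((p + 2 : ℕ) : ℝ) ≤ n := by exact_mod_cast hpn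
        push_cast at this ⊢
        linarith
      constructor
      · intro hodd
        have hodd' : Odd p := by
          rw [Nat.odd_iff] at hodd ⊢
          omega
        refine zero_of_an (p := p + 1) hd fun i => ?_
        have h2 := hm i
        rw [i1 hodd', map_zero, neg_zero] at h2
        rcases smul_eq_zero.1 h2 with h4 | h4
        · exact absurd h4 hpos.ne'
        · exact h4
      · intro k hk
        obtain ⟨l, rfl⟩ : ∃ l, k = l + 1 := ⟨k - 1, by omega⟩
        obtain ⟨c, hc⟩ := i2 l (by omega)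
        set q : ℝ := (n : ℝ) - ((p + 1 : ℕ) : ℝ) + 1 with hq
        have hl : (0 : ℝ) < 2 * ((l : ℝ) + 1) := by positivity
        refine ⟨- c / (q * (2 * ((l : ℝ) + 1))), ?_⟩
        have hdw : Deg (p + 2) (u - (- c / (q * (2 * ((l : ℝ) + 1)))) •
            (wX J)^[l + 1] vac) := by
          rw [hk]
          rw [hk] at hd
          intro S hS
          rw [Pi.sub_apply, hd S hS, Pi.smul_apply, deg_it J (l + 1) S hS, smul_zero, sub_zero]
        refine sub_eq_zero.1 (zero_of_an (p := p + 1) hdw fun i => ?_)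
        rw [map_sub, map_smul, an_it hJ.1, smul_smul]
        have h2 := hm i
        rw [hc, map_smul] at h2
        have h3 : an i u = (- c / q) • Cv (J i) ((wX J)^[l] vac) := by
          have h5 : an i u = q⁻¹ • (q • an i u) := by
            rw [smul_smul, inv_mul_cancel₀ hpos.ne', one_smul]
          rw [h5, h2, ← neg_smul, smul_smul]
          congr 1
          field_simp
        rw [h3, ← sub_smul]
        have h6 : - c / q - - c / (q * (2 * ((l : ℝ) + 1))) * (2 * ((l : ℝ) + 1)) = 0 := by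
          field_simp
          ring
        rw [h6, zero_smul]

end Uinv

theorem s_uinv : S_UINV := fun _ _ hJ p u hd hu => Uinv.all hJ p u hd hu

end Pool.Agent.H781.KP
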