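import Pool.Agent.H781.KP.AllB
import Pool.Agent.H781.KP.Mainc
import Pool.Agent.H781.KP.Limc
import Pool.Agent.H781.KP.Avg
import Pool.Agent.H781.KP.Dg1
import Pool.Agent.H781.KP.Jst
import Pool.Agent.H781.KP.Hsc
import Pool.Agent.H781.KP.R0
import Pool.Agent.H781.KP.Ufx
import Pool.Agent.H781.KP.Uinv
import Pool.Agent.H781.KP.Jpw
import Pool.Agent.H781.KP.Dg2
import Pool.Agent.H781.KP.T3f
import Pool.Agent.H781.KP.Ein
import Pool.Agent.H781.KP.E3
import Pool.Agent.H781.KP.Tl1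
import Pool.Agent.H781.KP.Tl2
import Pool.Agent.H781.KP.Tl3
import Pool.Agent.H781.KP.Dg3
import Pool.Agent.H781.KP.Finc
import Pool.Agent.H781.KP.Chig
import Pool.Agent.H781.KP.Chic

/-!
Assembly of the theorem on all Betti numbers.
-/

set_option autoImplicit false

namespace Pool.Agent.H781.KP

open Pool.Agent.H781.CM Pool.Agent.H781.H6

theorem inf : S_INF := s_inf s_tac tex

theorem limc : S_LIMC := s_limc trg s_hka

theorem avg : S_AVG := s_avg s_rct

theorem ufx : S_UFX := s_ufx (s_jst inf s_tfm (s_scm s_tfm) s_hka) s_hsc s_r0 s_hka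

theorem dg2 : S_DG2 := s_dg2 limc avg ufx s_uinv s_jpw s_clif

theorem dg3 : S_DG3 := s_dg3 s_t3f s_ein s_e3 (s_tl3 s_tl1 s_tl2) s_hka

theorem appk : S_APPK := s_appk spec ener gram prod s_clin ddh (s_rich rmp)

theorem kax : S_KAX := s_kax s_tau s_rct (s_tmul s_clif) rmp

theorem chic : S_CHIC :=
  s_chic (s_chig (s_finc appk dimS poink hodge spec kax (s_harm spec ddh) ddh)) limc avg s_dg1
    dg2 dg3

theorem mainc : S_MAINC := s_mainc chic gdu (s_pkx s_frm) s_gconn

end Pool.Agent.H781.KP
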