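import Pool.Agent.H781.KP.R
import Pool.Agent.H781.CM.Base

/-!
Project KP, cohomology ring (MP_4e0d62_gt, MP_51e8f1_gt): the abstract theorem on the ring.
-/

set_option autoImplicit false
set_option synthInstance.maxHeartbeats 400000
set_option maxHeartbeats 4000000
set_option linter.unusedSectionVars false

open MeasureTheory Filter
open scoped Topology ContDiff

noncomputable section

namespace Pool.Agent.H781.KP

open Pool.Agent.H781.NG Pool.Agent.H781.CM Pool.Agent.H781.H6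

namespace Chir

/-! ### Constants -/

theorem exists_le_all {ι : Type*} (T : Finset ι) (f : ι → ℝ) (hf : ∀ i, 0 < f i) :
    ∃ η : ℝ, 0 < η ∧ ∀ i ∈ T, η ≤ f i := by
  classical
  induction T using Finset.induction_on with
  | empty => exact ⟨1, one_pos, fun i hi => absurd hi (Finset.notMem_empty i)⟩
  | insert a s _ ih =>
    obtain ⟨η, h1, h2⟩ := ih
    refine ⟨min η (f a), lt_min h1 (hf a), fun i hi => ?_⟩
    rcases Finset.mem_insert.1 hi with rfl | hi
    · exact min_le_right _ _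
    · exact (min_le_left _ _).trans (h2 i hi)

theorem exists_eta (N : ℕ) (f : (Fin (N + 1) → ℕ) → ℝ) (hf : ∀ d, 0 < f d) :
    ∃ η : ℝ, 0 < η ∧ ∀ d : Fin (N + 1) → ℕ, ∑ p, d p ≤ 2 ^ N → η ≤ f d := by
  classical
  obtain ⟨η, h1, h2⟩ := exists_le_all
    (Fintype.piFinset fun _ : Fin (N + 1) => Finset.range (2 ^ N + 1)) f hf
  refine ⟨η, h1, fun d hd => h2 d ?_⟩
  rw [Fintype.mem_piFinset]
  intro p
  rw [Finset.mem_range]
  have := Finset.single_le_sum (f := d) (fun i _ => Nat.zero_le _) (Finset.mem_univ p)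
  omega

theorem cop_mono {n : ℕ} {R : T4 n} {ε ε' : ℝ} (h : ε ≤ ε') (hR : COp R ε) : COp R ε' := by
  intro w hw
  refine le_trans ?_ (hR w hw)
  have h0 : 0 ≤ ∑ a, ∑ b, w a b ^ 2 :=
    Finset.sum_nonneg fun a _ => Finset.sum_nonneg fun b _ => sq_nonneg _
  exact mul_le_mul_of_nonneg_right (neg_le_neg h) h0

theorem kac_mono {n N : ℕ} {η η' κ : ℝ} (h : η ≤ η') {d : Fin (N + 1) → ℕ}
    {c : (Σ p, Fin (d p)) → (Σ p, Fin (d p)) → (Σ p, Fin (d p)) → ℝ}
    (hka : KAc n N η κ d c) : KAc n N η' κ d c := by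
  obtain ⟨a, R, k1, k2, k3, k4, k5, k6, k7, k8, k9, k10⟩ := hka
  exact ⟨a, R, k1, k2, k3, fun x y => (k4 x y).trans h, k5, fun x y S => (k6 x y S).trans h,
    k7, cop_mono h k8, k9, fun x => (k10 x).trans h⟩

/-- equality in all degrees from equality of the Euler characteristics -/
theorem eq_of_sum {N : ℕ} (d : Fin (N + 1) → ℕ) (b : ℕ → ℕ) (hb : ∀ p : Fin (N + 1), b p ≤ d p)
    (hodd : ∀ p : Fin (N + 1), ¬ Even (p : ℕ) → d p = 0)
    (hsum : ∑ p : Fin (N + 1), (-1 : ℤ) ^ (p : ℕ) * (d p : ℤ) =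
      ∑ p ∈ Finset.range (N + 1), (-1 : ℤ) ^ p * (b p : ℤ)) (q : Fin (N + 1)) : b q = d q := by
  have h1 : ∑ p : Fin (N + 1), ((-1 : ℤ) ^ (p : ℕ) * (d p : ℤ) - (-1 : ℤ) ^ (p : ℕ) * (b p : ℤ)) =
      0 := by
    rw [Finset.sum_sub_distrib, hsum, Finset.sum_range, sub_self]
  have h2 : ∀ p : Fin (N + 1), (-1 : ℤ) ^ (p : ℕ) * (d p : ℤ) - (-1 : ℤ) ^ (p : ℕ) * (b p : ℤ) =
      (d p : ℤ) - b p := by
    intro p
    by_cases h : Even (p : ℕ)
    · rw [h.neg_one_pow, one_mul, one_mul]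
    · have h3 := hodd p h
      have h4 : b p = 0 := Nat.le_zero.1 (h3 ▸ hb p)
      rw [h3, h4]
      simp
  rw [Finset.sum_congr rfl fun p _ => h2 p] at h1
  have h5 : ∀ p ∈ (Finset.univ : Finset (Fin (N + 1))), (0 : ℤ) ≤ (d p : ℤ) - b p := by
    intro p _
    have := hb p
    omega
  have h6 := (Finset.sum_eq_zero_iff_of_nonneg h5).1 h1 q (Finset.mem_univ q)
  omega

/-! ### Bilinearity -/

section lin

variable {N : ℕ} {A : Type*} [CommRing A] [Algebra ℝ A]

theorem mulF_add_left (u u' v : Fk N A) : mulF (u + u') v = mulF u v + mulF u' v := by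
  funext R
  simp only [mulF, Pi.add_apply]
  rw [← Finset.sum_add_distrib]
  exact Finset.sum_congr rfl fun S _ => by ring

theorem mulF_add_right (u v v' : Fk N A) : mulF u (v + v') = mulF u v + mulF u v' := by
  funext R
  simp only [mulF, Pi.add_apply]
  rw [← Finset.sum_add_distrib]
  exact Finset.sum_congr rfl fun S _ => by ring

theorem mulF_smul_left (c : ℝ) (u v : Fk N A) : mulF (c • u) v = c • mulF u v := by
  funext R
  simp only [mulF, Pi.smul_apply]
  rw [Finset.smul_sum]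
  refine Finset.sum_congr rfl fun S _ => ?_
  simp only [Algebra.smul_def]
  ring

theorem mulF_smul_right (c : ℝ) (u v : Fk N A) : mulF u (c • v) = c • mulF u v := by
  funext R
  simp only [mulF, Pi.smul_apply]
  rw [Finset.smul_sum]
  refine Finset.sum_congr rfl fun S _ => ?_
  simp only [Algebra.smul_def]
  ring

theorem mulF_zero_left (v : Fk N A) : mulF (0 : Fk N A) v = 0 := by
  funext R
  simp [mulF]

theorem mulF_zero_right (u : Fk N A) : mulF u (0 : Fk N A) = 0 := by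
  funext R
  simp [mulF]

theorem dg_add (m : ℕ) (u v : Fk N A) : dg m (u + v) = dg m u + dg m v := by
  funext S
  simp only [dg, Pi.add_apply]
  split_ifs <;> simp

theorem dg_smul (m : ℕ) (c : ℝ) (u : Fk N A) : dg m (c • u) = c • dg m u := by
  funext S
  simp only [dg, Pi.smul_apply]
  split_ifs <;> simp

theorem dg_zero (m : ℕ) : dg m (0 : Fk N A) = 0 := by
  funext S
  simp [dg]

theorem ip_dg (m : ℕ) (w v : Fk N A) (hv : Deg m v) : ip (dg m w) v = ip w v := by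
  unfold ip
  refine Finset.sum_congr rfl fun S _ => ?_
  by_cases h : S.card = m
  · simp [dg, h]
  · rw [hv S h, mul_zero, mul_zero]

end lin

/-! ### Closed and exact forms -/

section forms

variable {M : Type} [TopologicalSpace M] [CompactSpace M] [MeasurableSpace M] [BorelSpace M]
  {N : ℕ} (C : CD M N)

theorem hm_le {t : ℝ} (ht : 0 ≤ t) (p : ℕ) : Hm C p ≤ Evp C t p := by
  rintro u ⟨⟨⟨hH, hD⟩, hd⟩, he⟩
  have hd' : dd C.F u = 0 := hd
  have he' : de C.F u = 0 := he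
  have h1 : DD C u = 0 := by
    unfold DD
    rw [hd', he', add_zero]
  have h2 : DD C (DD C u) = (0 : ℝ) • u := by
    have e1 : dd C.F (0 : Fk N C.A) = 0 := (ddL C.F).map_zero
    have e2 : de C.F (0 : Fk N C.A) = 0 := (deL C.F).map_zero
    rw [h1, zero_smul]
    unfold DD
    rw [e1, e2, add_zero]
  exact ⟨Submodule.subset_span ⟨hH, 0, le_rfl, ht, h2⟩, hD⟩

theorem hm_DD {p : ℕ} {u : Fk N C.A} (h : u ∈ Hm C p) : DD C u = 0 := by
  obtain ⟨⟨-, hd⟩, he⟩ := h
  have hd' : dd C.F u = 0 := hd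
  have he' : de C.F u = 0 := he
  unfold DD
  rw [hd', he', add_zero]

theorem hm_zp {p : ℕ} {u : Fk N C.A} (h : u ∈ Hm C p) : u ∈ Zp C p := h.1

/-- exact times closed -/
theorem left_exact (h3 : S_WDG) {p q m m' : ℕ} (hm' : m' = p + 1) (hm : m = p + q + 1)
    {e β : Fk N C.A} (he : e ∈ Bp C m') (hβ : β ∈ Zp C q) : dg m (mulF e β) ∈ Bp C m := by
  subst hm' hm
  obtain ⟨g, ⟨hg1, hg2⟩, rfl⟩ := he
  obtain ⟨⟨hβ1, hβ2⟩, hβ3⟩ := hβ
  have hβ3' : dd C.F β = 0 := hβ3
  obtain ⟨w1, w2, w3⟩ := h3 M N C p q g β hg1 hβ1 hg2 hβ2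
  rw [hβ3', mulF_zero_right, dg_zero, smul_zero, add_zero] at w3
  exact ⟨dg (p + q) (mulF g β), ⟨w1, w2⟩, w3⟩

/-- closed times exact -/
theorem right_exact (h3 : S_WDG) {p q m m' : ℕ} (hm' : m' = q + 1) (hm : m = p + q + 1)
    {α e : Fk N C.A} (hα : α ∈ Zp C p) (he : e ∈ Bp C m') : dg m (mulF α e) ∈ Bp C m := by
  subst hm' hm
  obtain ⟨g, ⟨hg1, hg2⟩, rfl⟩ := he
  obtain ⟨⟨hα1, hα2⟩, hα3⟩ := hα
  have hα3' : dd C.F α = 0 := hα3
  obtain ⟨w1, w2, w3⟩ := h3 M N C p q α g hα1 hg1 hα2 hg2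
  rw [hα3', mulF_zero_left, dg_zero, zero_add] at w3
  have h4 : dg (p + q + 1) (mulF α (dd C.F g)) =
      (-1 : ℝ) ^ p • dd C.F (dg (p + q) (mulF α g)) := by
    rw [w3, smul_smul, ← mul_pow]
    norm_num
  have h5 : dd C.F (dg (p + q) (mulF α g)) ∈ Bp C (p + q + 1) :=
    ⟨dg (p + q) (mulF α g), ⟨w1, w2⟩, rfl⟩
  have h6 : dg (p + q + 1) (mulF α (dd C.F g)) ∈ Bp C (p + q + 1) := by
    rw [h4]
    exact Submodule.smul_mem _ _ h5
  exact h6

/-- exact forms are orthogonal to harmonic forms -/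
theorem exact_orth (h5 : S_DDH) {m : ℕ} {w u : Fk N C.A} (hw : w ∈ Bp C (m + 1))
    (hu : u ∈ Hm C (m + 1)) : pr C w u = 0 := by
  obtain ⟨g, -, rfl⟩ := hw
  have he : de C.F u = 0 := hu.2
  have h1 : pr C (dd C.F g) u = pr C g (de C.F u) := (h5 M N C).2.2.2.2.2.2.2.2.2.1 g u
  rw [he, pr_zero_right] at h1
  exact h1

/-- decomposition of a closed form which is not exact -/
theorem decomp {p : ℕ} {u₀ α : Fk N C.A}
    (h1 : ∀ u ∈ Zp C p, ∃ h ∈ Hm C p, u - h ∈ Bp C p) (hf : Module.finrank ℝ (Hm C p) = 1)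
    (hu : u₀ ∈ Hm C p) (hu0 : u₀ ≠ 0) (hα : α ∈ Zp C p) (hα' : α ∉ Bp C p) :
    ∃ a : ℝ, a ≠ 0 ∧ ∃ e ∈ Bp C p, α = a • u₀ + e := by
  obtain ⟨h, hh, hB⟩ := h1 α hα
  have h2 := (finrank_eq_one_iff_of_nonzero' (⟨u₀, hu⟩ : Hm C p)
    (fun h => hu0 (congrArg Subtype.val h))).1 hf ⟨h, hh⟩
  obtain ⟨a, ha⟩ := h2
  have ha' : a • u₀ = h := congrArg Subtype.val ha
  refine ⟨a, ?_, α - h, hB, ?_⟩
  · rintro rfl
    rw [zero_smul] at ha'
    rw [← ha', sub_zero] at hB
    exact hα' hB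
  · rw [ha']
    abel

end forms

end Chir

open Chir in
theorem s_chir (h1 : S_FINR) (h2 : S_NZC) (h3 : S_WDG) (h4 : S_HARM) (h5 : S_DDH)
    (_h6 : S_HODGE) : S_CHIR := by
  intro N n κ hnN hN3 hn2 hκ
  choose f hf0 hf using fun d : Fin (N + 1) → ℕ => h2 n N d κ hn2 hκ
  obtain ⟨η, hη, hηf⟩ := exists_eta N f hf0
  obtain ⟨ε, hε, H⟩ := h1 N n κ (by omega) hn2 hκ η hη
  refine ⟨ε, hε, fun M _ _ _ _ C hC hP hcn hMo hD hR => ?_⟩
  obtain ⟨t, d, u, c, ht, hdim, hfin, hKA, hs, hOB, hb, hsum⟩ := H M C hC hP hcn hMo hD hR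
  have hηd := hηf d hs
  obtain ⟨⟨hd1, hd3, hd2⟩, hc⟩ := hf d c (kac_mono hηd hKA)
  have heq : d ⟨2, by omega⟩ ≠ 0 → ∀ q : Fin (N + 1), bet C q = d q := by
    intro h0
    rcases hd2 ⟨2, by omega⟩ rfl with h | ⟨-, hq⟩
    · exact absurd h h0
    · intro q
      exact eq_of_sum d (bet C) hb (fun q hodd => by
        rw [hq q, if_neg fun h => hodd h.1]) hsum q
  refine ⟨?_, fun hn4 => ?_, ?_, ?_⟩
  · have h := hb ⟨1, by omega⟩
    rw [hd1 ⟨1, by omega⟩ rfl] at h
    exact Nat.le_zero.1 h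
  · have h := hb ⟨3, by omega⟩
    rw [hd3 hn4 ⟨3, by omega⟩ rfl] at h
    exact Nat.le_zero.1 h
  · by_cases h0 : d ⟨2, by omega⟩ = 0
    · left
      have h := hb ⟨2, by omega⟩
      rw [h0] at h
      exact Nat.le_zero.1 h
    · right
      have hE := heq h0
      rcases hd2 ⟨2, by omega⟩ rfl with h | ⟨he, hq⟩
      · exact absurd h h0
      · refine ⟨he, fun p hp => ?_⟩
        have h := hE ⟨p, by omega⟩
        rw [hq] at h
        change bet C p = _ at h
        rw [h]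
        by_cases hev : Even p
        · rw [if_pos ⟨hev, hp⟩, if_pos hev]
        · rw [if_neg fun h => hev h.1, if_neg hev]
  · intro k hk α hα β hβ hα' hβ' hcon
    have hHarm := fun p => h4 M N C hMo hD hR p
    -- `b_2 ≠ 0`
    have hb2 : bet C 2 ≠ 0 := by
      intro h0
      obtain ⟨g1, g2, g3, -⟩ := hHarm 2
      obtain ⟨h, hh, hB⟩ := g3 α hα
      rw [h0] at g2
      have g4 : Hm C 2 = ⊥ := Submodule.finrank_eq_zero.1 g2
      rw [g4, Submodule.mem_bot] at hh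
      rw [hh, sub_zero] at hB
      exact hα' hB
    have hd20 : d ⟨2, by omega⟩ ≠ 0 := by
      intro h0
      have h := hb ⟨2, by omega⟩
      rw [h0] at h
      exact hb2 (Nat.le_zero.1 h)
    have hE := heq hd20
    rcases hd2 ⟨2, by omega⟩ rfl with h | ⟨-, hq⟩
    · exact absurd h hd20
    -- all small eigenforms are harmonic
    have hHm : ∀ q : Fin (N + 1), Hm C q = Evp C t q := by
      intro q
      have hle : Evp C t q ≤ Ev C t := inf_le_left
      have hf2 : Module.Finite ℝ (Evp C t q) := Submodule.finiteDimensional_of_le hle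
      refine Submodule.eq_of_le_of_finrank_eq (hm_le C ht.le q) ?_
      rw [(hHarm q).2.1, ← hdim q, hE q]
    have hu : ∀ x : (Σ p, Fin (d p)), u x ∈ Hm C x.1 := by
      intro x
      rw [hHm x.1]
      exact hOB.1 x
    have hun : ∀ x : (Σ p, Fin (d p)), u x ≠ 0 := by
      intro x h0
      have h := hOB.2.1 x x
      rw [h0, pr_zero_left, if_pos rfl] at h
      exact zero_ne_one h
    have hone : ∀ q : Fin (N + 1), Even (q : ℕ) → (q : ℕ) ≤ n → d q = 1 := by
      intro q h1 h2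
      rw [hq q, if_pos ⟨h1, h2⟩]
    have hfr : ∀ q : Fin (N + 1), Even (q : ℕ) → (q : ℕ) ≤ n →
        Module.finrank ℝ (Hm C q) = 1 := by
      intro q h1 h2
      rw [(hHarm q).2.1, hE q, hone q h1 h2]
    -- the three indices
    have ex : ∀ m : ℕ, Even m → m ≤ n → ∃ x : (Σ p, Fin (d p)), (x.1 : ℕ) = m := by
      intro m h1 h2
      have h3 := hone ⟨m, by omega⟩ h1 h2
      exact ⟨⟨⟨m, by omega⟩, ⟨0, by omega⟩⟩, rfl⟩
    obtain ⟨x, hx⟩ := ex 2 even_two (by omega)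
    obtain ⟨y, hy⟩ := ex (2 * k) (even_two_mul k) (by omega)
    obtain ⟨z, hz⟩ := ex (2 * k + 2) (by
      rw [show 2 * k + 2 = 2 * (k + 1) by ring]
      exact even_two_mul _) hk
    have hcz := hc k x y z hk hx hy hz
    have hux := hu x
    have huy := hu y
    have huz := hu z
    have hfx := hfr x.1 (by rw [hx]; exact even_two) (by omega)
    have hfy := hfr y.1 (by rw [hy]; exact even_two_mul k) (by omega)
    rw [hx] at hux hfx
    rw [hy] at huy hfy
    rw [hz] at huz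
    obtain ⟨a, ha, e₁, he₁, hαe⟩ := decomp C (hHarm 2).2.2.1 hfx hux (hun x) hα hα'
    obtain ⟨b, hb', e₂, he₂, hβe⟩ := decomp C (hHarm (2 * k)).2.2.1 hfy huy (hun y) hβ hβ'
    have s1 : dg (2 * k + 2) (mulF e₁ β) ∈ Bp C (2 * k + 2) :=
      left_exact C h3 (p := 1) (q := 2 * k) rfl (by omega) he₁ hβ
    have s2 : dg (2 * k + 2) (mulF (u x) e₂) ∈ Bp C (2 * k + 2) := by
      rcases Nat.eq_zero_or_pos k with h0 | h0
      · subst h0
        have h6 : e₂ = 0 := (Submodule.mem_bot ℝ).1 he₂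
        rw [h6, mulF_zero_right, dg_zero]
        exact Submodule.zero_mem _
      · exact right_exact C h3 (p := 2) (q := 2 * k - 1) (by omega) (by omega) (hm_zp C hux) he₂
    have s3 : dg (2 * k + 2) (mulF α β) = (a * b) • dg (2 * k + 2) (mulF (u x) (u y)) +
        (a • dg (2 * k + 2) (mulF (u x) e₂) + dg (2 * k + 2) (mulF e₁ β)) := by
      have t1 : mulF α β = a • mulF (u x) β + mulF e₁ β := by
        rw [← mulF_smul_left, ← mulF_add_left, ← hαe]
      have t2 : mulF (u x) β = b • mulF (u x) (u y) + mulF (u x) e₂ := by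
        rw [← mulF_smul_right, ← mulF_add_right, ← hβe]
      rw [t1, t2, dg_add, dg_smul, dg_add, dg_smul, smul_add, smul_smul, add_assoc]
    have s4 : (a * b) • dg (2 * k + 2) (mulF (u x) (u y)) ∈ Bp C (2 * k + 2) := by
      have t3 : (a * b) • dg (2 * k + 2) (mulF (u x) (u y)) = dg (2 * k + 2) (mulF α β) -
          (a • dg (2 * k + 2) (mulF (u x) e₂) + dg (2 * k + 2) (mulF e₁ β)) := by
        rw [s3]
        abel
      rw [t3]
      exact Submodule.sub_mem _ hcon (Submodule.add_mem _ (Submodule.smul_mem _ _ s2) s1)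
    have s5 : dg (2 * k + 2) (mulF (u x) (u y)) ∈ Bp C (2 * k + 2) := by
      have t4 := Submodule.smul_mem _ (a * b)⁻¹ s4
      rwa [smul_smul, inv_mul_cancel₀ (mul_ne_zero ha hb'), one_smul] at t4
    have s6 : pr C (dg (2 * k + 2) (mulF (u x) (u y))) (u z) = 0 :=
      exact_orth C h5 (m := 2 * k + 1) s5 huz
    have s7 : pr C (dg (2 * k + 2) (mulF (u x) (u y))) (u z) = pr C (mulF (u x) (u y)) (u z) := by
      unfold pr
      rw [ip_dg (2 * k + 2) _ _ huz.1.1.2]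
    have s8 := hOB.2.2 x y z (hm_DD C hux) (hm_DD C huy) (hm_DD C huz)
    rw [← s7, s6, sub_zero] at s8
    linarith

end Pool.Agent.H781.KP
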