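import Pool.Agent.H781.KP.GR
import Pool.Agent.H781.CM.Bri

/-!
The cohomology ring of a complex projective space from Betti numbers and powers.
-/

set_option autoImplicit false
set_option synthInstance.maxHeartbeats 400000
set_option maxHeartbeats 4000000
set_option linter.unusedSectionVars false

open Bundle Manifold ContDiff VectorField MeasureTheory Filter
open scoped Topology

noncomputable section

namespace Pool.Agent.H781.KP

open Pool.Agent.H781.NG Pool.Agent.H781.CM Pool.Agent.H781.H6 Pool.Agent.H821R2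
  Pool.Agent.H821R3 Pool.Agent.H893R5.HO Pool.Agent.H781.S22

section

variable (n : ℕ) (M : Type) [TopologicalSpace M] [ChartedSpace (EU n) M]
  [IsManifold (𝓡 n) ∞ M]

/-- The real cohomology ring of `M` is that of a complex projective space: `n = 2 m`, there is a
closed 2-form `α` such that for every `k ≤ m` the power `α^k` is closed and every closed form of
degree `2 k` is, up to an exact form, a unique multiple of `α^k`, and closed forms of odd degree
below `n` are exact. -/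
def CohomologyOfCP : Prop := ∃ m : ℕ, n = 2 * m ∧ ∃ α : CM.F.DF (𝓡 n) M 2,
  CM.F.IsClosedForm α ∧
  (∀ k : ℕ, k ≤ m → CM.F.IsClosedForm (pw α k) ∧
    ∀ β : CM.F.DF (𝓡 n) M (2 * k), CM.F.IsClosedForm β →
      ∃! c : ℝ, CM.F.IsExactForm (2 * k) (fun x v => β x v - c * pw α k x v)) ∧
  ∀ k : ℕ, k < m → ∀ β : CM.F.DF (𝓡 n) M (2 * k + 1), CM.F.IsClosedForm β →
    CM.F.IsExactForm (2 * k + 1) β

end

namespace Cpr

variable {n : ℕ} {M : Type} [TopologicalSpace M] [ChartedSpace (EU n) M]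
  [IsManifold (𝓡 n) ∞ M]

theorem ex_iff {p : ℕ} {β : CM.F.DF (𝓡 n) M p} :
    CM.F.IsExactForm p β ↔ ∃ w ∈ BF n M p, toDF w = β := by
  constructor
  · intro h
    have hw : ∃ w : AF n M p, toDF w = β := by
      cases p with
      | zero =>
        refine ⟨0, ?_⟩
        funext x v
        exact (h x v).symm
      | succ p =>
        obtain ⟨α, -, h2, -⟩ := h
        exact exists_toDF h2
    obtain ⟨w, rfl⟩ := hw
    exact ⟨w, exact_toDF.1 h, rfl⟩
  · rintro ⟨w, hw, rfl⟩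
    exact exact_toDF.2 hw

theorem ex_comb {p : ℕ} {β γ : CM.F.DF (𝓡 n) M p} (a b : ℝ) (h1 : CM.F.IsExactForm p β)
    (h2 : CM.F.IsExactForm p γ) : CM.F.IsExactForm p (fun x v => a * β x v + b * γ x v) := by
  obtain ⟨w, hw, rfl⟩ := ex_iff.1 h1
  obtain ⟨z, hz, rfl⟩ := ex_iff.1 h2
  refine ex_iff.2 ⟨a • w + b • z, Submodule.add_mem _ (Submodule.smul_mem _ a hw)
    (Submodule.smul_mem _ b hz), ?_⟩
  funext x v
  rfl

theorem betti_zero {p : ℕ} (h : CM.F.IsBetti (𝓡 n) M p 0) {β : CM.F.DF (𝓡 n) M p}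
    (hβ : CM.F.IsClosedForm β) : CM.F.IsExactForm p β := by
  obtain ⟨α, -, h2⟩ := h
  obtain ⟨c, hc, -⟩ := h2 β hβ
  simpa using hc

theorem betti_one {p : ℕ} (h : CM.F.IsBetti (𝓡 n) M p 1) {γ : CM.F.DF (𝓡 n) M p}
    (hγ : CM.F.IsClosedForm γ) (hγ' : ¬ CM.F.IsExactForm p γ) {β : CM.F.DF (𝓡 n) M p}
    (hβ : CM.F.IsClosedForm β) :
    ∃! c : ℝ, CM.F.IsExactForm p (fun x v => β x v - c * γ x v) := by
  obtain ⟨α, -, h2⟩ := h
  obtain ⟨cg, hg, -⟩ := h2 γ hγ
  obtain ⟨cb, hb, -⟩ := h2 β hβ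
  simp only [Fin.sum_univ_one] at hg hb
  have hne : cg 0 ≠ 0 := by
    intro h0
    rw [h0] at hg
    simp only [zero_mul, sub_zero] at hg
    exact hγ' hg
  refine ⟨cb 0 / cg 0, ?_, ?_⟩
  · have h3 := ex_comb 1 (-(cb 0 / cg 0)) hb hg
    have e : (fun x v => β x v - cb 0 / cg 0 * γ x v) = fun x v =>
        1 * (β x v - cb 0 * α 0 x v) + -(cb 0 / cg 0) * (γ x v - cg 0 * α 0 x v) := by
      funext x v
      field_simp
      ring
    show CM.F.IsExactForm p (fun x v => β x v - cb 0 / cg 0 * γ x v)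
    rw [e]
    exact h3
  · intro c hc
    have hc0 : CM.F.IsExactForm p (fun x v => β x v - cb 0 / cg 0 * γ x v) := by
      have h3 := ex_comb 1 (-(cb 0 / cg 0)) hb hg
      have e : (fun x v => β x v - cb 0 / cg 0 * γ x v) = fun x v =>
          1 * (β x v - cb 0 * α 0 x v) + -(cb 0 / cg 0) * (γ x v - cg 0 * α 0 x v) := by
        funext x v
        field_simp
        ring
      rw [e]
      exact h3
    by_contra hne'
    apply hγ'
    have hd : c - cb 0 / cg 0 ≠ 0 := sub_ne_zero.2 hne'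
    have h4 := ex_comb (-(c - cb 0 / cg 0)⁻¹) ((c - cb 0 / cg 0)⁻¹) hc hc0
    have e : γ = fun x v => -(c - cb 0 / cg 0)⁻¹ * (β x v - c * γ x v) +
        (c - cb 0 / cg 0)⁻¹ * (β x v - cb 0 / cg 0 * γ x v) := by
      funext x v
      have h5 : (c - cb 0 / cg 0)⁻¹ * (c - cb 0 / cg 0) = 1 := inv_mul_cancel₀ hd
      linear_combination (-(γ x v)) * h5
    rw [e]
    exact h4

theorem betti_gen {p : ℕ} (h : CM.F.IsBetti (𝓡 n) M p 1) :
    ∃ γ : CM.F.DF (𝓡 n) M p, CM.F.IsClosedForm γ ∧ ¬ CM.F.IsExactForm p γ := by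
  obtain ⟨α, h1, h2⟩ := h
  refine ⟨α 0, h1 0, fun hex => ?_⟩
  obtain ⟨c, -, hu⟩ := h2 (α 0) (h1 0)
  have e0 := hu (fun _ => 0) (by
    simp only [Fin.sum_univ_one, zero_mul, sub_zero]
    exact hex)
  have e1 := hu (fun _ => 1) (by
    simp only [Fin.sum_univ_one, one_mul]
    have h3 := ex_comb 0 0 hex hex
    have e : (fun x v => α 0 x v - α 0 x v) = fun x v => 0 * α 0 x v + 0 * α 0 x v := by
      funext x v
      ring
    rw [e]
    exact h3)
  have e2 := congrFun (e0.trans e1.symm) 0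
  norm_num at e2

end Cpr

theorem cp_of_powers {n : ℕ} {M : Type} [TopologicalSpace M] [ChartedSpace (EU n) M]
    [IsManifold (𝓡 n) ∞ M] (b : ℕ → ℕ) (hb : ∀ p, CM.F.IsBetti (𝓡 n) M p (b p)) (hn : 2 ≤ n)
    (he : Even n) (h1 : ∀ p, p ≤ n → b p = if Even p then 1 else 0)
    (h2 : ∀ α : CM.F.DF (𝓡 n) M 2, CM.F.IsClosedForm α → ¬ CM.F.IsExactForm 2 α →
      ∀ k : ℕ, 2 * k ≤ n → CM.F.IsClosedForm (pw α k) ∧ ¬ CM.F.IsExactForm (2 * k) (pw α k)) :
    CohomologyOfCP n M := by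
  obtain ⟨m, hm⟩ := he
  have hm' : n = 2 * m := by omega
  have hev : ∀ k, k ≤ m → CM.F.IsBetti (𝓡 n) M (2 * k) 1 := by
    intro k hk
    have e := h1 (2 * k) (by omega)
    rw [if_pos (even_two_mul k)] at e
    rw [← e]
    exact hb _
  obtain ⟨α, hα, hα'⟩ := Cpr.betti_gen (hev 1 (by omega))
  refine ⟨m, hm', α, hα, fun k hk => ?_, fun k hk β hβ => ?_⟩
  · obtain ⟨h3, h4⟩ := h2 α hα hα' k (by omega)
    exact ⟨h3, fun β hβ => Cpr.betti_one (hev k hk) h3 h4 hβ⟩
  · refine Cpr.betti_zero ?_ hβ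
    have e := h1 (2 * k + 1) (by omega)
    rw [if_neg (by simp)] at e
    rw [← e]
    exact hb _

end Pool.Agent.H781.KP
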