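import Pool.Agent.H781.KP.GW
import Pool.Agent.H781.KP.Cpr

/-!
Cohomology rings which are truncated polynomial algebras, from Betti numbers and products.
-/

set_option autoImplicit false
set_option synthInstance.maxHeartbeats 400000
set_option maxHeartbeats 4000000
set_option linter.unusedSectionVars false

open Bundle Manifold ContDiff VectorField MeasureTheory Filter
open scoped Topology

noncomputable section

namespace Pool.Agent.H781.KP

open Pool.Agent.H781.NG Pool.Agent.H781.CM Pool.Agent.H781.H6 Pool.Agent.H821R2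
  Pool.Agent.H821R3 Pool.Agent.H893R5.HO Pool.Agent.H781.S22

/-- the degree `q (k + 1)` -/
def dq (q : ℕ) : ℕ → ℕ
  | 0 => q
  | k + 1 => dq q k + q

theorem dq_eq (q k : ℕ) : dq q k = q * (k + 1) := by
  induction k with
  | zero => simp [dq]
  | succ k ih =>
    show dq q k + q = q * (k + 1 + 1)
    rw [ih]
    ring

section forms

variable {E : Type*} [NormedAddCommGroup E] [NormedSpace ℝ E]
  {H : Type*} [TopologicalSpace H] {I : ModelWithCorners ℝ E H}
  {M : Type*} [TopologicalSpace M] [ChartedSpace H M]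

/-- the power `α^(k+1)`, of degree `q (k + 1)`, of a form `α` of degree `q` -/
def pwr {q : ℕ} (α : CM.F.DF I M q) : (k : ℕ) → CM.F.DF I M (dq q k)
  | 0 => α
  | k + 1 => wedge (pwr α k) α

end forms

section

variable (n : ℕ) (M : Type) [TopologicalSpace M] [ChartedSpace (EU n) M]
  [IsManifold (𝓡 n) ∞ M]

/-- Products of real cohomology classes: the exterior product of closed forms of degrees
`p, q ≥ 1` with `p + q ≤ n` which are not exact is closed and not exact. -/
def CupNonzero : Prop := ∀ p q : ℕ, 1 ≤ p → 1 ≤ q → p + q ≤ n →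
  ∀ (α : CM.F.DF (𝓡 n) M p) (β : CM.F.DF (𝓡 n) M q),
    CM.F.IsClosedForm α → ¬ CM.F.IsExactForm p α → CM.F.IsClosedForm β →
    ¬ CM.F.IsExactForm q β →
    CM.F.IsClosedForm (wedge α β) ∧ ¬ CM.F.IsExactForm (p + q) (wedge α β)

/-- The real cohomology ring of `M` is `ℝ[x]/(x^(m+1))` with `x` of degree `q`, where `n = q m`, and
`q = n` or `q` is even: the 0-th Betti number is one, there is a closed form `α` of degree `q` such
that for `1 ≤ k ≤ m` the power `α^k` is closed and every closed form of degree `q k` is, up to an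
exact form, a unique multiple of `α^k`, and all closed forms of degree `p ≤ n` are exact if `q` does
not divide `p`. -/
def TruncatedPolynomial : Prop := ∃ q m : ℕ, 2 ≤ q ∧ n = q * m ∧ (q = n ∨ Even q) ∧
  CM.F.IsBetti (𝓡 n) M 0 1 ∧ ∃ α : CM.F.DF (𝓡 n) M q, CM.F.IsClosedForm α ∧
  (∀ k : ℕ, k < m → CM.F.IsClosedForm (pwr α k) ∧
    ∀ β : CM.F.DF (𝓡 n) M (dq q k), CM.F.IsClosedForm β →
      ∃! c : ℝ, CM.F.IsExactForm (dq q k) (fun x v => β x v - c * pwr α k x v)) ∧
  ∀ p : ℕ, p ≤ n → ¬ q ∣ p → ∀ β : CM.F.DF (𝓡 n) M p, CM.F.IsClosedForm β →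
    CM.F.IsExactForm p β

end

theorem closed_one {n : ℕ} {M : Type} [TopologicalSpace M] [ChartedSpace (EU n) M]
    [IsManifold (𝓡 n) ∞ M] : CM.F.IsClosedForm (fun _ _ => 1 : CM.F.DF (𝓡 n) M 0) := by
  refine ⟨⟨fun x => ⟨AlternatingMap.constOfIsEmpty ℝ _ (Fin 0) 1, fun v => rfl⟩, fun Y _ =>
    contMDiff_const⟩, fun Y _ x => ?_⟩
  simp [mvfderiv_const]

theorem trunc_of_cup {n : ℕ} {M : Type} [TopologicalSpace M] [ChartedSpace (EU n) M]
    [IsManifold (𝓡 n) ∞ M] (b : ℕ → ℕ) (hb : ∀ p, CM.F.IsBetti (𝓡 n) M p (b p)) (hn : 2 ≤ n)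
    (h0 : b 0 = 1) (hs : BSt n b) (h2 : CupNonzero n M) :
    CM.F.IsBetti (𝓡 n) M n 0 ∨ TruncatedPolynomial n M := by
  obtain ⟨h1, ho, he⟩ := hs
  by_cases hbn : b n = 0
  · exact Or.inl (hbn ▸ hb n)
  right
  have key : ∀ q m : ℕ, 2 ≤ q → n = q * m → (q = n ∨ Even q) →
      (∀ p, p ≤ n → b p = if q ∣ p then 1 else 0) → TruncatedPolynomial n M := by
    intro q m hq hqm hqe hbq
    have hm : 1 ≤ m := by
      rcases Nat.eq_zero_or_pos m with hm | hm
      · rw [hm, Nat.mul_zero] at hqm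
        omega
      · exact hm
    have hle : ∀ k, k < m → dq q k ≤ n := by
      intro k hk
      rw [dq_eq, hqm]
      exact Nat.mul_le_mul_left q hk
    have hev : ∀ k, k < m → CM.F.IsBetti (𝓡 n) M (dq q k) 1 := by
      intro k hk
      have e := hbq (dq q k) (hle k hk)
      rw [if_pos (by rw [dq_eq]; exact Nat.dvd_mul_right q (k + 1))] at e
      rw [← e]
      exact hb _
    obtain ⟨α, hα, hα'⟩ := Cpr.betti_gen (hev 0 hm)
    have hpw : ∀ k, k < m → CM.F.IsClosedForm (pwr (q := q) α k) ∧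
        ¬ CM.F.IsExactForm (dq q k) (pwr (q := q) α k) := by
      intro k
      induction k with
      | zero => exact fun _ => ⟨hα, hα'⟩
      | succ k ih =>
        intro hk
        obtain ⟨h3, h4⟩ := ih (by omega)
        have hd : 1 ≤ dq q k := by
          rw [dq_eq]
          exact Nat.one_le_iff_ne_zero.2 (by positivity)
        exact h2 (dq q k) q hd (by omega) (hle (k + 1) hk) (pwr (q := q) α k) α h3 h4 hα hα'
    refine ⟨q, m, hq, hqm, hqe, h0 ▸ hb 0, α, hα, fun k hk => ?_, fun p hp hqp β hβ => ?_⟩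
    · obtain ⟨h3, h4⟩ := hpw k hk
      exact ⟨h3, fun β hβ => Cpr.betti_one (hev k hk) h3 h4 hβ⟩
    · refine Cpr.betti_zero ?_ hβ
      have e := hbq p hp
      rw [if_neg hqp] at e
      rw [← e]
      exact hb _
  have hbn1 : b n = 1 := by
    have := h1 n
    omega
  rcases Nat.even_or_odd n with hn' | hn'
  · obtain ⟨-, -, h3⟩ := he hn'
    obtain ⟨q, hq, hqe, ⟨m, hm⟩, h4⟩ := h3 hbn
    exact key q m hq hm (Or.inr hqe) h4
  · refine key n 1 hn (Nat.mul_one n).symm (Or.inl rfl) fun p hp => ?_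
    rcases Nat.eq_zero_or_pos p with hp0 | hp0
    · rw [hp0, if_pos (Nat.dvd_zero n)]
      exact h0
    · rcases Nat.lt_or_ge p n with hpn | hpn
      · rw [if_neg fun h => absurd (Nat.le_of_dvd hp0 h) (by omega)]
        exact ho hn' p hp0 hpn
      · have e : p = n := by omega
        rw [e, if_pos (Nat.dvd_refl n), hbn1]

end Pool.Agent.H781.KP
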