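import Pool.Agent.H781.KP.R
import Pool.Agent.H781.CM.Clim

/-!
Project KP (KR-10): the exterior product of differential forms as the top degree part of the
Clifford product.
-/

set_option autoImplicit false
set_option synthInstance.maxHeartbeats 400000
set_option maxHeartbeats 4000000
set_option linter.unusedSectionVars false

open MeasureTheory Filter
open scoped Topology ContDiff

noncomputable section

namespace Pool.Agent.H781.KP

open Pool.Agent.H781.NG Pool.Agent.H781.CM Pool.Agent.H781.H6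

namespace Wdg

open Pool.Agent.H781.CM.Clim (sgm mulB mulB_eq CP)

section alg

variable {N : ℕ} {A : Type*} [CommRing A]

/-- `dg` as a linear map -/
def dgL (m : ℕ) : Fk N A →ₗ[A] Fk N A where
  toFun := dg m
  map_add' u v := by
    funext S
    simp only [dg, Pi.add_apply]
    split_ifs
    · rfl
    · rw [add_zero]
  map_smul' c u := by
    funext S
    simp only [dg, Pi.smul_apply, smul_eq_mul, RingHom.id_apply]
    split_ifs
    · rfl
    · rw [mul_zero]

theorem dgL_eq (m : ℕ) (u : Fk N A) : dg m u = dgL m u := rfl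

theorem an_dg (a : Fin N) (m : ℕ) (w : Fk N A) : an a (dg (m + 1) w) = dg m (an a w) := by
  funext S
  simp only [an_apply, dg]
  by_cases ha : a ∈ S
  · rw [if_pos ha, if_pos ha]
    split_ifs <;> rfl
  · rw [if_neg ha, if_neg ha, Finset.card_insert_of_notMem ha]
    by_cases hS : S.card = m
    · rw [if_pos (by omega), if_pos hS]
    · rw [if_neg (by omega), if_neg hS, mul_zero]

theorem an_dg_zero (a : Fin N) (w : Fk N A) : an a (dg 0 w) = 0 := by
  funext S
  simp only [an_apply, dg]
  by_cases ha : a ∈ S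
  · rw [if_pos ha]
    rfl
  · rw [if_neg ha, Finset.card_insert_of_notMem ha, if_neg (by omega), mul_zero]
    rfl

theorem cr_dg (a : Fin N) (m : ℕ) (w : Fk N A) : cr a (dg m w) = dg (m + 1) (cr a w) := by
  funext S
  simp only [cr_apply, dg]
  by_cases ha : a ∈ S
  · have h1 : (S.erase a).card + 1 = S.card := Finset.card_erase_add_one ha
    rw [if_pos ha, if_pos ha]
    by_cases hS : S.card = m + 1
    · rw [if_pos (by omega), if_pos hS]
    · rw [if_neg (by omega), if_neg hS, mul_zero]
  · rw [if_neg ha, if_neg ha]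
    split_ifs <;> rfl

theorem dg_cr_zero (a : Fin N) (w : Fk N A) : dg 0 (cr a w) = 0 := by
  funext S
  simp only [cr_apply, dg]
  by_cases hS : S.card = 0
  · rw [if_pos hS, Finset.card_eq_zero.1 hS, if_neg (Finset.notMem_empty a)]
    rfl
  · rw [if_neg hS]
    rfl

/-- the support of the Clifford product -/
theorem supp {p q : ℕ} {u v : Fk N A} (hu : ∀ S, p < S.card → u S = 0)
    (hv : ∀ S, q < S.card → v S = 0) (R : Finset (Fin N)) (hR : p + q < R.card) :
    mulF u v R = 0 := by
  unfold mulF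
  refine Finset.sum_eq_zero fun S _ => ?_
  by_cases h1 : p < S.card
  · rw [hu S h1, mul_zero, zero_mul]
  · by_cases h2 : q < (symmDiff S R).card
    · rw [hv _ h2, mul_zero]
    · exfalso
      have h3 : R ⊆ S ∪ symmDiff S R := by
        intro x hx
        by_cases hxS : x ∈ S
        · exact Finset.mem_union_left _ hxS
        · exact Finset.mem_union_right _ (Finset.mem_symmDiff.2 (Or.inr ⟨hx, hxS⟩))
      have h4 := (Finset.card_le_card h3).trans (Finset.card_union_le _ _)
      omega

theorem low {p : ℕ} {u : Fk N A} (hu : ∀ S, S.card ≠ p → u S = 0) :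
    ∀ S, p < S.card → u S = 0 := fun S hS => hu S (by omega)

theorem low_an {p : ℕ} (a : Fin N) {u : Fk N A} (hu : ∀ S, p < S.card → u S = 0) :
    ∀ S, p < S.card → an a u S = 0 := by
  intro S hS
  rw [an_apply]
  split_ifs with h
  · rfl
  · rw [hu _ (by rw [Finset.card_insert_of_notMem h]; omega), mul_zero]

theorem low_sgm {p : ℕ} {u : Fk N A} (hu : ∀ S, p < S.card → u S = 0) :
    ∀ S, p < S.card → sgm u S = 0 := by
  intro S hS
  unfold sgm
  rw [hu S hS, mul_zero]

theorem dg_zero {p q : ℕ} {u v : Fk N A} (hu : ∀ S, p < S.card → u S = 0)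
    (hv : ∀ S, q < S.card → v S = 0) : dg (p + q + 1) (mulF u v) = 0 := by
  funext R
  unfold dg
  split_ifs with h
  · exact supp hu hv R (by omega)
  · rfl

theorem left_cr (H : CP N A) {p q : ℕ} (a : Fin N) {w v : Fk N A}
    (hw : ∀ S, p < S.card → w S = 0) (hv : ∀ S, q < S.card → v S = 0) :
    dg (p + q + 1) (mulF (cr a w) v) = cr a (dg (p + q) (mulF w v)) := by
  have h1 := dg_zero (low_sgm hw) (low_an a hv)
  rw [cr_dg, H.cr_mul, dgL_eq, dgL_eq, map_sub, ← dgL_eq _ (mulF (sgm w) (an a v)), h1, sub_zero]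

theorem right_cr (H : CP N A) {p q : ℕ} (a : Fin N) {w v : Fk N A}
    (hw : ∀ S, S.card ≠ p → w S = 0) (hv : ∀ S, q < S.card → v S = 0) :
    dg (p + q + 1) (mulF w (cr a v)) = (-1 : A) ^ p • cr a (dg (p + q) (mulF w v)) := by
  have hs : sgm w = (-1 : A) ^ p • w := by
    funext S
    unfold sgm
    by_cases hS : S.card = p
    · rw [hS]
      rfl
    · rw [Pi.smul_apply, hw S hS, mul_zero, smul_zero]
  have h1 := H.right a w v
  have e1 : mulF w (cr a v + an a v) = mulF w (cr a v) + mulF w (an a v) := by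
    rw [mulB_eq, map_add]
    rfl
  have e2 : mulF (cr a (sgm w) - an a (sgm w)) v =
      mulF (cr a (sgm w)) v - mulF (an a (sgm w)) v := by
    rw [mulB_eq, map_sub]
    rfl
  rw [e1, e2] at h1
  have h2 : mulF w (cr a v) =
      mulF (cr a (sgm w)) v - mulF (an a (sgm w)) v - mulF w (an a v) := by
    rw [← h1]
    abel
  have hz1 := dg_zero (low_an a (low_sgm (low hw))) hv
  have hz2 := dg_zero (low hw) (low_an a hv)
  rw [h2, dgL_eq, map_sub, map_sub, ← dgL_eq _ (mulF (an a (sgm w)) v),
    ← dgL_eq _ (mulF w (an a v)), hz1, hz2, sub_zero, sub_zero, ← dgL_eq,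
    left_cr H a (low_sgm (low hw)) hv, hs]
  have e3 : mulF ((-1 : A) ^ p • w) v = (-1 : A) ^ p • mulF w v := by
    rw [mulB_eq, map_smul]
    rfl
  rw [e3, dgL_eq, map_smul, map_smul, ← dgL_eq]

theorem sq_neg_one [Algebra ℝ A] (p : ℕ) (x : Fk N A) : (-1 : ℝ) ^ p • ((-1 : A) ^ p • x) = x := by
  rcases Nat.even_or_odd p with h | h
  · rw [h.neg_one_pow, h.neg_one_pow, one_smul, one_smul]
  · rw [h.neg_one_pow, h.neg_one_pow, neg_one_smul, neg_one_smul, neg_neg]

end alg

section geo

variable {N : ℕ} {A : Type*} [CommRing A] [Algebra ℝ A] (F : Fr N A)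

theorem nab_dg (a : Fin N) (m : ℕ) (w : Fk N A) : nab F a (dg m w) = dg m (nab F a w) := by
  unfold nab
  have h1 : (fun S => F.e a (dg m w S)) = dg m (fun S => F.e a (w S)) := by
    funext S
    simp only [dg]
    split_ifs
    · rfl
    · exact map_zero _
  have h2 : gam F a (dg m w) = dg m (gam F a w) := by
    unfold gam
    rw [dgL_eq m (∑ b, ∑ c, F.Γ a b c • cr c (an b w)), map_sum]
    refine Finset.sum_congr rfl fun b _ => ?_
    rw [map_sum]
    refine Finset.sum_congr rfl fun c _ => ?_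
    rw [map_smul, ← dgL_eq]
    cases m with
    | zero => rw [an_dg_zero, map_zero, dg_cr_zero]
    | succ m => rw [an_dg, cr_dg]
  rw [h1, h2, dgL_eq m (_ + _), map_add]
  rfl

end geo

theorem hor_dg {M : Type} [TopologicalSpace M] [CompactSpace M] [MeasurableSpace M]
    [BorelSpace M] {N : ℕ} (C : CD M N) (m : ℕ) {w : Fk N C.A} (hw : Hor C w) :
    Hor C (dg m w) := by
  intro c
  cases m with
  | zero =>
    rw [an_dg_zero]
    simp [an_dg_zero]
  | succ m =>
    rw [an_dg, hw c, dgL_eq, map_sum]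
    refine Finset.sum_congr rfl fun a _ => ?_
    rw [map_smul, ← dgL_eq, an_dg]

end Wdg

open Wdg in
open Pool.Agent.H781.CM.Clim (CP mulB mulB_eq) in
/-- the exterior product -/
theorem s_wdg (h1 : S_CLIF) (h2 : S_CLIM) (h3 : S_DDH) : S_WDG := by
  intro M _ _ _ _ N C p q u v hu hv hup hvq
  have H : CP N C.A := ⟨(h1 N C.A).1, (h1 N C.A).2.1, (h1 N C.A).2.2.2.1, (h1 N C.A).2.2.2.2.1⟩
  obtain ⟨k1, k2, -, -⟩ := h2 M N C
  have hdeg := (h3 M N C).2.2.2.1
  refine ⟨hor_dg C _ (k2 u v hu hv), fun S hS => if_neg hS, ?_⟩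
  have e1 : dd C.F (dg (p + q) (mulF u v)) =
      ∑ a, (dg (p + q + 1) (mulF (cr a (nab C.F a u)) v) +
        (-1 : ℝ) ^ p • dg (p + q + 1) (mulF u (cr a (nab C.F a v)))) := by
    unfold dd
    refine Finset.sum_congr rfl fun a _ => ?_
    rw [nab_dg, k1, dgL_eq, map_add, map_add, ← dgL_eq, ← dgL_eq,
      ← left_cr H a (low (hdeg p a u hup)) (low hvq),
      right_cr H a hup (low (hdeg q a v hvq)), sq_neg_one]
  rw [e1, Finset.sum_add_distrib]
  congr 1
  · unfold dd
    rw [mulB_eq, map_sum, LinearMap.sum_apply, dgL_eq, map_sum]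
    rfl
  · rw [← Finset.smul_sum]
    congr 1
    unfold dd
    rw [mulB_eq, map_sum, dgL_eq, map_sum]
    rfl

end Pool.Agent.H781.KP
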