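import Pool.Agent.H781.KP.Mainwl
import Pool.Agent.H781.KP.Wdg
import Pool.Agent.H781.KP.Chir
import Pool.Agent.H781.KP.Tpr
import Pool.Agent.H781.CM.Clif

/-!
Project KP, formality: multiplicative choice of closed forms representing the cohomology.
-/

set_option autoImplicit false
set_option synthInstance.maxHeartbeats 400000
set_option maxHeartbeats 4000000
set_option linter.unusedSectionVars false

open Bundle Manifold ContDiff VectorField MeasureTheory Filter
open scoped Topology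

noncomputable section

namespace Pool.Agent.H781.KP

open Pool.Agent.H781.NG Pool.Agent.H781.CM Pool.Agent.H781.H6 Pool.Agent.H821R2
  Pool.Agent.H821R3 Pool.Agent.H893R5.HO Pool.Agent.H781.S22

section

variable (n : ℕ) (M : Type) [TopologicalSpace M] [ChartedSpace (EU n) M]
  [IsManifold (𝓡 n) ∞ M]

/-- There is a homomorphism of differential graded algebras from `ℝ[x]/(x^(m+1))`, with zero
differential and `x` of degree `q`, `n = q m`, to the algebra of differential forms of `M` which is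
an isomorphism on cohomology: closed forms `a k` of degree `q k`, `a 0 = 1`,
`a k ∧ a l = a (k + l)`, such that for `k ≤ m` every closed form of degree `q k` is, up to an exact
form, a unique multiple of `a k`, and all closed forms of degree `p ≤ n` are exact if `q` does not
divide `p`. -/
def FormalTruncated : Prop := ∃ q m : ℕ, 2 ≤ q ∧ n = q * m ∧ (q = n ∨ Even q) ∧
  ∃ a : (k : ℕ) → CM.F.DF (𝓡 n) M (q * k), (∀ x v, a 0 x v = 1) ∧
  (∀ k l x v, wedge (a k) (a l) x v = a (k + l) x (fun i => v (Fin.cast (Nat.mul_add q k l) i))) ∧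
  (∀ k : ℕ, k ≤ m → CM.F.IsClosedForm (a k) ∧
    ∀ β : CM.F.DF (𝓡 n) M (q * k), CM.F.IsClosedForm β →
      ∃! c : ℝ, CM.F.IsExactForm (q * k) (fun x v => β x v - c * a k x v)) ∧
  ∀ p : ℕ, p ≤ n → ¬ q ∣ p → ∀ β : CM.F.DF (𝓡 n) M p, CM.F.IsClosedForm β →
    CM.F.IsExactForm p β

end

/-- the theorem on multiplicative choices -/
def S_MAINF : Prop := ∀ (n : ℕ) (κ : ℝ), 2 ≤ n → 0 < κ → ∃ ε : ℝ, 0 < ε ∧
  ∀ (M : Type) [TopologicalSpace M] [T2Space M] [CompactSpace M] [ConnectedSpace M]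
    [ChartedSpace (EU n) M] [IsManifold (𝓡 n) ∞ M] (g : Met n M),
  CM.F.SecGE g κ → CM.F.CurvOpGE n g (-ε) →
  (∃ b : ℕ → ℕ, (∀ p, CM.F.IsBetti (𝓡 n) M p (b p)) ∧ BSt n b) ∧
  ∀ q : ℕ, 1 ≤ q → ∀ (α : CM.F.DF (𝓡 n) M q),
    CM.F.IsClosedForm α → ¬ CM.F.IsExactForm q α →
    ∃ a : (k : ℕ) → CM.F.DF (𝓡 n) M (q * k), (∀ x v, a 0 x v = 1) ∧
      (∀ k l x v, wedge (a k) (a l) x v =
        a (k + l) x (fun i => v (Fin.cast (Nat.mul_add q k l) i))) ∧
      ∀ k : ℕ, q * k ≤ n → CM.F.IsClosedForm (a k) ∧ ¬ CM.F.IsExactForm (q * k) (a k)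

namespace Fmt

section alg

variable {N : ℕ} {A : Type*} [CommRing A] [Algebra ℝ A]

theorem sup1 {P r : ℕ} {y w : Fk N A} (hy : ∀ S, P ≤ S.card → y S = 0)
    (hw : ∀ S, r < S.card → w S = 0) (R : Finset (Fin N)) (hR : P + r ≤ R.card) :
    mulF y w R = 0 := by
  unfold mulF
  refine Finset.sum_eq_zero fun S _ => ?_
  by_cases h1 : P ≤ S.card
  · rw [hy S h1, mul_zero, zero_mul]
  · by_cases h2 : r < (symmDiff S R).card
    · rw [hw _ h2, mul_zero]
    · exfalso
      have h3 : R ⊆ S ∪ symmDiff S R := by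
        intro x hx
        by_cases hxS : x ∈ S
        · exact Finset.mem_union_left _ hxS
        · exact Finset.mem_union_right _ (Finset.mem_symmDiff.2 (Or.inr ⟨hx, hxS⟩))
      have h4 := (Finset.card_le_card h3).trans (Finset.card_union_le _ _)
      omega

theorem sup2 {P r : ℕ} {y w : Fk N A} (hy : ∀ S, P ≤ S.card → y S = 0)
    (hw : ∀ S, r < S.card → w S = 0) (R : Finset (Fin N)) (hR : r + P ≤ R.card) :
    mulF w y R = 0 := by
  unfold mulF
  refine Finset.sum_eq_zero fun S _ => ?_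
  by_cases h1 : r < S.card
  · rw [hw S h1, mul_zero, zero_mul]
  · by_cases h2 : P ≤ (symmDiff S R).card
    · rw [hy _ h2, mul_zero]
    · exfalso
      have h3 : R ⊆ S ∪ symmDiff S R := by
        intro x hx
        by_cases hxS : x ∈ S
        · exact Finset.mem_union_left _ hxS
        · exact Finset.mem_union_right _ (Finset.mem_symmDiff.2 (Or.inr ⟨hx, hxS⟩))
      have h4 := (Finset.card_le_card h3).trans (Finset.card_union_le _ _)
      omega

theorem rest {p q : ℕ} {u v : Fk N A} (hu : Deg p u) (hv : Deg q v) (S : Finset (Fin N))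
    (hS : p + q ≤ S.card) : (mulF u v - dg (p + q) (mulF u v)) S = 0 := by
  show mulF u v S - (if S.card = p + q then mulF u v S else 0) = 0
  by_cases h : S.card = p + q
  · rw [if_pos h, sub_self]
  · rw [if_neg h, sub_zero]
    exact Wdg.supp (Wdg.low hu) (Wdg.low hv) S (by omega)

theorem dgl {p q r : ℕ} {u v w : Fk N A} (hu : Deg p u) (hv : Deg q v) (hw : Deg r w) :
    dg (p + q + r) (mulF (dg (p + q) (mulF u v)) w) = dg (p + q + r) (mulF (mulF u v) w) := by
  funext R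
  show (if R.card = p + q + r then mulF (dg (p + q) (mulF u v)) w R else 0) =
    if R.card = p + q + r then mulF (mulF u v) w R else 0
  split_ifs with h
  · have h1 := sup1 (rest hu hv) (Wdg.low hw) R (by omega)
    have h2 := congrFun (Chir.mulF_add_left (mulF u v - dg (p + q) (mulF u v))
      (dg (p + q) (mulF u v)) w) R
    rw [sub_add_cancel, Pi.add_apply, h1, zero_add] at h2
    exact h2.symm
  · rfl

theorem dgr {p q r : ℕ} {u v w : Fk N A} (hu : Deg p u) (hv : Deg q v) (hw : Deg r w) :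
    dg (p + (q + r)) (mulF u (dg (q + r) (mulF v w))) =
      dg (p + (q + r)) (mulF u (mulF v w)) := by
  funext R
  show (if R.card = p + (q + r) then mulF u (dg (q + r) (mulF v w)) R else 0) =
    if R.card = p + (q + r) then mulF u (mulF v w) R else 0
  split_ifs with h
  · have h1 := sup2 (rest hv hw) (Wdg.low hu) R (by omega)
    have h2 := congrFun (Chir.mulF_add_right u (mulF v w - dg (q + r) (mulF v w))
      (dg (q + r) (mulF v w))) R
    rw [sub_add_cancel, Pi.add_apply, h1, zero_add] at h2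
    exact h2.symm
  · rfl

theorem dg_self {p : ℕ} {u : Fk N A} (hu : Deg p u) : dg p u = u := by
  funext R
  show (if R.card = p then u R else 0) = u R
  split_ifs with h
  · rfl
  · exact (hu R h).symm

/-- the powers of `f` -/
def Wp (q : ℕ) (f : Fk N A) : ℕ → Fk N A
  | 0 => vac
  | k + 1 => dg (q * k + q) (mulF (Wp q f k) f)

theorem wp_mul (h : S_CLIF) {q : ℕ} {f : Fk N A} (hf : Deg q f)
    (hw : ∀ k, Deg (q * k) (Wp q f k)) (k l : ℕ) :
    dg (q * k + q * l) (mulF (Wp q f k) (Wp q f l)) = Wp q f (k + l) := by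
  induction l with
  | zero =>
    show dg (q * k + 0) (mulF (Wp q f k) vac) = Wp q f k
    rw [Clif.mul_vac]
    exact dg_self (hw k)
  | succ l ih =>
    show dg (q * k + (q * l + q)) (mulF (Wp q f k) (dg (q * l + q) (mulF (Wp q f l) f))) =
      dg (q * (k + l) + q) (mulF (Wp q f (k + l)) f)
    rw [dgr (hw k) (hw l) hf, ← Clif.assoc, ← ih, Nat.mul_add, ← Nat.add_assoc,
      dgl (hw k) (hw l) hf]

theorem phi_cast {m m' : ℕ} (h : m' = m) (V : Fin m → Fin N → ℝ) (u : Fk N ℝ) :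
    phi m' (fun i => V (Fin.cast h i)) u = phi m V u := by
  subst h
  rfl

end alg

end Fmt

open Mainr Mainwl in
theorem s_mainf (h1 : S_CHIW) (h2 : S_GDU) (h3 : S_PKX) (h4 : S_GCONN) (h5 : S_PHWG)
    (h6 : S_WDG) (h7 : S_CLIF) : S_MAINF := by
  intro n κ hn2 hκ
  have hn : 1 ≤ n := by omega
  obtain ⟨ε, hε, hC⟩ := h1 (2 * n) n κ (by omega) (by omega) hn2 hκ
  refine ⟨ε / 2, by positivity, ?_⟩
  intro M _ _ _ _ _ _ g hsec hop
  let _ : MeasurableSpace M := borel M
  have : BorelSpace M := ⟨rfl⟩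
  obtain ⟨cov, R, hlc, hrt⟩ := hsec.1
  obtain ⟨D, rfl⟩ := h2 n M hn g cov R hlc hrt
  have hcv : CurvGE D.C ε := by
    have h := gcurv n M (2 * n) D (ε / 2) hn (by positivity) (by
      have h' := hop
      exact h')
    rwa [mul_div_cancel₀ ε (two_ne_zero)] at h
  have hmo : Moll D.C := s_gmoll lmoll s_tkp n M _ D hn
  have hd : Dense2 D.C := s_gdense n M _ D
  have hr : Reg D.C := greg n M _ D hn
  obtain ⟨q1, q4⟩ :=
    hC M D.C hcv (h3 n M _ D κ hn hsec) (h4 n M _ D) hmo hd hr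
  have hfin := (hodge M _ D.C hmo hd hr).1
  have hF : ∀ p, Module.Finite ℝ (HF n M p) := fun p => by
    obtain ⟨e⟩ := gdr n M _ D hn p
    have := hfin p
    exact Module.Finite.equiv e.symm
  have e : ∀ p, Module.finrank ℝ (HF n M p) = bet D.C p := fun p => by
    obtain ⟨e⟩ := gdr n M _ D hn p
    exact e.finrank_eq
  refine ⟨⟨fun p => Module.finrank ℝ (HF n M p), fun p => ?_, ?_⟩, ?_⟩
  · have := hF p
    exact isBetti p
  · have e' : (fun p => Module.finrank ℝ (HF n M p)) = bet D.C := funext e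
    rw [e']
    exact q1
  · intro q hq α hα hex
    obtain ⟨Φ, hΦ1, hΦ2, hΦ3, hΦZ, hΦB⟩ := Nanco.dict D hn
    obtain ⟨q, rfl⟩ : ∃ q', q = q' + 1 := ⟨q - 1, by omega⟩
    obtain ⟨a, rfl⟩ := exists_toDF hα.1
    have hz : a ∈ ZF n M (q + 1) := closed_toDF.1 hα
    obtain ⟨f, hf⟩ := hΦ3 (q + 1) a hz.1
    have hfz : (f : Fk (2 * n) D.C.A) ∈ Zp D.C (q + 1) := (hΦZ (q + 1) f).2 (hf ▸ hz)
    have hfB : (f : Fk (2 * n) D.C.A) ∉ Bp D.C (q + 1) := by
      intro h
      apply hex
      have h8 := (hΦB q f).1 h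
      rw [hf] at h8
      exact exact_toDF.2 h8
    have hWz : ∀ k, Fmt.Wp (q + 1) (f : Fk (2 * n) D.C.A) k ∈ Zp D.C ((q + 1) * k) := by
      intro k
      induction k with
      | zero => exact vac_mem D.C
      | succ k ih => exact dg_mem' h6 D.C ih hfz
    have hWd : ∀ k, Deg ((q + 1) * k) (Fmt.Wp (q + 1) (f : Fk (2 * n) D.C.A) k) :=
      fun k => (hWz k).1.2
    have hWB : ∀ k, (q + 1) * (k + 1) ≤ n →
        Fmt.Wp (q + 1) (f : Fk (2 * n) D.C.A) (k + 1) ∉ Bp D.C ((q + 1) * (k + 1)) := by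
      intro k
      induction k with
      | zero =>
        intro _
        have e1 : Fmt.Wp (q + 1) (f : Fk (2 * n) D.C.A) 1 = (f : Fk (2 * n) D.C.A) := by
          show dg ((q + 1) * 0 + (q + 1)) (mulF vac (f : Fk (2 * n) D.C.A)) = _
          rw [Clif.vac_mul, Nat.mul_zero, Nat.zero_add]
          exact Fmt.dg_self hfz.1.2
        rw [e1]
        have e2 : (q + 1) * (0 + 1) = q + 1 := by ring
        rw [e2]
        exact hfB
      | succ k ih =>
        intro hk
        have hk' : (q + 1) * (k + 1) + (q + 1) ≤ n := hk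
        exact q4 ((q + 1) * (k + 1)) (q + 1) (Nat.one_le_iff_ne_zero.2 (by positivity)) hq hk'
          _ (hWz (k + 1)) f hfz (ih (by omega)) hfB
    refine ⟨fun k => toDF (Φ ((q + 1) * k) ⟨_, (hWz k).1⟩), fun x v => ?_, fun k l x v => ?_,
      fun k hk => ⟨?_, ?_⟩⟩
    · show Φ ((q + 1) * 0) ⟨_, (hWz 0).1⟩ x v = 1
      rw [hΦ1]
      exact evF_vac_one D.C x
    · have h9 := wedge_eq' D h5 (α := toDF (Φ ((q + 1) * k) ⟨_, (hWz k).1⟩))
        (β := toDF (Φ ((q + 1) * l) ⟨_, (hWz l).1⟩)) (hWd k) (hWd l)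
        (fun x w => hΦ1 ((q + 1) * k) ⟨_, (hWz k).1⟩ x w)
        (fun x w => hΦ1 ((q + 1) * l) ⟨_, (hWz l).1⟩ x w) x v
      rw [Fmt.wp_mul h7 hfz.1.2 hWd k l] at h9
      refine h9.trans ?_
      show _ = Φ ((q + 1) * (k + l)) ⟨_, (hWz (k + l)).1⟩ x _
      rw [hΦ1]
      exact (Fmt.phi_cast (Nat.mul_add (q + 1) k l) (fun i => Drf.Lm D x (v i)) _).symm
    · exact closed_toDF.2 ((hΦZ _ ⟨_, (hWz k).1⟩).1 (hWz k))
    · intro h
      cases k with
      | zero =>
        obtain ⟨x⟩ := (inferInstance : Nonempty M)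
        have h8 : Φ ((q + 1) * 0) ⟨_, (hWz 0).1⟩ x (fun i => i.elim0) = 0 :=
          h x (fun i => i.elim0)
        rw [hΦ1] at h8
        exact one_ne_zero ((evF_vac_one D.C x).symm.trans h8)
      | succ k =>
        exact hWB k hk ((hΦB ((q + 1) * k + q) ⟨_, (hWz (k + 1)).1⟩).2 (exact_toDF.1 h))

end Pool.Agent.H781.KP
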