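import Pool.Agent.H781.KP.AllZ
import Pool.Agent.H781.KP.Fmt

/-!
Assembly of the theorem on formality.
-/

set_option autoImplicit false

open Bundle Manifold ContDiff

noncomputable section

namespace Pool.Agent.H781.KP

open Pool.Agent.H781.CM Pool.Agent.H781.H6 Pool.Agent.H781.S22 Pool.Agent.H893R5.HO

theorem mainf : S_MAINF := s_mainf chiw gdu (s_pkx s_frm) s_gconn phwg wdg s_clif

theorem formal_of {n : ℕ} {M : Type} [TopologicalSpace M] [ChartedSpace (EU n) M]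
    [IsManifold (𝓡 n) ∞ M] (b : ℕ → ℕ) (hb : ∀ p, CM.F.IsBetti (𝓡 n) M p (b p)) (hn : 2 ≤ n)
    (h0 : b 0 = 1) (hs : BSt n b)
    (h2 : ∀ q : ℕ, 1 ≤ q → ∀ (α : CM.F.DF (𝓡 n) M q),
      CM.F.IsClosedForm α → ¬ CM.F.IsExactForm q α →
      ∃ a : (k : ℕ) → CM.F.DF (𝓡 n) M (q * k), (∀ x v, a 0 x v = 1) ∧
        (∀ k l x v, wedge (a k) (a l) x v =
          a (k + l) x (fun i => v (Fin.cast (Nat.mul_add q k l) i))) ∧
        ∀ k : ℕ, q * k ≤ n → CM.F.IsClosedForm (a k) ∧ ¬ CM.F.IsExactForm (q * k) (a k)) :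
    CM.F.IsBetti (𝓡 n) M n 0 ∨ FormalTruncated n M := by
  obtain ⟨h1, ho, he⟩ := hs
  by_cases hbn : b n = 0
  · exact Or.inl (hbn ▸ hb n)
  right
  have key : ∀ q m : ℕ, 2 ≤ q → n = q * m → (q = n ∨ Even q) →
      (∀ p, p ≤ n → b p = if q ∣ p then 1 else 0) → FormalTruncated n M := by
    intro q m hq hqm hqe hbq
    have hqn : q ≤ n := by
      rcases Nat.eq_zero_or_pos m with hm | hm
      · rw [hm, Nat.mul_zero] at hqm
        omega
      · rw [hqm]
        exact Nat.le_mul_of_pos_right q hm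
    have hle : ∀ k, k ≤ m → q * k ≤ n := by
      intro k hk
      rw [hqm]
      exact Nat.mul_le_mul_left q hk
    have hev : ∀ k, k ≤ m → CM.F.IsBetti (𝓡 n) M (q * k) 1 := by
      intro k hk
      have e := hbq (q * k) (hle k hk)
      rw [if_pos (Nat.dvd_mul_right q k)] at e
      rw [← e]
      exact hb _
    have hbq1 : CM.F.IsBetti (𝓡 n) M q 1 := by
      have e := hbq q hqn
      rw [if_pos (Nat.dvd_refl q)] at e
      rw [← e]
      exact hb _
    obtain ⟨α, hα, hα'⟩ := Cpr.betti_gen hbq1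
    obtain ⟨a, a0, a1, a2⟩ := h2 q (by omega) α hα hα'
    refine ⟨q, m, hq, hqm, hqe, a, a0, a1, fun k hk => ?_, fun p hp hqp β hβ => ?_⟩
    · obtain ⟨h3, h4⟩ := a2 k (hle k hk)
      exact ⟨h3, fun β hβ => Cpr.betti_one (hev k hk) h3 h4 hβ⟩
    · refine Cpr.betti_zero ?_ hβ
      have e := hbq p hp
      rw [if_neg hqp] at e
      rw [← e]
      exact hb _
  have hbn1 : b n = 1 := by
    have := h1 n
    omega
  rcases Nat.even_or_odd n with hn' | hn'
  · obtain ⟨-, -, h3⟩ := he hn'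
    obtain ⟨q, hq, hqe, ⟨m, hm⟩, h4⟩ := h3 hbn
    exact key q m hq hm (Or.inr hqe) h4
  · refine key n 1 hn (Nat.mul_one n).symm (Or.inl rfl) fun p hp => ?_
    rcases Nat.eq_zero_or_pos p with hp0 | hp0
    · rw [hp0, if_pos (Nat.dvd_zero n)]
      exact h0
    · rcases Nat.lt_or_ge p n with hpn | hpn
      · rw [if_neg fun h => absurd (Nat.le_of_dvd hp0 h) (by omega)]
        exact ho hn' p hp0 hpn
      · have e : p = n := by omega
        rw [e, if_pos (Nat.dvd_refl n), hbn1]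

end Pool.Agent.H781.KP
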