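import Pool.Agent.H781.KP.GR
import Pool.Agent.H781.CM.Nanco
import Pool.Agent.H781.KP.Maink

/-!
Project KP, cohomology ring: the geometric theorem from the abstract theorem.
-/

set_option autoImplicit false
set_option synthInstance.maxHeartbeats 400000
set_option maxHeartbeats 4000000
set_option linter.unusedSectionVars false

open Bundle Manifold ContDiff VectorField MeasureTheory Filter
open scoped Topology

noncomputable section

namespace Pool.Agent.H781.KP

open Pool.Agent.H781.NG Pool.Agent.H781.CM Pool.Agent.H781.H6 Pool.Agent.H821R2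
  Pool.Agent.H821R3 Pool.Agent.H893R5.HO Pool.Agent.H781.S22

namespace Mainr

section alg

variable {N : ℕ}

theorem mulF_zero_left {A : Type*} [CommRing A] (v : Fk N A) : mulF (0 : Fk N A) v = 0 := by
  funext R
  show ∑ S, (sg2 S (symmDiff S R) : A) * (0 : Fk N A) S * v (symmDiff S R) = 0
  refine Finset.sum_eq_zero fun S _ => ?_
  rw [Pi.zero_apply, mul_zero, zero_mul]

theorem mulF_zero_right {A : Type*} [CommRing A] (u : Fk N A) : mulF u (0 : Fk N A) = 0 := by
  funext R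
  show ∑ S, (sg2 S (symmDiff S R) : A) * u S * (0 : Fk N A) (symmDiff S R) = 0
  refine Finset.sum_eq_zero fun S _ => ?_
  rw [Pi.zero_apply, mul_zero]

theorem dg_zero {A : Type*} [CommRing A] (m : ℕ) : dg m (0 : Fk N A) = 0 := by
  funext S
  show (if S.card = m then (0 : Fk N A) S else 0) = 0
  split_ifs
  · rfl
  · rfl

/-- iterated contractions only see the component of their degree -/
theorem phi_dg (p : ℕ) (V : Fin p → Fin N → ℝ) (w : Fk N ℝ) :
    phi p V (dg p w) = phi p V w := by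
  have h2 := ((s_phi N p).1 V).map_sub w (dg p w)
  rw [Nanco.phi_eq_zero p V (w - dg p w)] at h2
  · linarith
  · intro T hT
    show w T - (if T.card = p then w T else 0) = 0
    rw [if_pos hT, sub_self]

end alg

section

variable {M : Type} [TopologicalSpace M] [CompactSpace M] [MeasurableSpace M] [BorelSpace M]
  {N : ℕ}

theorem evF_dg (C : CD M N) (x : M) (m : ℕ) (w : Fk N C.A) :
    evF C x (dg m w) = dg m (evF C x w) := by
  funext S
  show C.ev x (if S.card = m then w S else 0) = if S.card = m then C.ev x (w S) else 0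
  split_ifs
  · rfl
  · exact map_zero _

theorem evF_deg (C : CD M N) (x : M) {p : ℕ} {u : Fk N C.A} (hu : Deg p u) :
    Deg p (evF C x u) := by
  intro S hS
  show C.ev x (u S) = 0
  rw [hu S hS, map_zero]

theorem vac_mem (C : CD M N) : (vac : Fk N C.A) ∈ Zp C 0 := by
  obtain ⟨-, -, h1, h2⟩ := s_clim s_clif M N C
  refine ⟨⟨h1, ?_⟩, ?_⟩
  · intro S hS
    show (if S = ∅ then (1 : C.A) else 0) = 0
    rw [if_neg]
    intro h
    apply hS
    rw [h]
    rfl
  · show dd C.F (vac : Fk N C.A) = 0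
    unfold dd
    refine Finset.sum_eq_zero fun a _ => ?_
    rw [h2 a, map_zero]

theorem evF_vac_one (C : CD M N) (x : M) : evF C x (vac : Fk N C.A) ∅ = 1 := by
  show C.ev x (if (∅ : Finset (Fin N)) = ∅ then (1 : C.A) else 0) = 1
  rw [if_pos rfl, map_one]

theorem vac_ne [Nonempty M] (C : CD M N) : (vac : Fk N C.A) ∉ Bp C 0 := by
  intro h
  have h0 : (vac : Fk N C.A) = 0 := h
  obtain ⟨x⟩ := ‹Nonempty M›
  have h1 := evF_vac_one C x
  rw [h0, evF_zero] at h1
  exact zero_ne_one h1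

/-- the product of closed elements is closed -/
theorem dg_mem (h6 : S_WDG) (C : CD M N) {k : ℕ} {u v : Fk N C.A} (hu : u ∈ Zp C 2)
    (hv : v ∈ Zp C (2 * k)) : dg (2 * k + 2) (mulF u v) ∈ Zp C (2 * k + 2) := by
  have e : 2 + 2 * k = 2 * k + 2 := Nat.add_comm _ _
  obtain ⟨k1, k2, k3⟩ := h6 M N C 2 (2 * k) u v hu.1.1 hv.1.1 hu.1.2 hv.1.2
  rw [e] at k1 k2 k3
  refine ⟨⟨k1, k2⟩, ?_⟩
  show dd C.F _ = 0
  have hu0 : dd C.F u = 0 := hu.2
  have hv0 : dd C.F v = 0 := hv.2
  rw [k3, hu0, hv0, mulF_zero_left, mulF_zero_right, dg_zero, smul_zero, add_zero]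

end

section forms

variable {n : ℕ} {M : Type} [TopologicalSpace M] [T2Space M] [CompactSpace M]
  [ChartedSpace (EU n) M] [IsManifold (𝓡 n) ∞ M] [MeasurableSpace M] [BorelSpace M] {N : ℕ}
  (D : GD n M N)

/-- the pointwise value of the exterior product -/
theorem wedge_eq (h5 : S_PHW2) {p : ℕ} {α : CM.F.DF (𝓡 n) M 2} {β : CM.F.DF (𝓡 n) M p}
    {u v : Fk N D.C.A} (hu : Deg 2 u) (hv : Deg p v)
    (hα : ∀ (x : M) (w : Fin 2 → TangentSpace (𝓡 n) x), α x w =
      phi 2 (fun i => Drf.Lm D x (w i)) (evF D.C x u))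
    (hβ : ∀ (x : M) (w : Fin p → TangentSpace (𝓡 n) x), β x w =
      phi p (fun i => Drf.Lm D x (w i)) (evF D.C x v))
    (x : M) (w : Fin (p + 2) → TangentSpace (𝓡 n) x) : wedge2 α β x w =
      phi (p + 2) (fun i => Drf.Lm D x (w i)) (evF D.C x (dg (p + 2) (mulF u v))) := by
  rw [evF_dg, phi_dg, evF_mulF, h5 N p _ _ (evF_deg D.C x hu) (evF_deg D.C x hv)]
  unfold wedge2
  refine Finset.sum_congr rfl fun j _ => Finset.sum_congr rfl fun i _ => ?_
  split_ifs with h
  · rw [hα, hβ]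
    congr 2
  · rfl

end forms

end Mainr

open Mainr in
theorem s_mainr (h1 : S_CHIR) (h2 : S_GDU) (h3 : S_PKX) (h4 : S_GCONN) (h5 : S_PHW2)
    (h6 : S_WDG) : S_MAINR := by
  intro n κ hn2 hκ
  have hn : 1 ≤ n := by omega
  obtain ⟨ε, hε, hC⟩ := h1 (2 * n) n κ (by omega) (by omega) hn2 hκ
  refine ⟨ε / 2, by positivity, ?_⟩
  intro M _ _ _ _ _ _ g hsec hop
  let _ : MeasurableSpace M := borel M
  have : BorelSpace M := ⟨rfl⟩
  obtain ⟨cov, R, hlc, hrt⟩ := hsec.1
  obtain ⟨D, rfl⟩ := h2 n M hn g cov R hlc hrt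
  have hcv : CurvGE D.C ε := by
    have h := gcurv n M (2 * n) D (ε / 2) hn (by positivity) (by
      have h' := hop
      exact h')
    rwa [mul_div_cancel₀ ε (two_ne_zero)] at h
  have hmo : Moll D.C := s_gmoll lmoll s_tkp n M _ D hn
  have hd : Dense2 D.C := s_gdense n M _ D
  have hr : Reg D.C := greg n M _ D hn
  obtain ⟨q1, q2, q3, q4⟩ :=
    hC M D.C hcv (h3 n M _ D κ hn hsec) (h4 n M _ D) hmo hd hr
  have hfin := (hodge M _ D.C hmo hd hr).1
  have hF : ∀ p, Module.Finite ℝ (HF n M p) := fun p => by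
    obtain ⟨e⟩ := gdr n M _ D hn p
    have := hfin p
    exact Module.Finite.equiv e.symm
  have e : ∀ p, Module.finrank ℝ (HF n M p) = bet D.C p := fun p => by
    obtain ⟨e⟩ := gdr n M _ D hn p
    exact e.finrank_eq
  refine ⟨⟨fun p => Module.finrank ℝ (HF n M p), fun p => ?_, ?_, ?_, ?_⟩, ?_⟩
  · have := hF p
    exact isBetti p
  · show Module.finrank ℝ (HF n M 1) = 0
    rw [e 1]
    exact q1
  · intro h
    show Module.finrank ℝ (HF n M 3) = 0
    rw [e 3]
    exact q2 h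
  · rcases q3 with q3 | ⟨q3, q5⟩
    · left
      show Module.finrank ℝ (HF n M 2) = 0
      rw [e 2]
      exact q3
    · right
      refine ⟨q3, fun p hp => ?_⟩
      show Module.finrank ℝ (HF n M p) = _
      rw [e p]
      exact q5 p hp
  · intro α hα hex
    obtain ⟨Φ, hΦ1, hΦ2, hΦ3, hΦZ, hΦB⟩ := Nanco.dict D hn
    obtain ⟨a, rfl⟩ := exists_toDF hα.1
    have hz : a ∈ ZF n M 2 := closed_toDF.1 hα
    obtain ⟨f, hf⟩ := hΦ3 2 a hz.1
    have hfz : (f : Fk _ D.C.A) ∈ Zp D.C 2 := (hΦZ 2 f).2 (hf ▸ hz)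
    have hfB : (f : Fk _ D.C.A) ∉ Bp D.C 2 := by
      intro h
      apply hex
      have h7 := (hΦB 1 f).1 h
      rw [hf] at h7
      exact exact_toDF.2 h7
    have ha : ∀ (x : M) (v : Fin 2 → TangentSpace (𝓡 n) x), toDF a x v =
        phi 2 (fun i => Drf.Lm D x (v i)) (evF D.C x (f : Fk _ D.C.A)) := fun x v => by
      show a x v = _
      rw [← hf]
      exact hΦ1 2 f x v
    have key : ∀ k : ℕ, 2 * k ≤ n → ∃ w : Fk (2 * n) D.C.A, w ∈ Zp D.C (2 * k) ∧
        w ∉ Bp D.C (2 * k) ∧ ∀ (x : M) (v : Fin (2 * k) → TangentSpace (𝓡 n) x),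
          pw (toDF a) k x v = phi (2 * k) (fun i => Drf.Lm D x (v i)) (evF D.C x w) := by
      intro k
      induction k with
      | zero =>
        intro _
        exact ⟨vac, vac_mem D.C, vac_ne D.C, fun x v => (evF_vac_one D.C x).symm⟩
      | succ k ih =>
        intro hk
        obtain ⟨w, w1, w2, w3⟩ := ih (by omega)
        refine ⟨dg (2 * k + 2) (mulF (f : Fk _ D.C.A) w), dg_mem h6 D.C hfz w1,
          q4 k (by omega) f hfz w w1 hfB w2, ?_⟩
        exact wedge_eq D h5 hfz.1.2 w1.1.2 ha w3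
    intro k hk
    obtain ⟨w, w1, w2, w3⟩ := key k hk
    have hw : pw (toDF a) k = toDF (Φ (2 * k) ⟨w, w1.1⟩) := by
      funext x v
      rw [w3 x v]
      exact (hΦ1 (2 * k) ⟨w, w1.1⟩ x v).symm
    refine ⟨?_, ?_⟩
    · rw [hw]
      exact closed_toDF.2 ((hΦZ (2 * k) ⟨w, w1.1⟩).1 w1)
    · cases k with
      | zero =>
        intro h
        obtain ⟨x⟩ := (inferInstance : Nonempty M)
        have h8 : (1 : ℝ) = 0 := h x (fun i => i.elim0)
        exact one_ne_zero h8
      | succ k =>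
        intro h
        rw [hw] at h
        exact w2 ((hΦB (2 * k + 1) ⟨w, w1.1⟩).2 (exact_toDF.1 h))

end Pool.Agent.H781.KP
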