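import Pool.Agent.H781.KP.AllR
import Pool.Agent.H781.KP.Mainr
import Pool.Agent.H781.KP.Cpr

/-!
Assembly of the theorem on the cohomology ring.
-/

set_option autoImplicit false

namespace Pool.Agent.H781.KP

open Pool.Agent.H781.CM Pool.Agent.H781.H6

theorem mainr : S_MAINR := s_mainr chir gdu (s_pkx s_frm) s_gconn phw2 wdg

end Pool.Agent.H781.KP
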