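import Pool.Agent.H781.KP.R
import Pool.Agent.H781.CM.App
import Pool.Agent.H781.CM.Bo
import Pool.Agent.H781.CM.Base

/-!
Project KR, task Appr (helper962): existence of good points, with explicit data. The proof follows
KP/Appk.lean (helper166).
-/

set_option autoImplicit false
set_option synthInstance.maxHeartbeats 400000
set_option maxHeartbeats 4000000
set_option linter.unusedSectionVars false

open MeasureTheory Filter
open scoped Topology ContDiff

noncomputable section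

namespace Pool.Agent.H781.KP

open Pool.Agent.H781.NG Pool.Agent.H781.CM Pool.Agent.H781.H6

open Pool.Agent.H781.CM.App in
/-- existence of good points -/
theorem s_appr (h1 : S_SPEC) (h2 : S_ENER) (h3 : S_GRAM) (h4 : S_PROD) (h5 : S_CLIN)
    (h6 : S_DDH) (h7 : S_RICH) (h8 : S_PRD) : S_APPR := by
  classical
  intro N hN η K hη hK
  set ρ₀ : ℝ := min 1 (min η (η ^ 2 / (6 * 2 ^ N))) with hρ₀d
  have hρ₀ : 0 < ρ₀ := lt_min one_pos (lt_min hη (by positivity))
  have hρ1 : ρ₀ ≤ 1 := min_le_left _ _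
  have hρη : ρ₀ ≤ η := (min_le_right _ _).trans (min_le_left _ _)
  have hρη2 : 6 * 2 ^ N * ρ₀ ≤ η ^ 2 := by
    have : ρ₀ ≤ η ^ 2 / (6 * 2 ^ N) := (min_le_right _ _).trans (min_le_right _ _)
    rw [le_div_iff₀ (by positivity)] at this
    linarith
  obtain ⟨δ, hδ, hδρ, hδK, hδη⟩ : ∃ δ : ℝ, 0 < δ ∧
      4 ^ N * (4 * √(K * δ) + 36 * N * 2 ^ N * δ) + 2 ^ N * δ ≤ ρ₀ ∧ K * δ ≤ 1 / 16 ∧
      9 * 2 ^ N * √(K * δ) ≤ η := by
    have hc : Continuous fun δ : ℝ => (4 : ℝ) ^ N * (4 * √(K * δ) + 36 * N * 2 ^ N * δ) +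
        2 ^ N * δ := by
      fun_prop
    have hev : ∀ᶠ δ : ℝ in 𝓝 0, (4 : ℝ) ^ N * (4 * √(K * δ) + 36 * N * 2 ^ N * δ) +
        2 ^ N * δ < ρ₀ := by
      apply hc.continuousAt.eventually_lt continuousAt_const
      simpa using hρ₀
    have hev' : ∀ᶠ δ : ℝ in 𝓝[>] 0, (4 : ℝ) ^ N * (4 * √(K * δ) + 36 * N * 2 ^ N * δ) +
        2 ^ N * δ < ρ₀ :=
      hev.filter_mono nhdsWithin_le_nhds
    have hc2 : Continuous fun δ : ℝ => K * δ := by fun_prop
    have hev2 : ∀ᶠ δ : ℝ in 𝓝 0, K * δ < 1 / 16 := by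
      apply hc2.continuousAt.eventually_lt continuousAt_const
      rw [mul_zero]
      norm_num
    have hev2' : ∀ᶠ δ : ℝ in 𝓝[>] 0, K * δ < 1 / 16 := hev2.filter_mono nhdsWithin_le_nhds
    have hc3 : Continuous fun δ : ℝ => 9 * (2 : ℝ) ^ N * √(K * δ) := by fun_prop
    have hev3 : ∀ᶠ δ : ℝ in 𝓝 0, 9 * (2 : ℝ) ^ N * √(K * δ) < η := by
      apply hc3.continuousAt.eventually_lt continuousAt_const
      rw [mul_zero, Real.sqrt_zero, mul_zero]
      exact hη
    have hev3' : ∀ᶠ δ : ℝ in 𝓝[>] 0, 9 * (2 : ℝ) ^ N * √(K * δ) < η :=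
      hev3.filter_mono nhdsWithin_le_nhds
    obtain ⟨δ, ⟨⟨hδ1, hδK⟩, hδη⟩, hδ2⟩ :=
      (((hev'.and hev2').and hev3').and self_mem_nhdsWithin).exists
    exact ⟨δ, hδ2, hδ1.le, hδK.le, hδη.le⟩
  refine ⟨δ, hδ, ?_⟩
  intro M _ _ _ _ C ε t t' hε hcurv hmoll hdense hreg hpoin ht htt' hE hτ hτ' hvac hrank
  obtain ⟨hfin, hEv, -, -, -, hdpt⟩ := h1 M N C hmoll hdense hreg t ht
  obtain ⟨-, -, hgap, -, -, -⟩ := h1 M N C hmoll hdense hreg t' (ht.trans_le htt')
  obtain ⟨-, -, -, -, -, -, -, -, -, -, hsym, hdd, -⟩ := h6 M N C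
  rw [hE] at hgap
  set τ := t + ε * N ^ 2 with hτd
  have hτ0 : 0 ≤ τ := by positivity
  have hen : ∀ u ∈ Ev C t, nq C u = 1 → en C u ≤ τ := by
    intro u hu hn
    have q1 := (h2 M N C).2 ε hε hcurv u (hEv u hu).1
    have q2 := (hEv u hu).2.2
    rw [hn] at q1 q2
    linarith
  obtain ⟨u, hmem, horth, hspan, hcard⟩ := basis C hfin hdpt
  have hmemE : ∀ x, u x ∈ Ev C t := fun x => (hmem x).1
  have hn1 : ∀ x, nq C (u x) = 1 := fun x => by
    have := horth x x
    rwa [if_pos rfl, pr_self] at this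
  have hw : ∀ x y, ∃ w : Fk N C.A, Hor C w ∧ nq C w ≤ 2 ^ N ∧
      nq C (DD C w) ≤ 36 * N * 2 ^ N * τ ∧
      ∀ p, ∀ S, C.ev p (w S) = mulF (fun T => 2 / (1 + C.ev p (ip (u x) (u x))) *
        C.ev p (u x T)) (fun T => 2 / (1 + C.ev p (ip (u y) (u y))) * C.ev p (u y T)) S :=
    fun x y => h4 M N C τ (u x) (u y) (hEv _ (hmemE x)).1 (hEv _ (hmemE y)).1
      (hen _ (hmemE x) (hn1 x)) (hen _ (hmemE y) (hn1 y))
  choose w hwH hwn hwD hwp using hw
  set c : (Σ p : Fin (N + 1), Fin (Module.finrank ℝ (Evp C t p))) →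
    (Σ p : Fin (N + 1), Fin (Module.finrank ℝ (Evp C t p))) →
    (Σ p : Fin (N + 1), Fin (Module.finrank ℝ (Evp C t p))) → ℝ :=
    fun x y z => pr C (w x y) (u z) with hc
  set r : (Σ p : Fin (N + 1), Fin (Module.finrank ℝ (Evp C t p))) →
    (Σ p : Fin (N + 1), Fin (Module.finrank ℝ (Evp C t p))) → Fk N C.A :=
    fun x y => w x y - ∑ z, c x y z • u z with hr
  have hcb : ∀ x y z, |c x y z| ≤ 2 ^ N := by
    intro x y z
    have q1 := pr_sq_le C (w x y) (u z)
    rw [hn1, mul_one] at q1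
    have q2 : c x y z ^ 2 ≤ (2 ^ N) ^ 2 := by
      refine (q1.trans (hwn x y)).trans ?_
      have : (1 : ℝ) ≤ 2 ^ N := one_le_pow₀ (by norm_num)
      nlinarith
    exact abs_le_of_sq_le_sq q2 (by positivity)
  have hsumE : ∀ x y, ∑ z, c x y z • u z ∈ Ev C t := fun x y =>
    Submodule.sum_mem _ fun z _ => Submodule.smul_mem _ _ (hmemE z)
  have hru : ∀ x y z, pr C (u z) (r x y) = 0 := by
    intro x y z
    rw [hr]
    simp only
    rw [pr_sub_right]
    have q1 : pr C (u z) (∑ z', c x y z' • u z') = ∑ z', c x y z' * pr C (u z) (u z') := by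
      have h5 : pr C (u z) (∑ z', c x y z' • u z') = prL C (u z) (∑ z', c x y z' • u z') := rfl
      rw [h5, map_sum]
      exact Finset.sum_congr rfl fun z' _ => pr_smul_right C _ _ _
    rw [q1]
    simp_rw [horth]
    simp only [mul_ite, mul_one, mul_zero, Finset.sum_ite_eq, Finset.mem_univ, if_true]
    rw [hc]
    simp only
    rw [pr_comm, sub_self]
  have hrE : ∀ x y, ∀ v ∈ Ev C t, pr C v (r x y) = 0 := by
    intro x y v hv
    have h7 := hspan v hv
    refine Submodule.span_induction (p := fun v _ => pr C v (r x y) = 0) ?_ ?_ ?_ ?_ h7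
    · rintro _ ⟨z, rfl⟩
      exact hru x y z
    · exact pr_zero_left C _
    · intro a b _ _ ha hb
      rw [pr_add_left, ha, hb, add_zero]
    · intro k a _ ha
      rw [pr_smul_left, ha, mul_zero]
  have hrH : ∀ x y, Hor C (r x y) := fun x y =>
    (HorS C).sub_mem (hwH x y) ((hEv _ (hsumE x y)).1)
  have hrn : ∀ x y, nq C (r x y) ≤ 36 * N * 2 ^ N * δ := by
    intro x y
    have q1 := hgap (r x y) (hrH x y) (hrE x y)
    have q2 : nq C (DD C (r x y)) ≤ nq C (DD C (w x y)) := by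
      have e1 : w x y = r x y + ∑ z, c x y z • u z := by
        rw [hr]
        simp only
        rw [sub_add_cancel]
      have e2 : DD C (w x y) = DD C (r x y) + DD C (∑ z, c x y z • u z) := by
        conv_lhs => rw [e1]
        exact map_add (DDL C) _ _
      have e3 : pr C (DD C (r x y)) (DD C (∑ z, c x y z • u z)) = 0 := by
        rw [hsym, pr_comm]
        apply hrE
        exact (hEv _ (hEv _ (hsumE x y)).2.1).2.1
      rw [e2, nq_add, e3]
      have := nq_nonneg C (DD C (∑ z, c x y z • u z))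
      linarith
    have q3 : t' * nq C (r x y) ≤ t' * (36 * N * 2 ^ N * δ) := by
      have q4 : (36 * N * 2 ^ N : ℝ) * τ ≤ 36 * N * 2 ^ N * (δ * t') := by gcongr
      have := hwD x y
      calc t' * nq C (r x y) ≤ 36 * N * 2 ^ N * (δ * t') := by linarith
        _ = _ := by ring
    exact le_of_mul_le_mul_left q3 (ht.trans_le htt')
  -- the Gram matrix
  have hgram : ∀ x y, ∫ p, |C.ev p (ip (u x) (u y)) - if x = y then 1 else 0| ∂C.μ ≤
      4 * √(K * δ) := by
    intro x y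
    have hKδ : 4 * √(K * τ) ≤ 4 * √(K * δ) := by gcongr
    refine le_trans ?_ hKδ
    obtain ⟨g1, g2⟩ := h3 M N C K τ hK hτ0 hpoin
    by_cases hxy : x = y
    · subst hxy
      simp only [if_true]
      exact g1 (u x) (hn1 x) (hen _ (hmemE x) (hn1 x))
    · simp only [if_neg hxy, sub_zero]
      refine g2 (u x) (u y) (hn1 x) (hn1 y) ?_ (hen _ (hmemE x) (hn1 x))
        (hen _ (hmemE y) (hn1 y))
      rw [horth, if_neg hxy]
  -- the Weitzenboeck terms
  have hricnn : ∀ x p, 0 ≤ C.ev p (ric C.F (u x)) + ε * N ^ 2 * C.ev p (ip (u x) (u x)) := by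
    intro x p
    have := h7 M N C ε hε hcurv (u x) (hEv _ (hmemE x)).1 p
    linarith
  have hricint : ∀ x, Integrable (fun p => C.ev p (ric C.F (u x)) +
      ε * N ^ 2 * C.ev p (ip (u x) (u x))) C.μ := fun x =>
    (int_ev C _).add ((int_ev C _).const_mul _)
  have hricle : ∀ x, ∫ p, (C.ev p (ric C.F (u x)) +
      ε * N ^ 2 * C.ev p (ip (u x) (u x))) ∂C.μ ≤ δ := by
    intro x
    have e1 : ∫ p, (C.ev p (ric C.F (u x)) + ε * N ^ 2 * C.ev p (ip (u x) (u x))) ∂C.μ =
        ig C (ric C.F (u x)) + ε * N ^ 2 * nq C (u x) := by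
      rw [integral_add (int_ev C _) ((int_ev C _).const_mul _), integral_const_mul]
      rfl
    have e2 := bochner C (u x)
    have e3 := hdd (u x) (hEv _ (hmemE x)).1
    have e4 := (hEv _ (hmemE x)).2.2
    have e5 := en_nonneg C (u x)
    rw [hn1] at e4
    rw [e1, hn1]
    linarith
  -- the point
  set f0 : M → ℝ := fun p => ∑ x, ∑ y, (|C.ev p (ip (u x) (u y)) - if x = y then 1 else 0| +
    C.ev p (ip (r x y) (r x y))) with hf0
  set f1 : M → ℝ := fun p => ∑ x, (C.ev p (ric C.F (u x)) +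
    ε * N ^ 2 * C.ev p (ip (u x) (u x))) with hf1
  have hint1 : ∀ x y, Integrable (fun p => |C.ev p (ip (u x) (u y)) - if x = y then 1 else 0|)
      C.μ := fun x y => int_cont C (((C.cont _).sub continuous_const).abs)
  have hint2 : ∀ x y, Integrable (fun p => C.ev p (ip (r x y) (r x y))) C.μ := fun x y =>
    int_ev C _
  have hint : ∀ x y, Integrable (fun p => |C.ev p (ip (u x) (u y)) - if x = y then 1 else 0| +
      C.ev p (ip (r x y) (r x y))) C.μ := fun x y => (hint1 x y).add (hint2 x y)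
  have hf0int : Integrable f0 C.μ := by
    rw [hf0]
    exact integrable_finsetSum _ fun x _ => integrable_finsetSum _ fun y _ => hint x y
  have hf1int : Integrable f1 C.μ := by
    rw [hf1]
    exact integrable_finsetSum _ fun x _ => hricint x
  set m : ℕ := Fintype.card (Σ p : Fin (N + 1), Fin (Module.finrank ℝ (Evp C t p))) with hmd
  have hm : (m : ℝ) ≤ 2 ^ N := by exact_mod_cast hcard.trans hrank
  have hf1le : ∫ p, f1 p ∂C.μ ≤ 2 ^ N * δ := by
    have e1 : ∫ p, f1 p ∂C.μ = ∑ x, ∫ p, (C.ev p (ric C.F (u x)) +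
        ε * N ^ 2 * C.ev p (ip (u x) (u x))) ∂C.μ := by
      rw [hf1]
      exact integral_finsetSum _ fun x _ => hricint x
    rw [e1]
    refine (Finset.sum_le_sum fun x _ => hricle x).trans ?_
    rw [Finset.sum_const, Finset.card_univ, nsmul_eq_mul]
    exact mul_le_mul_of_nonneg_right hm hδ.le
  have hf0le : ∫ p, f0 p ∂C.μ ≤ 4 ^ N * (4 * √(K * δ) + 36 * N * 2 ^ N * δ) := by
    have e1 : ∫ p, f0 p ∂C.μ = ∑ x, ∑ y,
        ((∫ p, |C.ev p (ip (u x) (u y)) - if x = y then 1 else 0| ∂C.μ) +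
          ∫ p, C.ev p (ip (r x y) (r x y)) ∂C.μ) := by
      rw [hf0]
      rw [integral_finsetSum _ fun x _ => integrable_finsetSum _ fun y _ => hint x y]
      refine Finset.sum_congr rfl fun x _ => ?_
      rw [integral_finsetSum _ fun y _ => hint x y]
      exact Finset.sum_congr rfl fun y _ => integral_add (hint1 x y) (hint2 x y)
    rw [e1]
    have e2 : ∀ x y, ((∫ p, |C.ev p (ip (u x) (u y)) - if x = y then 1 else 0| ∂C.μ) +
          ∫ p, C.ev p (ip (r x y) (r x y)) ∂C.μ) ≤ 4 * √(K * δ) + 36 * N * 2 ^ N * δ :=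
      fun x y => add_le_add (hgram x y) (hrn x y)
    refine (Finset.sum_le_sum fun x _ => Finset.sum_le_sum fun y _ => e2 x y).trans ?_
    rw [Finset.sum_const, Finset.sum_const, Finset.card_univ, nsmul_eq_mul, nsmul_eq_mul]
    have hx : 0 ≤ 4 * √(K * δ) + 36 * N * 2 ^ N * δ := by positivity
    calc (m : ℝ) * (m * (4 * √(K * δ) + 36 * N * 2 ^ N * δ))
        ≤ 2 ^ N * (2 ^ N * (4 * √(K * δ) + 36 * N * 2 ^ N * δ)) := by gcongr
      _ = 4 ^ N * (4 * √(K * δ) + 36 * N * 2 ^ N * δ) := by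
          rw [← mul_assoc, ← mul_pow]
          norm_num
  have hfint : Integrable (fun p => f0 p + f1 p) C.μ := hf0int.add hf1int
  have hfle : ∫ p, (f0 p + f1 p) ∂C.μ ≤ ρ₀ := by
    rw [integral_add hf0int hf1int]
    linarith
  obtain ⟨q, hq⟩ := exists_le_integral hfint
  have hq0 : f0 q + f1 q ≤ ρ₀ := hq.trans hfle
  have hf1nn : 0 ≤ f1 q := Finset.sum_nonneg fun x _ => hricnn x q
  have hf0nn : 0 ≤ f0 q := by
    refine Finset.sum_nonneg fun x _ => Finset.sum_nonneg fun y _ => ?_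
    have : 0 ≤ C.ev q (ip (r x y) (r x y)) := by
      rw [ev_ip]
      exact ip_self_nonneg _
    positivity
  have hq' : f0 q ≤ ρ₀ := by linarith
  have hq1 : f1 q ≤ ρ₀ := by linarith
  have hricq : ∀ x, C.ev q (ric C.F (u x)) ≤ ρ₀ := by
    intro x
    have e1 : C.ev q (ric C.F (u x)) + ε * N ^ 2 * C.ev q (ip (u x) (u x)) ≤ f1 q :=
      Finset.single_le_sum (f := fun x => C.ev q (ric C.F (u x)) +
        ε * N ^ 2 * C.ev q (ip (u x) (u x))) (fun x _ => hricnn x q) (Finset.mem_univ x)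
    have e2 : 0 ≤ ε * N ^ 2 * C.ev q (ip (u x) (u x)) := by
      rw [ev_ip]
      have := ip_self_nonneg (evF C q (u x))
      positivity
    linarith
  have hterm : ∀ x y, |C.ev q (ip (u x) (u y)) - if x = y then 1 else 0| +
      C.ev q (ip (r x y) (r x y)) ≤ ρ₀ := by
    intro x y
    have hnn : ∀ x y, 0 ≤ |C.ev q (ip (u x) (u y)) - if x = y then 1 else 0| +
        C.ev q (ip (r x y) (r x y)) := fun x y => by
      have : 0 ≤ C.ev q (ip (r x y) (r x y)) := by
        rw [ev_ip]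
        exact ip_self_nonneg _
      positivity
    refine le_trans ?_ hq'
    have e1 := Finset.single_le_sum (f := fun y => |C.ev q (ip (u x) (u y)) -
      if x = y then 1 else 0| + C.ev q (ip (r x y) (r x y))) (fun y _ => hnn x y)
      (Finset.mem_univ y)
    have e2 := Finset.single_le_sum (f := fun x => ∑ y, (|C.ev q (ip (u x) (u y)) -
      if x = y then 1 else 0| + C.ev q (ip (r x y) (r x y))))
      (fun x _ => Finset.sum_nonneg fun y _ => hnn x y) (Finset.mem_univ x)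
    exact e1.trans e2
  have hG : ∀ x y, |ip (evF C q (u x)) (evF C q (u y)) - if x = y then 1 else 0| ≤ ρ₀ := by
    intro x y
    have q1 := hterm x y
    rw [ev_ip, ev_ip] at q1
    have := ip_self_nonneg (evF C q (r x y))
    linarith
  have hR : ∀ x y, ip (evF C q (r x y)) (evF C q (r x y)) ≤ ρ₀ := by
    intro x y
    have q1 := hterm x y
    rw [ev_ip C q (r x y)] at q1
    have := abs_nonneg (C.ev q (ip (u x) (u y)) - if x = y then 1 else 0)
    linarith
  have hwq : ∀ x y, evF C q (w x y) = mulF (tr (evF C q (u x))) (tr (evF C q (u y))) := by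
    intro x y
    funext S
    show C.ev q (w x y S) = _
    rw [hwp x y q S, ev_ip, ev_ip]
    rfl
  have hετ : ε * N ^ 2 ≤ τ := by
    rw [hτd]
    linarith
  have hsm : K * (ε * N ^ 2) ≤ K * δ := mul_le_mul_of_nonneg_left (hετ.trans hτ) hK
  have hOB : ∀ x y z, DD C (u x) = 0 → DD C (u y) = 0 → DD C (u z) = 0 →
      |c x y z - pr C (mulF (u x) (u y)) (u z)| ≤ η := by
    intro x y z hx hy hz
    have e1 := h8 M N C K ε hK hε hcurv hpoin (hsm.trans hδK) x.1 y.1 z.1 (u x) (u y) (u z)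
      (w x y) (hEv _ (hmemE x)).1 (hEv _ (hmemE y)).1 (hEv _ (hmemE z)).1 (hmem x).2 (hmem y).2
      (hmem z).2 hx hy hz (hn1 x) (hn1 y) (hn1 z) (hwp x y)
    refine le_trans e1 (le_trans ?_ hδη)
    have e2 : √(K * (ε * N ^ 2)) ≤ √(K * δ) := Real.sqrt_le_sqrt hsm
    exact mul_le_mul_of_nonneg_left e2 (by positivity)
  refine ⟨q, u, c, ⟨fun x => (hEv _ (hmemE x)).1, fun x => (hmem x).2, ?_, ?_, ?_, hcb, ?_,
    fun x => (hricq x).trans hρη⟩, hmem, horth, hOB⟩
  · show Module.finrank ℝ (Evp C t 0) = 1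
    refine finrank_eq_one (⟨vac, vac_mem C ht⟩ : Evp C t 0) ?_ ?_
    · intro h
      have h7 : (vac : Fk N C.A) = 0 := congrArg Subtype.val h
      have h8 := nq_vac C
      rw [h7] at h8
      have h9 : nq C (0 : Fk N C.A) = 0 := pr_zero_left C 0
      rw [h9] at h8
      exact zero_ne_one h8
    · rintro ⟨v, hv⟩
      obtain ⟨k, hk⟩ := hvac v hv
      exact ⟨k, Subtype.ext hk.symm⟩
  · intro i
    have hmem0 : u ⟨0, i⟩ ∈ Evp C t 0 := hmem ⟨0, i⟩
    obtain ⟨k, hk⟩ := hvac _ hmem0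
    have h7 := hn1 ⟨0, i⟩
    rw [hk, nq_smul, nq_vac, mul_one] at h7
    have h8 : k = 1 ∨ k = -1 := mul_self_eq_one_iff.1 (by rw [← pow_two]; exact h7)
    show evF C q (u ⟨0, i⟩) = vac ∨ evF C q (u ⟨0, i⟩) = -vac
    rw [hk, evF_smulR, evF_vac]
    rcases h8 with h8 | h8
    · left
      rw [h8, one_smul]
    · right
      rw [h8, neg_one_smul]
  · intro x y
    exact (hG x y).trans hρη
  · intro x y S
    have e1 : mulF (evF C q (u x)) (evF C q (u y)) - ∑ z, c x y z • evF C q (u z) =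
        mulF (evF C q (u x)) (evF C q (u y)) - mulF (tr (evF C q (u x))) (tr (evF C q (u y))) +
          evF C q (r x y) := by
      have e2 : evF C q (r x y) = evF C q (w x y) - ∑ z, c x y z • evF C q (u z) := by
        rw [hr]
        simp only
        rw [evF_sub, evF_sum]
        simp_rw [evF_smulR]
      rw [e2, hwq]
      abel
    have hxx := hG x x
    have hyy := hG y y
    rw [if_pos rfl] at hxx hyy
    have e3 := est h5 hρ₀.le hρ1 (evF C q (u x)) (evF C q (u y)) (evF C q (r x y)) hxx hyy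
      (hR x y) S
    rw [← e1] at e3
    exact abs_le_of_sq_le_sq (e3.trans hρη2) hη.le

end Pool.Agent.H781.KP
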