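import Pool.Agent.H781.KP.R
import Pool.Agent.H781.KP.Kax

/-!
Project KR: transfer of the good points to the exterior algebra of `ℝⁿ`, with explicit constants
(`S_KAXC`; the proof is that of `S_KAX`).
-/

set_option autoImplicit false
set_option synthInstance.maxHeartbeats 400000
set_option maxHeartbeats 4000000
set_option linter.unusedSectionVars false

open MeasureTheory Filter
open scoped Topology ContDiff

noncomputable section

namespace Pool.Agent.H781.KP

open Pool.Agent.H781.NG Pool.Agent.H781.CM Pool.Agent.H781.H6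

open Kax in
theorem s_kaxc (h1 : S_TAU) (h2 : S_RCT) (h3 : S_TMUL) (h4 : S_RMP) : S_KAXC := by
  intro N n κ η hη
  have h2N : (1 : ℝ) ≤ 2 ^ N := one_le_pow₀ (by norm_num)
  have h2N0 : (0 : ℝ) < 2 ^ N := by positivity
  have hηle : η / 2 ^ N ≤ η := div_le_self hη.le h2N
  refine ⟨η / 2 ^ N, by positivity, ?_⟩
  intro M _ _ _ _ C d q u c hcurv hpt hGP
  obtain ⟨hH, hD, hd0, hv0, hip, hc, hm, hric⟩ := hGP
  obtain ⟨b, hb, hP, hAC, hK⟩ := hpt q
  obtain ⟨τ, hτ⟩ := h1 N n b hb
  obtain ⟨φ, hφ⟩ : ∃ φ : C.A →+* ℝ, ∀ g, φ g = C.ev q g :=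
    ⟨(C.ev q : C.A →ₐ[ℝ] ℝ).toRingHom, fun _ => rfl⟩
  have hmp : ∀ w : Fk N C.A, evq C q w = mp φ w := fun w => funext fun S => (hφ (w S)).symm
  have hrange : ∀ x, ∃ a', τ a' = evq C q (u x) := by
    intro x
    refine hτ.range _ fun c' => ?_
    rw [hmp, mp_an, hH x c']
    funext S
    show φ ((∑ a, C.P c' a • NG.an a (u x)) S) =
      (∑ a, (∑ i, b i c' * b i a) • NG.an a (mp φ (u x))) S
    rw [Finset.sum_apply, Finset.sum_apply, map_sum]
    refine Finset.sum_congr rfl fun a _ => ?_
    rw [Pi.smul_apply, Pi.smul_apply, smul_eq_mul, smul_eq_mul, map_mul, mp_an, ← hP c' a, hφ]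
    rfl
  choose a ha using hrange
  have hinj : ∀ s t : Fk n ℝ, τ s = τ t → s = t := by
    intro s t hst
    have e1 : NG.ip (s - t) (s - t) = 0 := by
      rw [← hτ.ip, map_sub, hst, sub_self, ip_zero_left]
    funext S
    have e2 := le_ip (s - t) S
    rw [e1] at e2
    have e3 : (s - t) S = 0 := by
      have := sq_nonneg ((s - t) S)
      have e4 : (s - t) S ^ 2 = 0 := le_antisymm e2 this
      exact pow_eq_zero_iff (two_ne_zero) |>.1 e4
    have e5 : s S - t S = 0 := e3
    linarith
  obtain ⟨r1, r2, r3, r4⟩ := h4 M N C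
  refine ⟨a, Rb C q b, ?_, hd0, ?_, ?_, hc, ?_, hAC, ?_, hK, ?_⟩
  · intro x
    rw [← hτ.deg, ha]
    intro S hS
    show C.ev q (u x S) = 0
    rw [hD x S hS, map_zero]
  · intro i
    rcases hv0 i with h5 | h5
    · left
      apply hinj
      rw [ha, h5, hτ.vac]
    · right
      apply hinj
      rw [ha, h5, map_neg, hτ.vac]
  · intro x y
    rw [← hτ.ip, ha, ha]
    exact (hip x y).trans hηle
  · intro x y S
    have e1 : τ (mulF (a x) (a y) - ∑ z, c x y z • a z) =
        mulF (evq C q (u x)) (evq C q (u y)) - ∑ z, c x y z • evq C q (u z) := by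
      rw [map_sub, h3 N n b τ hτ, ha, ha, map_sum]
      congr 1
      refine Finset.sum_congr rfl fun z _ => ?_
      rw [map_smul, ha]
    have e2 := le_ip (mulF (a x) (a y) - ∑ z, c x y z • a z) S
    rw [← hτ.ip, e1] at e2
    have e3 := e2.trans (ip_le (hm x y))
    have e4 : (2 : ℝ) ^ N * (η / 2 ^ N) ^ 2 ≤ η ^ 2 := by
      have e5 : (2 : ℝ) ^ N * (η / 2 ^ N) ^ 2 = η * (η / 2 ^ N) := by
        field_simp
      rw [e5, sq]
      exact mul_le_mul_of_nonneg_left hηle hη.le
    exact abs_le_of_sq_le_sq (e3.trans e4) hη.le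
  · intro w hw
    have e1 := hcurv q (WW b w) (WW_skew b hw) (fun a' e' => by
      rw [← WW_P hb w a' e']
      exact Finset.sum_congr rfl fun c' _ => by rw [hP a' c'])
    rw [WW_sq hb w, WW_R b w fun a b c d => C.ev q (Rm C.F a b c d)] at e1
    exact e1
  · intro x
    have e1 : C.ev q (ric C.F (u x)) = rc (Rq C q) (evq C q (u x)) := by
      rw [← hφ, mp_ric φ C.F (u x), hmp]
      unfold rc Rq
      simp only [hφ]
    have e2 := h2 N n b τ (Rq C q) hτ (by
      intro a' e' c' d'
      have h5 : ∀ f, (∑ i, b i e' * b i f) * Rq C q a' f c' d' =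
          - C.ev q (C.P e' f * Rm C.F f a' c' d') := by
        intro f
        unfold Rq
        rw [← hP e' f, map_mul, r3 a' f c' d', map_neg]
        ring
      rw [Finset.sum_congr rfl fun f _ => h5 f, Finset.sum_neg_distrib, ← map_sum, r2]
      unfold Rq
      rw [r3 a' e' c' d', map_neg]) (by
      intro a' e' c' d'
      have h5 : ∀ f, (∑ i, b i c' * b i f) * Rq C q a' e' f d' =
          C.ev q (C.P c' f * Rm C.F a' e' f d') := by
        intro f
        unfold Rq
        rw [← hP c' f, map_mul]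
      have h6 : ∀ f, (∑ i, b i d' * b i f) * Rq C q a' e' c' f =
          C.ev q (C.P d' f * Rm C.F a' e' c' f) := by
        intro f
        unfold Rq
        rw [← hP d' f, map_mul]
      rw [Finset.sum_congr rfl fun f _ => h5 f, Finset.sum_congr rfl fun f _ => h6 f,
        ← map_sum, ← map_sum, r1]) (a x)
    have e3 : rc (Rb C q b) (a x) = C.ev q (ric C.F (u x)) := by
      rw [e1, ← ha, e2]
      rfl
    rw [e3]
    exact (hric x).trans hηle

end Pool.Agent.H781.KP
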