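import Pool.Agent.H781.KP.R
import Pool.Agent.H781.CM.Base
import Pool.Agent.H781.CM.Bo
import Pool.Agent.H781.DF.Ken

/-!
Project KP, cohomology ring: moments of the length of a harmonic form.
-/

set_option autoImplicit false
set_option synthInstance.maxHeartbeats 400000
set_option maxHeartbeats 4000000
set_option linter.unusedSectionVars false

open MeasureTheory Filter
open scoped Topology ContDiff

noncomputable section

namespace Pool.Agent.H781.KP

open Pool.Agent.H781.NG Pool.Agent.H781.CM Pool.Agent.H781.H6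

namespace Mom

variable {M : Type} [TopologicalSpace M] [CompactSpace M] [MeasurableSpace M] [BorelSpace M]
  {N : ℕ} (C : CD M N)

theorem ev_ip_nonneg (h : Fk N C.A) (q : M) : 0 ≤ C.ev q (ip h h) := by
  rw [ev_ip]
  exact ip_self_nonneg _

/-- the Bochner inequality with a nonnegative weight -/
theorem weight (h1 : S_DDH) (h2 : S_RICH) {ε : ℝ} (hε : 0 ≤ ε) (hc : CurvGE C ε)
    {h : Fk N C.A} (hH : Hor C h) (hD : DD C h = 0) (ψ : C.A) (hψ : ∀ q, 0 ≤ C.ev q ψ) :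
    ig C (∑ a, C.F.e a ψ * C.F.e a (ip h h)) ≤ 2 * (ε * N ^ 2) * ig C (ψ * ip h h) := by
  have hk := DF.Ken.key C h1 h hH hD ψ
  have e1 : ig C (∑ a, C.F.e a ψ * C.F.e a (ip h h)) ≤ 2 * ∑ a, ig C (DF.Ken.Z C ψ h a) := by
    rw [← ig_sum, ← ig_smul]
    refine ig_mono C fun q => ?_
    rw [ev_smul, ev_sum, ev_sum, Finset.mul_sum]
    refine Finset.sum_le_sum fun a _ => ?_
    rw [DF.Ken.e_self]
    unfold DF.Ken.Z
    have := mul_nonneg (hψ q) (ev_ip_nonneg C (nab C.F a h) q)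
    simp only [map_add, map_mul, map_ofNat]
    linarith
  have e2 : - (ε * N ^ 2) * ig C (ψ * ip h h) ≤ ig C (ψ * ric C.F h) := by
    rw [← ig_smul]
    refine ig_mono C fun q => ?_
    rw [ev_smul, map_mul, map_mul]
    have := mul_le_mul_of_nonneg_left (h2 M N C ε hε hc h hH q) (hψ q)
    linarith
  linarith

theorem e_sq (s : C.A) (a : Fin N) : C.F.e a (s ^ 2) = 2 * s * C.F.e a s := by
  rw [Derivation.leibniz_pow]
  simp only [smul_eq_mul, nsmul_eq_mul]
  push_cast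
  ring

theorem e_cu (s : C.A) (a : Fin N) : C.F.e a (s ^ 3) = 3 * s ^ 2 * C.F.e a s := by
  rw [Derivation.leibniz_pow]
  simp only [smul_eq_mul, nsmul_eq_mul]
  push_cast
  ring

theorem cube (s : C.A) :
    4 * ig C (∑ a, C.F.e a (s ^ 3) * C.F.e a s) = 3 * ig C (gsq C (s ^ 2)) := by
  rw [← ig_smul, ← ig_smul]
  congr 1
  unfold gsq
  rw [Finset.smul_sum, Finset.smul_sum]
  refine Finset.sum_congr rfl fun a _ => ?_
  rw [e_sq, e_cu, Algebra.smul_def, Algebra.smul_def, map_ofNat, map_ofNat]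
  ring

/-- the numbers -/
theorem nums {k A B G H : ℝ} (hk0 : 0 ≤ k) (hk : k ≤ 1 / 16) (hA : 0 ≤ A) (hB : 0 ≤ B)
    (h1 : A - 1 ^ 2 ≤ G) (h2 : G ≤ 2 * k * A) (h3 : B - A ^ 2 ≤ H) (h4 : 3 * H ≤ 8 * k * B) :
    B ≤ 2 ∧ A - 1 ≤ 4 * k := by
  have h5 : k * A ≤ 1 / 16 * A := mul_le_mul_of_nonneg_right hk hA
  have h6 : A ≤ 8 / 7 := by linarith
  have h7 : k * B ≤ 1 / 16 * B := mul_le_mul_of_nonneg_right hk hB
  have h8 : k * A ≤ k * (8 / 7) := mul_le_mul_of_nonneg_left h6 hk0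
  have h9 : A ^ 2 ≤ (8 / 7) ^ 2 := pow_le_pow_left₀ hA h6 2
  constructor
  · linarith
  · linarith

end Mom

/-- moments of the length of a harmonic form -/
theorem s_mom (h1 : S_DDH) (h2 : S_RICH) : S_MOM := by
  intro M _ _ _ _ N C K ε hK hε hc hP hs p h hH _ hD hn
  have s0 : ∀ q, 0 ≤ C.ev q (ip h h) := fun q => Mom.ev_ip_nonneg C h q
  have w1 := Mom.weight C h1 h2 hε hc hH hD (ip h h) s0
  have w3 := Mom.weight C h1 h2 hε hc hH hD (ip h h ^ 3)
    (fun q => by rw [map_pow]; exact pow_nonneg (s0 q) 3)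
  have hn' : ig C (ip h h) = 1 := hn
  have P1 := hP (ip h h)
  have P2 := hP (ip h h ^ 2)
  have hcu := Mom.cube C (ip h h)
  generalize ip h h = s at s0 w1 w3 hn' P1 P2 hcu ⊢
  have t1 : s * s = s ^ 2 := by ring
  have t2 : s ^ 3 * s = s ^ 4 := by ring
  have t3 : (s ^ 2) ^ 2 = s ^ 4 := by ring
  have t4 : (s - 1) ^ 2 = s ^ 2 - (s + s) + 1 := by ring
  have w1' : ig C (gsq C s) ≤ 2 * (ε * N ^ 2) * ig C (s ^ 2) := by
    rw [← t1]
    exact w1
  rw [t2] at w3
  rw [hn'] at P1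
  rw [t3] at P2
  have hA : 0 ≤ ig C (s ^ 2) := ig_nonneg C fun q => by
    rw [map_pow]
    exact pow_nonneg (s0 q) 2
  have hB : 0 ≤ ig C (s ^ 4) := ig_nonneg C fun q => by
    rw [map_pow]
    exact pow_nonneg (s0 q) 4
  have hk0 : 0 ≤ K * (ε * N ^ 2) := by positivity
  have q1 := mul_le_mul_of_nonneg_left w1' hK
  have q3 := mul_le_mul_of_nonneg_left w3 hK
  have hfin := Mom.nums (k := K * (ε * N ^ 2)) (A := ig C (s ^ 2)) (B := ig C (s ^ 4))
    (G := K * ig C (gsq C s)) (H := K * ig C (gsq C (s ^ 2))) hk0 hs hA hB P1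
    (by linarith) P2 (by
      have e : 3 * (K * ig C (gsq C (s ^ 2))) =
          4 * (K * ig C (∑ a, C.F.e a (s ^ 3) * C.F.e a s)) := by
        linear_combination (-K) * hcu
      rw [e]
      linarith)
  refine ⟨hfin.1, ?_⟩
  rw [t4, ig_add, ig_sub, ig_add, ig_one, hn']
  linarith [hfin.2]

end Pool.Agent.H781.KP
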