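import Pool.Agent.H781.KP.R
import Pool.Agent.H781.KP.Dg2

/-!
Project KR: the structure constants do not vanish (`S_NZC`).
-/

set_option autoImplicit false
set_option synthInstance.maxHeartbeats 400000
set_option maxHeartbeats 4000000
set_option linter.unusedSectionVars false

open MeasureTheory Filter
open scoped Topology ContDiff

noncomputable section

namespace Pool.Agent.H781.KP

open Pool.Agent.H781.NG Pool.Agent.H781.CM Pool.Agent.H781.H6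

namespace Nzc

theorem KAc_mono {n N : ℕ} {η η' κ : ℝ} {d : Fin (N + 1) → ℕ}
    {c : (Σ p, Fin (d p)) → (Σ p, Fin (d p)) → (Σ p, Fin (d p)) → ℝ} (hη : η ≤ η')
    (h : KAc n N η κ d c) : KAc n N η' κ d c := by
  obtain ⟨a, R, h1, h2, h3, h4, h5, h6, h7, h8, h9, h10⟩ := h
  refine ⟨a, R, h1, h2, h3, fun x y => (h4 x y).trans hη, h5,
    fun x y S => (h6 x y S).trans hη, h7, fun w hw => ?_, h9, fun x => (h10 x).trans hη⟩
  have e := h8 w hw
  have e2 : 0 ≤ ∑ a, ∑ b, w a b ^ 2 :=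
    Finset.sum_nonneg fun _ _ => Finset.sum_nonneg fun _ _ => sq_nonneg _
  refine le_trans ?_ e
  exact mul_le_mul_of_nonneg_right (neg_le_neg hη) e2

theorem KAc_KA {n N : ℕ} {η κ : ℝ} {d : Fin (N + 1) → ℕ}
    {c : (Σ p, Fin (d p)) → (Σ p, Fin (d p)) → (Σ p, Fin (d p)) → ℝ}
    (h : KAc n N η κ d c) : KA n N η κ d := by
  obtain ⟨a, R, h1, h2, h3, h4, h5, h6, h7, h8, h9, h10⟩ := h
  exact ⟨a, c, R, h1, h2, h3, h4, h5, h6, h7, h8, h9, h10⟩

theorem ip_lt_deg {n q : ℕ} {u v : Fk n ℝ} (hu : Top.Lt q u) (hv : Deg q v) : ip u v = 0 := by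
  unfold ip
  refine Finset.sum_eq_zero fun S _ => ?_
  by_cases h : q ≤ S.card
  · rw [hu S h, zero_mul]
  · rw [hv S (by omega), mul_zero]

/-- the structure constants of the limits do not vanish -/
theorem nz (h2 : S_AVG) (h6 : S_UFX) (h7 : S_UINV) (h8 : S_CLIF) {n : ℕ} {ι : Type} [Fintype ι]
    [DecidableEq ι] (hn : 2 ≤ n) (p : ι → ℕ) (a : ι → Fk n ℝ) (R : T4 n) (hL : LimA p a R)
    (c' : ι → ι → ι → ℝ) (hc : ∀ x y, mulF (a x) (a y) = ∑ z, c' x y z • a z) (k : ℕ)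
    (x y z : ι) (hx : p x = 2) (hy : p y = 2 * k) (hz : p z = 2 * k + 2) : c' x y z ≠ 0 := by
  obtain ⟨R', hL', hinv⟩ := h2 n ι p a R hL
  obtain ⟨J, l, hJ, hl, hax, hfix⟩ := h6 n ι p a R' hn hL' hinv x hx
  obtain ⟨hdeg, hip, -⟩ := hL'
  obtain ⟨c1, hc1⟩ := (h7 n J hJ (p y) (a y) (hdeg y) fun X hX hc => hfix X hX hc y).2 k hy
  obtain ⟨c2, hc2⟩ := (h7 n J hJ (p z) (a z) (hdeg z) fun X hX hc => hfix X hX hc z).2 (k + 1)
    (by omega)
  obtain ⟨W, hW⟩ : ∃ W : Fk n ℝ, W = (wX J)^[k + 1] (vac : Fk n ℝ) := ⟨_, rfl⟩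
  rw [← hW] at hc2
  have hzz : ip (a z) (a z) = 1 := by rw [hip, if_pos rfl]
  have hyy : ip (a y) (a y) = 1 := by rw [hip, if_pos rfl]
  have hc1' : c1 ≠ 0 := by
    rintro rfl
    rw [hc1, zero_smul, ip_zero_left] at hyy
    exact zero_ne_one hyy
  have hWW : c2 * (c2 * ip W W) = 1 := by
    rw [hc2, ip_smul_left, ip_smul_right] at hzz
    exact hzz
  have e1 : c' x y z = ip (mulF (a x) (a y)) (a z) := by
    rw [hc, ip_sum_left, Finset.sum_eq_single z]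
    · rw [ip_smul_left, hip, if_pos rfl, mul_one]
    · intro w _ hw
      rw [ip_smul_left, hip, if_neg hw, mul_zero]
    · intro h
      exact absurd (Finset.mem_univ z) h
  have hX : Sk (fun i j => l * J i j) := fun i j => by
    show l * J i j = - (l * J j i)
    rw [hJ.1 i j]
    ring
  have e2 : mulF (a x) (a y) = (l * c1) • W + Top.Eo (fun i j => l * J i j) (a y) := by
    have e0 : a x = wX (fun i j => l * J i j) vac := by rw [hax, Dg2.wX_smul_left]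
    rw [e0, Top.mulF_wX h8 _ hX]
    congr 1
    rw [hc1, Dg2.wX_smul_left, Dg2.wX_smul, smul_smul, hW, Function.iterate_succ_apply']
  have e3 : ip (Top.Eo (fun i j => l * J i j) (a y)) (a z) = 0 := by
    refine ip_lt_deg (q := 2 * k + 2) (Top.lt_Eo (p := 2 * k + 1) ?_ _) ?_
    · intro S hS
      exact hdeg y S (by omega)
    · rw [← hz]
      exact hdeg z
  have e4 : ip W (a z) = c2 * ip W W := by rw [hc2, ip_smul_right]
  rw [e1, e2, ip_add_left, e3, add_zero, ip_smul_left, e4]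
  have e5 : c2 * ip W W ≠ 0 := by
    intro h
    rw [h, mul_zero] at hWW
    exact zero_ne_one hWW
  exact mul_ne_zero (mul_ne_zero hl hc1') e5

end Nzc

theorem s_nzc (h1 : S_LIMS) (h2 : S_AVG) (h3 : S_DG1) (h4 : S_DG2) (h5 : S_DG3) (h6 : S_UFX)
    (h7 : S_UINV) (h8 : S_CLIF) : S_NZC := by
  intro n N d κ hn hκ
  by_contra hcon
  have hbad : ∀ k : ℕ, ∃ c, KAc n N (1 / ((k : ℝ) + 1)) κ d c ∧ ¬ (PdC n N d ∧
      ∀ (k' : ℕ) (x y z : Σ p, Fin (d p)), 2 * k' + 2 ≤ n → (x.1 : ℕ) = 2 → (y.1 : ℕ) = 2 * k' →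
        (z.1 : ℕ) = 2 * k' + 2 → 2 * (1 / ((k : ℝ) + 1)) ≤ |c x y z|) := by
    intro k
    by_contra h
    exact hcon ⟨1 / ((k : ℝ) + 1), by positivity, fun c hc => by
      by_contra h'
      exact h ⟨c, hc, h'⟩⟩
  choose c hc hnot using hbad
  have hKA : ∀ η : ℝ, 0 < η → KA n N η κ d := by
    intro η hη
    obtain ⟨k, hk⟩ := exists_nat_one_div_lt hη
    exact Nzc.KAc_KA (Nzc.KAc_mono hk.le (hc k))
  have hPd : PdC n N d := by
    obtain ⟨φ, c', a, R, hφ, ht, hm, hL⟩ := h1 n N d κ c hn hκ hc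
    refine ⟨fun p hp => ?_, fun hn4 p hp => ?_, fun p hp => ?_⟩
    · by_contra hne
      exact h3 n _ _ a R hn hL ⟨p, ⟨0, Nat.pos_of_ne_zero hne⟩⟩ hp
    · by_contra hne
      obtain ⟨R', hL', hinv⟩ := h2 n _ _ a R hL
      exact h5 n _ _ a R' hn4 hL' hinv ⟨p, ⟨0, Nat.pos_of_ne_zero hne⟩⟩ hp
    · by_cases hne : d p = 0
      · exact Or.inl hne
      · exact Or.inr (h4 n N d κ hn hκ hKA p hp hne)
  have hex : ∀ k : ℕ, ∃ t : (Σ p, Fin (d p)) × (Σ p, Fin (d p)) × (Σ p, Fin (d p)),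
      (∃ j : ℕ, (t.1.1 : ℕ) = 2 ∧ (t.2.1.1 : ℕ) = 2 * j ∧ (t.2.2.1 : ℕ) = 2 * j + 2) ∧
        |c k t.1 t.2.1 t.2.2| < 2 * (1 / ((k : ℝ) + 1)) := by
    intro k
    by_contra h
    apply hnot k
    refine ⟨hPd, fun j x y z _ hx hy hz => ?_⟩
    by_contra h'
    exact h ⟨(x, y, z), ⟨j, hx, hy, hz⟩, not_le.1 h'⟩
  choose t ht1 ht2 using hex
  obtain ⟨⟨x, y, z⟩, hinf⟩ := Finite.exists_infinite_fiber t
  have hfreq : ∃ᶠ k in atTop, t k = (x, y, z) :=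
    Nat.frequently_atTop_iff_infinite.2 (Set.infinite_coe_iff.1 hinf)
  obtain ⟨ψ, hψ, hψt⟩ := extraction_of_frequently_atTop hfreq
  obtain ⟨φ, c', a, R, hφ, hct, hm, hL⟩ := h1 n N d κ (fun k => c (ψ k)) hn hκ (fun k =>
    Nzc.KAc_mono (by
      have h : (k : ℝ) ≤ (ψ k : ℝ) := by exact_mod_cast hψ.le_apply
      gcongr) (hc (ψ k)))
  obtain ⟨j, hx, hy, hz⟩ := ht1 (ψ 0)
  rw [hψt 0] at hx hy hz
  refine Nzc.nz h2 h6 h7 h8 hn _ a R hL c' hm j x y z hx hy hz ?_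
  have e1 : Tendsto (fun k => c (ψ (φ k)) x y z) atTop (𝓝 (c' x y z)) :=
    tendsto_pi_nhds.1 (tendsto_pi_nhds.1 (tendsto_pi_nhds.1 hct x) y) z
  have e2 : Tendsto (fun k => c (ψ (φ k)) x y z) atTop (𝓝 0) := by
    rw [tendsto_zero_iff_abs_tendsto_zero]
    refine squeeze_zero (g := fun k : ℕ => 2 * (1 / ((k : ℝ) + 1))) (fun k => abs_nonneg _)
      (fun k => ?_) ?_
    · have h := ht2 (ψ (φ k))
      rw [hψt (φ k)] at h
      refine h.le.trans ?_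
      have h2 : (k : ℝ) ≤ (ψ (φ k) : ℝ) := by exact_mod_cast (hψ.comp hφ).le_apply
      gcongr
    · have h := (tendsto_one_div_add_atTop_nhds_zero_nat (𝕜 := ℝ)).const_mul 2
      rw [mul_zero] at h
      exact h
  exact tendsto_nhds_unique e1 e2

end Pool.Agent.H781.KP

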