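import Pool.Agent.H781.KP.GR
import Pool.Agent.H781.CM.Phiw

/-!
Project KP, cohomology ring: the product with an element of degree two in terms of iterated
contractions.
-/

set_option autoImplicit false
set_option synthInstance.maxHeartbeats 400000
set_option maxHeartbeats 4000000
set_option linter.unusedSectionVars false

open Bundle Manifold ContDiff VectorField MeasureTheory Filter
open scoped Topology

noncomputable section

namespace Pool.Agent.H781.KP

open Pool.Agent.H781.NG Pool.Agent.H781.CM Pool.Agent.H781.H6 Pool.Agent.H821R2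
  Pool.Agent.H821R3 Pool.Agent.H893R5.HO Pool.Agent.H781.S22

namespace Phw2

open Pool.Agent.H781.CM.Phiw

variable {N : ℕ}

theorem phi_succ (p : ℕ) (V : Fin (p + 1) → Fin N → ℝ) (u : Fk N ℝ) :
    phi (p + 1) V u = phi p (Fin.tail V) (Ao (V 0) u) := rfl

theorem phi_zero (V : Fin 0 → Fin N → ℝ) (u : Fk N ℝ) : phi 0 V u = u ∅ := rfl

theorem Ao_smul (w : Fin N → ℝ) (c : ℝ) (u : Fk N ℝ) : Ao w (c • u) = c • Ao w u := by
  unfold Ao
  rw [Finset.smul_sum]
  refine Finset.sum_congr rfl fun a _ => ?_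
  rw [map_smul, smul_comm]

theorem phi_add (p : ℕ) : ∀ (V : Fin p → Fin N → ℝ) (u v : Fk N ℝ),
    phi p V (u + v) = phi p V u + phi p V v := by
  induction p with
  | zero => intro V u v; rfl
  | succ p ih =>
    intro V u v
    rw [phi_succ, phi_succ, phi_succ, Ao_add, ih]

theorem phi_sub (p : ℕ) : ∀ (V : Fin p → Fin N → ℝ) (u v : Fk N ℝ),
    phi p V (u - v) = phi p V u - phi p V v := by
  induction p with
  | zero => intro V u v; rfl
  | succ p ih =>
    intro V u v
    rw [phi_succ, phi_succ, phi_succ, Ao_sub, ih]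

theorem phi_smul (p : ℕ) : ∀ (V : Fin p → Fin N → ℝ) (c : ℝ) (u : Fk N ℝ),
    phi p V (c • u) = c * phi p V u := by
  induction p with
  | zero => intro V c u; rfl
  | succ p ih =>
    intro V c u
    rw [phi_succ, phi_succ, Ao_smul, ih]

theorem phi_null (p : ℕ) (V : Fin p → Fin N → ℝ) : phi p V (0 : Fk N ℝ) = 0 := by
  have h := phi_smul p V 0 (0 : Fk N ℝ)
  rw [zero_smul, zero_mul] at h
  exact h

theorem mul_deg0 (h : S_CLIF) {u : Fk N ℝ} (v : Fk N ℝ) (hu : Deg 0 u) :
    mulF u v = u ∅ • v := by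
  obtain ⟨-, h2, -⟩ := h N ℝ
  have h3 : u = u ∅ • (vac : Fk N ℝ) := by
    funext S
    rw [Pi.smul_apply, smul_eq_mul, vac]
    by_cases hS : S = ∅
    · rw [if_pos hS, hS, mul_one]
    · rw [if_neg hS, mul_zero, hu S (by rwa [Ne, Finset.card_eq_zero])]
  conv_lhs => rw [h3]
  rw [mul_smul_left, h2]

theorem phi_one (x : Fin N → ℝ) (u : Fk N ℝ) : phi 1 ![x] u = Ao x u ∅ := rfl

theorem tail_succ (p : ℕ) (V : Fin (p + 2) → Fin N → ℝ) (i : Fin (p + 1)) :
    Fin.tail (i.succ.removeNth V) = i.removeNth (Fin.tail V) := by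
  funext k
  simp [Fin.removeNth, Fin.tail, Fin.succ_succAbove_succ]

theorem zero_succ (p : ℕ) (V : Fin (p + 2) → Fin N → ℝ) (i : Fin (p + 1)) :
    (i.succ.removeNth V) 0 = V 0 := by
  simp [Fin.removeNth]

theorem phi_rem (p : ℕ) (V : Fin (p + 2) → Fin N → ℝ) (i : Fin (p + 1)) (v : Fk N ℝ) :
    phi (p + 1) (i.succ.removeNth V) v = phi p (i.removeNth (Fin.tail V)) (Ao (V 0) v) := by
  rw [phi_succ, tail_succ, zero_succ]

/-- the product with an element of degree one -/
theorem deg1 (h : S_CLIF) (p : ℕ) : ∀ (u v : Fk N ℝ), Deg 1 u → Deg p v →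
    ∀ V : Fin (p + 1) → Fin N → ℝ, phi (p + 1) V (mulF u v) =
      ∑ j : Fin (p + 1), (-1 : ℝ) ^ (j : ℕ) * phi 1 ![V j] u * phi p (j.removeNth V) v := by
  induction p with
  | zero =>
    intro u v hu hv V
    rw [phi_succ, rule1 h _ v hu, Ao_zero _ hv, mul_zero_right, sub_zero,
      mul_deg0 h v (Ao_deg _ hu), phi_smul, Fin.sum_univ_succ, Finset.univ_eq_empty,
      Finset.sum_empty, add_zero, Fin.val_zero, pow_zero, one_mul, phi_one]
    rfl
  | succ p ih =>
    intro u v hu hv V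
    rw [phi_succ, rule1 h _ v hu, phi_sub, mul_deg0 h v (Ao_deg _ hu), phi_smul,
      ih u _ hu (Ao_deg _ hv), Fin.sum_univ_succ (n := p + 1), Fin.val_zero, pow_zero, one_mul,
      phi_one,
      sub_eq_add_neg, ← Finset.sum_neg_distrib, Fin.removeNth_zero]
    congr 1
    refine Finset.sum_congr rfl fun i _ => ?_
    rw [phi_rem, Fin.val_succ, pow_succ]
    have e : Fin.tail V i = V i.succ := rfl
    rw [e]
    ring

/-- the product with an element of degree two -/
theorem deg2 (h : S_CLIF) (p : ℕ) : ∀ (u v : Fk N ℝ), Deg 2 u → Deg p v →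
    ∀ V : Fin (p + 2) → Fin N → ℝ, phi (p + 2) V (mulF u v) =
      ∑ j : Fin (p + 2), ∑ i : Fin (p + 1), if (i : ℕ) < (j : ℕ) then
        (-1 : ℝ) ^ ((i : ℕ) + (j : ℕ) + 1) * phi 2 ![V i.castSucc, V j] u *
          phi p (fun k => i.removeNth (j.removeNth V) k) v else 0 := by
  induction p with
  | zero =>
    intro u v hu hv V
    rw [phi_succ, rule2 h _ v hu, phi_add, Ao_zero _ hv, mul_zero_right, phi_null, add_zero,
      deg1 h 0 _ v (Ao_deg _ hu) hv, Fin.sum_univ_succ (n := 1)]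
    have h0 : (∑ i : Fin 1, if (i : ℕ) < ((0 : Fin 2) : ℕ) then
        (-1 : ℝ) ^ ((i : ℕ) + ((0 : Fin 2) : ℕ) + 1) * phi 2 ![V i.castSucc, V 0] u *
          phi 0 (fun k => i.removeNth ((0 : Fin 2).removeNth V) k) v else 0) = 0 := by
      refine Finset.sum_eq_zero fun i _ => ?_
      rw [if_neg (by simp)]
    rw [h0]
    refine Eq.trans ?_ (zero_add _).symm
    refine Finset.sum_congr rfl fun j _ => ?_
    rw [Fin.sum_univ_succ, Finset.univ_eq_empty, Finset.sum_empty, add_zero, if_pos (by simp)]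
    have e1 : (-1 : ℝ) ^ (((0 : Fin 1) : ℕ) + (j.succ : ℕ) + 1) = (-1 : ℝ) ^ (j : ℕ) := by
      rw [Fin.val_succ, Fin.val_zero]
      rw [show 0 + ((j : ℕ) + 1) + 1 = (j : ℕ) + 2 by ring, pow_add]
      norm_num
    rw [e1]
    rfl
  | succ p ih =>
    intro u v hu hv V
    rw [phi_succ, rule2 h _ v hu, phi_add, deg1 h (p + 1) _ v (Ao_deg _ hu) hv,
      ih u _ hu (Ao_deg _ hv), Fin.sum_univ_succ (n := p + 2)]
    have h0 : (∑ i : Fin (p + 2), if (i : ℕ) < ((0 : Fin (p + 3)) : ℕ) then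
        (-1 : ℝ) ^ ((i : ℕ) + ((0 : Fin (p + 3)) : ℕ) + 1) * phi 2 ![V i.castSucc, V 0] u *
          phi (p + 1) (fun k => i.removeNth ((0 : Fin (p + 3)).removeNth V) k) v else 0) = 0 := by
      refine Finset.sum_eq_zero fun i _ => ?_
      rw [if_neg (by simp)]
    rw [h0, zero_add, ← Finset.sum_add_distrib]
    refine Finset.sum_congr rfl fun j _ => ?_
    rw [Fin.sum_univ_succ (n := p + 1), if_pos (by simp)]
    have e1 : (-1 : ℝ) ^ (((0 : Fin (p + 2)) : ℕ) + (j.succ : ℕ) + 1) = (-1 : ℝ) ^ (j : ℕ) := by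
      rw [Fin.val_succ, Fin.val_zero]
      rw [show 0 + ((j : ℕ) + 1) + 1 = (j : ℕ) + 2 by ring, pow_add]
      norm_num
    rw [e1]
    congr 1
    · have e2 : (fun k => (0 : Fin (p + 2)).removeNth (j.succ.removeNth V) k) =
          j.removeNth (Fin.tail V) := by
        rw [← tail_succ]
        rfl
      rw [e2]
      rfl
    · refine Finset.sum_congr rfl fun i _ => ?_
      by_cases hij : (i : ℕ) < (j : ℕ)
      · rw [if_pos hij, if_pos (by rw [Fin.val_succ, Fin.val_succ]; omega)]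
        have e3 : (-1 : ℝ) ^ ((i.succ : ℕ) + (j.succ : ℕ) + 1) =
            (-1 : ℝ) ^ ((i : ℕ) + (j : ℕ) + 1) := by
          rw [Fin.val_succ, Fin.val_succ,
            show (i : ℕ) + 1 + ((j : ℕ) + 1) + 1 = (i : ℕ) + (j : ℕ) + 1 + 2 by ring, pow_add]
          norm_num
        have e4 : phi (p + 1) (fun k => i.succ.removeNth (j.succ.removeNth V) k) v =
            phi p (fun k => i.removeNth (j.removeNth (Fin.tail V)) k) (Ao (V 0) v) := by
          have e5 := phi_rem p (j.succ.removeNth V) i v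
          rw [tail_succ, zero_succ] at e5
          exact e5
        rw [e3, e4]
        rfl
      · rw [if_neg hij, if_neg (by rw [Fin.val_succ, Fin.val_succ]; omega)]

end Phw2

theorem s_phw2 (h : S_CLIF) : S_PHW2 := fun _ p u v hu hv V => Phw2.deg2 h p u v hu hv V

end Pool.Agent.H781.KP
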