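import Pool.Agent.H781.KP.R
import Pool.Agent.H781.CM.Base

/-!
Project KR: products and truncated products of harmonic forms.
-/

set_option autoImplicit false
set_option synthInstance.maxHeartbeats 400000
set_option maxHeartbeats 4000000
set_option linter.unusedSectionVars false

open MeasureTheory Filter
open scoped Topology ContDiff

noncomputable section

namespace Pool.Agent.H781.KP

open Pool.Agent.H781.NG Pool.Agent.H781.CM Pool.Agent.H781.H6

namespace Prd

theorem mulF_scal {N : ℕ} (a b : ℝ) (X Y : Fk N ℝ) (S : Finset (Fin N)) :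
    mulF (fun T => a * X T) (fun T => b * Y T) S = a * b * mulF X Y S := by
  unfold mulF
  rw [Finset.mul_sum]
  exact Finset.sum_congr rfl fun T _ => by ring

theorem ip_scal {N : ℕ} (c : ℝ) (U Z : Fk N ℝ) : ip (fun S => c * U S) Z = c * ip U Z := by
  unfold ip
  rw [Finset.mul_sum]
  exact Finset.sum_congr rfl fun T _ => by ring

section
variable {M : Type} [TopologicalSpace M] [CompactSpace M] [MeasurableSpace M] [BorelSpace M]
  {N : ℕ} (C : CD M N)

theorem csq {f g : M → ℝ} (hf : Continuous f) (hg : Continuous g) :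
    (∫ p, f p * g p ∂C.μ) ^ 2 ≤ (∫ p, f p ^ 2 ∂C.μ) * ∫ p, g p ^ 2 ∂C.μ := by
  have h : ∀ t : ℝ, 0 ≤ (∫ p, f p ^ 2 ∂C.μ) * (t * t) + (-2 * ∫ p, f p * g p ∂C.μ) * t +
      ∫ p, g p ^ 2 ∂C.μ := by
    intro t
    have h0 : 0 ≤ ∫ p, (t * f p - g p) ^ 2 ∂C.μ := integral_nonneg fun p => sq_nonneg _
    have i1 : Integrable (fun p => (t * t) * f p ^ 2) C.μ := int_cont C (by fun_prop)
    have i2 : Integrable (fun p => (-2 * t) * (f p * g p)) C.μ := int_cont C (by fun_prop)
    have i3 : Integrable (fun p => g p ^ 2) C.μ := int_cont C (by fun_prop)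
    have i12 : Integrable (fun p => (t * t) * f p ^ 2 + (-2 * t) * (f p * g p)) C.μ := i1.add i2
    have e : ∫ p, (t * f p - g p) ^ 2 ∂C.μ = (t * t) * (∫ p, f p ^ 2 ∂C.μ) +
        (-2 * t) * (∫ p, f p * g p ∂C.μ) + ∫ p, g p ^ 2 ∂C.μ := by
      rw [← integral_const_mul, ← integral_const_mul, ← integral_add i1 i2, ← integral_add i12 i3]
      refine integral_congr_ae (Filter.Eventually.of_forall fun p => ?_)
      simp only
      ring
    rw [e] at h0
    linarith
  have h1 := discrim_le_zero h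
  unfold discrim at h1
  nlinarith

/-- `2 / (1 + s)` -/
theorem fr (s : ℝ) (hs : 0 ≤ s) : 0 ≤ 2 / (1 + s) ∧ 2 / (1 + s) ≤ 2 ∧
    |2 / (1 + s) - 1| ≤ |s - 1| := by
  have h1 : 0 < 1 + s := by linarith
  refine ⟨by positivity, ?_, ?_⟩
  · rw [div_le_iff₀ h1]
    linarith
  · have e : 2 / (1 + s) - 1 = -(s - 1) / (1 + s) := by
      field_simp
      ring
    rw [e, abs_div, abs_neg, abs_of_pos h1]
    exact div_le_self (abs_nonneg _) (by linarith)

theorem gsq_le (s t : ℝ) (hs : 0 ≤ s) (ht : 0 ≤ t) :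
    (2 / (1 + s) * (2 / (1 + t)) - 1) ^ 2 ≤ 5 * ((s - 1) ^ 2 + (t - 1) ^ 2) := by
  obtain ⟨a1, a2, a3⟩ := fr s hs
  obtain ⟨b1, b2, b3⟩ := fr t ht
  set a := 2 / (1 + s)
  set b := 2 / (1 + t)
  have h1 : |a * b - 1| ≤ 2 * |s - 1| + |t - 1| := by
    have e : a * b - 1 = (a - 1) * b + (b - 1) := by ring
    rw [e]
    refine (abs_add_le _ _).trans ?_
    rw [abs_mul, abs_of_nonneg b1]
    have h2 : |a - 1| * b ≤ |s - 1| * 2 :=
      mul_le_mul a3 b2 b1 (abs_nonneg _)
    linarith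
  have h3 : (a * b - 1) ^ 2 ≤ (2 * |s - 1| + |t - 1|) ^ 2 := by
    rw [← sq_abs (a * b - 1)]
    exact pow_le_pow_left₀ (abs_nonneg _) h1 2
  refine h3.trans ?_
  rw [← sq_abs (s - 1), ← sq_abs (t - 1)]
  nlinarith [sq_nonneg (|s - 1| - 2 * |t - 1|)]

theorem amgm (a b c : ℝ) (ha : 0 ≤ a) (hb : 0 ≤ b) (hc : 0 ≤ c) :
    a * b * c ≤ (a ^ 4 + b ^ 4 + c ^ 4 + 1) / 4 := by
  nlinarith [sq_nonneg (a * b - c), sq_nonneg (a ^ 2 - b ^ 2), sq_nonneg (c ^ 2 - 1),
    sq_nonneg (a * b + c), mul_nonneg ha hb, mul_nonneg (mul_nonneg ha hb) hc]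

end

end Prd

theorem s_prd (h1 : S_MOM) (h2 : S_CLIN) : S_PRD := by
  intro M _ _ _ _ N C K ε hK hε hcurv hP hKτ p q r x y z w hx hy hz dx dy dz Dx Dy Dz nx ny nz hw
  set τ : ℝ := K * (ε * N ^ 2) with hτ
  have hτ0 : 0 ≤ τ := by positivity
  obtain ⟨x4, x2⟩ := h1 M N C K ε hK hε hcurv hP hKτ p x hx dx Dx nx
  obtain ⟨y4, y2⟩ := h1 M N C K ε hK hε hcurv hP hKτ q y hy dy Dy ny
  obtain ⟨z4, z2⟩ := h1 M N C K ε hK hε hcurv hP hKτ r z hz dz Dz nz
  -- pointwise values
  set sx : M → ℝ := fun s => C.ev s (ip x x) with hsx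
  set sy : M → ℝ := fun s => C.ev s (ip y y) with hsy
  set sz : M → ℝ := fun s => C.ev s (ip z z) with hsz
  set F : M → ℝ := fun s => C.ev s (ip (mulF x y) z) with hF
  have csx : Continuous sx := C.cont _
  have csy : Continuous sy := C.cont _
  have csz : Continuous sz := C.cont _
  have cF : Continuous F := C.cont _
  have px : ∀ s, 0 ≤ sx s := fun s => by rw [hsx]; simp only; rw [ev_ip]; exact ip_self_nonneg _
  have py : ∀ s, 0 ≤ sy s := fun s => by rw [hsy]; simp only; rw [ev_ip]; exact ip_self_nonneg _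
  have pz : ∀ s, 0 ≤ sz s := fun s => by rw [hsz]; simp only; rw [ev_ip]; exact ip_self_nonneg _
  set g : M → ℝ := fun s => 2 / (1 + sx s) * (2 / (1 + sy s)) - 1 with hg
  have cg : Continuous g := by
    refine Continuous.sub (Continuous.mul ?_ ?_) continuous_const
    · exact Continuous.div continuous_const (continuous_const.add csx)
        (fun s => by have := px s; positivity)
    · exact Continuous.div continuous_const (continuous_const.add csy)
        (fun s => by have := py s; positivity)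
  have hwF : ∀ s, C.ev s (ip w z) = (g s + 1) * F s := by
    intro s
    have e1 : evF C s w = fun S => (2 / (1 + sx s) * (2 / (1 + sy s))) *
        mulF (evF C s x) (evF C s y) S := by
      funext S
      have e2 : evF C s w S = C.ev s (w S) := rfl
      rw [e2, hw s S]
      exact Prd.mulF_scal _ _ (evF C s x) (evF C s y) S
    rw [ev_ip, e1, Prd.ip_scal]
    have e3 : F s = ip (mulF (evF C s x) (evF C s y)) (evF C s z) := by
      rw [hF]
      simp only
      rw [ev_ip, evF_mulF]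
    rw [e3, hg]
    ring
  have hdiff : pr C w z - pr C (mulF x y) z = ∫ s, g s * F s ∂C.μ := by
    unfold pr ig
    rw [← integral_sub (int_ev C _) (int_ev C _)]
    refine integral_congr_ae (Filter.Eventually.of_forall fun s => ?_)
    simp only
    rw [hwF s]
    have e4 : C.ev s (ip (mulF x y) z) = F s := rfl
    rw [e4]
    ring
  -- the two integrals
  have hgi : ∫ s, g s ^ 2 ∂C.μ ≤ 40 * τ := by
    have ix : Integrable (fun s => (sx s - 1) ^ 2) C.μ := int_cont C (by fun_prop)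
    have iy : Integrable (fun s => (sy s - 1) ^ 2) C.μ := int_cont C (by fun_prop)
    have ixy : Integrable (fun s => (sx s - 1) ^ 2 + (sy s - 1) ^ 2) C.μ := ix.add iy
    have h3 : ∫ s, g s ^ 2 ∂C.μ ≤ ∫ s, 5 * ((sx s - 1) ^ 2 + (sy s - 1) ^ 2) ∂C.μ :=
      integral_mono (int_cont C (by fun_prop)) (ixy.const_mul 5)
        (fun s => Prd.gsq_le (sx s) (sy s) (px s) (py s))
    rw [integral_const_mul, integral_add ix iy] at h3
    have ex : ∫ s, (sx s - 1) ^ 2 ∂C.μ = ig C ((ip x x - 1) ^ 2) := by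
      unfold ig
      refine integral_congr_ae (Filter.Eventually.of_forall fun s => ?_)
      simp only [map_pow, map_sub, map_one, hsx]
    have ey : ∫ s, (sy s - 1) ^ 2 ∂C.μ = ig C ((ip y y - 1) ^ 2) := by
      unfold ig
      refine integral_congr_ae (Filter.Eventually.of_forall fun s => ?_)
      simp only [map_pow, map_sub, map_one, hsy]
    rw [ex, ey] at h3
    linarith
  have hFi : ∫ s, F s ^ 2 ∂C.μ ≤ 2 ^ N * (7 / 4) := by
    have hFs : ∀ s, F s ^ 2 ≤ 2 ^ N * ((sx s ^ 4 + sy s ^ 4 + sz s ^ 4 + 1) / 4) := by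
      intro s
      have e3 : F s = ip (mulF (evF C s x) (evF C s y)) (evF C s z) := by
        rw [hF]
        simp only
        rw [ev_ip, evF_mulF]
      have e5 : sx s = ip (evF C s x) (evF C s x) := ev_ip C s x x
      have e6 : sy s = ip (evF C s y) (evF C s y) := ev_ip C s y y
      have e7 : sz s = ip (evF C s z) (evF C s z) := ev_ip C s z z
      have h3 := ip_sq_le (mulF (evF C s x) (evF C s y)) (evF C s z)
      have h4 := h2 N (evF C s x) (evF C s y)
      rw [← e3, ← e7] at h3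
      rw [← e5, ← e6] at h4
      have h5 := mul_le_mul_of_nonneg_right h4 (pz s)
      have h6 := Prd.amgm (sx s) (sy s) (sz s) (px s) (py s) (pz s)
      have h7 := mul_le_mul_of_nonneg_left h6 (by positivity : (0 : ℝ) ≤ 2 ^ N)
      calc F s ^ 2 ≤ _ := h3
        _ ≤ _ := h5
        _ = 2 ^ N * (sx s * sy s * sz s) := by ring
        _ ≤ _ := h7
    have ix : Integrable (fun s => sx s ^ 4) C.μ := int_cont C (by fun_prop)
    have iy : Integrable (fun s => sy s ^ 4) C.μ := int_cont C (by fun_prop)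
    have iz : Integrable (fun s => sz s ^ 4) C.μ := int_cont C (by fun_prop)
    have i1 : Integrable (fun _ : M => (1 : ℝ)) C.μ := int_cont C (by fun_prop)
    have ixy : Integrable (fun s => sx s ^ 4 + sy s ^ 4) C.μ := ix.add iy
    have ixyz : Integrable (fun s => sx s ^ 4 + sy s ^ 4 + sz s ^ 4) C.μ := ixy.add iz
    have iall : Integrable (fun s => sx s ^ 4 + sy s ^ 4 + sz s ^ 4 + 1) C.μ := ixyz.add i1
    have h3 : ∫ s, F s ^ 2 ∂C.μ ≤ ∫ s, 2 ^ N * ((sx s ^ 4 + sy s ^ 4 + sz s ^ 4 + 1) / 4) ∂C.μ :=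
      integral_mono (int_cont C (by fun_prop)) ((iall.div_const 4).const_mul _) hFs
    rw [integral_const_mul, integral_div, integral_add ixyz i1, integral_add ixy iz,
      integral_add ix iy] at h3
    have e1 : ∫ _ : M, (1 : ℝ) ∂C.μ = 1 := by simp
    have ex : ∫ s, sx s ^ 4 ∂C.μ = ig C (ip x x ^ 4) := by
      unfold ig
      refine integral_congr_ae (Filter.Eventually.of_forall fun s => ?_)
      simp only [map_pow, hsx]
    have ey : ∫ s, sy s ^ 4 ∂C.μ = ig C (ip y y ^ 4) := by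
      unfold ig
      refine integral_congr_ae (Filter.Eventually.of_forall fun s => ?_)
      simp only [map_pow, hsy]
    have ez : ∫ s, sz s ^ 4 ∂C.μ = ig C (ip z z ^ 4) := by
      unfold ig
      refine integral_congr_ae (Filter.Eventually.of_forall fun s => ?_)
      simp only [map_pow, hsz]
    rw [ex, ey, ez, e1] at h3
    refine h3.trans (mul_le_mul_of_nonneg_left ?_ (by positivity))
    linarith
  have hcs := Prd.csq C cg cF
  have hg0 : 0 ≤ ∫ s, g s ^ 2 ∂C.μ := integral_nonneg fun s => sq_nonneg _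
  have hF0 : 0 ≤ ∫ s, F s ^ 2 ∂C.μ := integral_nonneg fun s => sq_nonneg _
  have hN : (1 : ℝ) ≤ 2 ^ N := one_le_pow₀ (by norm_num)
  rw [hdiff]
  apply abs_le_of_sq_le_sq _ (by positivity)
  have e8 : (9 * 2 ^ N * √τ) ^ 2 = 81 * (2 ^ N * 2 ^ N) * τ := by
    rw [mul_pow, Real.sq_sqrt hτ0]
    ring
  rw [e8]
  calc (∫ s, g s * F s ∂C.μ) ^ 2 ≤ _ := hcs
    _ ≤ (40 * τ) * (2 ^ N * (7 / 4)) := mul_le_mul hgi hFi hF0 (by positivity)
    _ = 70 * 2 ^ N * τ := by ring
    _ ≤ 81 * (2 ^ N * 2 ^ N) * τ := by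
      refine mul_le_mul_of_nonneg_right ?_ hτ0
      nlinarith

end Pool.Agent.H781.KP
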