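import Pool.Agent.H781.KP.AllC
import Pool.Agent.H781.CM.AllN
import Pool.Agent.H781.KP.Mom
import Pool.Agent.H781.KP.Prd
import Pool.Agent.H781.KP.Appr
import Pool.Agent.H781.KP.Kaxc
import Pool.Agent.H781.KP.Finr
import Pool.Agent.H781.KP.Lims
import Pool.Agent.H781.KP.Nzc
import Pool.Agent.H781.KP.Wdg
import Pool.Agent.H781.KP.Chir
import Pool.Agent.H781.KP.Phw2

/-!
Assembly of the theorem on the cohomology ring (abstract part).
-/

set_option autoImplicit false

namespace Pool.Agent.H781.KP

open Pool.Agent.H781.CM Pool.Agent.H781.H6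

theorem lims : S_LIMS := s_lims trg s_hka

theorem prd : S_PRD := s_prd (s_mom ddh (s_rich rmp)) s_clin

theorem appr : S_APPR := s_appr spec ener gram prod s_clin ddh (s_rich rmp) prd

theorem kaxc : S_KAXC := s_kaxc s_tau s_rct (s_tmul s_clif) rmp

theorem finr : S_FINR := s_finr appr dimS poink hodge spec kaxc (s_harm spec ddh) ddh

theorem nzc : S_NZC := s_nzc lims avg s_dg1 dg2 dg3 ufx s_uinv s_clif

theorem wdg : S_WDG := s_wdg s_clif (s_clim s_clif) ddh

theorem chir : S_CHIR := s_chir finr nzc wdg (s_harm spec ddh) ddh hodge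

theorem phw2 : S_PHW2 := s_phw2 s_clif

end Pool.Agent.H781.KP
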