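import Pool.Agent.H781.KP.W

/-!
Project KP: the arithmetic of the dimensions (helper738).
-/

set_option autoImplicit false
set_option synthInstance.maxHeartbeats 400000
set_option maxHeartbeats 4000000
set_option linter.unusedSectionVars false

open MeasureTheory Filter
open scoped Topology ContDiff

noncomputable section

namespace Pool.Agent.H781.KP

open Pool.Agent.H781.NG Pool.Agent.H781.CM Pool.Agent.H781.H6

namespace Ari

/-- the even case -/
theorem even_case {n : ℕ} (hn : 2 ≤ n) (b : ℕ → ℕ) (D : ℕ) (hD : Even D)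
    (h1 : ∀ p, b p ≤ 1) (hDp : ∀ p, b p ≠ 0 → D ∣ p) (hb0 : b 0 = 1)
    (hsum : ∀ p q, p + q ≤ n → b p ≠ 0 → b q ≠ 0 → b (p + q) ≠ 0)
    (hsym : b n ≠ 0 → ∀ p q, p + q = n → b p = b q) (hbn : b n ≠ 0) :
    ∃ q, 2 ≤ q ∧ Even q ∧ q ∣ n ∧ ∀ p, p ≤ n → b p = if q ∣ p then 1 else 0 := by
  classical
  have hex : ∃ q, 0 < q ∧ b q ≠ 0 := ⟨n, by omega, hbn⟩
  obtain ⟨hq0, hbq⟩ := Nat.find_spec hex
  have hmin : ∀ r, r < Nat.find hex → b r ≠ 0 → r = 0 := by
    intro r hr hbr
    by_contra hr0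
    exact Nat.find_min hex hr ⟨Nat.pos_of_ne_zero hr0, hbr⟩
  generalize Nat.find hex = q at hq0 hbq hmin
  have hqe : Even q := hD.trans_dvd (hDp q hbq)
  have hq2 : 2 ≤ q := by
    obtain ⟨a, ha⟩ := hqe
    omega
  have hmul : ∀ j, j * q ≤ n → b (j * q) ≠ 0 := by
    intro j
    induction j with
    | zero =>
      intro _
      rw [zero_mul, hb0]
      exact one_ne_zero
    | succ j ih =>
      intro hj
      rw [add_mul, one_mul] at hj ⊢
      exact hsum _ _ hj (ih (by omega)) hbq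
  have hs := hsym hbn
  have hqn : q ∣ n := by
    have e : n / q * q + n % q = n := Nat.div_add_mod' n q
    have h2 := hmul (n / q) (by omega)
    rw [hs _ _ e] at h2
    exact Nat.dvd_of_mod_eq_zero (hmin _ (Nat.mod_lt _ hq0) h2)
  refine ⟨q, hq2, hqe, hqn, fun p hp => ?_⟩
  split_ifs with h
  · obtain ⟨j, rfl⟩ := h
    have h2 := hmul j (by rw [mul_comm]; exact hp)
    rw [mul_comm] at h2
    have h3 := h1 (q * j)
    omega
  · by_contra hbp
    apply h
    have e : (n - p) / q * q + (n - p) % q = n - p := Nat.div_add_mod' (n - p) q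
    have h2 : b (p + (n - p) / q * q) ≠ 0 := hsum _ _ (by omega) hbp (hmul _ (by omega))
    rw [hs (p + (n - p) / q * q) ((n - p) % q) (by omega)] at h2
    have h3 : q ∣ n - p := Nat.dvd_of_mod_eq_zero (hmin _ (Nat.mod_lt _ hq0) h2)
    have h4 := Nat.dvd_sub hqn h3
    have h5 : n - (n - p) = p := by omega
    rwa [h5] at h4

end Ari

theorem s_ari : S_ARI := by
  intro n N d b hnN hn hPd hd0 hbd hbN hsum
  obtain ⟨⟨hd1, D, hD2, hDn, hDe, hDd⟩, hadd, hsym⟩ := hPd
  have hb1 : ∀ p, b p ≤ 1 := by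
    intro p
    by_cases hp : p < N + 1
    · exact (hbd ⟨p, hp⟩).trans (hd1 _)
    · rw [hbN p (by omega)]
      exact Nat.zero_le _
  have hDb : ∀ p, b p ≠ 0 → D ∣ p := by
    intro p hbp
    by_cases hp : p < N + 1
    · refine hDd ⟨p, hp⟩ fun h => ?_
      have h2 := hbd ⟨p, hp⟩
      rw [h] at h2
      exact hbp (Nat.le_zero.1 h2)
    · exact absurd (hbN p (by omega)) hbp
  -- the even case: `b = d`
  have heq : Even n → ∀ p : Fin (N + 1), b p = d p := by
    intro hne
    have hDev : Even D := by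
      rcases hDe with h | h
      · rw [h]; exact hne
      · exact h
    have hdev : ∀ p : Fin (N + 1), d p ≠ 0 → Even (p : ℕ) := fun p hp =>
      hDev.trans_dvd (hDd p hp)
    have e1 : ∀ p : Fin (N + 1), (-1 : ℤ) ^ (p : ℕ) * (d p : ℤ) = (d p : ℤ) := by
      intro p
      by_cases h : d p = 0
      · rw [h, Nat.cast_zero, mul_zero]
      · rw [(hdev p h).neg_one_pow, one_mul]
    have e2 : ∀ p : Fin (N + 1), (-1 : ℤ) ^ (p : ℕ) * (b p : ℤ) = (b p : ℤ) := by
      intro p
      by_cases h : d p = 0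
      · have h2 := hbd p
        rw [h] at h2
        rw [Nat.le_zero.1 h2, Nat.cast_zero, mul_zero]
      · rw [(hdev p h).neg_one_pow, one_mul]
    rw [← Fin.sum_univ_eq_sum_range (fun p => (-1 : ℤ) ^ p * (b p : ℤ)) (N + 1),
      Finset.sum_congr rfl fun p _ => e1 p, Finset.sum_congr rfl fun p _ => e2 p] at hsum
    have h3 : ∑ p : Fin (N + 1), b p = ∑ p : Fin (N + 1), d p := by exact_mod_cast hsum.symm
    exact fun p => (Finset.sum_eq_sum_iff_of_le fun p _ => hbd p).1 h3 p (Finset.mem_univ p)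
  refine ⟨⟨hb1, fun hodd p hp0 hpn => ?_, fun hev => ?_⟩, heq⟩
  · -- `n` odd
    have hDn' : D = n := by
      rcases hDe with h | h
      · exact h
      · exact absurd (h.trans_dvd hDn) (Nat.not_even_iff_odd.2 hodd)
    by_contra hbp
    have h2 := Nat.le_of_dvd hp0 (hDb p hbp)
    omega
  · -- `n` even
    have hbd' := heq hev
    have hDev : Even D := by
      rcases hDe with h | h
      · rw [h]; exact hev
      · exact h
    have hadd' : ∀ p q, p + q ≤ n → b p ≠ 0 → b q ≠ 0 → b (p + q) ≠ 0 := by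
      intro p q hpq hp hq
      have h1 := hadd ⟨p, by omega⟩ ⟨q, by omega⟩ ⟨p + q, by omega⟩ rfl hpq
      rw [← hbd', ← hbd', ← hbd'] at h1
      exact h1 hp hq
    have hsym' : b n ≠ 0 → ∀ p q, p + q = n → b p = b q := by
      intro hbn p q hpq
      have h1 := hsym ⟨n, by omega⟩ rfl
      rw [← hbd'] at h1
      have h2 := h1 hbn ⟨p, by omega⟩ ⟨q, by omega⟩ hpq
      rw [← hbd', ← hbd'] at h2
      exact h2
    have hb0 : b 0 = 1 := by
      have h1 := hbd' 0
      rw [hd0] at h1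
      exact h1
    refine ⟨fun p hp => ?_, hadd', fun hbn =>
      Ari.even_case hn b D hDev hb1 hDb hb0 hadd' hsym' hbn⟩
    by_contra hbp
    exact absurd (hDev.trans_dvd (hDb p hbp)) (Nat.not_even_iff_odd.2 hp)

end Pool.Agent.H781.KP
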