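import Pool.Agent.H781.KP.W
import Pool.Agent.H781.KP.Chir

/-!
Project KP, cohomology ring in all degrees (MP_4e0d62_gt): the abstract theorem on products
(KW-04, by helper215 for helper781).
-/

set_option autoImplicit false
set_option synthInstance.maxHeartbeats 400000
set_option maxHeartbeats 4000000
set_option linter.unusedSectionVars false

open MeasureTheory Filter
open scoped Topology ContDiff

noncomputable section

namespace Pool.Agent.H781.KP

open Pool.Agent.H781.NG Pool.Agent.H781.CM Pool.Agent.H781.H6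

namespace Chiw

variable {M : Type} [TopologicalSpace M] [CompactSpace M] [MeasurableSpace M] [BorelSpace M]
  {N : ℕ} (C : CD M N)

theorem exact_orth' (h5 : S_DDH) {m m' : ℕ} (hm : m' = m + 1) {w u : Fk N C.A} (hw : w ∈ Bp C m')
    (hu : u ∈ Hm C m') : pr C w u = 0 := by
  subst hm
  exact Chir.exact_orth C h5 hw hu

/-- there are no forms of degree greater than `N` -/
theorem hm_bot {p : ℕ} (hp : N < p) : Hm C p = ⊥ := by
  rw [Submodule.eq_bot_iff]
  rintro u ⟨⟨⟨-, hD⟩, -⟩, -⟩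
  funext S
  apply hD
  have := Finset.card_le_univ S
  rw [Fintype.card_fin] at this
  omega

end Chiw

open Chir Chiw in
theorem s_chiw (h1 : S_FINR) (h2 : S_NZW) (h3 : S_ARI) (h4 : S_WDG) (h5 : S_HARM) (h6 : S_DDH)
    (_h7 : S_HODGE) : S_CHIW := by
  intro N n κ hnN hN3 hn2 hκ
  choose f hf0 hf using fun d : Fin (N + 1) → ℕ => h2 n N d κ hn2 hκ
  obtain ⟨η, hη, hηf⟩ := exists_eta N f hf0
  obtain ⟨ε, hε, H⟩ := h1 N n κ (by omega) hn2 hκ η hη
  refine ⟨ε, hε, fun M _ _ _ _ C hC hP hcn hMo hD hR => ?_⟩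
  obtain ⟨t, d, u, c, ht, hdim, hfin, hKA, hs, hOB, hb, hsum⟩ := H M C hC hP hcn hMo hD hR
  have hηd := hηf d hs
  obtain ⟨hPd, hc⟩ := hf d c (kac_mono hηd hKA)
  have hd0 : d 0 = 1 := by
    obtain ⟨_, _, _, k2, _⟩ := hKA
    exact k2
  have hHarm := fun p => h5 M N C hMo hD hR p
  have hbN : ∀ p, N < p → bet C p = 0 := by
    intro p hp
    have g2 := (hHarm p).2.1
    rw [hm_bot C hp, finrank_bot] at g2
    exact g2.symm
  obtain ⟨hB, hBE⟩ := h3 n N d (bet C) hnN hn2 hPd hd0 hb hbN hsum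
  refine ⟨hB, ?_⟩
  intro p q hp1 hq1 hpq α hα β hβ hα' hβ' hcon
  have hbne : ∀ (m : ℕ) (γ : Fk N C.A), γ ∈ Zp C m → γ ∉ Bp C m → bet C m ≠ 0 := by
    intro m γ hγ hγ' h0
    obtain ⟨g1, g2, g3, -⟩ := hHarm m
    obtain ⟨h, hh, hB⟩ := g3 γ hγ
    rw [h0] at g2
    have g4 : Hm C m = ⊥ := Submodule.finrank_eq_zero.1 g2
    rw [g4, Submodule.mem_bot] at hh
    rw [hh, sub_zero] at hB
    exact hγ' hB
  have hbp := hbne p α hα hα'
  have hbq := hbne q β hβ hβ'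
  have hev : Even n := by
    by_contra hodd
    exact hbp (hB.2.1 (Nat.not_even_iff_odd.1 hodd) p (by omega) (by omega))
  have hE := hBE hev
  -- all small eigenforms are harmonic
  have hHm : ∀ q : Fin (N + 1), Hm C q = Evp C t q := by
    intro q
    have hle : Evp C t q ≤ Ev C t := inf_le_left
    have hf2 : Module.Finite ℝ (Evp C t q) := Submodule.finiteDimensional_of_le hle
    refine Submodule.eq_of_le_of_finrank_eq (hm_le C ht.le q) ?_
    rw [(hHarm q).2.1, ← hdim q, hE q]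
  have hu : ∀ x : (Σ p, Fin (d p)), u x ∈ Hm C x.1 := by
    intro x
    rw [hHm x.1]
    exact hOB.1 x
  have hun : ∀ x : (Σ p, Fin (d p)), u x ≠ 0 := by
    intro x h0
    have h := hOB.2.1 x x
    rw [h0, pr_zero_left, if_pos rfl] at h
    exact zero_ne_one h
  have hfr : ∀ x : (Σ p, Fin (d p)), Module.finrank ℝ (Hm C x.1) = 1 := by
    intro x
    have h1 := hPd.1.1 x.1
    have h2 := x.2.pos
    rw [(hHarm x.1).2.1, hE x.1]
    omega
  have hdp : d ⟨p, by omega⟩ ≠ 0 := by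
    have h := hE ⟨p, by omega⟩
    rw [← h]
    exact hbp
  have hdq : d ⟨q, by omega⟩ ≠ 0 := by
    have h := hE ⟨q, by omega⟩
    rw [← h]
    exact hbq
  have hds : d ⟨p + q, by omega⟩ ≠ 0 :=
    hPd.2.1 ⟨p, by omega⟩ ⟨q, by omega⟩ ⟨p + q, by omega⟩ rfl hpq hdp hdq
  -- the three indices
  obtain ⟨x, hx⟩ : ∃ x : (Σ p, Fin (d p)), (x.1 : ℕ) = p :=
    ⟨⟨⟨p, by omega⟩, ⟨0, Nat.pos_of_ne_zero hdp⟩⟩, rfl⟩
  obtain ⟨y, hy⟩ : ∃ x : (Σ p, Fin (d p)), (x.1 : ℕ) = q :=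
    ⟨⟨⟨q, by omega⟩, ⟨0, Nat.pos_of_ne_zero hdq⟩⟩, rfl⟩
  obtain ⟨z, hz⟩ : ∃ x : (Σ p, Fin (d p)), (x.1 : ℕ) = p + q :=
    ⟨⟨⟨p + q, by omega⟩, ⟨0, Nat.pos_of_ne_zero hds⟩⟩, rfl⟩
  have hcz := hc x y z (by rw [hx, hy, hz]) (by rw [hz]; exact hpq)
  have hux := hu x
  have huy := hu y
  have huz := hu z
  have hfx := hfr x
  have hfy := hfr y
  rw [hx] at hux hfx
  rw [hy] at huy hfy
  rw [hz] at huz
  obtain ⟨a, ha, e₁, he₁, hαe⟩ := decomp C (hHarm p).2.2.1 hfx hux (hun x) hα hα'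
  obtain ⟨b, hb', e₂, he₂, hβe⟩ := decomp C (hHarm q).2.2.1 hfy huy (hun y) hβ hβ'
  have s1 : dg (p + q) (mulF e₁ β) ∈ Bp C (p + q) :=
    left_exact C h4 (p := p - 1) (q := q) (by omega) (by omega) he₁ hβ
  have s2 : dg (p + q) (mulF (u x) e₂) ∈ Bp C (p + q) :=
    right_exact C h4 (p := p) (q := q - 1) (by omega) (by omega) (hm_zp C hux) he₂
  have s3 : dg (p + q) (mulF α β) = (a * b) • dg (p + q) (mulF (u x) (u y)) +
      (a • dg (p + q) (mulF (u x) e₂) + dg (p + q) (mulF e₁ β)) := by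
    have t1 : mulF α β = a • mulF (u x) β + mulF e₁ β := by
      rw [← mulF_smul_left, ← mulF_add_left, ← hαe]
    have t2 : mulF (u x) β = b • mulF (u x) (u y) + mulF (u x) e₂ := by
      rw [← mulF_smul_right, ← mulF_add_right, ← hβe]
    rw [t1, t2, dg_add, dg_smul, dg_add, dg_smul, smul_add, smul_smul, add_assoc]
  have s4 : (a * b) • dg (p + q) (mulF (u x) (u y)) ∈ Bp C (p + q) := by
    have t3 : (a * b) • dg (p + q) (mulF (u x) (u y)) = dg (p + q) (mulF α β) -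
        (a • dg (p + q) (mulF (u x) e₂) + dg (p + q) (mulF e₁ β)) := by
      rw [s3]
      abel
    rw [t3]
    exact Submodule.sub_mem _ hcon (Submodule.add_mem _ (Submodule.smul_mem _ _ s2) s1)
  have s5 : dg (p + q) (mulF (u x) (u y)) ∈ Bp C (p + q) := by
    have t4 := Submodule.smul_mem _ (a * b)⁻¹ s4
    rwa [smul_smul, inv_mul_cancel₀ (mul_ne_zero ha hb'), one_smul] at t4
  have s6 : pr C (dg (p + q) (mulF (u x) (u y))) (u z) = 0 :=
    exact_orth' C h6 (m := p + q - 1) (by omega) s5 huz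
  have s7 : pr C (dg (p + q) (mulF (u x) (u y))) (u z) = pr C (mulF (u x) (u y)) (u z) := by
    unfold pr
    rw [ip_dg (p + q) _ _ huz.1.1.2]
  have s8 := hOB.2.2 x y z (hm_DD C hux) (hm_DD C huy) (hm_DD C huz)
  rw [← s7, s6, sub_zero] at s8
  have := hf0 d
  linarith

end Pool.Agent.H781.KP
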