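import Pool.Agent.H781.KP.L
import Pool.Agent.H781.KP.Com
import Pool.Agent.H781.KP.Gam

/-!
Project KP: duality of invariant forms (KL-02, by helper367 for helper781).
-/

set_option autoImplicit false
set_option synthInstance.maxHeartbeats 400000
set_option maxHeartbeats 4000000
set_option linter.unusedSectionVars false

open MeasureTheory Filter
open scoped Topology ContDiff

noncomputable section

namespace Pool.Agent.H781.KP

open Pool.Agent.H781.NG Pool.Agent.H781.CM Pool.Agent.H781.H6

namespace Dual

variable {n : ℕ}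

theorem add_l (u v w : Fk n ℝ) : mulF (u + v) w = mulF u w + mulF v w := by
  funext R
  simp only [mulF, Pi.add_apply]
  rw [← Finset.sum_add_distrib]
  exact Finset.sum_congr rfl fun S _ => by ring

theorem add_r (u v w : Fk n ℝ) : mulF u (v + w) = mulF u v + mulF u w := by
  funext R
  simp only [mulF, Pi.add_apply]
  rw [← Finset.sum_add_distrib]
  exact Finset.sum_congr rfl fun S _ => by ring

theorem smul_l (c : ℝ) (u v : Fk n ℝ) : mulF (c • u) v = c • mulF u v := by
  funext R
  simp only [mulF, Pi.smul_apply, smul_eq_mul, Finset.mul_sum]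
  exact Finset.sum_congr rfl fun S _ => by ring

theorem smul_r (c : ℝ) (u v : Fk n ℝ) : mulF u (c • v) = c • mulF u v := by
  funext R
  simp only [mulF, Pi.smul_apply, smul_eq_mul, Finset.mul_sum]
  exact Finset.sum_congr rfl fun S _ => by ring

theorem com (h : S_CLIF) {X : Fin n → Fin n → ℝ} (hX : Sk X) (u : Fk n ℝ) :
    mulF (wX X vac) u = mulF u (wX X vac) + (-4 : ℝ) • dX X u := by
  rw [← s_com h n X hX u]
  abel

/-- `dX X` is a derivation -/
theorem der (h : S_CLIF) {X : Fin n → Fin n → ℝ} (hX : Sk X) (u v : Fk n ℝ) :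
    dX X (mulF u v) = mulF (dX X u) v + mulF u (dX X v) := by
  have has := (h n ℝ).1
  have h1 := com h hX (mulF u v)
  have h2 : mulF (wX X vac) (mulF u v) = mulF (mulF u v) (wX X vac) +
      (-4 : ℝ) • (mulF (dX X u) v + mulF u (dX X v)) := by
    rw [← has, com h hX u, add_l, smul_l, has u (wX X vac) v, com h hX v, add_r, smul_r, has u v,
      smul_add]
    abel
  rw [h1] at h2
  have h3 := add_left_cancel h2
  exact smul_right_injective _ (by norm_num : (-4 : ℝ) ≠ 0) h3

theorem dX_Gam {X : Fin n → Fin n → ℝ} (hX : Sk X) : dX X (Gam n) = 0 := by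
  unfold dX
  refine Finset.sum_eq_zero fun i _ => Finset.sum_eq_zero fun a _ => ?_
  by_cases hia : a = i
  · subst hia
    have : X a a = 0 := by
      have := hX a a
      linarith
    rw [this, zero_smul]
  · have h0 : cr a (an i (Gam n)) = 0 := by
      funext S
      rw [cr_apply, Pi.zero_apply]
      split_ifs with haS
      · rw [an_apply]
        split_ifs with hiS
        · rw [mul_zero]
        · have hne : insert i (S.erase a) ≠ Finset.univ := by
            intro hh
            have ha : a ∈ insert i (S.erase a) := by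
              rw [hh]
              exact Finset.mem_univ _
            rcases Finset.mem_insert.1 ha with h1 | h1
            · exact hia h1
            · exact Finset.notMem_erase a S h1
          unfold Gam
          rw [if_neg hne, mul_zero, mul_zero]
      · rfl
    rw [h0, smul_zero]

theorem skX {R : T4 n} (hR : IsAC R) (w : Fin n → Fin n → ℝ) : Sk (Xw R w) := by
  intro c d
  unfold Xw
  rw [← Finset.sum_neg_distrib]
  refine Finset.sum_congr rfl fun a _ => ?_
  rw [← Finset.sum_neg_distrib]
  refine Finset.sum_congr rfl fun b _ => ?_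
  rw [hR.a34 a b c d]
  ring

theorem zero_l (v : Fk n ℝ) : mulF (0 : Fk n ℝ) v = 0 := by
  funext R
  simp [mulF]

theorem zero_r (v : Fk n ℝ) : mulF v (0 : Fk n ℝ) = 0 := by
  funext R
  simp [mulF]

theorem sg2_ne (S T : Finset (Fin n)) : ((sg2 S T : ℤ) : ℝ) ≠ 0 := by
  unfold sg2
  push_cast
  exact pow_ne_zero _ (by norm_num)

theorem ip_self_ne {u : Fk n ℝ} (hu : u ≠ 0) : ip u u ≠ 0 := by
  intro h0
  apply hu
  funext S
  unfold ip at h0
  have h1 := (Finset.sum_eq_zero_iff_of_nonneg fun T _ => mul_self_nonneg (u T)).1 h0 S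
    (Finset.mem_univ S)
  exact mul_self_eq_zero.1 h1

theorem ip_vac' (u : Fk n ℝ) : ip u vac = u ∅ := by
  unfold ip vac
  rw [Finset.sum_eq_single ∅]
  · rw [if_pos rfl, mul_one]
  · intro T _ hT
    rw [if_neg hT, mul_zero]
  · intro h
    exact absurd (Finset.mem_univ _) h

theorem ip_smul_l (c : ℝ) (u v : Fk n ℝ) : ip (c • u) v = c * ip u v := by
  unfold ip
  rw [Finset.mul_sum]
  exact Finset.sum_congr rfl fun S _ => by simp only [Pi.smul_apply, smul_eq_mul]; ring

end Dual

open Pool.Agent.H781.KP.Dual in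
theorem s_dual (h : S_CLIF) : S_DUAL := by
  intro n R p q u v hR hpq hone hu hv iu iv hu0 hv0
  obtain ⟨has, hvl, hvr, _, _, hadj, _⟩ := h n ℝ
  set w : Fk n ℝ := mulF v (Gam n) with hw
  have hwd : Deg p w := by
    intro S hS
    rw [hw, Gam.mul_gam, hv Sᶜ, mul_zero]
    intro hc
    apply hS
    rw [Finset.card_compl, Fintype.card_fin] at hc
    have := Finset.card_le_univ S
    rw [Fintype.card_fin] at this
    omega
  have hwi : InvF R w := by
    intro x hx
    have hs := skX hR x
    rw [hw, der h hs, dX_Gam hs, iv x hx, zero_l, zero_r, add_zero]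
  have hw0 : w ≠ 0 := by
    intro h0
    apply hv0
    funext S
    have h1 := congrFun h0 Sᶜ
    rw [hw, Gam.mul_gam, compl_compl, Pi.zero_apply] at h1
    exact (mul_eq_zero.1 h1).resolve_left (sg2_ne _ _)
  obtain ⟨s, t, hst, h1⟩ := hone u w hu hwd iu hwi
  have hs : s ≠ 0 := by
    intro h0
    rw [h0, zero_smul, zero_add] at h1
    rcases smul_eq_zero.1 h1 with h2 | h2
    · exact hst.elim (fun h3 => h3 h0) fun h3 => h3 h2
    · exact hw0 h2
  have ht : t ≠ 0 := by
    intro h0
    rw [h0, zero_smul, add_zero] at h1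
    rcases smul_eq_zero.1 h1 with h2 | h2
    · exact hs h2
    · exact hu0 h2
  have hcw : w = (-(s / t)) • u := by
    have h2 : t • w = (-s) • u := by
      rw [neg_smul]
      exact eq_neg_of_add_eq_zero_right h1
    have h3 : w = t⁻¹ • (t • w) := by rw [smul_smul, inv_mul_cancel₀ ht, one_smul]
    rw [h3, h2, smul_smul]
    congr 1
    field_simp
  -- the top component
  have h2 : mulF (mulF u v) (Gam n) = mulF u w := has u v (Gam n)
  have h3 := congrFun h2 ∅
  rw [Gam.mul_gam, Finset.compl_empty] at h3
  have h4 : mulF u w ∅ = (-1) ^ (p * (p - 1) / 2) * ip w u := by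
    rw [← ip_vac' (mulF u w), hadj p u w vac hu, hvr]
  rw [h4, hcw, ip_smul_l] at h3
  intro h0
  have h5 : mulF u v Finset.univ = 0 := by
    have := congrFun h0 Finset.univ
    unfold dg at this
    rwa [if_pos (by rw [Finset.card_univ, Fintype.card_fin])] at this
  rw [h5, mul_zero] at h3
  have h6 : ((-1 : ℝ)) ^ (p * (p - 1) / 2) * (-(s / t) * ip u u) ≠ 0 :=
    mul_ne_zero (pow_ne_zero _ (by norm_num))
      (mul_ne_zero (neg_ne_zero.2 (div_ne_zero hs ht)) (ip_self_ne hu0))
  exact h6 h3.symm

end Pool.Agent.H781.KP
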