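import Pool.Agent.H781.KP.W

/-!
Project KW: the structure constants do not vanish (`S_NZW`) (helper746 for helper781).
-/

set_option autoImplicit false
set_option synthInstance.maxHeartbeats 400000
set_option maxHeartbeats 4000000
set_option linter.unusedSectionVars false

open MeasureTheory Filter
open scoped Topology ContDiff

noncomputable section

namespace Pool.Agent.H781.KP

open Pool.Agent.H781.NG Pool.Agent.H781.CM Pool.Agent.H781.H6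

namespace Nzw

theorem KAc_mono {n N : ℕ} {η η' κ : ℝ} {d : Fin (N + 1) → ℕ}
    {c : (Σ p, Fin (d p)) → (Σ p, Fin (d p)) → (Σ p, Fin (d p)) → ℝ} (hη : η ≤ η')
    (h : KAc n N η κ d c) : KAc n N η' κ d c := by
  obtain ⟨a, R, h1, h2, h3, h4, h5, h6, h7, h8, h9, h10⟩ := h
  refine ⟨a, R, h1, h2, h3, fun x y => (h4 x y).trans hη, h5,
    fun x y S => (h6 x y S).trans hη, h7, fun w hw => ?_, h9, fun x => (h10 x).trans hη⟩
  have e := h8 w hw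
  have e2 : 0 ≤ ∑ a, ∑ b, w a b ^ 2 :=
    Finset.sum_nonneg fun _ _ => Finset.sum_nonneg fun _ _ => sq_nonneg _
  refine le_trans ?_ e
  exact mul_le_mul_of_nonneg_right (neg_le_neg hη) e2

theorem KAc_KA {n N : ℕ} {η κ : ℝ} {d : Fin (N + 1) → ℕ}
    {c : (Σ p, Fin (d p)) → (Σ p, Fin (d p)) → (Σ p, Fin (d p)) → ℝ}
    (h : KAc n N η κ d c) : KA n N η κ d := by
  obtain ⟨a, R, h1, h2, h3, h4, h5, h6, h7, h8, h9, h10⟩ := h
  exact ⟨a, c, R, h1, h2, h3, h4, h5, h6, h7, h8, h9, h10⟩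

theorem sig_eq {N : ℕ} {d : Fin (N + 1) → ℕ} (hd : ∀ p, d p ≤ 1) (w z : Σ p, Fin (d p))
    (h : (w.1 : ℕ) = (z.1 : ℕ)) : w = z := by
  obtain ⟨p, i⟩ := w
  obtain ⟨q, j⟩ := z
  have hpq : p = q := Fin.ext h
  subst hpq
  have hij : i = j := by
    apply Fin.ext
    have h1 := i.2
    have h2 := j.2
    have h3 := hd p
    omega
  rw [hij]

/-- the structure constants of the limits do not vanish -/
theorem nz (h2 : S_AVG) (h3 : S_SYM) (h4 : S_RK1) (h5 : S_EIG) (h6 : S_SCA) (h8 : S_WNZ)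
    {n N : ℕ} {d : Fin (N + 1) → ℕ} (hn : 2 ≤ n) (hd : ∀ p, d p ≤ 1)
    (a : (Σ p, Fin (d p)) → Fk n ℝ) (R : T4 n) (hL : LimA (fun x => (x.1 : ℕ)) a R)
    (c' : (Σ p, Fin (d p)) → (Σ p, Fin (d p)) → (Σ p, Fin (d p)) → ℝ)
    (hc : ∀ x y, mulF (a x) (a y) = ∑ z, c' x y z • a z)
    (x y z : Σ p, Fin (d p)) (hz : (x.1 : ℕ) + (y.1 : ℕ) = (z.1 : ℕ)) (hzn : (z.1 : ℕ) ≤ n) :
    c' x y z ≠ 0 := by
  obtain ⟨R', hL', hinv⟩ := h2 n _ _ a R hL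
  obtain ⟨hS, hT, hIF⟩ := h3 n _ _ a R' hL' hinv
  obtain ⟨hdeg, hip, -, hAC, hCO, hscl, -, -⟩ := hL'
  obtain ⟨c, D, hc0, hKS, hKD, hD⟩ := h5 n R' hn hAC hCO hS hT
    (h4 n R' hn hAC hCO hS hT hscl)
  obtain ⟨hKS1, hKD1, hI1⟩ := h6 n R' c D hc0 hKS hKD
  have hne : ∀ w, a w ≠ 0 := by
    intro w h0
    have h := hip w w
    rw [if_pos rfl, h0, ip_zero_left] at h
    exact zero_ne_one h
  have hw := h8 n _ D (by omega) hKS1 hKD1 hD (x.1 : ℕ) (y.1 : ℕ) (a x) (a y) (by omega)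
    (hdeg x) (hdeg y) (hI1 _ (hIF x)) (hI1 _ (hIF y)) (hne x) (hne y)
  intro h0
  apply hw
  funext S
  unfold dg
  by_cases hSc : S.card = (x.1 : ℕ) + (y.1 : ℕ)
  · rw [if_pos hSc, hc, Finset.sum_apply, Finset.sum_eq_single z]
    · rw [h0, zero_smul]
    · intro w _ hwz
      have h1 : (w.1 : ℕ) ≠ (z.1 : ℕ) := fun h => hwz (sig_eq hd w z h)
      have h2 : a w S = 0 := hdeg w S (by
        show S.card ≠ (w.1 : ℕ)
        omega)
      rw [Pi.smul_apply, h2, smul_zero]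
    · intro h
      exact absurd (Finset.mem_univ z) h
  · rw [if_neg hSc]
    rfl

end Nzw

theorem s_nzw (h1 : S_LIMS) (h2 : S_AVG) (h3 : S_SYM) (h4 : S_RK1) (h5 : S_EIG) (h6 : S_SCA)
    (_h7 : S_INV) (h8 : S_WNZ) (h9 : S_PDLS) : S_NZW := by
  intro n N d κ hn hκ
  by_contra hcon
  have hbad : ∀ k : ℕ, ∃ c, KAc n N (1 / ((k : ℝ) + 1)) κ d c ∧ ¬ (PdL n N d ∧
      ∀ (x y z : Σ p, Fin (d p)), (x.1 : ℕ) + (y.1 : ℕ) = (z.1 : ℕ) → (z.1 : ℕ) ≤ n →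
        2 * (1 / ((k : ℝ) + 1)) ≤ |c x y z|) := by
    intro k
    by_contra h
    exact hcon ⟨1 / ((k : ℝ) + 1), by positivity, fun c hc => by
      by_contra h'
      exact h ⟨c, hc, h'⟩⟩
  choose c hc hnot using hbad
  have hKA : ∀ η : ℝ, 0 < η → KA n N η κ d := by
    intro η hη
    obtain ⟨k, hk⟩ := exists_nat_one_div_lt hη
    exact Nzw.KAc_KA (Nzw.KAc_mono hk.le (hc k))
  have hPd : PdL n N d := h9 n N d κ hn hκ hKA
  have hex : ∀ k : ℕ, ∃ t : (Σ p, Fin (d p)) × (Σ p, Fin (d p)) × (Σ p, Fin (d p)),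
      ((t.1.1 : ℕ) + (t.2.1.1 : ℕ) = (t.2.2.1 : ℕ) ∧ (t.2.2.1 : ℕ) ≤ n) ∧
        |c k t.1 t.2.1 t.2.2| < 2 * (1 / ((k : ℝ) + 1)) := by
    intro k
    by_contra h
    apply hnot k
    refine ⟨hPd, fun x y z hxy hz => ?_⟩
    by_contra h'
    exact h ⟨(x, y, z), ⟨hxy, hz⟩, not_le.1 h'⟩
  choose t ht1 ht2 using hex
  obtain ⟨⟨x, y, z⟩, hinf⟩ := Finite.exists_infinite_fiber t
  have hfreq : ∃ᶠ k in atTop, t k = (x, y, z) :=
    Nat.frequently_atTop_iff_infinite.2 (Set.infinite_coe_iff.1 hinf)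
  obtain ⟨ψ, hψ, hψt⟩ := extraction_of_frequently_atTop hfreq
  obtain ⟨φ, c', a, R, hφ, hct, hm, hL⟩ := h1 n N d κ (fun k => c (ψ k)) hn hκ (fun k =>
    Nzw.KAc_mono (by
      have h : (k : ℝ) ≤ (ψ k : ℝ) := by exact_mod_cast hψ.le_apply
      gcongr) (hc (ψ k)))
  obtain ⟨hxy, hz⟩ := ht1 (ψ 0)
  rw [hψt 0] at hxy hz
  refine Nzw.nz h2 h3 h4 h5 h6 h8 hn hPd.1.1 a R hL c' hm x y z hxy hz ?_
  have e1 : Tendsto (fun k => c (ψ (φ k)) x y z) atTop (𝓝 (c' x y z)) :=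
    tendsto_pi_nhds.1 (tendsto_pi_nhds.1 (tendsto_pi_nhds.1 hct x) y) z
  have e2 : Tendsto (fun k => c (ψ (φ k)) x y z) atTop (𝓝 0) := by
    rw [tendsto_zero_iff_abs_tendsto_zero]
    refine squeeze_zero (g := fun k : ℕ => 2 * (1 / ((k : ℝ) + 1))) (fun k => abs_nonneg _)
      (fun k => ?_) ?_
    · have h := ht2 (ψ (φ k))
      rw [hψt (φ k)] at h
      refine h.le.trans ?_
      have h2 : (k : ℝ) ≤ (ψ (φ k) : ℝ) := by exact_mod_cast (hψ.comp hφ).le_apply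
      gcongr
    · have h := (tendsto_one_div_add_atTop_nhds_zero_nat (𝕜 := ℝ)).const_mul 2
      rw [mul_zero] at h
      exact h
  exact tendsto_nhds_unique e1 e2

end Pool.Agent.H781.KP
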