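import Pool.Agent.H781.KP.L
import Pool.Agent.H781.KP.Gam

/-!
Project KL, task KL-04: the algebraic theorem (`S_PDLS` from `S_LIMC`, `S_AVG`, `S_SYM`, `S_RK1`,
`S_EIG`, `S_SCA`, `S_INV`, `S_EVN`, `S_WNZ`; by helper81 for helper781; the first part is the proof
of `s_pdk` by helper5).
-/

set_option autoImplicit false
set_option synthInstance.maxHeartbeats 400000
set_option maxHeartbeats 4000000
set_option linter.unusedSectionVars false

open MeasureTheory Filter
open scoped Topology ContDiff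

noncomputable section

namespace Pool.Agent.H781.KP

open Pool.Agent.H781.NG Pool.Agent.H781.CM Pool.Agent.H781.H6

namespace Pdls

/-- two orthonormal elements are linearly independent -/
theorem indep {n : ℕ} {u v : Fk n ℝ} (huu : ip u u = 1) (hvv : ip v v = 1) (huv : ip u v = 0)
    (hvu : ip v u = 0) (h : ∃ s t : ℝ, (s ≠ 0 ∨ t ≠ 0) ∧ s • u + t • v = 0) : False := by
  obtain ⟨s, t, hst, he⟩ := h
  have e1 : ip (s • u + t • v) u = 0 := by rw [he]; exact ip_zero_left u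
  have e2 : ip (s • u + t • v) v = 0 := by rw [he]; exact ip_zero_left v
  rw [ip_add_left, ip_smul_left, ip_smul_left, huu, hvu, mul_one, mul_zero, add_zero] at e1
  rw [ip_add_left, ip_smul_left, ip_smul_left, huv, hvv, mul_one, mul_zero, zero_add] at e2
  rcases hst with h | h
  · exact h e1
  · exact h e2

/-- the span has no part of the degree `s` if `d s = 0` -/
theorem span_zero {n N : ℕ} {d : Fin (N + 1) → ℕ} {a : (Σ p, Fin (d p)) → Fk n ℝ}
    (hDeg : ∀ x, Deg (x.1 : ℕ) (a x)) (c : (Σ p, Fin (d p)) → ℝ) {s : Fin (N + 1)}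
    (hs : d s = 0) {S : Finset (Fin n)} (hS : S.card = (s : ℕ)) : (∑ z, c z • a z) S = 0 := by
  rw [Finset.sum_apply]
  refine Finset.sum_eq_zero fun z _ => ?_
  have hne : S.card ≠ (z.1 : ℕ) := by
    intro h
    have h1 : z.1 = s := Fin.ext (by rw [← h, hS])
    have h3 : 0 < d z.1 := lt_of_le_of_lt (Nat.zero_le _) z.2.isLt
    rw [h1, hs] at h3
    exact lt_irrefl 0 h3
  rw [Pi.smul_apply, hDeg z S hne, smul_zero]

end Pdls

/-- the algebraic theorem -/
theorem s_pdls (h1 : S_LIMC) (h2 : S_AVG) (h3 : S_SYM) (h4 : S_RK1) (h5 : S_EIG) (h6 : S_SCA)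
    (h7 : S_INV) (h8 : S_EVN) (h9 : S_WNZ) : S_PDLS := by
  intro n N d κ hn hκ hKA
  obtain ⟨a, R0, hL0⟩ := h1 n N d κ hn hκ hKA
  obtain ⟨R, hL, hinv⟩ := h2 n (Σ p, Fin (d p)) (fun x => (x.1 : ℕ)) a R0 hL0
  obtain ⟨hSym, hTr, hInvF⟩ := h3 n (Σ p, Fin (d p)) (fun x => (x.1 : ℕ)) a R hL hinv
  obtain ⟨hDeg, hip, hmul, hAC, hC, hscl, -, -⟩ := hL
  have hrk := h4 n R hn hAC hC hSym hTr hscl
  obtain ⟨c, D, hc, hKS, hKD, hD2⟩ := h5 n R hn hAC hC hSym hTr hrk
  obtain ⟨hKS1, hKD1, hI1⟩ := h6 n R c D hc hKS hKD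
  obtain ⟨hDn, hform⟩ := h7 n _ D (le_trans one_le_two hn) hKS1 hKD1 hD2
  have hle : ∀ p, d p ≤ 1 := by
    intro p
    by_contra hp
    have hp2 : 2 ≤ d p := by omega
    have h0 : 0 < d p := by omega
    have h1' : 1 < d p := by omega
    set x : Σ p, Fin (d p) := ⟨p, ⟨0, h0⟩⟩ with hx
    set y : Σ p, Fin (d p) := ⟨p, ⟨1, h1'⟩⟩ with hy
    have hxy : x ≠ y := by
      intro e
      have e' : (⟨0, h0⟩ : Fin (d p)) = ⟨1, h1'⟩ := by
        have := Sigma.mk.inj e
        exact eq_of_heq this.2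
      have := congrArg Fin.val e'
      simp at this
    refine Pdls.indep (u := a x) (v := a y) ?_ ?_ ?_ ?_
      ((hform (p : ℕ)).2 (a x) (a y) (hDeg x) (hDeg y) (hI1 _ (hInvF x)) (hI1 _ (hInvF y)))
    · rw [hip, if_pos rfl]
    · rw [hip, if_pos rfl]
    · rw [hip, if_neg hxy]
    · rw [hip, if_neg (Ne.symm hxy)]
  have hne : ∀ x, a x ≠ 0 := by
    intro x hx
    have h := hip x x
    rw [hx, ip_zero_left, if_pos rfl] at h
    exact zero_ne_one h
  refine ⟨⟨hle, D, hD2, hDn, ?_, ?_⟩, ?_, ?_⟩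
  · rcases Nat.lt_or_ge D n with hlt | hge
    · exact Or.inr (h8 n _ D hKS1 hKD1 hD2 hlt)
    · exact Or.inl (le_antisymm (Nat.le_of_dvd (by omega) hDn) hge)
  · intro p hp
    by_contra hnd
    have h0 : 0 < d p := Nat.pos_of_ne_zero hp
    exact hne ⟨p, ⟨0, h0⟩⟩ ((hform (p : ℕ)).1 (a ⟨p, ⟨0, h0⟩⟩) (hDeg ⟨p, ⟨0, h0⟩⟩)
      (hI1 _ (hInvF ⟨p, ⟨0, h0⟩⟩)) hnd)
  · intro p q s hpq hs hp hq hds
    have hp0 : 0 < d p := Nat.pos_of_ne_zero hp
    have hq0 : 0 < d q := Nat.pos_of_ne_zero hq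
    have hw := h9 n _ D (le_trans one_le_two hn) hKS1 hKD1 hD2 (p : ℕ) (q : ℕ)
      (a ⟨p, ⟨0, hp0⟩⟩) (a ⟨q, ⟨0, hq0⟩⟩) (by omega) (hDeg ⟨p, ⟨0, hp0⟩⟩) (hDeg ⟨q, ⟨0, hq0⟩⟩)
      (hI1 _ (hInvF ⟨p, ⟨0, hp0⟩⟩)) (hI1 _ (hInvF ⟨q, ⟨0, hq0⟩⟩)) (hne _) (hne _)
    apply hw
    obtain ⟨c', hc'⟩ := hmul ⟨p, ⟨0, hp0⟩⟩ ⟨q, ⟨0, hq0⟩⟩
    rw [hc']
    funext S
    unfold dg
    split_ifs with hS
    · exact Pdls.span_zero hDeg c' hds (by rw [hS, hpq])
    · rfl
  · intro s hs hds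
    have hs0 : 0 < d s := Nat.pos_of_ne_zero hds
    set o : Σ p, Fin (d p) := ⟨s, ⟨0, hs0⟩⟩ with ho
    -- the volume element
    have hoS : ∀ S : Finset (Fin n), S ≠ Finset.univ → a o S = 0 := by
      intro S hS
      refine hDeg o S ?_
      intro h
      apply hS
      rw [← Finset.card_eq_iff_eq_univ, Fintype.card_fin]
      rw [h]
      exact hs
    have hoG : a o = (a o Finset.univ) • Gam n := by
      funext S
      rw [Pi.smul_apply, smul_eq_mul]
      unfold Gam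
      split_ifs with hS
      · rw [hS, mul_one]
      · rw [hoS S hS, mul_zero]
    have hou : a o Finset.univ ≠ 0 := by
      intro h
      apply hne o
      rw [hoG, h, zero_smul]
    have hkey : ∀ p q : Fin (N + 1), (p : ℕ) + (q : ℕ) = n → d p ≠ 0 → d q ≠ 0 := by
      intro p q hpq hp hq
      have hp0 : 0 < d p := Nat.pos_of_ne_zero hp
      set x : Σ p, Fin (d p) := ⟨p, ⟨0, hp0⟩⟩ with hx
      obtain ⟨S0, hS0⟩ : ∃ S0, a x S0 ≠ 0 := by
        by_contra hcon
        push Not at hcon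
        exact hne x (funext hcon)
      have hS0c : S0.card = (p : ℕ) := by
        by_contra hcon
        exact hS0 (hDeg x S0 hcon)
      obtain ⟨c', hc'⟩ := hmul x o
      have hR : (S0ᶜ).card = (q : ℕ) := by
        rw [Finset.card_compl, Fintype.card_fin, hS0c]
        omega
      have h0 := Pdls.span_zero hDeg c' hq hR
      rw [← hc'] at h0
      have h1' : mulF (a x) (a o) = (a o Finset.univ) • mulF (a x) (Gam n) := by
        conv_lhs => rw [hoG]
        funext T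
        simp only [mulF, Pi.smul_apply, smul_eq_mul, Finset.mul_sum]
        exact Finset.sum_congr rfl fun S _ => by ring
      rw [h1', Pi.smul_apply, smul_eq_mul, Gam.mul_gam, compl_compl] at h0
      rcases mul_eq_zero.1 h0 with h | h
      · exact hou h
      · rcases mul_eq_zero.1 h with h | h
        · unfold sg2 at h
          push_cast at h
          exact pow_ne_zero _ (by norm_num) h
        · exact hS0 h
    intro p q hpq
    have e1 := hkey p q hpq
    have e2 := hkey q p (by omega)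
    have e3 := hle p
    have e4 := hle q
    by_cases hp : d p = 0
    · by_cases hq : d q = 0
      · rw [hp, hq]
      · exact absurd hp (e2 hq)
    · have := e1 hp
      omega

end Pool.Agent.H781.KP
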