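import Pool.Agent.H781.KP.L

/-!
Project KP, cohomology ring in all degrees (MP_4e0d62_gt). Statements.
-/

set_option autoImplicit false
set_option synthInstance.maxHeartbeats 400000
set_option maxHeartbeats 4000000
set_option linter.unusedSectionVars false

open MeasureTheory Filter
open scoped Topology ContDiff

noncomputable section

namespace Pool.Agent.H781.KP

open Pool.Agent.H781.NG Pool.Agent.H781.CM Pool.Agent.H781.H6

/-- the structure constants do not vanish -/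
def S_NZW : Prop := ∀ (n N : ℕ) (d : Fin (N + 1) → ℕ) (κ : ℝ), 2 ≤ n → 0 < κ →
  ∃ η : ℝ, 0 < η ∧ ∀ c, KAc n N η κ d c → PdL n N d ∧
    ∀ (x y z : Σ p, Fin (d p)), (x.1 : ℕ) + (y.1 : ℕ) = (z.1 : ℕ) → (z.1 : ℕ) ≤ n →
      2 * η ≤ |c x y z|

/-- the arithmetic of the dimensions -/
def S_ARI : Prop := ∀ (n N : ℕ) (d : Fin (N + 1) → ℕ) (b : ℕ → ℕ), n ≤ N → 2 ≤ n → PdL n N d →
  d 0 = 1 → (∀ p : Fin (N + 1), b p ≤ d p) → (∀ p, N < p → b p = 0) →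
  ∑ p : Fin (N + 1), (-1 : ℤ) ^ (p : ℕ) * (d p : ℤ) =
    ∑ p ∈ Finset.range (N + 1), (-1 : ℤ) ^ p * (b p : ℤ) →
  BSt n b ∧ (Even n → ∀ p : Fin (N + 1), b p = d p)

/-- the abstract theorem -/
def S_CHIW : Prop := ∀ (N n : ℕ) (κ : ℝ), n ≤ N → 3 ≤ N → 2 ≤ n → 0 < κ → ∃ ε : ℝ, 0 < ε ∧
  ∀ (M : Type) [TopologicalSpace M] [CompactSpace M] [MeasurableSpace M] [BorelSpace M]
    (C : CD M N), CurvGE C ε → PtK C n κ → Conn C → Moll C → Dense2 C → Reg C →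
    BSt n (bet C) ∧
    ∀ p q : ℕ, 1 ≤ p → 1 ≤ q → p + q ≤ n → ∀ α ∈ Zp C p, ∀ β ∈ Zp C q, α ∉ Bp C p → β ∉ Bp C q →
      dg (p + q) (mulF α β) ∉ Bp C (p + q)

end Pool.Agent.H781.KP
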