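import Pool.Agent.H781.KP.K
import Pool.Agent.H781.H6.Bic

/-!
Project KP, structure theorem: invariant forms.
-/

set_option autoImplicit false
set_option synthInstance.maxHeartbeats 400000
set_option maxHeartbeats 4000000
set_option linter.unusedSectionVars false

open MeasureTheory Filter
open scoped Topology ContDiff

noncomputable section

namespace Pool.Agent.H781.KP

open Pool.Agent.H781.NG Pool.Agent.H781.CM Pool.Agent.H781.H6

namespace Inv

theorem dX_lin {n : ℕ} (X : Fin n → Fin n → ℝ) (s t : ℝ) (u v : Fk n ℝ) :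
    dX X (s • u + t • v) = s • dX X u + t • dX X v := by
  unfold dX
  simp only [map_add, map_smul, smul_add, Finset.sum_add_distrib, Finset.smul_sum]
  congr 1
  · exact Finset.sum_congr rfl fun i _ => Finset.sum_congr rfl fun a _ => smul_comm _ _ _
  · exact Finset.sum_congr rfl fun i _ => Finset.sum_congr rfl fun a _ => smul_comm _ _ _

theorem invF_lin {n : ℕ} {R : T4 n} {u v : Fk n ℝ} (hu : InvF R u) (hv : InvF R v) (s t : ℝ) :
    InvF R (s • u + t • v) := by
  intro w hw
  rw [dX_lin, hu w hw, hv w hw, smul_zero, smul_zero, add_zero]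

theorem deg_lin {n p : ℕ} {u v : Fk n ℝ} (hu : Deg p u) (hv : Deg p v) (s t : ℝ) :
    Deg p (s • u + t • v) := by
  intro S hS
  rw [Pi.add_apply, Pi.smul_apply, Pi.smul_apply, hu S hS, hv S hS, smul_zero, smul_zero,
    add_zero]

theorem rF_lin {D r : ℕ} (u v : Fk (D + r) ℝ) (s t : ℝ) :
    rF (s • u + t • v) = s • rF u + t • rF v := rfl

theorem two_dim (x y : ℝ) : ∃ s t : ℝ, (s ≠ 0 ∨ t ≠ 0) ∧ s * x + t * y = 0 := by
  by_cases hx : x = 0
  · exact ⟨1, 0, Or.inl one_ne_zero, by rw [hx]; ring⟩
  · exact ⟨y, -x, Or.inr (neg_ne_zero.2 hx), by ring⟩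

theorem one_supp {n : ℕ} (S0 : Finset (Fin n)) (u v : Fk n ℝ) (hu : ∀ S, S ≠ S0 → u S = 0)
    (hv : ∀ S, S ≠ S0 → v S = 0) : ∃ s t : ℝ, (s ≠ 0 ∨ t ≠ 0) ∧ s • u + t • v = 0 := by
  obtain ⟨s, t, h, e⟩ := two_dim (u S0) (v S0)
  refine ⟨s, t, h, ?_⟩
  funext S
  by_cases hS : S = S0
  · rw [hS]
    exact e
  · rw [Pi.add_apply, Pi.smul_apply, Pi.smul_apply, hu S hS, hv S hS, smul_zero, smul_zero,
      add_zero]
    rfl

theorem vanish {D r : ℕ} (u : Fk (D + r) ℝ) (h : rF u = 0) (S : Finset (Fin (D + r)))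
    (hS : ∀ i ∈ S, D ≤ (i : ℕ)) : u S = 0 := by
  have h1 : S = (Finset.univ.filter (fun j : Fin r => Fin.natAdd D j ∈ S)).map
      (Fin.natAddEmb D) := by
    ext i
    simp only [Finset.mem_map, Finset.mem_filter, Finset.mem_univ, true_and,
      Fin.natAddEmb_apply]
    constructor
    · intro hi
      have h2 := hS i hi
      have h3 := i.isLt
      obtain ⟨j, rfl⟩ : ∃ j : Fin r, Fin.natAdd D j = i :=
        ⟨⟨(i : ℕ) - D, by omega⟩, by ext; simp only [Fin.val_natAdd]; omega⟩
      exact ⟨j, hi, rfl⟩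
    · rintro ⟨j, hj, rfl⟩
      exact hj
  rw [h1]
  exact congrFun h _

theorem deg_gt {n p : ℕ} {u : Fk n ℝ} (hu : Deg p u) (h : n < p) : u = 0 := by
  funext S
  refine hu S ?_
  have h1 := S.card_le_univ
  rw [Fintype.card_fin] at h1
  omega

theorem deg_top {n : ℕ} {u : Fk n ℝ} (hu : Deg n u) (S : Finset (Fin n)) (hS : S ≠ Finset.univ) :
    u S = 0 := by
  refine hu S fun h => hS ?_
  rw [← Finset.card_eq_iff_eq_univ, h, Fintype.card_fin]

end Inv

open Pool.Agent.H781.KP.Inv in
/-- invariant forms -/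
theorem s_inv (h1 : S_INJ) (h2 : S_BAS) (h3 : S_RST) : S_INV := by
  intro n
  induction n using Nat.strong_induction_on with
  | _ n ih =>
    intro R D hn hKS hKD hD
    obtain ⟨hDn, hbas⟩ := h2 n R D hn hKS hKD hD
    obtain ⟨r, e⟩ : ∃ r, n = D + r := ⟨n - D, by omega⟩
    obtain ⟨b, hON, hHL, hr⟩ := hbas r e
    obtain ⟨T, hTi, hTd, hTI, hTd2, hTI2⟩ := h3 n R hKS.1 D r e b hON hHL
    have hAC : IsAC (fun i j k l => R4 R (b i) (b j) (b k) (b l)) := Bic.ac hKS.1 b
    have hrn : r < n := by omega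
    -- forms which vanish on the complement
    have L : ∀ p (u : Fk n ℝ), p < n → Deg p u → InvF R u → rF (T u) = 0 → u = 0 := by
      intro p u hp hu hI h0
      have h4 : T u = 0 := h1 D r _ p (T u) (by omega) hAC hHL (hTd p u hu) (by omega)
        (hTI u hI) fun S hS => vanish (T u) h0 S hS
      exact hTi (h4.trans (map_zero T).symm)
    have hDdvd : D ∣ n := by
      rcases Nat.eq_zero_or_pos r with h0 | h0
      · rw [e, h0, add_zero]
      · have h5 := (ih r hrn _ D h0 (hr h0).1 (hr h0).2 hD).1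
        rw [e]
        exact (Nat.dvd_add_right (dvd_refl D)).2 h5
    refine ⟨hDdvd, fun p => ⟨?_, ?_⟩⟩
    · intro u hu hI hp
      rcases lt_trichotomy p n with h | h | h
      · refine L p u h hu hI ?_
        rcases Nat.eq_zero_or_pos r with h0 | h0
        · funext S
          refine hTd2 p u hu S ?_
          have h6 : S.card = 0 := by
            have h7 := S.card_le_univ
            rw [Fintype.card_fin] at h7
            omega
          rw [h6]
          rintro rfl
          exact hp (dvd_zero D)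
        · exact ((ih r hrn _ D h0 (hr h0).1 (hr h0).2 hD).2 p).1 _ (hTd2 p u hu) (hTI2 u hI) hp
      · exact absurd (h ▸ hDdvd) hp
      · exact deg_gt hu h
    · intro u u' hu hu' hI hI'
      rcases lt_trichotomy p n with h | h | h
      · have h8 : ∃ s t : ℝ, (s ≠ 0 ∨ t ≠ 0) ∧ s • rF (T u) + t • rF (T u') = 0 := by
          rcases Nat.eq_zero_or_pos r with h0 | h0
          · refine one_supp ∅ _ _ (fun S hS => ?_) (fun S hS => ?_)
            · exfalso
              apply hS
              rw [← Finset.card_eq_zero]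
              have h7 := S.card_le_univ
              rw [Fintype.card_fin] at h7
              omega
            · exfalso
              apply hS
              rw [← Finset.card_eq_zero]
              have h7 := S.card_le_univ
              rw [Fintype.card_fin] at h7
              omega
          · exact ((ih r hrn _ D h0 (hr h0).1 (hr h0).2 hD).2 p).2 _ _ (hTd2 p u hu)
              (hTd2 p u' hu') (hTI2 u hI) (hTI2 u' hI')
        obtain ⟨s, t, hst, h9⟩ := h8
        refine ⟨s, t, hst, L p _ h (deg_lin hu hu' s t) (invF_lin hI hI' s t) ?_⟩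
        rw [map_add, map_smul, map_smul, rF_lin, h9]
      · subst h
        exact one_supp Finset.univ u u' (deg_top hu) (deg_top hu')
      · exact ⟨1, 0, Or.inl one_ne_zero, by rw [deg_gt hu h, smul_zero, zero_smul, add_zero]⟩

end Pool.Agent.H781.KP
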