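import Pool.Agent.H781.KP.L
import Pool.Agent.H781.KP.Inv

/-!
Project KP, structure theorem, second part: exterior products of invariant forms
(helper972 for helper781).
-/

set_option autoImplicit false
set_option synthInstance.maxHeartbeats 400000
set_option maxHeartbeats 4000000
set_option linter.unusedSectionVars false

open MeasureTheory Filter
open scoped Topology ContDiff

noncomputable section

namespace Pool.Agent.H781.KP

open Pool.Agent.H781.NG Pool.Agent.H781.CM Pool.Agent.H781.H6

namespace Wnz

theorem deg0_val {n : ℕ} {u : Fk n ℝ} (hu : Deg 0 u) (hu0 : u ≠ 0) : u ∅ ≠ 0 := by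
  intro h
  apply hu0
  funext S
  by_cases hS : S = ∅
  · rw [hS, h]
    rfl
  · refine hu S fun h1 => hS ?_
    exact Finset.card_eq_zero.1 h1

theorem deg0 {n : ℕ} {u v : Fk n ℝ} (hu : Deg 0 u) (hv : Deg 0 v) (hu0 : u ≠ 0) (hv0 : v ≠ 0) :
    dg 0 (mulF u v) ≠ 0 := by
  intro h
  have h1 := congrFun h ∅
  unfold dg mulF at h1
  simp only [Finset.card_empty, if_true] at h1
  rw [Finset.sum_eq_single_of_mem (∅ : Finset (Fin n)) (Finset.mem_univ _)] at h1
  · have h2 : symmDiff (∅ : Finset (Fin n)) ∅ = ∅ := symmDiff_self _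
    rw [h2] at h1
    have h3 : sg2 (∅ : Finset (Fin n)) ∅ = 1 := by
      unfold sg2
      simp
    rw [h3] at h1
    have h4 : u ∅ * v ∅ = 0 := by simpa using h1
    rcases mul_eq_zero.1 h4 with h5 | h5
    · exact deg0_val hu hu0 h5
    · exact deg0_val hv hv0 h5
  · intro S _ hS
    have h2 : u S = 0 := hu S fun h3 => hS (Finset.card_eq_zero.1 h3)
    rw [h2, mul_zero, zero_mul]

end Wnz

open Pool.Agent.H781.KP.Inv Pool.Agent.H781.KP.Wnz in
/-- exterior products of invariant forms -/
theorem s_wnz (h1 : S_INJ) (h2 : S_BAS) (h3 : S_RSTW) (h4 : S_DUAL) (h5 : S_INV) : S_WNZ := by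
  intro n
  induction n using Nat.strong_induction_on with
  | _ n ih =>
    intro R D hn hKS hKD hD p q u v hpq hu hv hIu hIv hu0 hv0
    obtain ⟨hDn, hfor⟩ := h5 n R D hn hKS hKD hD
    rcases Nat.lt_or_ge (p + q) n with hlt | hge
    · rcases Nat.eq_zero_or_pos (p + q) with h0 | h0
      · have hp : p = 0 := by omega
        have hq : q = 0 := by omega
        subst hp
        subst hq
        exact deg0 hu hv hu0 hv0
      · obtain ⟨hDle, hbas⟩ := h2 n R D hn hKS hKD hD
        obtain ⟨r, e⟩ : ∃ r, n = D + r := ⟨n - D, by omega⟩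
        obtain ⟨b, hON, hHL, hr⟩ := hbas r e
        obtain ⟨T, hTi, hTd, hTI, hTd2, hTI2, hTm⟩ := h3 n R hKS.1 D r e b hON hHL
        have hAC : IsAC (fun i j k l => R4 R (b i) (b j) (b k) (b l)) := Bic.ac hKS.1 b
        have hrn : r < n := by omega
        -- forms which vanish on the complement
        have L : ∀ p (u : Fk n ℝ), p < n → Deg p u → InvF R u → u ≠ 0 → rF (T u) ≠ 0 := by
          intro p u hp hu hI hne h0
          have h6 : T u = 0 := h1 D r _ p (T u) (by omega) hAC hHL (hTd p u hu) (by omega)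
            (hTI u hI) fun S hS => vanish (T u) h0 S hS
          exact hne (hTi (h6.trans (map_zero T).symm))
        have hDp : D ∣ p := by
          by_contra hc
          exact hu0 ((hfor p).1 u hu hIu hc)
        have hDq : D ∣ q := by
          by_contra hc
          exact hv0 ((hfor q).1 v hv hIv hc)
        have hle : p + q ≤ r := by
          have h7 : D ∣ n - (p + q) := Nat.dvd_sub hDn (dvd_add hDp hDq)
          have h8 := Nat.le_of_dvd (by omega) h7
          omega
        have hr0 : 0 < r := by omega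
        have h9 := ih r hrn _ D hr0 (hr hr0).1 (hr hr0).2 hD p q _ _ hle (hTd2 p u hu)
          (hTd2 q v hv) (hTI2 u hIu) (hTI2 v hIv) (L p u (by omega) hu hIu hu0)
          (L q v (by omega) hv hIv hv0)
        intro h10
        apply h9
        rw [← hTm p q u v hu hv, h10, map_zero]
        rfl
    · have he : p + q = n := le_antisymm hpq hge
      rw [he]
      exact h4 n R p q u v hKS.1 he (fun w w' hw hw' hIw hIw' =>
        (hfor p).2 w w' hw hw' hIw hIw') hu hv hIu hIv hu0 hv0

end Pool.Agent.H781.KP
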