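import Pool.Agent.H781.KP.AllX
import Pool.Agent.H781.KP.AllR
import Pool.Agent.H781.KP.W
import Pool.Agent.H781.KP.Rstwb
import Pool.Agent.H781.KP.Dual
import Pool.Agent.H781.KP.Wnz
import Pool.Agent.H781.KP.Pdls
import Pool.Agent.H781.KP.Nzw
import Pool.Agent.H781.KP.Ari
import Pool.Agent.H781.KP.Chiw

/-!
Assembly of the abstract theorem on products.
-/

set_option autoImplicit false

namespace Pool.Agent.H781.KP

open Pool.Agent.H781.CM Pool.Agent.H781.H6

theorem wnz : S_WNZ := s_wnz s_inj s_bas (s_rstw s_tau (s_tmul s_clif)) (s_dual s_clif) inv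

theorem pdls : S_PDLS := s_pdls limc avg sym s_rk1 s_eig s_sca inv s_evn wnz

theorem nzw : S_NZW := s_nzw lims avg sym s_rk1 s_eig s_sca inv wnz pdls

theorem chiw : S_CHIW := s_chiw finr nzw s_ari wdg (s_harm spec ddh) ddh hodge

end Pool.Agent.H781.KP
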