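import Pool.Agent.H781.KP.K
import Pool.Agent.H781.KP.Hsc

/-!
Project KP, structure theorem: adapted orthonormal bases (by helper718 for helper781).
-/

set_option autoImplicit false
set_option synthInstance.maxHeartbeats 400000
set_option maxHeartbeats 4000000
set_option linter.unusedSectionVars false

open MeasureTheory Filter
open scoped Topology ContDiff

noncomputable section

namespace Pool.Agent.H781.KP

open Pool.Agent.H781.NG Pool.Agent.H781.CM Pool.Agent.H781.H6

namespace Basb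

variable {n : ℕ}

theorem dtc (x y : Fin n → ℝ) : dt x y = dt y x :=
  Finset.sum_congr rfl fun _ _ => mul_comm _ _

theorem dta (x y z : Fin n → ℝ) : dt (x + y) z = dt x z + dt y z := by
  simp only [dt, Pi.add_apply, add_mul, Finset.sum_add_distrib]

theorem dta' (x y z : Fin n → ℝ) : dt x (y + z) = dt x y + dt x z := by
  rw [dtc, dta, dtc y, dtc z]

theorem dts (c : ℝ) (x y : Fin n → ℝ) : dt (c • x) y = c * dt x y := by
  simp only [dt, Pi.smul_apply, smul_eq_mul, Finset.mul_sum, mul_assoc]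

theorem dts' (c : ℝ) (x y : Fin n → ℝ) : dt x (c • y) = c * dt x y := by
  rw [dtc, dts, dtc]

theorem dtn (x y : Fin n → ℝ) : dt (-x) y = - dt x y := by
  have h := dts (-1) x y
  rw [neg_one_smul] at h
  linarith

theorem dtn' (x y : Fin n → ℝ) : dt x (-y) = - dt x y := by
  rw [dtc, dtn, dtc]

theorem dtb (x y z : Fin n → ℝ) : dt (x - y) z = dt x z - dt y z := by
  rw [sub_eq_add_neg, dta, dtn]
  ring

theorem dt0 (y : Fin n → ℝ) : dt 0 y = 0 := by simp [dt]

theorem dt0' (y : Fin n → ℝ) : dt y 0 = 0 := by simp [dt]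

theorem dtnn (x : Fin n → ℝ) : 0 ≤ dt x x := Finset.sum_nonneg fun _ _ => mul_self_nonneg _

theorem dtz {x : Fin n → ℝ} (h : dt x x = 0) : x = 0 := by
  funext a
  have h1 := (Finset.sum_eq_zero_iff_of_nonneg (fun i _ => mul_self_nonneg (x i))).1 h a
    (Finset.mem_univ a)
  exact mul_self_eq_zero.1 h1

/-- normalisation -/
theorem scl (x : Fin n → ℝ) : x = 0 ∨ ∃ (s t : ℝ) (u : Fin n → ℝ), dt u u = 1 ∧ x = s • u ∧
    u = t • x := by
  by_cases h : dt x x = 0
  · exact Or.inl (dtz h)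
  · right
    have hp : 0 < dt x x := lt_of_le_of_ne (dtnn x) (Ne.symm h)
    have hs : 0 < Real.sqrt (dt x x) := Real.sqrt_pos.2 hp
    refine ⟨Real.sqrt (dt x x), (Real.sqrt (dt x x))⁻¹, (Real.sqrt (dt x x))⁻¹ • x, ?_, ?_, rfl⟩
    · rw [dts, dts']
      have h2 : Real.sqrt (dt x x) * Real.sqrt (dt x x) = dt x x := Real.mul_self_sqrt hp.le
      have h3 : (Real.sqrt (dt x x))⁻¹ * Real.sqrt (dt x x) = 1 := inv_mul_cancel₀ hs.ne'
      calc (Real.sqrt (dt x x))⁻¹ * ((Real.sqrt (dt x x))⁻¹ * dt x x)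
          = ((Real.sqrt (dt x x))⁻¹ * Real.sqrt (dt x x)) *
            ((Real.sqrt (dt x x))⁻¹ * Real.sqrt (dt x x)) := by
              nth_rewrite 3 [← h2]
              ring
        _ = 1 := by rw [h3]; ring
    · rw [smul_smul, mul_inv_cancel₀ hs.ne', one_smul]

section RVs

variable (R : T4 n)

theorem a1 (x x' y z : Fin n → ℝ) : RV R (x + x') y z = RV R x y z + RV R x' y z := by
  funext d
  simp only [RV, Pi.add_apply, mul_add, add_mul, Finset.sum_add_distrib]

theorem a2 (x y y' z : Fin n → ℝ) : RV R x (y + y') z = RV R x y z + RV R x y' z := by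
  funext d
  simp only [RV, Pi.add_apply, mul_add, add_mul, Finset.sum_add_distrib]

theorem a3 (x y z z' : Fin n → ℝ) : RV R x y (z + z') = RV R x y z + RV R x y z' := by
  funext d
  simp only [RV, Pi.add_apply, mul_add, Finset.sum_add_distrib]

theorem s1 (c : ℝ) (x y z : Fin n → ℝ) : RV R (c • x) y z = c • RV R x y z := by
  funext d
  simp only [RV, Pi.smul_apply, smul_eq_mul, Finset.mul_sum]
  refine Finset.sum_congr rfl fun a _ => Finset.sum_congr rfl fun b _ =>
    Finset.sum_congr rfl fun e _ => ?_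
  ring

theorem s2 (c : ℝ) (x y z : Fin n → ℝ) : RV R x (c • y) z = c • RV R x y z := by
  funext d
  simp only [RV, Pi.smul_apply, smul_eq_mul, Finset.mul_sum]
  refine Finset.sum_congr rfl fun a _ => Finset.sum_congr rfl fun b _ =>
    Finset.sum_congr rfl fun e _ => ?_
  ring

theorem s3 (c : ℝ) (x y z : Fin n → ℝ) : RV R x y (c • z) = c • RV R x y z := by
  funext d
  simp only [RV, Pi.smul_apply, smul_eq_mul, Finset.mul_sum]
  refine Finset.sum_congr rfl fun a _ => Finset.sum_congr rfl fun b _ =>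
    Finset.sum_congr rfl fun e _ => ?_
  ring

theorem dR (x y z w : Fin n → ℝ) : dt (RV R x y z) w = R4 R x y z w := by
  unfold dt RV R4
  simp only [Finset.sum_mul]
  rw [Finset.sum_comm]
  refine Finset.sum_congr rfl fun a _ => ?_
  rw [Finset.sum_comm]
  refine Finset.sum_congr rfl fun b _ => ?_
  rw [Finset.sum_comm]

/-- vectors with the same scalar products -/
theorem ext_dt {x y : Fin n → ℝ} (h : ∀ w, dt x w = dt y w) : x = y := by
  have h1 : dt (x - y) (x - y) = 0 := by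
    rw [dtb, h]
    ring
  exact sub_eq_zero.1 (dtz h1)

variable {R}

theorem sw (hR : IsAC R) (x y z : Fin n → ℝ) : RV R x y z = - RV R y x z := by
  refine ext_dt fun w => ?_
  rw [dtn, dR, dR, Hsc.R4_12 hR]

theorem bi (hR : IsAC R) (x y z : Fin n → ℝ) : RV R x y z + RV R y z x + RV R z x y = 0 := by
  refine ext_dt fun w => ?_
  rw [dta, dta, dR, dR, dR, Hsc.R4_bi hR, dt0]

theorem slf (hR : IsAC R) (x z : Fin n → ℝ) : RV R x x z = 0 := by
  have h := sw hR x x z
  have h2 : (2 : ℝ) • RV R x x z = 0 := by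
    rw [two_smul]
    nth_rewrite 1 [h]
    simp
  exact (smul_eq_zero.1 h2).resolve_left two_ne_zero

/-- the Jacobi operators are symmetric -/
theorem sym (hR : IsAC R) (v w x : Fin n → ℝ) : dt (RV R v x x) w = dt v (RV R w x x) := by
  rw [dtc v, dR, dR, Hsc.R4_pr hR, Hsc.R4_12 hR, Hsc.R4_34 hR, neg_neg]

theorem e41 (hR : IsAC R) {x v w : Fin n → ℝ} (hv : v ∈ Eg R (4 * 1) x) (hw : w ∈ Eg R 1 x) :
    dt v w = 0 := by
  have h := sym hR v w x
  rw [hv.2, hw.2, dts, dts'] at h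
  linarith

end RVs

section Geo

variable {R : T4 n}

theorem fc (hK : KS 1 R) {x y v : Fin n → ℝ} (hx : dt x x = 1) (hy : y ∈ Eg R (4 * 1) x)
    (hv : v ∈ Eg R (4 * 1) x) : RV R x y v = (4 * dt y v) • x := by
  have key : ∀ u : Fin n → ℝ, dt u u = 1 → u ∈ Eg R (4 * 1) x →
      RV R x u v = (4 * dt u v) • x := by
    intro u hu hum
    obtain ⟨h1, h2⟩ := hK.2.2.2 x u hx hu (by rw [dtc]; exact hum.1) hum.2
    have hv' : v - dt v u • u ∈ Eg R (4 * 1) x :=
      Submodule.sub_mem _ hv (Submodule.smul_mem _ _ hum)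
    have h3 : dt (v - dt v u • u) u = 0 := by
      rw [dtb, dts, hu]
      ring
    have h4 := ((h2 (v - dt v u • u) hv'.1 h3).1 hv'.2).1
    have h5 : RV R x u v = RV R x u (v - dt v u • u) + dt v u • RV R x u u := by
      rw [← s3, ← a3, sub_add_cancel]
    rw [h5, h4, h1, dtc u v]
    module
  rcases scl y with h | ⟨s, t, u, hu, hy1, hy2⟩
  · subst h
    have h0 : RV R x 0 v = 0 := by
      have := s2 R 0 x 0 v
      simpa using this
    rw [h0, dt0]
    simp
  · have hum : u ∈ Eg R (4 * 1) x := by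
      rw [hy2]
      exact Submodule.smul_mem _ _ hy
    rw [hy1, s2, key u hu hum, dts]
    module

theorem fd (hK : KS 1 R) {x y v : Fin n → ℝ} (hx : dt x x = 1) (hy : y ∈ Eg R (4 * 1) x)
    (hv : v ∈ Eg R (4 * 1) x) : RV R y v x = 0 := by
  have h := bi hK.1 y v x
  rw [sw hK.1 v x y, fc hK hx hv hy, fc hK hx hy hv, dtc v y] at h
  have h2 : RV R y v x = RV R y v x + -((4 * dt y v) • x) + (4 * dt y v) • x := by abel
  rw [h2, h]

theorem fe (hK : KS 1 R) {x y v w : Fin n → ℝ} (hx : dt x x = 1) (hy : y ∈ Eg R (4 * 1) x)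
    (hv : v ∈ Eg R (4 * 1) x) (hw : w ∈ Eg R (4 * 1) x) :
    RV R y v w = (4 * dt v w) • y - (4 * dt y w) • v := by
  have key : ∀ u : Fin n → ℝ, dt u u = 1 → u ∈ Eg R (4 * 1) x →
      RV R u v w = (4 * dt v w) • u - (4 * dt u w) • v := by
    intro u hu hum
    obtain ⟨h1, h2⟩ := hK.2.2.2 x u hx hu (by rw [dtc]; exact hum.1) hum.2
    have dec : ∀ z ∈ Eg R (4 * 1) x, ∃ z' ∈ Eg R (4 * 1) u, z = dt z u • u + z' := by
      intro z hz
      have hz' : z - dt z u • u ∈ Eg R (4 * 1) x :=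
        Submodule.sub_mem _ hz (Submodule.smul_mem _ _ hum)
      have h3 : dt (z - dt z u • u) u = 0 := by
        rw [dtb, dts, hu]
        ring
      refine ⟨z - dt z u • u, ⟨h3, ((h2 (z - dt z u • u) hz'.1 h3).1 hz'.2).2⟩, ?_⟩
      abel
    obtain ⟨v', hv', hve⟩ := dec v hv
    obtain ⟨w', hw', hwe⟩ := dec w hw
    generalize dt v u = α at hve
    generalize dt w u = β at hwe
    have h6 : dt u v' = 0 := by rw [dtc]; exact hv'.1
    have h7 : dt u w' = 0 := by rw [dtc]; exact hw'.1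
    have h8 : dt v' u = 0 := hv'.1
    rw [hve, hwe, a2, a3, a3, s2, s2, s3, s3, slf hK.1, slf hK.1, sw hK.1 u v' u, hv'.2,
      fc hK hu hv' hw', dta, dta', dta', dta', dts, dts, dts', dts', hu, h7, h8]
    module
  rcases scl y with h | ⟨s, t, u, hu, hy1, hy2⟩
  · subst h
    have h0 : RV R 0 v w = 0 := by
      have := s1 R 0 0 v w
      simpa using this
    rw [h0, dt0]
    simp
  · have hum : u ∈ Eg R (4 * 1) x := by
      rw [hy2]
      exact Submodule.smul_mem _ _ hy
    rw [hy1, s1, key u hu hum, dts]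
    module

/-- the line through `x` -/
def Lx (R : T4 n) (x : Fin n → ℝ) : Submodule ℝ (Fin n → ℝ) :=
  Submodule.span ℝ {x} ⊔ Eg R (4 * 1) x

theorem mLx {x a : Fin n → ℝ} (h : a ∈ Lx R x) : ∃ (α : ℝ) (y : Fin n → ℝ),
    y ∈ Eg R (4 * 1) x ∧ a = α • x + y := by
  obtain ⟨p, hp, y, hy, e⟩ := Submodule.mem_sup.1 h
  obtain ⟨α, rfl⟩ := Submodule.mem_span_singleton.1 hp
  exact ⟨α, y, hy, e.symm⟩

theorem f1 (hK : KS 1 R) {x a b c : Fin n → ℝ} (hx : dt x x = 1) (ha : a ∈ Lx R x)
    (hb : b ∈ Lx R x) (hc : c ∈ Lx R x) :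
    RV R a b c = (4 * dt b c) • a - (4 * dt a c) • b := by
  obtain ⟨α, y, hy, rfl⟩ := mLx ha
  obtain ⟨β, v, hv, rfl⟩ := mLx hb
  obtain ⟨γ, w, hw, rfl⟩ := mLx hc
  have hvx : dt v x = 0 := hv.1
  have hyx : dt y x = 0 := hy.1
  have hxw : dt x w = 0 := by rw [dtc]; exact hw.1
  simp only [a1, a2, a3, s1, s2, s3, dta, dta', dts, dts', hvx, hyx, hxw, hx, slf hK.1,
    sw hK.1 x v x, hv.2, hy.2, fc hK hx hv hw, sw hK.1 y x w, fc hK hx hy hw, fd hK hx hy hv,
    fe hK hx hy hv hw]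
  module

theorem frL {x : Fin n → ℝ} (hx : dt x x = 1) :
    Module.finrank ℝ (Lx R x) = Module.finrank ℝ (Eg R (4 * 1) x) + 1 := by
  have hx0 : x ≠ 0 := by
    rintro rfl
    rw [dt0] at hx
    exact zero_ne_one hx
  have h := Submodule.finrank_sup_add_finrank_inf_eq (Submodule.span ℝ {x}) (Eg R (4 * 1) x)
  have h2 : Submodule.span ℝ {x} ⊓ Eg R (4 * 1) x = ⊥ := by
    rw [eq_bot_iff]
    rintro z ⟨hz1, hz2⟩
    obtain ⟨c, rfl⟩ := Submodule.mem_span_singleton.1 hz1
    have h3 : dt (c • x) x = 0 := hz2.1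
    rw [dts, hx, mul_one] at h3
    rw [h3, zero_smul]
    exact Submodule.zero_mem _
  rw [h2, finrank_bot, finrank_span_singleton hx0] at h
  unfold Lx
  omega

theorem f2a (hK : KS 1 R) {D : ℕ} (hD : KD 1 R D) {x0 x : Fin n → ℝ} (h0 : dt x0 x0 = 1)
    (hx : dt x x = 1) (hm : x ∈ Lx R x0) : Eg R (4 * 1) x ≤ Lx R x0 := by
  have h1 : Lx R x0 ≤ Lx R x := by
    intro a ha
    have hp : a - dt a x • x ∈ Lx R x0 := Submodule.sub_mem _ ha (Submodule.smul_mem _ _ hm)
    have h2 : dt (a - dt a x • x) x = 0 := by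
      rw [dtb, dts, hx]
      ring
    have h3 : a - dt a x • x ∈ Eg R (4 * 1) x := by
      refine ⟨h2, ?_⟩
      rw [f1 hK h0 hp hm hm, h2, hx]
      module
    have h4 : a = dt a x • x + (a - dt a x • x) := by abel
    rw [h4]
    exact Submodule.add_mem_sup (Submodule.smul_mem _ _ (Submodule.mem_span_singleton_self x)) h3
  have h5 : Lx R x0 = Lx R x := by
    apply Submodule.eq_of_le_of_finrank_eq h1
    rw [frL h0, frL hx, hD x0 h0, hD x hx]
  rw [h5]
  exact le_sup_right

theorem f2b (hK : KS 1 R) {D : ℕ} (hD : KD 1 R D) {x0 x z : Fin n → ℝ} (h0 : dt x0 x0 = 1)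
    (hx : dt x x = 1) (hm : x ∈ Lx R x0) (hz : ∀ l ∈ Lx R x0, dt z l = 0) :
    RV R z x x = z := by
  obtain ⟨v4, h4, v1, h1, e⟩ := hK.2.2.1 x hx z (hz x hm)
  have h5 : dt z v4 = 0 := hz v4 (f2a hK hD h0 hx hm h4)
  have h6 : dt v4 v1 = 0 := e41 hK.1 h4 h1
  have h7 : v4 = 0 := by
    apply dtz
    rw [e, dta, dtc v1, h6] at h5
    linarith
  rw [h7, zero_add] at e
  rw [e]
  have := h1.2
  rwa [one_smul] at this

theorem f2c (hK : KS 1 R) {D : ℕ} (hD : KD 1 R D) {x0 x z : Fin n → ℝ} (h0 : dt x0 x0 = 1)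
    (hm : x ∈ Lx R x0) (hz : ∀ l ∈ Lx R x0, dt z l = 0) :
    RV R z x x = dt x x • z := by
  rcases scl x with h | ⟨s, t, u, hu, hy1, hy2⟩
  · subst h
    have h0 : RV R z 0 0 = 0 := by
      have := s2 R 0 z 0 0
      simpa using this
    rw [h0, dt0]
    simp
  · have hum : u ∈ Lx R x0 := by
      rw [hy2]
      exact Submodule.smul_mem _ _ hm
    rw [hy1, s2, s3, f2b hK hD h0 hu hum hz, dts, dts', hu]
    module

theorem f2d (hK : KS 1 R) {D : ℕ} (hD : KD 1 R D) {x0 x y z : Fin n → ℝ} (h0 : dt x0 x0 = 1)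
    (hx : x ∈ Lx R x0) (hy : y ∈ Lx R x0) (hz : ∀ l ∈ Lx R x0, dt z l = 0) :
    RV R z x y + RV R z y x = (2 * dt x y) • z := by
  have h := f2c hK hD h0 (Submodule.add_mem _ hx hy) hz
  rw [a2, a3, a3, f2c hK hD h0 hx hz, f2c hK hD h0 hy hz, dta, dta', dta', dtc y x] at h
  have h2 : RV R z x y + RV R z y x =
      (dt x x • z + RV R z x y + (RV R z y x + dt y y • z)) - (dt x x • z + dt y y • z) := by
    abel
  rw [h2, h]
  module

theorem f3a (hK : KS 1 R) {D : ℕ} (hD : KD 1 R D) {x0 x l : Fin n → ℝ} (h0 : dt x0 x0 = 1)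
    (hx : dt x x = 1) (hz : ∀ l ∈ Lx R x0, dt x l = 0) (hl : l ∈ Lx R x0) :
    RV R l x x = l := by
  have key : ∀ u ∈ Lx R x0, dt u u = 1 → RV R u x x = u := by
    intro u hu hu1
    obtain ⟨v4, h4, v1, h1, e⟩ := hK.2.2.1 x hx u (by rw [dtc]; exact hz u hu)
    have h5 : dt (RV R u x x) u = 1 := by
      rw [dR, Hsc.R4_12 hK.1, Hsc.R4_34 hK.1, neg_neg, ← dR, f2b hK hD h0 hu1 hu hz, hx]
    have h6 : dt v4 v1 = 0 := e41 hK.1 h4 h1
    have h61 : dt v1 v4 = 0 := by rw [dtc]; exact h6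
    have h8 : RV R u x x = (4 * 1 : ℝ) • v4 + (1 : ℝ) • v1 := by
      rw [e, a1, h4.2, h1.2]
    have h9 : dt u u = dt v4 v4 + dt v1 v1 := by
      rw [e, dta, dta', dta', h6, h61]
      ring
    rw [h8] at h5
    have h10 : dt ((4 * 1 : ℝ) • v4 + (1 : ℝ) • v1) u = 4 * dt v4 v4 + dt v1 v1 := by
      rw [e, dta, dts, dts, dta', dta', h6, h61]
      ring
    have h7 : v4 = 0 := by
      apply dtz
      linarith
    rw [h8, h7, e, h7]
    simp
  rcases scl l with h | ⟨s, t, u, hu, hy1, hy2⟩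
  · subst h
    have := s1 R 0 0 x x
    simpa using this
  · have hum : u ∈ Lx R x0 := by
      rw [hy2]
      exact Submodule.smul_mem _ _ hl
    rw [hy1, s1, key u hum hu]

theorem f3b (hK : KS 1 R) {D : ℕ} (hD : KD 1 R D) {x0 x v l : Fin n → ℝ} (h0 : dt x0 x0 = 1)
    (hx : dt x x = 1) (hz : ∀ l ∈ Lx R x0, dt x l = 0) (hl : l ∈ Lx R x0)
    (hv : v ∈ Eg R (4 * 1) x) : dt v l = 0 := by
  apply e41 hK.1 hv
  refine ⟨by rw [dtc]; exact hz l hl, ?_⟩
  rw [f3a hK hD h0 hx hz hl, one_smul]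

theorem f3 (hK : KS 1 R) {D : ℕ} (hD : KD 1 R D) {x0 x z l : Fin n → ℝ} (h0 : dt x0 x0 = 1)
    (hx : ∀ l ∈ Lx R x0, dt x l = 0) (hz : ∀ l ∈ Lx R x0, dt z l = 0) (hl : l ∈ Lx R x0) :
    dt (RV R z x x) l = 0 := by
  rcases scl x with h | ⟨s, t, u, hu, hy1, hy2⟩
  · subst h
    have h0 : RV R z 0 0 = 0 := by
      have := s2 R 0 z 0 0
      simpa using this
    rw [h0, dt0]
  · have hum : ∀ l ∈ Lx R x0, dt u l = 0 := by
      intro l hl
      rw [hy2, dts, hx l hl, mul_zero]
    rw [hy1, s2, s3, dts, dts, sym hK.1, f3a hK hD h0 hu hum hl, hz l hl]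
    ring

theorem f4 (hK : KS 1 R) {D : ℕ} (hD : KD 1 R D) {x0 x y z l : Fin n → ℝ} (h0 : dt x0 x0 = 1)
    (hx : ∀ l ∈ Lx R x0, dt x l = 0) (hy : ∀ l ∈ Lx R x0, dt y l = 0)
    (hz : ∀ l ∈ Lx R x0, dt z l = 0) (hl : l ∈ Lx R x0) :
    dt (RV R z x y) l = 0 := by
  have alt : ∀ z x y : Fin n → ℝ, (∀ l ∈ Lx R x0, dt x l = 0) → (∀ l ∈ Lx R x0, dt y l = 0) →
      (∀ l ∈ Lx R x0, dt z l = 0) → dt (RV R z x y) l + dt (RV R z y x) l = 0 := by
    intro z x y hx hy hz
    have h1 := f3 hK hD h0 (x := x + y) (fun l hl => by rw [dta, hx l hl, hy l hl, add_zero]) hz hl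
    rw [a2, a3, a3, dta, dta, dta, f3 hK hD h0 hx hz hl, f3 hK hD h0 hy hz hl] at h1
    linarith
  have h2 := congrArg (fun t => dt t l) (bi hK.1 z x y)
  simp only [dta, dt0] at h2
  have h3 := alt z x y hx hy hz
  have h4 := alt x y z hy hz hx
  have h5 := alt y z x hz hx hy
  have h6 : dt (RV R z y x) l = - dt (RV R y z x) l := by rw [sw hK.1, dtn]
  have h7 : dt (RV R x z y) l = - dt (RV R z x y) l := by rw [sw hK.1, dtn]
  have h8 : dt (RV R y x z) l = - dt (RV R x y z) l := by rw [sw hK.1, dtn]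
  linarith

end Geo

section Bases

/-- orthonormal bases adapted to a subspace -/
theorem adapted (L : Submodule ℝ (Fin n → ℝ)) (D r : ℕ) (hD : Module.finrank ℝ L = D)
    (e : n = D + r) : ∃ b : Fin (D + r) → Fin n → ℝ, ON b ∧
      (∀ i : Fin (D + r), (i : ℕ) < D → b i ∈ L) ∧
      ∀ i : Fin (D + r), D ≤ (i : ℕ) → ∀ l ∈ L, dt (b i) l = 0 := by
  let φ : EuclideanSpace ℝ (Fin n) ≃ₗ[ℝ] (Fin n → ℝ) := WithLp.linearEquiv 2 ℝ (Fin n → ℝ)
  have hin : ∀ u v : EuclideanSpace ℝ (Fin n), inner ℝ u v = dt (φ u) (φ v) := by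
    intro u v
    rw [PiLp.inner_apply]
    refine Finset.sum_congr rfl fun i _ => ?_
    simp [φ, mul_comm]
  let L' : Submodule ℝ (EuclideanSpace ℝ (Fin n)) := L.map (φ.symm : (Fin n → ℝ) →ₗ[ℝ] _)
  have h1 : Module.finrank ℝ L' = D := by
    rw [← hD]
    exact LinearEquiv.finrank_map_eq φ.symm L
  have h2 : Module.finrank ℝ L'ᗮ = r := by
    have h := L'.finrank_add_finrank_orthogonal
    rw [finrank_euclideanSpace, Fintype.card_fin] at h
    omega
  let b1 : OrthonormalBasis (Fin D) ℝ L' := (stdOrthonormalBasis ℝ L').reindex (finCongr h1)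
  let b2 : OrthonormalBasis (Fin r) ℝ L'ᗮ := (stdOrthonormalBasis ℝ L'ᗮ).reindex (finCongr h2)
  have m1 : ∀ i, φ (b1 i : EuclideanSpace ℝ (Fin n)) ∈ L := by
    intro i
    obtain ⟨l, hl, e⟩ := (b1 i).2
    rw [← e]
    simpa using hl
  have m2 : ∀ l ∈ L, φ.symm l ∈ L' := fun l hl => ⟨l, hl, rfl⟩
  have o2 : ∀ j, ∀ l ∈ L, dt (φ (b2 j : EuclideanSpace ℝ (Fin n))) l = 0 := by
    intro j l hl
    have h := (Submodule.mem_orthogonal _ _).1 (b2 j).2 _ (m2 l hl)
    rw [hin, LinearEquiv.apply_symm_apply, dtc] at h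
    exact h
  have o11 : ∀ i j, dt (φ (b1 i : EuclideanSpace ℝ (Fin n))) (φ (b1 j)) = if i = j then 1 else 0 := by
    intro i j
    rw [← hin, ← Submodule.coe_inner]
    exact (orthonormal_iff_ite.1 b1.orthonormal) i j
  have o22 : ∀ i j, dt (φ (b2 i : EuclideanSpace ℝ (Fin n))) (φ (b2 j)) = if i = j then 1 else 0 := by
    intro i j
    rw [← hin, ← Submodule.coe_inner]
    exact (orthonormal_iff_ite.1 b2.orthonormal) i j
  refine ⟨Fin.append (fun i => φ (b1 i : EuclideanSpace ℝ (Fin n)))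
    (fun j => φ (b2 j : EuclideanSpace ℝ (Fin n))), ?_, ?_, ?_⟩
  · intro i j
    refine Fin.addCases (fun i => ?_) (fun i => ?_) i
    · refine Fin.addCases (fun j => ?_) (fun j => ?_) j
      · rw [Fin.append_left, Fin.append_left, o11]
        simp only [Fin.castAdd_inj]
      · rw [Fin.append_left, Fin.append_right, dtc, o2 j _ (m1 i), if_neg]
        intro h
        have := congrArg Fin.val h
        simp at this
        omega
    · refine Fin.addCases (fun j => ?_) (fun j => ?_) j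
      · rw [Fin.append_left, Fin.append_right, o2 i _ (m1 j), if_neg]
        intro h
        have := congrArg Fin.val h
        simp at this
        omega
      · rw [Fin.append_right, Fin.append_right, o22]
        simp only [Fin.natAdd_inj]
  · intro i hi
    have h : i = Fin.castAdd r ⟨i, hi⟩ := rfl
    rw [h, Fin.append_left]
    exact m1 _
  · intro i hi l hl
    have h : i = Fin.natAdd D ⟨i - D, by omega⟩ := by
      apply Fin.ext
      simp
      omega
    rw [h, Fin.append_right]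
    exact o2 _ l hl

/-- expansion in an orthonormal basis -/
theorem cmp {m : ℕ} {b : Fin m → Fin m → ℝ} (hb : ON b) (v : Fin m → ℝ) :
    v = ∑ i, dt v (b i) • b i := by
  have h1 : Matrix.of b * (Matrix.of b).transpose = 1 := by
    ext i j
    rw [Matrix.mul_apply, Matrix.one_apply]
    exact hb i j
  have h2 : (Matrix.of b).transpose * Matrix.of b = 1 := mul_eq_one_comm.1 h1
  funext a
  rw [Finset.sum_apply]
  simp only [Pi.smul_apply, smul_eq_mul, dt, Finset.sum_mul]
  rw [Finset.sum_comm]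
  have h3 : ∀ k, ∑ i, v k * b i k * b i a = v k * (if k = a then 1 else 0) := by
    intro k
    have h4 := congrFun (congrFun h2 k) a
    rw [Matrix.mul_apply, Matrix.one_apply] at h4
    rw [← h4, Finset.mul_sum]
    refine Finset.sum_congr rfl fun i _ => ?_
    simp only [Matrix.transpose_apply, Matrix.of_apply]
    ring
  rw [Finset.sum_congr rfl fun k _ => h3 k]
  simp

/-- the linear map with the values `f` on the standard basis -/
def io {r m : ℕ} (f : Fin r → Fin m → ℝ) (v : Fin r → ℝ) : Fin m → ℝ := ∑ j, v j • f j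

theorem io_add {r m : ℕ} (f : Fin r → Fin m → ℝ) (u v : Fin r → ℝ) :
    io f (u + v) = io f u + io f v := by
  simp only [io, Pi.add_apply, add_smul, Finset.sum_add_distrib]

theorem io_smul {r m : ℕ} (f : Fin r → Fin m → ℝ) (c : ℝ) (v : Fin r → ℝ) :
    io f (c • v) = c • io f v := by
  simp only [io, Pi.smul_apply, smul_eq_mul, mul_smul, Finset.smul_sum]

theorem io_zero {r m : ℕ} (f : Fin r → Fin m → ℝ) : io f 0 = 0 := by
  simp [io]

theorem dt_sum {r m : ℕ} (c : Fin r → ℝ) (f : Fin r → Fin m → ℝ) (w : Fin m → ℝ) :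
    dt (∑ j, c j • f j) w = ∑ j, c j * dt (f j) w := by
  simp only [dt, Finset.sum_apply, Pi.smul_apply, smul_eq_mul, Finset.sum_mul, Finset.mul_sum,
    mul_assoc]
  exact Finset.sum_comm

theorem io_co {r m : ℕ} {f : Fin r → Fin m → ℝ} (hf : ON f) (v : Fin r → ℝ) (j : Fin r) :
    dt (io f v) (f j) = v j := by
  unfold io
  rw [dt_sum]
  simp only [hf _ j]
  simp

theorem io_dt {r m : ℕ} {f : Fin r → Fin m → ℝ} (hf : ON f) (u v : Fin r → ℝ) :
    dt (io f u) (io f v) = dt u v := by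
  have h : dt (io f u) (io f v) = ∑ j, u j * dt (f j) (io f v) := dt_sum u f _
  rw [h]
  refine Finset.sum_congr rfl fun j _ => ?_
  rw [dtc, io_co hf]

theorem io_inj {r m : ℕ} {f : Fin r → Fin m → ℝ} (hf : ON f) {u v : Fin r → ℝ}
    (h : io f u = io f v) : u = v := by
  funext j
  rw [← io_co hf u, ← io_co hf v, h]

/-- restriction of a tensor to the span of an orthonormal family -/
def rs {r m : ℕ} (R : T4 m) (f : Fin r → Fin m → ℝ) : T4 r :=
  fun i j k l => R4 R (f i) (f j) (f k) (f l)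

theorem R4_io {r m : ℕ} (R : T4 m) (f : Fin r → Fin m → ℝ) (x y z : Fin r → ℝ) (w : Fin m → ℝ) :
    R4 R (io f x) (io f y) (io f z) w =
      ∑ i, ∑ j, ∑ k, R4 R (f i) (f j) (f k) w * x i * y j * z k := by
  have e1 : ∀ (y z : Fin m → ℝ), R4 R (io f x) y z w = ∑ i, x i * R4 R (f i) y z w := by
    intro y z
    have : RV R (io f x) y z = ∑ i, x i • RV R (f i) y z := by
      let T : (Fin m → ℝ) →ₗ[ℝ] (Fin m → ℝ) :=
        { toFun := fun x => RV R x y z
          map_add' := fun p q => a1 R p q y z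
          map_smul' := fun c p => s1 R c p y z }
      have h := map_sum T (fun i => x i • f i) Finset.univ
      simp only [map_smul] at h
      exact h
    rw [← dR, this, dt_sum]
    simp only [dR]
  have e2 : ∀ (x z : Fin m → ℝ), R4 R x (io f y) z w = ∑ i, y i * R4 R x (f i) z w := by
    intro x z
    have : RV R x (io f y) z = ∑ i, y i • RV R x (f i) z := by
      let T : (Fin m → ℝ) →ₗ[ℝ] (Fin m → ℝ) :=
        { toFun := fun y => RV R x y z
          map_add' := fun p q => a2 R x p q z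
          map_smul' := fun c p => s2 R c x p z }
      have h := map_sum T (fun i => y i • f i) Finset.univ
      simp only [map_smul] at h
      exact h
    rw [← dR, this, dt_sum]
    simp only [dR]
  have e3 : ∀ (x y : Fin m → ℝ), R4 R x y (io f z) w = ∑ i, z i * R4 R x y (f i) w := by
    intro x y
    have : RV R x y (io f z) = ∑ i, z i • RV R x y (f i) := by
      let T : (Fin m → ℝ) →ₗ[ℝ] (Fin m → ℝ) :=
        { toFun := fun z => RV R x y z
          map_add' := fun p q => a3 R x y p q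
          map_smul' := fun c p => s3 R c x y p }
      have h := map_sum T (fun i => z i • f i) Finset.univ
      simp only [map_smul] at h
      exact h
    rw [← dR, this, dt_sum]
    simp only [dR]
  rw [e1]
  refine Finset.sum_congr rfl fun i _ => ?_
  rw [e2, Finset.mul_sum]
  refine Finset.sum_congr rfl fun j _ => ?_
  rw [e3, Finset.mul_sum, Finset.mul_sum]
  refine Finset.sum_congr rfl fun k _ => ?_
  ring

theorem RV_rs {r m : ℕ} (R : T4 m) (f : Fin r → Fin m → ℝ) (x y z : Fin r → ℝ) (l : Fin r) :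
    RV (rs R f) x y z l = dt (RV R (io f x) (io f y) (io f z)) (f l) := by
  rw [dR, R4_io]
  rfl

end Bases

end Basb

open Basb in
/-- adapted orthonormal bases -/
theorem s_bas : S_BAS := by
  intro n R D hn hK hD h2D
  -- a unit vector and the line through it
  set x0 : Fin n → ℝ := Pi.single ⟨0, hn⟩ 1 with hx0
  have h0 : dt x0 x0 = 1 := by
    simp [dt, hx0, Pi.single_apply]
  have hL : Module.finrank ℝ (Lx R x0) = D := by rw [frL h0, hD x0 h0]
  refine ⟨?_, ?_⟩
  · rw [← hL]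
    have := Submodule.finrank_le (Lx R x0)
    rwa [Module.finrank_fin_fun] at this
  intro r e
  obtain ⟨b, hb, hbL, hbF⟩ := adapted (Lx R x0) D r hL e
  refine ⟨b, hb, ?_, ?_⟩
  · -- the components
    have one : ∀ i j k : Fin (D + r), (i : ℕ) < D → (j : ℕ) < D → (k : ℕ) < D →
        ∀ l, R4 R (b i) (b j) (b k) (b l) =
          4 * ((if j = k then 1 else 0) * (if i = l then 1 else 0) -
            (if i = k then 1 else 0) * (if j = l then 1 else 0)) := by
      intro i j k hi hj hk l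
      rw [← dR, f1 hK h0 (hbL i hi) (hbL j hj) (hbL k hk), dtb, dts, dts, hb j k, hb i l, hb i k,
        hb j l]
      ring
    refine ⟨fun i j k l hi hj hk _ => one i j k hi hj hk l, ?_, ?_, ?_⟩
    · intro i j k f hi hj hk hf
      have h1 : i ≠ f := by
        rintro rfl
        omega
      have h2 : j ≠ f := by
        rintro rfl
        omega
      have := one i j k hi hj hk f
      rw [if_neg h1, if_neg h2] at this
      simpa using this
    · intro i j f g hi hj hf hg
      have h := congrArg (fun t => dt t (b g)) (f2d hK hD h0 (hbL i hi) (hbL j hj) (hbF f hf))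
      simp only [dta, dts, dR] at h
      rw [hb i j, hb f g] at h
      have h3 := Hsc.R4_12 hK.1 (b i) (b f) (b j) (b g)
      have h4 := Hsc.R4_12 hK.1 (b j) (b f) (b i) (b g)
      show R4 R (b i) (b f) (b j) (b g) + R4 R (b j) (b f) (b i) (b g) = _
      rw [h3, h4]
      linarith
    · intro f g h i hf hg hh hi
      show R4 R (b f) (b g) (b h) (b i) = 0
      rw [← dR]
      exact f4 hK hD h0 (hbF g hg) (hbF h hh) (hbF f hf) (hbL i hi)
  intro _
  subst e
  -- the complement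
  set f : Fin r → Fin (D + r) → ℝ := fun j => b (Fin.natAdd D j) with hf
  have hfON : ON f := by
    intro i j
    rw [hf]
    show dt (b _) (b _) = _
    rw [hb]
    simp only [Fin.natAdd_inj]
  have hfF : ∀ j, ∀ l ∈ Lx R x0, dt (f j) l = 0 := fun j => hbF _ (by simp)
  have hioF : ∀ v, ∀ l ∈ Lx R x0, dt (io f v) l = 0 := by
    intro v l hl
    unfold io
    rw [dt_sum]
    exact Finset.sum_eq_zero fun j _ => by rw [hfF j l hl, mul_zero]
  have hF : ∀ w, (∀ l ∈ Lx R x0, dt w l = 0) → w = io f (fun j => dt w (f j)) := by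
    intro w hw
    have h1 := cmp hb w
    rw [Fin.sum_univ_add] at h1
    have h2 : ∑ i : Fin D, dt w (b (Fin.castAdd r i)) • b (Fin.castAdd r i) = 0 := by
      refine Finset.sum_eq_zero fun i _ => ?_
      rw [hw _ (hbL _ (by simp)), zero_smul]
    rw [h2, zero_add] at h1
    exact h1
  have hRV : ∀ x y z, RV R (io f x) (io f y) (io f z) = io f (RV (rs R f) x y z) := by
    intro x y z
    rw [hF _ fun l hl => f4 hK hD h0 (hioF y) (hioF z) (hioF x) hl]
    congr 1
    funext l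
    rw [RV_rs]
  have hEg : ∀ (c : ℝ) (x v : Fin r → ℝ), v ∈ Eg (rs R f) c x ↔ io f v ∈ Eg R c (io f x) := by
    intro c x v
    constructor
    · rintro ⟨h1, h2⟩
      refine ⟨by rw [io_dt hfON, h1], ?_⟩
      rw [hRV, h2, io_smul]
    · rintro ⟨h1, h2⟩
      rw [io_dt hfON] at h1
      rw [hRV, ← io_smul] at h2
      exact ⟨h1, io_inj hfON h2⟩
  have h4F : ∀ (x : Fin r → ℝ), dt x x = 1 → ∀ v ∈ Eg R (4 * 1) (io f x),
      ∀ l ∈ Lx R x0, dt v l = 0 := by
    intro x hx v hv l hl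
    exact f3b hK hD h0 (by rw [io_dt hfON, hx]) (hioF x) hl hv
  constructor
  · show KS 1 (rs R f)
    refine ⟨⟨?_, ?_, ?_, ?_⟩, ?_, ?_, ?_⟩
    · intro i j k l
      exact Hsc.R4_12 hK.1 _ _ _ _
    · intro i j k l
      exact Hsc.R4_34 hK.1 _ _ _ _
    · intro i j k l
      exact Hsc.R4_pr hK.1 _ _ _ _
    · intro i j k l
      exact Hsc.R4_bi hK.1 _ _ _ _
    · intro x y u v w
      apply io_inj hfON
      simp only [io_add, ← hRV]
      exact hK.2.1 _ _ _ _ _
    · intro x hx v hv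
      obtain ⟨v4, h4, v1, h1, e⟩ := hK.2.2.1 (io f x) (by rw [io_dt hfON, hx]) (io f v)
        (by rw [io_dt hfON, hv])
      have h4F' := h4F x hx v4 h4
      have h1F : ∀ l ∈ Lx R x0, dt v1 l = 0 := by
        intro l hl
        have h5 := hioF v l hl
        rw [e, dta, h4F' l hl, zero_add] at h5
        exact h5
      have e4 := hF v4 h4F'
      have e1 := hF v1 h1F
      refine ⟨_, (hEg _ _ _).2 (by rw [← e4]; exact h4), _, (hEg _ _ _).2 (by rw [← e1]; exact h1),
        ?_⟩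
      apply io_inj hfON
      rw [io_add, ← e4, ← e1, e]
    · intro x y hx hy hxy hyx
      obtain ⟨h1, h2⟩ := hK.2.2.2 (io f x) (io f y) (by rw [io_dt hfON, hx])
        (by rw [io_dt hfON, hy]) (by rw [io_dt hfON, hxy]) (by rw [hRV, hyx, io_smul])
      refine ⟨?_, ?_⟩
      · apply io_inj hfON
        rw [← hRV, h1, io_smul]
      · intro v hvx hvy
        obtain ⟨h3, h4⟩ := h2 (io f v) (by rw [io_dt hfON, hvx]) (by rw [io_dt hfON, hvy])
        refine ⟨fun hv => ?_, fun hv => ?_⟩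
        · obtain ⟨h5, h6⟩ := h3 (by rw [hRV, hv, io_smul])
          refine ⟨?_, ?_⟩
          · apply io_inj hfON
            rw [← hRV, h5, io_zero]
          · apply io_inj hfON
            rw [← hRV, h6, io_smul]
        · obtain ⟨h5, h6⟩ := h4 (by rw [hRV, hv, io_smul])
          refine ⟨?_, ?_⟩
          · apply io_inj hfON
            rw [← hRV, h5, io_smul]
          · apply io_inj hfON
            rw [← hRV, ← hRV, h6, io_smul]
  · show KD 1 (rs R f) D
    intro x hx
    have hx' : dt (io f x) (io f x) = 1 := by rw [io_dt hfON, hx]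
    refine Eq.trans ?_ (hD (io f x) hx')
    refine congrArg (fun t => t + 1) ?_
    let T : Eg (rs R f) (4 * 1) x →ₗ[ℝ] Eg R (4 * 1) (io f x) :=
      { toFun := fun v => ⟨io f v.1, (hEg _ _ _).1 v.2⟩
        map_add' := fun p q => Subtype.ext (io_add f _ _)
        map_smul' := fun c p => Subtype.ext (io_smul f _ _) }
    have hT : Function.Bijective T := by
      constructor
      · intro p q h
        exact Subtype.ext (io_inj hfON (congrArg Subtype.val h))
      · rintro ⟨v, hv⟩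
        have e4 := hF v (h4F x hx v hv)
        refine ⟨⟨_, (hEg _ _ _).2 (by rw [← e4]; exact hv)⟩, ?_⟩
        apply Subtype.ext
        exact e4.symm
    exact (LinearEquiv.ofBijective T hT).finrank_eq

end Pool.Agent.H781.KP
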