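import Pool.Agent.H781.KP.K

/-!
Project KP, structure theorem (MP_4e0d62_gt): the abstract theorem.
-/

set_option autoImplicit false
set_option synthInstance.maxHeartbeats 400000
set_option maxHeartbeats 4000000
set_option linter.unusedSectionVars false

open MeasureTheory Filter
open scoped Topology ContDiff

noncomputable section

namespace Pool.Agent.H781.KP

open Pool.Agent.H781.NG Pool.Agent.H781.CM Pool.Agent.H781.H6

namespace Chix

/-- there are no forms of degree larger than the rank of the bundle -/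
theorem bet_zero {M : Type} [TopologicalSpace M] [CompactSpace M] [MeasurableSpace M]
    [BorelSpace M] {N : ℕ} (C : CD M N) {p : ℕ} (hp : N < p) : bet C p = 0 := by
  have h0 : ∀ u : Fk N C.A, u ∈ DegS N C.A p → u = 0 := by
    intro u hu
    funext S
    refine hu S fun hS => ?_
    have := Finset.card_le_univ S
    rw [Fintype.card_fin] at this
    omega
  have hs : Subsingleton (Zp C p) := by
    refine ⟨fun x y => Subtype.ext ?_⟩
    rw [h0 _ x.2.1.2, h0 _ y.2.1.2]
  have hq : Subsingleton (Hp C p) := (Submodule.mkQ_surjective _).subsingleton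
  exact Module.finrank_zero_of_subsingleton

end Chix

theorem s_chix (h1 : S_CHIG) (h2 : S_PDK) : S_CHIX := by
  intro N n κ hN hn2 hκ
  obtain ⟨ε, hε, H⟩ := h1 N n κ (PdK n N) hN hn2 hκ fun d hd => h2 n N d κ hn2 hκ hd
  refine ⟨ε, hε, fun M _ _ _ _ C hC hP hcn hMo hD hR => ?_⟩
  obtain ⟨d, ⟨hd1, D, hD2, hDn, hDe, hdv⟩, -, hb, -⟩ := H M C hC hP hcn hMo hD hR
  refine ⟨fun p => ?_, D, hD2, hDn, hDe, fun p hp => ?_⟩
  · rcases Nat.lt_or_ge N p with h | h
    · rw [Chix.bet_zero C h]
      exact Nat.zero_le 1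
    · exact (hb ⟨p, by omega⟩).trans (hd1 ⟨p, by omega⟩)
  · rcases Nat.lt_or_ge N p with h | h
    · exact absurd (Chix.bet_zero C h) hp
    · refine hdv ⟨p, by omega⟩ fun h0 => hp ?_
      have h3 := hb ⟨p, by omega⟩
      rw [h0] at h3
      exact Nat.le_zero.1 h3

end Pool.Agent.H781.KP
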