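import Pool.Agent.H781.KP.K

/-!
Project KK (MP_4e0d62_gt): the eigenvalues of the Jacobi operators (by helper710 for helper781).
-/

set_option autoImplicit false
set_option synthInstance.maxHeartbeats 400000
set_option maxHeartbeats 4000000
set_option linter.unusedSectionVars false

open MeasureTheory Filter
open scoped Topology ContDiff

noncomputable section

namespace Pool.Agent.H781.KP

open Pool.Agent.H781.NG Pool.Agent.H781.CM Pool.Agent.H781.H6

namespace Eigb

section Abs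
variable {E : Type} [NormedAddCommGroup E] [InnerProductSpace ℝ E]

/-- the properties of a curvature tensor -/
structure Ax (T : E →ₗ[ℝ] E →ₗ[ℝ] E →ₗ[ℝ] E) : Prop where
  a12 : ∀ x y z, T x y z = - T y x z
  a34 : ∀ x y z w, inner ℝ (T x y z) w = - inner ℝ z (T x y w)
  pr : ∀ x y z w, inner ℝ (T x y z) w = inner ℝ (T z w x) y
  bi : ∀ x y z, T x y z + T y z x + T z x y = 0
  sy : ∀ x y u v w, T x y (T u v w) = T (T x y u) v w + T u (T x y v) w + T u v (T x y w)
  nn : ∀ x v, 0 ≤ inner ℝ (T v x x) v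
  ke : ∀ x y, x ≠ 0 → T y x x = 0 → ∃ c : ℝ, y = c • x

variable {T : E →ₗ[ℝ] E →ₗ[ℝ] E →ₗ[ℝ] E}

theorem Ax.symm (h : Ax T) (x v w : E) : inner ℝ (T v x x) w = inner ℝ v (T w x x) := by
  rw [h.pr, h.a34, h.a12 x w x, inner_neg_right, neg_neg]

theorem Ax.xx (h : Ax T) (x z : E) : T x x z = 0 := by
  have h1 := h.a12 x x z
  have h2 : (2:ℝ) • T x x z = 0 := by
    rw [two_smul]
    nth_rewrite 1 [h1]
    exact neg_add_cancel _
  exact (smul_eq_zero.1 h2).resolve_left (by norm_num)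

theorem psd (J : E →ₗ[ℝ] E) (hJ : ∀ u v, inner ℝ (J u) v = inner ℝ u (J v))
    (hp : ∀ w, 0 ≤ inner ℝ (J w) w) {v : E} (hv : inner ℝ (J v) v = 0) : J v = 0 := by
  have h1 : ∀ t : ℝ, 0 ≤ inner ℝ (J (J v)) (J v) * (t * t) + 2 * inner ℝ (J v) (J v) * t + 0 := by
    intro t
    have h2 := hp (v + t • J v)
    rw [map_add, map_smul, inner_add_left, inner_add_right, inner_add_right, inner_smul_left,
      inner_smul_left, inner_smul_right, inner_smul_right, hv, hJ (J v) v] at h2
    simp only [conj_trivial] at h2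
    linarith
  have h3 := discrim_le_zero h1
  unfold discrim at h3
  have h4 : inner ℝ (J v) (J v) = (0:ℝ) := by nlinarith [sq_nonneg (inner ℝ (J v) (J v))]
  exact inner_self_eq_zero.1 h4

/-- the Jacobi operator -/
noncomputable def Jx (T : E →ₗ[ℝ] E →ₗ[ℝ] E →ₗ[ℝ] E) (x : E) : E →ₗ[ℝ] E :=
  (T.flip x).flip x

theorem Jx_apply (x v : E) : Jx T x v = T v x x := rfl

theorem Ax.max_eig (h : Ax T) {L : ℝ} {x v : E} (hx : ∀ w, inner ℝ (T w x x) w ≤ L * inner ℝ w w)
    (hv : inner ℝ (T v x x) v = L * inner ℝ v v) : T v x x = L • v := by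
  have h1 := psd (L • LinearMap.id - Jx T x) (fun u w => by
    simp only [LinearMap.sub_apply, LinearMap.smul_apply, LinearMap.id_apply, Jx_apply,
      inner_sub_left, inner_sub_right, inner_smul_left, inner_smul_right, conj_trivial]
    rw [h.symm x u w]) (fun w => by
    simp only [LinearMap.sub_apply, LinearMap.smul_apply, LinearMap.id_apply, Jx_apply,
      inner_sub_left, inner_smul_left, conj_trivial]
    linarith [hx w]) (v := v) (by
    simp only [LinearMap.sub_apply, LinearMap.smul_apply, LinearMap.id_apply, Jx_apply,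
      inner_sub_left, inner_smul_left, conj_trivial]
    linarith)
  simp only [LinearMap.sub_apply, LinearMap.smul_apply, LinearMap.id_apply, Jx_apply] at h1
  exact (sub_eq_zero.1 h1).symm

theorem Ax.ker0 (h : Ax T) {x v : E} (hx : x ≠ 0) (hv : inner ℝ (T v x x) v = 0) :
    ∃ c : ℝ, v = c • x :=
  h.ke x v hx (psd (Jx T x) (fun u w => h.symm x u w) (fun w => h.nn x w) hv)

theorem Ax.swap (h : Ax T) (x v : E) : inner ℝ (T v x x) v = inner ℝ (T x v v) x := by
  exact h.pr v x x v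

/-- step 2 -/
theorem Ax.two (h : Ax T) {s m : ℝ} (hs : 0 < s) (hm : 0 < m) {x y v : E}
    (hx : ∀ w, inner ℝ (T w x x) w ≤ (4 * s ^ 2) * inner ℝ w w)
    (hyx : T y x x = (4 * s ^ 2) • y) (hxy : T x y y = (4 * s ^ 2) • x)
    (hv : T v x x = m ^ 2 • v) (hvx : inner ℝ v x = (0:ℝ)) (hvy : inner ℝ v y = (0:ℝ)) :
    ∃ g : E, T x y v = -(2 * s) • g ∧ T x v y = -m • g ∧
      (∀ w, T x g w = -(2 * s - m) • T y v w) ∧
      T g x x = (2 * s - m) ^ 2 • g ∧
      (2 * s) • T v y y = -(T x y g) + (4 * s ^ 2 * m) • v ∧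
      inner ℝ g x = (0:ℝ) ∧ inner ℝ g y = (0:ℝ) := by
  have e1 : T x y x = -(4 * s ^ 2) • y := by rw [h.a12, hyx, neg_smul]
  have e2 : T x v x = -(m ^ 2) • v := by rw [h.a12, hv, neg_smul]
  set P := T x v y with hP
  set Q := T x y v with hQ
  have eC1 : ∀ w, T x Q w = (T x y (T x v w) - T x v (T x y w)) + (4 * s ^ 2) • T y v w := by
    intro w
    have h1 := h.sy x y x v w
    rw [e1] at h1
    simp only [map_smul, LinearMap.smul_apply] at h1
    rw [h1]
    module
  have eC2 : ∀ w, T x P w = -(T x y (T x v w) - T x v (T x y w)) - (m ^ 2) • T y v w := by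
    intro w
    have h1 := h.sy x v x y w
    rw [e2] at h1
    simp only [map_smul, LinearMap.smul_apply] at h1
    rw [h.a12 v y w] at h1
    rw [h1]
    module
  have eB : T y v x = P - Q := by
    have h1 := h.bi x y v
    have h2 := h.a12 v x y
    rw [h2] at h1
    have h3 : T y v x = T x v y - T x y v := by
      rw [← sub_eq_zero]
      rw [← h1]
      abel
    exact h3
  set F := (2 * s) • P - m • Q with hF
  have eF : ∀ w, T x F w = -(m + 2 * s) • ((T x y (T x v w) - T x v (T x y w)) +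
      (2 * s * m) • T y v w) := by
    intro w
    rw [hF, map_sub, map_smul, map_smul, LinearMap.sub_apply, LinearMap.smul_apply,
      LinearMap.smul_apply, eC1, eC2]
    module
  have eFx : T F x x = (m + 2 * s) ^ 2 • F := by
    rw [h.a12, eF, e1, e2, eB]
    simp only [map_smul, ← hP, ← hQ]
    rw [hF]
    module
  have hF0 : F = 0 := by
    have h1 := hx F
    rw [eFx, inner_smul_left, conj_trivial] at h1
    have h2 : 0 ≤ inner ℝ F F := real_inner_self_nonneg
    have h3 : inner ℝ F F = (0:ℝ) := by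
      by_contra hne
      have h4 : 0 < inner ℝ F F := lt_of_le_of_ne h2 (Ne.symm hne)
      have h5 : (m + 2 * s) ^ 2 * inner ℝ F F - 4 * s ^ 2 * inner ℝ F F =
        (m ^ 2 + 4 * s * m) * inner ℝ F F := by ring
      have h6 : 0 < (m ^ 2 + 4 * s * m) * inner ℝ F F := by positivity
      linarith
    exact inner_self_eq_zero.1 h3
  have hC : ∀ w, T x y (T x v w) - T x v (T x y w) = -(2 * s * m) • T y v w := by
    intro w
    have h1 := eF w
    rw [hF0, map_zero, LinearMap.zero_apply] at h1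
    have h2 := (smul_eq_zero.1 h1.symm).resolve_left (by
      intro h3
      linarith)
    rw [neg_smul]
    exact eq_neg_of_add_eq_zero_left h2
  have hPg : P = (m / (2 * s)) • Q := by
    have h1 : (2 * s) • P = m • Q := sub_eq_zero.1 hF0
    have h2 : P = (1 / (2 * s)) • ((2 * s) • P) := by
      rw [smul_smul]
      rw [show 1 / (2 * s) * (2 * s) = 1 by field_simp, one_smul]
    rw [h2, h1, smul_smul]
    congr 1
    ring
  have hQg : Q = -(2 * s) • (-(1 / (2 * s)) • Q) := by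
    rw [smul_smul, show -(2 * s) * -(1 / (2 * s)) = 1 by field_simp, one_smul]
  have hg2 : ∀ w, T x (-(1 / (2 * s)) • Q) w = -(2 * s - m) • T y v w := by
    intro w
    rw [map_smul, LinearMap.smul_apply, eC1, hC, ← add_smul, smul_smul]
    congr 1
    field_simp
    ring
  refine ⟨-(1 / (2 * s)) • Q, hQg, ?_, hg2, ?_, ?_, ?_, ?_⟩
  · rw [hPg]
    match_scalars
    field_simp
  · rw [h.a12, hg2, eB, hPg]
    match_scalars
    field_simp
    ring
  · have h1 := hC y
    rw [hxy, map_smul, ← hP, hPg, map_smul, e2] at h1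
    have h2 : T v y y = -T y v y := h.a12 v y y
    rw [h2, map_smul]
    have h3 : T y v y = (1 / (2 * s * m)) • ((2 * s * m) • T y v y) := by
      rw [smul_smul, show 1 / (2 * s * m) * (2 * s * m) = 1 by field_simp, one_smul]
    have h4 : (2 * s * m) • T y v y = -((m / (2 * s)) • T x y Q - (4 * s ^ 2) • -(m ^ 2) • v) := by
      rw [h1]
      module
    rw [h3, h4]
    match_scalars
    · field_simp
    · field_simp
  · rw [inner_smul_left, hQ, h.a34, e1, inner_smul_right, hvy]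
    simp
  · rw [inner_smul_left, hQ, h.a34, hxy, inner_smul_right, hvx]
    simp


/-- step 3 -/
theorem Ax.three (h : Ax T) {s : ℝ} (hs : 0 < s) {x y v : E} (hx0 : x ≠ 0)
    (hx : ∀ w, inner ℝ (T w x x) w ≤ (4 * s ^ 2) * inner ℝ w w)
    (hyx : T y x x = (4 * s ^ 2) • y) (hxy : T x y y = (4 * s ^ 2) • x)
    (hv : T v x x = (4 * s ^ 2) • v) (hvx : inner ℝ v x = (0:ℝ)) (hvy : inner ℝ v y = (0:ℝ)) :
    T x y v = 0 ∧ T v y y = (4 * s ^ 2) • v := by
  obtain ⟨g, h1, _, _, h3, h4, h5, _⟩ := h.two hs (m := 2 * s) (by linarith) hx hyx hxy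
    (by rw [hv]; congr 1; ring) hvx hvy
  rw [sub_self, zero_pow two_ne_zero, zero_smul] at h3
  obtain ⟨c, hc⟩ := h.ke x g hx0 h3
  have hg : g = 0 := by
    rw [hc, inner_smul_left, conj_trivial, mul_eq_zero] at h5
    rcases h5 with h5 | h5
    · rw [hc, h5, zero_smul]
    · exact absurd (inner_self_eq_zero.1 h5) hx0
  rw [hg, smul_zero] at h1
  refine ⟨h1, ?_⟩
  rw [hg, map_zero, neg_zero, zero_add] at h4
  have h6 : T v y y = (1 / (2 * s)) • ((2 * s) • T v y y) := by
    rw [smul_smul, show 1 / (2 * s) * (2 * s) = 1 by field_simp, one_smul]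
  rw [h6, h4, smul_smul]
  congr 1
  field_simp

/-- step 4 -/
theorem Ax.four (h : Ax T) {s m : ℝ} (hs : 0 < s) (hm : 0 < m) (hms : m < 2 * s) {x y v : E}
    (hy0 : y ≠ 0) (hv0 : v ≠ 0)
    (hx : ∀ w, inner ℝ (T w x x) w ≤ (4 * s ^ 2) * inner ℝ w w)
    (hyx : T y x x = (4 * s ^ 2) • y) (hxy : T x y y = (4 * s ^ 2) • x)
    (hv : T v x x = m ^ 2 • v) (hvx : inner ℝ v x = (0:ℝ)) (hvy : inner ℝ v y = (0:ℝ)) :
    T v y y = (s * m) • v ∧ T x y (T x y v) = -(4 * s ^ 3 * m) • v := by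
  obtain ⟨g, h1, _, h2, h3, h4, h5, h6⟩ := h.two hs hm hx hyx hxy hv hvx hvy
  have hg0 : g ≠ 0 := by
    intro hg
    have h7 := h2 y
    rw [hg, map_zero, LinearMap.zero_apply] at h7
    have h8 := (smul_eq_zero.1 h7.symm).resolve_left (by
      intro h9
      linarith)
    have h9 : T v y y = 0 := by rw [h.a12, h8, neg_zero]
    obtain ⟨c, hc⟩ := h.ke y v hy0 h9
    rw [hc, inner_smul_left, conj_trivial, mul_eq_zero] at hvy
    rcases hvy with h10 | h10
    · exact hv0 (by rw [hc, h10, zero_smul])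
    · exact hy0 (inner_self_eq_zero.1 h10)
  obtain ⟨g', k1, k2, _⟩ := h.two hs (m := 2 * s - m) (by linarith) hx hyx hxy
    (by rw [h3]) h5 h6
  have h7 := h2 y
  have h8 : g' = T y v y := by
    rw [k2] at h7
    exact smul_right_injective E (r := -(2 * s - m)) (by
      intro h9
      linarith) h7
  rw [h8, h.a12 y v y, smul_neg, neg_smul, neg_neg] at k1
  rw [k1] at h4
  have h9 : T v y y = (s * m) • v := by
    have h10 : (4 * s) • T v y y = (4 * s ^ 2 * m) • v := by
      calc (4 * s) • T v y y = (2 * s) • T v y y + (2 * s) • T v y y := by module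
        _ = (-((2 * s) • T v y y) + (4 * s ^ 2 * m) • v) + (2 * s) • T v y y := by
            nth_rewrite 1 [h4]
            rfl
        _ = (4 * s ^ 2 * m) • v := by module
    have h11 : T v y y = (1 / (4 * s)) • ((4 * s) • T v y y) := by
      rw [smul_smul, show 1 / (4 * s) * (4 * s) = 1 by field_simp, one_smul]
    rw [h11, h10, smul_smul]
    congr 1
    field_simp
  refine ⟨h9, ?_⟩
  rw [h1, map_smul, k1, h9]
  module

/-- step 5 -/
theorem Ax.five (h : Ax T) {s m : ℝ} (hs : 0 < s) (hm : 0 < m) (hms : m < 2 * s) {x y v : E}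
    (hx0 : x ≠ 0) (hy0 : y ≠ 0) (hv0 : v ≠ 0)
    (hx : ∀ w, inner ℝ (T w x x) w ≤ (4 * s ^ 2) * inner ℝ w w)
    (hy : ∀ w, inner ℝ (T w y y) w ≤ (4 * s ^ 2) * inner ℝ w w)
    (hyx : T y x x = (4 * s ^ 2) • y) (hxy : T x y y = (4 * s ^ 2) • x)
    (hv : T v x x = m ^ 2 • v) (hvx : inner ℝ v x = (0:ℝ)) (hvy : inner ℝ v y = (0:ℝ)) :
    m = s := by
  obtain ⟨h1, h2⟩ := h.four hs hm hms hy0 hv0 hx hyx hxy hv hvx hvy
  have h3 : √(s * m) ^ 2 = s * m := Real.sq_sqrt (by positivity)
  have h4 : 0 < √(s * m) := Real.sqrt_pos.2 (by positivity)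
  have h5 : √(s * m) < 2 * s := by
    by_contra hcon
    push Not at hcon
    nlinarith
  obtain ⟨_, h6⟩ := h.four hs h4 h5 hx0 hv0 hy hxy hyx (by rw [h3, h1]) hvy hvx
  have h7 : T y x (T y x v) = T x y (T x y v) := by
    rw [h.a12 y x, h.a12 y x v, map_neg, neg_neg]
  rw [h7, h2] at h6
  have h8 : -(4 * s ^ 3 * m) = -(4 * s ^ 3 * √(s * m)) := by
    have h9 : (-(4 * s ^ 3 * m) - -(4 * s ^ 3 * √(s * m))) • v = 0 := by
      rw [sub_smul, h6, sub_self]
    have h10 := (smul_eq_zero.1 h9).resolve_right hv0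
    linarith
  have h9 : m = √(s * m) := by
    have h10 : (4 * s ^ 3) * m = (4 * s ^ 3) * √(s * m) := by linarith
    exact mul_left_cancel₀ (by positivity) h10
  rw [← h9] at h3
  have h10 : m * (m - s) = 0 := by linarith
  rcases mul_eq_zero.1 h10 with h11 | h11
  · linarith
  · linarith

variable [FiniteDimensional ℝ E]

/-- a unit vector where the form is maximal -/
theorem exists_max (J : E →ₗ[ℝ] E) (hE : ∃ v : E, ‖v‖ = 1) :
    ∃ v : E, ‖v‖ = 1 ∧ ∀ w, inner ℝ (J w) w ≤ inner ℝ (J v) v * inner ℝ w w := by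
  obtain ⟨v0, hv0⟩ := hE
  have hc : Continuous fun v : E => inner ℝ (J v) v :=
    (LinearMap.continuous_of_finiteDimensional J).inner continuous_id
  obtain ⟨v, hv, hmax⟩ := (isCompact_sphere (0:E) 1).exists_isMaxOn
    ⟨v0, by rw [mem_sphere_zero_iff_norm]; exact hv0⟩ hc.continuousOn
  rw [mem_sphere_zero_iff_norm] at hv
  refine ⟨v, hv, fun w => ?_⟩
  by_cases hw : w = 0
  · rw [hw]
    simp
  · have hw1 : 0 < ‖w‖ := norm_pos_iff.2 hw
    have h1 := hmax (show ‖w‖⁻¹ • w ∈ Metric.sphere (0:E) 1 by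
      rw [mem_sphere_zero_iff_norm, norm_smul, norm_inv, norm_norm]
      exact inv_mul_cancel₀ hw1.ne')
    have h2 : inner ℝ (J (‖w‖⁻¹ • w)) (‖w‖⁻¹ • w) ≤ inner ℝ (J v) v := h1
    rw [map_smul, inner_smul_left, inner_smul_right, conj_trivial] at h2
    rw [real_inner_self_eq_norm_sq]
    have h3 : inner ℝ (J w) w = (‖w‖⁻¹ * (‖w‖⁻¹ * inner ℝ (J w) w)) * ‖w‖ ^ 2 := by
      field_simp
    rw [h3]
    exact mul_le_mul_of_nonneg_right h2 (by positivity)

/-- decomposition -/
theorem decomp (J : E →ₗ[ℝ] E) (hJ : J.IsSymmetric) {c : ℝ}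
    (he : ∀ (l : ℝ) (v : E), v ≠ 0 → J v = l • v → l = 0 ∨ l = c ∨ l = 4 * c) (v : E) :
    J (J (J v)) - (5 * c) • J (J v) + (4 * c ^ 2) • J v = 0 := by
  have h1 : J ∘ₗ J ∘ₗ J - (5 * c) • (J ∘ₗ J) + (4 * c ^ 2) • J = 0 := by
    apply (hJ.eigenvectorBasis rfl).toBasis.ext
    intro i
    have h2 := hJ.apply_eigenvectorBasis rfl i
    have h3 := he _ _ ((hJ.eigenvectorBasis rfl).orthonormal.ne_zero i) h2
    simp only [OrthonormalBasis.coe_toBasis, LinearMap.add_apply, LinearMap.sub_apply,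
      LinearMap.smul_apply, LinearMap.comp_apply, h2, map_smul, LinearMap.zero_apply]
    rcases h3 with h3 | h3 | h3
    · rw [h3]
      simp
    · rw [h3]
      module
    · rw [h3]
      module
  have h2 := congrArg (fun f : E →ₗ[ℝ] E => f v) h1
  exact h2

theorem Ax.perp (h : Ax T) (x w : E) : inner ℝ (T w x x) x = (0:ℝ) := by
  have h1 := h.a34 w x x x
  rw [real_inner_comm x (T w x x)] at h1
  linarith [real_inner_comm x (T w x x)]

theorem Ax.main (h : Ax T) (hdim : 2 ≤ Module.finrank ℝ E)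
    (htr : ∀ x x' : E, ‖x‖ = 1 → ‖x'‖ = 1 → ∃ g : E ≃ₗᵢ[ℝ] E, ∀ v, g (T v x x) = T (g v) x' x') :
    ∃ c : ℝ, 0 < c ∧
      (∀ x : E, ‖x‖ = 1 → ∃ y : E, ‖y‖ = 1 ∧ inner ℝ y x = (0:ℝ) ∧ T y x x = (4 * c) • y) ∧
      (∀ x : E, ‖x‖ = 1 → ∀ v : E, inner ℝ v x = (0:ℝ) → ∃ v4 v1 : E,
        (inner ℝ v4 x = (0:ℝ) ∧ T v4 x x = (4 * c) • v4) ∧
        (inner ℝ v1 x = (0:ℝ) ∧ T v1 x x = c • v1) ∧ v = v4 + v1) ∧
      ∀ x y : E, ‖x‖ = 1 → ‖y‖ = 1 → inner ℝ x y = (0:ℝ) → T y x x = (4 * c) • y →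
        T x y y = (4 * c) • x ∧ ∀ v : E, inner ℝ v x = (0:ℝ) → inner ℝ v y = (0:ℝ) →
          (T v x x = (4 * c) • v → T x y v = 0 ∧ T v y y = (4 * c) • v) ∧
          (T v x x = c • v → T v y y = c • v ∧ T x y (T x y v) = (-(4 * c ^ 2)) • v) := by
  have hnt : Nontrivial E := Module.nontrivial_of_finrank_pos (R := ℝ) (by omega)
  obtain ⟨x0, hx0⟩ : ∃ x : E, ‖x‖ = 1 := exists_norm_eq E zero_le_one
  have hx00 : x0 ≠ 0 := by
    intro h0
    rw [h0, norm_zero] at hx0
    exact zero_ne_one hx0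
  obtain ⟨y0, hy0, hmax0⟩ := exists_max (Jx T x0) ⟨x0, hx0⟩
  set L : ℝ := inner ℝ (Jx T x0 y0) y0 with hL
  have hmax : ∀ x : E, ‖x‖ = 1 → ∀ w, inner ℝ (T w x x) w ≤ L * inner ℝ w w := by
    intro x hx w
    obtain ⟨g, hg⟩ := htr x0 x hx0 hx
    have h1 := hmax0 (g.symm w)
    have h2 := hg (g.symm w)
    rw [g.apply_symm_apply] at h2
    rw [Jx_apply, ← g.inner_map_map, h2, g.apply_symm_apply, ← g.inner_map_map (g.symm w),
      g.apply_symm_apply] at h1
    exact h1
  have hatt : ∀ x : E, ‖x‖ = 1 → ∃ y : E, ‖y‖ = 1 ∧ T y x x = L • y := by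
    intro x hx
    obtain ⟨g, hg⟩ := htr x0 x hx0 hx
    refine ⟨g y0, by rw [g.norm_map, hy0], h.max_eig (hmax x hx) ?_⟩
    rw [← hg, g.inner_map_map, g.inner_map_map, real_inner_self_eq_norm_sq, hy0, one_pow, mul_one]
    rfl
  have hLpos : 0 < L := by
    obtain ⟨v, hv⟩ : ∃ v : E, ¬ ∃ c : ℝ, c • x0 = v := by
      by_contra hcon
      push Not at hcon
      have := finrank_le_one x0 hcon
      omega
    have h1 := h.nn x0 v
    have h2 : inner ℝ (T v x0 x0) v ≠ (0:ℝ) := by
      intro h3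
      obtain ⟨c, hc⟩ := h.ker0 hx00 h3
      exact hv ⟨c, hc.symm⟩
    have h3 : 0 < inner ℝ (T v x0 x0) v := lt_of_le_of_ne h1 (Ne.symm h2)
    have h4 := hmax x0 hx0 v
    have h5 : 0 ≤ inner ℝ v v := real_inner_self_nonneg
    by_contra hcon
    push Not at hcon
    have h6 : L * inner ℝ v v ≤ 0 := mul_nonpos_of_nonpos_of_nonneg hcon h5
    linarith
  obtain ⟨s, hs, hs4⟩ : ∃ s : ℝ, 0 < s ∧ 4 * s ^ 2 = L := by
    refine ⟨√L / 2, by positivity, ?_⟩
    rw [div_pow, Real.sq_sqrt hLpos.le]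
    ring
  rw [← hs4] at hmax hatt hLpos
  have hne : ∀ x : E, ‖x‖ = 1 → x ≠ 0 := by
    intro x hx h0
    rw [h0, norm_zero] at hx
    exact zero_ne_one hx
  have hA : ∀ x : E, ‖x‖ = 1 → ∃ y : E, ‖y‖ = 1 ∧ inner ℝ y x = (0:ℝ) ∧
      T y x x = (4 * s ^ 2) • y := by
    intro x hx
    obtain ⟨y, hy1, hy2⟩ := hatt x hx
    refine ⟨y, hy1, ?_, hy2⟩
    have h1 := h.perp x y
    rw [hy2, inner_smul_left, conj_trivial, mul_eq_zero] at h1
    exact h1.resolve_left hLpos.ne'
  have hsw : ∀ x y : E, ‖x‖ = 1 → ‖y‖ = 1 → T y x x = (4 * s ^ 2) • y →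
      T x y y = (4 * s ^ 2) • x := by
    intro x y hx hy hyx
    apply h.max_eig (hmax y hy)
    rw [h.swap y x, hyx, inner_smul_left, conj_trivial, real_inner_self_eq_norm_sq,
      real_inner_self_eq_norm_sq, hx, hy]
  refine ⟨s ^ 2, by positivity, hA, ?_, ?_⟩
  · intro x hx v hvx
    have hJ : (Jx T x).IsSymmetric := fun u w => h.symm x u w
    have hd := decomp (Jx T x) hJ (c := s ^ 2) (by
      intro l u hu hl
      rw [Jx_apply] at hl
      have hul : 0 < inner ℝ u u := real_inner_self_pos.2 hu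
      have h1 := h.nn x u
      rw [hl, inner_smul_left, conj_trivial] at h1
      have h2 : 0 ≤ l := nonneg_of_mul_nonneg_left h1 hul
      have h3 := hmax x hx u
      rw [hl, inner_smul_left, conj_trivial] at h3
      have h4 : l ≤ 4 * s ^ 2 := le_of_mul_le_mul_right h3 hul
      rcases eq_or_lt_of_le h2 with h5 | h5
      · left
        exact h5.symm
      · rcases eq_or_lt_of_le h4 with h6 | h6
        · right
          right
          exact h6
        · right
          left
          obtain ⟨y, hy1, hy2, hy3⟩ := hA x hx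
          have h7 : inner ℝ u x = (0:ℝ) := by
            have h8 := h.perp x u
            rw [hl, inner_smul_left, conj_trivial, mul_eq_zero] at h8
            exact h8.resolve_left h5.ne'
          have h8 : inner ℝ u y = (0:ℝ) := by
            have h9 := h.symm x u y
            rw [hl, hy3, inner_smul_left, inner_smul_right, conj_trivial] at h9
            have h10 : (4 * s ^ 2 - l) * inner ℝ u y = 0 := by linarith
            exact (mul_eq_zero.1 h10).resolve_left (by linarith)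
          have h9 : √l ^ 2 = l := Real.sq_sqrt h2
          have h10 : 0 < √l := Real.sqrt_pos.2 h5
          have h11 : √l < 2 * s := by
            by_contra hcon
            push Not at hcon
            nlinarith
          have h12 := h.five hs h10 h11 (hne x hx) (hne y hy1) hu (hmax x hx) (hmax y hy1) hy3
            (hsw x y hx hy1 hy3) (by rw [h9, hl]) h7 h8
          rw [← h12, h9]) v
    have hc : (s ^ 2) ≠ 0 := by positivity
    set J := Jx T x with hJdef
    have hp : ∀ w, inner ℝ (J w) x = (0:ℝ) := fun w => h.perp x w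
    have hJ3 : J (J (J v)) = (5 * s ^ 2) • J (J v) - (4 * (s ^ 2) ^ 2) • J v := by
      have h1 : J (J (J v)) = (J (J (J v)) - (5 * s ^ 2) • J (J v) + (4 * (s ^ 2) ^ 2) • J v) +
        ((5 * s ^ 2) • J (J v) - (4 * (s ^ 2) ^ 2) • J v) := by abel
      rw [h1, hd, zero_add]
    have hv0 : v - ((1 / (12 * (s ^ 2) ^ 2)) • (J (J v) - (s ^ 2) • J v) +
        (-(1 / (3 * (s ^ 2) ^ 2))) • (J (J v) - (4 * s ^ 2) • J v)) = 0 := by
      have h1 : J (v - ((1 / (12 * (s ^ 2) ^ 2)) • (J (J v) - (s ^ 2) • J v) +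
        (-(1 / (3 * (s ^ 2) ^ 2))) • (J (J v) - (4 * s ^ 2) • J v))) = 0 := by
        simp only [map_sub, map_add, map_smul, hJ3]
        match_scalars
        · field_simp
          ring
        · field_simp
          ring
      obtain ⟨k, hk⟩ := h.ke x _ (hne x hx) h1
      have h2 : inner ℝ (v - ((1 / (12 * (s ^ 2) ^ 2)) • (J (J v) - (s ^ 2) • J v) +
        (-(1 / (3 * (s ^ 2) ^ 2))) • (J (J v) - (4 * s ^ 2) • J v))) x = (0:ℝ) := by
        simp only [inner_sub_left, inner_add_left, inner_smul_left, hp, hvx, mul_zero, sub_zero,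
          add_zero]
      rw [hk, inner_smul_left, conj_trivial, real_inner_self_eq_norm_sq, hx, one_pow,
        mul_one] at h2
      rw [hk, h2, zero_smul]
    refine ⟨(1 / (12 * (s ^ 2) ^ 2)) • (J (J v) - (s ^ 2) • J v),
      (-(1 / (3 * (s ^ 2) ^ 2))) • (J (J v) - (4 * s ^ 2) • J v), ⟨?_, ?_⟩, ⟨?_, ?_⟩,
      sub_eq_zero.1 hv0⟩
    · simp only [inner_sub_left, inner_smul_left, hp, mul_zero, sub_zero]
    · rw [← Jx_apply, ← hJdef]
      simp only [map_sub, map_smul, hJ3]
      match_scalars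
      · field_simp
        ring
      · field_simp
    · simp only [inner_sub_left, inner_smul_left, hp, mul_zero, sub_zero]
    · rw [← Jx_apply, ← hJdef]
      simp only [map_sub, map_smul, hJ3]
      match_scalars
      · field_simp
        ring
      · field_simp
  · intro x y hx hy hxy' hyx
    have hxy := hsw x y hx hy hyx
    refine ⟨hxy, fun v hvx hvy => ⟨fun hv => ?_, fun hv => ?_⟩⟩
    · exact h.three hs (hne x hx) (hmax x hx) hyx hxy hv hvx hvy
    · by_cases hv0 : v = 0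
      · rw [hv0]
        simp
      · obtain ⟨h1, h2⟩ := h.four hs hs (by linarith) (hne y hy) hv0 (hmax x hx) hyx hxy hv hvx hvy
        refine ⟨by rw [h1]; congr 1; ring, by rw [h2]; congr 1; ring⟩

end Abs
section Tr

variable {n : ℕ}

theorem rot3 (G : Fin n → Fin n → Fin n → ℝ) :
    ∑ a, ∑ b, ∑ c, G b c a = ∑ a, ∑ b, ∑ c, G a b c := by
  rw [Finset.sum_comm]
  exact Finset.sum_congr rfl fun b _ => Finset.sum_comm

theorem R4_12 {R : T4 n} (hR : IsAC R) (x y z w : Fin n → ℝ) :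
    R4 R x y z w = - R4 R y x z w := by
  unfold R4
  rw [Finset.sum_comm]
  simp only [← Finset.sum_neg_distrib]
  refine Finset.sum_congr rfl fun a _ => Finset.sum_congr rfl fun b _ =>
    Finset.sum_congr rfl fun c _ => Finset.sum_congr rfl fun d _ => ?_
  rw [hR.a12 b a]
  ring

theorem R4_34 {R : T4 n} (hR : IsAC R) (x y z w : Fin n → ℝ) :
    R4 R x y z w = - R4 R x y w z := by
  unfold R4
  simp only [← Finset.sum_neg_distrib]
  refine Finset.sum_congr rfl fun a _ => Finset.sum_congr rfl fun b _ => ?_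
  rw [Finset.sum_comm]
  refine Finset.sum_congr rfl fun c _ => Finset.sum_congr rfl fun d _ => ?_
  rw [hR.a34 a b d c]
  ring

theorem R4_pr {R : T4 n} (hR : IsAC R) (x y z w : Fin n → ℝ) :
    R4 R x y z w = R4 R z w x y := by
  unfold R4
  have h1 : ∀ F : Fin n → Fin n → Fin n → Fin n → ℝ,
      ∑ a, ∑ b, ∑ c, ∑ d, F a b c d = ∑ c, ∑ d, ∑ a, ∑ b, F a b c d := by
    intro F
    calc ∑ a, ∑ b, ∑ c, ∑ d, F a b c d = ∑ a, ∑ c, ∑ b, ∑ d, F a b c d :=
          Finset.sum_congr rfl fun a _ => Finset.sum_comm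
      _ = ∑ c, ∑ a, ∑ b, ∑ d, F a b c d := Finset.sum_comm
      _ = ∑ c, ∑ a, ∑ d, ∑ b, F a b c d :=
          Finset.sum_congr rfl fun c _ => Finset.sum_congr rfl fun a _ => Finset.sum_comm
      _ = ∑ c, ∑ d, ∑ a, ∑ b, F a b c d :=
          Finset.sum_congr rfl fun c _ => Finset.sum_comm
  rw [h1]
  refine Finset.sum_congr rfl fun a _ => Finset.sum_congr rfl fun b _ =>
    Finset.sum_congr rfl fun c _ => Finset.sum_congr rfl fun d _ => ?_
  rw [hR.pr c d a b]
  ring

theorem R4_bi {R : T4 n} (hR : IsAC R) (x y z w : Fin n → ℝ) :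
    R4 R x y z w + R4 R y z x w + R4 R z x y w = 0 := by
  have h1 : R4 R y z x w = ∑ a, ∑ b, ∑ c, ∑ d, R b c a d * y b * z c * x a * w d := by
    unfold R4
    exact (rot3 (fun a b c => ∑ d, R a b c d * y a * z b * x c * w d)).symm
  have h2 : R4 R z x y w = ∑ a, ∑ b, ∑ c, ∑ d, R c a b d * z c * x a * y b * w d := by
    unfold R4
    exact rot3 (fun a b c => ∑ d, R c a b d * z c * x a * y b * w d)
  rw [h1, h2]
  unfold R4
  simp only [← Finset.sum_add_distrib]
  refine Finset.sum_eq_zero fun a _ => Finset.sum_eq_zero fun b _ =>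
    Finset.sum_eq_zero fun c _ => Finset.sum_eq_zero fun d _ => ?_
  have h := hR.bi a b c d
  have h3 : R a b c d * x a * y b * z c * w d + R b c a d * y b * z c * x a * w d +
      R c a b d * z c * x a * y b * w d =
      (R a b c d + R b c a d + R c a b d) * (x a * y b * z c * w d) := by ring
  rw [h3, h, zero_mul]

theorem R4_eq (R : T4 n) (x y z w : Fin n → ℝ) :
    R4 R x y z w = ∑ a, x a * ∑ b, y b * ∑ c, z c * ∑ d, w d * R a b c d := by
  unfold R4
  simp only [Finset.mul_sum]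
  refine Finset.sum_congr rfl fun a _ => Finset.sum_congr rfl fun b _ =>
    Finset.sum_congr rfl fun c _ => Finset.sum_congr rfl fun d _ => ?_
  ring

theorem R4_ac1 (R : T4 n) (h : Fin n → Fin n → ℝ) (x y z w : Fin n → ℝ) :
    R4 R (ac h x) y z w = ∑ i, x i * R4 R (h i) y z w := by
  simp only [R4_eq, ac]
  rw [Finset.sum_congr rfl fun a _ => Finset.sum_mul _ _ _, Finset.sum_comm]
  refine Finset.sum_congr rfl fun i _ => ?_
  rw [Finset.mul_sum]
  exact Finset.sum_congr rfl fun a _ => by ring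

theorem R4_ac {R : T4 n} (hR : IsAC R) (h : Fin n → Fin n → ℝ) (x y z w : Fin n → ℝ) :
    R4 R (ac h x) (ac h y) (ac h z) (ac h w) = R4 (Rh R h) x y z w := by
  have h2 : ∀ x y z w : Fin n → ℝ, R4 R x (ac h y) z w = ∑ i, y i * R4 R x (h i) z w := by
    intro x y z w
    rw [R4_12 hR, R4_ac1, ← Finset.sum_neg_distrib]
    refine Finset.sum_congr rfl fun i _ => ?_
    rw [R4_12 hR x (h i)]
    ring
  have h3 : ∀ x y z w : Fin n → ℝ, R4 R x y (ac h z) w = ∑ i, z i * R4 R x y (h i) w := by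
    intro x y z w
    rw [R4_pr hR, R4_ac1]
    exact Finset.sum_congr rfl fun i _ => by rw [R4_pr hR x y (h i)]
  have h4 : ∀ x y z w : Fin n → ℝ, R4 R x y z (ac h w) = ∑ i, w i * R4 R x y z (h i) := by
    intro x y z w
    rw [R4_pr hR, h2]
    exact Finset.sum_congr rfl fun i _ => by rw [R4_pr hR x y z (h i)]
  rw [R4_ac1, R4_eq (Rh R h)]
  refine Finset.sum_congr rfl fun i _ => ?_
  rw [h2]
  congr 1
  refine Finset.sum_congr rfl fun j _ => ?_
  rw [h3]
  congr 1
  refine Finset.sum_congr rfl fun k _ => ?_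
  rw [h4]
  rfl

theorem sum3 (f : Fin n → Fin n → Fin n → ℝ) :
    ∑ a, ∑ i, ∑ j, f a i j = ∑ i, ∑ j, ∑ a, f a i j := by
  rw [Finset.sum_comm]
  exact Finset.sum_congr rfl fun i _ => Finset.sum_comm

theorem dt_ac {h : Fin n → Fin n → ℝ} (hh : ON h) (u v : Fin n → ℝ) :
    dt (ac h u) (ac h v) = dt u v := by
  unfold dt ac
  simp only [Finset.sum_mul_sum]
  rw [sum3]
  refine Finset.sum_congr rfl fun i _ => ?_
  rw [Finset.sum_eq_single i]
  · have h1 : ∑ a, h i a * h i a = 1 := by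
      have := hh i i
      rw [if_pos rfl] at this
      exact this
    have h2 : ∀ a, u i * h i a * (v i * h i a) = u i * v i * (h i a * h i a) := fun a => by ring
    rw [Finset.sum_congr rfl fun a _ => h2 a, ← Finset.mul_sum, h1, mul_one]
  · intro j _ hj
    have h1 : ∑ a, h i a * h j a = 0 := by
      have := hh i j
      rw [if_neg (Ne.symm hj)] at this
      exact this
    have h2 : ∀ a, u i * h i a * (v j * h j a) = u i * v j * (h i a * h j a) := fun a => by ring
    rw [Finset.sum_congr rfl fun a _ => h2 a, ← Finset.mul_sum, h1, mul_zero]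
  · intro h0
    exact absurd (Finset.mem_univ i) h0

theorem dt_RV (R : T4 n) (x y z w : Fin n → ℝ) : dt (RV R x y z) w = R4 R x y z w := by
  unfold dt RV R4
  simp only [Finset.sum_mul]
  rw [Finset.sum_comm]
  refine Finset.sum_congr rfl fun a _ => ?_
  rw [Finset.sum_comm]
  refine Finset.sum_congr rfl fun b _ => ?_
  rw [Finset.sum_comm]

theorem RV_add1 (R : T4 n) (x x' y z : Fin n → ℝ) :
    RV R (x + x') y z = RV R x y z + RV R x' y z := by
  funext d
  simp only [RV, Pi.add_apply, mul_add, add_mul, Finset.sum_add_distrib]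

theorem RV_add2 (R : T4 n) (x y y' z : Fin n → ℝ) :
    RV R x (y + y') z = RV R x y z + RV R x y' z := by
  funext d
  simp only [RV, Pi.add_apply, mul_add, add_mul, Finset.sum_add_distrib]

theorem RV_add3 (R : T4 n) (x y z z' : Fin n → ℝ) :
    RV R x y (z + z') = RV R x y z + RV R x y z' := by
  funext d
  simp only [RV, Pi.add_apply, mul_add, add_mul, Finset.sum_add_distrib]

theorem RV_smul1 (R : T4 n) (r : ℝ) (x y z : Fin n → ℝ) :
    RV R (r • x) y z = r • RV R x y z := by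
  funext d
  simp only [RV, Pi.smul_apply, smul_eq_mul, Finset.mul_sum]
  refine Finset.sum_congr rfl fun a _ => Finset.sum_congr rfl fun b _ =>
    Finset.sum_congr rfl fun e _ => ?_
  ring

theorem RV_smul2 (R : T4 n) (r : ℝ) (x y z : Fin n → ℝ) :
    RV R x (r • y) z = r • RV R x y z := by
  funext d
  simp only [RV, Pi.smul_apply, smul_eq_mul, Finset.mul_sum]
  refine Finset.sum_congr rfl fun a _ => Finset.sum_congr rfl fun b _ =>
    Finset.sum_congr rfl fun e _ => ?_
  ring

theorem RV_smul3 (R : T4 n) (r : ℝ) (x y z : Fin n → ℝ) :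
    RV R x y (r • z) = r • RV R x y z := by
  funext d
  simp only [RV, Pi.smul_apply, smul_eq_mul, Finset.mul_sum]
  refine Finset.sum_congr rfl fun a _ => Finset.sum_congr rfl fun b _ =>
    Finset.sum_congr rfl fun e _ => ?_
  ring

/-- the coordinates -/
def ee (n : ℕ) : EuclideanSpace ℝ (Fin n) ≃ₗ[ℝ] (Fin n → ℝ) := WithLp.linearEquiv 2 ℝ (Fin n → ℝ)

theorem inner_ee (x y : EuclideanSpace ℝ (Fin n)) : inner ℝ x y = dt (ee n x) (ee n y) := by
  rw [PiLp.inner_apply]
  unfold dt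
  refine Finset.sum_congr rfl fun i _ => ?_
  show inner ℝ (x.ofLp i) (y.ofLp i) = x.ofLp i * y.ofLp i
  rw [RCLike.inner_apply, conj_trivial, mul_comm]

/-- the curvature tensor as a trilinear map -/
def TV (R : T4 n) :
    (Fin n → ℝ) →ₗ[ℝ] (Fin n → ℝ) →ₗ[ℝ] (Fin n → ℝ) →ₗ[ℝ] (Fin n → ℝ) :=
  LinearMap.mk₂ ℝ (fun x y => (⟨⟨RV R x y, RV_add3 R x y⟩, fun r z => RV_smul3 R r x y z⟩ :
      (Fin n → ℝ) →ₗ[ℝ] (Fin n → ℝ)))
    (fun x x' y => LinearMap.ext fun z => RV_add1 R x x' y z)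
    (fun r x y => LinearMap.ext fun z => RV_smul1 R r x y z)
    (fun x y y' => LinearMap.ext fun z => RV_add2 R x y y' z)
    (fun r x y => LinearMap.ext fun z => RV_smul2 R r x y z)

/-- the same on the Euclidean space -/
def TE (R : T4 n) : EuclideanSpace ℝ (Fin n) →ₗ[ℝ] EuclideanSpace ℝ (Fin n) →ₗ[ℝ]
    EuclideanSpace ℝ (Fin n) →ₗ[ℝ] EuclideanSpace ℝ (Fin n) :=
  LinearMap.mk₂ ℝ (fun x y => (ee n).symm.toLinearMap ∘ₗ TV R (ee n x) (ee n y) ∘ₗ
      (ee n).toLinearMap)
    (fun x x' y => LinearMap.ext fun z => by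
      simp only [LinearMap.comp_apply, LinearMap.add_apply, map_add, LinearEquiv.coe_coe])
    (fun r x y => LinearMap.ext fun z => by
      simp only [LinearMap.comp_apply, LinearMap.smul_apply, map_smul, LinearEquiv.coe_coe])
    (fun x y y' => LinearMap.ext fun z => by
      simp only [LinearMap.comp_apply, LinearMap.add_apply, map_add, LinearEquiv.coe_coe])
    (fun r x y => LinearMap.ext fun z => by
      simp only [LinearMap.comp_apply, LinearMap.smul_apply, map_smul, LinearEquiv.coe_coe])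

theorem TE_apply (R : T4 n) (x y z : EuclideanSpace ℝ (Fin n)) :
    TE R x y z = (ee n).symm (RV R (ee n x) (ee n y) (ee n z)) := rfl

theorem ee_TE (R : T4 n) (x y z : EuclideanSpace ℝ (Fin n)) :
    ee n (TE R x y z) = RV R (ee n x) (ee n y) (ee n z) := by
  rw [TE_apply, LinearEquiv.apply_symm_apply]

theorem inner_TE (R : T4 n) (x y z w : EuclideanSpace ℝ (Fin n)) :
    inner ℝ (TE R x y z) w = R4 R (ee n x) (ee n y) (ee n z) (ee n w) := by
  rw [inner_ee, ee_TE, dt_RV]

theorem nonneg {R : T4 n} (hR : IsAC R) (hC : COp R 0) (v x : Fin n → ℝ) : 0 ≤ R4 R v x x v := by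
  have h1 := hC (fun a b => v a * x b - x a * v b) (fun a b => by ring)
  have h2 : ∑ a, ∑ b, ∑ c, ∑ d, R a b c d * (v a * x b - x a * v b) * (v c * x d - x c * v d) =
      R4 R v x v x - R4 R v x x v - R4 R x v v x + R4 R x v x v := by
    unfold R4
    simp only [← Finset.sum_sub_distrib, ← Finset.sum_add_distrib]
    refine Finset.sum_congr rfl fun a _ => Finset.sum_congr rfl fun b _ =>
      Finset.sum_congr rfl fun c _ => Finset.sum_congr rfl fun d _ => ?_
    ring
  rw [h2] at h1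
  have h3 := R4_34 hR v x v x
  have h4 := R4_12 hR x v v x
  have h5 := R4_12 hR x v x v
  simp only [neg_zero, zero_mul] at h1
  linarith

theorem ax {R : T4 n} (hR : IsAC R) (hC : COp R 0) (hS : SymR R)
    (hK : ∀ x y, x ≠ 0 → RV R y x x = 0 → ∃ c : ℝ, y = c • x) : Ax (TE R) := by
  refine ⟨?_, ?_, ?_, ?_, ?_, ?_, ?_⟩
  · intro x y z
    apply ext_inner_right ℝ
    intro w
    rw [inner_neg_left, inner_TE, inner_TE, R4_12 hR]
  · intro x y z w
    rw [real_inner_comm (TE R x y w) z, inner_TE, inner_TE, R4_34 hR]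
  · intro x y z w
    rw [inner_TE, inner_TE, R4_pr hR]
  · intro x y z
    apply ext_inner_right ℝ
    intro w
    rw [inner_add_left, inner_add_left, inner_zero_left, inner_TE, inner_TE, inner_TE]
    exact R4_bi hR _ _ _ _
  · intro x y u v w
    apply (ee n).injective
    rw [map_add, map_add]
    simp only [ee_TE]
    exact hS _ _ _ _ _
  · intro x v
    rw [inner_TE]
    exact nonneg hR hC _ _
  · intro x y hx h0
    have h1 : RV R (ee n y) (ee n x) (ee n x) = 0 := by
      rw [← ee_TE, h0, map_zero]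
    obtain ⟨c, hc⟩ := hK (ee n x) (ee n y) (by
      intro h2
      exact hx ((ee n).map_eq_zero_iff.1 h2)) h1
    refine ⟨c, (ee n).injective ?_⟩
    rw [hc, map_smul]

theorem norm_ee {x : EuclideanSpace ℝ (Fin n)} : ‖x‖ = 1 ↔ dt (ee n x) (ee n x) = 1 := by
  rw [← inner_ee, real_inner_self_eq_norm_sq]
  constructor
  · intro h
    rw [h, one_pow]
  · intro h
    exact (pow_eq_one_iff_of_nonneg (norm_nonneg x) two_ne_zero).1 h

/-- the matrix as a linear map -/
def acE (h : Fin n → Fin n → ℝ) : EuclideanSpace ℝ (Fin n) →ₗ[ℝ] EuclideanSpace ℝ (Fin n) where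
  toFun x := (ee n).symm (ac h (ee n x))
  map_add' x y := by
    rw [← map_add]
    congr 1
    funext a
    simp only [ac, map_add, Pi.add_apply, add_mul, Finset.sum_add_distrib]
  map_smul' r x := by
    rw [RingHom.id_apply, ← map_smul]
    congr 1
    funext a
    simp only [ac, map_smul, Pi.smul_apply, smul_eq_mul, Finset.mul_sum, mul_assoc]

theorem ee_acE (h : Fin n → Fin n → ℝ) (x : EuclideanSpace ℝ (Fin n)) :
    ee n (acE h x) = ac h (ee n x) := (ee n).apply_symm_apply _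

theorem htr {R : T4 n} (hR : IsAC R) (hT : TrG R) (x x' : EuclideanSpace ℝ (Fin n))
    (hx : ‖x‖ = 1) (hx' : ‖x'‖ = 1) :
    ∃ g : EuclideanSpace ℝ (Fin n) ≃ₗᵢ[ℝ] EuclideanSpace ℝ (Fin n),
      ∀ v, g (TE R v x x) = TE R (g v) x' x' := by
  by_cases hc : dt (ee n x) (ee n x') = -1
  · have h1 : x' = -x := by
      rw [← inner_ee] at hc
      have h2 : inner ℝ (x' + x) (x' + x) = (0:ℝ) := by
        rw [inner_add_left, inner_add_right, inner_add_right, real_inner_comm x x',
          real_inner_self_eq_norm_sq, real_inner_self_eq_norm_sq, hx, hx', hc]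
        norm_num
      exact eq_neg_of_add_eq_zero_left (inner_self_eq_zero.1 h2)
    refine ⟨LinearIsometryEquiv.refl ℝ _, fun v => ?_⟩
    rw [h1]
    simp
  · obtain ⟨h, hh, hRh, hac⟩ := hT (ee n x) (ee n x') (norm_ee.1 hx) (norm_ee.1 hx') hc
    have hin : ∀ u v, inner ℝ (acE h u) (acE h v) = inner ℝ u v := by
      intro u v
      rw [inner_ee, inner_ee, ee_acE, ee_acE, dt_ac hh]
    let g := ((acE h).isometryOfInner hin).toLinearIsometryEquiv rfl
    have hg : ∀ v, g v = acE h v := fun v => rfl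
    refine ⟨g, fun v => ?_⟩
    have hgx : g x = x' := by
      rw [hg]
      apply (ee n).injective
      rw [ee_acE, hac]
    apply ext_inner_right ℝ
    intro w
    obtain ⟨w', rfl⟩ := g.surjective w
    rw [g.inner_map_map, ← hgx, inner_TE, inner_TE, hg, hg, hg, ee_acE, ee_acE, ee_acE,
      R4_ac hR, hRh]

end Tr

end Eigb

open Eigb in
/-- the eigenvalues of the Jacobi operators -/
theorem s_eig : S_EIG := by
  intro n R hn hR hC hS hT hK
  have hax := ax hR hC hS hK
  obtain ⟨c, hc, hA, hB, hD⟩ := hax.main (by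
    rw [finrank_euclideanSpace_fin]
    exact hn) (htr hR hT)
  have hA' : ∀ x : Fin n → ℝ, dt x x = 1 → ∃ y, dt y y = 1 ∧ y ∈ Eg R (4 * c) x := by
    intro x hx
    obtain ⟨y, hy1, hy2, hy3⟩ := hA ((ee n).symm x) (norm_ee.2 (by
      rw [LinearEquiv.apply_symm_apply]; exact hx))
    refine ⟨ee n y, norm_ee.1 hy1, ?_, ?_⟩
    · rw [inner_ee, LinearEquiv.apply_symm_apply] at hy2
      exact hy2
    · have h1 := congrArg (ee n) hy3
      rw [ee_TE, LinearEquiv.apply_symm_apply, map_smul] at h1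
      exact h1
  have hle : ∀ x x' : Fin n → ℝ, dt x x = 1 → dt x' x' = 1 →
      Module.finrank ℝ (Eg R (4 * c) x) ≤ Module.finrank ℝ (Eg R (4 * c) x') := by
    intro x x' hx hx'
    obtain ⟨g, hg⟩ := htr hR hT ((ee n).symm x) ((ee n).symm x') (norm_ee.2 (by
      rw [LinearEquiv.apply_symm_apply]; exact hx)) (norm_ee.2 (by
      rw [LinearEquiv.apply_symm_apply]; exact hx'))
    let G : (Fin n → ℝ) ≃ₗ[ℝ] (Fin n → ℝ) :=
      (ee n).symm.trans (g.toLinearEquiv.trans (ee n))
    have h1 : (Eg R (4 * c) x).map G.toLinearMap ≤ Eg R (4 * c) x' := by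
      rintro _ ⟨v, ⟨hv1, hv2⟩, rfl⟩
      have h2 := hg ((ee n).symm v)
      have h3 : TE R ((ee n).symm v) ((ee n).symm x) ((ee n).symm x) =
          (4 * c) • (ee n).symm v := by
        apply (ee n).injective
        rw [ee_TE, map_smul]
        simp only [LinearEquiv.apply_symm_apply]
        exact hv2
      rw [h3, map_smul] at h2
      have h5 : RV R (G v) x' x' = (4 * c) • G v := by
        have h4 := congrArg (ee n) h2
        rw [ee_TE, map_smul] at h4
        simp only [LinearEquiv.apply_symm_apply] at h4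
        exact h4.symm
      refine ⟨?_, h5⟩
      have h6 := hax.perp ((ee n).symm x') (g ((ee n).symm v))
      rw [← h2, inner_smul_left, conj_trivial, mul_eq_zero] at h6
      have h7 := h6.resolve_left (by positivity)
      rw [inner_ee, LinearEquiv.apply_symm_apply] at h7
      exact h7
    have h8 := LinearEquiv.finrank_map_eq G (Eg R (4 * c) x)
    rw [← h8]
    exact Submodule.finrank_mono h1
  obtain ⟨x0, hx0⟩ : ∃ x : Fin n → ℝ, dt x x = 1 := by
    refine ⟨Pi.single ⟨0, by omega⟩ 1, ?_⟩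
    unfold dt
    simp [Pi.single_apply]
  refine ⟨c, Module.finrank ℝ (Eg R (4 * c) x0) + 1, hc, ⟨hR, hS, ?_, ?_⟩, ?_, ?_⟩
  · intro x hx v hv
    obtain ⟨v4, v1, ⟨h1, h2⟩, ⟨h3, h4⟩, h5⟩ := hB ((ee n).symm x) (norm_ee.2 (by
      rw [LinearEquiv.apply_symm_apply]; exact hx)) ((ee n).symm v) (by
      rw [inner_ee, LinearEquiv.apply_symm_apply, LinearEquiv.apply_symm_apply]
      exact hv)
    refine ⟨ee n v4, ⟨?_, ?_⟩, ee n v1, ⟨?_, ?_⟩, ?_⟩
    · rw [inner_ee, LinearEquiv.apply_symm_apply] at h1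
      exact h1
    · have h6 := congrArg (ee n) h2
      rw [ee_TE, LinearEquiv.apply_symm_apply, map_smul] at h6
      exact h6
    · rw [inner_ee, LinearEquiv.apply_symm_apply] at h3
      exact h3
    · have h6 := congrArg (ee n) h4
      rw [ee_TE, LinearEquiv.apply_symm_apply, map_smul] at h6
      exact h6
    · rw [← map_add, ← h5, LinearEquiv.apply_symm_apply]
  · intro x y hx hy hxy hyx
    obtain ⟨h1, h2⟩ := hD ((ee n).symm x) ((ee n).symm y) (norm_ee.2 (by
      rw [LinearEquiv.apply_symm_apply]; exact hx)) (norm_ee.2 (by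
      rw [LinearEquiv.apply_symm_apply]; exact hy)) (by
      rw [inner_ee, LinearEquiv.apply_symm_apply, LinearEquiv.apply_symm_apply]
      exact hxy) (by
      apply (ee n).injective
      rw [ee_TE, map_smul]
      simp only [LinearEquiv.apply_symm_apply]
      exact hyx)
    have conv : ∀ (a b d u : Fin n → ℝ) (r : ℝ), RV R a b d = r • u ↔
        TE R ((ee n).symm a) ((ee n).symm b) ((ee n).symm d) = r • (ee n).symm u := by
      intro a b d u r
      rw [← (ee n).injective.eq_iff, ee_TE, map_smul]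
      simp only [LinearEquiv.apply_symm_apply]
    refine ⟨(conv _ _ _ _ _).2 h1, fun v hvx hvy => ?_⟩
    obtain ⟨h3, h4⟩ := h2 ((ee n).symm v) (by
      rw [inner_ee, LinearEquiv.apply_symm_apply, LinearEquiv.apply_symm_apply]
      exact hvx) (by
      rw [inner_ee, LinearEquiv.apply_symm_apply, LinearEquiv.apply_symm_apply]
      exact hvy)
    refine ⟨fun hv => ?_, fun hv => ?_⟩
    · obtain ⟨h5, h6⟩ := h3 ((conv _ _ _ _ _).1 hv)
      refine ⟨?_, (conv _ _ _ _ _).2 h6⟩
      have h7 := congrArg (ee n) h5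
      rw [ee_TE, map_zero] at h7
      simp only [LinearEquiv.apply_symm_apply] at h7
      exact h7
    · obtain ⟨h5, h6⟩ := h4 ((conv _ _ _ _ _).1 hv)
      refine ⟨(conv _ _ _ _ _).2 h5, ?_⟩
      have h7 := congrArg (ee n) h6
      rw [ee_TE, ee_TE, map_smul] at h7
      simp only [LinearEquiv.apply_symm_apply] at h7
      exact h7
  · intro x hx
    rw [le_antisymm (hle x x0 hx hx0) (hle x0 x hx0 hx)]
  · obtain ⟨y, hy1, hy2⟩ := hA' x0 hx0
    have h1 : 0 < Module.finrank ℝ (Eg R (4 * c) x0) := by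
      rw [Module.finrank_pos_iff_exists_ne_zero]
      refine ⟨⟨y, hy2⟩, ?_⟩
      intro h2
      have h3 : y = 0 := congrArg Subtype.val h2
      rw [h3] at hy1
      unfold dt at hy1
      simp at hy1
    omega

end Pool.Agent.H781.KP
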