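import Pool.Agent.H781.KP.K

/-!
Project KK, the dimension of the lines is even (helper137 for helper781).
-/

set_option autoImplicit false
set_option synthInstance.maxHeartbeats 400000
set_option maxHeartbeats 4000000
set_option linter.unusedSectionVars false

open MeasureTheory Filter
open scoped Topology ContDiff

noncomputable section

namespace Pool.Agent.H781.KP

open Pool.Agent.H781.NG Pool.Agent.H781.CM Pool.Agent.H781.H6

namespace Evnb

variable {n : ℕ}

theorem dtc (x y : Fin n → ℝ) : dt x y = dt y x := Finset.sum_congr rfl fun _ _ => mul_comm _ _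

theorem dta (x x' y : Fin n → ℝ) : dt (x + x') y = dt x y + dt x' y := by
  simp only [dt, Pi.add_apply, add_mul, Finset.sum_add_distrib]

theorem dts (c : ℝ) (x y : Fin n → ℝ) : dt (c • x) y = c * dt x y := by
  simp only [dt, Pi.smul_apply, smul_eq_mul, Finset.mul_sum, mul_assoc]

theorem dta' (x y y' : Fin n → ℝ) : dt x (y + y') = dt x y + dt x y' := by
  rw [dtc, dta, dtc y, dtc y']

theorem dts' (c : ℝ) (x y : Fin n → ℝ) : dt x (c • y) = c * dt x y := by
  rw [dtc, dts, dtc y]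

theorem dtn (x : Fin n → ℝ) : 0 ≤ dt x x := Finset.sum_nonneg fun _ _ => mul_self_nonneg _

theorem dtz {x : Fin n → ℝ} (h : dt x x = 0) : x = 0 := by
  funext i
  have h1 := (Finset.sum_eq_zero_iff_of_nonneg (fun i _ => mul_self_nonneg (x i))).1 h i
    (Finset.mem_univ i)
  exact mul_self_eq_zero.1 h1

theorem dtp {x : Fin n → ℝ} (h : x ≠ 0) : 0 < dt x x :=
  lt_of_le_of_ne (dtn x) fun h1 => h (dtz h1.symm)

/-- normalisation -/
theorem nrm {x : Fin n → ℝ} (h : x ≠ 0) : ∃ s : ℝ, 0 < s ∧ dt (s⁻¹ • x) (s⁻¹ • x) = 1 := by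
  have h1 := dtp h
  refine ⟨√(dt x x), Real.sqrt_pos.2 h1, ?_⟩
  rw [dts, dts']
  have h2 := Real.mul_self_sqrt h1.le
  have h3 := (Real.sqrt_pos.2 h1).ne'
  field_simp
  rw [sq, h2]

theorem rot3 (G : Fin n → Fin n → Fin n → ℝ) :
    ∑ a, ∑ b, ∑ c, G b c a = ∑ a, ∑ b, ∑ c, G a b c := by
  rw [Finset.sum_comm]
  exact Finset.sum_congr rfl fun b _ => Finset.sum_comm

theorem R12 {R : T4 n} (hR : IsAC R) (x y z w : Fin n → ℝ) :
    R4 R x y z w = - R4 R y x z w := by
  unfold R4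
  rw [Finset.sum_comm]
  simp only [← Finset.sum_neg_distrib]
  refine Finset.sum_congr rfl fun a _ => Finset.sum_congr rfl fun b _ =>
    Finset.sum_congr rfl fun c _ => Finset.sum_congr rfl fun d _ => ?_
  rw [hR.a12 b a]
  ring

theorem R34 {R : T4 n} (hR : IsAC R) (x y z w : Fin n → ℝ) :
    R4 R x y z w = - R4 R x y w z := by
  unfold R4
  simp only [← Finset.sum_neg_distrib]
  refine Finset.sum_congr rfl fun a _ => Finset.sum_congr rfl fun b _ => ?_
  rw [Finset.sum_comm]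
  refine Finset.sum_congr rfl fun c _ => Finset.sum_congr rfl fun d _ => ?_
  rw [hR.a34 a b d c]
  ring

theorem Rpr {R : T4 n} (hR : IsAC R) (x y z w : Fin n → ℝ) :
    R4 R x y z w = R4 R z w x y := by
  unfold R4
  have h1 : ∀ F : Fin n → Fin n → Fin n → Fin n → ℝ,
      ∑ a, ∑ b, ∑ c, ∑ d, F a b c d = ∑ c, ∑ d, ∑ a, ∑ b, F a b c d := by
    intro F
    calc ∑ a, ∑ b, ∑ c, ∑ d, F a b c d = ∑ a, ∑ c, ∑ b, ∑ d, F a b c d :=
          Finset.sum_congr rfl fun a _ => Finset.sum_comm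
      _ = ∑ c, ∑ a, ∑ b, ∑ d, F a b c d := Finset.sum_comm
      _ = ∑ c, ∑ a, ∑ d, ∑ b, F a b c d :=
          Finset.sum_congr rfl fun c _ => Finset.sum_congr rfl fun a _ => Finset.sum_comm
      _ = ∑ c, ∑ d, ∑ a, ∑ b, F a b c d :=
          Finset.sum_congr rfl fun c _ => Finset.sum_comm
  rw [h1]
  refine Finset.sum_congr rfl fun a _ => Finset.sum_congr rfl fun b _ =>
    Finset.sum_congr rfl fun c _ => Finset.sum_congr rfl fun d _ => ?_
  rw [hR.pr c d a b]
  ring

theorem dt_RV (R : T4 n) (x y z w : Fin n → ℝ) : dt (RV R x y z) w = R4 R x y z w := by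
  unfold dt RV R4
  simp only [Finset.sum_mul]
  rw [Finset.sum_comm]
  refine Finset.sum_congr rfl fun a _ => ?_
  rw [Finset.sum_comm]
  refine Finset.sum_congr rfl fun b _ => ?_
  rw [Finset.sum_comm]

theorem RVa (R : T4 n) (x x' y z : Fin n → ℝ) : RV R (x + x') y z = RV R x y z + RV R x' y z := by
  funext d
  simp only [RV, Pi.add_apply, mul_add, add_mul, Finset.sum_add_distrib]

theorem RVb (R : T4 n) (x y y' z : Fin n → ℝ) : RV R x (y + y') z = RV R x y z + RV R x y' z := by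
  funext d
  simp only [RV, Pi.add_apply, mul_add, add_mul, Finset.sum_add_distrib]

theorem RVc (R : T4 n) (x y z z' : Fin n → ℝ) : RV R x y (z + z') = RV R x y z + RV R x y z' := by
  funext d
  simp only [RV, Pi.add_apply, mul_add, Finset.sum_add_distrib]

theorem RVsa (R : T4 n) (c : ℝ) (x y z : Fin n → ℝ) : RV R (c • x) y z = c • RV R x y z := by
  funext d
  simp only [RV, Pi.smul_apply, smul_eq_mul, Finset.mul_sum]
  refine Finset.sum_congr rfl fun a _ => Finset.sum_congr rfl fun b _ =>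
    Finset.sum_congr rfl fun e _ => ?_
  ring

theorem RVsb (R : T4 n) (c : ℝ) (x y z : Fin n → ℝ) : RV R x (c • y) z = c • RV R x y z := by
  funext d
  simp only [RV, Pi.smul_apply, smul_eq_mul, Finset.mul_sum]
  refine Finset.sum_congr rfl fun a _ => Finset.sum_congr rfl fun b _ =>
    Finset.sum_congr rfl fun e _ => ?_
  ring

theorem RVsc (R : T4 n) (c : ℝ) (x y z : Fin n → ℝ) : RV R x y (c • z) = c • RV R x y z := by
  funext d
  simp only [RV, Pi.smul_apply, smul_eq_mul, Finset.mul_sum]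
  refine Finset.sum_congr rfl fun a _ => Finset.sum_congr rfl fun b _ =>
    Finset.sum_congr rfl fun e _ => ?_
  ring

theorem RVanti {R : T4 n} (hR : IsAC R) (x y z : Fin n → ℝ) : RV R x y z = - RV R y x z := by
  funext d
  simp only [RV, Pi.neg_apply, ← Finset.sum_neg_distrib]
  rw [Finset.sum_comm]
  refine Finset.sum_congr rfl fun a _ => Finset.sum_congr rfl fun b _ =>
    Finset.sum_congr rfl fun e _ => ?_
  rw [hR.a12 b a]
  ring

theorem RVbi {R : T4 n} (hR : IsAC R) (x y z : Fin n → ℝ) :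
    RV R x y z + RV R y z x + RV R z x y = 0 := by
  funext d
  have h1 : RV R y z x d = ∑ a, ∑ b, ∑ c, R b c a d * y b * z c * x a :=
    (rot3 (fun a b c => R a b c d * y a * z b * x c)).symm
  have h2 : RV R z x y d = ∑ a, ∑ b, ∑ c, R c a b d * z c * x a * y b :=
    rot3 (fun a b c => R c a b d * z c * x a * y b)
  rw [Pi.add_apply, Pi.add_apply, h1, h2]
  simp only [RV, ← Finset.sum_add_distrib]
  refine Finset.sum_eq_zero fun a _ => Finset.sum_eq_zero fun b _ =>
    Finset.sum_eq_zero fun c _ => ?_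
  have h := hR.bi a b c d
  have h3 : R a b c d * x a * y b * z c + R b c a d * y b * z c * x a +
      R c a b d * z c * x a * y b =
      (R a b c d + R b c a d + R c a b d) * (x a * y b * z c) := by ring
  rw [h3, h, zero_mul]

/-- `R(x, y)` is skew -/
theorem skew {R : T4 n} (hR : IsAC R) (x y z w : Fin n → ℝ) :
    dt (RV R x y z) w = - dt (RV R x y w) z := by
  rw [dt_RV, dt_RV, R34 hR]

/-- the Jacobi operators are symmetric -/
theorem jsym {R : T4 n} (hR : IsAC R) (x v w : Fin n → ℝ) :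
    dt (RV R v x x) w = dt (RV R w x x) v := by
  rw [dt_RV, dt_RV, R12 hR w, R34 hR x w x v, neg_neg, Rpr hR]

theorem orth {R : T4 n} (hR : IsAC R) {x v w : Fin n → ℝ} (hv : RV R v x x = (4 : ℝ) • v)
    (hw : RV R w x x = w) : dt v w = 0 := by
  have h := jsym hR x v w
  rw [hv, hw, dts, dtc w v] at h
  linarith

variable {R : T4 n}

/-- decomposition -/
theorem dec (h : KS 1 R) {x : Fin n → ℝ} (hx : dt x x = 1) {v : Fin n → ℝ} (hv : dt v x = 0) :
    ∃ v4 v1 : Fin n → ℝ, dt v4 x = 0 ∧ RV R v4 x x = (4 : ℝ) • v4 ∧ RV R v1 x x = v1 ∧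
      v = v4 + v1 := by
  obtain ⟨v4, h4, v1, h1, e⟩ := h.2.2.1 x hx v hv
  refine ⟨v4, v1, h4.1, ?_, ?_, e⟩
  · have := h4.2
    rwa [mul_one] at this
  · have := h1.2
    rwa [one_smul] at this

theorem factA (h : KS 1 R) {x z : Fin n → ℝ} (hx : dt x x = 1) (hz : dt z x = 0)
    (hzo : ∀ v, dt v x = 0 → RV R v x x = (4 : ℝ) • v → dt z v = 0) : RV R z x x = z := by
  obtain ⟨v4, v1, h0, h4, h1, e⟩ := dec h hx hz
  have ho := orth h.1 h4 h1
  have h2 := hzo v4 h0 h4
  rw [e, dta, dtc v1 v4, ho, add_zero] at h2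
  have h3 := dtz h2
  rw [e, h3, zero_add, h1]

theorem factB (h : KS 1 R) {a b : Fin n → ℝ} (ha : dt a a = 1) (hb : dt b b = 1)
    (hab : dt a b = 0) (hR : RV R b a a = b) : RV R a b b = a := by
  obtain ⟨v4, v1, h0, h4, h1, e⟩ := dec h hb hab
  have ho := orth h.1 h4 h1
  have h2 : dt (RV R a b b) a = 1 := by
    rw [dt_RV, Rpr h.1, ← dt_RV, hR, hb]
  have h3 : RV R a b b = (4 : ℝ) • v4 + v1 := by
    rw [e, RVa, h4, h1]
  rw [h3, e, dta, dta', dta', dts, dts, ho, dtc v1 v4, ho] at h2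
  rw [e, dta, dta', dta', ho, dtc v1 v4, ho] at ha
  have h5 : dt v4 v4 = 0 := by linarith
  have h6 := dtz h5
  rw [h3, e, h6]
  simp

/-- constant curvature on lines -/
theorem cc (h : KS 1 R) {z u v : Fin n → ℝ} (hz : dt z z = 1) (hu0 : dt u z = 0)
    (hu : RV R u z z = (4 : ℝ) • u) (hv0 : dt v z = 0) (hv : RV R v z z = (4 : ℝ) • v) :
    RV R z v u = (4 * dt u v) • z := by
  by_cases hv' : v = 0
  · subst hv'
    have h1 : RV R z 0 u = 0 := by
      have := RVsb R 0 z 0 u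
      rwa [zero_smul, zero_smul] at this
    have h2 : dt u 0 = 0 := by
      have := dts' 0 u 0
      rwa [zero_smul, zero_mul] at this
    rw [h1, h2, mul_zero, zero_smul]
  · obtain ⟨s, hs, hs1⟩ := nrm hv'
    obtain ⟨w, hw⟩ : ∃ w, w = s⁻¹ • v := ⟨_, rfl⟩
    have hvw : v = s • w := by
      rw [hw, smul_smul, mul_inv_cancel₀ hs.ne', one_smul]
    rw [← hw] at hs1
    have hw0 : dt w z = 0 := by rw [hw, dts, hv0, mul_zero]
    have hwR : RV R w z z = (4 : ℝ) • w := by rw [hw, RVsa, hv, smul_comm]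
    have hk := h.2.2.2 z w hz hs1 (by rw [dtc]; exact hw0) (by rw [mul_one]; exact hwR)
    obtain ⟨k1, k2⟩ := hk
    obtain ⟨t, ht⟩ : ∃ t, t = dt u w := ⟨_, rfl⟩
    obtain ⟨u', hu'⟩ : ∃ u', u' = u + (-t) • w := ⟨_, rfl⟩
    have hu1 : dt u' z = 0 := by rw [hu', dta, dts, hu0, hw0]; ring
    have hu2 : dt u' w = 0 := by rw [hu', dta, dts, hs1, ht]; ring
    have hu3 : RV R u' z z = (4 * 1 : ℝ) • u' := by
      rw [hu', RVa, RVsa, hu, hwR, mul_one, smul_add, smul_comm]
    have k3 := ((k2 u' hu1 hu2).1 hu3).1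
    have hue : u = u' + t • w := by
      rw [hu', neg_smul]; abel
    rw [hvw, RVsb, hue, RVc, k3, RVsc, k1, zero_add, dta, dts', dts', dts, hu2, hs1, smul_smul,
      smul_smul]
    congr 1
    ring

/-- `R(x, y)` as a linear map -/
def LR (R : T4 n) (x y : Fin n → ℝ) : (Fin n → ℝ) →ₗ[ℝ] (Fin n → ℝ) where
  toFun := fun w => RV R x y w
  map_add' := fun w w' => RVc R x y w w'
  map_smul' := fun c w => RVsc R c x y w

/-- the main computation -/
theorem mapsL (h : KS 1 R) {x y z : Fin n → ℝ} (hx : dt x x = 1) (hy : dt y y = 1)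
    (hz : dt z z = 1) (hyx : dt y x = 0) (hyR : RV R y x x = (4 : ℝ) • y) (hzx : dt z x = 0)
    (hzo : ∀ v, dt v x = 0 → RV R v x x = (4 : ℝ) • v → dt z v = 0) :
    (∃ v, dt v z = 0 ∧ RV R v z z = (4 : ℝ) • v ∧ RV R x y z = (2 : ℝ) • v) ∧
    (∀ u, dt u z = 0 → RV R u z z = (4 : ℝ) • u → ∃ (w : Fin n → ℝ) (c : ℝ),
      dt w z = 0 ∧ RV R w z z = (4 : ℝ) • w ∧ RV R x y u = w + c • z) ∧
    (∀ w, (∃ (u : Fin n → ℝ) (c : ℝ), dt u z = 0 ∧ RV R u z z = (4 : ℝ) • u ∧ w = u + c • z) →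
      RV R x y (RV R x y w) = (-4 : ℝ) • w) := by
  have hR := h.1
  have hzz : RV R z z z = 0 := by
    have := RVanti hR z z z
    have h2 : (2 : ℝ) • RV R z z z = 0 := by
      rw [two_smul]
      nth_rewrite 2 [this]
      abel
    exact (smul_eq_zero.1 h2).resolve_left two_ne_zero
  have hzxR : RV R z x x = z := factA h hx hzx hzo
  have hzy : dt z y = 0 := hzo y hyx hyR
  have hks := h.2.2.2 x y hx hy (by rw [dtc]; exact hyx) (by rw [mul_one]; exact hyR)
  obtain ⟨k1, k2⟩ := hks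
  rw [mul_one] at k1
  -- `R_y z = z`
  have hzyR : RV R z y y = z := by
    have := ((k2 z hzx hzy).2 (by rw [one_smul]; exact hzxR)).1
    rwa [one_smul] at this
  -- `R_z x = x`, `R_z y = y`
  have hxzR : RV R x z z = x := factB h hx hz (by rw [dtc]; exact hzx) hzxR
  have hyzR : RV R y z z = y := factB h hy hz (by rw [dtc]; exact hzy) hzyR
  -- polarisation
  have hpol : RV R z x y + RV R z y x = 0 := by
    have hxy0 : x + y ≠ 0 := by
      intro h0
      have h1 : dt (x + y) x = 0 := by rw [h0]; simp [dt]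
      rw [dta, hx, hyx] at h1
      norm_num at h1
    obtain ⟨s, hs, hs1⟩ := nrm hxy0
    obtain ⟨a, ha⟩ : ∃ a, a = s⁻¹ • (x + y) := ⟨_, rfl⟩
    rw [← ha] at hs1
    have haz : RV R a z z = a := by
      rw [ha, RVsa, RVa, hxzR, hyzR]
    have haz0 : dt z a = 0 := by
      rw [ha, dts', dta', hzx, hzy]; ring
    have h1 : RV R z a a = z := factB h hz hs1 haz0 haz
    have h2 : RV R z (x + y) (x + y) = (s * s) • z := by
      have h3 : x + y = s • a := by
        rw [ha, smul_smul, mul_inv_cancel₀ hs.ne', one_smul]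
      rw [h3, RVsb, RVsc, h1, smul_smul]
    have h4 : s * s = 2 := by
      have h5 : dt (x + y) (x + y) = s * s := by
        have h3 : x + y = s • a := by
          rw [ha, smul_smul, mul_inv_cancel₀ hs.ne', one_smul]
        rw [h3, dts, dts', hs1, mul_one]
      rw [← h5, dta, dta', dta', hx, hy, hyx, dtc x y, hyx]
      norm_num
    rw [RVb, RVc, RVc, hzxR, hzyR, h4, two_smul] at h2
    have h6 : z + RV R z x y + (RV R z y x + z) = (z + z) + (RV R z x y + RV R z y x) := by abel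
    rw [h6] at h2
    exact add_eq_left.1 h2
  obtain ⟨v, hv⟩ : ∃ v, v = RV R x z y := ⟨_, rfl⟩
  have e1 : RV R z x y = -v := by rw [hv, RVanti hR]
  have e2 : RV R z y x = v := by
    rw [e1] at hpol
    have := add_eq_zero_iff_eq_neg.1 hpol
    rw [← neg_inj, ← this]
  have e3 : RV R y z x = -v := by rw [RVanti hR, e2]
  have e4 : RV R x y z = (2 : ℝ) • v := by
    have := RVbi hR x y z
    rw [e3, e1] at this
    rw [two_smul]
    have h5 : RV R x y z = RV R x y z + -v + -v + (v + v) := by abel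
    rw [h5, this, zero_add]
  have hvz : dt v z = 0 := by
    have h1 := skew hR x y z z
    rw [e4, dts] at h1
    linarith
  have hvR : RV R v z z = (4 : ℝ) • v := by
    have h1 := h.2.1 x z y z z
    rw [hyzR, ← hv, hxzR] at h1
    have e5 : RV R y x z = -((2 : ℝ) • v) := by rw [RVanti hR, e4]
    rw [e5, e3] at h1
    linear_combination (norm := module) (-1 : ℝ) • h1
  refine ⟨⟨v, hvz, hvR, e4⟩, ?_, ?_⟩
  · intro u hu0 hu
    have c1 := cc h hz hu0 hu hvz hvR
    have c2 := cc h hz hvz hvR hu0 hu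
    have e6 : RV R u z v = -((4 * dt v u) • z) := by rw [RVanti hR, c2]
    have e7 : RV R u v z = 0 := by
      have h1 := RVbi hR u v z
      have h2 : RV R v z u = -((4 * dt u v) • z) := by rw [RVanti hR, c1]
      rw [h2, c2, dtc v u] at h1
      rwa [neg_add_cancel_right] at h1
    have h1 := h.2.1 x y u z z
    rw [hu, RVsc, e4, RVsb, RVsc, e7, smul_zero, e6] at h1
    obtain ⟨Q, hQ⟩ : ∃ Q, Q = RV R x y u := ⟨_, rfl⟩
    rw [← hQ] at h1
    have h2 : dt Q z = -(2 * dt u v) := by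
      rw [hQ, skew hR, e4, dts, dtc v u]
    refine ⟨Q + (2 * dt u v) • z, -(2 * dt u v), ?_, ?_, ?_⟩
    · rw [dta, dts, h2, hz]
      ring
    · rw [RVa, RVsa, hzz, smul_zero, add_zero]
      rw [dtc v u] at h1
      linear_combination (norm := module) (-1 : ℝ) • h1
    · rw [← hQ]
      module
  · rintro w ⟨u, c, hu0, hu, hw⟩
    have hxo : dt u x = 0 := orth hR hu hxzR
    have hw0 : dt w x = 0 := by rw [hw, dta, dts, hxo, hzx]; ring
    have hwy : dt w y = 0 := by rw [hw, dta, dts, orth hR hu hyzR, hzy]; ring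
    have hwR : RV R w x x = w := by
      refine factA h hx hw0 ?_
      intro v' hv0 hvR'
      have hzv' := hzo v' hv0 hvR'
      rw [hw, dta, dts, hzv', mul_zero, add_zero]
      by_cases hv' : v' = 0
      · rw [hv']; simp [dt]
      · obtain ⟨s, hs, hs1⟩ := nrm hv'
        obtain ⟨a, ha⟩ : ∃ a, a = s⁻¹ • v' := ⟨_, rfl⟩
        rw [← ha] at hs1
        have ha0 : dt a x = 0 := by rw [ha, dts, hv0, mul_zero]
        have haR : RV R a x x = (4 : ℝ) • a := by rw [ha, RVsa, hvR', smul_comm]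
        have hza : dt z a = 0 := hzo a ha0 haR
        have hk := (h.2.2.2 x a hx hs1 (by rw [dtc]; exact ha0) (by rw [mul_one]; exact haR)).2 z hzx hza
        have h1 : RV R z a a = z := by
          have := (hk.2 (by rw [one_smul]; exact hzxR)).1
          rwa [one_smul] at this
        have h2 : RV R a z z = a := factB h hs1 hz (by rw [dtc]; exact hza) h1
        have h3 : dt u a = 0 := orth hR hu h2
        have h4 : v' = s • a := by
          rw [ha, smul_smul, mul_inv_cancel₀ hs.ne', one_smul]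
        rw [h4, dts', h3, mul_zero]
    have := ((k2 w hw0 hwy).2 (by rw [one_smul]; exact hwR)).2
    rw [this]
    norm_num

/-- the line through `x` has the dimension `D` -/
theorem fr {D : ℕ} (hD : KD 1 R D) {x : Fin n → ℝ} (hx : dt x x = 1) :
    Module.finrank ℝ (Submodule.span ℝ {x} ⊔ Eg R (4 * 1) x : Submodule ℝ (Fin n → ℝ)) = D := by
  have hx0 : x ≠ 0 := by
    intro h0
    rw [h0] at hx
    simp [dt] at hx
  have h1 := Submodule.finrank_sup_add_finrank_inf_eq (Submodule.span ℝ {x}) (Eg R (4 * 1) x)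
  have h2 : Submodule.span ℝ {x} ⊓ Eg R (4 * 1) x = ⊥ := by
    rw [eq_bot_iff]
    rintro w ⟨hw1, hw2⟩
    obtain ⟨c, rfl⟩ := Submodule.mem_span_singleton.1 hw1
    have h3 : dt (c • x) x = 0 := hw2.1
    rw [dts, hx, mul_one] at h3
    rw [h3, zero_smul]
    exact zero_mem _
  rw [h2, finrank_bot, add_zero, finrank_span_singleton hx0] at h1
  have h4 := hD x hx
  omega

/-- a unit vector perpendicular to a proper subspace -/
theorem exPerp (S : Submodule ℝ (Fin n → ℝ)) (hS : S ≠ ⊤) :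
    ∃ z : Fin n → ℝ, dt z z = 1 ∧ ∀ s ∈ S, dt z s = 0 := by
  obtain ⟨f, hf0, hf⟩ := Submodule.exists_le_ker_of_lt_top S (lt_top_iff_ne_top.2 hS)
  obtain ⟨w, hw⟩ : ∃ w : Fin n → ℝ, w = fun i => f (fun j => if i = j then 1 else 0) := ⟨_, rfl⟩
  have hfw : ∀ v, f v = dt w v := by
    intro v
    rw [LinearMap.pi_apply_eq_sum_univ f v, hw]
    exact Finset.sum_congr rfl fun i _ => by rw [smul_eq_mul, mul_comm]
  have hw0 : w ≠ 0 := by
    intro h0
    apply hf0
    ext v
    rw [LinearMap.comp_apply, hfw, h0]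
    simp [dt]
  obtain ⟨s, hs, hs1⟩ := nrm hw0
  refine ⟨s⁻¹ • w, hs1, fun v hv => ?_⟩
  have h1 : f v = 0 := hf hv
  rw [dts, ← hfw, h1, mul_zero]

/-- a real vector space with a linear map of square `-4` has even dimension -/
theorem evenJ {V : Type} [AddCommGroup V] [Module ℝ V] [FiniteDimensional ℝ V] (f : V →ₗ[ℝ] V)
    (hf : ∀ v, f (f v) = (-4 : ℝ) • v) : Even (Module.finrank ℝ V) := by
  have h1 : f * f = (-4 : ℝ) • (1 : V →ₗ[ℝ] V) := by
    ext v
    simpa using hf v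
  have h2 := congrArg LinearMap.det h1
  rw [map_mul, LinearMap.det_smul, map_one, mul_one] at h2
  by_contra h3
  rw [Nat.not_even_iff_odd] at h3
  have h4 := h3.pow_neg (show (-4 : ℝ) < 0 by norm_num)
  have h5 := mul_self_nonneg (LinearMap.det f)
  linarith

end Evnb

open Evnb in
theorem s_evn : S_EVN := by
  intro n R D hK hD h2 hDn
  have hn : 0 < n := by omega
  obtain ⟨x, hx⟩ : ∃ x : Fin n → ℝ, dt x x = 1 :=
    ⟨Pi.single ⟨0, hn⟩ 1, by simp [dt, Pi.single_apply]⟩
  -- `y`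
  have hfx := hD x hx
  have hne : Eg R (4 * 1) x ≠ ⊥ := by
    intro h0
    rw [h0, finrank_bot] at hfx
    omega
  obtain ⟨y0, hy0, hy00⟩ := Submodule.exists_mem_ne_zero_of_ne_bot hne
  obtain ⟨s, hs, hs1⟩ := nrm hy00
  obtain ⟨y, hy⟩ : ∃ y, y = s⁻¹ • y0 := ⟨_, rfl⟩
  rw [← hy] at hs1
  have hyE : y ∈ Eg R (4 * 1) x := by
    rw [hy]
    exact Submodule.smul_mem _ _ hy0
  have hyx : dt y x = 0 := hyE.1
  have hyR : RV R y x x = (4 : ℝ) • y := by
    have := hyE.2
    rwa [mul_one] at this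
  -- `z`
  have htop : (Submodule.span ℝ {x} ⊔ Eg R (4 * 1) x : Submodule ℝ (Fin n → ℝ)) ≠ ⊤ := by
    intro h0
    have h1 := fr hD hx
    rw [h0, finrank_top, Module.finrank_fin_fun] at h1
    omega
  obtain ⟨z, hz, hzS⟩ := exPerp _ htop
  have hzx : dt z x = 0 := hzS x (Submodule.mem_sup_left (Submodule.mem_span_singleton_self x))
  have hzo : ∀ v, dt v x = 0 → RV R v x x = (4 : ℝ) • v → dt z v = 0 := by
    intro v hv0 hv
    exact hzS v (Submodule.mem_sup_right ⟨hv0, by rw [mul_one]; exact hv⟩)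
  obtain ⟨m1, m2, m3⟩ := mapsL hK hx hs1 hz hyx hyR hzx hzo
  -- the line through `z`
  have hmem : ∀ w, w ∈ (Submodule.span ℝ {z} ⊔ Eg R (4 * 1) z : Submodule ℝ (Fin n → ℝ)) ↔
      ∃ (u : Fin n → ℝ) (c : ℝ), dt u z = 0 ∧ RV R u z z = (4 : ℝ) • u ∧ w = u + c • z := by
    intro w
    rw [Submodule.mem_sup]
    constructor
    · rintro ⟨a, ha, b, hb, rfl⟩
      obtain ⟨c, rfl⟩ := Submodule.mem_span_singleton.1 ha
      refine ⟨b, c, hb.1, ?_, add_comm _ _⟩
      have := hb.2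
      rwa [mul_one] at this
    · rintro ⟨u, c, hu0, hu, rfl⟩
      exact ⟨c • z, Submodule.smul_mem _ _ (Submodule.mem_span_singleton_self z), u,
        ⟨hu0, by rw [mul_one]; exact hu⟩, add_comm _ _⟩
  have hmap : ∀ w ∈ (Submodule.span ℝ {z} ⊔ Eg R (4 * 1) z : Submodule ℝ (Fin n → ℝ)),
      LR R x y w ∈ (Submodule.span ℝ {z} ⊔ Eg R (4 * 1) z : Submodule ℝ (Fin n → ℝ)) := by
    intro w hw
    obtain ⟨u, c, hu0, hu, hw'⟩ := (hmem w).1 hw
    rw [hw', map_add, map_smul]
    refine Submodule.add_mem _ ?_ (Submodule.smul_mem _ _ ?_)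
    · obtain ⟨w1, c1, g1, g2, g3⟩ := m2 u hu0 hu
      exact (hmem _).2 ⟨w1, c1, g1, g2, g3⟩
    · obtain ⟨v, g1, g2, g3⟩ := m1
      refine (hmem _).2 ⟨(2 : ℝ) • v, 0, ?_, ?_, ?_⟩
      · rw [dts, g1, mul_zero]
      · rw [RVsa, g2, smul_comm]
      · rw [zero_smul, add_zero]
        exact g3
  have hev := evenJ ((LR R x y).restrict hmap) (by
    rintro ⟨w, hw⟩
    apply Subtype.ext
    exact m3 w ((hmem w).1 hw))
  rwa [fr hD hz] at hev

end Pool.Agent.H781.KP
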