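import Pool.Agent.H781.KP.C

/-!
Project KP, structure theorem (MP_4e0d62_gt): the Betti numbers are at most one and vanish outside
the multiples of a divisor `D` of `n`, even if `D < n`. Statements.
-/

set_option autoImplicit false
set_option synthInstance.maxHeartbeats 400000
set_option maxHeartbeats 4000000
set_option linter.unusedSectionVars false

open MeasureTheory Filter
open scoped Topology ContDiff

noncomputable section

namespace Pool.Agent.H781.KP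

open Pool.Agent.H781.NG Pool.Agent.H781.CM Pool.Agent.H781.H6

/-- the vector `R(x, y) z` -/
def RV {n : ℕ} (R : T4 n) (x y z : Fin n → ℝ) : Fin n → ℝ :=
  fun d => ∑ a, ∑ b, ∑ c, R a b c d * x a * y b * z c

/-- the curvature tensor is invariant under its values -/
def SymR {n : ℕ} (R : T4 n) : Prop := ∀ x y u v w : Fin n → ℝ,
  RV R x y (RV R u v w) = RV R (RV R x y u) v w + RV R u (RV R x y v) w + RV R u v (RV R x y w)

/-- invariant forms -/
def InvF {n : ℕ} (R : T4 n) (u : Fk n ℝ) : Prop := ∀ w, Sk w → dX (Xw R w) u = 0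

/-- transitive symmetry group of the curvature tensor -/
def TrG {n : ℕ} (R : T4 n) : Prop := ∀ v v' : Fin n → ℝ, dt v v = 1 → dt v' v' = 1 →
  dt v v' ≠ -1 → ∃ h, ON h ∧ Rh R h = R ∧ ac h v = v'

/-- eigenvectors of the Jacobi operator with eigenvalue `l` -/
def Eg {n : ℕ} (R : T4 n) (l : ℝ) (x : Fin n → ℝ) : Submodule ℝ (Fin n → ℝ) where
  carrier := {v | dt v x = 0 ∧ RV R v x x = l • v}
  add_mem' := by
    rintro u v ⟨hu1, hu2⟩ ⟨hv1, hv2⟩
    refine ⟨?_, ?_⟩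
    · have : dt (u + v) x = dt u x + dt v x := by
        simp only [dt, Pi.add_apply, add_mul, Finset.sum_add_distrib]
      rw [this, hu1, hv1, add_zero]
    · have : RV R (u + v) x x = RV R u x x + RV R v x x := by
        funext d
        simp only [RV, Pi.add_apply, mul_add, add_mul, Finset.sum_add_distrib]
      rw [this, hu2, hv2, smul_add]
  zero_mem' := by
    refine ⟨?_, ?_⟩
    · simp [dt]
    · funext d
      simp [RV]
  smul_mem' := by
    rintro c v ⟨hv1, hv2⟩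
    refine ⟨?_, ?_⟩
    · have : dt (c • v) x = c * dt v x := by
        simp only [dt, Pi.smul_apply, smul_eq_mul, Finset.mul_sum, mul_assoc]
      rw [this, hv1, mul_zero]
    · have : RV R (c • v) x x = c • RV R v x x := by
        funext d
        simp only [RV, Pi.smul_apply, smul_eq_mul, Finset.mul_sum]
        refine Finset.sum_congr rfl fun a _ => Finset.sum_congr rfl fun b _ =>
          Finset.sum_congr rfl fun e _ => ?_
        ring
      rw [this, hv2, smul_comm]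

/-- symmetric curvature tensors of rank one, normalised: the Jacobi operators have the eigenvalues
`4 c` and `c`, with their basic properties -/
def KS {n : ℕ} (c : ℝ) (R : T4 n) : Prop := IsAC R ∧ SymR R ∧
  (∀ x, dt x x = 1 → ∀ v, dt v x = 0 → ∃ v4 ∈ Eg R (4 * c) x, ∃ v1 ∈ Eg R c x, v = v4 + v1) ∧
  ∀ x y, dt x x = 1 → dt y y = 1 → dt x y = 0 → RV R y x x = (4 * c) • y →
    RV R x y y = (4 * c) • x ∧ ∀ v, dt v x = 0 → dt v y = 0 →
      (RV R v x x = (4 * c) • v → RV R x y v = 0 ∧ RV R v y y = (4 * c) • v) ∧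
      (RV R v x x = c • v → RV R v y y = c • v ∧ RV R x y (RV R x y v) = (-(4 * c ^ 2)) • v)

/-- the dimension of the lines -/
def KD {n : ℕ} (c : ℝ) (R : T4 n) (D : ℕ) : Prop :=
  ∀ x, dt x x = 1 → Module.finrank ℝ (Eg R (4 * c) x) + 1 = D

/-- invariance under the values of the curvature tensor -/
def S_SYM : Prop := ∀ (n : ℕ) (ι : Type) [Fintype ι] [DecidableEq ι] (p : ι → ℕ)
  (a : ι → Fk n ℝ) (R : T4 n), LimA p a R → (∀ h, Stb a h → Rh R h = R) →
  SymR R ∧ TrG R ∧ ∀ x, InvF R (a x)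

/-- the rank is one -/
def S_RK1 : Prop := ∀ (n : ℕ) (R : T4 n), 2 ≤ n → IsAC R → COp R 0 → SymR R → TrG R →
  scl R = 1 → ∀ x y, x ≠ 0 → RV R y x x = 0 → ∃ c : ℝ, y = c • x

/-- the eigenvalues of the Jacobi operators -/
def S_EIG : Prop := ∀ (n : ℕ) (R : T4 n), 2 ≤ n → IsAC R → COp R 0 → SymR R → TrG R →
  (∀ x y, x ≠ 0 → RV R y x x = 0 → ∃ c : ℝ, y = c • x) →
  ∃ (c : ℝ) (D : ℕ), 0 < c ∧ KS c R ∧ KD c R D ∧ 2 ≤ D

/-- multiplication of the tensor by a constant -/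
def S_SCA : Prop := ∀ (n : ℕ) (R : T4 n) (c : ℝ) (D : ℕ), 0 < c → KS c R → KD c R D →
  KS 1 (fun i j k l => R i j k l / c) ∧ KD 1 (fun i j k l => R i j k l / c) D ∧
  ∀ u, InvF R u → InvF (fun i j k l => R i j k l / c) u

/-- components with respect to a line `L` (the first `D` coordinates) -/
def HL {D r : ℕ} (R : T4 (D + r)) : Prop :=
  (∀ i j k l : Fin (D + r), (i : ℕ) < D → (j : ℕ) < D → (k : ℕ) < D → (l : ℕ) < D →
    R i j k l = 4 * ((if j = k then 1 else 0) * (if i = l then 1 else 0) -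
      (if i = k then 1 else 0) * (if j = l then 1 else 0))) ∧
  (∀ i j k f : Fin (D + r), (i : ℕ) < D → (j : ℕ) < D → (k : ℕ) < D → D ≤ (f : ℕ) →
    R i j k f = 0) ∧
  (∀ i j f g : Fin (D + r), (i : ℕ) < D → (j : ℕ) < D → D ≤ (f : ℕ) → D ≤ (g : ℕ) →
    R i f j g + R j f i g = -2 * ((if i = j then 1 else 0) * (if f = g then 1 else 0))) ∧
  ∀ f g h i : Fin (D + r), D ≤ (f : ℕ) → D ≤ (g : ℕ) → D ≤ (h : ℕ) → (i : ℕ) < D →
    R f g h i = 0

/-- restriction to the last `r` coordinates -/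
def Rf {D r : ℕ} (R : T4 (D + r)) : T4 r :=
  fun i j k l => R (Fin.natAdd D i) (Fin.natAdd D j) (Fin.natAdd D k) (Fin.natAdd D l)

/-- restriction of forms to the last `r` coordinates -/
def rF {D r : ℕ} (u : Fk (D + r) ℝ) : Fk r ℝ := fun S => u (S.map (Fin.natAddEmb D))

/-- an invariant form which vanishes on the complement of a line is zero -/
def S_INJ : Prop := ∀ (D r : ℕ) (R : T4 (D + r)) (p : ℕ) (u : Fk (D + r) ℝ), 1 ≤ D → IsAC R →
  HL R → Deg p u → p < D + r → InvF R u →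
  (∀ S : Finset (Fin (D + r)), (∀ i ∈ S, D ≤ (i : ℕ)) → u S = 0) → u = 0

/-- adapted orthonormal bases -/
def S_BAS : Prop := ∀ (n : ℕ) (R : T4 n) (D : ℕ), 1 ≤ n → KS 1 R → KD 1 R D → 2 ≤ D → D ≤ n ∧
  ∀ (r : ℕ) (e : n = D + r), ∃ b : Fin (D + r) → Fin n → ℝ, ON b ∧
    HL (fun i j k l => R4 R (b i) (b j) (b k) (b l)) ∧
    (0 < r → KS 1 (Rf (fun i j k l => R4 R (b i) (b j) (b k) (b l))) ∧
      KD 1 (Rf (fun i j k l => R4 R (b i) (b j) (b k) (b l))) D)

/-- change of basis and restriction of invariant forms -/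
def S_RST : Prop := ∀ (n : ℕ) (R : T4 n), IsAC R → ∀ (D r : ℕ) (_ : n = D + r)
  (b : Fin (D + r) → Fin n → ℝ), ON b →
  HL (fun i j k l => R4 R (b i) (b j) (b k) (b l)) →
  ∃ T : Fk n ℝ →ₗ[ℝ] Fk (D + r) ℝ, Function.Injective T ∧ (∀ p u, Deg p u → Deg p (T u)) ∧
    (∀ u, InvF R u → InvF (fun i j k l => R4 R (b i) (b j) (b k) (b l)) (T u)) ∧
    (∀ p u, Deg p u → Deg p (rF (T u))) ∧
    ∀ u, InvF R u → InvF (Rf (fun i j k l => R4 R (b i) (b j) (b k) (b l))) (rF (T u))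

/-- the dimension of the lines is even -/
def S_EVN : Prop := ∀ (n : ℕ) (R : T4 n) (D : ℕ), KS 1 R → KD 1 R D → 2 ≤ D → D < n → Even D

/-- invariant forms -/
def S_INV : Prop := ∀ (n : ℕ) (R : T4 n) (D : ℕ), 1 ≤ n → KS 1 R → KD 1 R D → 2 ≤ D → D ∣ n ∧
  ∀ p, (∀ u, Deg p u → InvF R u → ¬ D ∣ p → u = 0) ∧
    ∀ u u', Deg p u → Deg p u' → InvF R u → InvF R u' → ∃ s t : ℝ, (s ≠ 0 ∨ t ≠ 0) ∧
      s • u + t • u' = 0

/-- the possible dimensions -/
def PdK (n N : ℕ) (d : Fin (N + 1) → ℕ) : Prop := (∀ p, d p ≤ 1) ∧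
  ∃ D : ℕ, 2 ≤ D ∧ D ∣ n ∧ (D = n ∨ Even D) ∧ ∀ p : Fin (N + 1), d p ≠ 0 → D ∣ (p : ℕ)

/-- the algebraic theorem -/
def S_PDK : Prop := ∀ (n N : ℕ) (d : Fin (N + 1) → ℕ) (κ : ℝ), 2 ≤ n → 0 < κ →
  (∀ η : ℝ, 0 < η → KA n N η κ d) → PdK n N d

/-- the abstract theorem -/
def S_CHIX : Prop := ∀ (N n : ℕ) (κ : ℝ), 0 < N → 2 ≤ n → 0 < κ → ∃ ε : ℝ, 0 < ε ∧
  ∀ (M : Type) [TopologicalSpace M] [CompactSpace M] [MeasurableSpace M] [BorelSpace M]
    (C : CD M N), CurvGE C ε → PtK C n κ → Conn C → Moll C → Dense2 C → Reg C →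
    (∀ p, bet C p ≤ 1) ∧ ∃ D : ℕ, 2 ≤ D ∧ D ∣ n ∧ (D = n ∨ Even D) ∧
      ∀ p, bet C p ≠ 0 → D ∣ p

end Pool.Agent.H781.KP
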