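import Pool.Agent.H781.KP.GC
import Pool.Agent.H781.KP.K
import Pool.Agent.H781.CM.All

/-!
Project KP, structure theorem: geometric statement and its proof from the abstract theorem.
-/

set_option autoImplicit false
set_option synthInstance.maxHeartbeats 400000
set_option maxHeartbeats 4000000
set_option linter.unusedSectionVars false

open Bundle Manifold ContDiff VectorField MeasureTheory Filter
open scoped Topology

noncomputable section

namespace Pool.Agent.H781.KP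

open Pool.Agent.H781.NG Pool.Agent.H781.CM Pool.Agent.H781.H6 Pool.Agent.H821R2
  Pool.Agent.H821R3 Pool.Agent.H893R5.HO Pool.Agent.H781.S22

/-- the Betti numbers `b` are at most one and vanish outside the multiples of a divisor `D ≥ 2` of
`n`, which is even if `D ≠ n` -/
def BStr (n : ℕ) (b : ℕ → ℕ) : Prop :=
  (∀ p, b p ≤ 1) ∧ ∃ D : ℕ, 2 ≤ D ∧ D ∣ n ∧ (D = n ∨ Even D) ∧ ∀ p, b p ≠ 0 → D ∣ p

/-- the theorem on the Betti numbers -/
def S_MAINX : Prop := ∀ (n : ℕ) (κ : ℝ), 2 ≤ n → 0 < κ → ∃ ε : ℝ, 0 < ε ∧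
  ∀ (M : Type) [TopologicalSpace M] [T2Space M] [CompactSpace M] [ConnectedSpace M]
    [ChartedSpace (EU n) M] [IsManifold (𝓡 n) ∞ M] (g : Met n M),
  CM.F.SecGE g κ → CM.F.CurvOpGE n g (-ε) →
  ∃ b : ℕ → ℕ, (∀ p, CM.F.IsBetti (𝓡 n) M p (b p)) ∧ BStr n b

theorem s_mainx (h1 : S_CHIX) (h2 : S_GDU) (h3 : S_PKX) (h4 : S_GCONN) : S_MAINX := by
  intro n κ hn2 hκ
  have hn : 1 ≤ n := by omega
  obtain ⟨ε, hε, hC⟩ := h1 (2 * n) n κ (by omega) hn2 hκ
  refine ⟨ε / 2, by positivity, ?_⟩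
  intro M _ _ _ _ _ _ g hsec hop
  let _ : MeasurableSpace M := borel M
  have _ : BorelSpace M := ⟨rfl⟩
  obtain ⟨cov, R, hlc, hrt⟩ := hsec.1
  obtain ⟨D, rfl⟩ := h2 n M hn g cov R hlc hrt
  have hcv : CurvGE D.C ε := by
    have h := gcurv n M (2 * n) D (ε / 2) hn (by positivity) (by
      have h' := hop
      exact h')
    rwa [mul_div_cancel₀ ε (two_ne_zero)] at h
  have hmo : Moll D.C := s_gmoll lmoll s_tkp n M _ D hn
  have hd : Dense2 D.C := s_gdense n M _ D
  have hr : Reg D.C := greg n M _ D hn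
  have key := hC M D.C hcv (h3 n M _ D κ hn hsec) (h4 n M _ D) hmo hd hr
  have hfin := (hodge M _ D.C hmo hd hr).1
  have hF : ∀ p, Module.Finite ℝ (HF n M p) := fun p => by
    obtain ⟨e⟩ := gdr n M _ D hn p
    have _ := hfin p
    exact Module.Finite.equiv e.symm
  have e : ∀ p, Module.finrank ℝ (HF n M p) = bet D.C p := fun p => by
    obtain ⟨e⟩ := gdr n M _ D hn p
    exact e.finrank_eq
  refine ⟨fun p => Module.finrank ℝ (HF n M p), fun p => ?_, ?_⟩
  · have _ := hF p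
    exact isBetti p
  · simp only [BStr, e]
    exact key

/-- a lower bound of the curvature operator implies every smaller one -/
theorem curvOp_mono {n : ℕ} {M : Type} [TopologicalSpace M] [ChartedSpace (EU n) M]
    [IsManifold (𝓡 n) ∞ M] (g : Met n M) {c c' : ℝ} (h : c' ≤ c)
    (hg : CM.F.CurvOpGE n g c) : CM.F.CurvOpGE n g c' := by
  refine ⟨hg.1, fun cov R h1 h2 x => ?_⟩
  obtain ⟨h3, h4⟩ := hg.2 cov R h1 h2 x
  refine ⟨h3, fun f hf => ?_⟩
  obtain ⟨h5, h6⟩ := h4 f hf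
  exact ⟨h5, fun i => h.trans (h6 i)⟩

end Pool.Agent.H781.KP
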