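import Pool.Agent.H781.KP.K

/-!
Project KP, structure theorem: an invariant form which vanishes on the complement of a line is zero
(`S_INJ`, second attempt).
-/

set_option autoImplicit false
set_option synthInstance.maxHeartbeats 400000
set_option maxHeartbeats 4000000
set_option linter.unusedSectionVars false

open MeasureTheory Filter
open scoped Topology ContDiff

noncomputable section

namespace Pool.Agent.H781.KP

open Pool.Agent.H781.NG Pool.Agent.H781.CM Pool.Agent.H781.H6

namespace Injb

variable {D r : ℕ}

/-- the indices in the line -/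
abbrev li (r : ℕ) {D : ℕ} (i : Fin D) : Fin (D + r) := Fin.castAdd r i

/-- the indices in the complement -/
abbrev mi (D : ℕ) {r : ℕ} (f : Fin r) : Fin (D + r) := Fin.natAdd D f

/-- the number of indices in the line -/
def lc (S : Finset (Fin (D + r))) : ℕ := (S.filter fun i : Fin (D + r) => (i : ℕ) < D).card

theorem lc_insert_l (i : Fin D) (S : Finset (Fin (D + r))) (h : li r i ∉ S) :
    lc (insert (li r i) S) = lc S + 1 := by
  unfold lc
  rw [Finset.filter_insert, if_pos (by simp [li]), Finset.card_insert_of_notMem]
  intro h2
  exact h (Finset.mem_filter.1 h2).1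

theorem lc_insert_m (f : Fin r) (S : Finset (Fin (D + r))) :
    lc (insert (mi D f) S) = lc S := by
  unfold lc
  rw [Finset.filter_insert, if_neg (by simp [mi])]

theorem lc_erase_l (i : Fin D) (S : Finset (Fin (D + r))) (h : li r i ∈ S) :
    lc S = lc (S.erase (li r i)) + 1 := by
  rw [← lc_insert_l i (S.erase (li r i)) (Finset.notMem_erase _ _), Finset.insert_erase h]

theorem lc_erase_m (f : Fin r) (S : Finset (Fin (D + r))) :
    lc (S.erase (mi D f)) = lc S := by
  by_cases h : mi D f ∈ S
  · rw [← lc_insert_m f (S.erase (mi D f)), Finset.insert_erase h]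
  · rw [Finset.erase_eq_of_notMem h]

/-- the part with `s` indices in the line -/
def pr (s : ℕ) : Fk (D + r) ℝ →ₗ[ℝ] Fk (D + r) ℝ where
  toFun u S := if lc S = s then u S else 0
  map_add' u v := by
    funext S
    simp only [Pi.add_apply]
    split_ifs <;> simp
  map_smul' c u := by
    funext S
    simp only [Pi.smul_apply, smul_eq_mul, RingHom.id_apply]
    split_ifs <;> simp

theorem pr_apply (s : ℕ) (u : Fk (D + r) ℝ) (S : Finset (Fin (D + r))) :
    pr s u S = if lc S = s then u S else 0 := rfl

theorem pr_an_l (s : ℕ) (i : Fin D) (u : Fk (D + r) ℝ) :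
    pr s (an (li r i) u) = an (li r i) (pr (s + 1) u) := by
  funext S
  rw [pr_apply, an_apply, an_apply]
  by_cases h : li r i ∈ S
  · simp [h]
  · rw [if_neg h, if_neg h, pr_apply, lc_insert_l i S h]
    by_cases h2 : lc S = s
    · rw [if_pos h2, if_pos (by omega)]
    · rw [if_neg h2, if_neg (by omega), mul_zero]

theorem pr_an_m (s : ℕ) (f : Fin r) (u : Fk (D + r) ℝ) :
    pr s (an (mi D f) u) = an (mi D f) (pr s u) := by
  funext S
  rw [pr_apply, an_apply, an_apply]
  by_cases h : mi D f ∈ S
  · simp [h]
  · rw [if_neg h, if_neg h, pr_apply, lc_insert_m f S]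
    by_cases h2 : lc S = s
    · rw [if_pos h2, if_pos h2]
    · rw [if_neg h2, if_neg h2, mul_zero]

theorem pr_cr_m (s : ℕ) (f : Fin r) (u : Fk (D + r) ℝ) :
    pr s (cr (mi D f) u) = cr (mi D f) (pr s u) := by
  funext S
  rw [pr_apply, cr_apply, cr_apply, pr_apply, lc_erase_m]
  by_cases h2 : lc S = s
  · rw [if_pos h2, if_pos h2]
  · rw [if_neg h2, if_neg h2, mul_zero]
    simp

theorem pr_cr_l (s : ℕ) (i : Fin D) (u : Fk (D + r) ℝ) :
    pr (s + 1) (cr (li r i) u) = cr (li r i) (pr s u) := by
  funext S
  rw [pr_apply, cr_apply, cr_apply]
  by_cases h : li r i ∈ S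
  · rw [if_pos h, if_pos h, pr_apply]
    have h3 := lc_erase_l i S h
    by_cases h2 : lc S = s + 1
    · rw [if_pos h2, if_pos (by omega)]
    · rw [if_neg h2, if_neg (by omega), mul_zero]
  · simp [h]

theorem pr_cr_l0 (i : Fin D) (u : Fk (D + r) ℝ) : pr 0 (cr (li r i) u) = 0 := by
  funext S
  rw [pr_apply, cr_apply]
  by_cases h : li r i ∈ S
  · have h3 := lc_erase_l i S h
    rw [if_neg (by omega)]
    rfl
  · simp [h]

theorem cran_apply (i : Fin (D + r)) (u : Fk (D + r) ℝ) (S : Finset (Fin (D + r))) :
    cr i (an i u) S = (if i ∈ S then (1 : ℝ) else 0) * u S := by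
  rw [cr_apply]
  split_ifs with h
  · rw [an_apply, if_neg (Finset.notMem_erase i S), sg_erase_self, Finset.insert_erase h,
      ← mul_assoc, sg_sqA, one_mul]
  · rw [zero_mul]

theorem cntL (S : Finset (Fin (D + r))) :
    ∑ i : Fin D, (if li r i ∈ S then (1 : ℝ) else 0) = lc S := by
  have h1 : (lc S : ℝ) = ∑ i : Fin (D + r), (if i ∈ S ∧ (i : ℕ) < D then (1 : ℝ) else 0) := by
    unfold lc
    rw [Finset.sum_boole]
    congr 2
    ext i
    simp
  rw [h1, Fin.sum_univ_add]
  have h2 : ∑ i : Fin r, (if Fin.natAdd D i ∈ S ∧ ((Fin.natAdd D i : Fin (D + r)) : ℕ) < D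
      then (1 : ℝ) else 0) = 0 := by
    refine Finset.sum_eq_zero fun i _ => if_neg ?_
    rintro ⟨-, h⟩
    simp at h
  rw [h2, add_zero]
  refine Finset.sum_congr rfl fun i _ => ?_
  simp [li]

theorem cntF (S : Finset (Fin (D + r))) :
    ∑ f : Fin r, (if mi D f ∈ S then (1 : ℝ) else 0) = S.card - lc S := by
  have h1 : (S.card : ℝ) = ∑ i : Fin (D + r), (if i ∈ S then (1 : ℝ) else 0) := by
    rw [Finset.sum_boole]
    simp
  rw [h1, Fin.sum_univ_add, ← cntL S]
  ring

theorem numL (t : ℕ) (w : Fk (D + r) ℝ) (h : ∀ S, w S ≠ 0 → lc S = t) :
    ∑ i : Fin D, cr (li r i) (an (li r i) w) = (t : ℝ) • w := by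
  funext S
  rw [Finset.sum_apply, Pi.smul_apply, smul_eq_mul, Finset.sum_congr rfl fun i _ =>
    cran_apply (li r i) w S, ← Finset.sum_mul, cntL]
  by_cases h0 : w S = 0
  · rw [h0, mul_zero, mul_zero]
  · rw [h S h0]

theorem numF (c : ℝ) (w : Fk (D + r) ℝ) (h : ∀ S, w S ≠ 0 → (S.card : ℝ) - lc S = c) :
    ∑ f : Fin r, cr (mi D f) (an (mi D f) w) = c • w := by
  funext S
  rw [Finset.sum_apply, Pi.smul_apply, smul_eq_mul, Finset.sum_congr rfl fun f _ =>
    cran_apply (mi D f) w S, ← Finset.sum_mul, cntF]
  by_cases h0 : w S = 0
  · rw [h0, mul_zero, mul_zero]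
  · rw [h S h0]

theorem inv {n : ℕ} {R : T4 n} {u : Fk n ℝ} (hR : IsAC R) (h : InvF R u) (i j : Fin n) :
    ∑ c, ∑ d, R i j c d • cr d (an c u) = 0 := by
  obtain ⟨w, hw⟩ : ∃ w : Fin n → Fin n → ℝ, ∀ a b, w a b =
      (if a = i then 1 else 0) * (if b = j then 1 else 0) -
      (if a = j then 1 else 0) * (if b = i then 1 else 0) := ⟨_, fun _ _ => rfl⟩
  have hsk : Sk w := by
    intro a b
    rw [hw, hw]
    ring
  have hX : ∀ c d, Xw R w c d = 2 * R i j c d := by
    intro c d
    have h1 : Xw R w c d = R i j c d - R j i c d := by
      unfold Xw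
      simp only [hw, mul_sub, Finset.sum_sub_distrib]
      congr 1
      · simp [mul_ite]
      · simp [mul_ite]
    rw [h1, hR.a12 j i]
    ring
  have h2 := h w hsk
  unfold dX at h2
  simp only [hX, mul_smul] at h2
  simp only [← Finset.smul_sum] at h2
  exact (smul_eq_zero.1 h2).resolve_left (by norm_num)

end Injb

open Injb

theorem s_inj : S_INJ := by
  intro D r R p u hD hR hHL hdeg hp hinv h0
  obtain ⟨H1, H2, H3, H4⟩ := hHL
  have hl : ∀ i : Fin D, ((li r i : Fin (D + r)) : ℕ) < D := fun i => by simp [li]
  have hm : ∀ f : Fin r, D ≤ ((mi D f : Fin (D + r)) : ℕ) := fun f => by simp [mi]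
  have hlne : ∀ (i : Fin D) (f : Fin r), li r i ≠ mi D f := fun i f h => by
    have h1 := hl i
    rw [h] at h1
    exact absurd h1 (not_lt.2 (hm f))
  have hlinj : ∀ i j : Fin D, (li r i = li r j) ↔ i = j := fun i j =>
    ⟨fun h => Fin.castAdd_injective D r h, fun h => by rw [h]⟩
  have hminj : ∀ f g : Fin r, (mi D f = mi D g) ↔ f = g := fun f g =>
    ⟨fun h => Fin.natAdd_injective r D h, fun h => by rw [h]⟩
  -- components of `R`
  have Rmix : ∀ (i j : Fin D) (f g : Fin r), R (li r i) (mi D f) (li r j) (mi D g)
      = 1 / 2 * R (li r i) (li r j) (mi D f) (mi D g)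
        - (if i = j then 1 else 0) * (if f = g then 1 else 0) := by
    intro i j f g
    have b1 := hR.bi (li r i) (li r j) (mi D f) (mi D g)
    have b2 := H3 (li r i) (li r j) (mi D f) (mi D g) (hl i) (hl j) (hm f) (hm g)
    have b3 := hR.a12 (mi D f) (li r i) (li r j) (mi D g)
    simp only [hlinj, hminj] at b2
    rw [b3] at b1
    linarith
  -- first equation
  have E1 : ∀ (i : Fin D) (f : Fin r),
      (∑ j : Fin D, ∑ g : Fin r, R (li r i) (mi D f) (li r j) (mi D g) •
        cr (mi D g) (an (li r j) u)) +
      ∑ g : Fin r, ∑ j : Fin D, R (li r i) (mi D f) (mi D g) (li r j) •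
        cr (li r j) (an (mi D g) u) = 0 := by
    intro i f
    have h1 := inv hR hinv (li r i) (mi D f)
    rw [Fin.sum_univ_add] at h1
    simp only [Fin.sum_univ_add (fun d : Fin (D + r) => R _ _ _ d • cr d (an _ u))] at h1
    rw [← h1]
    congr 1
    · refine Finset.sum_congr rfl fun j _ => ?_
      have h2 : ∑ k : Fin D, R (li r i) (mi D f) (Fin.castAdd r j) (Fin.castAdd r k) •
          cr (Fin.castAdd r k) (an (Fin.castAdd r j) u) = 0 := by
        refine Finset.sum_eq_zero fun k _ => ?_
        rw [hR.pr, H2 _ _ _ _ (hl j) (hl k) (hl i) (hm f), zero_smul]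
      rw [h2, zero_add]
    · refine Finset.sum_congr rfl fun g _ => ?_
      have h2 : ∑ k : Fin r, R (li r i) (mi D f) (Fin.natAdd D g) (Fin.natAdd D k) •
          cr (Fin.natAdd D k) (an (Fin.natAdd D g) u) = 0 := by
        refine Finset.sum_eq_zero fun k _ => ?_
        rw [hR.pr, hR.a34, H4 _ _ _ _ (hm g) (hm k) (hm f) (hl i), neg_zero, zero_smul]
      rw [h2, add_zero]
  -- second equation
  have E2 : ∀ (i j : Fin D),
      (∑ f : Fin r, ∑ g : Fin r, R (li r i) (li r j) (mi D f) (mi D g) •
        cr (mi D g) (an (mi D f) u)) +
      (4 : ℝ) • (cr (li r i) (an (li r j) u) - cr (li r j) (an (li r i) u)) = 0 := by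
    intro i j
    have h1 := inv hR hinv (li r i) (li r j)
    rw [Fin.sum_univ_add] at h1
    simp only [Fin.sum_univ_add (fun d : Fin (D + r) => R _ _ _ d • cr d (an _ u))] at h1
    rw [← h1]
    refine (add_comm _ _).trans ?_
    congr 1
    · have h2 : ∀ k : Fin D, ∑ f : Fin r, R (li r i) (li r j) (Fin.castAdd r k) (Fin.natAdd D f) •
          cr (Fin.natAdd D f) (an (Fin.castAdd r k) u) = 0 := by
        intro k
        refine Finset.sum_eq_zero fun f _ => ?_
        rw [H2 _ _ _ _ (hl i) (hl j) (hl k) (hm f), zero_smul]
      have h3 : ∀ k l : Fin D, R (li r i) (li r j) (Fin.castAdd r k) (Fin.castAdd r l)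
          = 4 * ((if j = k then 1 else 0) * (if i = l then 1 else 0) -
            (if i = k then 1 else 0) * (if j = l then 1 else 0)) := by
        intro k l
        rw [H1 _ _ _ _ (hl i) (hl j) (hl k) (hl l)]
        simp only [hlinj]
      simp only [h2, add_zero, h3]
      have h4 : ∀ k l : Fin D, (4 * ((if j = k then (1 : ℝ) else 0) * (if i = l then 1 else 0) -
            (if i = k then 1 else 0) * (if j = l then 1 else 0))) •
            cr (Fin.castAdd r l) (an (Fin.castAdd r k) u)
          = (if j = k then (if i = l then (4 : ℝ) • cr (li r l) (an (li r k) u) else 0) else 0) -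
            (if i = k then (if j = l then (4 : ℝ) • cr (li r l) (an (li r k) u) else 0) else 0) := by
        intro k l
        split_ifs <;> simp
      simp only [h4, Finset.sum_sub_distrib]
      rw [smul_sub]
      congr 1
      · simp
      · simp
    · refine Finset.sum_congr rfl fun g _ => ?_
      have h2 : ∑ k : Fin D, R (li r i) (li r j) (Fin.natAdd D g) (Fin.castAdd r k) •
          cr (Fin.castAdd r k) (an (Fin.natAdd D g) u) = 0 := by
        refine Finset.sum_eq_zero fun k _ => ?_
        rw [hR.a34, H2 _ _ _ _ (hl i) (hl j) (hl k) (hm g), neg_zero, zero_smul]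
      rw [h2, zero_add]
  -- induction
  have key : ∀ s : ℕ, pr s u = 0 := by
    intro s
    induction s using Nat.strong_induction_on with
    | _ s ih =>
      rcases s with _ | t
      · funext S
        rw [pr_apply]
        split_ifs with h
        · refine h0 S fun i hi => ?_
          by_contra h2
          have h3 : i ∈ S.filter fun i : Fin (D + r) => (i : ℕ) < D := Finset.mem_filter.2 ⟨hi, not_le.1 h2⟩
          unfold lc at h
          rw [Finset.card_eq_zero] at h
          rw [h] at h3
          exact absurd h3 (Finset.notMem_empty i)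
        · rfl
      · obtain ⟨U, hU⟩ : ∃ U, U = Injb.pr (t + 1) u := ⟨_, rfl⟩
        rw [← hU]
        -- first equation for `U`
        have F1 : ∀ (i : Fin D) (f : Fin r),
            ∑ j : Fin D, ∑ g : Fin r, R (li r i) (mi D f) (li r j) (mi D g) •
              cr (mi D g) (an (li r j) U) = 0 := by
          intro i f
          have h1 := congrArg (Injb.pr t) (E1 i f)
          rw [map_add, map_zero] at h1
          simp only [map_sum, map_smul] at h1
          have h2 : ∀ (g : Fin r) (j : Fin D), pr t (cr (li r j) (an (mi D g) u)) = 0 := by
            intro g j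
            rcases t with _ | t
            · exact pr_cr_l0 j _
            · rw [pr_cr_l, pr_an_m, ih t (by omega), map_zero, map_zero]
          simp only [h2, smul_zero, Finset.sum_const_zero, add_zero, pr_cr_m, pr_an_l] at h1
          rw [hU]
          exact h1
        have F2 : ∀ (i j : Fin D),
            ∑ f : Fin r, ∑ g : Fin r, R (li r i) (li r j) (mi D f) (mi D g) •
              cr (mi D g) (an (mi D f) U) =
            (4 : ℝ) • (cr (li r j) (an (li r i) U) - cr (li r i) (an (li r j) U)) := by
          intro i j
          have h1 := congrArg (Injb.pr (t + 1)) (E2 i j)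
          rw [map_add, map_zero] at h1
          simp only [map_sum, map_smul, map_sub, pr_cr_m, pr_an_m, pr_cr_l, pr_an_l] at h1
          rw [← hU] at h1
          rw [eq_neg_of_add_eq_zero_left h1, ← smul_neg, neg_sub]
        -- the main identity
        have G : ∀ i : Fin D, an (li r i) U = 0 := by
          intro i
          by_cases htD : t + 1 ≤ D
          · obtain ⟨v, hv⟩ : ∃ v, v = an (li r i) U := ⟨_, rfl⟩
            rw [← hv]
            have hvS : ∀ S, v S ≠ 0 → lc S = t ∧ S.card + 1 = p := by
              intro S hS
              rw [hv, an_apply] at hS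
              by_cases h : li r i ∈ S
              · rw [if_pos h] at hS
                exact absurd rfl hS
              · rw [if_neg h, hU, pr_apply, lc_insert_l i S h] at hS
                by_cases h2 : lc S + 1 = t + 1
                · rw [if_pos h2] at hS
                  refine ⟨by omega, ?_⟩
                  by_contra h3
                  apply hS
                  rw [hdeg (insert (li r i) S) (by rw [Finset.card_insert_of_notMem h]; exact h3),
                    mul_zero]
                · rw [if_neg h2, mul_zero] at hS
                  exact absurd rfl hS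
            have nL := numL t v fun S hS => (hvS S hS).1
            have nF := numF ((p : ℝ) - 1 - t) v fun S hS => by
              obtain ⟨a1, a2⟩ := hvS S hS
              rw [a1, ← a2]
              push_cast
              ring
            -- the equation with `f`
            have K1 : ∀ f : Fin r, cr (mi D f) v = ∑ j : Fin D, ∑ g : Fin r,
                (1 / 2 * R (li r i) (li r j) (mi D f) (mi D g)) •
                  cr (mi D g) (an (li r j) U) := by
              intro f
              have h1 := F1 i f
              simp only [Rmix, sub_smul, Finset.sum_sub_distrib] at h1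
              rw [sub_eq_zero] at h1
              rw [h1]
              have h2 : ∀ (j : Fin D) (g : Fin r), (((if i = j then (1 : ℝ) else 0) *
                  (if f = g then 1 else 0)) • cr (mi D g) (an (li r j) U))
                  = if i = j then (if f = g then cr (mi D g) (an (li r j) U) else 0) else 0 := by
                intro j g
                split_ifs <;> simp
              simp only [h2]
              rw [hv]
              simp
            -- apply `an f` and sum
            have K2 : ∑ f : Fin r, an (mi D f) (cr (mi D f) v) = ((r : ℝ) - (p - 1 - t)) • v := by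
              simp only [an_cr, if_true, Finset.sum_sub_distrib]
              have h1 : ((r : ℝ) - (p - 1 - t)) • v = (r : ℝ) • v - ((p : ℝ) - 1 - t) • v :=
                sub_smul _ _ _
              rw [nF, Finset.sum_const, Finset.card_univ, Fintype.card_fin, h1,
                Nat.cast_smul_eq_nsmul]
            have K3 : ∑ f : Fin r, an (mi D f) (cr (mi D f) v)
                = -(1 / 2 : ℝ) • ∑ j : Fin D, an (li r j) (∑ f : Fin r, ∑ g : Fin r,
                    R (li r i) (li r j) (mi D f) (mi D g) • cr (mi D g) (an (mi D f) U)) := by
              have h1 : ∀ (j : Fin D) (f g : Fin r), an (mi D f) (cr (mi D g) (an (li r j) U))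
                  = (if f = g then an (li r j) U else 0)
                    - an (li r j) (cr (mi D g) (an (mi D f) U)) := by
                intro j f g
                rw [an_cr]
                have e1 : (if mi D f = mi D g then an (li r j) U else 0)
                    = if f = g then an (li r j) U else 0 := by simp only [hminj]
                rw [e1, an_cr (li r j) (mi D g), if_neg (hlne j g), zero_sub,
                  an_an (mi D f) (li r j), map_neg]
              have h2 : ∀ f : Fin r, an (mi D f) (cr (mi D f) v)
                  = ∑ j : Fin D, ∑ g : Fin r,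
                    ((1 / 2 * R (li r i) (li r j) (mi D f) (mi D g)) •
                      (if f = g then an (li r j) U else 0)
                    - (1 / 2 * R (li r i) (li r j) (mi D f) (mi D g)) •
                      an (li r j) (cr (mi D g) (an (mi D f) U))) := by
                intro f
                rw [K1 f]
                simp only [map_sum, map_smul, h1, smul_sub]
              have h3 : ∀ (j : Fin D) (f g : Fin r),
                  (1 / 2 * R (li r i) (li r j) (mi D f) (mi D g)) •
                      (if f = g then an (li r j) U else 0) = 0 := by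
                intro j f g
                split_ifs with hfg
                · subst hfg
                  have h4 := hR.a34 (li r i) (li r j) (mi D f) (mi D f)
                  have h5 : R (li r i) (li r j) (mi D f) (mi D f) = 0 := by linarith
                  rw [h5, mul_zero, zero_smul]
                · rw [smul_zero]
              simp only [h3, zero_sub] at h2
              rw [Finset.sum_congr rfl fun f _ => h2 f, Finset.sum_comm, Finset.smul_sum]
              refine Finset.sum_congr rfl fun j _ => ?_
              simp only [map_sum, map_smul, Finset.smul_sum]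
              refine Finset.sum_congr rfl fun f _ => Finset.sum_congr rfl fun g _ => ?_
              rw [neg_smul, smul_smul]
            have K4 : ∑ j : Fin D, an (li r j) (∑ f : Fin r, ∑ g : Fin r,
                    R (li r i) (li r j) (mi D f) (mi D g) • cr (mi D g) (an (mi D f) U))
                = (4 * ((D : ℝ) - t - 1)) • v := by
              have h1 : ∀ j : Fin D, an (li r j) (∑ f : Fin r, ∑ g : Fin r,
                    R (li r i) (li r j) (mi D f) (mi D g) • cr (mi D g) (an (mi D f) U))
                  = (4 : ℝ) • ((v - cr (li r j) (an (li r j) v)) - (if j = i then v else 0)) := by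
                intro j
                rw [F2 i j, map_smul, map_sub, ← hv, an_cr (li r j) (li r j), if_pos rfl,
                  an_cr (li r j) (li r i), an_an_self, map_zero, sub_zero]
                congr 2
                by_cases hji : j = i
                · subst hji
                  rw [if_pos rfl, if_pos rfl, hv]
                · rw [if_neg hji, if_neg (fun h => hji ((hlinj j i).1 h))]
              rw [Finset.sum_congr rfl fun j _ => h1 j, ← Finset.smul_sum,
                Finset.sum_sub_distrib, Finset.sum_sub_distrib, nL, Finset.sum_const,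
                Finset.card_univ, Fintype.card_fin, Finset.sum_ite_eq', if_pos (Finset.mem_univ i)]
              rw [mul_smul, sub_smul, sub_smul, one_smul]
              simp only [Nat.cast_smul_eq_nsmul]
            have K5 : ((r : ℝ) - (p - 1 - t)) • v = (-(1 / 2) * (4 * ((D : ℝ) - t - 1))) • v := by
              rw [← K2, K3, K4, smul_smul]
            have K6 : ((r : ℝ) + 2 * D - p - 1 - t) • v = 0 := by
              have h1 : (r : ℝ) + 2 * D - p - 1 - t = ((r : ℝ) - (p - 1 - t))
                  - (-(1 / 2) * (4 * ((D : ℝ) - t - 1))) := by ring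
              rw [h1, sub_smul, K5, sub_self]
            have hpos : (0 : ℝ) < (r : ℝ) + 2 * D - p - 1 - t := by
              have h1 : (p : ℝ) < D + r := by exact_mod_cast hp
              have h2 : (t : ℝ) + 1 ≤ D := by exact_mod_cast htD
              linarith
            exact (smul_eq_zero.1 K6).resolve_left hpos.ne'
          · -- more indices than there are
            have hU0 : U = 0 := by
              funext S
              rw [hU, pr_apply, if_neg]
              · rfl
              · intro h
                have h1 : (lc S : ℝ) ≤ D := by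
                  rw [← cntL S]
                  refine (Finset.sum_le_sum (g := fun _ => (1 : ℝ)) fun j _ => ?_).trans ?_
                  · split_ifs <;> norm_num
                  · simp
                have h2 : lc S ≤ D := by exact_mod_cast h1
                omega
            rw [hU0, map_zero]
        have hnum := numL (t + 1) U fun S hS => by
          rw [hU, pr_apply] at hS
          by_contra h
          exact hS (if_neg h)
        simp only [G, map_zero, Finset.sum_const_zero] at hnum
        exact (smul_eq_zero.1 hnum.symm).resolve_left (by positivity)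
  funext S
  have h1 := congrFun (key (lc S)) S
  rw [pr_apply, if_pos rfl] at h1
  exact h1

end Pool.Agent.H781.KP
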