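import Pool.Agent.H781.KP.K

/-!
Project KK, task KK-09: the algebraic theorem (`S_PDK` from `S_LIMC`, `S_AVG`, `S_SYM`, `S_RK1`,
`S_EIG`, `S_SCA`, `S_INV`, `S_EVN`; by helper5 for helper781).
-/

set_option autoImplicit false
set_option synthInstance.maxHeartbeats 400000
set_option maxHeartbeats 4000000
set_option linter.unusedSectionVars false

open MeasureTheory Filter
open scoped Topology ContDiff

noncomputable section

namespace Pool.Agent.H781.KP

open Pool.Agent.H781.NG Pool.Agent.H781.CM Pool.Agent.H781.H6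

namespace Pdk

/-- two orthonormal elements are linearly independent -/
theorem indep {n : ℕ} {u v : Fk n ℝ} (huu : ip u u = 1) (hvv : ip v v = 1) (huv : ip u v = 0)
    (hvu : ip v u = 0) (h : ∃ s t : ℝ, (s ≠ 0 ∨ t ≠ 0) ∧ s • u + t • v = 0) : False := by
  obtain ⟨s, t, hst, he⟩ := h
  have e1 : ip (s • u + t • v) u = 0 := by rw [he]; exact ip_zero_left u
  have e2 : ip (s • u + t • v) v = 0 := by rw [he]; exact ip_zero_left v
  rw [ip_add_left, ip_smul_left, ip_smul_left, huu, hvu, mul_one, mul_zero, add_zero] at e1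
  rw [ip_add_left, ip_smul_left, ip_smul_left, huv, hvv, mul_one, mul_zero, zero_add] at e2
  rcases hst with h | h
  · exact h e1
  · exact h e2

end Pdk

/-- the algebraic theorem -/
theorem s_pdk (h1 : S_LIMC) (h2 : S_AVG) (h3 : S_SYM) (h4 : S_RK1) (h5 : S_EIG) (h6 : S_SCA)
    (h7 : S_INV) (h8 : S_EVN) : S_PDK := by
  intro n N d κ hn hκ hKA
  obtain ⟨a, R0, hL0⟩ := h1 n N d κ hn hκ hKA
  obtain ⟨R, hL, hinv⟩ := h2 n (Σ p, Fin (d p)) (fun x => (x.1 : ℕ)) a R0 hL0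
  obtain ⟨hSym, hTr, hInvF⟩ := h3 n (Σ p, Fin (d p)) (fun x => (x.1 : ℕ)) a R hL hinv
  obtain ⟨hDeg, hip, -, hAC, hC, hscl, -, -⟩ := hL
  have hrk := h4 n R hn hAC hC hSym hTr hscl
  obtain ⟨c, D, hc, hKS, hKD, hD2⟩ := h5 n R hn hAC hC hSym hTr hrk
  obtain ⟨hKS1, hKD1, hI1⟩ := h6 n R c D hc hKS hKD
  obtain ⟨hDn, hform⟩ := h7 n _ D (le_trans one_le_two hn) hKS1 hKD1 hD2
  refine ⟨?_, D, hD2, hDn, ?_, ?_⟩
  · intro p
    by_contra hp
    have hp2 : 2 ≤ d p := by omega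
    have h0 : 0 < d p := by omega
    have h1' : 1 < d p := by omega
    set x : Σ p, Fin (d p) := ⟨p, ⟨0, h0⟩⟩ with hx
    set y : Σ p, Fin (d p) := ⟨p, ⟨1, h1'⟩⟩ with hy
    have hxy : x ≠ y := by
      intro e
      have e' : (⟨0, h0⟩ : Fin (d p)) = ⟨1, h1'⟩ := by
        have := Sigma.mk.inj e
        exact eq_of_heq this.2
      have := congrArg Fin.val e'
      simp at this
    refine Pdk.indep (u := a x) (v := a y) ?_ ?_ ?_ ?_
      ((hform (p : ℕ)).2 (a x) (a y) (hDeg x) (hDeg y) (hI1 _ (hInvF x)) (hI1 _ (hInvF y)))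
    · rw [hip, if_pos rfl]
    · rw [hip, if_pos rfl]
    · rw [hip, if_neg hxy]
    · rw [hip, if_neg (Ne.symm hxy)]
  · rcases Nat.lt_or_ge D n with hlt | hge
    · exact Or.inr (h8 n _ D hKS1 hKD1 hD2 hlt)
    · exact Or.inl (le_antisymm (Nat.le_of_dvd (by omega) hDn) hge)
  · intro p hp
    by_contra hnd
    have h0 : 0 < d p := Nat.pos_of_ne_zero hp
    set x : Σ p, Fin (d p) := ⟨p, ⟨0, h0⟩⟩ with hx
    have hz : a x = 0 := (hform (p : ℕ)).1 (a x) (hDeg x) (hI1 _ (hInvF x)) hnd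
    have h := hip x x
    rw [hz, ip_zero_left, if_pos rfl] at h
    exact zero_ne_one h

end Pool.Agent.H781.KP
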