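import Pool.Agent.H781.KP.C

/-!
Project KP: the rank of the Lie algebra is one.
-/

set_option autoImplicit false
set_option synthInstance.maxHeartbeats 400000
set_option maxHeartbeats 4000000
set_option linter.unusedSectionVars false

open MeasureTheory Filter
open scoped Topology ContDiff

noncomputable section

namespace Pool.Agent.H781.KP

open Pool.Agent.H781.NG Pool.Agent.H781.CM Pool.Agent.H781.H6

namespace Tl1

variable {n : ℕ}

theorem dcomm (x y : Fin n → ℝ) : dt x y = dt y x := by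
  unfold dt
  exact Finset.sum_congr rfl fun a _ => mul_comm _ _

theorem dadd (x y z : Fin n → ℝ) : dt (x + y) z = dt x z + dt y z := by
  unfold dt
  rw [← Finset.sum_add_distrib]
  exact Finset.sum_congr rfl fun a _ => by rw [Pi.add_apply]; ring

theorem dsmul (c : ℝ) (x z : Fin n → ℝ) : dt (c • x) z = c * dt x z := by
  unfold dt
  rw [Finset.mul_sum]
  exact Finset.sum_congr rfl fun a _ => by rw [Pi.smul_apply, smul_eq_mul]; ring

theorem dadd' (x y z : Fin n → ℝ) : dt z (x + y) = dt z x + dt z y := by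
  rw [dcomm, dadd, dcomm x, dcomm y]

theorem dsmul' (c : ℝ) (x z : Fin n → ℝ) : dt z (c • x) = c * dt z x := by
  rw [dcomm, dsmul, dcomm x]

theorem dnonneg (x : Fin n → ℝ) : 0 ≤ dt x x := Finset.sum_nonneg fun _ _ => mul_self_nonneg _

theorem dzero {x : Fin n → ℝ} (h : dt x x = 0) : x = 0 := by
  funext a
  have h1 := (Finset.sum_eq_zero_iff_of_nonneg (fun a _ => mul_self_nonneg (x a))).1 h a
    (Finset.mem_univ a)
  exact mul_self_eq_zero.1 h1

theorem dpos {x : Fin n → ℝ} (h : x ≠ 0) : 0 < dt x x :=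
  lt_of_le_of_ne (dnonneg x) fun h1 => h (dzero h1.symm)

theorem dext {x y : Fin n → ℝ} (h : ∀ z, dt x z = dt y z) : x = y := by
  have h1 : dt (x + (-1 : ℝ) • y) (x + (-1 : ℝ) • y) = 0 := by
    rw [dadd, dsmul, h]
    ring
  have h2 := dzero h1
  have h3 : x = -((-1 : ℝ) • y) := eq_neg_of_add_eq_zero_left h2
  rw [h3]
  simp

theorem norml {x : Fin n → ℝ} (h : x ≠ 0) : ∃ c : ℝ, 0 < c ∧ dt (c • x) (c • x) = 1 := by
  have h1 := dpos h
  have h2 : 0 < Real.sqrt (dt x x) := Real.sqrt_pos.2 h1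
  refine ⟨(Real.sqrt (dt x x))⁻¹, inv_pos.2 h2, ?_⟩
  rw [dsmul, dsmul']
  have h3 : Real.sqrt (dt x x) * Real.sqrt (dt x x) = dt x x := Real.mul_self_sqrt h1.le
  field_simp
  nlinarith [h3]

theorem exmax (A : (Fin n → ℝ) →ₗ[ℝ] (Fin n → ℝ)) {e : Fin n → ℝ} (he : dt e e = 1) :
    ∃ w0 : Fin n → ℝ, dt w0 w0 = 1 ∧ ∀ w, dt w w = 1 → dt (A w) (A w) ≤ dt (A w0) (A w0) := by
  have hc : IsCompact {w : Fin n → ℝ | dt w w = 1} := by
    apply Metric.isCompact_of_isClosed_isBounded
    · refine isClosed_eq ?_ continuous_const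
      unfold dt
      exact continuous_finsetSum _ fun a _ => (continuous_apply a).mul (continuous_apply a)
    · refine (Metric.isBounded_closedBall (x := (0 : Fin n → ℝ)) (r := 1)).subset ?_
      intro w hw
      rw [mem_closedBall_zero_iff, pi_norm_le_iff_of_nonneg zero_le_one]
      intro i
      rw [Real.norm_eq_abs, abs_le_one_iff_mul_self_le_one]
      have hw' : dt w w = 1 := hw
      rw [← hw']
      exact Finset.single_le_sum (f := fun a => w a * w a) (fun a _ => mul_self_nonneg (w a))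
        (Finset.mem_univ i)
  have hA : Continuous A := A.continuous_of_finiteDimensional
  have hcont : Continuous fun w : Fin n → ℝ => dt (A w) (A w) := by
    unfold dt
    exact continuous_finsetSum _ fun a _ =>
      ((continuous_apply a).comp hA).mul ((continuous_apply a).comp hA)
  obtain ⟨w0, h1, h2⟩ := hc.exists_isMaxOn ⟨e, he⟩ hcont.continuousOn
  exact ⟨w0, h1, fun w hw => h2 hw⟩

theorem lin_zero {b c : ℝ} (h : ∀ t : ℝ, 2 * t * b + t ^ 2 * c ≤ 0) : b = 0 := by
  by_contra hb
  have h1 := h (b / (|c| + 1))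
  have h2 : 0 < |c| + 1 := by positivity
  have h3 : 2 * (b / (|c| + 1)) * b + (b / (|c| + 1)) ^ 2 * c =
      b ^ 2 * (2 * (|c| + 1) + c) / (|c| + 1) ^ 2 := by
    field_simp
  rw [h3] at h1
  have h4 : 0 < b ^ 2 * (2 * (|c| + 1) + c) / (|c| + 1) ^ 2 := by
    have h5 : 0 < b ^ 2 := by positivity
    have h6 : 0 < 2 * (|c| + 1) + c := by
      have := neg_abs_le c
      have := abs_nonneg c
      linarith
    positivity
  linarith

section

variable {P : (Fin n → ℝ) →ₗ[ℝ] (Fin n → ℝ) →ₗ[ℝ] (Fin n → ℝ)}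

theorem self_zero (hT : TL P) (x : Fin n → ℝ) : P x x = 0 := by
  have h := hT.1 x x
  exact self_eq_neg.1 h

/-- the bound at unit vectors is the same for all of them -/
theorem bd_trans (hT : TL P) {M : ℝ} {x y : Fin n → ℝ} (hx : dt x x = 1) (hy : dt y y = 1)
    (h : ∀ w, dt (P y w) (P y w) ≤ M * dt w w) (w : Fin n → ℝ) :
    dt (P x w) (P x w) ≤ M * dt w w := by
  by_cases hxy : dt x y = -1
  · have h1 : dt (x + y) (x + y) = 0 := by
      rw [dadd, dadd', dadd', dcomm y x, hx, hy, hxy]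
      norm_num
    have h2 : x = (-1 : ℝ) • y := by
      have := eq_neg_of_add_eq_zero_left (dzero h1)
      rw [this, neg_one_smul]
    rw [h2, map_smul, LinearMap.smul_apply, dsmul, dsmul']
    have := h w
    linarith
  · obtain ⟨g, h1, h2, h3⟩ := hT.2.2.2 x y hx hy hxy
    rw [← h1 (P x w) (P x w), h3, h2, ← h1 w w]
    exact h (g w)

/-- the maximum is attained for all unit vectors -/
theorem at_trans (hT : TL P) {M : ℝ} {x y : Fin n → ℝ} (hx : dt x x = 1) (hy : dt y y = 1)
    (h : ∃ w, dt w w = 1 ∧ dt (P x w) (P x w) = M) :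
    ∃ w, dt w w = 1 ∧ dt (P y w) (P y w) = M := by
  obtain ⟨w, hw, hM⟩ := h
  by_cases hxy : dt x y = -1
  · have h1 : dt (x + y) (x + y) = 0 := by
      rw [dadd, dadd', dadd', dcomm y x, hx, hy, hxy]
      norm_num
    have h2 : y = (-1 : ℝ) • x := by
      have := eq_neg_of_add_eq_zero_right (dzero h1)
      rw [this, neg_one_smul]
    refine ⟨w, hw, ?_⟩
    rw [h2, map_smul, LinearMap.smul_apply, dsmul, dsmul']
    linarith
  · obtain ⟨g, h1, h2, h3⟩ := hT.2.2.2 x y hx hy hxy
    refine ⟨g w, by rw [h1, hw], ?_⟩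
    rw [← h2, ← h3, h1, hM]

/-- the homogeneous bound -/
theorem bd_all {M : ℝ} (h : ∀ x, dt x x = 1 → ∀ w, dt (P x w) (P x w) ≤ M * dt w w)
    (z w : Fin n → ℝ) : dt (P z w) (P z w) ≤ M * (dt z z * dt w w) := by
  by_cases hz : z = 0
  · rw [hz, map_zero, LinearMap.zero_apply]
    have h0 : dt (0 : Fin n → ℝ) 0 = 0 := by
      unfold dt
      simp
    rw [h0]
    simp
  · obtain ⟨c, hc, h1⟩ := norml hz
    have h2 := h _ h1 w
    rw [map_smul, LinearMap.smul_apply, dsmul, dsmul'] at h2
    rw [dsmul, dsmul'] at h1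
    have h3 : 0 < c * c := mul_pos hc hc
    have h4 : (c * c) * dt (P z w) (P z w) ≤ (c * c) * (M * (dt z z * dt w w)) := by
      calc (c * c) * dt (P z w) (P z w) = c * (c * dt (P z w) (P z w)) := by ring
        _ ≤ M * dt w w := h2
        _ = M * ((c * (c * dt z z)) * dt w w) := by rw [h1, one_mul]
        _ = (c * c) * (M * (dt z z * dt w w)) := by ring
    exact le_of_mul_le_mul_left h4 h3

/-- Lagrange multiplier -/
theorem eig (hT : TL P) {M : ℝ} {u w : Fin n → ℝ}
    (h : ∀ w, dt (P u w) (P u w) ≤ M * dt w w) (hw : dt (P u w) (P u w) = M * dt w w) :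
    P u (P u w) = -M • w := by
  have h1 : ∀ z, dt (P u w) (P u z) = M * dt w z := by
    intro z
    have h2 : dt (P u w) (P u z) - M * dt w z = 0 := by
      refine lin_zero (c := dt (P u z) (P u z) - M * dt z z) fun t => ?_
      have h3 := h (w + t • z)
      rw [map_add, map_smul, dadd, dadd', dadd', dsmul, dsmul', dsmul, dsmul', dadd, dadd', dadd',
        dsmul, dsmul', dsmul, dsmul', dcomm (P u z) (P u w), dcomm z w, hw] at h3
      nlinarith [h3]
    linarith
  refine dext fun z => ?_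
  have h2 := hT.2.1 u (P u w) z
  rw [h2, h1, dsmul]
  ring

theorem comm (hT : TL P) {u v : Fin n → ℝ} (huv : P u v = 0) (w : Fin n → ℝ) :
    P u (P v w) = P v (P u w) := by
  have h := hT.2.2.1 u v w
  rw [huv, map_zero, LinearMap.zero_apply] at h
  exact (sub_eq_zero.1 h.symm)

/-- the top eigenspace of `u` is killed by the orthogonal vectors commuting with `u` -/
theorem killed (hT : TL P) {M : ℝ} (hM : M ≠ 0)
    (h : ∀ z w : Fin n → ℝ, dt (P z w) (P z w) ≤ M * (dt z z * dt w w)) {u v w : Fin n → ℝ}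
    (hu : dt u u = 1) (hv : dt v v = 1) (huv : dt u v = 0) (hP : P u v = 0)
    (hw : P u (P u w) = -M • w) : P v w = 0 := by
  have hb : ∀ w, P u (P u w) = -M • w → dt (P u w) (P v w) = 0 := by
    intro w hw
    have h1 : dt (P u w) (P u w) = M * dt w w := by
      have h2 := hT.2.1 u (P u w) w
      rw [hw, dsmul] at h2
      linarith
    refine lin_zero (c := dt (P v w) (P v w) - M * dt w w) fun t => ?_
    have h3 := h (u + t • v) w
    rw [map_add, map_smul, LinearMap.add_apply, LinearMap.smul_apply, dadd, dadd', dadd', dsmul,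
      dsmul', dsmul, dsmul', dadd, dadd', dadd', dsmul, dsmul', dsmul, dsmul',
      dcomm (P v w) (P u w), dcomm v u, hu, hv, huv, h1] at h3
    nlinarith [h3]
  have hE1 : ∀ w, P u (P u w) = -M • w → P u (P u (P u w)) = -M • P u w := by
    intro w hw
    rw [hw, map_smul]
  have hE2 : ∀ w, P u (P u w) = -M • w → P u (P u (P v w)) = -M • P v w := by
    intro w hw
    rw [comm hT hP, comm hT hP, hw, map_smul]
  have h1 : ∀ w1 w2, P u (P u w1) = -M • w1 → P u (P u w2) = -M • w2 →
      dt w2 (P u (P v w1)) = 0 := by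
    intro w1 w2 e1 e2
    have e3 : P u (P u (w1 + w2)) = -M • (w1 + w2) := by
      rw [map_add, map_add, e1, e2, smul_add]
    have b1 := hb w1 e1
    have b2 := hb w2 e2
    have b3 := hb _ e3
    rw [map_add, map_add, dadd, dadd', dadd', b1, b2] at b3
    have s1 := hT.2.1 u w2 (P v w1)
    have s2 := hT.2.1 v w2 (P u w1)
    rw [← comm hT hP w1] at s2
    rw [dcomm (P u w1) (P v w2)] at b3
    linarith
  have h2 : P u (P v w) = 0 :=
    dzero (h1 w (P u (P v w)) hw (hE1 _ (hE2 w hw)))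
  have h3 := hE2 w hw
  rw [h2, map_zero] at h3
  rcases smul_eq_zero.1 h3.symm with h4 | h4
  · exact absurd (neg_eq_zero.1 h4) hM
  · exact h4

end

end Tl1

open Tl1 in
theorem s_tl1 : S_TL1 := by
  intro n P hT hne x y hx hxy
  by_contra hy
  obtain ⟨a, b, hab⟩ := hne
  -- a unit vector and the maximum
  obtain ⟨c0, hc0, hx1⟩ := norml hx
  obtain ⟨w0, hw0, hmax⟩ := exmax (P (c0 • x)) hx1
  obtain ⟨M, hMdef⟩ : ∃ M, M = dt (P (c0 • x) w0) (P (c0 • x) w0) := ⟨_, rfl⟩
  rw [← hMdef] at hmax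
  have hbd0 : ∀ w, dt (P (c0 • x) w) (P (c0 • x) w) ≤ M * dt w w := by
    intro w
    by_cases hw : w = 0
    · rw [hw, map_zero]
      have h0 : dt (0 : Fin n → ℝ) 0 = 0 := by
        unfold dt
        simp
      rw [h0, mul_zero]
    · obtain ⟨c, hc, h1⟩ := norml hw
      have h2 := hmax _ h1
      rw [map_smul, dsmul, dsmul'] at h2
      rw [dsmul, dsmul'] at h1
      have h3 : 0 < c * c := mul_pos hc hc
      have h4 : (c * c) * dt (P (c0 • x) w) (P (c0 • x) w) ≤ (c * c) * (M * dt w w) := by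
        calc (c * c) * dt (P (c0 • x) w) (P (c0 • x) w) =
            c * (c * dt (P (c0 • x) w) (P (c0 • x) w)) := by ring
          _ ≤ M := h2
          _ = M * (c * (c * dt w w)) := by rw [h1, mul_one]
          _ = (c * c) * (M * dt w w) := by ring
      exact le_of_mul_le_mul_left h4 h3
  have hbd1 : ∀ z, dt z z = 1 → ∀ w, dt (P z w) (P z w) ≤ M * dt w w :=
    fun z hz w => bd_trans hT hz hx1 hbd0 w
  have hbd := bd_all hbd1
  have hat : ∀ z, dt z z = 1 → ∃ w, dt w w = 1 ∧ dt (P z w) (P z w) = M :=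
    fun z hz => at_trans hT hx1 hz ⟨w0, hw0, hMdef.symm⟩
  have hM : 0 < M := by
    have h1 := hbd a b
    have h2 := dpos hab
    have h3 : 0 < M * (dt a a * dt b b) := lt_of_lt_of_le h2 h1
    have h4 : 0 ≤ dt a a * dt b b := mul_nonneg (dnonneg a) (dnonneg b)
    by_contra h5
    have h6 : M * (dt a a * dt b b) ≤ 0 := mul_nonpos_of_nonpos_of_nonneg (not_lt.1 h5) h4
    linarith
  -- orthonormal commuting vectors
  obtain ⟨e, he⟩ : ∃ e, e = c0 • x := ⟨_, rfl⟩
  rw [← he] at hx1
  have hey : P e y = 0 := by rw [he, map_smul, LinearMap.smul_apply, hxy, smul_zero]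
  have hz0 : y + (-(dt e y)) • e ≠ 0 := by
    intro h
    apply hy
    refine ⟨dt e y * c0, ?_⟩
    have h1 := eq_neg_of_add_eq_zero_left h
    rw [neg_smul, neg_neg] at h1
    rw [mul_smul, ← he]
    exact h1
  obtain ⟨c1, hc1, hf1⟩ := norml hz0
  obtain ⟨f, hf⟩ : ∃ f, f = c1 • (y + (-(dt e y)) • e) := ⟨_, rfl⟩
  rw [← hf] at hf1
  have hef : dt e f = 0 := by
    rw [hf, dsmul', dadd', dsmul', hx1]
    ring
  have hPef : P e f = 0 := by
    rw [hf, map_smul, map_add, map_smul, hey, self_zero hT]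
    simp
  have hPfe : P f e = 0 := by
    rw [hT.1 f e, hPef, neg_zero]
  -- infinitely many eigenvalues
  have hfin : {μ : ℝ | Module.End.HasEigenvalue ((P e).comp (P e) : Module.End ℝ (Fin n → ℝ)) μ}.Finite :=
    Module.End.finite_hasEigenvalue _
  refine absurd hfin (Set.infinite_of_injOn_mapsTo (f := fun c : ℝ => -M * c ^ 2)
    (s := Set.Icc (0 : ℝ) 1) ?_ ?_ (Set.Icc_infinite zero_lt_one))
  · intro c hc c' hc' h
    have h1 : c ^ 2 = c' ^ 2 := by
      have h2 : -M * c ^ 2 = -M * c' ^ 2 := h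
      exact mul_left_cancel₀ (neg_ne_zero.2 hM.ne') h2
    exact (pow_left_inj₀ hc.1 hc'.1 two_ne_zero).1 h1
  · intro c hc
    obtain ⟨s, hs⟩ : ∃ s : ℝ, c * c + s * s = 1 := by
      refine ⟨Real.sqrt (1 - c * c), ?_⟩
      rw [Real.mul_self_sqrt (by nlinarith [hc.1, hc.2])]
      ring
    have hfe : dt f e = 0 := by rw [dcomm, hef]
    obtain ⟨u, hu⟩ : ∃ u, u = c • e + s • f := ⟨_, rfl⟩
    obtain ⟨v, hv⟩ : ∃ v, v = (-s) • e + c • f := ⟨_, rfl⟩
    have huu : dt u u = 1 := by
      rw [hu, dadd, dadd', dadd', dsmul, dsmul, dsmul', dsmul', dsmul, dsmul, dsmul', dsmul', hx1,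
        hf1, hef, hfe]
      linarith
    have hvv : dt v v = 1 := by
      rw [hv, dadd, dadd', dadd', dsmul, dsmul, dsmul', dsmul', dsmul, dsmul, dsmul', dsmul', hx1,
        hf1, hef, hfe]
      linarith
    have huv : dt u v = 0 := by
      rw [hu, hv, dadd, dadd', dadd', dsmul, dsmul, dsmul', dsmul', dsmul, dsmul, dsmul', dsmul',
        hx1, hf1, hef, hfe]
      ring
    have hPuv : P u v = 0 := by
      rw [hu, hv]
      simp only [map_add, map_smul, LinearMap.add_apply, LinearMap.smul_apply, hPef, hPfe,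
        self_zero hT, smul_zero, add_zero]
    obtain ⟨w, hw1, hw2⟩ := hat u huu
    have hE : P u (P u w) = -M • w :=
      eig hT (hbd1 u huu) (by rw [hw2, hw1, mul_one])
    have hk : P v w = 0 := killed hT hM.ne' hbd huu hvv huv hPuv hE
    have hex : e = c • u + (-s) • v := by
      rw [hu, hv, smul_add, smul_add, smul_smul, smul_smul, smul_smul, smul_smul]
      have h1 : (c * c) • e + (c * s) • f + ((-s * -s) • e + (-s * c) • f) =
          (c * c + s * s) • e + (c * s + -s * c) • f := by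
        rw [add_smul, add_smul]
        have h2 : -s * -s = s * s := by ring
        rw [h2]
        abel
      rw [h1, hs, one_smul]
      have h3 : c * s + -s * c = 0 := by ring
      rw [h3, zero_smul, add_zero]
    have h1 : P e w = c • P u w := by
      rw [hex, map_add, map_smul, map_smul, LinearMap.add_apply, LinearMap.smul_apply,
        LinearMap.smul_apply, hk, smul_zero, add_zero]
    have h2 : P e (P u w) = c • P u (P u w) := by
      rw [hex, map_add, map_smul, map_smul, LinearMap.add_apply, LinearMap.smul_apply,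
        LinearMap.smul_apply, ← comm hT hPuv w, hk, map_zero, smul_zero, add_zero]
    have h3 : ((P e).comp (P e)) w = (-M * c ^ 2) • w := by
      rw [LinearMap.comp_apply, h1, map_smul, h2, hE, smul_smul, smul_smul]
      congr 1
      ring
    have hw0' : w ≠ 0 := by
      intro h
      rw [h] at hw1
      unfold dt at hw1
      simp at hw1
    exact Module.End.hasEigenvalue_of_hasEigenvector
      (Module.End.hasEigenvector_iff.2 ⟨Module.End.mem_eigenspace_iff.2 h3, hw0'⟩)

end Pool.Agent.H781.KP
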