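import Pool.Agent.H781.KP.K
import Pool.Agent.H781.KP.Hsc
import Pool.Agent.H781.KP.Hka
import Pool.Agent.H781.KP.Tl1
import Pool.Agent.H781.KP.Inf
import Pool.Agent.H781.KP.Ufx

/-!
Project KK (MP_4e0d62_gt): the rank of a nonnegative symmetric curvature tensor with transitive
symmetry group is one (second proof, by helper803 for helper781).
-/

set_option autoImplicit false
set_option synthInstance.maxHeartbeats 400000
set_option maxHeartbeats 4000000
set_option linter.unusedSectionVars false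

open MeasureTheory Filter
open scoped Topology ContDiff

noncomputable section

namespace Pool.Agent.H781.KP

open Pool.Agent.H781.NG Pool.Agent.H781.CM Pool.Agent.H781.H6

namespace Rk1b

open Tl1 (dcomm dadd dsmul dadd' dsmul' dnonneg dzero dpos dext norml lin_zero)

variable {n : ℕ}

theorem dRV (R : T4 n) (x y z w : Fin n → ℝ) : dt (RV R x y z) w = R4 R x y z w := by
  unfold dt RV R4
  simp only [Finset.sum_mul]
  rw [Finset.sum_comm]
  refine Finset.sum_congr rfl fun a _ => ?_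
  rw [Finset.sum_comm]
  refine Finset.sum_congr rfl fun b _ => ?_
  rw [Finset.sum_comm]

theorem add1 (R : T4 n) (x x' y z : Fin n → ℝ) :
    RV R (x + x') y z = RV R x y z + RV R x' y z := by
  funext d
  simp only [RV, Pi.add_apply, mul_add, add_mul, Finset.sum_add_distrib]

theorem add2 (R : T4 n) (x y y' z : Fin n → ℝ) :
    RV R x (y + y') z = RV R x y z + RV R x y' z := by
  funext d
  simp only [RV, Pi.add_apply, mul_add, add_mul, Finset.sum_add_distrib]

theorem add3 (R : T4 n) (x y z z' : Fin n → ℝ) :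
    RV R x y (z + z') = RV R x y z + RV R x y z' := by
  funext d
  simp only [RV, Pi.add_apply, mul_add, Finset.sum_add_distrib]

theorem smul1 (R : T4 n) (c : ℝ) (x y z : Fin n → ℝ) : RV R (c • x) y z = c • RV R x y z := by
  funext d
  simp only [RV, Pi.smul_apply, smul_eq_mul, Finset.mul_sum]
  refine Finset.sum_congr rfl fun a _ => Finset.sum_congr rfl fun b _ =>
    Finset.sum_congr rfl fun e _ => ?_
  ring

theorem smul2 (R : T4 n) (c : ℝ) (x y z : Fin n → ℝ) : RV R x (c • y) z = c • RV R x y z := by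
  funext d
  simp only [RV, Pi.smul_apply, smul_eq_mul, Finset.mul_sum]
  refine Finset.sum_congr rfl fun a _ => Finset.sum_congr rfl fun b _ =>
    Finset.sum_congr rfl fun e _ => ?_
  ring

theorem smul3 (R : T4 n) (c : ℝ) (x y z : Fin n → ℝ) : RV R x y (c • z) = c • RV R x y z := by
  funext d
  simp only [RV, Pi.smul_apply, smul_eq_mul, Finset.mul_sum]
  refine Finset.sum_congr rfl fun a _ => Finset.sum_congr rfl fun b _ =>
    Finset.sum_congr rfl fun e _ => ?_
  ring

theorem neg1 (R : T4 n) (x y z : Fin n → ℝ) : RV R (-x) y z = -RV R x y z := by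
  rw [← neg_one_smul ℝ x, smul1, neg_one_smul]

theorem neg2 (R : T4 n) (x y z : Fin n → ℝ) : RV R x (-y) z = -RV R x y z := by
  rw [← neg_one_smul ℝ y, smul2, neg_one_smul]

theorem neg3 (R : T4 n) (x y z : Fin n → ℝ) : RV R x y (-z) = -RV R x y z := by
  rw [← neg_one_smul ℝ z, smul3, neg_one_smul]

theorem zero3 (R : T4 n) (x y : Fin n → ℝ) : RV R x y 0 = 0 := by
  have h := smul3 R 0 x y 0
  rw [zero_smul, zero_smul] at h
  exact h

theorem zero1 (R : T4 n) (x y : Fin n → ℝ) : RV R 0 x y = 0 := by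
  have h := smul1 R 0 0 x y
  rw [zero_smul, zero_smul] at h
  exact h

theorem dneg (x z : Fin n → ℝ) : dt (-x) z = -dt x z := by
  rw [← neg_one_smul ℝ x, dsmul]
  ring

theorem sk12 {R : T4 n} (hR : IsAC R) (x y z : Fin n → ℝ) : RV R x y z = -RV R y x z := by
  refine dext fun w => ?_
  rw [dneg, dRV, dRV, Hsc.R4_12 hR]

theorem bia {R : T4 n} (hR : IsAC R) (x y z : Fin n → ℝ) :
    RV R x y z + RV R y z x + RV R z x y = 0 := by
  have h : ∀ w : Fin n → ℝ, dt (0 : Fin n → ℝ) w = 0 := by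
    intro w
    unfold dt
    simp
  refine dext fun w => ?_
  rw [dadd, dadd, dRV, dRV, dRV, Hsc.R4_bi hR, h]

theorem self0 {R : T4 n} (hR : IsAC R) (x z : Fin n → ℝ) : RV R x x z = 0 := by
  have h := sk12 hR x x z
  exact self_eq_neg.1 h

/-- the form is symmetric -/
theorem jsym {R : T4 n} (hR : IsAC R) (u z w : Fin n → ℝ) :
    dt (RV R z u u) w = dt (RV R w u u) z := by
  rw [dRV, dRV, Hsc.R4_pr hR, Hsc.R4_12 hR, Hsc.R4_34 hR]
  ring

section alg

variable {R : T4 n} {x z : Fin n → ℝ}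

theorem b1 (hR : IsAC R) (h0 : ∀ w, RV R x z w = 0) (v : Fin n → ℝ) :
    RV R v x z = RV R v z x := by
  have h := bia hR v x z
  rw [h0, add_zero, sk12 hR z v x] at h
  have h2 := eq_neg_of_add_eq_zero_left h
  rw [neg_neg] at h2
  exact h2

theorem b2 (hR : IsAC R) (h0 : ∀ w, RV R x z w = 0) (v w : Fin n → ℝ) :
    dt (RV R v x z) w = dt (RV R w x z) v := by
  rw [b1 hR h0 w, dRV, dRV, Hsc.R4_pr hR, Hsc.R4_12 hR, Hsc.R4_34 hR]
  ring

theorem b3 (hR : IsAC R) (hS : SymR R) (h0 : ∀ w, RV R x z w = 0) (v w : Fin n → ℝ) :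
    RV R (RV R v x z) z w = RV R (RV R v z z) x w := by
  have h := hS z v x z w
  rw [h0, h0, zero3, add_zero, sk12 hR z v x, sk12 hR z v z, neg1, neg2, ← b1 hR h0 v,
    sk12 hR x, neg_neg] at h
  have h2 := eq_neg_of_add_eq_zero_left h.symm
  exact neg_injective h2

theorem b4 (hR : IsAC R) (hS : SymR R) (h0 : ∀ w, RV R x z w = 0) (v : Fin n → ℝ) :
    RV R (RV R v x z) x z = RV R (RV R v z z) x x := by
  rw [b1 hR h0 (RV R v x z), b3 hR hS h0]

theorem b5 (hR : IsAC R) (hS : SymR R) (h0 : ∀ w, RV R x z w = 0) (v : Fin n → ℝ) :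
    RV R (RV R v x z) z z = RV R (RV R v z z) x z := b3 hR hS h0 v z

theorem h0sw (hR : IsAC R) (h0 : ∀ w, RV R x z w = 0) (w : Fin n → ℝ) : RV R z x w = 0 := by
  rw [sk12 hR, h0, neg_zero]

theorem b4' (hR : IsAC R) (hS : SymR R) (h0 : ∀ w, RV R x z w = 0) (v : Fin n → ℝ) :
    RV R (RV R v x z) x z = RV R (RV R v x x) z z := by
  have h := b4 hR hS (h0sw hR h0) v
  rw [← b1 hR h0 v, ← b1 hR h0] at h
  exact h

theorem b5' (hR : IsAC R) (hS : SymR R) (h0 : ∀ w, RV R x z w = 0) (v : Fin n → ℝ) :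
    RV R (RV R v x z) x x = RV R (RV R v x x) x z := by
  have h := b5 hR hS (h0sw hR h0) v
  rw [← b1 hR h0 v, ← b1 hR h0 (RV R v x x)] at h
  exact h

theorem jexp (hR : IsAC R) (h0 : ∀ w, RV R x z w = 0) (s t : ℝ) (v : Fin n → ℝ) :
    RV R v (s • x + t • z) (s • x + t • z) =
      (s * s) • RV R v x x + (2 * s * t) • RV R v x z + (t * t) • RV R v z z := by
  simp only [add2, add3, smul2, smul3, ← b1 hR h0 v, smul_add, smul_smul]
  have h1 : (2 * s * t) • RV R v x z = (s * t) • RV R v x z + (t * s) • RV R v x z := by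
    rw [← add_smul]
    congr 1
    ring
  rw [h1]
  abel

end alg

theorem cs {R : T4 n} (hR : IsAC R) (hC : COp R 0) (x y z t : Fin n → ℝ) :
    0 ≤ R4 R x y y x ∧ R4 R x y z t ^ 2 ≤ R4 R x y y x * R4 R z t t z := by
  have hQ : ∀ x y z t : Fin n → ℝ,
      Cs.Q R (fun a b => x a * y b) (fun a b => z a * t b) = - R4 R x y z t := by
    intro x y z t
    rw [Cs.Q_eq]
    unfold R4
    congr 1
    refine Finset.sum_congr rfl fun a _ => Finset.sum_congr rfl fun b _ =>
      Finset.sum_congr rfl fun c _ => Finset.sum_congr rfl fun d _ => ?_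
    ring
  have h1 := Cs.Q_nonneg hR.a12 hR.pr (Hka.nn hC) (fun a b => x a * y b)
  have h2 := Cs.Q_cs hR.a12 hR.pr (Hka.nn hC) (fun a b => x a * y b) (fun a b => z a * t b)
  rw [hQ, ← Hsc.R4_34 hR] at h1
  rw [hQ, hQ, hQ, ← Hsc.R4_34 hR x y y x, ← Hsc.R4_34 hR z t t z, neg_sq] at h2
  exact ⟨h1, h2⟩

theorem flat {R : T4 n} (hR : IsAC R) (hC : COp R 0) {x y : Fin n → ℝ}
    (h : RV R y x x = 0) (z : Fin n → ℝ) : RV R y x z = 0 := by
  have hz : ∀ w : Fin n → ℝ, dt (0 : Fin n → ℝ) w = 0 := by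
    intro w
    unfold dt
    simp
  refine dext fun w => ?_
  have h1 := (cs hR hC y x z w).2
  have h2 : R4 R y x x y = 0 := by rw [← dRV, h, hz]
  rw [h2, zero_mul] at h1
  rw [hz, dRV]
  exact pow_eq_zero_iff (two_ne_zero) |>.1 (le_antisymm h1 (sq_nonneg _))

theorem exmax (f : (Fin n → ℝ) → ℝ) (hf : Continuous f) {e : Fin n → ℝ} (he : dt e e = 1) :
    ∃ w0 : Fin n → ℝ, dt w0 w0 = 1 ∧ ∀ w, dt w w = 1 → f w ≤ f w0 := by
  have hc : IsCompact {w : Fin n → ℝ | dt w w = 1} := by
    apply Metric.isCompact_of_isClosed_isBounded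
    · refine isClosed_eq ?_ continuous_const
      unfold dt
      exact continuous_finsetSum _ fun a _ => (continuous_apply a).mul (continuous_apply a)
    · refine (Metric.isBounded_closedBall (x := (0 : Fin n → ℝ)) (r := 1)).subset ?_
      intro w hw
      rw [mem_closedBall_zero_iff, pi_norm_le_iff_of_nonneg zero_le_one]
      intro i
      rw [Real.norm_eq_abs, abs_le_one_iff_mul_self_le_one]
      have hw' : dt w w = 1 := hw
      rw [← hw']
      exact Finset.single_le_sum (f := fun a => w a * w a) (fun a _ => mul_self_nonneg (w a))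
        (Finset.mem_univ i)
  obtain ⟨w0, h1, h2⟩ := hc.exists_isMaxOn ⟨e, he⟩ hf.continuousOn
  exact ⟨w0, h1, fun w hw => h2 hw⟩

/-- the quadratic form is invariant under the symmetries -/
theorem ktr {R : T4 n} (hT : TrG R) {x y : Fin n → ℝ} (hx : dt x x = 1) (hy : dt y y = 1)
    (w : Fin n → ℝ) :
    ∃ w', dt w' w' = dt w w ∧ R4 R w' y y w' = R4 R w x x w := by
  by_cases hxy : dt x y = -1
  · have h1 : dt (x + y) (x + y) = 0 := by
      rw [dadd, dadd', dadd', dcomm y x, hx, hy, hxy]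
      norm_num
    have h2 : y = -x := eq_neg_of_add_eq_zero_right (dzero h1)
    refine ⟨w, rfl, ?_⟩
    rw [← dRV, ← dRV, h2, neg2, neg3, neg_neg]
  · obtain ⟨h, h1, h2, h3⟩ := hT x y hx hy hxy
    refine ⟨ac h w, Inf.dt_ac h1 w w, ?_⟩
    rw [← h3, Ufx.R4_ac, h2]

/-- the homogeneous bound -/
theorem bd_all {R : T4 n} {M : ℝ} (h : ∀ z w : Fin n → ℝ, dt z z = 1 → dt w w = 1 →
    R4 R w z z w ≤ M) (z w : Fin n → ℝ) : dt (RV R w z z) w ≤ M * (dt z z * dt w w) := by
  have hz0 : ∀ w : Fin n → ℝ, dt (0 : Fin n → ℝ) w = 0 := by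
    intro w
    unfold dt
    simp
  by_cases hz : z = 0
  · subst hz
    simp only [zero3, hz0, mul_zero, zero_mul, le_refl]
  by_cases hw : w = 0
  · subst hw
    simp only [zero1, hz0, mul_zero, le_refl]
  obtain ⟨c, hc, h1⟩ := norml hz
  obtain ⟨c', hc', h1'⟩ := norml hw
  have h2 := h _ _ h1 h1'
  rw [← dRV, smul1, smul2, smul3, dsmul, dsmul, dsmul, dsmul'] at h2
  rw [dsmul, dsmul'] at h1 h1'
  have h3 : 0 < c * c := mul_pos hc hc
  have h3' : 0 < c' * c' := mul_pos hc' hc'
  have h4 : (c * c * (c' * c')) * dt (RV R w z z) w ≤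
      (c * c * (c' * c')) * (M * (dt z z * dt w w)) := by
    calc (c * c * (c' * c')) * dt (RV R w z z) w =
        c' * (c * (c * (c' * dt (RV R w z z) w))) := by ring
      _ ≤ M := h2
      _ = M * ((c * (c * dt z z)) * (c' * (c' * dt w w))) := by rw [h1, h1', one_mul, mul_one]
      _ = (c * c * (c' * c')) * (M * (dt z z * dt w w)) := by ring
  exact le_of_mul_le_mul_left h4 (mul_pos h3 h3')

/-- Lagrange multiplier -/
theorem eig {R : T4 n} (hR : IsAC R) {M : ℝ} {u w : Fin n → ℝ}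
    (h : ∀ w, dt (RV R w u u) w ≤ M * dt w w) (hw : dt (RV R w u u) w = M * dt w w) :
    RV R w u u = M • w := by
  refine dext fun z => ?_
  have h2 : dt (RV R w u u) z - M * dt w z = 0 := by
    refine lin_zero (c := dt (RV R z u u) z - M * dt z z) fun t => ?_
    have h3 := h (w + t • z)
    rw [add1, smul1, dadd, dadd', dadd', dsmul, dsmul', dsmul, dsmul', dadd, dadd', dadd',
      dsmul, dsmul', dsmul, dsmul', jsym hR u z w, dcomm z w, hw] at h3
    nlinarith [h3]
  rw [dsmul]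
  linarith

/-- the top eigenspace of `u` is killed by the orthogonal vectors commuting with `u` -/
theorem killed {R : T4 n} (hR : IsAC R) (hS : SymR R) {M : ℝ} (hM : M ≠ 0)
    (h : ∀ z w : Fin n → ℝ, dt (RV R w z z) w ≤ M * (dt z z * dt w w)) {u v w : Fin n → ℝ}
    (hu : dt u u = 1) (hv : dt v v = 1) (huv : dt u v = 0) (h0 : ∀ w, RV R u v w = 0)
    (hw : RV R w u u = M • w) : RV R w u v = 0 ∧ RV R w v v = 0 := by
  have hb : ∀ w, RV R w u u = M • w → dt (RV R w u v) w = 0 := by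
    intro w hw
    refine lin_zero (c := dt (RV R w v v) w - M * dt w w) fun t => ?_
    have h3 := h ((1 : ℝ) • u + t • v) w
    rw [jexp hR h0 1 t w, hw] at h3
    simp only [dadd, dadd', dsmul, dsmul', dcomm v u, hu, hv, huv] at h3
    nlinarith [h3]
  have hE : RV R (RV R w u v) u u = M • RV R w u v := by
    rw [b5' hR hS h0, hw, smul1]
  have h1 := hb w hw
  have h2 := hb _ hE
  have h3 : RV R (w + RV R w u v) u u = M • (w + RV R w u v) := by
    rw [add1, hw, hE, smul_add]
  have h4 := hb _ h3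
  rw [add1, dadd, dadd', dadd', h1, h2, b2 hR h0 (RV R w u v) w] at h4
  have h5 : RV R w u v = 0 := dzero (by linarith)
  refine ⟨h5, ?_⟩
  have h6 := b4' hR hS h0 w
  rw [h5, zero1, hw, smul1] at h6
  rcases smul_eq_zero.1 h6.symm with h7 | h7
  · exact absurd h7 hM
  · exact h7

/-- the Jacobi operator -/
def JL (R : T4 n) (e : Fin n → ℝ) : Module.End ℝ (Fin n → ℝ) where
  toFun v := RV R v e e
  map_add' u v := add1 R u v e e
  map_smul' c v := smul1 R c v e e

theorem R4_cont (R : T4 n) (e : Fin n → ℝ) : Continuous fun w : Fin n → ℝ => R4 R w e e w := by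
  unfold R4
  fun_prop

end Rk1b

open Tl1 Rk1b in
theorem s_rk1 : S_RK1 := by
  intro n R hn hR hC hS hT hscl x y hx hxy
  by_contra hy
  obtain ⟨c0, hc0, hx1⟩ := norml hx
  obtain ⟨e, he⟩ : ∃ e, e = c0 • x := ⟨_, rfl⟩
  rw [← he] at hx1
  obtain ⟨w0, hw0, hmax⟩ := Rk1b.exmax (fun w => R4 R w e e w) (R4_cont R e) hx1
  obtain ⟨M, hMdef⟩ : ∃ M, M = R4 R w0 e e w0 := ⟨_, rfl⟩
  have hbd1 : ∀ z w : Fin n → ℝ, dt z z = 1 → dt w w = 1 → R4 R w z z w ≤ M := by
    intro z w hz hw
    obtain ⟨w', h1, h2⟩ := ktr hT hz hx1 w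
    rw [← h2, hMdef]
    exact hmax w' (by rw [h1, hw])
  have hbd := Rk1b.bd_all hbd1
  have hat : ∀ z, dt z z = 1 → ∃ w, dt w w = 1 ∧ R4 R w z z w = M := by
    intro z hz
    obtain ⟨w', h1, h2⟩ := ktr hT hx1 hz w0
    exact ⟨w', by rw [h1, hw0], by rw [h2, hMdef]⟩
  have hM : 0 < M := by
    by_contra h5
    have h6 : ∀ a b : Fin n, - R a b a b ≤ 0 := by
      intro a b
      have h7 := hbd (Pi.single b 1) (Pi.single a 1)
      rw [dRV, Hsc.R4_single, hR.a34] at h7
      have h8 : 0 ≤ dt (Pi.single b 1 : Fin n → ℝ) (Pi.single b 1) *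
        dt (Pi.single a 1 : Fin n → ℝ) (Pi.single a 1) := mul_nonneg (dnonneg _) (dnonneg _)
      have h9 := mul_nonpos_of_nonpos_of_nonneg (not_lt.1 h5) h8
      linarith
    have h7 : scl R ≤ 0 := by
      unfold scl
      rw [← Finset.sum_neg_distrib]
      refine Finset.sum_nonpos fun a _ => ?_
      rw [← Finset.sum_neg_distrib]
      exact Finset.sum_nonpos fun b _ => h6 a b
    rw [hscl] at h7
    norm_num at h7
  -- orthonormal vectors which span a flat
  have hey : RV R y e e = 0 := by rw [he, smul2, smul3, hxy, smul_zero, smul_zero]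
  have hz0 : y + (-(dt e y)) • e ≠ 0 := by
    intro h
    apply hy
    refine ⟨dt e y * c0, ?_⟩
    have h1 := eq_neg_of_add_eq_zero_left h
    rw [neg_smul, neg_neg] at h1
    rw [mul_smul, ← he]
    exact h1
  obtain ⟨c1, hc1, hf1⟩ := norml hz0
  obtain ⟨f, hf⟩ : ∃ f, f = c1 • (y + (-(dt e y)) • e) := ⟨_, rfl⟩
  rw [← hf] at hf1
  have hef : dt e f = 0 := by
    rw [hf, dsmul', dadd', dsmul', hx1]
    ring
  have hfe : dt f e = 0 := by rw [dcomm, hef]
  have hJf : RV R f e e = 0 := by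
    rw [hf, smul1, add1, smul1, hey, self0 hR]
    simp
  have hRfe : ∀ z, RV R f e z = 0 := flat hR hC hJf
  have hRef : ∀ z, RV R e f z = 0 := fun z => by rw [sk12 hR, hRfe, neg_zero]
  have hfin : {μ : ℝ | Module.End.HasEigenvalue (JL R e) μ}.Finite :=
    Module.End.finite_hasEigenvalue _
  refine absurd hfin (Set.infinite_of_injOn_mapsTo (f := fun c : ℝ => M * c ^ 2)
    (s := Set.Icc (0 : ℝ) 1) ?_ ?_ (Set.Icc_infinite zero_lt_one))
  · intro c hc c' hc' h
    have h1 : c ^ 2 = c' ^ 2 := by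
      have h2 : M * c ^ 2 = M * c' ^ 2 := h
      exact mul_left_cancel₀ hM.ne' h2
    exact (pow_left_inj₀ hc.1 hc'.1 two_ne_zero).1 h1
  · intro c hc
    obtain ⟨s, hs⟩ : ∃ s : ℝ, c * c + s * s = 1 := by
      refine ⟨Real.sqrt (1 - c * c), ?_⟩
      rw [Real.mul_self_sqrt (by nlinarith [hc.1, hc.2])]
      ring
    obtain ⟨u, hu⟩ : ∃ u, u = c • e + s • f := ⟨_, rfl⟩
    obtain ⟨v, hv⟩ : ∃ v, v = (-s) • e + c • f := ⟨_, rfl⟩
    have huu : dt u u = 1 := by
      rw [hu, dadd, dadd', dadd', dsmul, dsmul, dsmul', dsmul', dsmul, dsmul, dsmul', dsmul', hx1,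
        hf1, hef, hfe]
      linarith
    have hvv : dt v v = 1 := by
      rw [hv, dadd, dadd', dadd', dsmul, dsmul, dsmul', dsmul', dsmul, dsmul, dsmul', dsmul', hx1,
        hf1, hef, hfe]
      linarith
    have huv : dt u v = 0 := by
      rw [hu, hv, dadd, dadd', dadd', dsmul, dsmul, dsmul', dsmul', dsmul, dsmul, dsmul', dsmul',
        hx1, hf1, hef, hfe]
      ring
    have hRuv : ∀ z, RV R u v z = 0 := by
      intro z
      rw [hu, hv]
      simp only [add1, add2, smul1, smul2, hRef, hRfe, self0 hR, smul_zero, add_zero]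
    obtain ⟨w, hw1, hw2⟩ := hat u huu
    have hE : RV R w u u = M • w := by
      refine Rk1b.eig hR (fun w => ?_) (by rw [dRV, hw2, hw1, mul_one])
      have h1 := hbd u w
      rw [huu, one_mul] at h1
      exact h1
    obtain ⟨hk1, hk2⟩ := Rk1b.killed hR hS hM.ne' hbd huu hvv huv hRuv hE
    have hex : e = c • u + (-s) • v := by
      rw [hu, hv, smul_add, smul_add, smul_smul, smul_smul, smul_smul, smul_smul]
      have h1 : (c * c) • e + (c * s) • f + ((-s * -s) • e + (-s * c) • f) =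
          (c * c + s * s) • e + (c * s + -s * c) • f := by
        rw [add_smul, add_smul]
        have h2 : -s * -s = s * s := by ring
        rw [h2]
        abel
      rw [h1, hs, one_smul]
      have h3 : c * s + -s * c = 0 := by ring
      rw [h3, zero_smul, add_zero]
    have h3 : JL R e w = (M * c ^ 2) • w := by
      show RV R w e e = (M * c ^ 2) • w
      rw [hex, jexp hR hRuv c (-s) w, hk1, hk2, hE, smul_zero, smul_zero, add_zero, add_zero,
        smul_smul]
      congr 1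
      ring
    have hw0' : w ≠ 0 := by
      intro h
      rw [h] at hw1
      unfold dt at hw1
      simp at hw1
    exact Module.End.hasEigenvalue_of_hasEigenvector
      (Module.End.hasEigenvector_iff.2 ⟨Module.End.mem_eigenspace_iff.2 h3, hw0'⟩)

end Pool.Agent.H781.KP
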