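import Pool.Agent.H781.KP.K
import Pool.Agent.H781.KP.Kax

/-!
Project KK: change of basis and restriction of invariant forms (`S_RST`), second version.
-/

set_option autoImplicit false
set_option synthInstance.maxHeartbeats 400000
set_option maxHeartbeats 4000000
set_option linter.unusedSectionVars false

open MeasureTheory Filter
open scoped Topology ContDiff

noncomputable section

namespace Pool.Agent.H781.KP

open Pool.Agent.H781.NG Pool.Agent.H781.CM Pool.Agent.H781.H6

namespace Rstb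

/-- exchange of sums -/
theorem sum4v {ι κ E : Type*} [Fintype ι] [Fintype κ] [AddCommMonoid E] (f : ι → ι → κ → κ → E) :
    ∑ a, ∑ e, ∑ i, ∑ j, f a e i j = ∑ i, ∑ j, ∑ a, ∑ e, f a e i j := by
  calc ∑ a, ∑ e, ∑ i, ∑ j, f a e i j = ∑ a, ∑ i, ∑ e, ∑ j, f a e i j :=
        Finset.sum_congr rfl fun a _ => Finset.sum_comm
    _ = ∑ i, ∑ a, ∑ e, ∑ j, f a e i j := Finset.sum_comm
    _ = ∑ i, ∑ a, ∑ j, ∑ e, f a e i j :=
        Finset.sum_congr rfl fun i _ => Finset.sum_congr rfl fun a _ => Finset.sum_comm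
    _ = ∑ i, ∑ j, ∑ a, ∑ e, f a e i j := Finset.sum_congr rfl fun i _ => Finset.sum_comm

/-- the columns of a square orthogonal matrix -/
theorem col {m : ℕ} {b : Fin m → Fin m → ℝ} (hb : ON b) (s d : Fin m) :
    ∑ i, b i s * b i d = if s = d then 1 else 0 := by
  have h1 : (Matrix.of b) * (Matrix.of b).transpose = 1 := by
    ext i j
    rw [Matrix.mul_apply, Matrix.one_apply]
    exact hb i j
  have h2 : (Matrix.of b).transpose * (Matrix.of b) = 1 := mul_eq_one_comm.1 h1
  have h3 := congrFun (congrFun h2 s) d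
  rw [Matrix.mul_apply, Matrix.one_apply] at h3
  exact h3

/-- creation operators and `τ` -/
theorem cr_tau {m : ℕ} {b : Fin m → Fin m → ℝ} {τ : Fk m ℝ →ₗ[ℝ] Fk m ℝ} (ht : IsTau b τ)
    (t : Fin m) (x : Fk m ℝ) : NG.cr t (τ x) = ∑ a, b a t • τ (NG.cr a x) := by
  have h1 : ∀ a, b a t • τ (NG.cr a x) = ∑ s, (b a t * b a s) • NG.cr s (τ x) := by
    intro a
    rw [← ht.cr, Finset.smul_sum]
    exact Finset.sum_congr rfl fun s _ => by rw [smul_smul]
  rw [Finset.sum_congr rfl fun a _ => h1 a, Finset.sum_comm]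
  have h2 : ∀ s, ∑ a, (b a t * b a s) • NG.cr s (τ x) = if t = s then NG.cr s (τ x) else 0 := by
    intro s
    rw [← Finset.sum_smul, col ht.on t s]
    split_ifs
    · rw [one_smul]
    · rw [zero_smul]
  rw [Finset.sum_congr rfl fun s _ => h2 s, Finset.sum_ite_eq, if_pos (Finset.mem_univ t)]

/-- transfer of derivations -/
theorem tau_dX {m : ℕ} {b : Fin m → Fin m → ℝ} {τ : Fk m ℝ →ₗ[ℝ] Fk m ℝ} (ht : IsTau b τ)
    (X' Y : Fin m → Fin m → ℝ) (h : ∀ i a, X' i a = ∑ s, ∑ t, Y s t * b i s * b a t)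
    (v : Fk m ℝ) : τ (dX X' v) = dX Y (τ v) := by
  have h1 : dX Y (τ v) = ∑ s, ∑ t, ∑ i, ∑ a, (Y s t * b i s * b a t) • τ (NG.cr a (NG.an i v)) := by
    unfold dX
    refine Finset.sum_congr rfl fun s _ => Finset.sum_congr rfl fun t _ => ?_
    rw [ht.an, map_sum, Finset.smul_sum]
    refine Finset.sum_congr rfl fun i _ => ?_
    rw [map_smul, cr_tau ht, Finset.smul_sum, Finset.smul_sum]
    refine Finset.sum_congr rfl fun a _ => ?_
    rw [smul_smul, smul_smul]
  rw [h1, sum4v]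
  unfold dX
  rw [map_sum]
  refine Finset.sum_congr rfl fun i _ => ?_
  rw [map_sum]
  refine Finset.sum_congr rfl fun a _ => ?_
  rw [map_smul, h i a, Finset.sum_smul]
  exact Finset.sum_congr rfl fun s _ => Finset.sum_smul

/-- transfer of the curvature operator -/
theorem Xw_b {m : ℕ} (R : T4 m) (b : Fin m → Fin m → ℝ) (w' : Fin m → Fin m → ℝ) (i a : Fin m) :
    Xw (fun i j k l => R4 R (b i) (b j) (b k) (b l)) w' i a =
      ∑ s, ∑ t, Xw R (Kax.WW b w') s t * b i s * b a t := by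
  have h1 : ∀ s t, Xw R (Kax.WW b w') s t =
      ∑ p, ∑ q, w' p q * ∑ x, ∑ y, R x y s t * b p x * b q y := by
    intro s t
    unfold Xw
    exact Kax.WW_pair b w' fun x y => R x y s t
  have h2 : ∀ p q, R4 R (b p) (b q) (b i) (b a) =
      ∑ s, ∑ t, (∑ x, ∑ y, R x y s t * b p x * b q y) * b i s * b a t := by
    intro p q
    unfold R4
    rw [sum4v]
    refine Finset.sum_congr rfl fun s _ => Finset.sum_congr rfl fun t _ => ?_
    rw [Finset.sum_mul, Finset.sum_mul]
    refine Finset.sum_congr rfl fun x _ => ?_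
    rw [Finset.sum_mul, Finset.sum_mul]
  have h3 : Xw (fun i j k l => R4 R (b i) (b j) (b k) (b l)) w' i a =
      ∑ p, ∑ q, ∑ s, ∑ t, (∑ x, ∑ y, R x y s t * b p x * b q y) * b i s * b a t * w' p q := by
    unfold Xw
    refine Finset.sum_congr rfl fun p _ => Finset.sum_congr rfl fun q _ => ?_
    show R4 R (b p) (b q) (b i) (b a) * w' p q = _
    rw [h2 p q, Finset.sum_mul]
    refine Finset.sum_congr rfl fun s _ => ?_
    rw [Finset.sum_mul]
  rw [h3, sum4v]
  refine Finset.sum_congr rfl fun s _ => Finset.sum_congr rfl fun t _ => ?_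
  rw [h1 s t, Finset.sum_mul, Finset.sum_mul]
  refine Finset.sum_congr rfl fun p _ => ?_
  rw [Finset.sum_mul, Finset.sum_mul]
  refine Finset.sum_congr rfl fun q _ => ?_
  ring

/-- skewness in the last two arguments -/
theorem R4_a34 {m : ℕ} {R : T4 m} (hR : IsAC R) (x y z w : Fin m → ℝ) :
    R4 R x y z w = - R4 R x y w z := by
  unfold R4
  rw [← Finset.sum_neg_distrib]
  refine Finset.sum_congr rfl fun a _ => ?_
  rw [← Finset.sum_neg_distrib]
  refine Finset.sum_congr rfl fun b _ => ?_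
  rw [Finset.sum_comm, ← Finset.sum_neg_distrib]
  refine Finset.sum_congr rfl fun c _ => ?_
  rw [← Finset.sum_neg_distrib]
  refine Finset.sum_congr rfl fun d _ => ?_
  rw [hR.a34 a b d c]
  ring

/-! ### restriction to the last coordinates -/

section restr

variable {D r : ℕ}

theorem emb_apply (i : Fin r) : Fin.natAddEmb D i = Fin.natAdd D i := rfl

theorem mem_map_iff (i : Fin r) (S : Finset (Fin r)) :
    Fin.natAdd D i ∈ S.map (Fin.natAddEmb D) ↔ i ∈ S := by
  rw [← emb_apply, Finset.mem_map']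

theorem cast_notMem (i : Fin D) (S : Finset (Fin r)) :
    Fin.castAdd r i ∉ S.map (Fin.natAddEmb D) := by
  intro h
  obtain ⟨j, -, hj⟩ := Finset.mem_map.1 h
  have h1 := congrArg Fin.val hj
  rw [emb_apply, Fin.val_natAdd, Fin.val_castAdd] at h1
  have := i.isLt
  omega

theorem sg_map (i : Fin r) (S : Finset (Fin r)) :
    sg (Fin.natAdd D i) (S.map (Fin.natAddEmb D)) = sg i S := by
  unfold sg
  congr 1
  rw [Finset.filter_map, Finset.card_map]
  congr 1
  refine Finset.filter_congr fun j _ => ?_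
  show Fin.natAdd D j < Fin.natAdd D i ↔ j < i
  rw [Fin.lt_def, Fin.lt_def, Fin.val_natAdd, Fin.val_natAdd]
  omega

theorem rF_cr (a : Fin r) (x : Fk (D + r) ℝ) :
    rF (NG.cr (Fin.natAdd D a) x) = NG.cr a (rF x) := by
  funext S
  show NG.cr (Fin.natAdd D a) x (S.map (Fin.natAddEmb D)) = _
  rw [cr_apply, cr_apply, sg_map]
  by_cases h : a ∈ S
  · rw [if_pos ((mem_map_iff a S).2 h), if_pos h]
    show _ = _ * x ((S.erase a).map (Fin.natAddEmb D))
    rw [Finset.map_erase, emb_apply]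
  · rw [if_neg (fun h1 => h ((mem_map_iff a S).1 h1)), if_neg h]

theorem rF_an (a : Fin r) (x : Fk (D + r) ℝ) :
    rF (NG.an (Fin.natAdd D a) x) = NG.an a (rF x) := by
  funext S
  show NG.an (Fin.natAdd D a) x (S.map (Fin.natAddEmb D)) = _
  rw [an_apply, an_apply, sg_map]
  by_cases h : a ∈ S
  · rw [if_pos ((mem_map_iff a S).2 h), if_pos h]
  · rw [if_neg (fun h1 => h ((mem_map_iff a S).1 h1)), if_neg h]
    show _ = _ * x ((insert a S).map (Fin.natAddEmb D))
    rw [Finset.map_insert, emb_apply]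

theorem rF_cr_cast (a : Fin D) (x : Fk (D + r) ℝ) :
    rF (NG.cr (Fin.castAdd r a) x) = 0 := by
  funext S
  show NG.cr (Fin.castAdd r a) x (S.map (Fin.natAddEmb D)) = 0
  rw [cr_apply, if_neg (cast_notMem a S)]

/-- the restriction as a linear map -/
def rL : Fk (D + r) ℝ →ₗ[ℝ] Fk r ℝ where
  toFun := rF
  map_add' _ _ := rfl
  map_smul' _ _ := rfl

theorem rL_apply (u : Fk (D + r) ℝ) : rL u = rF u := rfl

/-- restriction of derivations -/
theorem rF_dX (X : Fin (D + r) → Fin (D + r) → ℝ) (X' : Fin r → Fin r → ℝ)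
    (h : ∀ i a, X (Fin.natAdd D i) (Fin.natAdd D a) = X' i a)
    (h0 : ∀ (i : Fin D) (a : Fin r), X (Fin.castAdd r i) (Fin.natAdd D a) = 0)
    (v : Fk (D + r) ℝ) : rF (dX X v) = dX X' (rF v) := by
  rw [← rL_apply]
  unfold dX
  rw [map_sum, Fin.sum_univ_add]
  have h1 : ∑ i : Fin D, rL (∑ a, X (Fin.castAdd r i) a • NG.cr a (NG.an (Fin.castAdd r i) v)) =
      0 := by
    refine Finset.sum_eq_zero fun i _ => ?_
    rw [map_sum, Fin.sum_univ_add, Finset.sum_eq_zero, Finset.sum_eq_zero, add_zero]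
    · intro a _
      rw [h0, zero_smul, map_zero]
    · intro a _
      rw [map_smul, rL_apply, rF_cr_cast, smul_zero]
  rw [h1, zero_add]
  refine Finset.sum_congr rfl fun i _ => ?_
  rw [map_sum, Fin.sum_univ_add, Finset.sum_eq_zero, zero_add]
  · refine Finset.sum_congr rfl fun a _ => ?_
    rw [h, map_smul, rL_apply, rF_cr, rF_an]
  · intro a _
    rw [map_smul, rL_apply, rF_cr_cast, smul_zero]

/-- extension of a matrix by zero -/
def ext0 (w : Fin r → Fin r → ℝ) : Fin (D + r) → Fin (D + r) → ℝ :=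
  fun a b => Fin.addCases (motive := fun _ => ℝ) (fun _ => 0)
    (fun i => Fin.addCases (motive := fun _ => ℝ) (fun _ => 0) (fun j => w i j) b) a

theorem ext0_c (w : Fin r → Fin r → ℝ) (i : Fin D) (b : Fin (D + r)) :
    ext0 w (Fin.castAdd r i) b = 0 := by
  unfold ext0
  rw [Fin.addCases_left]

theorem ext0_nc (w : Fin r → Fin r → ℝ) (i : Fin r) (j : Fin D) :
    ext0 w (Fin.natAdd D i) (Fin.castAdd r j) = 0 := by
  unfold ext0
  rw [Fin.addCases_right, Fin.addCases_left]

theorem ext0_nn (w : Fin r → Fin r → ℝ) (i j : Fin r) :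
    ext0 w (Fin.natAdd D i) (Fin.natAdd D j) = w i j := by
  unfold ext0
  rw [Fin.addCases_right, Fin.addCases_right]

theorem ext0_sk {w : Fin r → Fin r → ℝ} (hw : Sk w) : Sk (ext0 (D := D) w) := by
  intro a b
  refine Fin.addCases (motive := fun a => ext0 w a b = - ext0 w b a) (fun i => ?_) (fun i => ?_) a
  · rw [ext0_c]
    refine Fin.addCases (motive := fun b => (0 : ℝ) = - ext0 w b (Fin.castAdd r i)) (fun j => ?_)
      (fun j => ?_) b
    · rw [ext0_c, neg_zero]
    · rw [ext0_nc, neg_zero]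
  · refine Fin.addCases (motive := fun b => ext0 w (Fin.natAdd D i) b =
      - ext0 w b (Fin.natAdd D i)) (fun j => ?_) (fun j => ?_) b
    · rw [ext0_c, ext0_nc, neg_zero]
    · rw [ext0_nn, ext0_nn]
      exact hw i j

theorem Xw_ext0 (R : T4 (D + r)) (w : Fin r → Fin r → ℝ) (c d : Fin (D + r)) :
    Xw R (ext0 w) c d = ∑ a, ∑ b, R (Fin.natAdd D a) (Fin.natAdd D b) c d * w a b := by
  unfold Xw
  rw [Fin.sum_univ_add, Finset.sum_eq_zero, zero_add]
  · refine Finset.sum_congr rfl fun a _ => ?_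
    rw [Fin.sum_univ_add, Finset.sum_eq_zero, zero_add]
    · refine Finset.sum_congr rfl fun b _ => ?_
      rw [ext0_nn]
    · intro b _
      rw [ext0_nc, mul_zero]
  · intro a _
    refine Finset.sum_eq_zero fun b _ => ?_
    rw [ext0_c, mul_zero]

/-- restriction of invariant forms -/
theorem inv_rF (R : T4 (D + r)) (h34 : ∀ a b c d, R a b c d = - R a b d c) (hL : HL R)
    (v : Fk (D + r) ℝ) (hv : InvF R v) : InvF (Rf R) (rF v) := by
  intro w hw
  have h1 := hv (ext0 w) (ext0_sk hw)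
  have h2 : rF (dX (Xw R (ext0 w)) v) = dX (Xw (Rf R) w) (rF v) := by
    refine rF_dX _ _ (fun i a => ?_) (fun i a => ?_) v
    · rw [Xw_ext0]
      rfl
    · rw [Xw_ext0]
      refine Finset.sum_eq_zero fun p _ => Finset.sum_eq_zero fun q _ => ?_
      have h3 : R (Fin.natAdd D p) (Fin.natAdd D q) (Fin.natAdd D a) (Fin.castAdd r i) = 0 := by
        refine hL.2.2.2 _ _ _ _ ?_ ?_ ?_ ?_
        · rw [Fin.val_natAdd]
          omega
        · rw [Fin.val_natAdd]
          omega
        · rw [Fin.val_natAdd]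
          omega
        · rw [Fin.val_castAdd]
          exact i.isLt
      rw [h34, h3, neg_zero, zero_mul]
  rw [← h2, h1]
  rfl

theorem deg_rF (p : ℕ) (v : Fk (D + r) ℝ) (hv : Deg p v) : Deg p (rF v) := by
  intro S hS
  show v (S.map (Fin.natAddEmb D)) = 0
  refine hv _ ?_
  rw [Finset.card_map]
  exact hS

end restr

end Rstb

namespace Rstb

/-- the inverse of `τ` -/
theorem inverse {m : ℕ} {b : Fin m → Fin m → ℝ} {τ : Fk m ℝ →ₗ[ℝ] Fk m ℝ} (ht : IsTau b τ) :
    Function.Injective τ ∧ ∃ T : Fk m ℝ →ₗ[ℝ] Fk m ℝ, Function.Injective T ∧ ∀ u, τ (T u) = u := by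
  have hinj : Function.Injective τ := by
    intro u v huv
    have h1 : ip (u - v) (u - v) = 0 := by
      rw [← ht.ip, map_sub, huv, sub_self, ip_zero_left]
    unfold NG.ip at h1
    rw [Finset.sum_eq_zero_iff_of_nonneg fun S _ => mul_self_nonneg _] at h1
    funext S
    exact sub_eq_zero.1 (mul_self_eq_zero.1 (h1 S (Finset.mem_univ S)))
  refine ⟨hinj, ?_⟩
  have hsurj : Function.Surjective τ := LinearMap.injective_iff_surjective.1 hinj
  obtain ⟨T, hT⟩ := LinearMap.exists_rightInverse_of_surjective τ (LinearMap.range_eq_top.2 hsurj)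
  have hTT : ∀ u, τ (T u) = u := fun u => by
    have := congrArg (fun f => f u) hT
    exact this
  refine ⟨T, ?_, hTT⟩
  intro u v huv
  rw [← hTT u, ← hTT v, huv]

/-- the square case -/
theorem main {m : ℕ} (h : S_TAU) (R : T4 m) (b : Fin m → Fin m → ℝ) (hb : ON b) :
    ∃ T : Fk m ℝ →ₗ[ℝ] Fk m ℝ, Function.Injective T ∧ (∀ p u, Deg p u → Deg p (T u)) ∧
    ∀ u, InvF R u → InvF (fun i j k l => R4 R (b i) (b j) (b k) (b l)) (T u) := by
  obtain ⟨τ, ht⟩ := h m m b hb
  obtain ⟨hinj, T, hTi, hTT⟩ := inverse ht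
  refine ⟨T, hTi, ?_, ?_⟩
  · intro p u hu
    rw [← ht.deg, hTT]
    exact hu
  · intro u hu w hw
    apply hinj
    rw [map_zero, tau_dX ht _ (Xw R (Kax.WW b w)) (fun i a => Xw_b R b w i a), hTT]
    exact hu _ fun a e => Kax.WW_skew b hw a e

end Rstb

open Rstb in
theorem s_rst (h : S_TAU) : S_RST := by
  intro n R hR D r e
  subst e
  intro b hb hL
  obtain ⟨T, hTi, hdeg, hinv⟩ := Rstb.main h R b hb
  have h34 : ∀ x y z w : Fin (D + r), (fun i j k l => R4 R (b i) (b j) (b k) (b l)) x y z w =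
      - (fun i j k l => R4 R (b i) (b j) (b k) (b l)) x y w z := fun x y z w => R4_a34 hR _ _ _ _
  exact ⟨T, hTi, hdeg, hinv, fun p u hu => deg_rF p (T u) (hdeg p u hu),
    fun u hu => inv_rF _ h34 hL (T u) (hinv u hu)⟩

end Pool.Agent.H781.KP
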