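import Pool.Agent.H781.KP.K

/-!
Project KP, structure theorem: multiplication of the tensor by a constant (helper205).
-/

set_option autoImplicit false
set_option synthInstance.maxHeartbeats 400000
set_option maxHeartbeats 4000000
set_option linter.unusedSectionVars false

open MeasureTheory Filter
open scoped Topology ContDiff

noncomputable section

namespace Pool.Agent.H781.KP

open Pool.Agent.H781.NG Pool.Agent.H781.CM Pool.Agent.H781.H6

namespace Sca

theorem RV_div {n : ℕ} (R : T4 n) (c : ℝ) (x y z : Fin n → ℝ) :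
    RV (fun i j k l => R i j k l / c) x y z = c⁻¹ • RV R x y z := by
  funext d
  simp only [RV, Pi.smul_apply, smul_eq_mul, Finset.mul_sum]
  refine Finset.sum_congr rfl fun a _ => Finset.sum_congr rfl fun b _ =>
    Finset.sum_congr rfl fun e _ => ?_
  ring

theorem RV_s1 {n : ℕ} (R : T4 n) (s : ℝ) (x y z : Fin n → ℝ) :
    RV R (s • x) y z = s • RV R x y z := by
  funext d
  simp only [RV, Pi.smul_apply, smul_eq_mul, Finset.mul_sum]
  refine Finset.sum_congr rfl fun a _ => Finset.sum_congr rfl fun b _ =>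
    Finset.sum_congr rfl fun e _ => ?_
  ring

theorem RV_s2 {n : ℕ} (R : T4 n) (s : ℝ) (x y z : Fin n → ℝ) :
    RV R x (s • y) z = s • RV R x y z := by
  funext d
  simp only [RV, Pi.smul_apply, smul_eq_mul, Finset.mul_sum]
  refine Finset.sum_congr rfl fun a _ => Finset.sum_congr rfl fun b _ =>
    Finset.sum_congr rfl fun e _ => ?_
  ring

theorem RV_s3 {n : ℕ} (R : T4 n) (s : ℝ) (x y z : Fin n → ℝ) :
    RV R x y (s • z) = s • RV R x y z := by
  funext d
  simp only [RV, Pi.smul_apply, smul_eq_mul, Finset.mul_sum]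
  refine Finset.sum_congr rfl fun a _ => Finset.sum_congr rfl fun b _ =>
    Finset.sum_congr rfl fun e _ => ?_
  ring

theorem key {n : ℕ} (R : T4 n) (c : ℝ) (hc : 0 < c) (x y z w : Fin n → ℝ) (l : ℝ) :
    RV (fun i j k l => R i j k l / c) x y z = l • w ↔ RV R x y z = (l * c) • w := by
  rw [RV_div]
  constructor
  · intro h
    have h1 := congrArg (fun v => c • v) h
    simp only [smul_smul, mul_inv_cancel₀ hc.ne', one_smul] at h1
    rw [h1, mul_comm]
  · intro h
    rw [h, smul_smul]
    congr 1
    field_simp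

theorem isac {n : ℕ} (R : T4 n) (c : ℝ) (h : IsAC R) : IsAC (fun i j k l => R i j k l / c) where
  a12 := fun i j k l => by
    show R i j k l / c = - (R j i k l / c)
    rw [h.a12 i j k l, neg_div]
  a34 := fun i j k l => by
    show R i j k l / c = - (R i j l k / c)
    rw [h.a34 i j k l, neg_div]
  pr := fun i j k l => by
    show R i j k l / c = R k l i j / c
    rw [h.pr i j k l]
  bi := fun i j k l => by
    show R i j k l / c + R j k i l / c + R k i j l / c = 0
    rw [← add_div, ← add_div, h.bi, zero_div]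

theorem sym {n : ℕ} (R : T4 n) (c : ℝ) (h : SymR R) : SymR (fun i j k l => R i j k l / c) := by
  intro x y u v w
  simp only [RV_div, RV_s1, RV_s2, RV_s3]
  rw [h x y u v w, smul_add, smul_add, smul_add, smul_add]

theorem eg {n : ℕ} (R : T4 n) (c : ℝ) (hc : 0 < c) (l : ℝ) (x : Fin n → ℝ) :
    Eg (fun i j k l => R i j k l / c) l x = Eg R (l * c) x := by
  ext v
  show dt v x = 0 ∧ RV (fun i j k l => R i j k l / c) v x x = l • v ↔
    dt v x = 0 ∧ RV R v x x = (l * c) • v
  rw [key R c hc]

theorem inv {n : ℕ} (R : T4 n) (c : ℝ) (u : Fk n ℝ) (h : InvF R u) :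
    InvF (fun i j k l => R i j k l / c) u := by
  intro w hw
  have h1 : Xw (fun i j k l => R i j k l / c) w = Xw R (fun a b => w a b / c) := by
    funext p q
    refine Finset.sum_congr rfl fun a _ => Finset.sum_congr rfl fun b _ => ?_
    ring
  rw [h1]
  apply h
  intro a b
  show w a b / c = - (w b a / c)
  rw [hw a b, neg_div]

end Sca

open Sca in
theorem s_sca : S_SCA := by
  intro n R c D hc hKS hKD
  obtain ⟨hAC, hSym, hdec, hpair⟩ := hKS
  have e4 : (4 * 1 : ℝ) * c = 4 * c := by ring
  have e1 : (1 : ℝ) * c = c := one_mul c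
  refine ⟨⟨isac R c hAC, Sca.sym R c hSym, ?_, ?_⟩, ?_, fun u hu => Sca.inv R c u hu⟩
  · intro x hx v hv
    rw [eg R c hc, eg R c hc, e4, e1]
    exact hdec x hx v hv
  · intro x y hx hy hxy h
    rw [key R c hc, e4] at h
    obtain ⟨h1, h2⟩ := hpair x y hx hy hxy h
    refine ⟨?_, ?_⟩
    · rw [key R c hc, e4]
      exact h1
    · intro v hvx hvy
      obtain ⟨h3, h4⟩ := h2 v hvx hvy
      refine ⟨?_, ?_⟩
      · intro h5
        rw [key R c hc, e4] at h5
        obtain ⟨h6, h7⟩ := h3 h5
        refine ⟨?_, ?_⟩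
        · rw [RV_div, h6, smul_zero]
        · rw [key R c hc, e4]
          exact h7
      · intro h5
        rw [key R c hc, e1] at h5
        obtain ⟨h6, h7⟩ := h4 h5
        refine ⟨?_, ?_⟩
        · rw [key R c hc, e1]
          exact h6
        · rw [RV_div, RV_div, RV_s3, h7, smul_smul, smul_smul]
          congr 1
          field_simp
  · intro x hx
    rw [eg R c hc, e4]
    exact hKD x hx

end Pool.Agent.H781.KP
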