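import Pool.Agent.H781.KP.K
import Pool.Agent.H781.KP.Tex
import Pool.Agent.H781.KP.Ufx

/-!
Project KP, structure theorem (MP_4e0d62_gt): invariance under the values of the curvature tensor
(`S_SYM` from `S_TEX`, `S_HKA`; by helper999 for helper781).
-/

set_option autoImplicit false
set_option synthInstance.maxHeartbeats 400000
set_option maxHeartbeats 4000000
set_option linter.unusedSectionVars false

open MeasureTheory Filter
open scoped Topology ContDiff

noncomputable section

namespace Pool.Agent.H781.KP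

open Pool.Agent.H781.NG Pool.Agent.H781.CM Pool.Agent.H781.H6

namespace Sym

variable {n : ℕ}

/-- the derivative of a curve of matrices at the identity -/
theorem hd_of {X : Fin n → Fin n → ℝ} {g : ℝ → Fin n → Fin n → ℝ} {K : ℝ}
    (hK : ∀ s, |s| ≤ 1 → ∀ i a, |g s i a - I1 n i a - s * X i a| ≤ K * s ^ 2) (i a : Fin n) :
    g 0 i a = I1 n i a ∧ HasDerivAt (fun s => g s i a) (X i a) 0 := by
  have h0 : g 0 i a = I1 n i a := by
    have h := hK 0 (by simp) i a
    have e : K * (0 : ℝ) ^ 2 = 0 := by ring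
    rw [e, zero_mul, sub_zero] at h
    have h2 := abs_nonpos_iff.1 h
    linarith
  refine ⟨h0, ?_⟩
  have h1 : HasDerivAt (fun s => g s i a - s * X i a) 0 0 := by
    refine Tex.deriv_zero (C := K) (r := 1) one_pos 0 fun t ht => ?_
    have h := hK t ht i a
    rw [zero_add, h0, zero_mul, sub_zero]
    have e : g t i a - t * X i a - I1 n i a = g t i a - I1 n i a - t * X i a := by ring
    rw [e]
    exact h
  have h2 := h1.add ((hasDerivAt_id (0 : ℝ)).mul_const (X i a))
  have e1 : ((fun s => g s i a - s * X i a) + fun s : ℝ => id s * X i a) = fun s => g s i a := by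
    funext s
    simp
  rw [e1] at h2
  simpa using h2

/-- the infinitesimal invariance -/
theorem der {R : T4 n} {X : Fin n → Fin n → ℝ} {g : ℝ → Fin n → Fin n → ℝ} {K : ℝ}
    (hK : ∀ s, |s| ≤ 1 → ∀ i a, |g s i a - I1 n i a - s * X i a| ≤ K * s ^ 2)
    (hg : ∀ s, Rh R (g s) = R) (i j k l : Fin n) :
    ∑ e, (X i e * R e j k l + X j e * R i e k l + X k e * R i j e l + X l e * R i j k e) = 0 := by
  have h0 : ∀ i a, g 0 i a = I1 n i a := fun i a => (hd_of hK i a).1
  have hd : ∀ i a, HasDerivAt (fun s => g s i a) (X i a) 0 := fun i a => (hd_of hK i a).2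
  have hf : HasDerivAt (fun s => R4 R (g s i) (g s j) (g s k) (g s l))
      (∑ a, ∑ b, ∑ c, ∑ d, (R a b c d * X i a * I1 n j b * I1 n k c * I1 n l d +
        R a b c d * I1 n i a * X j b * I1 n k c * I1 n l d +
        R a b c d * I1 n i a * I1 n j b * X k c * I1 n l d +
        R a b c d * I1 n i a * I1 n j b * I1 n k c * X l d)) 0 := by
    unfold R4
    refine HasDerivAt.fun_sum fun a _ => HasDerivAt.fun_sum fun b _ => HasDerivAt.fun_sum fun c _ =>
      HasDerivAt.fun_sum fun d _ => ?_
    have h := ((((hd i a).const_mul (R a b c d)).mul (hd j b)).mul (hd k c)).mul (hd l d)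
    refine HasDerivAt.congr_deriv h ?_
    simp only [Pi.mul_apply, h0]
    ring
  have hc : (fun s => R4 R (g s i) (g s j) (g s k) (g s l)) = fun _ => R i j k l := by
    funext s
    exact congrFun (congrFun (congrFun (congrFun (hg s) i) j) k) l
  rw [hc] at hf
  have h := hf.unique (hasDerivAt_const (0 : ℝ) (R i j k l))
  have e1 : ∀ x : Fin n → ℝ, ∑ a, ∑ b, ∑ c, ∑ d, R a b c d * x a * I1 n j b * I1 n k c * I1 n l d =
      ∑ e, x e * R e j k l := by
    intro x
    refine Finset.sum_congr rfl fun a _ => ?_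
    unfold I1
    simp [mul_comm]
  have e2 : ∀ x : Fin n → ℝ, ∑ a, ∑ b, ∑ c, ∑ d, R a b c d * I1 n i a * x b * I1 n k c * I1 n l d =
      ∑ e, x e * R i e k l := by
    intro x
    rw [Finset.sum_comm]
    refine Finset.sum_congr rfl fun a _ => ?_
    unfold I1
    simp [mul_comm]
  have e3 : ∀ x : Fin n → ℝ, ∑ a, ∑ b, ∑ c, ∑ d, R a b c d * I1 n i a * I1 n j b * x c * I1 n l d =
      ∑ e, x e * R i j e l := by
    intro x
    have e : ∀ a, ∑ b, ∑ c, ∑ d, R a b c d * I1 n i a * I1 n j b * x c * I1 n l d =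
      ∑ c, ∑ b, ∑ d, R a b c d * I1 n i a * I1 n j b * x c * I1 n l d := fun a => Finset.sum_comm
    simp only [e]
    rw [Finset.sum_comm]
    refine Finset.sum_congr rfl fun a _ => ?_
    unfold I1
    simp [mul_comm]
  have e4 : ∀ x : Fin n → ℝ, ∑ a, ∑ b, ∑ c, ∑ d, R a b c d * I1 n i a * I1 n j b * I1 n k c * x d =
      ∑ e, x e * R i j k e := by
    intro x
    have e : ∀ a b, ∑ c, ∑ d, R a b c d * I1 n i a * I1 n j b * I1 n k c * x d =
      ∑ d, ∑ c, R a b c d * I1 n i a * I1 n j b * I1 n k c * x d := fun a b => Finset.sum_comm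
    simp only [e]
    have e' : ∀ a, ∑ b, ∑ d, ∑ c, R a b c d * I1 n i a * I1 n j b * I1 n k c * x d =
      ∑ d, ∑ b, ∑ c, R a b c d * I1 n i a * I1 n j b * I1 n k c * x d := fun a => Finset.sum_comm
    simp only [e']
    rw [Finset.sum_comm]
    refine Finset.sum_congr rfl fun a _ => ?_
    unfold I1
    simp [mul_comm]
  simp only [Finset.sum_add_distrib] at h ⊢
  rw [e1 (X i), e2 (X j), e3 (X k), e4 (X l)] at h
  exact h

/-- the endomorphism `R(x, y)` -/
def M (R : T4 n) (x y : Fin n → ℝ) (c d : Fin n) : ℝ := ∑ a, ∑ b, R a b c d * x a * y b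

theorem M_skew {R : T4 n} (hR : IsAC R) (x y : Fin n → ℝ) (c d : Fin n) :
    M R x y c d = - M R x y d c := by
  unfold M
  rw [← Finset.sum_neg_distrib]
  refine Finset.sum_congr rfl fun a _ => ?_
  rw [← Finset.sum_neg_distrib]
  refine Finset.sum_congr rfl fun b _ => ?_
  rw [hR.a34 a b c d]
  ring

theorem Xw_M {R : T4 n} (hR : IsAC R) (x y : Fin n → ℝ) (c d : Fin n) :
    Xw R (fun a b => x a * y b - y a * x b) c d = 2 * M R x y c d := by
  have h1 : ∑ a, ∑ b, R a b c d * (y a * x b) = - M R x y c d := by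
    unfold M
    rw [Finset.sum_comm, ← Finset.sum_neg_distrib]
    refine Finset.sum_congr rfl fun a _ => ?_
    rw [← Finset.sum_neg_distrib]
    refine Finset.sum_congr rfl fun b _ => ?_
    rw [hR.a12 a b c d]
    ring
  have h2 : ∑ a, ∑ b, R a b c d * (x a * y b) = M R x y c d := by
    unfold M
    refine Finset.sum_congr rfl fun a _ => Finset.sum_congr rfl fun b _ => ?_
    ring
  unfold Xw
  simp only [mul_sub, Finset.sum_sub_distrib]
  rw [h1, h2]
  ring

theorem sw3 (G : Fin n → Fin n → Fin n → ℝ) :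
    ∑ e, ∑ k, ∑ j, G e k j = ∑ j, ∑ k, ∑ e, G e k j := by
  have h1 : ∀ e, ∑ k, ∑ j, G e k j = ∑ j, ∑ k, G e k j := fun e => Finset.sum_comm
  simp only [h1]
  rw [Finset.sum_comm]
  exact Finset.sum_congr rfl fun j _ => Finset.sum_comm

theorem sw4 (G : Fin n → Fin n → Fin n → Fin n → ℝ) :
    ∑ e, ∑ j, ∑ k, ∑ i, G e j k i = ∑ i, ∑ j, ∑ k, ∑ e, G e j k i := by
  have h1 : ∀ e, ∑ j, ∑ k, ∑ i, G e j k i = ∑ i, ∑ k, ∑ j, G e j k i := fun e => sw3 (G e)
  simp only [h1]
  rw [Finset.sum_comm]
  refine Finset.sum_congr rfl fun i _ => ?_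
  rw [sw3 (fun e k j => G e j k i)]

theorem RV_M (R : T4 n) (x y z : Fin n → ℝ) (d : Fin n) :
    RV R x y z d = ∑ c, M R x y c d * z c := by
  unfold RV M
  simp only [Finset.sum_mul]
  rw [sw3 (fun a b c => R a b c d * x a * y b * z c)]
  refine Finset.sum_congr rfl fun c _ => ?_
  exact Finset.sum_comm

/-- the values of the curvature tensor act as derivations -/
theorem symR_of {R : T4 n} (hR : IsAC R)
    (hX : ∀ w, Sk w → ∀ i j k l, ∑ e, (Xw R w i e * R e j k l + Xw R w j e * R i e k l +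
      Xw R w k e * R i j e l + Xw R w l e * R i j k e) = 0) : SymR R := by
  intro x y u v w
  have key : ∀ i j k l, ∑ e, (M R x y i e * R e j k l + M R x y j e * R i e k l +
      M R x y k e * R i j e l + M R x y l e * R i j k e) = 0 := by
    intro i j k l
    have h := hX (fun a b => x a * y b - y a * x b) (fun a b => by ring) i j k l
    simp only [Xw_M hR] at h
    have e : ∑ e, (2 * M R x y i e * R e j k l + 2 * M R x y j e * R i e k l +
      2 * M R x y k e * R i j e l + 2 * M R x y l e * R i j k e) =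
      2 * ∑ e, (M R x y i e * R e j k l + M R x y j e * R i e k l +
      M R x y k e * R i j e l + M R x y l e * R i j k e) := by
      rw [Finset.mul_sum]
      exact Finset.sum_congr rfl fun e _ => by ring
    rw [e] at h
    linarith
  funext d
  have hL : RV R x y (RV R u v w) d =
      ∑ i, ∑ j, ∑ k, ∑ e, M R x y e d * (R i j k e * u i * v j * w k) := by
    rw [RV_M]
    unfold RV
    simp only [Finset.mul_sum]
    rw [Finset.sum_comm]
    refine Finset.sum_congr rfl fun i _ => ?_
    rw [Finset.sum_comm]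
    refine Finset.sum_congr rfl fun j _ => ?_
    exact Finset.sum_comm
  have h1 : RV R (RV R x y u) v w d =
      ∑ i, ∑ j, ∑ k, ∑ e, R e j k d * (M R x y i e * u i) * v j * w k := by
    have e1 : RV R (RV R x y u) v w d =
        ∑ e, ∑ j, ∑ k, ∑ i, R e j k d * (M R x y i e * u i) * v j * w k := by
      show ∑ e, ∑ j, ∑ k, R e j k d * RV R x y u e * v j * w k = _
      refine Finset.sum_congr rfl fun e _ => Finset.sum_congr rfl fun j _ =>
        Finset.sum_congr rfl fun k _ => ?_
      rw [RV_M, Finset.mul_sum, Finset.sum_mul, Finset.sum_mul]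
    rw [e1, sw4 (fun e j k i => R e j k d * (M R x y i e * u i) * v j * w k)]
  have h2 : RV R u (RV R x y v) w d =
      ∑ i, ∑ j, ∑ k, ∑ e, R i e k d * u i * (M R x y j e * v j) * w k := by
    show ∑ i, ∑ e, ∑ k, R i e k d * u i * RV R x y v e * w k = _
    refine Finset.sum_congr rfl fun i _ => ?_
    have e1 : ∑ e, ∑ k, R i e k d * u i * RV R x y v e * w k =
        ∑ e, ∑ k, ∑ j, R i e k d * u i * (M R x y j e * v j) * w k := by
      refine Finset.sum_congr rfl fun e _ => Finset.sum_congr rfl fun k _ => ?_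
      rw [RV_M, Finset.mul_sum, Finset.sum_mul]
    rw [e1, sw3 (fun e k j => R i e k d * u i * (M R x y j e * v j) * w k)]
  have h3 : RV R u v (RV R x y w) d =
      ∑ i, ∑ j, ∑ k, ∑ e, R i j e d * u i * v j * (M R x y k e * w k) := by
    show ∑ i, ∑ j, ∑ e, R i j e d * u i * v j * RV R x y w e = _
    refine Finset.sum_congr rfl fun i _ => Finset.sum_congr rfl fun j _ => ?_
    have e1 : ∑ e, R i j e d * u i * v j * RV R x y w e =
        ∑ e, ∑ k, R i j e d * u i * v j * (M R x y k e * w k) := by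
      refine Finset.sum_congr rfl fun e _ => ?_
      rw [RV_M, Finset.mul_sum]
    rw [e1, Finset.sum_comm]
  rw [Pi.add_apply, Pi.add_apply, hL, h1, h2, h3]
  simp only [← Finset.sum_add_distrib]
  refine Finset.sum_congr rfl fun i _ => Finset.sum_congr rfl fun j _ =>
    Finset.sum_congr rfl fun k _ => ?_
  have hk := key i j k d
  have hk2 : ∑ e, u i * v j * w k * (M R x y i e * R e j k d + M R x y j e * R i e k d +
      M R x y k e * R i j e d + M R x y d e * R i j k e) = 0 := by
    rw [← Finset.mul_sum, hk, mul_zero]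
  symm
  rw [← sub_eq_zero, ← Finset.sum_sub_distrib, ← hk2]
  refine Finset.sum_congr rfl fun e _ => ?_
  rw [M_skew hR x y e d]
  ring

end Sym

open Pool.Agent.H781.KP.Sym in
/-- invariance under the values of the curvature tensor -/
theorem s_sym (h1 : S_TEX) (h2 : S_HKA) : S_SYM := by
  intro n ι _ _ p a R hL hinv
  obtain ⟨-, -, -, hR, hCO, -, hrc, htr⟩ := hL
  have hI : ∀ x, InvF R (a x) := by
    intro x w hw
    obtain ⟨-, -, hip⟩ := h2 n R hR hCO w hw
    have e := hip (a x)
    rw [hrc x, mul_zero] at e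
    exact Ufx.ip_self e
  refine ⟨symR_of hR fun w hw i j k l => ?_, fun v v' hv hv' hne => ?_, hI⟩
  · obtain ⟨hX, -, -⟩ := h2 n R hR hCO w hw
    obtain ⟨g, hon, ⟨K, -, hK⟩, hfix, -⟩ := h1 n (Xw R w) hX
    exact der hK (fun s => hinv (g s) ⟨hon s, fun x => hfix (a x) (hI x w hw) s⟩) i j k l
  · obtain ⟨h, hh, hhv⟩ := htr v v' hv hv' hne
    exact ⟨h, hh.1, hinv h hh, hhv⟩

end Pool.Agent.H781.KP
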