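import Pool.Agent.H781.KP.AllC
import Pool.Agent.H781.KP.GK
import Pool.Agent.H781.KP.Sym
import Pool.Agent.H781.KP.Rk1b
import Pool.Agent.H781.KP.Eigb
import Pool.Agent.H781.KP.Sca
import Pool.Agent.H781.KP.Injb
import Pool.Agent.H781.KP.Basb
import Pool.Agent.H781.KP.Rstb
import Pool.Agent.H781.KP.Evnb
import Pool.Agent.H781.KP.Inv
import Pool.Agent.H781.KP.Pdk
import Pool.Agent.H781.KP.Chix

/-!
Assembly of the structure theorem.
-/

set_option autoImplicit false

namespace Pool.Agent.H781.KP

open Pool.Agent.H781.CM Pool.Agent.H781.H6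

theorem sym : S_SYM := s_sym tex s_hka

theorem inv : S_INV := s_inv s_inj s_bas (s_rst s_tau)

theorem pdk : S_PDK := s_pdk limc avg sym s_rk1 s_eig s_sca inv s_evn

theorem chig : S_CHIG := s_chig (s_finc appk dimS poink hodge spec kax (s_harm spec ddh) ddh)

theorem chix : S_CHIX := s_chix chig pdk

theorem mainx : S_MAINX := s_mainx chix gdu (s_pkx s_frm) s_gconn

end Pool.Agent.H781.KP
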