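import Pool.Agent.H781.KP.GW
import Pool.Agent.H781.KP.Mainr

/-!
Project KP, cohomology ring in all degrees: the geometric theorem from the abstract theorem.
-/

set_option autoImplicit false
set_option synthInstance.maxHeartbeats 400000
set_option maxHeartbeats 4000000
set_option linter.unusedSectionVars false

open Bundle Manifold ContDiff VectorField MeasureTheory Filter
open scoped Topology

noncomputable section

namespace Pool.Agent.H781.KP

open Pool.Agent.H781.NG Pool.Agent.H781.CM Pool.Agent.H781.H6 Pool.Agent.H821R2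
  Pool.Agent.H821R3 Pool.Agent.H893R5.HO Pool.Agent.H781.S22

namespace Mainwl

open Mainr

section

variable {M : Type} [TopologicalSpace M] [CompactSpace M] [MeasurableSpace M] [BorelSpace M]
  {N : ℕ}

/-- the product of closed elements is closed -/
theorem dg_mem' (h6 : S_WDG) (C : CD M N) {p q : ℕ} {u v : Fk N C.A} (hu : u ∈ Zp C p)
    (hv : v ∈ Zp C q) : dg (p + q) (mulF u v) ∈ Zp C (p + q) := by
  obtain ⟨k1, k2, k3⟩ := h6 M N C p q u v hu.1.1 hv.1.1 hu.1.2 hv.1.2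
  refine ⟨⟨k1, k2⟩, ?_⟩
  show dd C.F _ = 0
  have hu0 : dd C.F u = 0 := hu.2
  have hv0 : dd C.F v = 0 := hv.2
  rw [k3, hu0, hv0, mulF_zero_left, mulF_zero_right, dg_zero, smul_zero, add_zero]

end

section forms

variable {n : ℕ} {M : Type} [TopologicalSpace M] [T2Space M] [CompactSpace M]
  [ChartedSpace (EU n) M] [IsManifold (𝓡 n) ∞ M] [MeasurableSpace M] [BorelSpace M] {N : ℕ}
  (D : GD n M N)

/-- the pointwise value of the exterior product -/
theorem wedge_eq' (h5 : S_PHWG) {p q : ℕ} {α : CM.F.DF (𝓡 n) M p} {β : CM.F.DF (𝓡 n) M q}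
    {u v : Fk N D.C.A} (hu : Deg p u) (hv : Deg q v)
    (hα : ∀ (x : M) (w : Fin p → TangentSpace (𝓡 n) x), α x w =
      phi p (fun i => Drf.Lm D x (w i)) (evF D.C x u))
    (hβ : ∀ (x : M) (w : Fin q → TangentSpace (𝓡 n) x), β x w =
      phi q (fun i => Drf.Lm D x (w i)) (evF D.C x v))
    (x : M) (w : Fin (p + q) → TangentSpace (𝓡 n) x) : wedge α β x w =
      phi (p + q) (fun i => Drf.Lm D x (w i)) (evF D.C x (dg (p + q) (mulF u v))) := by
  rw [evF_dg, phi_dg, evF_mulF, h5 N p q _ _ (evF_deg D.C x hu) (evF_deg D.C x hv)]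
  unfold wedge
  congr 1
  refine Finset.sum_congr rfl fun σ _ => ?_
  rw [hα, hβ]

end forms

end Mainwl

open Mainr Mainwl in
theorem s_mainw (h1 : S_CHIW) (h2 : S_GDU) (h3 : S_PKX) (h4 : S_GCONN) (h5 : S_PHWG)
    (h6 : S_WDG) : S_MAINW := by
  intro n κ hn2 hκ
  have hn : 1 ≤ n := by omega
  obtain ⟨ε, hε, hC⟩ := h1 (2 * n) n κ (by omega) (by omega) hn2 hκ
  refine ⟨ε / 2, by positivity, ?_⟩
  intro M _ _ _ _ _ _ g hsec hop
  let _ : MeasurableSpace M := borel M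
  have : BorelSpace M := ⟨rfl⟩
  obtain ⟨cov, R, hlc, hrt⟩ := hsec.1
  obtain ⟨D, rfl⟩ := h2 n M hn g cov R hlc hrt
  have hcv : CurvGE D.C ε := by
    have h := gcurv n M (2 * n) D (ε / 2) hn (by positivity) (by
      have h' := hop
      exact h')
    rwa [mul_div_cancel₀ ε (two_ne_zero)] at h
  have hmo : Moll D.C := s_gmoll lmoll s_tkp n M _ D hn
  have hd : Dense2 D.C := s_gdense n M _ D
  have hr : Reg D.C := greg n M _ D hn
  obtain ⟨q1, q4⟩ :=
    hC M D.C hcv (h3 n M _ D κ hn hsec) (h4 n M _ D) hmo hd hr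
  have hfin := (hodge M _ D.C hmo hd hr).1
  have hF : ∀ p, Module.Finite ℝ (HF n M p) := fun p => by
    obtain ⟨e⟩ := gdr n M _ D hn p
    have := hfin p
    exact Module.Finite.equiv e.symm
  have e : ∀ p, Module.finrank ℝ (HF n M p) = bet D.C p := fun p => by
    obtain ⟨e⟩ := gdr n M _ D hn p
    exact e.finrank_eq
  refine ⟨⟨fun p => Module.finrank ℝ (HF n M p), fun p => ?_, ?_⟩, ?_⟩
  · have := hF p
    exact isBetti p
  · have e' : (fun p => Module.finrank ℝ (HF n M p)) = bet D.C := funext e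
    rw [e']
    exact q1
  · intro p q hp hq hpq α β hα hex hβ hex'
    obtain ⟨Φ, hΦ1, hΦ2, hΦ3, hΦZ, hΦB⟩ := Nanco.dict D hn
    have key : ∀ (r : ℕ) (γ : CM.F.DF (𝓡 n) M (r + 1)), CM.F.IsClosedForm γ →
        ¬ CM.F.IsExactForm (r + 1) γ → ∃ w : Fk (2 * n) D.C.A, w ∈ Zp D.C (r + 1) ∧
          w ∉ Bp D.C (r + 1) ∧ ∀ (x : M) (v : Fin (r + 1) → TangentSpace (𝓡 n) x),
            γ x v = phi (r + 1) (fun i => Drf.Lm D x (v i)) (evF D.C x w) := by
      intro r γ hγ hγ'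
      obtain ⟨a, rfl⟩ := exists_toDF hγ.1
      have hz : a ∈ ZF n M (r + 1) := closed_toDF.1 hγ
      obtain ⟨f, hf⟩ := hΦ3 (r + 1) a hz.1
      refine ⟨f, (hΦZ (r + 1) f).2 (hf ▸ hz), ?_, fun x v => ?_⟩
      · intro h
        apply hγ'
        have h7 := (hΦB r f).1 h
        rw [hf] at h7
        exact exact_toDF.2 h7
      · show a x v = _
        rw [← hf]
        exact hΦ1 (r + 1) f x v
    obtain ⟨p, rfl⟩ : ∃ p', p = p' + 1 := ⟨p - 1, by omega⟩
    obtain ⟨q, rfl⟩ : ∃ q', q = q' + 1 := ⟨q - 1, by omega⟩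
    obtain ⟨u, u1, u2, u3⟩ := key p α hα hex
    obtain ⟨v, v1, v2, v3⟩ := key q β hβ hex'
    have w1 := dg_mem' h6 D.C u1 v1
    have w2 := q4 (p + 1) (q + 1) hp hq hpq u u1 v v1 u2 v2
    have hw : wedge α β = toDF (Φ (p + 1 + (q + 1)) ⟨dg (p + 1 + (q + 1)) (mulF u v), w1.1⟩) := by
      funext x V
      rw [wedge_eq' D h5 u1.1.2 v1.1.2 u3 v3 x V]
      exact (hΦ1 (p + 1 + (q + 1)) ⟨_, w1.1⟩ x V).symm
    refine ⟨?_, ?_⟩
    · rw [hw]
      exact closed_toDF.2 ((hΦZ _ ⟨_, w1.1⟩).1 w1)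
    · intro h
      rw [hw] at h
      exact w2 ((hΦB (p + 1 + q) ⟨_, w1.1⟩).2 (exact_toDF.1 h))

end Pool.Agent.H781.KP
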