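import Pool.Agent.H781.CM.Phi
import Pool.Agent.H781.CM.Phiw

/-!
Project KP, cohomology ring: the exterior product of elements of degrees `p` and `q` in terms of
iterated contractions.
-/

set_option autoImplicit false
set_option synthInstance.maxHeartbeats 400000
set_option maxHeartbeats 4000000
set_option linter.unusedSectionVars false

noncomputable section

namespace Pool.Agent.H781.KP

open Pool.Agent.H781.NG Pool.Agent.H781.CM

namespace Phwgb

open Pool.Agent.H781.CM.Phiw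

variable {N : ℕ}

/-- the sign as a real number -/
def sg {m : ℕ} (σ : Equiv.Perm (Fin m)) : ℝ := ((Equiv.Perm.sign σ : ℤ) : ℝ)

theorem sg_mul {m : ℕ} (σ τ : Equiv.Perm (Fin m)) : sg (σ * τ) = sg σ * sg τ := by
  unfold sg
  rw [Equiv.Perm.sign_mul, Units.val_mul, Int.cast_mul]

theorem sg_sq {m : ℕ} (σ : Equiv.Perm (Fin m)) : sg σ * sg σ = 1 := by
  unfold sg
  rcases Int.units_eq_one_or (Equiv.Perm.sign σ) with h | h <;> rw [h] <;> norm_num

/-- extension of a permutation, fixing `0` -/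
def ext {m : ℕ} (ρ : Equiv.Perm (Fin m)) : Equiv.Perm (Fin (m + 1)) :=
  Equiv.Perm.decomposeFin.symm (0, ρ)

theorem ext_zero {m : ℕ} (ρ : Equiv.Perm (Fin m)) : ext ρ 0 = 0 :=
  Equiv.Perm.decomposeFin_symm_apply_zero 0 ρ

theorem ext_succ {m : ℕ} (ρ : Equiv.Perm (Fin m)) (x : Fin m) :
    ext ρ x.succ = (ρ x).succ := by
  unfold ext
  rw [Equiv.Perm.decomposeFin_symm_apply_succ, Equiv.swap_self]
  rfl

theorem ext_mk {m : ℕ} (ρ : Equiv.Perm (Fin m)) (k : ℕ) (hk : k + 1 < m + 1) (hk' : k < m) :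
    ext ρ ⟨k + 1, hk⟩ = (ρ ⟨k, hk'⟩).succ := ext_succ ρ ⟨k, hk'⟩

theorem sg_ext {m : ℕ} (ρ : Equiv.Perm (Fin m)) : sg (ext ρ) = sg ρ := by
  unfold sg ext
  rw [Equiv.Perm.decomposeFin.symm_sign, if_pos rfl, one_mul]

/-- the cycle -/
theorem cyc (m p : ℕ) (hp : p < m + 1) : ∃ c : Equiv.Perm (Fin (m + 1)), sg c = (-1) ^ p ∧
    c ⟨p, hp⟩ = 0 ∧ (∀ (i : ℕ) (hi : i < p), c ⟨i, by omega⟩ = ⟨i + 1, by omega⟩) ∧
    ∀ (j : ℕ) (_ : p < j) (hj' : j < m + 1), c ⟨j, hj'⟩ = ⟨j, hj'⟩ := by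
  refine ⟨Fin.cycleRange ⟨p, hp⟩, ?_, Fin.cycleRange_self _, ?_, ?_⟩
  · unfold sg
    rw [Fin.sign_cycleRange]
    push_cast
    rfl
  · intro i hi
    rw [Fin.cycleRange_of_lt (Fin.mk_lt_mk.2 hi)]
    refine Fin.ext ?_
    rw [Fin.val_add_one_of_lt (by rw [Fin.lt_def, Fin.val_last]; simp only; omega)]
  · intro j hj hj'
    exact Fin.cycleRange_of_gt (Fin.mk_lt_mk.2 hj)

theorem alt_inv {m : ℕ} {W : Type} (G : (Fin m → W) → ℝ) (V : Fin m → W)
    (κ : Equiv.Perm (Fin m)) :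
    ∑ τ : Equiv.Perm (Fin m), sg τ * (sg κ * G (fun i => V (τ (κ i)))) =
      ∑ τ : Equiv.Perm (Fin m), sg τ * G (fun i => V (τ i)) := by
  rw [← Equiv.sum_comp (Equiv.mulRight κ) (fun τ => sg τ * G (fun i => V (τ i)))]
  refine Finset.sum_congr rfl fun τ _ => ?_
  rw [Equiv.coe_mulRight, sg_mul, mul_assoc]
  rfl

theorem phi_alt (m : ℕ) (V : Fin m → Fin N → ℝ) (u : Fk N ℝ) (τ : Equiv.Perm (Fin m)) :
    phi m (fun i => V (τ i)) u = sg τ * phi m V u := by
  obtain ⟨A, hA⟩ := (s_phi N m).2.1 u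
  have h := A.map_perm V τ
  rw [Units.smul_def, zsmul_eq_mul, hA, hA] at h
  exact h

theorem phi_succ (p : ℕ) (V : Fin (p + 1) → Fin N → ℝ) (u : Fk N ℝ) :
    phi (p + 1) V u = phi p (Fin.tail V) (Ao (V 0) u) := rfl

theorem phi_add (p : ℕ) (V : Fin p → Fin N → ℝ) (u v : Fk N ℝ) :
    phi p V (u + v) = phi p V u + phi p V v := ((s_phi N p).1 V).map_add u v

theorem phi_smul (p : ℕ) (V : Fin p → Fin N → ℝ) (c : ℝ) (u : Fk N ℝ) :
    phi p V (c • u) = c * phi p V u := ((s_phi N p).1 V).map_smul c u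

theorem phi_null (p : ℕ) (V : Fin p → Fin N → ℝ) : phi p V (0 : Fk N ℝ) = 0 :=
  ((s_phi N p).1 V).map_zero

theorem alphap {p : ℕ} {u : Fk N ℝ} (hu : Deg p u) :
    (fun S => (-1) ^ S.card * u S) = (-1 : ℝ) ^ p • u := by
  funext S
  rw [Pi.smul_apply, smul_eq_mul]
  by_cases hS : S.card = p
  · rw [hS]
  · rw [hu S hS, mul_zero, mul_zero]

theorem rulep (h : S_CLIF) (w : Fin N → ℝ) {p : ℕ} {u : Fk N ℝ} (v : Fk N ℝ) (hu : Deg p u) :
    Ao w (mulF u v) = mulF (Ao w u) v + (-1 : ℝ) ^ p • mulF u (Ao w v) := by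
  rw [Ao_mul h, alphap hu, mul_smul_left]

/-- the product of the values -/
def G (m p q : ℕ) (hm : p + q = m) (u v : Fk N ℝ) (W : Fin m → Fin N → ℝ) : ℝ :=
  phi p (fun i => W ⟨i, by have := i.isLt; omega⟩) u *
    phi q (fun j => W ⟨p + j, by have := j.isLt; omega⟩) v

theorem G_left (m p q : ℕ) (hm : p + 1 + q = m + 1) (hm' : p + q = m) (u v : Fk N ℝ)
    (V : Fin (m + 1) → Fin N → ℝ) (ρ : Equiv.Perm (Fin m)) :
    G m p q hm' (Ao (V 0) u) v (fun i => Fin.tail V (ρ i)) =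
      G (m + 1) (p + 1) q hm u v (fun i => V (ext ρ i)) := by
  unfold G
  refine congrArg₂ (fun a b : ℝ => a * b) ?_ ?_
  · rw [phi_succ]
    refine congrArg₂ (phi p) ?_ ?_
    · funext i
      have e := ext_mk ρ (i : ℕ) (by have := i.isLt; omega) (by have := i.isLt; omega)
      exact (congrArg V e).symm
    · exact congrArg (fun x => Ao x u) (congrArg V (ext_zero ρ)).symm
  · refine congrArg (fun W => phi q W v) ?_
    funext j
    have e := ext_mk ρ (p + j : ℕ) (by have := j.isLt; omega) (by have := j.isLt; omega)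
    have e2 : (⟨p + 1 + (j : ℕ), by have := j.isLt; omega⟩ : Fin (m + 1)) =
        ⟨p + (j : ℕ) + 1, by have := j.isLt; omega⟩ := Fin.ext (by simp only; omega)
    dsimp only
    rw [e2, e]
    rfl

theorem G_right (m p q : ℕ) (hm : p + (q + 1) = m + 1) (hm' : p + q = m) (u v : Fk N ℝ)
    (V : Fin (m + 1) → Fin N → ℝ) (ρ : Equiv.Perm (Fin m)) (c : Equiv.Perm (Fin (m + 1)))
    (hp : p < m + 1) (c1 : c ⟨p, hp⟩ = 0)
    (c2 : ∀ (i : ℕ) (hi : i < p), c ⟨i, by omega⟩ = ⟨i + 1, by omega⟩)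
    (c3 : ∀ (j : ℕ) (_ : p < j) (hj' : j < m + 1), c ⟨j, hj'⟩ = ⟨j, hj'⟩) :
    G m p q hm' u (Ao (V 0) v) (fun i => Fin.tail V (ρ i)) =
      G (m + 1) p (q + 1) hm u v (fun i => V (ext ρ (c i))) := by
  unfold G
  refine congrArg₂ (fun a b : ℝ => a * b) ?_ ?_
  · refine congrArg (fun W => phi p W u) ?_
    funext i
    dsimp only
    rw [c2 i i.isLt, ext_mk ρ (i : ℕ) (by have := i.isLt; omega) (by have := i.isLt; omega)]
    rfl
  · rw [phi_succ]
    refine congrArg₂ (phi q) ?_ ?_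
    · funext j
      change V (ρ ⟨p + j, _⟩).succ = V (ext ρ (c ⟨p + (j.succ : ℕ), _⟩))
      have e2 : (⟨p + (j.succ : ℕ), by have := j.isLt; rw [Fin.val_succ]; omega⟩ : Fin (m + 1)) =
          ⟨p + (j : ℕ) + 1, by have := j.isLt; omega⟩ :=
        Fin.ext (by simp only [Fin.val_succ]; omega)
      rw [e2, c3 _ (by omega),
        ext_mk ρ (p + j : ℕ) (by have := j.isLt; omega) (by have := j.isLt; omega)]
    · have e : ext ρ (c ⟨p + ((0 : Fin (q + 1)) : ℕ), by rw [Fin.val_zero]; omega⟩) = 0 := by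
        have e3 : (⟨p + ((0 : Fin (q + 1)) : ℕ), by rw [Fin.val_zero]; omega⟩ : Fin (m + 1)) =
            ⟨p, hp⟩ := Fin.ext (by simp)
        rw [e3, c1, ext_zero]
      exact congrArg (fun x => Ao x v) (congrArg V e).symm

theorem core (h : S_CLIF) : ∀ (m p q : ℕ) (hm : p + q = m) (u v : Fk N ℝ), Deg p u → Deg q v →
    ∀ V : Fin m → Fin N → ℝ, (p.factorial : ℝ) * (q.factorial : ℝ) * phi m V (mulF u v) =
      ∑ σ : Equiv.Perm (Fin m), sg σ * G m p q hm u v (fun i => V (σ i)) := by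
  intro m
  induction m with
  | zero =>
    intro p q hm u v hu hv V
    obtain rfl : p = 0 := by omega
    obtain rfl : q = 0 := by omega
    have e1 : phi 0 V (mulF u v) = u ∅ * v ∅ := val h v hu
    have e2 : ∀ σ : Equiv.Perm (Fin 0),
        sg σ * G 0 0 0 hm u v (fun i => V (σ i)) = u ∅ * v ∅ := by
      intro σ
      have e3 : sg σ = 1 := by
        have : σ = 1 := Subsingleton.elim _ _
        rw [this]
        unfold sg
        rw [Equiv.Perm.sign_one]
        simp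
      rw [e3, one_mul]
      rfl
    rw [e1, Finset.sum_congr rfl fun σ _ => e2 σ, Finset.sum_const, Finset.card_univ,
      Fintype.card_perm, Fintype.card_fin]
    simp
  | succ m ih =>
    intro p q hm u v hu hv V
    have hcy : ∃ c : Equiv.Perm (Fin (m + 1)), q ≠ 0 → ∃ hp : p < m + 1, sg c = (-1) ^ p ∧
        c ⟨p, hp⟩ = 0 ∧ (∀ (i : ℕ) (hi : i < p), c ⟨i, by omega⟩ = ⟨i + 1, by omega⟩) ∧
        ∀ (j : ℕ) (_ : p < j) (hj' : j < m + 1), c ⟨j, hj'⟩ = ⟨j, hj'⟩ := by
      by_cases hq : q = 0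
      · exact ⟨1, fun h => (h hq).elim⟩
      · obtain ⟨c, hc⟩ := cyc m p (by omega)
        exact ⟨c, fun _ => ⟨by omega, hc⟩⟩
    obtain ⟨c, hcy⟩ := hcy
    have key : ∀ V : Fin (m + 1) → Fin N → ℝ,
        (p.factorial : ℝ) * (q.factorial : ℝ) * phi (m + 1) V (mulF u v) =
        (p : ℝ) * ∑ ρ : Equiv.Perm (Fin m), sg (ext ρ) * G (m + 1) p q hm u v
          (fun i => V (ext ρ i)) +
        (q : ℝ) * ∑ ρ : Equiv.Perm (Fin m), sg (ext ρ * c) * G (m + 1) p q hm u v
          (fun i => V ((ext ρ * c) i)) := by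
      intro V
      rw [phi_succ, rulep h _ v hu, phi_add, phi_smul, mul_add]
      congr 1
      · rcases p with _ | p
        · rw [Ao_zero _ hu, mul_zero_left, phi_null]
          simp
        · have e := ih p q (by omega) (Ao (V 0) u) v (Ao_deg _ hu) hv (Fin.tail V)
          rw [Nat.factorial_succ, Nat.cast_mul]
          have e2 : ((p + 1 : ℕ) : ℝ) * (p.factorial : ℝ) * (q.factorial : ℝ) *
              phi m (Fin.tail V) (mulF (Ao (V 0) u) v) = ((p + 1 : ℕ) : ℝ) *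
              ((p.factorial : ℝ) * (q.factorial : ℝ) *
                phi m (Fin.tail V) (mulF (Ao (V 0) u) v)) := by ring
          rw [e2, e]
          congr 1
          refine Finset.sum_congr rfl fun ρ _ => ?_
          rw [sg_ext, G_left m p q hm (by omega) u v V ρ]
      · rcases q with _ | q
        · rw [Ao_zero _ hv, mul_zero_right, phi_null]
          simp
        · obtain ⟨hp, hc, c1, c2, c3⟩ := hcy (Nat.succ_ne_zero q)
          have e := ih p q (by omega) u (Ao (V 0) v) hu (Ao_deg _ hv) (Fin.tail V)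
          rw [Nat.factorial_succ, Nat.cast_mul]
          have e2 : (p.factorial : ℝ) * (((q + 1 : ℕ) : ℝ) * (q.factorial : ℝ)) *
              ((-1) ^ p * phi m (Fin.tail V) (mulF u (Ao (V 0) v))) = ((q + 1 : ℕ) : ℝ) *
              ((-1) ^ p * ((p.factorial : ℝ) * (q.factorial : ℝ) *
                phi m (Fin.tail V) (mulF u (Ao (V 0) v)))) := by ring
          rw [e2, e, Finset.mul_sum]
          congr 1
          refine Finset.sum_congr rfl fun ρ _ => ?_
          rw [sg_mul, sg_ext, hc, G_right m p q hm (by omega) u v V ρ c hp c1 c2 c3]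
          have e4 : (fun i => V ((ext ρ * c) i)) = fun i => V (ext ρ (c i)) := rfl
          rw [e4]
          ring
    set A : ℝ := ∑ τ : Equiv.Perm (Fin (m + 1)), sg τ * G (m + 1) p q hm u v
      (fun i => V (τ i)) with hA
    have s1 : ∑ τ : Equiv.Perm (Fin (m + 1)), sg τ * ((p.factorial : ℝ) * (q.factorial : ℝ) *
        phi (m + 1) (fun i => V (τ i)) (mulF u v)) = ((m + 1).factorial : ℝ) *
        ((p.factorial : ℝ) * (q.factorial : ℝ) * phi (m + 1) V (mulF u v)) := by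
      have e : ∀ τ : Equiv.Perm (Fin (m + 1)), sg τ * ((p.factorial : ℝ) * (q.factorial : ℝ) *
          phi (m + 1) (fun i => V (τ i)) (mulF u v)) =
          (p.factorial : ℝ) * (q.factorial : ℝ) * phi (m + 1) V (mulF u v) := by
        intro τ
        rw [phi_alt]
        have := sg_sq τ
        linear_combination ((p.factorial : ℝ) * (q.factorial : ℝ) *
          phi (m + 1) V (mulF u v)) * this
      rw [Finset.sum_congr rfl fun τ _ => e τ, Finset.sum_const, Finset.card_univ,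
        Fintype.card_perm, Fintype.card_fin, nsmul_eq_mul]
    have s2 : ∑ τ : Equiv.Perm (Fin (m + 1)), sg τ * ((p.factorial : ℝ) * (q.factorial : ℝ) *
        phi (m + 1) (fun i => V (τ i)) (mulF u v)) =
        (p : ℝ) * ((m.factorial : ℝ) * A) + (q : ℝ) * ((m.factorial : ℝ) * A) := by
      have e : ∀ τ : Equiv.Perm (Fin (m + 1)), sg τ * ((p.factorial : ℝ) * (q.factorial : ℝ) *
          phi (m + 1) (fun i => V (τ i)) (mulF u v)) =
          (p : ℝ) * ∑ ρ : Equiv.Perm (Fin m), sg τ * (sg (ext ρ) * G (m + 1) p q hm u v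
            (fun i => V (τ (ext ρ i)))) +
          (q : ℝ) * ∑ ρ : Equiv.Perm (Fin m), sg τ * (sg (ext ρ * c) * G (m + 1) p q hm u v
            (fun i => V (τ ((ext ρ * c) i)))) := by
        intro τ
        rw [key (fun i => V (τ i)), mul_add, ← Finset.mul_sum, ← Finset.mul_sum]
        ring
      rw [Finset.sum_congr rfl fun τ _ => e τ, Finset.sum_add_distrib, ← Finset.mul_sum,
        ← Finset.mul_sum, Finset.sum_comm, Finset.sum_comm (s := Finset.univ) (t := Finset.univ)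
          (f := fun (τ : Equiv.Perm (Fin (m + 1))) (ρ : Equiv.Perm (Fin m)) => sg τ *
            (sg (ext ρ * c) * G (m + 1) p q hm u v (fun i => V (τ ((ext ρ * c) i)))))]
      have f1 : ∀ κ : Equiv.Perm (Fin (m + 1)), ∑ τ : Equiv.Perm (Fin (m + 1)), sg τ *
          (sg κ * G (m + 1) p q hm u v (fun i => V (τ (κ i)))) = A :=
        fun κ => alt_inv (G (m + 1) p q hm u v) V κ
      rw [Finset.sum_congr rfl fun ρ _ => f1 (ext ρ),
        Finset.sum_congr rfl fun ρ _ => f1 (ext ρ * c), Finset.sum_const, Finset.card_univ,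
        Fintype.card_perm, Fintype.card_fin, nsmul_eq_mul]
    rw [s1] at s2
    have hf : ((m + 1).factorial : ℝ) = ((p : ℝ) + (q : ℝ)) * (m.factorial : ℝ) := by
      rw [Nat.factorial_succ, Nat.cast_mul, ← hm, Nat.cast_add]
    have hne : ((m + 1).factorial : ℝ) ≠ 0 := Nat.cast_ne_zero.2 (Nat.factorial_ne_zero _)
    refine mul_left_cancel₀ hne ?_
    rw [s2, hf]
    ring

theorem main (h : S_CLIF) : ∀ (N p q : ℕ) (u v : Fk N ℝ), Deg p u → Deg q v →
    ∀ V : Fin (p + q) → Fin N → ℝ, phi (p + q) V (mulF u v) =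
      1 / ((p.factorial : ℝ) * (q.factorial : ℝ)) * ∑ σ : Equiv.Perm (Fin (p + q)),
        ((Equiv.Perm.sign σ : ℤ) : ℝ) * phi p (fun i => V (σ (Fin.castAdd q i))) u *
          phi q (fun j => V (σ (Fin.natAdd p j))) v := by
  intro N p q u v hu hv V
  have e := core h (p + q) p q rfl u v hu hv V
  have hne : (p.factorial : ℝ) * (q.factorial : ℝ) ≠ 0 :=
    mul_ne_zero (Nat.cast_ne_zero.2 (Nat.factorial_ne_zero _))
      (Nat.cast_ne_zero.2 (Nat.factorial_ne_zero _))
  rw [one_div, eq_inv_mul_iff_mul_eq₀ hne, e]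
  refine Finset.sum_congr rfl fun σ _ => ?_
  rw [mul_assoc]
  rfl

end Phwgb

end Pool.Agent.H781.KP
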