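import Pool.Agent.H781.KP.AllW
import Pool.Agent.H781.KP.Mainwl
import Pool.Agent.H781.KP.Phwgb
import Pool.Agent.H781.KP.Tpr

/-!
Assembly of the theorem on the real cohomology ring.
-/

set_option autoImplicit false

namespace Pool.Agent.H781.KP

open Pool.Agent.H781.CM Pool.Agent.H781.H6

theorem phwg : S_PHWG := Phwgb.main s_clif

theorem mainw : S_MAINW := s_mainw chiw gdu (s_pkx s_frm) s_gconn phwg wdg

end Pool.Agent.H781.KP
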