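import Pool.Agent.H781.KP.A
import Pool.Agent.H781.CM.SA

/-!
Project KP, second Betti number (MP_4e0d62_gt): closed `n`-manifolds with sectional curvature at
least `κ > 0` and curvature operator at least `-ε(n, κ)` have `b_2 ≤ 1`, and `b_2 = 0` if `n` is odd.
Statements.
-/

set_option autoImplicit false
set_option synthInstance.maxHeartbeats 400000
set_option maxHeartbeats 4000000
set_option linter.unusedSectionVars false

open MeasureTheory Filter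
open scoped Topology ContDiff

noncomputable section

namespace Pool.Agent.H781.KP

open Pool.Agent.H781.NG Pool.Agent.H781.CM Pool.Agent.H781.H6

/-- product of matrices -/
def mm {n : ℕ} (X Y : Fin n → Fin n → ℝ) : Fin n → Fin n → ℝ := fun a b => ∑ c, X a c * Y c b

/-- scalar curvature -/
def scl {n : ℕ} (R : T4 n) : ℝ := - ∑ a, ∑ b, R a b a b

/-- 2-forms and skew-symmetric matrices -/
def S_TFM : Prop := ∀ n : ℕ,
  (∀ u : Fk n ℝ, Deg 2 u → ∃ A : Fin n → Fin n → ℝ, Sk A ∧ u = wX A vac) ∧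
  (∀ A B : Fin n → Fin n → ℝ, Sk A → Sk B →
    ip (wX A vac) (wX B vac) = 2 * ∑ i, ∑ j, A i j * B i j) ∧
  ∀ X A : Fin n → Fin n → ℝ, Sk X → Sk A →
    dX X (wX A vac) = wX (fun i j => mm A X i j - mm X A i j) vac

/-- symmetric matrices commuting with a transitive family are scalar -/
def S_SCM : Prop := ∀ (n : ℕ) (A B : Fin n → Fin n → ℝ), Sk A → Sk B →
  (∀ v w : Fin n → ℝ, dt v v = 1 → dt w w = 1 → dt v w = 0 →
    ∃ X, Sk X ∧ ac X v = w ∧ dX X (wX A vac) = 0 ∧ dX X (wX B vac) = 0) →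
  ∃ l : ℝ, ∀ i j, mm A B i j + mm B A i j = if i = j then l else 0

/-- the value of the curvature operator at the 2-form `w` -/
def Xw {n : ℕ} (R : T4 n) (w : Fin n → Fin n → ℝ) : Fin n → Fin n → ℝ :=
  fun c d => ∑ a, ∑ b, R a b c d * w a b

/-- the quadratic form of the curvature operator -/
def Qw {n : ℕ} (R : T4 n) (w : Fin n → Fin n → ℝ) : ℝ :=
  - ∑ a, ∑ b, ∑ c, ∑ d, R a b c d * w a b * w c d

/-- Cauchy-Schwarz inequality of a nonnegative curvature operator -/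
def S_HKA : Prop := ∀ (n : ℕ) (R : T4 n), IsAC R → COp R 0 →
  ∀ w : Fin n → Fin n → ℝ, Sk w → Sk (Xw R w) ∧ Qw R w ≤ scl R * ∑ a, ∑ b, w a b ^ 2 ∧
    ∀ u : Fk n ℝ, ip (dX (Xw R w) u) (dX (Xw R w) u) ≤ Qw R w * rc R u

/-- curvature tensors that almost commute with two anticommuting complex structures have small
scalar curvature -/
def S_HKB : Prop := ∀ n : ℕ, ∃ K : ℝ, 0 ≤ K ∧ ∀ (R : T4 n) (A B : Fin n → Fin n → ℝ) (s t : ℝ),
  IsAC R → Sk A → Sk B → (∀ i j, mm A A i j = if i = j then -1 else 0) →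
  (∀ i j, mm B B i j = if i = j then -1 else 0) → (∀ i j, mm A B i j + mm B A i j = 0) →
  0 ≤ s → 0 ≤ t →
  (∀ w, Sk w → ∑ i, ∑ j, (mm A (Xw R w) i j - mm (Xw R w) A i j) ^ 2 ≤
    s * ∑ i, ∑ j, w i j ^ 2) →
  (∀ w, Sk w → ∑ i, ∑ j, (mm B (Xw R w) i j - mm (Xw R w) B i j) ^ 2 ≤
    t * ∑ i, ∑ j, w i j ^ 2) →
  scl R ≤ K * (√s + √t)

/-- nonnegative curvature operators that almost commute with two anticommuting complex structures
have small scalar curvature -/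
def S_HK : Prop := ∀ n : ℕ, ∃ K : ℝ, 0 ≤ K ∧ ∀ (R : T4 n) (A B : Fin n → Fin n → ℝ), IsAC R →
  COp R 0 → Sk A → Sk B → (∀ i j, mm A A i j = if i = j then -1 else 0) →
  (∀ i j, mm B B i j = if i = j then -1 else 0) → (∀ i j, mm A B i j + mm B A i j = 0) →
  scl R ≤ K * (rc R (wX A vac) + rc R (wX B vac))

/-- bounds of the Weitzenböck form by the scalar curvature -/
def S_SCB : Prop := ∀ (n : ℕ), ∃ K : ℝ, 0 ≤ K ∧ ∀ (R : T4 n), IsAC R → COp R 0 →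
  0 ≤ scl R ∧ (∀ u : Fk n ℝ, 0 ≤ rc R u ∧ rc R u ≤ K * scl R * ip u u) ∧
  (∀ u v : Fk n ℝ, rc R (u + v) ≤ 2 * rc R u + 2 * rc R v) ∧
  ∀ κ : ℝ, 2 ≤ n → KGE R κ → κ ≤ scl R

/-- no two 2-forms in the limit -/
def S_TW2 : Prop := ∀ (n : ℕ) (U V : ℕ → Fk n ℝ) (u v : Fk n ℝ) (R : ℕ → T4 n) (ε : ℕ → ℝ)
  (κ : ℝ), 2 ≤ n → (∀ k, Deg 2 (U k)) → (∀ k, Deg 2 (V k)) → Deg 2 u → Deg 2 v →
  Tendsto U atTop (𝓝 u) → Tendsto V atTop (𝓝 v) → (∀ k, IsAC (R k)) → (∀ k, 0 ≤ ε k) →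
  Tendsto ε atTop (𝓝 0) → 0 < κ → (∀ k, COp (R k) (ε k)) → (∀ k, KGE (R k) κ) →
  (∀ k, rc (R k) (U k) ≤ ε k) → (∀ k, rc (R k) (V k) ≤ ε k) → ip u u = 1 → ip v v = 1 →
  ip u v = 0 →
  (∀ x y : Fin n → ℝ, dt x x = 1 → dt y y = 1 → dt x y = 0 →
    ∃ X, Sk X ∧ ac X x = y ∧ dX X u = 0 ∧ dX X v = 0) → False

/-- no 2-forms in odd dimensions -/
def S_ON2 : Prop := ∀ (n : ℕ) (u : Fk n ℝ), Odd n → Deg 2 u →
  (∀ x y : Fin n → ℝ, dt x x = 1 → dt y y = 1 → dt x y = 0 →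
    ∃ X, Sk X ∧ ac X x = y ∧ dX X u = 0) → u = 0

/-- compactness -/
def S_CMP2 : Prop := ∀ (n N : ℕ) (d : Fin (N + 1) → ℕ) (κ : ℝ) (p : Fin (N + 1)), 2 ≤ n →
  0 < κ → (p : ℕ) = 2 → (∀ η : ℝ, 0 < η → KA n N η κ d) → d p ≤ 1 ∧ (Odd n → d p = 0)

/-- small eigenvalues and Betti numbers -/
def S_FINB : Prop := ∀ (N n : ℕ) (κ : ℝ), 0 < N → 2 ≤ n → 0 < κ → ∀ η : ℝ, 0 < η →
  ∃ ε : ℝ, 0 < ε ∧
  ∀ (M : Type) [TopologicalSpace M] [CompactSpace M] [MeasurableSpace M] [BorelSpace M]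
    (C : CD M N), CurvGE C ε → PtK C n κ → Conn C → Moll C → Dense2 C → Reg C →
    ∃ d : Fin (N + 1) → ℕ, KA n N η κ d ∧ ∑ p, d p ≤ 2 ^ N ∧ ∀ p : Fin (N + 1), bet C p ≤ d p

/-- the abstract theorem -/
def S_CHI2 : Prop := ∀ (N n : ℕ) (κ : ℝ), 2 ≤ N → 2 ≤ n → 0 < κ → ∃ ε : ℝ, 0 < ε ∧
  ∀ (M : Type) [TopologicalSpace M] [CompactSpace M] [MeasurableSpace M] [BorelSpace M]
    (C : CD M N), CurvGE C ε → PtK C n κ → Conn C → Moll C → Dense2 C → Reg C →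
    bet C 2 ≤ 1 ∧ (Odd n → bet C 2 = 0)

end Pool.Agent.H781.KP
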