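import Pool.Agent.H781.KP.B

/-!
Project KP, all Betti numbers (MP_4e0d62_gt): closed `n`-manifolds with sectional curvature at
least `κ > 0` and curvature operator at least `-ε(n, κ)` have `b_1 = 0`, `b_3 = 0` if `n ≥ 4`, and
either `b_2 = 0`, or `n` is even and all Betti numbers are those of a complex projective space.
Statements.
-/

set_option autoImplicit false
set_option synthInstance.maxHeartbeats 400000
set_option maxHeartbeats 4000000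
set_option linter.unusedSectionVars false

open MeasureTheory Filter
open scoped Topology ContDiff

noncomputable section

namespace Pool.Agent.H781.KP

open Pool.Agent.H781.NG Pool.Agent.H781.CM Pool.Agent.H781.H6

/-- the curvature tensor transformed by `h` -/
def Rh {n : ℕ} (R : T4 n) (h : Fin n → Fin n → ℝ) : T4 n :=
  fun i j k l => R4 R (h i) (h j) (h k) (h l)

/-- the stabiliser of the family `a` in the orthogonal group -/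
def Stb {n : ℕ} {ι : Type} (a : ι → Fk n ℝ) (h : Fin n → Fin n → ℝ) : Prop :=
  ON h ∧ ∀ x, Tau.tau h (a x) = a x

/-- exact algebras with transitive stabiliser and a nonnegative curvature tensor -/
def LimA {n : ℕ} {ι : Type} [Fintype ι] [DecidableEq ι] (p : ι → ℕ) (a : ι → Fk n ℝ)
    (R : T4 n) : Prop :=
  (∀ x, Deg (p x) (a x)) ∧ (∀ x y, ip (a x) (a y) = if x = y then 1 else 0) ∧
  (∀ x y, ∃ c : ι → ℝ, mulF (a x) (a y) = ∑ z, c z • a z) ∧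
  IsAC R ∧ COp R 0 ∧ scl R = 1 ∧ (∀ x, rc R (a x) = 0) ∧
  ∀ v v' : Fin n → ℝ, dt v v = 1 → dt v' v' = 1 → dt v v' ≠ -1 → ∃ h, Stb a h ∧ ac h v = v'

/-- existence of the limits -/
def S_LIMC : Prop := ∀ (n N : ℕ) (d : Fin (N + 1) → ℕ) (κ : ℝ), 2 ≤ n → 0 < κ →
  (∀ η : ℝ, 0 < η → KA n N η κ d) →
  ∃ (a : (Σ p, Fin (d p)) → Fk n ℝ) (R : T4 n), LimA (fun x => (x.1 : ℕ)) a R

/-- the curvature tensor of least norm is invariant -/
def S_AVG : Prop := ∀ (n : ℕ) (ι : Type) [Fintype ι] [DecidableEq ι] (p : ι → ℕ)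
  (a : ι → Fk n ℝ) (R : T4 n), LimA p a R → ∃ R' : T4 n, LimA p a R' ∧ ∀ h, Stb a h → Rh R' h = R'

/-- elements of degree one -/
def S_DG1 : Prop := ∀ (n : ℕ) (ι : Type) [Fintype ι] [DecidableEq ι] (p : ι → ℕ)
  (a : ι → Fk n ℝ) (R : T4 n), 2 ≤ n → LimA p a R → ∀ x, p x ≠ 1

/-! ### Elements of degree two -/

/-- the curvature tensor of constant holomorphic sectional curvature 4 -/
def R0 {n : ℕ} (J : Fin n → Fin n → ℝ) : T4 n := fun a b c d =>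
  (if b = c then 1 else 0) * (if a = d then 1 else 0) -
    (if a = c then 1 else 0) * (if b = d then 1 else 0) +
    J b c * J a d - J a c * J b d - 2 * J a b * J c d

/-- complex structures -/
def CJ {n : ℕ} (J : Fin n → Fin n → ℝ) : Prop :=
  Sk J ∧ ∀ i j, mm J J i j = if i = j then -1 else 0

/-- commuting matrices -/
def Cmu {n : ℕ} (X J : Fin n → Fin n → ℝ) : Prop := ∀ i j, mm X J i j = mm J X i j

/-- an element of degree two is a multiple of a complex structure, which is invariant and commutes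
with the curvature -/
def S_JST : Prop := ∀ (n : ℕ) (ι : Type) [Fintype ι] [DecidableEq ι] (p : ι → ℕ)
  (a : ι → Fk n ℝ) (R : T4 n), 2 ≤ n → LimA p a R → ∀ x, p x = 2 →
  ∃ (J : Fin n → Fin n → ℝ) (l : ℝ), CJ J ∧ l ≠ 0 ∧ a x = l • wX J vac ∧
    (∀ h, Stb a h → ∀ v, ac h (ac J v) = ac J (ac h v)) ∧ ∀ w, Sk w → Cmu (Xw R w) J

/-- the holomorphic sectional curvature determines the curvature tensor -/
def S_HSC : Prop := ∀ (n : ℕ) (R : T4 n) (J : Fin n → Fin n → ℝ), IsAC R → CJ J →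
  (∀ w, Sk w → Cmu (Xw R w) J) → (∀ v, R4 R v (ac J v) (ac J v) v = 0) →
  ∀ a b c d, R a b c d = 0

/-- the tensor of constant holomorphic sectional curvature -/
def S_R0 : Prop := ∀ (n : ℕ) (J : Fin n → Fin n → ℝ), CJ J →
  IsAC (R0 J) ∧ (∀ w, Sk w → Cmu (Xw (R0 J) w) J) ∧
  (∀ v, R4 (R0 J) v (ac J v) (ac J v) v = 4 * dt v v ^ 2) ∧
  ∀ X, Sk X → Cmu X J → ∃ w, Sk w ∧ Xw (R0 J) w = X

/-- all elements are invariant under the unitary algebra -/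
def S_UFX : Prop := ∀ (n : ℕ) (ι : Type) [Fintype ι] [DecidableEq ι] (p : ι → ℕ)
  (a : ι → Fk n ℝ) (R : T4 n), 2 ≤ n → LimA p a R → (∀ h, Stb a h → Rh R h = R) →
  ∀ x, p x = 2 → ∃ (J : Fin n → Fin n → ℝ) (l : ℝ), CJ J ∧ l ≠ 0 ∧ a x = l • wX J vac ∧
    ∀ X, Sk X → Cmu X J → ∀ y, dX X (a y) = 0

/-- invariants of the unitary algebra -/
def S_UINV : Prop := ∀ (n : ℕ) (J : Fin n → Fin n → ℝ), CJ J → ∀ (p : ℕ) (u : Fk n ℝ), Deg p u →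
  (∀ X, Sk X → Cmu X J → dX X u = 0) →
  (Odd p → u = 0) ∧ ∀ k, p = 2 * k → ∃ c : ℝ, u = c • (wX J)^[k] vac

/-- powers of the Kähler form -/
def S_JPW : Prop := ∀ (n : ℕ) (J : Fin n → Fin n → ℝ), CJ J →
  Even n ∧ ∀ k, 2 * k ≤ n → (wX J)^[k] vac ≠ 0

/-- the case of a nonzero element of degree two -/
def S_DG2 : Prop := ∀ (n N : ℕ) (d : Fin (N + 1) → ℕ) (κ : ℝ), 2 ≤ n → 0 < κ →
  (∀ η : ℝ, 0 < η → KA n N η κ d) → ∀ p : Fin (N + 1), (p : ℕ) = 2 → d p ≠ 0 →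
  Even n ∧ ∀ q : Fin (N + 1), d q = if Even (q : ℕ) ∧ (q : ℕ) ≤ n then 1 else 0

/-! ### Elements of degree three -/

/-- alternating 3-tensors -/
def Al3 {n : ℕ} (t : Fin n → Fin n → Fin n → ℝ) : Prop :=
  (∀ a b c, t a b c = - t b a c) ∧ ∀ a b c, t a b c = - t a c b

/-- the derivation given by `X` -/
def x3 {n : ℕ} (X : Fin n → Fin n → ℝ) (t : Fin n → Fin n → Fin n → ℝ) (a b c : Fin n) : ℝ :=
  ∑ e, (X a e * t e b c + X b e * t a e c + X c e * t a b e)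

/-- 3-forms and 3-tensors -/
def S_T3F : Prop := ∀ (n : ℕ) (u : Fk n ℝ), Deg 3 u → ∃ t : Fin n → Fin n → Fin n → ℝ, Al3 t ∧
  ((∀ a b c, t a b c = 0) → u = 0) ∧
  (∀ X, Sk X → dX X u = 0 → ∀ a b c, x3 X t a b c = 0) ∧
  ∀ h, ON h → Tau.tau h u = u →
    ∀ i j k, ∑ a, ∑ b, ∑ c, h i a * h j b * h k c * t a b c = t i j k

/-- the Ricci tensor is a multiple of the metric -/
def S_EIN : Prop := ∀ (n : ℕ) (ι : Type) [Fintype ι] [DecidableEq ι] (p : ι → ℕ)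
  (a : ι → Fk n ℝ) (R : T4 n), 2 ≤ n → LimA p a R → (∀ h, Stb a h → Rh R h = R) →
  ∀ i j, ∑ c, R c i j c = if i = j then 1 / (n : ℝ) else 0

/-- an invariant 3-tensor defines a Lie algebra -/
def S_E3 : Prop := ∀ (n : ℕ) (R : T4 n) (ρ : ℝ) (t : Fin n → Fin n → Fin n → ℝ), IsAC R →
  (∀ i j, ∑ c, R c i j c = if i = j then ρ else 0) → ρ ≠ 0 → Al3 t →
  (∀ w, Sk w → ∀ a b c, x3 (Xw R w) t a b c = 0) →
  ∀ (v : Fin n → ℝ) a b c, x3 (fun i j => ∑ e, v e * t e i j) t a b c = 0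

/-- Lie algebras with invariant inner product and transitive automorphism group -/
def TL {n : ℕ} (P : (Fin n → ℝ) →ₗ[ℝ] (Fin n → ℝ) →ₗ[ℝ] (Fin n → ℝ)) : Prop :=
  (∀ x y, P x y = - P y x) ∧ (∀ x y z, dt (P x y) z = - dt y (P x z)) ∧
  (∀ x y z, P (P x y) z = P x (P y z) - P y (P x z)) ∧
  ∀ x y, dt x x = 1 → dt y y = 1 → dt x y ≠ -1 → ∃ h : (Fin n → ℝ) →ₗ[ℝ] (Fin n → ℝ),
    (∀ u v, dt (h u) (h v) = dt u v) ∧ h x = y ∧ ∀ u v, h (P u v) = P (h u) (h v)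

/-- the rank is one -/
def S_TL1 : Prop := ∀ (n : ℕ) (P : (Fin n → ℝ) →ₗ[ℝ] (Fin n → ℝ) →ₗ[ℝ] (Fin n → ℝ)), TL P →
  (∃ x y, P x y ≠ 0) → ∀ x y, x ≠ 0 → P x y = 0 → ∃ c : ℝ, y = c • x

/-- the structure of the Lie algebra: the orthogonal complement of a maximal `su(2)` -/
def S_TL2 : Prop := ∀ (n : ℕ) (P : (Fin n → ℝ) →ₗ[ℝ] (Fin n → ℝ) →ₗ[ℝ] (Fin n → ℝ)), TL P →
  (∃ x y, P x y ≠ 0) → (∀ x y, x ≠ 0 → P x y = 0 → ∃ c : ℝ, y = c • x) →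
  ∃ l : ℝ, 0 < l ∧ (∀ x, dt x x = 1 → ∃ y z, dt y y = 1 ∧ dt z z = 1 ∧ P x y = l • z) ∧
    ∀ x y z, dt x x = 1 → dt y y = 1 → dt z z = 1 → P x y = l • z →
      P y z = l • x ∧ P z x = l • y ∧ dt x y = 0 ∧ dt x z = 0 ∧ dt y z = 0 ∧
      ∀ w, dt w x = 0 → dt w y = 0 → dt w z = 0 → P x (P x w) = - (l ^ 2 / 4) • w

/-- the dimension is three -/
def S_TL3 : Prop := ∀ (n : ℕ) (P : (Fin n → ℝ) →ₗ[ℝ] (Fin n → ℝ) →ₗ[ℝ] (Fin n → ℝ)), TL P →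
  (∃ x y, P x y ≠ 0) → n ≤ 3

/-- elements of degree three -/
def S_DG3 : Prop := ∀ (n : ℕ) (ι : Type) [Fintype ι] [DecidableEq ι] (p : ι → ℕ)
  (a : ι → Fk n ℝ) (R : T4 n), 4 ≤ n → LimA p a R → (∀ h, Stb a h → Rh R h = R) → ∀ x, p x ≠ 3

/-! ### Analysis -/

/-- small eigenvalues and Betti numbers -/
def S_FINC : Prop := ∀ (N n : ℕ) (κ : ℝ), 0 < N → 2 ≤ n → 0 < κ → ∀ η : ℝ, 0 < η →
  ∃ ε : ℝ, 0 < ε ∧
  ∀ (M : Type) [TopologicalSpace M] [CompactSpace M] [MeasurableSpace M] [BorelSpace M]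
    (C : CD M N), CurvGE C ε → PtK C n κ → Conn C → Moll C → Dense2 C → Reg C →
    ∃ d : Fin (N + 1) → ℕ, KA n N η κ d ∧ ∑ p, d p ≤ 2 ^ N ∧
      (∀ p : Fin (N + 1), bet C p ≤ d p) ∧
      ∑ p : Fin (N + 1), (-1 : ℤ) ^ (p : ℕ) * (d p : ℤ) =
        ∑ p ∈ Finset.range (N + 1), (-1 : ℤ) ^ p * (bet C p : ℤ)

/-- pigeonhole -/
def S_CHIG : Prop := ∀ (N n : ℕ) (κ : ℝ) (Pd : (Fin (N + 1) → ℕ) → Prop), 0 < N → 2 ≤ n →
  0 < κ → (∀ d, (∀ η : ℝ, 0 < η → KA n N η κ d) → Pd d) → ∃ ε : ℝ, 0 < ε ∧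
  ∀ (M : Type) [TopologicalSpace M] [CompactSpace M] [MeasurableSpace M] [BorelSpace M]
    (C : CD M N), CurvGE C ε → PtK C n κ → Conn C → Moll C → Dense2 C → Reg C →
    ∃ d : Fin (N + 1) → ℕ, Pd d ∧ d 0 = 1 ∧ (∀ p : Fin (N + 1), bet C p ≤ d p) ∧
      ∑ p : Fin (N + 1), (-1 : ℤ) ^ (p : ℕ) * (d p : ℤ) =
        ∑ p ∈ Finset.range (N + 1), (-1 : ℤ) ^ p * (bet C p : ℤ)

/-- the abstract theorem -/
def S_CHIC : Prop := ∀ (N n : ℕ) (κ : ℝ), n ≤ N → 3 ≤ N → 2 ≤ n → 0 < κ → ∃ ε : ℝ, 0 < ε ∧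
  ∀ (M : Type) [TopologicalSpace M] [CompactSpace M] [MeasurableSpace M] [BorelSpace M]
    (C : CD M N), CurvGE C ε → PtK C n κ → Conn C → Moll C → Dense2 C → Reg C →
    bet C 1 = 0 ∧ (4 ≤ n → bet C 3 = 0) ∧
    (bet C 2 = 0 ∨ (Even n ∧ ∀ p, p ≤ n → bet C p = if Even p then 1 else 0))

end Pool.Agent.H781.KP
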