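import Pool.Agent.H781.CM.AllG
import Pool.Agent.H781.CM.FDefs2
import Pool.Agent.H781.H6.G
import Pool.Agent.H781.KP.A

/-!
Project KP, geometric part: statements.
-/

set_option autoImplicit false
set_option synthInstance.maxHeartbeats 400000
set_option maxHeartbeats 4000000
set_option linter.unusedSectionVars false

open Bundle Manifold ContDiff VectorField MeasureTheory Filter
open scoped Topology

noncomputable section

namespace Pool.Agent.H781.KP

open Pool.Agent.H781.NG Pool.Agent.H781.CM Pool.Agent.H781.H6 Pool.Agent.H821R2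
  Pool.Agent.H821R3 Pool.Agent.H893R5.HO Pool.Agent.H781.S22

/-- transfer of the lower bound of the sectional curvature -/
def S_PKX : Prop := ∀ (n : ℕ) (M : Type) [TopologicalSpace M] [T2Space M] [CompactSpace M]
  [ChartedSpace (EU n) M] [IsManifold (𝓡 n) ∞ M] [MeasurableSpace M] [BorelSpace M] (N : ℕ)
  (D : GD n M N) (κ : ℝ), 1 ≤ n → CM.F.SecGE D.g κ → PtK D.C n κ

/-- functions with vanishing gradient on connected manifolds -/
def S_GCONN : Prop := ∀ (n : ℕ) (M : Type) [TopologicalSpace M] [T2Space M] [CompactSpace M]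
  [ConnectedSpace M] [ChartedSpace (EU n) M] [IsManifold (𝓡 n) ∞ M] [MeasurableSpace M]
  [BorelSpace M] (N : ℕ) (D : GD n M N), Conn D.C

/-- a direction which is nowhere tangential (theorem of Sard, easy case) -/
def S_SARD : Prop := ∀ (n : ℕ) (M : Type) [TopologicalSpace M] [T2Space M] [CompactSpace M]
  [ChartedSpace (EU n) M] [IsManifold (𝓡 n) ∞ M] (g : Met n M) (k : ℕ) (T : PF g (k + 1)),
  1 ≤ n → 2 * n ≤ k → ∃ c : Fin (k + 1) → ℝ, ∑ a, c a ^ 2 = 1 ∧
    ∀ p : M, g.inner p (∑ a, c a • T.X a p) (∑ a, c a • T.X a p) < 1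

/-- reduction of the number of vector fields of a Parseval frame -/
def S_RED : Prop := ∀ (n : ℕ) (M : Type) [TopologicalSpace M] [T2Space M] [CompactSpace M]
  [ChartedSpace (EU n) M] [IsManifold (𝓡 n) ∞ M] (g : Met n M) (k : ℕ) (T : PF g (k + 1))
  (c : Fin (k + 1) → ℝ), ∑ a, c a ^ 2 = 1 →
  (∀ p : M, g.inner p (∑ a, c a • T.X a p) (∑ a, c a • T.X a p) < 1) → Nonempty (PF g k)

/-- Parseval frames of `2 n` vector fields -/
def S_PFU : Prop := ∀ (n : ℕ) (M : Type) [TopologicalSpace M] [T2Space M] [CompactSpace M]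
  [ChartedSpace (EU n) M] [IsManifold (𝓡 n) ∞ M], 1 ≤ n → ∀ g : Met n M, Nonempty (PF g (2 * n))

/-- existence of the data, with `2 n` vector fields -/
def S_GDU : Prop := ∀ (n : ℕ) (M : Type) [TopologicalSpace M] [T2Space M] [CompactSpace M]
  [Nonempty M] [ChartedSpace (EU n) M] [IsManifold (𝓡 n) ∞ M] [MeasurableSpace M] [BorelSpace M],
  1 ≤ n → ∀ (g : Met n M) (cov : Cov n M) (R : CurvField (𝓡 n) M),
    IsLeviCivita g cov → IsRiemannTensor cov R → ∃ D : GD n M (2 * n), D.g = g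

/-- the theorem -/
def S_MAINK : Prop := ∀ (m : ℕ) (κ : ℝ), 1 ≤ m → 0 < κ → ∃ ε : ℝ, 0 < ε ∧
  ∀ (M : Type) [TopologicalSpace M] [T2Space M] [CompactSpace M] [ConnectedSpace M]
    [ChartedSpace (EU (2 * m)) M] [IsManifold (𝓡 (2 * m)) ∞ M] (g : Met (2 * m) M),
  CM.F.SecGE g κ → CM.F.CurvOpGE (2 * m) g (-ε) →
  ∃ b : ℕ → ℕ, (∀ p, CM.F.IsBetti (𝓡 (2 * m)) M p (b p)) ∧
    0 < ∑ p ∈ Finset.range (2 * m + 1), (-1 : ℤ) ^ p * (b p : ℤ)

end Pool.Agent.H781.KP
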