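import Pool.Agent.H781.KP.G
import Pool.Agent.H781.KP.B

/-!
Project KP, second Betti number: geometric statement.
-/

set_option autoImplicit false
set_option synthInstance.maxHeartbeats 400000
set_option maxHeartbeats 4000000
set_option linter.unusedSectionVars false

open Bundle Manifold ContDiff VectorField MeasureTheory Filter
open scoped Topology

noncomputable section

namespace Pool.Agent.H781.KP

open Pool.Agent.H781.NG Pool.Agent.H781.CM Pool.Agent.H781.H6 Pool.Agent.H821R2
  Pool.Agent.H821R3 Pool.Agent.H893R5.HO Pool.Agent.H781.S22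

/-- the theorem on the second Betti number -/
def S_MAINB : Prop := ∀ (n : ℕ) (κ : ℝ), 2 ≤ n → 0 < κ → ∃ ε : ℝ, 0 < ε ∧
  ∀ (M : Type) [TopologicalSpace M] [T2Space M] [CompactSpace M] [ConnectedSpace M]
    [ChartedSpace (EU n) M] [IsManifold (𝓡 n) ∞ M] (g : Met n M),
  CM.F.SecGE g κ → CM.F.CurvOpGE n g (-ε) →
  ∃ b : ℕ, CM.F.IsBetti (𝓡 n) M 2 b ∧ b ≤ 1 ∧ (Odd n → b = 0)

end Pool.Agent.H781.KP
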