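import Pool.Agent.H781.KP.C

/-!
Project KP, cohomology ring (MP_4e0d62_gt, MP_51e8f1_gt): in the case `b_2 ≠ 0` the real cohomology
ring is that of a complex projective space. Statements.
-/

set_option autoImplicit false
set_option synthInstance.maxHeartbeats 400000
set_option maxHeartbeats 4000000
set_option linter.unusedSectionVars false

open MeasureTheory Filter
open scoped Topology ContDiff

noncomputable section

namespace Pool.Agent.H781.KP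

open Pool.Agent.H781.NG Pool.Agent.H781.CM Pool.Agent.H781.H6

/-- the part of degree `m` -/
def dg {N : ℕ} {A : Type*} [CommRing A] (m : ℕ) (w : Fk N A) : Fk N A :=
  fun S => if S.card = m then w S else 0

/-- `KA` with explicit constants -/
def KAc (n N : ℕ) (η κ : ℝ) (d : Fin (N + 1) → ℕ)
    (c : (Σ p, Fin (d p)) → (Σ p, Fin (d p)) → (Σ p, Fin (d p)) → ℝ) : Prop :=
  ∃ (a : (Σ p, Fin (d p)) → Fk n ℝ) (R : T4 n),
    (∀ x, Deg x.1 (a x)) ∧ d 0 = 1 ∧ (∀ i : Fin (d 0), a ⟨0, i⟩ = vac ∨ a ⟨0, i⟩ = - vac) ∧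
    (∀ x y, |ip (a x) (a y) - if x = y then 1 else 0| ≤ η) ∧
    (∀ x y z, |c x y z| ≤ 2 ^ N) ∧
    (∀ x y S, |(mulF (a x) (a y) - ∑ z, c x y z • a z) S| ≤ η) ∧
    IsAC R ∧ COp R η ∧ KGE R κ ∧ ∀ x, rc R (a x) ≤ η

/-- existence of the limits, for sequences -/
def S_LIMS : Prop := ∀ (n N : ℕ) (d : Fin (N + 1) → ℕ) (κ : ℝ)
  (c : ℕ → (Σ p, Fin (d p)) → (Σ p, Fin (d p)) → (Σ p, Fin (d p)) → ℝ), 2 ≤ n → 0 < κ →
  (∀ k : ℕ, KAc n N (1 / ((k : ℝ) + 1)) κ d (c k)) →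
  ∃ (φ : ℕ → ℕ) (c' : (Σ p, Fin (d p)) → (Σ p, Fin (d p)) → (Σ p, Fin (d p)) → ℝ)
    (a : (Σ p, Fin (d p)) → Fk n ℝ) (R : T4 n), StrictMono φ ∧
    Tendsto (fun k => c (φ k)) atTop (𝓝 c') ∧
    (∀ x y, mulF (a x) (a y) = ∑ z, c' x y z • a z) ∧ LimA (fun x => (x.1 : ℕ)) a R

/-- the possible dimensions -/
def PdC (n N : ℕ) (d : Fin (N + 1) → ℕ) : Prop :=
  (∀ p : Fin (N + 1), (p : ℕ) = 1 → d p = 0) ∧
  (4 ≤ n → ∀ p : Fin (N + 1), (p : ℕ) = 3 → d p = 0) ∧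
  ∀ p : Fin (N + 1), (p : ℕ) = 2 → d p = 0 ∨ (Even n ∧
    ∀ q : Fin (N + 1), d q = if Even (q : ℕ) ∧ (q : ℕ) ≤ n then 1 else 0)

/-- the structure constants do not vanish -/
def S_NZC : Prop := ∀ (n N : ℕ) (d : Fin (N + 1) → ℕ) (κ : ℝ), 2 ≤ n → 0 < κ →
  ∃ η : ℝ, 0 < η ∧ ∀ c, KAc n N η κ d c → PdC n N d ∧
    ∀ (k : ℕ) (x y z : Σ p, Fin (d p)), 2 * k + 2 ≤ n → (x.1 : ℕ) = 2 → (y.1 : ℕ) = 2 * k →
      (z.1 : ℕ) = 2 * k + 2 → 2 * η ≤ |c x y z|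

/-! ### Analysis -/

/-- moments of the length of a harmonic form -/
def S_MOM : Prop := ∀ (M : Type) [TopologicalSpace M] [CompactSpace M] [MeasurableSpace M]
  [BorelSpace M] (N : ℕ) (C : CD M N) (K ε : ℝ), 0 ≤ K → 0 ≤ ε → CurvGE C ε → Poin C K →
  K * (ε * N ^ 2) ≤ 1 / 16 → ∀ (p : ℕ) (h : Fk N C.A), Hor C h → Deg p h → DD C h = 0 →
  nq C h = 1 → ig C (ip h h ^ 4) ≤ 2 ∧ ig C ((ip h h - 1) ^ 2) ≤ 4 * (K * (ε * N ^ 2))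

/-- products and truncated products of harmonic forms -/
def S_PRD : Prop := ∀ (M : Type) [TopologicalSpace M] [CompactSpace M] [MeasurableSpace M]
  [BorelSpace M] (N : ℕ) (C : CD M N) (K ε : ℝ), 0 ≤ K → 0 ≤ ε → CurvGE C ε → Poin C K →
  K * (ε * N ^ 2) ≤ 1 / 16 → ∀ (p q r : ℕ) (x y z w : Fk N C.A), Hor C x → Hor C y → Hor C z →
  Deg p x → Deg q y → Deg r z → DD C x = 0 → DD C y = 0 → DD C z = 0 → nq C x = 1 → nq C y = 1 →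
  nq C z = 1 → (∀ s, ∀ S, C.ev s (w S) = mulF (fun T => 2 / (1 + C.ev s (ip x x)) * C.ev s (x T))
      (fun T => 2 / (1 + C.ev s (ip y y)) * C.ev s (y T)) S) →
  |pr C w z - pr C (mulF x y) z| ≤ 9 * 2 ^ N * √(K * (ε * N ^ 2))

/-- `GP` with explicit data -/
def GPc {M : Type} [TopologicalSpace M] [CompactSpace M] [MeasurableSpace M] [BorelSpace M]
    {N : ℕ} (C : CD M N) (η : ℝ) (d : Fin (N + 1) → ℕ) (q : M)
    (u : (Σ p, Fin (d p)) → Fk N C.A)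
    (c : (Σ p, Fin (d p)) → (Σ p, Fin (d p)) → (Σ p, Fin (d p)) → ℝ) : Prop :=
  (∀ x, Hor C (u x)) ∧ (∀ x, Deg x.1 (u x)) ∧ d 0 = 1 ∧
  (∀ i : Fin (d 0), evq C q (u ⟨0, i⟩) = vac ∨ evq C q (u ⟨0, i⟩) = - vac) ∧
  (∀ x y, |ip (evq C q (u x)) (evq C q (u y)) - if x = y then 1 else 0| ≤ η) ∧
  (∀ x y z, |c x y z| ≤ 2 ^ N) ∧
  (∀ x y S, |(mulF (evq C q (u x)) (evq C q (u y)) - ∑ z, c x y z • evq C q (u z)) S| ≤ η) ∧
  ∀ x, C.ev q (ric C.F (u x)) ≤ η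

/-- an orthonormal basis of the small eigenforms, with almost the true structure constants for
harmonic forms -/
def OBc {M : Type} [TopologicalSpace M] [CompactSpace M] [MeasurableSpace M] [BorelSpace M]
    {N : ℕ} (C : CD M N) (η t : ℝ) (d : Fin (N + 1) → ℕ) (u : (Σ p, Fin (d p)) → Fk N C.A)
    (c : (Σ p, Fin (d p)) → (Σ p, Fin (d p)) → (Σ p, Fin (d p)) → ℝ) : Prop :=
  (∀ x, u x ∈ Evp C t x.1) ∧ (∀ x y, pr C (u x) (u y) = if x = y then 1 else 0) ∧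
  ∀ x y z, DD C (u x) = 0 → DD C (u y) = 0 → DD C (u z) = 0 →
    |c x y z - pr C (mulF (u x) (u y)) (u z)| ≤ η

/-- existence of good points -/
def S_APPR : Prop := ∀ (N : ℕ), 0 < N → ∀ (η K : ℝ), 0 < η → 0 ≤ K → ∃ δ : ℝ, 0 < δ ∧
  ∀ (M : Type) [TopologicalSpace M] [CompactSpace M] [MeasurableSpace M] [BorelSpace M]
    (C : CD M N) (ε t t' : ℝ), 0 ≤ ε → CurvGE C ε → Moll C → Dense2 C → Reg C → Poin C K →
    0 < t → t ≤ t' → Ev C t' = Ev C t → t + ε * N ^ 2 ≤ δ → t + ε * N ^ 2 ≤ δ * t' →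
    (∀ u ∈ Evp C t 0, ∃ c : ℝ, u = c • (vac : Fk N C.A)) →
    Module.finrank ℝ (Ev C t) ≤ 2 ^ N →
    ∃ q u c, GPc C η (fun p => Module.finrank ℝ (Evp C t p)) q u c ∧
      OBc C η t (fun p => Module.finrank ℝ (Evp C t p)) u c

/-- transfer to `Λ ℝⁿ` -/
def S_KAXC : Prop := ∀ (N n : ℕ) (κ η : ℝ), 0 < η → ∃ η' : ℝ, 0 < η' ∧
  ∀ (M : Type) [TopologicalSpace M] [CompactSpace M] [MeasurableSpace M] [BorelSpace M]
    (C : CD M N) (d : Fin (N + 1) → ℕ) (q : M) (u : (Σ p, Fin (d p)) → Fk N C.A)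
    (c : (Σ p, Fin (d p)) → (Σ p, Fin (d p)) → (Σ p, Fin (d p)) → ℝ),
    CurvGE C η → PtK C n κ → GPc C η' d q u c → KAc n N η κ d c

/-- small eigenvalues and Betti numbers -/
def S_FINR : Prop := ∀ (N n : ℕ) (κ : ℝ), 0 < N → 2 ≤ n → 0 < κ → ∀ η : ℝ, 0 < η →
  ∃ ε : ℝ, 0 < ε ∧
  ∀ (M : Type) [TopologicalSpace M] [CompactSpace M] [MeasurableSpace M] [BorelSpace M]
    (C : CD M N), CurvGE C ε → PtK C n κ → Conn C → Moll C → Dense2 C → Reg C →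
    ∃ (t : ℝ) (d : Fin (N + 1) → ℕ) (u : (Σ p, Fin (d p)) → Fk N C.A)
      (c : (Σ p, Fin (d p)) → (Σ p, Fin (d p)) → (Σ p, Fin (d p)) → ℝ), 0 < t ∧
      (∀ p : Fin (N + 1), d p = Module.finrank ℝ (Evp C t p)) ∧ Module.Finite ℝ (Ev C t) ∧
      KAc n N η κ d c ∧ ∑ p, d p ≤ 2 ^ N ∧ OBc C η t d u c ∧
      (∀ p : Fin (N + 1), bet C p ≤ d p) ∧
      ∑ p : Fin (N + 1), (-1 : ℤ) ^ (p : ℕ) * (d p : ℤ) =
        ∑ p ∈ Finset.range (N + 1), (-1 : ℤ) ^ p * (bet C p : ℤ)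

/-- the exterior product -/
def S_WDG : Prop := ∀ (M : Type) [TopologicalSpace M] [CompactSpace M] [MeasurableSpace M]
  [BorelSpace M] (N : ℕ) (C : CD M N) (p q : ℕ) (u v : Fk N C.A), Hor C u → Hor C v → Deg p u →
  Deg q v → Hor C (dg (p + q) (mulF u v)) ∧ Deg (p + q) (dg (p + q) (mulF u v)) ∧
    dd C.F (dg (p + q) (mulF u v)) = dg (p + q + 1) (mulF (dd C.F u) v) +
      (-1 : ℝ) ^ p • dg (p + q + 1) (mulF u (dd C.F v))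

/-- the abstract theorem -/
def S_CHIR : Prop := ∀ (N n : ℕ) (κ : ℝ), n ≤ N → 3 ≤ N → 2 ≤ n → 0 < κ → ∃ ε : ℝ, 0 < ε ∧
  ∀ (M : Type) [TopologicalSpace M] [CompactSpace M] [MeasurableSpace M] [BorelSpace M]
    (C : CD M N), CurvGE C ε → PtK C n κ → Conn C → Moll C → Dense2 C → Reg C →
    bet C 1 = 0 ∧ (4 ≤ n → bet C 3 = 0) ∧
    (bet C 2 = 0 ∨ (Even n ∧ ∀ p, p ≤ n → bet C p = if Even p then 1 else 0)) ∧
    ∀ k : ℕ, 2 * k + 2 ≤ n → ∀ α ∈ Zp C 2, ∀ β ∈ Zp C (2 * k), α ∉ Bp C 2 → β ∉ Bp C (2 * k) →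
      dg (2 * k + 2) (mulF α β) ∉ Bp C (2 * k + 2)

end Pool.Agent.H781.KP
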