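import Pool.Agent.H781.KP.G
import Pool.Agent.H781.KP.R

/-!
Project KP, cohomology ring: geometric statement.
-/

set_option autoImplicit false
set_option synthInstance.maxHeartbeats 400000
set_option maxHeartbeats 4000000
set_option linter.unusedSectionVars false

open Bundle Manifold ContDiff VectorField MeasureTheory Filter
open scoped Topology

noncomputable section

namespace Pool.Agent.H781.KP

open Pool.Agent.H781.NG Pool.Agent.H781.CM Pool.Agent.H781.H6 Pool.Agent.H821R2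
  Pool.Agent.H821R3 Pool.Agent.H893R5.HO Pool.Agent.H781.S22

section forms

variable {E : Type*} [NormedAddCommGroup E] [NormedSpace ℝ E]
  {H : Type*} [TopologicalSpace H] {I : ModelWithCorners ℝ E H}
  {M : Type*} [TopologicalSpace M] [ChartedSpace H M]

/-- the exterior product of a 2-form and a form of degree `p`:
`(α ∧ β)(v) = ∑_{i < j} (-1)^(i+j+1) α(v_i, v_j) β(v_0, …, v̂_i, …, v̂_j, …, v_{p+1})` -/
def wedge2 {p : ℕ} (α : CM.F.DF I M 2) (β : CM.F.DF I M p) : CM.F.DF I M (p + 2) := fun x v =>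
  ∑ j : Fin (p + 2), ∑ i : Fin (p + 1), if (i : ℕ) < (j : ℕ) then
    (-1 : ℝ) ^ ((i : ℕ) + (j : ℕ) + 1) * α x ![v i.castSucc, v j] *
      β x (fun k => i.removeNth (j.removeNth v) k) else 0

/-- the powers of a 2-form -/
def pw (α : CM.F.DF I M 2) : (k : ℕ) → CM.F.DF I M (2 * k)
  | 0 => fun _ _ => 1
  | k + 1 => wedge2 α (pw α k)

end forms

/-- the exterior product with an element of degree two -/
def S_PHW2 : Prop := ∀ (N p : ℕ) (u v : Fk N ℝ), Deg 2 u → Deg p v →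
  ∀ V : Fin (p + 2) → Fin N → ℝ, phi (p + 2) V (mulF u v) =
    ∑ j : Fin (p + 2), ∑ i : Fin (p + 1), if (i : ℕ) < (j : ℕ) then
      (-1 : ℝ) ^ ((i : ℕ) + (j : ℕ) + 1) * phi 2 ![V i.castSucc, V j] u *
        phi p (fun k => i.removeNth (j.removeNth V) k) v else 0

/-- the theorem on the cohomology ring -/
def S_MAINR : Prop := ∀ (n : ℕ) (κ : ℝ), 2 ≤ n → 0 < κ → ∃ ε : ℝ, 0 < ε ∧
  ∀ (M : Type) [TopologicalSpace M] [T2Space M] [CompactSpace M] [ConnectedSpace M]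
    [ChartedSpace (EU n) M] [IsManifold (𝓡 n) ∞ M] (g : Met n M),
  CM.F.SecGE g κ → CM.F.CurvOpGE n g (-ε) →
  (∃ b : ℕ → ℕ, (∀ p, CM.F.IsBetti (𝓡 n) M p (b p)) ∧ b 1 = 0 ∧ (4 ≤ n → b 3 = 0) ∧
    (b 2 = 0 ∨ (Even n ∧ ∀ p, p ≤ n → b p = if Even p then 1 else 0))) ∧
  ∀ α : CM.F.DF (𝓡 n) M 2, CM.F.IsClosedForm α → ¬ CM.F.IsExactForm 2 α →
    ∀ k : ℕ, 2 * k ≤ n → CM.F.IsClosedForm (pw α k) ∧ ¬ CM.F.IsExactForm (2 * k) (pw α k)

end Pool.Agent.H781.KP
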