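import Pool.Agent.H781.KP.GR
import Pool.Agent.H781.KP.W

/-!
Project KP, cohomology ring in all degrees: geometric statement.
-/

set_option autoImplicit false
set_option synthInstance.maxHeartbeats 400000
set_option maxHeartbeats 4000000
set_option linter.unusedSectionVars false

open Bundle Manifold ContDiff VectorField MeasureTheory Filter
open scoped Topology

noncomputable section

namespace Pool.Agent.H781.KP

open Pool.Agent.H781.NG Pool.Agent.H781.CM Pool.Agent.H781.H6 Pool.Agent.H821R2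
  Pool.Agent.H821R3 Pool.Agent.H893R5.HO Pool.Agent.H781.S22

section forms

variable {E : Type*} [NormedAddCommGroup E] [NormedSpace ℝ E]
  {H : Type*} [TopologicalSpace H] {I : ModelWithCorners ℝ E H}
  {M : Type*} [TopologicalSpace M] [ChartedSpace H M]

/-- the exterior product of differential forms:
`(α ∧ β)(v_0, …, v_{p+q-1}) = 1/(p! q!) ∑_σ sign σ α(v_{σ 0}, …, v_{σ (p-1)}) β(v_{σ p}, …)` -/
def wedge {p q : ℕ} (α : CM.F.DF I M p) (β : CM.F.DF I M q) : CM.F.DF I M (p + q) := fun x v =>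
  1 / ((p.factorial : ℝ) * (q.factorial : ℝ)) * ∑ σ : Equiv.Perm (Fin (p + q)),
    ((Equiv.Perm.sign σ : ℤ) : ℝ) * α x (fun i => v (σ (Fin.castAdd q i))) *
      β x (fun j => v (σ (Fin.natAdd p j)))

end forms

/-- the exterior product of elements of given degrees -/
def S_PHWG : Prop := ∀ (N p q : ℕ) (u v : Fk N ℝ), Deg p u → Deg q v →
  ∀ V : Fin (p + q) → Fin N → ℝ, phi (p + q) V (mulF u v) =
    1 / ((p.factorial : ℝ) * (q.factorial : ℝ)) * ∑ σ : Equiv.Perm (Fin (p + q)),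
      ((Equiv.Perm.sign σ : ℤ) : ℝ) * phi p (fun i => V (σ (Fin.castAdd q i))) u *
        phi q (fun j => V (σ (Fin.natAdd p j))) v

/-- the theorem on the cohomology ring -/
def S_MAINW : Prop := ∀ (n : ℕ) (κ : ℝ), 2 ≤ n → 0 < κ → ∃ ε : ℝ, 0 < ε ∧
  ∀ (M : Type) [TopologicalSpace M] [T2Space M] [CompactSpace M] [ConnectedSpace M]
    [ChartedSpace (EU n) M] [IsManifold (𝓡 n) ∞ M] (g : Met n M),
  CM.F.SecGE g κ → CM.F.CurvOpGE n g (-ε) →
  (∃ b : ℕ → ℕ, (∀ p, CM.F.IsBetti (𝓡 n) M p (b p)) ∧ BSt n b) ∧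
  ∀ p q : ℕ, 1 ≤ p → 1 ≤ q → p + q ≤ n → ∀ (α : CM.F.DF (𝓡 n) M p) (β : CM.F.DF (𝓡 n) M q),
    CM.F.IsClosedForm α → ¬ CM.F.IsExactForm p α → CM.F.IsClosedForm β →
    ¬ CM.F.IsExactForm q β →
    CM.F.IsClosedForm (wedge α β) ∧ ¬ CM.F.IsExactForm (p + q) (wedge α β)

end Pool.Agent.H781.KP
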