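import Pool.Agent.H781.KP.K
import Pool.Agent.H781.KP.R

/-!
Project KP, structure theorem, second part (MP_4e0d62_gt): exterior products of invariant forms and
the Betti numbers in even dimensions. Statements.
-/

set_option autoImplicit false
set_option synthInstance.maxHeartbeats 400000
set_option maxHeartbeats 4000000
set_option linter.unusedSectionVars false

open MeasureTheory Filter
open scoped Topology ContDiff

noncomputable section

namespace Pool.Agent.H781.KP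

open Pool.Agent.H781.NG Pool.Agent.H781.CM Pool.Agent.H781.H6

/-- change of basis and restriction of invariant forms and their products -/
def S_RSTW : Prop := ∀ (n : ℕ) (R : T4 n), IsAC R → ∀ (D r : ℕ) (_ : n = D + r)
  (b : Fin (D + r) → Fin n → ℝ), ON b →
  HL (fun i j k l => R4 R (b i) (b j) (b k) (b l)) →
  ∃ T : Fk n ℝ →ₗ[ℝ] Fk (D + r) ℝ, Function.Injective T ∧ (∀ p u, Deg p u → Deg p (T u)) ∧
    (∀ u, InvF R u → InvF (fun i j k l => R4 R (b i) (b j) (b k) (b l)) (T u)) ∧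
    (∀ p u, Deg p u → Deg p (rF (T u))) ∧
    (∀ u, InvF R u → InvF (Rf (fun i j k l => R4 R (b i) (b j) (b k) (b l))) (rF (T u))) ∧
    ∀ p q u v, Deg p u → Deg q v →
      rF (T (dg (p + q) (mulF u v))) = dg (p + q) (mulF (rF (T u)) (rF (T v)))

/-- duality of invariant forms -/
def S_DUAL : Prop := ∀ (n : ℕ) (R : T4 n) (p q : ℕ) (u v : Fk n ℝ), IsAC R → p + q = n →
  (∀ w w', Deg p w → Deg p w' → InvF R w → InvF R w' →
    ∃ s t : ℝ, (s ≠ 0 ∨ t ≠ 0) ∧ s • w + t • w' = 0) →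
  Deg p u → Deg q v → InvF R u → InvF R v → u ≠ 0 → v ≠ 0 → dg n (mulF u v) ≠ 0

/-- exterior products of invariant forms -/
def S_WNZ : Prop := ∀ (n : ℕ) (R : T4 n) (D : ℕ), 1 ≤ n → KS 1 R → KD 1 R D → 2 ≤ D →
  ∀ (p q : ℕ) (u v : Fk n ℝ), p + q ≤ n → Deg p u → Deg q v → InvF R u → InvF R v → u ≠ 0 →
    v ≠ 0 → dg (p + q) (mulF u v) ≠ 0

/-- the possible dimensions -/
def PdL (n N : ℕ) (d : Fin (N + 1) → ℕ) : Prop := PdK n N d ∧
  (∀ p q s : Fin (N + 1), (p : ℕ) + (q : ℕ) = (s : ℕ) → (s : ℕ) ≤ n → d p ≠ 0 → d q ≠ 0 →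
    d s ≠ 0) ∧
  ∀ s : Fin (N + 1), (s : ℕ) = n → d s ≠ 0 → ∀ p q : Fin (N + 1), (p : ℕ) + (q : ℕ) = n →
    d p = d q

/-- the algebraic theorem -/
def S_PDLS : Prop := ∀ (n N : ℕ) (d : Fin (N + 1) → ℕ) (κ : ℝ), 2 ≤ n → 0 < κ →
  (∀ η : ℝ, 0 < η → KA n N η κ d) → PdL n N d

/-- The structure of the Betti numbers: they are at most one; for odd `n` they vanish in the
degrees `0 < p < n`; for even `n` those of odd degree vanish, the degrees `p ≤ n` with `b p ≠ 0` are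
closed under addition (as far as the sum is at most `n`), and if `b n ≠ 0` then they are the
multiples of an even divisor `q` of `n`. -/
def BSt (n : ℕ) (b : ℕ → ℕ) : Prop :=
  (∀ p, b p ≤ 1) ∧ (Odd n → ∀ p, 0 < p → p < n → b p = 0) ∧
  (Even n → (∀ p, Odd p → b p = 0) ∧
    (∀ p q, p + q ≤ n → b p ≠ 0 → b q ≠ 0 → b (p + q) ≠ 0) ∧
    (b n ≠ 0 → ∃ q, 2 ≤ q ∧ Even q ∧ q ∣ n ∧ ∀ p, p ≤ n → b p = if q ∣ p then 1 else 0))

/-- the abstract theorem -/
def S_CHIL : Prop := ∀ (N n : ℕ) (κ : ℝ), n ≤ N → 2 ≤ n → 0 < κ → ∃ ε : ℝ, 0 < ε ∧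
  ∀ (M : Type) [TopologicalSpace M] [CompactSpace M] [MeasurableSpace M] [BorelSpace M]
    (C : CD M N), CurvGE C ε → PtK C n κ → Conn C → Moll C → Dense2 C → Reg C →
    BSt n (bet C)

end Pool.Agent.H781.KP
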